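import Pool.Agent.VINO.MPars

/-!
# VINO / MTran: transference

PROOF.  `pars` for `F s = f (T^[s] x)` (`f (T^[s + m] x)`), integrated over `x`; `∫ ‖∑_m w m f (T^[s + m] x)‖^2 dμ` does not depend
on `s` (`(hT.iterate s)` is measure preserving; the integrand is a measurable bounded function of `T^[s] x`), and
`∫ ‖f (T^[s] x)‖^2 = ∫ ‖f‖^2`. So `I * lhs ≤ B^2 (I + J) ∫ ‖f‖^2` for all `I`; divide by `I` and let `I → ∞`.
-/

set_option autoImplicit false

namespace Pool.Agent.VINO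

open Pool.Agent.VMV MeasureTheory

theorem tran {X : Type*} [MeasurableSpace X] (μ : Measure X) [IsFiniteMeasure μ] (T : X → X)
    (hT : MeasurePreserving T μ μ) (J : ℕ) (w : ℕ → ℂ) (B : ℝ)
    (hB : ∀ θ : ℝ, ‖∑ m ∈ Finset.range J, w m * e (θ * m)‖ ≤ B) (f : X → ℂ)
    (hf : Measurable f) (hb : ∃ M : ℝ, ∀ x, ‖f x‖ ≤ M) :
    ∫ x, ‖∑ m ∈ Finset.range J, w m * f (T^[m] x)‖ ^ 2 ∂μ ≤ B ^ 2 * ∫ x, ‖f x‖ ^ 2 ∂μ := by
  obtain ⟨M, hM⟩ := hb
  have hTm : ∀ m, Measurable (T^[m]) := fun m => (hT.iterate m).measurable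
  set g : X → ℝ := fun x => ‖∑ m ∈ Finset.range J, w m * f (T^[m] x)‖ ^ 2 with hg
  set k : X → ℝ := fun x => ‖f x‖ ^ 2 with hk
  have hgm : Measurable g := by
    have : Measurable fun x => ∑ m ∈ Finset.range J, w m * f (T^[m] x) :=
      Finset.measurable_fun_sum _ fun m _ => (hf.comp (hTm m)).const_mul _
    exact this.norm.pow_const 2
  have hkm : Measurable k := hf.norm.pow_const 2
  have hgb : ∀ x, ‖g x‖ ≤ (∑ m ∈ Finset.range J, ‖w m‖ * M) ^ 2 := by
    intro x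
    rw [hg, Real.norm_of_nonneg (by positivity)]
    refine pow_le_pow_left₀ (norm_nonneg _) ?_ 2
    refine (norm_sum_le _ _).trans (Finset.sum_le_sum fun m _ => ?_)
    rw [norm_mul]
    exact mul_le_mul_of_nonneg_left (hM _) (norm_nonneg _)
  have hkb : ∀ x, ‖k x‖ ≤ M ^ 2 := by
    intro x
    rw [hk, Real.norm_of_nonneg (by positivity)]
    exact pow_le_pow_left₀ (norm_nonneg _) (hM _) 2
  have hint : ∀ {h : X → ℝ}, Measurable h → (∃ C : ℝ, ∀ x, ‖h x‖ ≤ C) → ∀ s : ℕ,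
      Integrable (fun x => h (T^[s] x)) μ := by
    rintro h hh ⟨C, hC⟩ s
    exact Integrable.of_bound (hh.comp (hTm s)).aestronglyMeasurable C
      (Filter.Eventually.of_forall fun x => hC _)
  have hinv : ∀ {h : X → ℝ}, Measurable h → ∀ s : ℕ, ∫ x, h (T^[s] x) ∂μ = ∫ x, h x ∂μ := by
    intro h hh s
    have h1 := integral_map (μ := μ) (hTm s).aemeasurable hh.aestronglyMeasurable
    rw [(hT.iterate s).map_eq] at h1
    exact h1.symm
  have key : ∀ I : ℕ, (I : ℝ) * ∫ x, g x ∂μ ≤ B ^ 2 * (((I + J : ℕ) : ℝ) * ∫ x, k x ∂μ) := by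
    intro I
    have h1 : ∀ x, ∑ s ∈ Finset.range I, g (T^[s] x) ≤
        B ^ 2 * ∑ s ∈ Finset.range (I + J), k (T^[s] x) := by
      intro x
      have h2 := pars J w B hB I (fun s => f (T^[s] x))
      refine le_trans (le_of_eq ?_) h2
      refine Finset.sum_congr rfl fun s _ => ?_
      rw [hg]
      simp only
      congr 2
      refine Finset.sum_congr rfl fun m _ => ?_
      rw [← Function.iterate_add_apply, add_comm m s]
    have h3 : ∫ x, ∑ s ∈ Finset.range I, g (T^[s] x) ∂μ ≤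
        ∫ x, B ^ 2 * ∑ s ∈ Finset.range (I + J), k (T^[s] x) ∂μ := by
      refine integral_mono ?_ ?_ h1
      · exact integrable_finsetSum _ fun s _ => hint hgm ⟨_, hgb⟩ s
      · exact (integrable_finsetSum _ fun s _ => hint hkm ⟨_, hkb⟩ s).const_mul _
    rw [integral_const_mul, integral_finsetSum _ fun s _ => hint hgm ⟨_, hgb⟩ s,
      integral_finsetSum _ fun s _ => hint hkm ⟨_, hkb⟩ s] at h3
    simp only [hinv hgm, hinv hkm, Finset.sum_const, Finset.card_range, nsmul_eq_mul] at h3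
    exact h3
  have hk0 : 0 ≤ ∫ x, k x ∂μ := integral_nonneg fun x => by positivity
  by_contra hcon
  push Not at hcon
  set L := ∫ x, g x ∂μ with hL
  set N := ∫ x, k x ∂μ with hN
  have hd : 0 < L - B ^ 2 * N := by linarith
  obtain ⟨I, hI⟩ := exists_nat_gt ((J : ℝ) * (B ^ 2 * N) / (L - B ^ 2 * N))
  rw [div_lt_iff₀ hd] at hI
  have h1 := key I
  push_cast at h1
  nlinarith [h1, hI]

end Pool.Agent.VINO
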