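import Pool.Agent.VINO.UInt

/-!
# VINO / MWts: the weights of the integral average

For `N ≥ 1`, `m ≥ 0` let `wt N m` be the Lebesgue measure of `{x ∈ [1, N] | ⌊G x⌋ = m}`.
PROOFS.  `wt_int`: the integral over `[1, N]` is the sum over `m ≤ G(N)` of the integrals over the sets
`{x | ⌊G x⌋ = m}` (intervals).
`G` is continuous and strictly increasing on `[1, ∞)`, `G 1 = 1`, unbounded, and convex: `G' x = G x K / x`, `K = (1+c) L^c`,
`L = log x`, `G'' x = G x L^c (1+c) ((1+c) L^c + c/L - 1) / x^2 ≥ 0` for `x > 1`, since `(1+c) L^c + c / L ≥ 1`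
(if `L ≥ 1` the first term is `≥ 1`; if `c ≤ L.. `: in general the minimum over `L` is at `L^(1+c) = 1/(1+c)`, where the value is
`(1+c)/L > 1`; simple proof: if `L ≤ 1` then `L^c ≥ L`, hence `(1+c) L^c + c/L ≥ (1+c) L + c / L`, hmm, for small `c` use
`L^c ≥ 1 - c (1/L - 1)`: from `L^(-c) .. ≥ ..`, i.e. `L^c = exp(-c log(1/L)) ≥ 1 - c log (1/L) ≥ 1 - c (1/L - 1)`, so
`(1+c) L^c + c/L - 1 ≥ L^c + c/L - 1 ≥ c > 0`).
`wt_anti`: so for `1 ≤ m` the set is `[G⁻¹ m, G⁻¹ (m+1))` intersected with `[1, N]`, whose length decreases in `m ≥ 1`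
(convexity: the increments of the inverse function decrease), and `wt N 0 = 0`; `wt N m ≤ G⁻¹ 2 - 1 ≤ 2` (`wt_le`;
`G 3 ≥ 2`: `exp ((log 3)^(1+c)) ≥ exp 1 ≥ 2`, so `G⁻¹ 2 ≤ 3`).
`wts`: Abel summation: `∑_{1 ≤ m ≤ M} wt N m u m = ∑_m (wt N m - wt N (m+1)) ∑_{1 ≤ i ≤ m} u i ≤ ∑_m (wt N m - wt N (m+1)) B (m+1)
≤ 2 B ∑_m wt N m ≤ 2 B N`.
-/

set_option autoImplicit false

namespace Pool.Agent.VINO

open MeasureTheory

/-- The length of the set of the `x ∈ [1, N]` with `⌊G x⌋ = m`. -/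
noncomputable def wt (c : ℝ) (N : ℝ) (m : ℕ) : ℝ :=
  (volume {x : ℝ | x ∈ Set.Ioc 1 N ∧ ⌊G c x⌋₊ = m}).toReal

/-- The inverse function of `G`. -/
private noncomputable def gi (c y : ℝ) : ℝ := Real.exp (Real.log y ^ (1 / (1 + c)))

private theorem gi_one {c : ℝ} (hc0 : 0 < c) : gi c 1 = 1 := by
  have h : (1 / (1 + c)) ≠ 0 := by positivity
  unfold gi
  rw [Real.log_one, Real.zero_rpow h, Real.exp_zero]

private theorem gi_zero {c : ℝ} (hc0 : 0 < c) : gi c 0 = 1 := by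
  have h : (1 / (1 + c)) ≠ 0 := by positivity
  unfold gi
  rw [Real.log_zero, Real.zero_rpow h, Real.exp_zero]

private theorem gi_ge {c y : ℝ} (hy : 1 ≤ y) : 1 ≤ gi c y := by
  unfold gi
  exact Real.one_le_exp (Real.rpow_nonneg (Real.log_nonneg hy) _)

private theorem G_gi {c y : ℝ} (hc0 : 0 < c) (hy : 1 ≤ y) : G c (gi c y) = y := by
  have h : (1 + c) ≠ 0 := by positivity
  unfold G gi
  rw [Real.log_exp, ← Real.rpow_mul (Real.log_nonneg hy), one_div_mul_cancel h, Real.rpow_one,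
    Real.exp_log (by linarith)]

private theorem G_lt {c x y : ℝ} (hc0 : 0 < c) (hx : 1 ≤ x) (hxy : x < y) : G c x < G c y := by
  unfold G
  apply Real.exp_lt_exp.2
  exact Real.rpow_lt_rpow (Real.log_nonneg hx) (Real.log_lt_log (by linarith) hxy) (by linarith)

private theorem G_le {c x y : ℝ} (hc0 : 0 < c) (hx : 1 ≤ x) (hxy : x ≤ y) : G c x ≤ G c y := by
  rcases hxy.eq_or_lt with rfl | h
  · exact le_rfl
  · exact (G_lt hc0 hx h).le

private theorem gi_le_iff {c x : ℝ} (hc0 : 0 < c) (hx : 1 ≤ x) {m : ℝ} (hm : 1 ≤ m) :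
    m ≤ G c x ↔ gi c m ≤ x := by
  constructor
  · intro h
    by_contra hno
    rw [not_le] at hno
    have h1 := G_lt hc0 hx hno
    rw [G_gi hc0 hm] at h1
    linarith
  · intro h
    have h1 := G_le hc0 (gi_ge hm) h
    rwa [G_gi hc0 hm] at h1

private theorem gi_mono {c x y : ℝ} (hc0 : 0 < c) (hx : 1 ≤ x) (hxy : x ≤ y) :
    gi c x ≤ gi c y := by
  unfold gi
  apply Real.exp_le_exp.2
  exact Real.rpow_le_rpow (Real.log_nonneg hx) (Real.log_le_log (by linarith) hxy)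
    (by positivity)

private theorem set_eq {c : ℝ} (hc0 : 0 < c) (N : ℝ) (m : ℕ) (hm : 1 ≤ m) :
    {x : ℝ | x ∈ Set.Ioc 1 N ∧ ⌊G c x⌋₊ = m} =
      Set.Ioc 1 N ∩ Set.Ico (gi c m) (gi c (m + 1)) := by
  have hm' : (1 : ℝ) ≤ m := by exact_mod_cast hm
  ext x
  simp only [Set.mem_setOf_eq, Set.mem_inter_iff, and_congr_right_iff]
  intro hx
  have hG : 0 ≤ G c x := (Real.exp_pos _).le
  rw [Nat.floor_eq_iff hG, Set.mem_Ico, gi_le_iff hc0 hx.1.le hm', ← not_le,
    gi_le_iff hc0 hx.1.le (by linarith), not_le]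

private theorem vol_eq (N p q : ℝ) (hp : 1 ≤ p) (hpq : p ≤ q) :
    (volume (Set.Ioc 1 N ∩ Set.Ico p q)).toReal = min q N - min p N := by
  by_cases h : p ≤ N
  · have h1 : volume (Set.Ioc 1 N ∩ Set.Ico p q) = ENNReal.ofReal (min q N - p) := by
      apply le_antisymm
      · rw [← Real.volume_Icc]
        refine measure_mono ?_
        rintro x ⟨⟨_, hx2⟩, ⟨hx3, hx4⟩⟩
        exact ⟨hx3, le_min hx4.le hx2⟩
      · rw [← Real.volume_Ioo]
        refine measure_mono ?_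
        rintro x ⟨hx1, hx2⟩
        exact ⟨⟨by linarith, (hx2.trans_le (min_le_right _ _)).le⟩, hx1.le,
          hx2.trans_le (min_le_left _ _)⟩
    rw [h1, ENNReal.toReal_ofReal (sub_nonneg.2 (le_min hpq h)), min_eq_left h]
  · rw [not_le] at h
    have h1 : Set.Ioc 1 N ∩ Set.Ico p q = ∅ := by
      ext x
      simp only [Set.mem_inter_iff, Set.mem_Ioc, Set.mem_Ico, Set.mem_empty_iff_false, iff_false]
      rintro ⟨⟨_, hx2⟩, ⟨hx3, _⟩⟩
      linarith
    rw [h1, measure_empty, ENNReal.toReal_zero, min_eq_right h.le, min_eq_right (h.le.trans hpq),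
      sub_self]

private theorem wt_zero {c : ℝ} (N : ℝ) : wt c N 0 = 0 := by
  unfold wt
  have h1 : {x : ℝ | x ∈ Set.Ioc 1 N ∧ ⌊G c x⌋₊ = 0} = ∅ := by
    ext x
    simp only [Set.mem_setOf_eq, Set.mem_empty_iff_false, iff_false]
    rintro ⟨hx, h⟩
    rw [Nat.floor_eq_zero] at h
    have h2 : (1 : ℝ) ≤ G c x := Real.one_le_exp (Real.rpow_nonneg (Real.log_nonneg hx.1.le) _)
    linarith
  rw [h1, measure_empty, ENNReal.toReal_zero]

private theorem wt_eq {c : ℝ} (hc0 : 0 < c) (N : ℝ) (m : ℕ) :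
    wt c N m = min (gi c (m + 1)) N - min (gi c m) N := by
  rcases Nat.eq_zero_or_pos m with rfl | hm
  · rw [wt_zero, Nat.cast_zero, zero_add, gi_one hc0, gi_zero hc0, sub_self]
  · have hm' : (1 : ℝ) ≤ m := by exact_mod_cast hm
    unfold wt
    rw [set_eq hc0 N m hm]
    exact vol_eq N _ _ (gi_ge hm') (gi_mono hc0 hm' (by linarith))

private theorem meas_G (c : ℝ) : Measurable (G c) := by
  unfold G
  exact Real.measurable_exp.comp (Real.measurable_log.pow_const _)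

theorem wt_int {c : ℝ} (hc0 : 0 < c) (u : ℕ → ℂ) (N : ℝ) (hN : 1 ≤ N) (J : ℕ)
    (hJ : ⌊G c N⌋₊ < J) :
    ∫ x in (1 : ℝ)..N, u ⌊G c x⌋₊ = ∑ m ∈ Finset.range J, (wt c N m : ℂ) * u m := by
  have hS : ∀ m : ℕ, MeasurableSet {x : ℝ | x ∈ Set.Ioc 1 N ∧ ⌊G c x⌋₊ = m} := by
    intro m
    exact measurableSet_Ioc.inter
      ((Nat.measurable_floor.comp (meas_G c)) (measurableSet_singleton m))
  rw [intervalIntegral.integral_of_le hN]
  have h1 : ∫ x in Set.Ioc 1 N, u ⌊G c x⌋₊ = ∫ x in Set.Ioc 1 N, ∑ m ∈ Finset.range J,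
      {x : ℝ | x ∈ Set.Ioc 1 N ∧ ⌊G c x⌋₊ = m}.indicator (fun _ => u m) x := by
    refine setIntegral_congr_fun measurableSet_Ioc fun x hx => ?_
    have hlt : ⌊G c x⌋₊ < J := (Nat.floor_le_floor (G_le hc0 hx.1.le hx.2)).trans_lt hJ
    rw [Finset.sum_eq_single_of_mem ⌊G c x⌋₊ (Finset.mem_range.2 hlt)]
    · rw [Set.indicator_of_mem]
      exact ⟨hx, rfl⟩
    · intro m _ hm
      rw [Set.indicator_of_notMem]
      rintro ⟨_, h⟩
      exact hm h.symm
  rw [h1, integral_finsetSum]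
  · refine Finset.sum_congr rfl fun m _ => ?_
    rw [integral_indicator (hS m), setIntegral_const, measureReal_restrict_apply (hS m),
      Complex.real_smul]
    congr 2
    unfold wt
    rw [measureReal_def]
    congr 2
    ext x
    simp only [Set.mem_inter_iff, Set.mem_setOf_eq]
    tauto
  · intro m _
    exact (integrable_const (u m)).indicator (hS m)

private theorem psi_deriv {c L : ℝ} (hL : 0 < L) :
    HasDerivAt (fun y : ℝ => y ^ (1 + c) + c * Real.log y - y) ((1 + c) * L ^ c + c * L⁻¹ - 1) L := by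
  have h1 : HasDerivAt (fun y : ℝ => y ^ (1 + c)) ((1 + c) * L ^ c) L := by
    have h := Real.hasDerivAt_rpow_const (x := L) (p := 1 + c) (Or.inl hL.ne')
    rwa [show 1 + c - 1 = c by ring] at h
  exact (h1.add ((Real.hasDerivAt_log hL.ne').const_mul c)).sub (hasDerivAt_id L)

private theorem psi_nonneg {c L : ℝ} (hc0 : 0 < c) (hL : 0 < L) :
    0 ≤ (1 + c) * L ^ c + c * L⁻¹ - 1 := by
  have h1 : 1 + c * (1 - L⁻¹) ≤ L ^ c := by
    rw [Real.rpow_def_of_pos hL]
    have h2 := Real.add_one_le_exp (Real.log L * c)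
    have h3 := Real.one_sub_inv_le_log_of_pos hL
    nlinarith [mul_le_mul_of_nonneg_left h3 hc0.le]
  have h4 : 0 ≤ L ^ c := Real.rpow_nonneg hL.le _
  nlinarith [mul_nonneg hc0.le h4]

private theorem psi_mono {c : ℝ} (hc0 : 0 < c) :
    MonotoneOn (fun y : ℝ => y ^ (1 + c) + c * Real.log y - y) (Set.Ioi 0) := by
  refine monotoneOn_of_deriv_nonneg (convex_Ioi 0) ?_ ?_ ?_
  · exact fun y hy => (psi_deriv hy).continuousAt.continuousWithinAt
  · rw [interior_Ioi]
    exact fun y hy => (psi_deriv hy).differentiableAt.differentiableWithinAt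
  · rw [interior_Ioi]
    intro y hy
    rw [(psi_deriv hy).deriv]
    exact psi_nonneg hc0 hy

private theorem dG (c : ℝ) {x : ℝ} (hx : 1 < x) :
    HasDerivAt (G c) ((1 + c) * Real.exp (Real.log x ^ (1 + c) + c * Real.log (Real.log x) -
      Real.log x)) x := by
  have hl : 0 < Real.log x := Real.log_pos hx
  have h := ((Real.hasDerivAt_log (by linarith : x ≠ 0)).rpow_const (p := 1 + c)
    (Or.inl hl.ne')).exp
  refine h.congr_deriv ?_
  rw [show 1 + c - 1 = c by ring, Real.exp_sub, Real.exp_add, Real.exp_log (by linarith : 0 < x),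
    mul_comm c, ← Real.rpow_def_of_pos hl, div_eq_mul_inv]
  ring

private theorem G_conv {c : ℝ} (hc0 : 0 < c) : ConvexOn ℝ (Set.Ici 1) (G c) := by
  refine MonotoneOn.convexOn_of_deriv (convex_Ici 1) ?_ ?_ ?_
  · unfold G
    refine ContinuousOn.rexp (ContinuousOn.rpow_const ?_ fun x _ => Or.inr (by linarith))
    refine Real.continuousOn_log.mono fun x hx => ?_
    have : (1 : ℝ) ≤ x := hx
    simp only [Set.mem_compl_iff, Set.mem_singleton_iff]
    linarith
  · rw [interior_Ici]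
    exact fun x hx => (dG c hx).differentiableAt.differentiableWithinAt
  · rw [interior_Ici]
    intro x hx y hy hxy
    have hx' : (1 : ℝ) < x := hx
    have hy' : (1 : ℝ) < y := hy
    rw [(dG c hx').deriv, (dG c hy').deriv]
    refine mul_le_mul_of_nonneg_left (Real.exp_le_exp.2 ?_) (by linarith)
    exact psi_mono hc0 (Set.mem_Ioi.2 (Real.log_pos hx')) (Set.mem_Ioi.2 (Real.log_pos hy'))
      (Real.log_le_log (by linarith) hxy)

private theorem gi_conc {c : ℝ} (hc0 : 0 < c) (m : ℕ) (hm : 1 ≤ m) :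
    gi c (m + 2) - gi c (m + 1) ≤ gi c (m + 1) - gi c m := by
  have hm' : (1 : ℝ) ≤ m := by exact_mod_cast hm
  have h1 := gi_ge (c := c) hm'
  have h2 := gi_ge (c := c) (y := (m : ℝ) + 2) (by linarith)
  have h0 := G_conv hc0
  have h3 := h0.2 (Set.mem_Ici.2 h1) (Set.mem_Ici.2 h2) (by norm_num : (0 : ℝ) ≤ 1 / 2)
    (by norm_num : (0 : ℝ) ≤ 1 / 2) (by norm_num)
  simp only [smul_eq_mul] at h3
  rw [G_gi hc0 hm', G_gi hc0 (by linarith : (1 : ℝ) ≤ (m : ℝ) + 2)] at h3
  by_contra hno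
  rw [not_le] at hno
  have h4 : gi c (m + 1) < 1 / 2 * gi c m + 1 / 2 * gi c (m + 2) := by linarith
  have h5 := G_lt hc0 (gi_ge (by linarith : (1 : ℝ) ≤ (m : ℝ) + 1)) h4
  rw [G_gi hc0 (by linarith : (1 : ℝ) ≤ (m : ℝ) + 1)] at h5
  linarith

theorem wt_anti {c : ℝ} (hc0 : 0 < c) (N : ℝ) (hN : 1 ≤ N) (m : ℕ) (hm : 1 ≤ m) :
    wt c N (m + 1) ≤ wt c N m := by
  have hm' : (1 : ℝ) ≤ m := by exact_mod_cast hm
  rw [wt_eq hc0, wt_eq hc0]
  have h1 := gi_conc hc0 m hm
  have h2 : gi c m ≤ gi c (m + 1) := gi_mono hc0 hm' (by linarith)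
  have h3 : gi c (m + 1) ≤ gi c (m + 2) := gi_mono hc0 (by linarith) (by linarith)
  push_cast
  rw [show (m : ℝ) + 1 + 1 = m + 2 by ring]
  rcases le_total N (gi c (m + 1)) with h | h
  · rw [min_eq_right (h.trans h3), min_eq_right h]
    rcases le_total N (gi c m) with h' | h'
    · rw [min_eq_right h']
    · rw [min_eq_left h']
      linarith
  · rw [min_eq_left h, min_eq_left (h2.trans h)]
    have := min_le_left (gi c (m + 2)) N
    linarith

theorem wt_le {c : ℝ} (hc0 : 0 < c) (N : ℝ) (hN : 1 ≤ N) (m : ℕ) :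
    wt c N 0 = 0 ∧ 0 ≤ wt c N m ∧ wt c N m ≤ 2 := by
  refine ⟨wt_zero N, ENNReal.toReal_nonneg, ?_⟩
  have h1 : wt c N 1 ≤ 2 := by
    rw [wt_eq hc0, Nat.cast_one, gi_one hc0, min_eq_left hN]
    have h2 := min_le_left (gi c (1 + 1)) N
    have h3 : gi c (1 + 1) ≤ 3 := by
      unfold gi
      have h4 : Real.log (1 + 1) ^ (1 / (1 + c)) ≤ 1 := by
        refine Real.rpow_le_one (Real.log_nonneg (by norm_num)) ?_ (by positivity)
        rw [show (1 : ℝ) + 1 = 2 by norm_num]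
        linarith [Real.log_two_lt_d9]
      linarith [Real.exp_le_exp.2 h4, Real.exp_one_lt_d9]
    linarith
  rcases Nat.eq_zero_or_pos m with rfl | hm
  · rw [wt_zero]
    norm_num
  · induction m, hm using Nat.le_induction with
    | base => exact h1
    | succ m hm ih => exact (wt_anti hc0 N hN m hm).trans ih

theorem wt_sum {c : ℝ} (hc0 : 0 < c) (N : ℝ) (hN : 1 ≤ N) (J : ℕ) :
    ∑ m ∈ Finset.range J, wt c N m ≤ N := by
  have h1 : ∑ m ∈ Finset.range J, wt c N m = min (gi c J) N - min (gi c 0) N := by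
    induction J with
    | zero => simp
    | succ J ih =>
      rw [Finset.sum_range_succ, ih, wt_eq hc0]
      push_cast
      ring
  rw [h1, gi_zero hc0, min_eq_left hN]
  have := min_le_right (gi c J) N
  linarith

theorem wts {c : ℝ} (hc0 : 0 < c) (u : ℕ → ℝ) (hu : ∀ m, 0 ≤ u m) (B : ℝ)
    (hB : ∀ M : ℕ, 1 ≤ M → ∑ m ∈ Finset.range M, u m ≤ B * M) (N : ℝ) (hN : 1 ≤ N) (J : ℕ) :
    ∑ m ∈ Finset.range J, wt c N m * u m ≤ 2 * B * N := by
  have hB0 : 0 ≤ B := by
    have h := hB 1 le_rfl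
    simp only [Finset.range_one, Finset.sum_singleton, Nat.cast_one, mul_one] at h
    exact (hu 0).trans h
  rcases Nat.eq_zero_or_pos J with rfl | hJ
  · simp only [Finset.range_zero, Finset.sum_empty]
    positivity
  have key : ∑ m ∈ Finset.range J, wt c N m * u m +
      wt c N J * (B * J - ∑ m ∈ Finset.range J, u m) ≤
      B * (wt c N 1 + ∑ m ∈ Finset.range J, wt c N m) := by
    induction J, hJ using Nat.le_induction with
    | base =>
      simp only [Finset.range_one, Finset.sum_singleton, Nat.cast_one, mul_one, wt_zero, zero_mul,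
        zero_add, add_zero]
      have h1 := (wt_le hc0 N hN 1).2.1
      nlinarith [mul_nonneg h1 (hu 0)]
    | succ J hJ ih =>
      rw [Finset.sum_range_succ (fun m => wt c N m * u m), Finset.sum_range_succ (fun m => wt c N m)]
      have h1 := wt_anti hc0 N hN J hJ
      have h2 : 0 ≤ B * ((J + 1 : ℕ) : ℝ) - ∑ m ∈ Finset.range (J + 1), u m :=
        sub_nonneg.2 (hB (J + 1) (by omega))
      have h3 := mul_le_mul_of_nonneg_right h1 h2
      have h4 : wt c N J * (B * ((J + 1 : ℕ) : ℝ) - ∑ m ∈ Finset.range (J + 1), u m) =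
          wt c N J * (B * J - ∑ m ∈ Finset.range J, u m) + wt c N J * B - wt c N J * u J := by
        rw [Finset.sum_range_succ]
        push_cast
        ring
      rw [h4] at h3
      nlinarith
  have h1 : wt c N 1 ≤ N := by
    have h := wt_sum hc0 N hN 2
    rw [Finset.sum_range_succ, Finset.sum_range_one, wt_zero, zero_add] at h
    exact h
  have h2 := wt_sum hc0 N hN J
  have h3 : 0 ≤ wt c N J * (B * J - ∑ m ∈ Finset.range J, u m) :=
    mul_nonneg (wt_le hc0 N hN J).2.1 (sub_nonneg.2 (hB J hJ))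
  have h4 : B * (wt c N 1 + ∑ m ∈ Finset.range J, wt c N m) ≤ B * (N + N) :=
    mul_le_mul_of_nonneg_left (add_le_add h1 h2) hB0
  linarith

end Pool.Agent.VINO
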