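import Pool.Agent.VINO.UMulB
import Pool.Agent.VINO.MTran
import Pool.Agent.VINO.MWts

/-!
# VINO / MDif: the difference of the averages along `a c n` and the integral averages

`DD c N u = (1/N) ∑_{m < J} wt c N m u m`, `J = ⌊G N⌋ + 1`: the integral average.
PROOF of `dif`.  `tran` with `J = ⌊G c N⌋₊ + 1`, `w m = (1/N) (#{n ∈ [1, N] | a c n = m} - wt c N m)` (`a c n ≤ ⌊G c N⌋₊` for `n ≤ N`,
monotonicity of `G` on `[1, ∞)`), `∑_{m<J} w m e(θ m) = (1/N)(∑_{n ≤ N} e(θ a n) - ∫_1^N e(θ ⌊G x⌋) dx)` (`wt_int`), bounded by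
`C/(log N)^2` (`umulB`), and `∑_{m<J} w m f(T^m x) = av N (f (T^[a c n] x)) - DD c N (f (T^[·] x))`.
-/

set_option autoImplicit false

namespace Pool.Agent.VINO

open MeasureTheory

/-- The integral average. -/
noncomputable def DD (c : ℝ) (N : ℕ) (u : ℕ → ℂ) : ℂ :=
  (N : ℂ)⁻¹ * ∑ m ∈ Finset.range (⌊G c N⌋₊ + 1), (wt c N m : ℂ) * u m

private theorem md_lt (c : ℝ) (hc0 : 0 < c) {n N : ℕ} (hn : 1 ≤ n) (hnN : n ≤ N) :
    a c n < ⌊G c N⌋₊ + 1 := by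
  refine Nat.lt_succ_of_le (Nat.floor_le_floor ?_)
  unfold G
  apply Real.exp_le_exp.2
  have h1 : (1 : ℝ) ≤ n := by exact_mod_cast hn
  have h2 : (n : ℝ) ≤ N := by exact_mod_cast hnN
  exact Real.rpow_le_rpow (Real.log_nonneg h1) (Real.log_le_log (by linarith) h2) (by linarith)

private theorem md_key (c : ℝ) (hc0 : 0 < c) (N : ℕ) (u : ℕ → ℂ) :
    ∑ m ∈ Finset.range (⌊G c N⌋₊ + 1),
      ((N : ℂ)⁻¹ * ((((Finset.Icc 1 N).filter fun n => a c n = m).card : ℂ) -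
        (wt c N m : ℂ))) * u m = av N (fun n => u (a c n)) - DD c N u := by
  have h1 : ∑ n ∈ Finset.Icc 1 N, u (a c n) = ∑ m ∈ Finset.range (⌊G c N⌋₊ + 1),
      (((Finset.Icc 1 N).filter fun n => a c n = m).card : ℂ) * u m := by
    rw [← Finset.sum_fiberwise_of_maps_to (s := Finset.Icc 1 N)
      (t := Finset.range (⌊G c N⌋₊ + 1)) (g := fun n => a c n)
      (fun n hn => Finset.mem_range.2
        (md_lt c hc0 (Finset.mem_Icc.1 hn).1 (Finset.mem_Icc.1 hn).2))]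
    refine Finset.sum_congr rfl fun m _ => ?_
    rw [← nsmul_eq_mul, ← Finset.sum_const]
    refine Finset.sum_congr rfl fun n hn => ?_
    rw [(Finset.mem_filter.1 hn).2]
  unfold av DD
  rw [h1, ← mul_sub, ← Finset.sum_sub_distrib, Finset.mul_sum]
  refine Finset.sum_congr rfl fun m _ => ?_
  ring

theorem dif {c : ℝ} (hc0 : 0 < c) (hc1 : c < 1 / 2) :
    ∃ C : ℝ, 0 < C ∧ ∀ (X : Type*) [MeasurableSpace X] (μ : Measure X) [IsFiniteMeasure μ]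
      (T : X → X), MeasurePreserving T μ μ → ∀ f : X → ℂ, Measurable f →
      (∃ M : ℝ, ∀ x, ‖f x‖ ≤ M) → ∀ N : ℕ, 2 ≤ N →
      ∫ x, ‖av N (fun n => f (T^[a c n] x)) - DD c N (fun m => f (T^[m] x))‖ ^ 2 ∂μ ≤
        (C / Real.log N ^ 2) ^ 2 * ∫ x, ‖f x‖ ^ 2 ∂μ := by
  obtain ⟨C, hC, hum⟩ := umulB hc0 hc1
  refine ⟨C, hC, ?_⟩
  intro X _ μ _ T hT f hf hb N hN
  have hN1 : (1 : ℝ) ≤ N := by
    have : 1 ≤ N := by omega
    exact_mod_cast this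
  have hN0 : (0 : ℝ) < N := by linarith
  have hB : ∀ θ : ℝ, ‖∑ m ∈ Finset.range (⌊G c N⌋₊ + 1),
      ((N : ℂ)⁻¹ * ((((Finset.Icc 1 N).filter fun n => a c n = m).card : ℂ) -
        (wt c N m : ℂ))) * Pool.Agent.VMV.e (θ * m)‖ ≤ C / Real.log N ^ 2 := by
    intro θ
    rw [md_key c hc0 N fun m => Pool.Agent.VMV.e (θ * m)]
    unfold av DD
    rw [← wt_int hc0 (fun m => Pool.Agent.VMV.e (θ * m)) N hN1 _ (Nat.lt_succ_self _), ← mul_sub,
      norm_mul, norm_inv, Complex.norm_natCast]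
    have h := hum N hN θ
    calc (N : ℝ)⁻¹ * ‖∑ n ∈ Finset.Icc 1 N, Pool.Agent.VMV.e (θ * (a c n : ℝ)) -
          ∫ x in (1 : ℝ)..N, Pool.Agent.VMV.e (θ * (⌊G c x⌋₊ : ℝ))‖
        ≤ (N : ℝ)⁻¹ * (C * N / Real.log N ^ 2) := by gcongr
      _ = C / Real.log N ^ 2 := by field_simp
  have h := tran μ T hT (⌊G c N⌋₊ + 1) _ _ hB f hf hb
  refine le_trans (le_of_eq ?_) h
  refine integral_congr_ae (Filter.Eventually.of_forall fun x => ?_)
  simp only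
  rw [md_key c hc0 N fun m => f (T^[m] x)]

end Pool.Agent.VINO
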