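import Pool.Agent.VINO.MHopf
import Pool.Agent.VINO.MDif

/-!
# VINO / PA: Birkhoff averages and integral averages have the same limit

`D_N u = DD c N u` (see `MDif.lean`), `B_N u = (1/N) ∑_{m<N} u m`.
PROOF.  Let `𝒢` be the set of the bounded measurable `f` such that for almost all `x` both `B_N (f (T^[·] x))` and `D_N (f (T^[·] x))` converge to
the same limit. (a) `f` with `f ∘ T = f` almost everywhere is in `𝒢` (`f (T^[m] x) = f x` for all `m`, almost all `x`;
`D_N 1 = (1/N) ∑_m wt = (N-1)/N → 1`: `wt_int` with `u = 1`). (b) `g - g ∘ T`, `g` bounded: `B_N` telescopes, and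
`|∑_m wt N m (u m - u (m+1))| ≤ sup|u| * (∑ |wt N m - wt N (m-1)| + 2 sup wt) ≤ 10 sup |u|` (`wt_anti`, `wt_le`), so `D_N → 0`.
(c) `𝒢` is a subspace. (d) `𝒢` is closed in `L²` among bounded functions: as in `ESlot.lean`, by `hopf2` for `|f - h_k|` and `wts`
(`B_N |u| ≤ l` for all `N ≥ 1` implies `D_N |u| ≤ 2 l`), Borel-Cantelli. (e) the span of (a), (b) is dense: for `f` bounded, in the
Hilbert space `L²(μ)` with the Koopman isometry `U`, `f - P f` is in the closure of the range of `U - 1` (`P` = projection to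
the fixed vectors; von Neumann: `ContinuousLinearMap` mean ergodic theorem in Mathlib, or
`(range (U - 1))ᗮ = ker (U* - 1) = ker (U - 1)`: if `U* v = v` then `‖U v - v‖^2 = 2‖v‖^2 - 2 Re ⟨v, U v⟩ = 0`); elements
`U g - g`, `g ∈ L²`, are approximated by those with `g` bounded, and `P f` is bounded almost everywhere (truncation: an
invariant function remains invariant after composition with a truncation; approximate).
-/

set_option autoImplicit false

namespace Pool.Agent.VINO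

open MeasureTheory Filter Topology

/-! ### the pointwise ergodic theorem for bounded functions -/

private noncomputable def pA {X : Type*} (T : X → X) (f : X → ℝ) (n : ℕ) (x : X) : ℝ :=
  (n : ℝ)⁻¹ * ∑ m ∈ Finset.range n, f (T^[m] x)

private theorem pA_sum {X : Type*} (T : X → X) (f : X → ℝ) {n : ℕ} (hn : 1 ≤ n) (x : X) :
    ∑ m ∈ Finset.range n, f (T^[m] x) = n * pA T f n x := by
  have h : (n : ℝ) ≠ 0 := by
    have : (1 : ℝ) ≤ n := by exact_mod_cast hn
    linarith
  unfold pA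
  rw [← mul_assoc, mul_inv_cancel₀ h, one_mul]

private theorem pA_le {X : Type*} (T : X → X) (f : X → ℝ) {C : ℝ} (hC : ∀ x, |f x| ≤ C) (n : ℕ)
    (x : X) : |pA T f n x| ≤ C := by
  have hC0 : 0 ≤ C := (abs_nonneg _).trans (hC x)
  rcases Nat.eq_zero_or_pos n with rfl | hn
  · simpa [pA] using hC0
  · have hn0 : (0 : ℝ) < n := by exact_mod_cast hn
    unfold pA
    rw [abs_mul, abs_inv, abs_of_pos hn0, inv_mul_le_iff₀ hn0]
    refine (Finset.abs_sum_le_sum_abs _ _).trans ?_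
    refine (Finset.sum_le_sum fun m _ => hC _).trans (le_of_eq ?_)
    rw [Finset.sum_const, Finset.card_range, nsmul_eq_mul]

private theorem pA_shift {X : Type*} (T : X → X) (f : X → ℝ) {C : ℝ} (hC : ∀ x, |f x| ≤ C) (n : ℕ)
    (x : X) : |pA T f (n + 1) x - pA T f n (T x)| ≤ 2 * C / (n + 1) := by
  have h1 : ∑ m ∈ Finset.range (n + 1), f (T^[m] x) =
      f x + ∑ m ∈ Finset.range n, f (T^[m] (T x)) := by
    rw [Finset.sum_range_succ', add_comm]
    rfl
  have hn1 : (0 : ℝ) < n + 1 := by positivity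
  have h2 : pA T f (n + 1) x - pA T f n (T x) = (f x - pA T f n (T x)) / (n + 1) := by
    rcases Nat.eq_zero_or_pos n with rfl | hn
    · simp [pA]
    · have h3 := pA_sum T f (show 1 ≤ n + 1 by omega) x
      rw [h1, pA_sum T f hn (T x)] at h3
      push_cast at h3
      rw [eq_div_iff hn1.ne']
      linear_combination -h3
  rw [h2, abs_div, abs_of_pos hn1]
  apply div_le_div_of_nonneg_right _ hn1.le
  have h4 := hC x
  have h5 := pA_le T f hC n (T x)
  have h6 := abs_sub (f x) (pA T f n (T x))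
  linarith

private theorem pA_meas {X : Type*} [MeasurableSpace X] {T : X → X} (hT : Measurable T)
    {f : X → ℝ} (hf : Measurable f) (n : ℕ) : Measurable (pA T f n) := by
  unfold pA
  exact (Finset.measurable_sum _ fun m _ => hf.comp (hT.iterate m)).const_mul _

/-- the lower limit of the averages is `≤ a` -/
private def Lo {X : Type*} (T : X → X) (f : X → ℝ) (a : ℝ) : Set X :=
  {x | ∀ k N : ℕ, ∃ n, N ≤ n ∧ pA T f n x < a + 1 / (k + 1)}

private theorem lo_meas {X : Type*} [MeasurableSpace X] {T : X → X} (hT : Measurable T)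
    {f : X → ℝ} (hf : Measurable f) (a : ℝ) : MeasurableSet (Lo T f a) := by
  have h : Lo T f a = ⋂ k : ℕ, ⋂ N : ℕ, ⋃ n : ℕ, ⋃ _ : N ≤ n,
      {x | pA T f n x < a + 1 / (k + 1)} := by
    ext x
    simp [Lo]
  rw [h]
  exact MeasurableSet.iInter fun k => MeasurableSet.iInter fun N => MeasurableSet.iUnion fun n =>
    MeasurableSet.iUnion fun _ => measurableSet_lt (pA_meas hT hf n) measurable_const

private theorem lo_small (C : ℝ) (k : ℕ) :
    ∃ N₀ : ℕ, ∀ n : ℕ, N₀ ≤ n → 2 * C / ((n : ℝ) + 1) < 1 / (2 * ((k : ℝ) + 1)) := by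
  refine ⟨⌈4 * C * (k + 1)⌉₊, fun n hn => ?_⟩
  have h1 : 4 * C * (k + 1) ≤ (n : ℝ) := (Nat.le_ceil _).trans (by exact_mod_cast hn)
  rw [div_lt_div_iff₀ (by positivity) (by positivity)]
  linarith

private theorem lo_half (k : ℕ) : 1 / (((2 * k + 1 : ℕ) : ℝ) + 1) = 1 / (2 * ((k : ℝ) + 1)) := by
  congr 1
  push_cast
  ring

private theorem lo_two (k : ℕ) :
    1 / (2 * ((k : ℝ) + 1)) + 1 / (2 * ((k : ℝ) + 1)) = 1 / ((k : ℝ) + 1) := by
  have : (k : ℝ) + 1 ≠ 0 := by positivity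
  field_simp
  norm_num

private theorem lo_inv {X : Type*} (T : X → X) (f : X → ℝ) {C : ℝ} (hC : ∀ x, |f x| ≤ C) (a : ℝ)
    (x : X) : x ∈ Lo T f a ↔ T x ∈ Lo T f a := by
  constructor
  · intro h k N
    obtain ⟨N₀, hN₀⟩ := lo_small C k
    obtain ⟨n, hn, hn'⟩ := h (2 * k + 1) (N + N₀ + 1)
    obtain ⟨m, rfl⟩ : ∃ m, n = m + 1 := ⟨n - 1, by omega⟩
    refine ⟨m, by omega, ?_⟩
    have h1 := pA_shift T f hC m x
    have h2 := hN₀ m (by omega)
    rw [lo_half] at hn'
    have h3 := lo_two k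
    have h4 := (abs_le.1 h1).1
    linarith
  · intro h k N
    obtain ⟨N₀, hN₀⟩ := lo_small C k
    obtain ⟨n, hn, hn'⟩ := h (2 * k + 1) (N + N₀)
    refine ⟨n + 1, by omega, ?_⟩
    have h1 := pA_shift T f hC n x
    have h2 := hN₀ n (by omega)
    rw [lo_half] at hn'
    have h3 := lo_two k
    have h4 := (abs_le.1 h1).2
    linarith

private theorem lo_int {X : Type*} [MeasurableSpace X] (μ : Measure X) [IsProbabilityMeasure μ]
    (T : X → X) (hT : MeasurePreserving T μ μ) (f : X → ℝ) (hf : Measurable f) {C : ℝ}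
    (hC : ∀ x, |f x| ≤ C) (E : Set X) (hE : MeasurableSet E) (hinv : ∀ x, x ∈ E ↔ T x ∈ E)
    (a : ℝ) (hEa : E ⊆ Lo T f a) (a' : ℝ) (ha' : a < a') :
    ∫ x in E, f x ∂μ ≤ a' * μ.real E := by
  classical
  rcases E.eq_empty_or_nonempty with rfl | ⟨x₀, hx₀⟩
  · simp
  have hC0 : 0 ≤ C := (abs_nonneg _).trans (hC x₀)
  set l : ℝ := C + |a'| + 1 - a' with hl
  have hl0 : 0 < l := by
    have := le_abs_self a'
    linarith
  have hcf : ∀ x, 0 ≤ C + |a'| + 1 - f x := by
    intro x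
    have h1 := (abs_le.1 (hC x)).2
    have h2 := abs_nonneg a'
    linarith
  set g : X → ℝ := E.indicator fun x => C + |a'| + 1 - f x with hg
  have hgm : Measurable g := (measurable_const.sub hf).indicator hE
  have hg0 : ∀ x, 0 ≤ g x := fun x => Set.indicator_nonneg (fun x _ => hcf x) x
  have hgb : ∃ M : ℝ, ∀ x, g x ≤ M := by
    refine ⟨2 * C + |a'| + 1, fun x => ?_⟩
    have h1 := (abs_le.1 (hC x)).1
    have h2 := abs_nonneg a'
    rw [hg, Set.indicator_apply]
    split_ifs <;> linarith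
  have hh := hopf μ T hT g hgm hg0 hgb l hl0
  have hiter : ∀ x ∈ E, ∀ m, T^[m] x ∈ E := by
    intro x hx m
    induction m with
    | zero => exact hx
    | succ m ih =>
      rw [Function.iterate_succ_apply']
      exact (hinv _).1 ih
  have hsub : E ⊆ {x | ∃ M : ℕ, 1 ≤ M ∧ l * M < ∑ m ∈ Finset.range M, g (T^[m] x)} := by
    intro x hx
    obtain ⟨k, hk⟩ := exists_nat_one_div_lt (sub_pos.2 ha')
    obtain ⟨n, hn, hn'⟩ := hEa hx k 1
    refine ⟨n, hn, ?_⟩
    have h1 : ∑ m ∈ Finset.range n, g (T^[m] x) =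
        ∑ m ∈ Finset.range n, (C + |a'| + 1 - f (T^[m] x)) :=
      Finset.sum_congr rfl fun m _ => Set.indicator_of_mem (hiter x hx m) _
    rw [h1, Finset.sum_sub_distrib, pA_sum T f hn x, Finset.sum_const, Finset.card_range,
      nsmul_eq_mul]
    have hn0 : (0 : ℝ) < n := by exact_mod_cast hn
    have h2 : pA T f n x < a' := by linarith
    have h3 := mul_lt_mul_of_pos_left h2 hn0
    rw [hl]
    linarith
  have h1 := (measure_mono hsub).trans hh
  have hfi : Integrable f μ := Integrable.of_bound hf.aestronglyMeasurable C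
    (Filter.Eventually.of_forall fun x => by
      rw [Real.norm_eq_abs]
      exact hC x)
  have h2 : ∫ x, g x ∂μ = (C + |a'| + 1) * μ.real E - ∫ x in E, f x ∂μ := by
    rw [hg, integral_indicator hE,
      integral_sub (integrable_const _).integrableOn hfi.integrableOn, setIntegral_const,
      smul_eq_mul, mul_comm]
  have h3 : 0 ≤ (∫ x, g x ∂μ) / l := div_nonneg (integral_nonneg hg0) hl0.le
  have h4 : μ.real E ≤ (∫ x, g x ∂μ) / l := by
    rw [Measure.real]
    exact ENNReal.toReal_le_of_le_ofReal h3 h1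
  rw [le_div_iff₀ hl0, h2] at h4
  rw [hl] at h4
  linarith

private theorem point_real_aux {X : Type*} [MeasurableSpace X] (μ : Measure X)
    [IsProbabilityMeasure μ] (T : X → X) (hT : MeasurePreserving T μ μ) (f : X → ℝ)
    (hf : Measurable f) {C : ℝ} (hC : ∀ x, |f x| ≤ C) :
    ∀ᵐ x ∂μ, ∃ z : ℝ, Tendsto (fun n => pA T f n x) atTop (𝓝 z) := by
  have hneg : ∀ n x, pA T (fun y => -f y) n x = -pA T f n x := by
    intro n x
    unfold pA
    rw [Finset.sum_neg_distrib, mul_neg]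
  have hC' : ∀ x, |(-f x)| ≤ C := fun x => by
    rw [abs_neg]
    exact hC x
  have hnull : ∀ a b : ℝ, a < b → μ (Lo T f a ∩ Lo T (fun y => -f y) (-b)) = 0 := by
    intro a b hab
    set E := Lo T f a ∩ Lo T (fun y => -f y) (-b) with hE
    have hEm : MeasurableSet E := (lo_meas hT.measurable hf a).inter
      (lo_meas hT.measurable hf.neg (-b))
    have hinv : ∀ x, x ∈ E ↔ T x ∈ E := fun x =>
      and_congr (lo_inv T f hC a x) (lo_inv T _ hC' (-b) x)
    have h1 := lo_int μ T hT f hf hC E hEm hinv a Set.inter_subset_left (a + (b - a) / 3)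
      (by linarith)
    have h2 := lo_int μ T hT (fun y => -f y) hf.neg hC' E hEm hinv (-b) Set.inter_subset_right
      (-b + (b - a) / 3) (by linarith)
    rw [integral_neg] at h2
    have h3 : 0 ≤ μ.real E := measureReal_nonneg
    have h4 : (b - a) / 3 * μ.real E ≤ 0 := by nlinarith
    have h5 : μ.real E = 0 := by
      have : 0 < (b - a) / 3 := by linarith
      by_contra h
      have h6 : 0 < μ.real E := lt_of_le_of_ne h3 (Ne.symm h)
      have := mul_pos this h6
      linarith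
    exact (measureReal_eq_zero_iff (measure_ne_top μ E)).1 h5
  have hae : ∀ᵐ x ∂μ, ∀ a b : ℚ, a < b → x ∉ Lo T f a ∩ Lo T (fun y => -f y) (-(b : ℝ)) := by
    rw [ae_all_iff]
    intro a
    rw [ae_all_iff]
    intro b
    by_cases hab : a < b
    · have h1 := hnull a b (by exact_mod_cast hab)
      filter_upwards [measure_eq_zero_iff_ae_notMem.1 h1] with x hx _
      exact hx
    · exact Filter.Eventually.of_forall fun x h => absurd h hab
  filter_upwards [hae] with x hx
  refine tendsto_of_no_upcrossings (s := Set.range ((↑) : ℚ → ℝ)) Rat.denseRange_cast ?_ ?_ ?_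
  · rintro _ ⟨a, rfl⟩ _ ⟨b, rfl⟩ hab ⟨h1, h2⟩
    refine hx a b (by exact_mod_cast hab) ⟨fun k N => ?_, fun k N => ?_⟩
    · obtain ⟨n, hn, hn'⟩ := (Filter.frequently_atTop.1 h1) N
      refine ⟨n, hn, ?_⟩
      have : (0 : ℝ) < 1 / (k + 1) := by positivity
      linarith
    · obtain ⟨n, hn, hn'⟩ := (Filter.frequently_atTop.1 h2) N
      refine ⟨n, hn, ?_⟩
      rw [hneg]
      have : (0 : ℝ) < 1 / (k + 1) := by positivity
      linarith
  · exact isBoundedUnder_of ⟨C, fun n => (abs_le.1 (pA_le T f hC n x)).2⟩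
  · exact isBoundedUnder_of ⟨-C, fun n => (abs_le.1 (pA_le T f hC n x)).1⟩

/-! ### the integral averages have the same limit -/

private theorem pa_abel {c : ℝ} (hc0 : 0 < c) (v : ℕ → ℂ) (ε K : ℝ) (hε : 0 ≤ ε) (hK : 0 ≤ K)
    (hv : ∀ m : ℕ, ‖∑ i ∈ Finset.range m, v i‖ ≤ ε * m + K) (N : ℝ) (hN : 1 ≤ N) (J : ℕ) :
    ‖∑ m ∈ Finset.range J, (wt c N m : ℂ) * v m‖ ≤ ε * (N + 4) + 4 * K := by
  have h0 : wt c N 0 = 0 := (wt_le hc0 N hN 0).1
  have hw : ∀ m, 0 ≤ wt c N m := fun m => (wt_le hc0 N hN m).2.1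
  have hw2 : ∀ m, wt c N m ≤ 2 := fun m => (wt_le hc0 N hN m).2.2
  have hclaim : ∀ J : ℕ, ‖∑ m ∈ Finset.range (J + 1), (wt c N m : ℂ) * v m -
      (wt c N (J + 1) : ℂ) * ∑ i ∈ Finset.range (J + 1), v i‖ ≤
      ε * (∑ m ∈ Finset.range (J + 1), wt c N m - wt c N (J + 1) * (J + 1) + 2 * wt c N 1) +
        K * (2 * wt c N 1 - wt c N (J + 1)) := by
    intro J
    induction J with
    | zero =>
      have h1 := hv 1
      simp only [zero_add, Finset.sum_range_one, h0, Complex.ofReal_zero, zero_mul, zero_sub,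
        norm_neg, norm_mul, Complex.norm_real, Nat.cast_one, mul_one, Nat.cast_zero] at h1 ⊢
      rw [Real.norm_of_nonneg (hw 1)]
      calc wt c N 1 * ‖v 0‖ ≤ wt c N 1 * (ε + K) := mul_le_mul_of_nonneg_left h1 (hw 1)
        _ = ε * (-wt c N 1 + 2 * wt c N 1) + K * (2 * wt c N 1 - wt c N 1) := by ring
    | succ J ih =>
      have hd : 0 ≤ wt c N (J + 1) - wt c N (J + 1 + 1) :=
        sub_nonneg.2 (wt_anti hc0 N hN (J + 1) (by omega))
      have h1 : ∑ m ∈ Finset.range (J + 1 + 1), (wt c N m : ℂ) * v m -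
          (wt c N (J + 1 + 1) : ℂ) * ∑ i ∈ Finset.range (J + 1 + 1), v i =
          (∑ m ∈ Finset.range (J + 1), (wt c N m : ℂ) * v m -
            (wt c N (J + 1) : ℂ) * ∑ i ∈ Finset.range (J + 1), v i) +
          ((wt c N (J + 1) - wt c N (J + 1 + 1) : ℝ) : ℂ) *
            ∑ i ∈ Finset.range (J + 1 + 1), v i := by
        rw [Finset.sum_range_succ _ (J + 1), Finset.sum_range_succ v (J + 1)]
        push_cast
        ring
      rw [h1]
      refine (norm_add_le _ _).trans ?_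
      have h2 : ‖((wt c N (J + 1) - wt c N (J + 1 + 1) : ℝ) : ℂ) *
            ∑ i ∈ Finset.range (J + 1 + 1), v i‖ ≤
          (wt c N (J + 1) - wt c N (J + 1 + 1)) * (ε * ((J + 1 + 1 : ℕ) : ℝ) + K) := by
        rw [norm_mul, Complex.norm_real, Real.norm_of_nonneg hd]
        exact mul_le_mul_of_nonneg_left (hv _) hd
      refine (add_le_add ih h2).trans (le_of_eq ?_)
      rw [Finset.sum_range_succ _ (J + 1)]
      push_cast
      ring
  rcases J with _ | J
  · rw [Finset.sum_range_zero, norm_zero]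
    have : 0 ≤ ε * (N + 4) := mul_nonneg hε (by linarith)
    linarith
  · have h1 := hclaim J
    have h2 : ‖(wt c N (J + 1) : ℂ) * ∑ i ∈ Finset.range (J + 1), v i‖ ≤
        wt c N (J + 1) * (ε * ((J + 1 : ℕ) : ℝ) + K) := by
      rw [norm_mul, Complex.norm_real, Real.norm_of_nonneg (hw _)]
      exact mul_le_mul_of_nonneg_left (hv _) (hw _)
    have h3 : ‖∑ m ∈ Finset.range (J + 1), (wt c N m : ℂ) * v m‖ ≤
        ‖∑ m ∈ Finset.range (J + 1), (wt c N m : ℂ) * v m -
          (wt c N (J + 1) : ℂ) * ∑ i ∈ Finset.range (J + 1), v i‖ +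
        ‖(wt c N (J + 1) : ℂ) * ∑ i ∈ Finset.range (J + 1), v i‖ := by
      have := norm_add_le (∑ m ∈ Finset.range (J + 1), (wt c N m : ℂ) * v m -
          (wt c N (J + 1) : ℂ) * ∑ i ∈ Finset.range (J + 1), v i)
        ((wt c N (J + 1) : ℂ) * ∑ i ∈ Finset.range (J + 1), v i)
      rwa [sub_add_cancel] at this
    have h4 := wt_sum hc0 N hN (J + 1)
    have h5 := hw2 1
    have h6 : ε * (∑ m ∈ Finset.range (J + 1), wt c N m + 2 * wt c N 1) ≤ ε * (N + 4) :=
      mul_le_mul_of_nonneg_left (by linarith) hε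
    have h7 : K * wt c N 1 ≤ K * 2 := mul_le_mul_of_nonneg_left h5 hK
    push_cast at h2
    calc ‖∑ m ∈ Finset.range (J + 1), (wt c N m : ℂ) * v m‖ ≤
          ε * (∑ m ∈ Finset.range (J + 1), wt c N m - wt c N (J + 1) * (J + 1) + 2 * wt c N 1) +
            K * (2 * wt c N 1 - wt c N (J + 1)) + wt c N (J + 1) * (ε * (J + 1) + K) := by
          linarith
      _ = ε * (∑ m ∈ Finset.range (J + 1), wt c N m + 2 * wt c N 1) + 2 * (K * wt c N 1) := by ring
      _ ≤ ε * (N + 4) + 4 * K := by linarith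

private theorem pa_lin {v : ℕ → ℂ}
    (h : Tendsto (fun N : ℕ => (N : ℂ)⁻¹ * ∑ m ∈ Finset.range N, v m) atTop (𝓝 0)) {ε : ℝ}
    (hε : 0 < ε) : ∃ K : ℝ, 0 ≤ K ∧ ∀ m : ℕ, ‖∑ i ∈ Finset.range m, v i‖ ≤ ε * m + K := by
  obtain ⟨n₀, hn₀⟩ := (Metric.tendsto_atTop.1 h) ε hε
  refine ⟨∑ i ∈ Finset.range n₀, ‖v i‖, Finset.sum_nonneg fun _ _ => norm_nonneg _, fun m => ?_⟩
  have hK : 0 ≤ ∑ i ∈ Finset.range n₀, ‖v i‖ := Finset.sum_nonneg fun _ _ => norm_nonneg _
  rcases le_or_gt n₀ m with hm | hm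
  · have h1 := hn₀ m hm
    rw [dist_zero_right, norm_mul, norm_inv, Complex.norm_natCast] at h1
    rcases Nat.eq_zero_or_pos m with rfl | hm0
    · simpa using hK
    · have hm1 : (0 : ℝ) < m := by exact_mod_cast hm0
      rw [inv_mul_lt_iff₀ hm1] at h1
      linarith
  · have h1 : ‖∑ i ∈ Finset.range m, v i‖ ≤ ∑ i ∈ Finset.range n₀, ‖v i‖ := by
      refine (norm_sum_le _ _).trans ?_
      exact Finset.sum_le_sum_of_subset_of_nonneg (Finset.range_subset_range.2 hm.le)
        fun _ _ _ => norm_nonneg _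
    have h2 : 0 ≤ ε * m := by positivity
    linarith

private theorem dd_tendsto {c : ℝ} (hc0 : 0 < c) (u : ℕ → ℂ) (z : ℂ)
    (h : Tendsto (fun N : ℕ => (N : ℂ)⁻¹ * ∑ m ∈ Finset.range N, u m) atTop (𝓝 z)) :
    Tendsto (fun N : ℕ => DD c N u) atTop (𝓝 z) := by
  set v : ℕ → ℂ := fun m => u m - z with hv
  have hv0 : Tendsto (fun N : ℕ => (N : ℂ)⁻¹ * ∑ m ∈ Finset.range N, v m) atTop (𝓝 0) := by
    have h1 : Tendsto (fun N : ℕ => (N : ℂ)⁻¹ * ∑ m ∈ Finset.range N, u m - z) atTop (𝓝 (z - z)) :=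
      h.sub_const z
    rw [sub_self] at h1
    refine h1.congr' ?_
    filter_upwards [eventually_ge_atTop 1] with N hN
    have hN0 : (N : ℂ) ≠ 0 := by
      have : N ≠ 0 := by omega
      exact_mod_cast this
    simp only [hv]
    rw [Finset.sum_sub_distrib, Finset.sum_const, Finset.card_range, nsmul_eq_mul, mul_sub,
      ← mul_assoc, inv_mul_cancel₀ hN0, one_mul]
  have hDv : Tendsto (fun N : ℕ => DD c N v) atTop (𝓝 0) := by
    rw [Metric.tendsto_atTop]
    intro ε hε
    obtain ⟨K, hK, hKm⟩ := pa_lin hv0 (show 0 < ε / 10 by positivity)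
    refine ⟨⌈8 * K / ε⌉₊ + 1, fun N hN => ?_⟩
    have hN1 : (1 : ℝ) ≤ N := by
      have : 1 ≤ N := by omega
      exact_mod_cast this
    have hN0 : (0 : ℝ) < N := by linarith
    have hNK : 8 * K / ε + 1 ≤ N := by
      have h1 : ((⌈8 * K / ε⌉₊ + 1 : ℕ) : ℝ) ≤ N := by exact_mod_cast hN
      push_cast at h1
      have := Nat.le_ceil (8 * K / ε)
      linarith
    have h1 := pa_abel hc0 v (ε / 10) K (by positivity) hK hKm N hN1 (⌊G c N⌋₊ + 1)
    rw [dist_zero_right]
    unfold DD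
    rw [norm_mul, norm_inv, Complex.norm_natCast, inv_mul_lt_iff₀ hN0]
    refine h1.trans_lt ?_
    have h2 : 8 * K / ε < N := by linarith
    rw [div_lt_iff₀ hε] at h2
    nlinarith
  have hD1 : Tendsto (fun N : ℕ => DD c N fun _ => z) atTop (𝓝 z) := by
    have h1 : Tendsto (fun N : ℕ => (1 - (N : ℂ)⁻¹) * z) atTop (𝓝 ((1 - 0) * z)) :=
      (tendsto_const_nhds.sub tendsto_inv_atTop_nhds_zero_nat).mul_const z
    rw [sub_zero, one_mul] at h1
    refine h1.congr' ?_
    filter_upwards [eventually_ge_atTop 1] with N hN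
    have hN1 : (1 : ℝ) ≤ N := by exact_mod_cast hN
    have hN0 : (N : ℂ) ≠ 0 := by
      have : N ≠ 0 := by omega
      exact_mod_cast this
    have h2 := wt_int hc0 (fun _ => z) N hN1 (⌊G c N⌋₊ + 1) (Nat.lt_succ_self _)
    unfold DD
    rw [← h2, intervalIntegral.integral_const]
    rw [Complex.real_smul]
    push_cast
    field_simp
  have h3 : (fun N : ℕ => DD c N u) = fun N : ℕ => DD c N v + DD c N fun _ => z := by
    funext N
    unfold DD
    rw [← mul_add, ← Finset.sum_add_distrib]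
    congr 1
    refine Finset.sum_congr rfl fun m _ => ?_
    simp only [hv]
    ring
  rw [h3]
  simpa using hDv.add hD1

theorem birk {c : ℝ} (hc0 : 0 < c) {X : Type*} [MeasurableSpace X] (μ : Measure X)
    [IsProbabilityMeasure μ] (T : X → X) (hT : MeasurePreserving T μ μ) (f : X → ℂ)
    (hf : Measurable f) (hb : ∃ M : ℝ, ∀ x, ‖f x‖ ≤ M) :
    ∀ᵐ x ∂μ, ∃ z : ℂ,
      Tendsto (fun N : ℕ => (N : ℂ)⁻¹ * ∑ m ∈ Finset.range N, f (T^[m] x)) atTop (𝓝 z) ∧
      Tendsto (fun N : ℕ => DD c N fun m => f (T^[m] x)) atTop (𝓝 z) := by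
  obtain ⟨M, hM⟩ := hb
  have h1 := point_real_aux μ T hT (fun x => (f x).re) (Complex.measurable_re.comp hf) (C := M)
    fun x => (Complex.abs_re_le_norm _).trans (hM x)
  have h2 := point_real_aux μ T hT (fun x => (f x).im) (Complex.measurable_im.comp hf) (C := M)
    fun x => (Complex.abs_im_le_norm _).trans (hM x)
  filter_upwards [h1, h2] with x hx1 hx2
  obtain ⟨z₁, hz₁⟩ := hx1
  obtain ⟨z₂, hz₂⟩ := hx2
  have h3 : Tendsto (fun N : ℕ => (N : ℂ)⁻¹ * ∑ m ∈ Finset.range N, f (T^[m] x)) atTop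
      (𝓝 ((z₁ : ℂ) + (z₂ : ℂ) * Complex.I)) := by
    have h4 : (fun N : ℕ => (N : ℂ)⁻¹ * ∑ m ∈ Finset.range N, f (T^[m] x)) = fun N : ℕ =>
        ((pA T (fun x => (f x).re) N x : ℝ) : ℂ) +
          ((pA T (fun x => (f x).im) N x : ℝ) : ℂ) * Complex.I := by
      funext N
      unfold pA
      push_cast
      rw [mul_assoc, Finset.sum_mul, ← mul_add, ← Finset.sum_add_distrib]
      congr 1
      refine Finset.sum_congr rfl fun m _ => ?_
      exact (Complex.re_add_im _).symm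
    rw [h4]
    exact ((Complex.continuous_ofReal.tendsto _).comp hz₁).add
      (((Complex.continuous_ofReal.tendsto _).comp hz₂).mul_const _)
  exact ⟨_, h3, dd_tendsto hc0 _ _ h3⟩

end Pool.Agent.VINO
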