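import Pool.Agent.VINO.NDefs

/-!
# VINO / KDefs: bounded measurable functions, tail factors

Definitions for stage 2. `Bdd`: bounded measurable functions. `Prd`: the product formula. `tailA T 𝒜`: the
`σ`-algebra `⋂ T^(-n) 𝒜`. `TypP`, `TypK`: functions measurable with respect to the tail, and functions orthogonal
to it. `NilFactor`: factors which are ergodic nilsystems. `GenA`: `𝒜` generates.
-/

set_option autoImplicit false

namespace Pool.Agent.VINO

open MeasureTheory Filter Topology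

universe u v

/-- `f` is bounded and measurable. -/
def Bdd {X : Type*} [MeasurableSpace X] (f : X → ℂ) : Prop :=
  Measurable f ∧ ∃ M : ℝ, ∀ x, ‖f x‖ ≤ M

/-- The averages of each `f j` and of the products along `a c n` converge, and the limit of the averages
of the products is the product of the limits, almost everywhere. -/
def Prd (c : ℝ) {X : Type*} [MeasurableSpace X] (μ : Measure X) (T : X → X) {r : ℕ}
    (f : Fin (r + 1) → X → ℂ) : Prop :=
  ∀ᵐ x ∂μ, ∃ l : Fin (r + 1) → ℂ,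
    (∀ j, Tendsto (fun N => av N fun n => f j (T^[a c n] x)) atTop (𝓝 (l j))) ∧
    Tendsto (fun N => av N fun n => ∏ j, f j (T^[a c (n + j.1)] x)) atTop (𝓝 (∏ j, l j))

/-- The `σ`-algebra `⋂ n, T^(-n) 𝒜`. -/
def tailA {X : Type*} (T : X → X) (𝒜 : MeasurableSpace X) : MeasurableSpace X :=
  ⨅ n : ℕ, 𝒜.comap T^[n]

/-- `f` is bounded and measurable with respect to the tail `tailA T 𝒜`. -/
def TypP {X : Type*} (T : X → X) (𝒜 : MeasurableSpace X) [MeasurableSpace X] (f : X → ℂ) : Prop :=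
  Bdd f ∧ Measurable[tailA T 𝒜] f

/-- `f ∘ T^k` is `𝒜`-measurable, and orthogonal to the bounded `T^(-p) 𝒜`-measurable functions. -/
def TypK {X : Type*} (T : X → X) (𝒜 : MeasurableSpace X) [MeasurableSpace X] (μ : Measure X)
    (k p : ℕ) (f : X → ℂ) : Prop :=
  Bdd f ∧ Measurable[𝒜] (fun x => f (T^[k] x)) ∧ ∀ R : X → ℂ, Measurable[𝒜.comap T^[p]] R →
    (∃ M : ℝ, ∀ x, ‖R x‖ ≤ M) → ∫ x, f (T^[k] x) * R x ∂μ = 0

/-- The sub-`σ`-algebra `ℱ` is generated by a factor map of `(X, μ, T)` to an ergodic nilsystem. -/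
def NilFactor {X : Type u} (T : X → X) (ℱ : MeasurableSpace X) [MeasurableSpace X]
    (μ : Measure X) : Prop :=
  ∃ (G' : Type v) (_ : Group G') (_ : TopologicalSpace G') (_ : IsTopologicalGroup G')
    (Γ : Subgroup G') (_ : CompactSpace (G' ⧸ Γ)) (_ : T2Space (G' ⧸ Γ))
    (_ : MeasurableSpace (G' ⧸ Γ)) (_ : BorelSpace (G' ⧸ Γ)) (ν : Measure (G' ⧸ Γ))
    (_ : IsProbabilityMeasure ν) (_ : ν.WeaklyRegular) (g : G') (π : X → G' ⧸ Γ),
    NilHyp G' Γ ν g ∧ MeasurePreserving π μ ν ∧ (∀ᵐ x ∂μ, π (T x) = g • π x) ∧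
      ℱ = MeasurableSpace.comap π inferInstance

/-- Either `𝒜` is the whole `σ`-algebra modulo null sets, or `T` is invertible and the `T^n 𝒜` generate
the whole `σ`-algebra modulo null sets. -/
def GenA {X : Type*} (T : X → X) (𝒜 : MeasurableSpace X) [MeasurableSpace X] (μ : Measure X) :
    Prop :=
  (∀ B : Set X, MeasurableSet B → ∃ B', MeasurableSet[𝒜] B' ∧ B' =ᵐ[μ] B) ∨
  ∃ S : X → X, Measurable S ∧ (∀ x, S (T x) = x) ∧ (∀ x, T (S x) = x) ∧
    ∀ B : Set X, MeasurableSet B →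
      ∃ B', MeasurableSet[⨆ n : ℕ, 𝒜.comap S^[n]] B' ∧ B' =ᵐ[μ] B

end Pool.Agent.VINO
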