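import Pool.Agent.VINO.EDefs

/-!
# VINO / Del: the criterion of Davenport, Erdős and LeVeque

PROOF.  Along `N = M^4`: `∑_M ∫ ‖av (M^4) u‖^2 ≤ ∑_M C / M^2 < ∞`, so `∑_M ‖av (M^4) (u · x)‖^2 < ∞` for almost all
`x` (`lintegral_tsum`, `ae_lt_top`; work with `ENNReal.ofReal` or `‖·‖ₑ`), so `av (M^4) (u · x) → 0`. For
`M^4 ≤ N < (M+1)^4` (`M = ⌊N^(1/4)⌋`): `‖∑_{n ≤ N} u n - ∑_{n ≤ M^4} u n‖ ≤ N - M^4 ≤ (M+1)^4 - M^4 ≤ 15 M^3`, so
`‖av N u‖ ≤ ‖av (M^4) u‖ + 15 / M` for the `x` with `‖u n x‖ ≤ 1` for all `n` (almost all `x`: `ae_all_iff`).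
The function `x ↦ ‖av N (u · x)‖^2` is integrable (bounded and a.e. strongly measurable on a finite
measure space), so the Bochner integral is the Lebesgue integral.
-/

set_option autoImplicit false

namespace Pool.Agent.VINO

open MeasureTheory Filter Topology

private theorem del_sum (w : ℕ → ℂ) (hw : ∀ n, ‖w n‖ ≤ 1) {K N : ℕ} (h : K ≤ N) :
    ‖∑ n ∈ Finset.Icc 1 N, w n‖ ≤ ‖∑ n ∈ Finset.Icc 1 K, w n‖ + ((N : ℝ) - K) := by
  have hI : ∀ k : ℕ, Finset.Icc 1 k = Finset.Ioc 0 k := by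
    intro k
    ext x
    simp only [Finset.mem_Icc, Finset.mem_Ioc]
    omega
  rw [hI, hI, ← Finset.sum_Ioc_consecutive w (Nat.zero_le K) h]
  refine (norm_add_le _ _).trans ?_
  have h1 : ‖∑ n ∈ Finset.Ioc K N, w n‖ ≤ (N : ℝ) - K := by
    refine (norm_sum_le _ _).trans ?_
    refine (Finset.sum_le_sum fun n _ => hw n).trans ?_
    rw [Finset.sum_const, Nat.card_Ioc, nsmul_eq_mul, mul_one, Nat.cast_sub h]
  linarith

private theorem del_step (w : ℕ → ℂ) (hw : ∀ n, ‖w n‖ ≤ 1) (M N : ℕ) (hM : 1 ≤ M)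
    (h1 : M ^ 4 ≤ N) (h2 : N < (M + 1) ^ 4) : ‖av N w‖ ≤ ‖av (M ^ 4) w‖ + 15 / M := by
  have hM0 : (0 : ℝ) < M := by exact_mod_cast hM
  have hM1 : (1 : ℝ) ≤ M := by exact_mod_cast hM
  have hM4 : 0 < M ^ 4 := pow_pos hM 4
  have hN : 0 < N := hM4.trans_le h1
  have hNr : (0 : ℝ) < N := by exact_mod_cast hN
  have h1r : (M : ℝ) ^ 4 ≤ N := by exact_mod_cast h1
  have h2r : (N : ℝ) < (M + 1) ^ 4 := by exact_mod_cast h2
  have hs := del_sum w hw h1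
  have e1 : ‖av N w‖ = ‖∑ n ∈ Finset.Icc 1 N, w n‖ / N := by
    unfold av
    rw [norm_mul, norm_inv, Complex.norm_natCast, div_eq_inv_mul]
  have e2 : ‖∑ n ∈ Finset.Icc 1 (M ^ 4), w n‖ = (M : ℝ) ^ 4 * ‖av (M ^ 4) w‖ := by
    unfold av
    rw [norm_mul, norm_inv, Complex.norm_natCast, Nat.cast_pow, ← mul_assoc,
      mul_inv_cancel₀ (by positivity), one_mul]
  rw [e2, Nat.cast_pow] at hs
  rw [e1, div_le_iff₀ hNr]
  have hA : 0 ≤ ‖av (M ^ 4) w‖ := norm_nonneg _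
  have h3 : (M : ℝ) ^ 4 * ‖av (M ^ 4) w‖ ≤ N * ‖av (M ^ 4) w‖ := mul_le_mul_of_nonneg_right h1r hA
  have h4 : (N : ℝ) - M ^ 4 ≤ 15 * (M : ℝ) ^ 3 := by
    have h5 : ((M : ℝ) + 1) ^ 4 - M ^ 4 = 4 * (M : ℝ) ^ 3 + 6 * (M : ℝ) ^ 2 + 4 * M + 1 := by ring
    have h6 : (M : ℝ) ^ 2 ≤ (M : ℝ) ^ 3 := pow_le_pow_right₀ hM1 (by norm_num)
    have h7 : (M : ℝ) ≤ (M : ℝ) ^ 3 := by
      calc (M : ℝ) = (M : ℝ) ^ 1 := (pow_one _).symm
        _ ≤ (M : ℝ) ^ 3 := pow_le_pow_right₀ hM1 (by norm_num)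
    have h8 : (1 : ℝ) ≤ (M : ℝ) ^ 3 := one_le_pow₀ hM1
    linarith
  have h5 : (15 : ℝ) * (M : ℝ) ^ 3 ≤ (15 : ℝ) / (M : ℝ) * (N : ℝ) := by
    have h6 : (15 : ℝ) * (M : ℝ) ^ 3 = (15 : ℝ) / (M : ℝ) * (M : ℝ) ^ 4 := by
      field_simp
    rw [h6]
    exact mul_le_mul_of_nonneg_left h1r (by positivity)
  calc ‖∑ n ∈ Finset.Icc 1 N, w n‖ ≤ (M : ℝ) ^ 4 * ‖av (M ^ 4) w‖ + ((N : ℝ) - M ^ 4) := hs
    _ ≤ N * ‖av (M ^ 4) w‖ + 15 / M * N := by linarith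
    _ = (‖av (M ^ 4) w‖ + 15 / M) * N := by ring

private theorem del_lim (w : ℕ → ℂ) (hw : ∀ n, ‖w n‖ ≤ 1)
    (h : Tendsto (fun M : ℕ => ‖av ((M + 1) ^ 4) w‖) atTop (𝓝 0)) :
    Tendsto (fun N => av N w) atTop (𝓝 0) := by
  have h' : Tendsto (fun M : ℕ => ‖av (M ^ 4) w‖) atTop (𝓝 0) :=
    (tendsto_add_atTop_iff_nat (f := fun M : ℕ => ‖av (M ^ 4) w‖) 1).1 h
  have h15 : Tendsto (fun M : ℕ => (15 : ℝ) / M) atTop (𝓝 0) :=
    tendsto_const_div_atTop_nhds_zero_nat 15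
  have hsum : Tendsto (fun M : ℕ => ‖av (M ^ 4) w‖ + 15 / M) atTop (𝓝 0) := by
    have := h'.add h15
    rwa [add_zero] at this
  have hroot : Tendsto (fun N : ℕ => Nat.sqrt (Nat.sqrt N)) atTop atTop := by
    apply tendsto_atTop.2
    intro b
    filter_upwards [eventually_ge_atTop (b ^ 4)] with N hN
    rw [Nat.le_sqrt, Nat.le_sqrt]
    calc b * b * (b * b) = b ^ 4 := by ring
      _ ≤ N := hN
  rw [tendsto_zero_iff_norm_tendsto_zero]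
  refine squeeze_zero' (Eventually.of_forall fun N => norm_nonneg _) ?_ (hsum.comp hroot)
  filter_upwards [eventually_ge_atTop 1] with N hN
  have h1 : Nat.sqrt (Nat.sqrt N) ^ 4 ≤ N := by
    have e1 := Nat.sqrt_le' (Nat.sqrt N)
    have e2 := Nat.sqrt_le' N
    calc Nat.sqrt (Nat.sqrt N) ^ 4 = (Nat.sqrt (Nat.sqrt N) ^ 2) ^ 2 := by ring
      _ ≤ (Nat.sqrt N) ^ 2 := Nat.pow_le_pow_left e1 2
      _ ≤ N := e2
  have h2 : N < (Nat.sqrt (Nat.sqrt N) + 1) ^ 4 := by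
    have e1 := Nat.lt_succ_sqrt' (Nat.sqrt N)
    have e2 := Nat.lt_succ_sqrt' N
    calc N < (Nat.sqrt N + 1) ^ 2 := e2
      _ ≤ ((Nat.sqrt (Nat.sqrt N) + 1) ^ 2) ^ 2 := Nat.pow_le_pow_left e1 2
      _ = _ := by ring
  have h3 : 1 ≤ Nat.sqrt (Nat.sqrt N) := by
    rw [Nat.le_sqrt, Nat.le_sqrt]
    simpa using hN
  exact del_step w hw _ N h3 h1 h2

theorem del {X : Type*} [MeasurableSpace X] (μ : Measure X) [IsFiniteMeasure μ]
    (u : ℕ → X → ℂ) (hm : ∀ n, AEStronglyMeasurable (u n) μ)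
    (hb : ∀ n, ∀ᵐ x ∂μ, ‖u n x‖ ≤ 1) (C : ℝ)
    (hC : ∀ N : ℕ, 1 ≤ N → ∫ x, ‖av N fun n => u n x‖ ^ 2 ∂μ ≤ C / Real.sqrt N) :
    ∀ᵐ x ∂μ, Tendsto (fun N => av N fun n => u n x) atTop (𝓝 0) := by
  set A : ℕ → X → ℂ := fun N x => av N fun n => u n x with hA
  have hAm : ∀ N, AEStronglyMeasurable (A N) μ := by
    intro N
    simp only [hA, av]
    refine AEStronglyMeasurable.const_mul ?_ _
    exact Finset.aestronglyMeasurable_fun_sum _ fun n _ => hm n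
  have hball : ∀ᵐ x ∂μ, ∀ n, ‖u n x‖ ≤ 1 := ae_all_iff.2 hb
  have hA1 : ∀ N, ∀ᵐ x ∂μ, ‖A N x‖ ≤ 1 := by
    intro N
    filter_upwards [hball] with x hx
    simp only [hA, av]
    rw [norm_mul, norm_inv, Complex.norm_natCast]
    have h1 : ‖∑ n ∈ Finset.Icc 1 N, u n x‖ ≤ N := by
      refine (norm_sum_le _ _).trans ?_
      refine (Finset.sum_le_sum fun n _ => hx n).trans ?_
      simp
    rcases Nat.eq_zero_or_pos N with rfl | hN
    · simp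
    · have hNr : (0 : ℝ) < N := by exact_mod_cast hN
      rw [inv_mul_le_iff₀ hNr, mul_one]
      exact h1
  have hint : ∀ N, Integrable (fun x => ‖A N x‖ ^ 2) μ := by
    intro N
    refine Integrable.of_bound ((hAm N).norm.pow 2) 1 ?_
    filter_upwards [hA1 N] with x hx
    rw [Real.norm_eq_abs, abs_of_nonneg (by positivity)]
    exact pow_le_one₀ (norm_nonneg _) hx
  have hC0 : 0 ≤ C := by
    have h1 := hC 1 le_rfl
    have h2 : 0 ≤ ∫ x, ‖av 1 fun n => u n x‖ ^ 2 ∂μ := integral_nonneg fun x => by positivity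
    simp at h1
    have := h2.trans h1
    exact this
  have hsumm : Summable fun M : ℕ => C / ((M : ℝ) + 1) ^ 2 := by
    have h1 : Summable fun M : ℕ => (1 : ℝ) / ((M : ℝ) + 1) ^ 2 := by
      have h2 := (summable_nat_add_iff (f := fun n : ℕ => (1 : ℝ) / (n : ℝ) ^ 2) 1).2
        (Real.summable_one_div_nat_pow.2 (by norm_num))
      simpa using h2
    have h3 := h1.mul_left C
    refine h3.congr fun M => ?_
    rw [mul_one_div]
  have hlint : ∫⁻ x, ∑' M : ℕ, ENNReal.ofReal (‖A ((M + 1) ^ 4) x‖ ^ 2) ∂μ ≠ ⊤ := by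
    rw [lintegral_tsum fun M => ((hint _).1.aemeasurable).ennreal_ofReal]
    have h1 : ∀ M : ℕ, ∫⁻ x, ENNReal.ofReal (‖A ((M + 1) ^ 4) x‖ ^ 2) ∂μ ≤
        ENNReal.ofReal (C / ((M : ℝ) + 1) ^ 2) := by
      intro M
      rw [← ofReal_integral_eq_lintegral_ofReal (hint _)
        (Eventually.of_forall fun x => by positivity)]
      apply ENNReal.ofReal_le_ofReal
      have h2 := hC ((M + 1) ^ 4) (Nat.one_le_pow _ _ (Nat.succ_pos M))
      have h3 : Real.sqrt (((M + 1) ^ 4 : ℕ) : ℝ) = ((M : ℝ) + 1) ^ 2 := by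
        push_cast
        rw [show ((M : ℝ) + 1) ^ 4 = (((M : ℝ) + 1) ^ 2) ^ 2 by ring]
        exact Real.sqrt_sq (by positivity)
      rw [h3] at h2
      exact h2
    refine ne_top_of_le_ne_top ?_ (ENNReal.tsum_le_tsum h1)
    rw [← ENNReal.ofReal_tsum_of_nonneg (fun M => by positivity) hsumm]
    exact ENNReal.ofReal_ne_top
  have hae := ae_lt_top' (AEMeasurable.tsum fun M =>
    ((hint ((M + 1) ^ 4)).1.aemeasurable).ennreal_ofReal) hlint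
  filter_upwards [hae, hball] with x hx hx1
  have h1 := ENNReal.tendsto_atTop_zero_of_tsum_ne_top hx.ne
  have h2 : Tendsto (fun M : ℕ => ‖A ((M + 1) ^ 4) x‖ ^ 2) atTop (𝓝 0) := by
    have h3 := (ENNReal.tendsto_toReal ENNReal.zero_ne_top).comp h1
    simp only [ENNReal.toReal_zero] at h3
    refine h3.congr fun M => ?_
    simp only [Function.comp]
    exact ENNReal.toReal_ofReal (by positivity)
  have h3 : Tendsto (fun M : ℕ => ‖A ((M + 1) ^ 4) x‖) atTop (𝓝 0) := by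
    have h4 := h2.sqrt
    rw [Real.sqrt_zero] at h4
    refine h4.congr fun M => ?_
    exact Real.sqrt_sq (norm_nonneg _)
  exact del_lim (fun n => u n x) hx1 h3

end Pool.Agent.VINO
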