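import Pool.Agent.VINO.Sep

/-!
# VINO / Gap: the gaps of `a c n` tend to infinity

PROOF.  `sep` with `r = 0`, `θ = 1/M` (`M > 0` arbitrary), `m = n`, `n + 1`: `|a(n+1) - a(n)| ≥ M` for all large
`n`; `a` is monotone for `n ≥ 1` (`G` is increasing on `[1, ∞)`: `log` and the power are), so the gap is
`≥ M`.
-/

set_option autoImplicit false

namespace Pool.Agent.VINO

open Filter Topology

theorem a_mono {c : ℝ} (hc0 : 0 < c) {m n : ℕ} (hm : 1 ≤ m) (h : m ≤ n) : a c m ≤ a c n := by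
  unfold a G
  refine Nat.floor_le_floor ?_
  have hm1 : (1 : ℝ) ≤ m := by exact_mod_cast hm
  have hmn : (m : ℝ) ≤ n := by exact_mod_cast h
  refine Real.exp_le_exp.2 ?_
  refine Real.rpow_le_rpow (Real.log_nonneg hm1) ?_ (by linarith)
  exact Real.log_le_log (by linarith) hmn

theorem gap {c : ℝ} (hc0 : 0 < c) (hc1 : c < 1) :
    Tendsto (fun n => (a c (n + 1) : ℝ) - a c n) atTop atTop := by
  rw [tendsto_atTop_atTop]
  intro b
  obtain ⟨M, hM⟩ : ∃ M : ℝ, M = max b 1 := ⟨_, rfl⟩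
  have hM0 : 0 < M := by
    rw [hM]
    exact lt_of_lt_of_le one_pos (le_max_right _ _)
  have hθ : (fun _ : Fin (0 + 1) => 1 / M) ≠ 0 := by
    intro h
    have h1 := congrFun h 0
    have h2 : (1 : ℝ) / M ≠ 0 := by positivity
    exact h2 h1
  obtain ⟨n₀, hn₀⟩ := sep hc0 hc1 (r := 0) (fun _ => 1 / M) hθ
  refine ⟨max n₀ 1, fun n hn => ?_⟩
  have hn1 : n₀ ≤ n := (le_max_left _ _).trans hn
  have hn2 : 1 ≤ n := (le_max_right _ _).trans hn
  have h1 := hn₀ n (n + 1) hn1 (Nat.lt_succ_self n)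
  have hmono : (a c n : ℝ) ≤ a c (n + 1) := by exact_mod_cast a_mono hc0 hn2 (Nat.le_succ n)
  simp only [Nat.cast_add, Nat.cast_one, add_sub_cancel_left] at h1
  rw [Fin.sum_univ_one, Fin.sum_univ_one] at h1
  simp only [Fin.val_zero, add_zero] at h1
  rw [← mul_sub, abs_mul, abs_of_pos (show (0 : ℝ) < 1 / M by positivity),
    abs_of_nonneg (sub_nonneg.2 hmono)] at h1
  have h2 : M ≤ (a c (n + 1) : ℝ) - a c n := by
    rw [one_div, ← div_eq_inv_mul, le_div_iff₀ hM0] at h1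
    linarith
  exact (le_max_left b 1).trans (hM ▸ h2)

end Pool.Agent.VINO
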