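import Pool.Agent.VINO.KOrth
import Pool.Agent.VINO.Del
import Pool.Agent.VINO.Gap

/-!
# VINO / KAvg: averages of products with a factor of type `K`

PROOF.  Let `B ≥ 1` bound all `‖f j‖`, `u n x = ∏_j f j (T^[a(n+j)] x) / B^(r+1)`. By `gap`, `a_mono` there is `n₀` with `a(n+1) - a(n) ≥ p + 1`
and `a(n) ≥ k` for `n ≥ n₀`. Let `j₀` be the smallest index with `f j₀` of type `K`. For `n₀ ≤ n < n'`: `korth` with `s i = a(n+i)`,
`s' i = a(n'+i)` gives `∫ u n conj (u n') = 0`. So `∫ ‖av N u‖^2 ≤ N^(-2) (N + 2 n₀ N) ≤ (1 + 2 n₀)/N ≤ (1 + 2n₀)/√N`, and `del`.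
-/

set_option autoImplicit false

namespace Pool.Agent.VINO

open MeasureTheory Filter Topology

private theorem kavg_sum (n₁ N : ℕ) :
    ∑ n ∈ Finset.Icc 1 N, ∑ n' ∈ Finset.Icc 1 N,
      ((if n = n' then (1 : ℝ) else 0) + ((if n < n₁ then (1 : ℝ) else 0) +
        (if n' < n₁ then (1 : ℝ) else 0))) ≤ (1 + 2 * n₁) * N := by
  have hcard : ((Finset.Icc 1 N).card : ℝ) = N := by
    rw [Nat.card_Icc]
    norm_num
  have h1 : ∀ n ∈ Finset.Icc 1 N, ∑ n' ∈ Finset.Icc 1 N, (if n = n' then (1 : ℝ) else 0) = 1 := by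
    intro n hn
    rw [Finset.sum_ite_eq, if_pos hn]
  have h2 : ∑ n ∈ Finset.Icc 1 N, (if n < n₁ then (1 : ℝ) else 0) ≤ n₁ := by
    rw [Finset.sum_ite, Finset.sum_const_zero, add_zero, Finset.sum_const, nsmul_eq_mul, mul_one]
    have h3 : ((Finset.Icc 1 N).filter fun n => n < n₁) ⊆ Finset.range n₁ := by
      intro n hn
      rw [Finset.mem_filter] at hn
      exact Finset.mem_range.mpr hn.2
    have h4 := Finset.card_le_card h3
    rw [Finset.card_range] at h4
    exact_mod_cast h4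
  have hN : (0 : ℝ) ≤ N := Nat.cast_nonneg N
  simp only [Finset.sum_add_distrib]
  rw [Finset.sum_congr rfl h1, Finset.sum_const, nsmul_eq_mul, mul_one, hcard]
  have h5 : ∑ n ∈ Finset.Icc 1 N, ∑ _n' ∈ Finset.Icc 1 N, (if n < n₁ then (1 : ℝ) else 0) =
      N * ∑ n ∈ Finset.Icc 1 N, (if n < n₁ then (1 : ℝ) else 0) := by
    rw [Finset.mul_sum]
    refine Finset.sum_congr rfl fun n _ => ?_
    rw [Finset.sum_const, nsmul_eq_mul, hcard]
  have h6 : ∑ _n ∈ Finset.Icc 1 N, ∑ n' ∈ Finset.Icc 1 N, (if n' < n₁ then (1 : ℝ) else 0) =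
      N * ∑ n ∈ Finset.Icc 1 N, (if n < n₁ then (1 : ℝ) else 0) := by
    rw [Finset.sum_const, nsmul_eq_mul, hcard]
  rw [h5, h6]
  have h7 := mul_le_mul_of_nonneg_left h2 hN
  linarith

/-- The second moment of the averages of functions which are orthogonal for large indices. -/
private theorem kavg_moment {X : Type*} [MeasurableSpace X] {μ : Measure X}
    [IsProbabilityMeasure μ] (u : ℕ → X → ℂ) (hm : ∀ n, Measurable (u n))
    (hb : ∀ n x, ‖u n x‖ ≤ 1) (n₁ : ℕ)
    (horth : ∀ n n', n₁ ≤ n → n₁ ≤ n' → n ≠ n' → ∫ x, u n x * (starRingEnd ℂ) (u n' x) ∂μ = 0)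
    (N : ℕ) (hN : 1 ≤ N) :
    ∫ x, ‖av N fun n => u n x‖ ^ 2 ∂μ ≤ (1 + 2 * n₁) / Real.sqrt N := by
  have hN0 : (0 : ℝ) < N := by exact_mod_cast hN
  have hconj : ∀ n, Measurable fun x => (starRingEnd ℂ) (u n x) := fun n =>
    Complex.continuous_conj.measurable.comp (hm n)
  have hint : ∀ n n', Integrable (fun x => u n x * (starRingEnd ℂ) (u n' x)) μ := by
    intro n n'
    refine Integrable.of_bound ((hm n).mul (hconj n')).aestronglyMeasurable 1 ?_
    refine Eventually.of_forall fun x => ?_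
    rw [norm_mul, RCLike.norm_conj]
    exact mul_le_one₀ (hb n x) (norm_nonneg _) (hb n' x)
  have hcorr : ∀ n n', ‖∫ x, u n x * (starRingEnd ℂ) (u n' x) ∂μ‖ ≤
      (if n = n' then (1 : ℝ) else 0) + ((if n < n₁ then (1 : ℝ) else 0) +
        (if n' < n₁ then (1 : ℝ) else 0)) := by
    intro n n'
    have h1 : ‖∫ x, u n x * (starRingEnd ℂ) (u n' x) ∂μ‖ ≤ 1 := by
      have h2 := norm_integral_le_of_norm_le_const (μ := μ)
        (f := fun x => u n x * (starRingEnd ℂ) (u n' x)) (C := 1)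
        (Eventually.of_forall fun x => by
          rw [norm_mul, RCLike.norm_conj]
          exact mul_le_one₀ (hb n x) (norm_nonneg _) (hb n' x))
      simpa using h2
    have hi : ∀ q : Prop, ∀ _ : Decidable q, (0 : ℝ) ≤ if q then (1 : ℝ) else 0 := by
      intro q _
      split_ifs <;> norm_num
    have i1 := hi (n = n') inferInstance
    have i2 := hi (n < n₁) inferInstance
    have i3 := hi (n' < n₁) inferInstance
    by_cases e1 : n = n'
    · rw [if_pos e1]
      linarith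
    by_cases e2 : n < n₁
    · rw [if_pos e2]
      linarith
    by_cases e3 : n' < n₁
    · rw [if_pos e3]
      linarith
    rw [horth n n' (by omega) (by omega) e1, norm_zero]
    linarith
  have hexp : ((∫ x, ‖av N fun n => u n x‖ ^ 2 ∂μ : ℝ) : ℂ) =
      (N : ℂ)⁻¹ * (N : ℂ)⁻¹ * ∑ n ∈ Finset.Icc 1 N, ∑ n' ∈ Finset.Icc 1 N,
        ∫ x, u n x * (starRingEnd ℂ) (u n' x) ∂μ := by
    rw [← integral_complex_ofReal]
    have h1 : ∀ x, (((‖av N fun n => u n x‖ ^ 2 : ℝ)) : ℂ) =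
        (N : ℂ)⁻¹ * (N : ℂ)⁻¹ * ∑ n ∈ Finset.Icc 1 N, ∑ n' ∈ Finset.Icc 1 N,
          u n x * (starRingEnd ℂ) (u n' x) := by
      intro x
      rw [Complex.ofReal_pow, ← Complex.mul_conj']
      unfold av
      rw [map_mul, map_inv₀, Complex.conj_natCast, map_sum, ← Finset.sum_mul_sum]
      ring
    rw [integral_congr_ae (Eventually.of_forall h1), integral_const_mul, integral_finsetSum]
    · congr 1
      refine Finset.sum_congr rfl fun n _ => ?_
      rw [integral_finsetSum]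
      intro n' _
      exact hint n n'
    · intro n _
      exact integrable_finsetSum _ fun n' _ => hint n n'
  have hnn : 0 ≤ ∫ x, ‖av N fun n => u n x‖ ^ 2 ∂μ := integral_nonneg fun x => by positivity
  have h2 : ∫ x, ‖av N fun n => u n x‖ ^ 2 ∂μ =
      ‖((∫ x, ‖av N fun n => u n x‖ ^ 2 ∂μ : ℝ) : ℂ)‖ := by
    rw [Complex.norm_real, Real.norm_of_nonneg hnn]
  have h3 : ‖((∫ x, ‖av N fun n => u n x‖ ^ 2 ∂μ : ℝ) : ℂ)‖ ≤
      (N : ℝ)⁻¹ * (N : ℝ)⁻¹ * ((1 + 2 * n₁) * N) := by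
    rw [hexp, norm_mul, norm_mul, norm_inv, Complex.norm_natCast]
    refine mul_le_mul_of_nonneg_left ?_ (by positivity)
    refine (norm_sum_le _ _).trans ?_
    refine le_trans ?_ (kavg_sum n₁ N)
    refine Finset.sum_le_sum fun n _ => ?_
    refine (norm_sum_le _ _).trans ?_
    exact Finset.sum_le_sum fun n' _ => hcorr n n'
  rw [h2]
  refine h3.trans ?_
  have hs : Real.sqrt N ≤ N := by
    rw [Real.sqrt_le_left hN0.le]
    have : (1 : ℝ) ≤ N := by exact_mod_cast hN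
    nlinarith
  have hs0 : 0 < Real.sqrt N := Real.sqrt_pos.mpr hN0
  have e1 : (N : ℝ)⁻¹ * (N : ℝ)⁻¹ * ((1 + 2 * n₁) * N) = (1 + 2 * n₁) / N := by
    field_simp
  rw [e1]
  exact div_le_div_of_nonneg_left (by positivity) hs0 hs

theorem kavg {c : ℝ} (hc0 : 0 < c) (hc1 : c < 1) {X : Type*} {𝒜 : MeasurableSpace X}
    [m : MeasurableSpace X] {μ : Measure X} [IsProbabilityMeasure μ] {T : X → X}
    (hT : MeasurePreserving T μ μ) (h𝒜 : 𝒜 ≤ m) (hA : 𝒜.comap T ≤ 𝒜) {r : ℕ}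
    (f : Fin (r + 1) → X → ℂ) (k p : ℕ)
    (hf : ∀ i, TypP T 𝒜 (f i) ∨ TypK T 𝒜 μ k p (f i)) (h0 : ∃ i, TypK T 𝒜 μ k p (f i)) :
    ∀ᵐ x ∂μ, Tendsto (fun N => av N fun n => ∏ j, f j (T^[a c (n + j.1)] x)) atTop (𝓝 0) := by
  classical
  have hb : ∀ i, Measurable (f i) ∧ ∃ M : ℝ, ∀ x, ‖f i x‖ ≤ M := fun i =>
    (hf i).elim (fun h => h.1) (fun h => h.1)
  have hmeas : ∀ i, Measurable (f i) := fun i => (hb i).1
  choose M hM using fun i => (hb i).2
  obtain ⟨B, hB1, hB⟩ : ∃ B : ℝ, 1 ≤ B ∧ ∀ i x, ‖f i x‖ ≤ B := by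
    refine ⟨1 + ∑ i, |M i|, ?_, ?_⟩
    · have : 0 ≤ ∑ i, |M i| := Finset.sum_nonneg fun i _ => abs_nonneg _
      linarith
    · intro i x
      have h1 : |M i| ≤ ∑ i, |M i| :=
        Finset.single_le_sum (f := fun i => |M i|) (fun i _ => abs_nonneg _) (Finset.mem_univ i)
      have h2 := hM i x
      have h3 := le_abs_self (M i)
      linarith
  have hB0 : 0 < B := by linarith
  obtain ⟨j₀, hj₀, hmin⟩ := (wellFounded_lt (α := Fin (r + 1))).has_min
    {i | TypK T 𝒜 μ k p (f i)} h0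
  have hlt : ∀ i, i < j₀ → TypP T 𝒜 (f i) := fun i hi =>
    (hf i).resolve_right fun h => hmin i h hi
  obtain ⟨n₀, hn₀⟩ := (tendsto_atTop_atTop.mp (gap hc0 hc1)) ((p : ℝ) + 1)
  obtain ⟨q, hq⟩ : ∃ q : ℕ, q = max n₀ 1 := ⟨_, rfl⟩
  have step : ∀ m₁ m₂, q ≤ m₁ → m₁ < m₂ → a c m₁ + p + 1 ≤ a c m₂ := by
    intro m₁ m₂ h1 h2
    have h3 := hn₀ m₁ (by omega)
    have h4 : a c (m₁ + 1) ≤ a c m₂ := a_mono hc0 (by omega) h2
    have h5 : a c m₁ + p + 1 ≤ a c (m₁ + 1) := by
      have h6 : ((a c m₁ + p + 1 : ℕ) : ℝ) ≤ (a c (m₁ + 1) : ℝ) := by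
        push_cast
        linarith
      exact_mod_cast h6
    omega
  have grow : ∀ t, t ≤ a c (q + t) := by
    intro t
    induction t with
    | zero => exact Nat.zero_le _
    | succ t ih =>
      have h1 := step (q + t) (q + (t + 1)) (by omega) (by omega)
      omega
  have hk : ∀ n, q + k ≤ n → k ≤ a c n := by
    intro n hn
    have h1 := grow (n - q)
    rw [show q + (n - q) = n by omega] at h1
    omega
  obtain ⟨P, hP⟩ : ∃ P : ℕ → X → ℂ, ∀ n x, P n x = ∏ j, f j (T^[a c (n + j.1)] x) :=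
    ⟨_, fun _ _ => rfl⟩
  have horth : ∀ n n', q + k ≤ n → n < n' → ∫ x, P n x * (starRingEnd ℂ) (P n' x) ∂μ = 0 := by
    intro n n' h1 h2
    have h3 := korth hT h𝒜 hA f k p j₀ hj₀ hlt (fun i _ => hf i) (fun i => a c (n + i.1))
      (fun i => a c (n' + i.1)) (fun i => hk _ (by omega)) (fun i => hk _ (by omega))
      (fun i hi => by
        have h4 : j₀.1 < i.1 := hi
        have h5 := step (n + j₀.1) (n + i.1) (by omega) (by omega)
        show a c (n + j₀.1) + p ≤ a c (n + i.1)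
        omega)
      (fun i hi => by
        have h4 : j₀.1 ≤ i.1 := hi
        have h5 := step (n + j₀.1) (n' + i.1) (by omega) (by omega)
        show a c (n + j₀.1) + p ≤ a c (n' + i.1)
        omega)
    simp only [hP]
    exact h3
  have horth' : ∀ n n', q + k ≤ n → q + k ≤ n' → n ≠ n' →
      ∫ x, P n x * (starRingEnd ℂ) (P n' x) ∂μ = 0 := by
    intro n n' h1 h2 h3
    rcases lt_or_gt_of_ne h3 with h4 | h4
    · exact horth n n' h1 h4
    · have h5 := horth n' n h2 h4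
      have h6 : ∫ x, P n x * (starRingEnd ℂ) (P n' x) ∂μ =
          (starRingEnd ℂ) (∫ x, P n' x * (starRingEnd ℂ) (P n x) ∂μ) := by
        rw [← integral_conj]
        refine integral_congr_ae (Eventually.of_forall fun x => ?_)
        simp only [map_mul, Complex.conj_conj]
        ring
      rw [h6, h5, map_zero]
  have hPm : ∀ n, Measurable (P n) := by
    intro n
    have h1 : P n = fun x => ∏ j, f j (T^[a c (n + j.1)] x) := funext fun x => hP n x
    rw [h1]
    exact Finset.measurable_fun_prod _ fun j _ => (hmeas j).comp (hT.measurable.iterate _)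
  have hPb : ∀ n x, ‖P n x‖ ≤ B ^ (r + 1) := by
    intro n x
    rw [hP, norm_prod]
    refine (Finset.prod_le_prod (fun _ _ => norm_nonneg _) fun j _ => hB j _).trans ?_
    rw [Finset.prod_const, Finset.card_univ, Fintype.card_fin]
  obtain ⟨b, hbd⟩ : ∃ b : ℝ, b = (B ^ (r + 1))⁻¹ := ⟨_, rfl⟩
  have hb0 : 0 < b := by
    rw [hbd]
    positivity
  have hBb : b * B ^ (r + 1) = 1 := by
    rw [hbd]
    exact inv_mul_cancel₀ (by positivity)
  have hu := del μ (fun n x => (b : ℂ) * P n x)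
    (fun n => ((hPm n).const_mul _).aestronglyMeasurable)
    (fun n => Eventually.of_forall fun x => by
      rw [norm_mul, Complex.norm_real, Real.norm_of_nonneg hb0.le, ← hBb]
      exact mul_le_mul_of_nonneg_left (hPb n x) hb0.le)
    (1 + 2 * ((q + k : ℕ) : ℝ))
    (kavg_moment (fun n x => (b : ℂ) * P n x) (fun n => (hPm n).const_mul _)
      (fun n x => by
        rw [norm_mul, Complex.norm_real, Real.norm_of_nonneg hb0.le, ← hBb]
        exact mul_le_mul_of_nonneg_left (hPb n x) hb0.le) (q + k)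
      (fun n n' h1 h2 h3 => by
        have h4 : ∀ x, (b : ℂ) * P n x * (starRingEnd ℂ) ((b : ℂ) * P n' x) =
            (b : ℂ) * b * (P n x * (starRingEnd ℂ) (P n' x)) := by
          intro x
          rw [map_mul, Complex.conj_ofReal]
          ring
        rw [integral_congr_ae (Eventually.of_forall h4), integral_const_mul,
          horth' n n' h1 h2 h3, mul_zero]))
  filter_upwards [hu] with x hx
  have hbc : (b : ℂ) ≠ 0 := by
    rw [Complex.ofReal_ne_zero]
    exact hb0.ne'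
  have h1 := hx.const_mul ((b : ℂ)⁻¹)
  rw [mul_zero] at h1
  refine h1.congr fun N => ?_
  unfold av
  rw [← Finset.mul_sum, ← mul_assoc, mul_comm ((b : ℂ)⁻¹), mul_assoc, ← mul_assoc ((b : ℂ)⁻¹),
    inv_mul_cancel₀ hbc, one_mul]
  simp only [hP]

end Pool.Agent.VINO
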