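import Pool.Agent.VINO.EDefs

/-!
# VINO / FurA: from the product formula to the convergence to the product measure

PROOF.  `Ω = ℤ → Y` is compact. The set `𝒬` of the continuous `F : C(Ω, ℂ)` such that
`av N (F (S^n ω)) → ∫ F d(ρ^ℤ)` is a closed subspace (`‖av‖ ≤ ‖F‖`, `‖∫‖ ≤ ‖F‖`). For `m : ℕ` and
`φ : ℤ → C(Y, ℂ)` the function `F w = ∏_{k ∈ Icc (-m) m} φ k (w k)` is in `𝒬`: for `n > m`,
`F (S^n ω) = ∏_{j : Fin (2m+1)} φ (j - m) (ω ((n - m) + j))`, and averages are invariant under the shift by `m`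
up to `O(1/N)`; so the limit is `∏_k ∫ φ k dρ`, by `h` with `r = 2 m`; and
`∫ F d(ρ^ℤ) = ∏_k ∫ φ k dρ` (`integral_restrict_infinitePi` for the finset `Icc (-m) m`, and
`integral_fintype_prod_eq_prod`). The span of these products is a subalgebra closed under conjugation
which separates points and contains `1`: by Stone-Weierstrass
(`ContinuousMap.starSubalgebra_topologicalClosure_eq_top_of_separatesPoints`) it is dense; it may be easiest to
let `A` be the star subalgebra generated by the coordinate functions `w ↦ φ (w k)` (`StarAlgebra.adjoin`) and to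
show that its elements are in the span of the products (the products are closed under multiplication,
taking a common `m`, and under `star`).
-/

set_option autoImplicit false

namespace Pool.Agent.VINO

open Filter Topology MeasureTheory

private theorem fa_av_sub (N : ℕ) (u v : ℕ → ℂ) {δ : ℝ} (hδ : 0 ≤ δ)
    (h : ∀ n, ‖u n - v n‖ ≤ δ) : ‖av N u - av N v‖ ≤ δ := by
  unfold av
  rw [← mul_sub, ← Finset.sum_sub_distrib, norm_mul, norm_inv, Complex.norm_natCast]
  rcases Nat.eq_zero_or_pos N with h0 | h0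
  · subst h0
    simpa using hδ
  · have hN : (0 : ℝ) < N := by exact_mod_cast h0
    have h1 : ‖∑ n ∈ Finset.Icc 1 N, (u n - v n)‖ ≤ N * δ := by
      refine (norm_sum_le _ _).trans ?_
      refine (Finset.sum_le_sum fun n _ => h n).trans (le_of_eq ?_)
      rw [Finset.sum_const, Nat.card_Icc, Nat.add_sub_cancel, nsmul_eq_mul]
    calc (N : ℝ)⁻¹ * ‖∑ n ∈ Finset.Icc 1 N, (u n - v n)‖ ≤ (N : ℝ)⁻¹ * (N * δ) :=
          mul_le_mul_of_nonneg_left h1 (by positivity)
      _ = δ := by field_simp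

private theorem fa_shift_one (U : ℤ → ℂ) {B : ℝ} (hB : ∀ n, ‖U n‖ ≤ B) {L : ℂ}
    (h : Tendsto (fun N => av N fun n => U n) atTop (𝓝 L)) :
    Tendsto (fun N => av N fun n => U ((n : ℤ) - 1)) atTop (𝓝 L) := by
  have h1 : ∀ N : ℕ, (av N fun n => U n) - (av N fun n => U ((n : ℤ) - 1)) =
      (N : ℂ)⁻¹ * (U N - U 0) := by
    intro N
    unfold av
    rw [← mul_sub, ← Finset.sum_sub_distrib]
    congr 1
    induction N with
    | zero => simp
    | succ N ih =>
      rw [Finset.sum_Icc_succ_top (by omega), ih]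
      push_cast
      rw [add_sub_cancel_right]
      ring
  have h2 : Tendsto (fun N : ℕ => (N : ℂ)⁻¹ * (U N - U 0)) atTop (𝓝 0) := by
    rw [tendsto_zero_iff_norm_tendsto_zero]
    have h3 : Tendsto (fun N : ℕ => (N : ℝ)⁻¹ * (2 * B)) atTop (𝓝 (0 * (2 * B))) :=
      tendsto_inv_atTop_nhds_zero_nat.mul_const _
    rw [zero_mul] at h3
    refine squeeze_zero (fun _ => norm_nonneg _) (fun N => ?_) h3
    rw [norm_mul, norm_inv, Complex.norm_natCast]
    refine mul_le_mul_of_nonneg_left ?_ (by positivity)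
    refine (norm_sub_le _ _).trans ?_
    linarith [hB N, hB 0]
  have h4 := h.sub h2
  rw [sub_zero] at h4
  refine h4.congr fun N => ?_
  rw [← h1]
  ring

private theorem fa_shift (m : ℕ) (U : ℤ → ℂ) {B : ℝ} (hB : ∀ n, ‖U n‖ ≤ B) {L : ℂ}
    (h : Tendsto (fun N => av N fun n => U n) atTop (𝓝 L)) :
    Tendsto (fun N => av N fun n => U ((n : ℤ) - m)) atTop (𝓝 L) := by
  induction m with
  | zero => simpa using h
  | succ m ih =>
    have h1 := fa_shift_one (fun t => U (t - m)) (fun n => hB _) ih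
    refine h1.congr fun N => ?_
    unfold av
    congr 1
    refine Finset.sum_congr rfl fun n _ => ?_
    push_cast
    congr 1
    ring

private theorem fa_reindex {M : Type*} [CommMonoid M] (m : ℕ) (f : ℤ → M) :
    ∏ j : Fin (2 * m + 1), f ((j.1 : ℤ) - m) = ∏ k ∈ Finset.Icc (-(m : ℤ)) m, f k := by
  refine Finset.prod_bij (fun j _ => (j.1 : ℤ) - m) ?_ ?_ ?_ ?_
  · intro j _
    rw [Finset.mem_Icc]
    have := j.2
    omega
  · intro j _ j' _ h
    apply Fin.ext
    omega
  · intro k hk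
    rw [Finset.mem_Icc] at hk
    refine ⟨⟨(k + m).toNat, by omega⟩, Finset.mem_univ _, ?_⟩
    change (((k + m).toNat : ℕ) : ℤ) - m = k
    omega
  · intro j _
    rfl

section main

variable {Y : Type*} [MetricSpace Y] [CompactSpace Y]

/-- product of functions of the coordinates -/
private noncomputable def pF (s : Finset ℤ) (φ : ℤ → C(Y, ℂ)) : C(ℤ → Y, ℂ) :=
  ∏ k ∈ s, (φ k).comp ⟨fun w : ℤ → Y => w k, continuous_apply k⟩

private theorem pF_apply (s : Finset ℤ) (φ : ℤ → C(Y, ℂ)) (w : ℤ → Y) :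
    pF s φ w = ∏ k ∈ s, φ k (w k) := by
  unfold pF
  rw [ContinuousMap.prod_apply]
  rfl

private theorem pF_ext {s t : Finset ℤ} (h : s ⊆ t) (φ : ℤ → C(Y, ℂ)) :
    pF s φ = pF t (fun k => if k ∈ s then φ k else 1) := by
  ext w
  rw [pF_apply, pF_apply, ← Finset.prod_subset h]
  · refine Finset.prod_congr rfl fun k hk => ?_
    rw [if_pos hk]
  · intro k _ hk
    rw [if_neg hk]
    rfl

private theorem pF_mul (s t : Finset ℤ) (φ ψ : ℤ → C(Y, ℂ)) :
    ∃ (u : Finset ℤ) (χ : ℤ → C(Y, ℂ)), pF s φ * pF t ψ = pF u χ := by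
  refine ⟨s ∪ t, fun k => (if k ∈ s then φ k else 1) * (if k ∈ t then ψ k else 1), ?_⟩
  rw [pF_ext (Finset.subset_union_left (s₂ := t)) φ,
    pF_ext (Finset.subset_union_right (s₁ := s)) ψ]
  ext w
  rw [ContinuousMap.mul_apply, pF_apply, pF_apply, pF_apply, ← Finset.prod_mul_distrib]
  rfl

/-- the span of the products -/
private noncomputable def spF (Y : Type*) [MetricSpace Y] [CompactSpace Y] :
    Submodule ℂ C(ℤ → Y, ℂ) :=
  Submodule.span ℂ {F | ∃ (s : Finset ℤ) (φ : ℤ → C(Y, ℂ)), F = pF s φ}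

private noncomputable def spA (Y : Type*) [MetricSpace Y] [CompactSpace Y] :
    StarSubalgebra ℂ C(ℤ → Y, ℂ) where
  carrier := spF Y
  mul_mem' := by
    intro a b ha hb
    refine Submodule.span_induction₂ (p := fun a b _ _ => a * b ∈ spF Y) ?_ ?_ ?_ ?_ ?_ ?_ ?_
      ha hb
    · rintro _ _ ⟨s, φ, rfl⟩ ⟨t, ψ, rfl⟩
      obtain ⟨u, χ, h⟩ := pF_mul s t φ ψ
      rw [h]
      exact Submodule.subset_span ⟨u, χ, rfl⟩
    · intro y _
      rw [zero_mul]
      exact zero_mem _
    · intro x _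
      rw [mul_zero]
      exact zero_mem _
    · intro x y z _ _ _ h1 h2
      rw [add_mul]
      exact add_mem h1 h2
    · intro x y z _ _ _ h1 h2
      rw [mul_add]
      exact add_mem h1 h2
    · intro r x y _ _ h
      rw [smul_mul_assoc]
      exact Submodule.smul_mem _ _ h
    · intro r x y _ _ h
      rw [mul_smul_comm]
      exact Submodule.smul_mem _ _ h
  add_mem' := fun ha hb => (spF Y).add_mem ha hb
  algebraMap_mem' := by
    intro r
    have h1 : (algebraMap ℂ C(ℤ → Y, ℂ)) r = r • pF ∅ (fun _ => (1 : C(Y, ℂ))) := by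
      ext w
      rw [ContinuousMap.smul_apply, pF_apply, Finset.prod_empty]
      simp
    rw [h1]
    exact Submodule.smul_mem _ _ (Submodule.subset_span ⟨_, _, rfl⟩)
  star_mem' := by
    intro a ha
    refine Submodule.span_induction (p := fun a _ => star a ∈ spF Y) ?_ ?_ ?_ ?_ ha
    · rintro _ ⟨s, φ, rfl⟩
      have h1 : star (pF s φ) = pF s (fun k => star (φ k)) := by
        ext w
        rw [ContinuousMap.star_apply, pF_apply, pF_apply, star_prod]
        rfl
      rw [h1]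
      exact Submodule.subset_span ⟨_, _, rfl⟩
    · rw [star_zero]
      exact zero_mem _
    · intro x y _ _ h1 h2
      rw [star_add]
      exact add_mem h1 h2
    · intro r x _ h
      rw [star_smul]
      exact Submodule.smul_mem _ _ h

private theorem spA_sep : (spA Y).SeparatesPoints := by
  intro w w' hne
  obtain ⟨k, hk⟩ := Function.ne_iff.1 hne
  let g : C(Y, ℂ) := ⟨fun y => ((dist y (w' k) : ℝ) : ℂ), by fun_prop⟩
  refine ⟨_, ⟨pF {k} (fun _ => g), Submodule.subset_span ⟨_, _, rfl⟩, rfl⟩, ?_⟩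
  change pF {k} (fun _ => g) w ≠ pF {k} (fun _ => g) w'
  rw [pF_apply, pF_apply, Finset.prod_singleton, Finset.prod_singleton]
  change ((dist (w k) (w' k) : ℝ) : ℂ) ≠ ((dist (w' k) (w' k) : ℝ) : ℂ)
  rw [dist_self]
  intro h
  exact hk (dist_eq_zero.1 (Complex.ofReal_injective h))

private theorem spF_dense (F : C(ℤ → Y, ℂ)) : F ∈ closure (spF Y : Set C(ℤ → Y, ℂ)) := by
  have h1 := ContinuousMap.starSubalgebra_topologicalClosure_eq_top_of_separatesPoints
    (spA Y) spA_sep
  have h2 : F ∈ (spA Y).topologicalClosure := by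
    rw [h1]
    exact StarSubalgebra.mem_top
  exact h2

end main

theorem furA {Y : Type*} [MetricSpace Y] [CompactSpace Y] [MeasurableSpace Y] [BorelSpace Y]
    (ω : ℤ → Y) (ρ : Measure Y) [IsProbabilityMeasure ρ]
    (h : ∀ (r : ℕ) (φ : Fin (r + 1) → C(Y, ℂ)),
      Tendsto (fun N => av N fun n => ∏ j, φ j (ω ((n : ℤ) + (j.1 : ℤ)))) atTop
        (𝓝 (∏ j, ∫ t, φ j t ∂ρ)))
    (F : (ℤ → Y) → ℂ) (hF : Continuous F) :
    Tendsto (fun N => av N fun n => F fun k => ω (k + n)) atTop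
      (𝓝 (∫ w, F w ∂(Measure.infinitePi fun _ : ℤ => ρ))) := by
  have : SecondCountableTopology Y := inferInstance
  set μ : Measure (ℤ → Y) := Measure.infinitePi fun _ : ℤ => ρ with hμ
  have hint : ∀ F : C(ℤ → Y, ℂ), Integrable F μ := fun F =>
    Integrable.of_bound F.continuous.aestronglyMeasurable ‖F‖
      (Eventually.of_forall fun w => F.norm_coe_le_norm w)
  let Good : C(ℤ → Y, ℂ) → Prop := fun F =>
    Tendsto (fun N => av N fun n => F fun k => ω (k + n)) atTop (𝓝 (∫ w, F w ∂μ))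
  -- products
  have hprod : ∀ (s : Finset ℤ) (φ : ℤ → C(Y, ℂ)), Good (pF s φ) := by
    intro s φ
    obtain ⟨m, hm⟩ : ∃ m : ℕ, s ⊆ Finset.Icc (-(m : ℤ)) m := by
      refine ⟨∑ k ∈ s, k.natAbs, fun k hk => ?_⟩
      have h1 : k.natAbs ≤ ∑ k ∈ s, k.natAbs :=
        Finset.single_le_sum (f := fun k : ℤ => k.natAbs) (fun _ _ => Nat.zero_le _) hk
      rw [Finset.mem_Icc]
      omega
    rw [pF_ext hm φ]
    generalize (fun k => if k ∈ s then φ k else 1) = ψ
    have hI : ∫ w, pF (Finset.Icc (-(m : ℤ)) m) ψ w ∂μ =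
        ∏ j : Fin (2 * m + 1), ∫ t, ψ ((j.1 : ℤ) - m) t ∂ρ := by
      rw [fa_reindex m fun k => ∫ t, ψ k t ∂ρ]
      have h1 : ∀ w : ℤ → Y, pF (Finset.Icc (-(m : ℤ)) m) ψ w =
          (fun y : (Finset.Icc (-(m : ℤ)) m) → Y => ∏ k, ψ k.1 (y k))
            ((Finset.Icc (-(m : ℤ)) m).restrict w) := by
        intro w
        rw [pF_apply]
        exact (Finset.prod_coe_sort _ fun k => ψ k (w k)).symm
      simp only [h1]
      rw [hμ, integral_restrict_infinitePi (μ := fun _ : ℤ => ρ)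
        (f := fun y : (Finset.Icc (-(m : ℤ)) m) → Y => ∏ k, ψ k.1 (y k))
        (by
          apply Continuous.aestronglyMeasurable
          fun_prop)]
      rw [integral_fintype_prod_eq_prod (fun (k : Finset.Icc (-(m : ℤ)) m) (t : Y) => ψ k.1 t)]
      exact Finset.prod_coe_sort _ fun k => ∫ t, ψ k t ∂ρ
    change Tendsto _ _ (𝓝 (∫ w, pF (Finset.Icc (-(m : ℤ)) m) ψ w ∂μ))
    rw [hI]
    have h2 := h (2 * m) fun j => ψ ((j.1 : ℤ) - m)
    set U : ℤ → ℂ := fun t => ∏ j : Fin (2 * m + 1), ψ ((j.1 : ℤ) - m) (ω (t + (j.1 : ℤ)))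
      with hU
    have hUB : ∀ t, ‖U t‖ ≤ ∏ j : Fin (2 * m + 1), ‖ψ ((j.1 : ℤ) - m)‖ := by
      intro t
      rw [hU]
      simp only [norm_prod]
      exact Finset.prod_le_prod (fun _ _ => norm_nonneg _)
        fun j _ => ContinuousMap.norm_coe_le_norm _ _
    have h3 := fa_shift m U hUB h2
    refine h3.congr fun N => ?_
    unfold av
    congr 1
    refine Finset.sum_congr rfl fun n _ => ?_
    change U ((n : ℤ) - m) = pF (Finset.Icc (-(m : ℤ)) m) ψ fun k => ω (k + n)
    rw [pF_apply, ← fa_reindex m fun k => ψ k (ω (k + n)), hU]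
    refine Finset.prod_congr rfl fun j _ => ?_
    congr 2
    ring
  -- linear combinations
  have hspan : ∀ F ∈ spF Y, Good F := by
    intro F hF
    refine Submodule.span_induction (p := fun F _ => Good F) ?_ ?_ ?_ ?_ hF
    · rintro _ ⟨s, φ, rfl⟩
      exact hprod s φ
    · change Tendsto _ _ (𝓝 (∫ w, (0 : C(ℤ → Y, ℂ)) w ∂μ))
      simp [av]
    · intro F G _ _ h1 h2
      change Tendsto _ _ (𝓝 (∫ w, (F + G) w ∂μ))
      have e1 : ∫ w, (F + G) w ∂μ = ∫ w, F w ∂μ + ∫ w, G w ∂μ :=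
        integral_add (hint F) (hint G)
      rw [e1]
      refine (h1.add h2).congr fun N => ?_
      unfold av
      rw [← mul_add, ← Finset.sum_add_distrib]
      rfl
    · intro r F _ h1
      change Tendsto _ _ (𝓝 (∫ w, (r • F) w ∂μ))
      have e1 : ∫ w, (r • F) w ∂μ = r * ∫ w, F w ∂μ := integral_const_mul r _
      rw [e1]
      refine (h1.const_mul r).congr fun N => ?_
      unfold av
      rw [← mul_assoc, mul_comm r, mul_assoc, Finset.mul_sum]
      rfl
  -- closure
  have hall : ∀ F : C(ℤ → Y, ℂ), Good F := by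
    intro F
    change Tendsto _ _ (𝓝 (∫ w, F w ∂μ))
    rw [Metric.tendsto_atTop]
    intro ε hε
    obtain ⟨G, hG, hd⟩ := Metric.mem_closure_iff.1 (spF_dense F) (ε / 3) (by linarith)
    obtain ⟨N0, hN0⟩ := Metric.tendsto_atTop.1 (hspan G hG) (ε / 3) (by linarith)
    refine ⟨N0, fun N hN => ?_⟩
    have h1 := hN0 N hN
    have hdn : ∀ w, ‖F w - G w‖ ≤ ε / 3 := by
      intro w
      rw [← dist_eq_norm]
      exact (ContinuousMap.dist_apply_le_dist w).trans hd.le
    have h2 : ‖(av N fun n => F fun k => ω (k + n)) - (av N fun n => G fun k => ω (k + n))‖ ≤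
        ε / 3 := fa_av_sub N _ _ (by linarith) fun n => hdn _
    have h3 : ‖(∫ w, G w ∂μ) - ∫ w, F w ∂μ‖ ≤ ε / 3 := by
      rw [← integral_sub (hint G) (hint F)]
      refine (norm_integral_le_of_norm_le_const (C := ε / 3)
        (Eventually.of_forall fun w => ?_)).trans (le_of_eq ?_)
      · rw [norm_sub_rev]
        exact hdn w
      · rw [probReal_univ, mul_one]
    rw [dist_eq_norm] at h1 ⊢
    have e : (av N fun n => F fun k => ω (k + n)) - ∫ w, F w ∂μ =
        ((av N fun n => F fun k => ω (k + n)) - (av N fun n => G fun k => ω (k + n))) +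
        ((av N fun n => G fun k => ω (k + n)) - ∫ w, G w ∂μ) +
        ((∫ w, G w ∂μ) - ∫ w, F w ∂μ) := by ring
    rw [e]
    refine (norm_add_le _ _).trans_lt ?_
    have := norm_add_le ((av N fun n => F fun k => ω (k + n)) - (av N fun n => G fun k => ω (k + n)))
      ((av N fun n => G fun k => ω (k + n)) - ∫ w, G w ∂μ)
    linarith
  exact hall ⟨F, hF⟩

end Pool.Agent.VINO
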