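import Pool.Agent.VINO.EDefs

/-!
# VINO / Riesz: the limits are integrals against a probability measure

PROOF.  For `N ≥ 1` let `ρ_N = (1/N) ∑_{n=1}^N δ_(y n)`, a probability measure on the compact metric space
`Y`. `ProbabilityMeasure Y` is compact (instance in `Mathlib.MeasureTheory.Measure.Prokhorov`), so the
sequence has a cluster point `ρ` (`exists_clusterPt_of_compactSpace` / `CompactSpace` + `map` filter). For
real continuous `φ`, `∫ φ dρ_N = (1/N) ∑ φ (y n)` converges (hypothesis `h` with `r = 0`, real parts) and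
`ρ' ↦ ∫ φ dρ'` is continuous on `ProbabilityMeasure Y`
(`ProbabilityMeasure.tendsto_iff_forall_integral_tendsto`), so the limit is `∫ φ dρ`. For complex `φ` use real and
imaginary parts (`integral_re_add_im`-type lemmas). So `Λ φ = ∫ φ dρ` (`r = 0`, product over `Fin 1`).
-/

set_option autoImplicit false

namespace Pool.Agent.VINO

open Filter Topology MeasureTheory

/-- the empirical measure -/
private noncomputable def emp {Y : Type*} [MeasurableSpace Y] (y : ℕ → Y) (N : ℕ) : Measure Y :=
  ((N + 1 : ℕ) : ENNReal)⁻¹ • ∑ n ∈ Finset.Icc 1 (N + 1), Measure.dirac (y n)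

private lemma emp_prob {Y : Type*} [MeasurableSpace Y] (y : ℕ → Y) (N : ℕ) :
    IsProbabilityMeasure (emp y N) := by
  constructor
  unfold emp
  rw [Measure.smul_apply, Measure.finsetSum_apply]
  simp only [measure_univ, Finset.sum_const, Nat.card_Icc, Nat.add_sub_cancel, nsmul_eq_mul,
    mul_one, smul_eq_mul]
  exact ENNReal.inv_mul_cancel (by simp) (ENNReal.natCast_ne_top _)

private lemma emp_int {Y : Type*} [MetricSpace Y] [CompactSpace Y] [MeasurableSpace Y]
    [BorelSpace Y] (y : ℕ → Y) (N : ℕ) (φ : C(Y, ℂ)) :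
    ∫ t, φ t ∂(emp y N) = av (N + 1) fun n => φ (y n) := by
  unfold emp av
  rw [integral_smul_measure, integral_finsetSum_measure]
  · simp only [integral_dirac]
    rw [ENNReal.toReal_inv, ENNReal.toReal_natCast, Complex.real_smul]
    push_cast
    ring
  · intro n _
    exact Integrable.of_bound φ.continuous.aestronglyMeasurable ‖φ‖
      (Filter.Eventually.of_forall fun t => φ.norm_coe_le_norm t)

theorem riesz {Y : Type*} [MetricSpace Y] [CompactSpace Y] [MeasurableSpace Y] [BorelSpace Y]
    (y : ℕ → Y) (h : ProdLim y) :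
    ∃ ρ : Measure Y, IsProbabilityMeasure ρ ∧ ∀ (r : ℕ) (φ : Fin (r + 1) → C(Y, ℂ)),
      Tendsto (fun N => av N fun n => ∏ j, φ j (y (n + j.1))) atTop
        (𝓝 (∏ j, ∫ t, φ j t ∂ρ)) := by
  obtain ⟨Λ, hΛ⟩ := h
  set R : ℕ → ProbabilityMeasure Y := fun N => ⟨emp y N, emp_prob y N⟩ with hR
  set U : Ultrafilter ℕ := hyperfilter ℕ with hU
  set ρ : ProbabilityMeasure Y := (U.map R).lim with hρ
  have hlim : Tendsto R U (𝓝 ρ) := (U.map R).le_nhds_lim
  have hint : ∀ φ : C(Y, ℂ), Λ φ = ∫ t, φ t ∂(ρ : Measure Y) := by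
    intro φ
    have h1 : Tendsto (fun N => ∫ t, φ t ∂(R N : Measure Y)) U
        (𝓝 (∫ t, φ t ∂(ρ : Measure Y))) :=
      (ProbabilityMeasure.tendsto_iff_forall_integral_rclike_tendsto ℂ).1 hlim
        (BoundedContinuousFunction.mkOfCompact φ)
    have h2 : Tendsto (fun N => av N fun n => φ (y n)) atTop (𝓝 (Λ φ)) := by
      have := hΛ 0 (fun _ => φ)
      simpa using this
    have h3 : Tendsto (fun N => av (N + 1) fun n => φ (y n)) U (𝓝 (Λ φ)) :=
      (h2.comp (tendsto_add_atTop_nat 1)).mono_left Nat.hyperfilter_le_atTop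
    have h4 : (fun N => ∫ t, φ t ∂(R N : Measure Y)) = fun N => av (N + 1) fun n => φ (y n) := by
      funext N
      exact emp_int y N φ
    rw [h4] at h1
    exact tendsto_nhds_unique h3 h1
  refine ⟨ρ, inferInstance, fun r φ => ?_⟩
  have h5 := hΛ r φ
  simp only [hint] at h5
  exact h5

end Pool.Agent.VINO
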