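import Pool.Agent.VINO.Ptw
import Pool.Agent.VINO.Riesz
import Pool.Agent.VINO.FurA

/-!
# VINO / FurB: sequences with factorising correlations have Bernoulli Furstenberg systems

PROOFS.  `mono_dense`: on the compact set `Y = closedBall 0 R` the functions `t ↦ mono p t` span a
subspace whose closure is everything: the span is the star subalgebra generated by the inclusion
`Y → ℂ`, which separates points (Stone-Weierstrass:
`ContinuousMap.starSubalgebra_topologicalClosure_eq_top_of_separatesPoints`; or the Mathlib results about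
polynomials in `z` and `conj z`).
`furB`: let `R`, `ω` be as in `HasBernoulliFS`. The hypothesis gives the product formula for the sequence
`y n = ω n` in `Y` and the functions `mono p` (`(ω n : ℂ) = d n` for `n ≥ 1`; only `n + j ≥ 1` occurs in
`av`), with `Λ (mono p) = Λ₀ p`; so `ptw` (choose `Λ` on `V = range (mono p restricted)` with
`Λ f = Λ₀ p` where `f = mono p`; well defined since `Λ₀ p` is the limit of the averages of `f (y n)`), then
`riesz`, and `furA`.
`furC`: `ProdLim y` and `d n = F (y n)`: take `φ = mono p ∘ F`.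
-/

set_option autoImplicit false

namespace Pool.Agent.VINO

open Filter Topology MeasureTheory

/-- the monomials on a closed ball -/
private noncomputable def mY (R : ℝ) (p : ℕ × ℕ) : C(Metric.closedBall (0 : ℂ) R, ℂ) :=
  (mono p).comp (⟨Subtype.val, continuous_subtype_val⟩ : C(Metric.closedBall (0 : ℂ) R, ℂ))

private theorem mY_apply (R : ℝ) (p : ℕ × ℕ) (t : Metric.closedBall (0 : ℂ) R) :
    mY R p t = (t : ℂ) ^ p.1 * (starRingEnd ℂ (t : ℂ)) ^ p.2 := rfl

private noncomputable def mA (R : ℝ) : StarSubalgebra ℂ C(Metric.closedBall (0 : ℂ) R, ℂ) where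
  carrier := Submodule.span ℂ (Set.range (mY R))
  mul_mem' := by
    intro a b ha hb
    refine Submodule.span_induction₂
      (p := fun a b _ _ => a * b ∈ Submodule.span ℂ (Set.range (mY R))) ?_ ?_ ?_ ?_ ?_ ?_ ?_
      ha hb
    · rintro _ _ ⟨p, rfl⟩ ⟨q, rfl⟩
      have h : mY R p * mY R q = mY R (p.1 + q.1, p.2 + q.2) := by
        ext t
        rw [ContinuousMap.mul_apply, mY_apply, mY_apply, mY_apply, pow_add, pow_add]
        ring
      rw [h]
      exact Submodule.subset_span ⟨_, rfl⟩
    · intro y _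
      rw [zero_mul]
      exact zero_mem _
    · intro x _
      rw [mul_zero]
      exact zero_mem _
    · intro x y z _ _ _ h1 h2
      rw [add_mul]
      exact add_mem h1 h2
    · intro x y z _ _ _ h1 h2
      rw [mul_add]
      exact add_mem h1 h2
    · intro r x y _ _ h
      rw [smul_mul_assoc]
      exact Submodule.smul_mem _ _ h
    · intro r x y _ _ h
      rw [mul_smul_comm]
      exact Submodule.smul_mem _ _ h
  add_mem' := fun ha hb => Submodule.add_mem _ ha hb
  algebraMap_mem' := by
    intro r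
    have h1 : (algebraMap ℂ C(Metric.closedBall (0 : ℂ) R, ℂ)) r = r • mY R (0, 0) := by
      ext t
      rw [ContinuousMap.smul_apply, mY_apply]
      simp
    rw [h1]
    exact Submodule.smul_mem _ _ (Submodule.subset_span ⟨_, rfl⟩)
  star_mem' := by
    intro a ha
    refine Submodule.span_induction
      (p := fun a _ => star a ∈ Submodule.span ℂ (Set.range (mY R))) ?_ ?_ ?_ ?_ ha
    · rintro _ ⟨p, rfl⟩
      have h1 : star (mY R p) = mY R (p.2, p.1) := by
        ext t
        rw [ContinuousMap.star_apply, mY_apply, mY_apply]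
        simp [mul_comm]
      rw [h1]
      exact Submodule.subset_span ⟨_, rfl⟩
    · rw [star_zero]
      exact zero_mem _
    · intro x y _ _ h1 h2
      rw [star_add]
      exact add_mem h1 h2
    · intro r x _ h
      rw [star_smul]
      exact Submodule.smul_mem _ _ h

private theorem mA_sep (R : ℝ) : (mA R).SeparatesPoints := by
  intro t t' hne
  refine ⟨_, ⟨mY R (1, 0), Submodule.subset_span ⟨_, rfl⟩, rfl⟩, ?_⟩
  change mY R (1, 0) t ≠ mY R (1, 0) t'
  rw [mY_apply, mY_apply]
  simp only [pow_one, pow_zero, mul_one]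
  exact fun h => hne (Subtype.ext h)

theorem mono_dense (R : ℝ) (f : C(Metric.closedBall (0 : ℂ) R, ℂ)) :
    f ∈ closure (Submodule.span ℂ
      (Set.range fun p : ℕ × ℕ => (mono p).comp
        (⟨Subtype.val, continuous_subtype_val⟩ : C(Metric.closedBall (0 : ℂ) R, ℂ))) :
        Set C(Metric.closedBall (0 : ℂ) R, ℂ)) := by
  have : CompactSpace (Metric.closedBall (0 : ℂ) R) :=
    isCompact_iff_compactSpace.1 (isCompact_closedBall _ _)
  have h1 := ContinuousMap.starSubalgebra_topologicalClosure_eq_top_of_separatesPoints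
    (mA R) (mA_sep R)
  have h2 : f ∈ (mA R).topologicalClosure := by
    rw [h1]
    exact StarSubalgebra.mem_top
  exact h2

private theorem fb_av_congr {N : ℕ} {u v : ℕ → ℂ} (h : ∀ n, 1 ≤ n → u n = v n) :
    av N u = av N v := by
  unfold av
  congr 1
  exact Finset.sum_congr rfl fun n hn => h n (Finset.mem_Icc.1 hn).1

theorem furB (d : ℕ → ℂ) (hd : ∃ R : ℝ, ∀ n, ‖d n‖ ≤ R) (Λ₀ : ℕ × ℕ → ℂ)
    (h : ∀ (r : ℕ) (p : Fin (r + 1) → ℕ × ℕ),
      Tendsto (fun N => av N fun n => ∏ j, mono (p j) (d (n + j.1))) atTop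
        (𝓝 (∏ j, Λ₀ (p j)))) : HasBernoulliFS d := by
  refine ⟨hd, fun R ω h1 _ => ?_⟩
  have : CompactSpace (Metric.closedBall (0 : ℂ) R) :=
    isCompact_iff_compactSpace.1 (isCompact_closedBall _ _)
  let y : ℕ → Metric.closedBall (0 : ℂ) R := fun n => ω n
  let Λ : C(Metric.closedBall (0 : ℂ) R, ℂ) → ℂ := fun f =>
    limUnder atTop fun N => av N fun n => f (y n)
  have hy : ∀ (p : ℕ × ℕ) (n : ℕ), 1 ≤ n → mY R p (y n) = mono p (d n) := by
    intro p n hn
    change mono p (ω n : ℂ) = mono p (d n)
    rw [h1 n hn]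
  have hΛ : ∀ p, Λ (mY R p) = Λ₀ p := by
    intro p
    have h2 := h 0 fun _ => p
    simp only [Nat.reduceAdd, Finset.univ_unique, Finset.prod_singleton, Fin.default_eq_zero,
      Fin.val_zero, add_zero, Fin.isValue] at h2
    apply Tendsto.limUnder_eq
    refine h2.congr fun N => ?_
    exact fb_av_congr fun n hn => (hy p n hn).symm
  have hP : ProdLim y := by
    refine ptw y (Set.range (mY R)) (mono_dense R) Λ ?_
    intro r φ hφ
    choose p hp using hφ
    have e : φ = fun j => mY R (p j) := funext fun j => (hp j).symm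
    subst e
    simp only [hΛ]
    refine (h r p).congr fun N => ?_
    refine fb_av_congr fun n hn => ?_
    refine Finset.prod_congr rfl fun j _ => ?_
    exact (hy (p j) (n + j.1) (by omega)).symm
  obtain ⟨ρ, hρ, hρ'⟩ := riesz y hP
  refine ⟨ρ, hρ, fun F hF => ?_⟩
  refine furA ω ρ ?_ F hF
  intro r φ
  refine (hρ' r φ).congr fun N => ?_
  refine fb_av_congr fun n _ => ?_
  refine Finset.prod_congr rfl fun j _ => ?_
  change φ j (ω ((n + j.1 : ℕ) : ℤ)) = _
  push_cast
  rfl

theorem furC {Y : Type*} [TopologicalSpace Y] [CompactSpace Y] (y : ℕ → Y) (h : ProdLim y)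
    (F : C(Y, ℂ)) : HasBernoulliFS fun n => F (y n) := by
  obtain ⟨Λ, hΛ⟩ := h
  refine furB _ ⟨‖F‖, fun n => F.norm_coe_le_norm _⟩ (fun p => Λ ((mono p).comp F)) ?_
  intro r p
  exact hΛ r fun j => (mono (p j)).comp F

end Pool.Agent.VINO
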