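import Mathlib

/-!
# VINO / KRev: reverse martingales in `L²`

PROOF.  Let `h_n` be a bounded (by the bound `M` of `h`) `𝒜_n`-measurable version of `μ[h | 𝒜_n]` (`stronglyMeasurable_condExp`; the
condition `‖·‖ ≤ M` holds almost everywhere; replace the value by `0` where it fails). For `n ≤ k`:
`∫ ‖h_n - h_k‖^2 = ∫ ‖h_n‖^2 - ∫ ‖h_k‖^2` (`∫ h_n conj h_k = ∫ ‖h_k‖^2` since `μ[h_n | 𝒜_k] = h_k` and `h_k` is bounded `𝒜_k`-measurable);
`∫ ‖h_n‖^2` is nonincreasing and `≥ 0`, so `(h_n)` is Cauchy in `L²`: there is a subsequence `n_i` with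
`∫ ‖h_{n_i} - h_{n_{i+1}}‖^2 ≤ 4^(-i)`, which converges almost everywhere and in `L²` (`∑ ‖h_{n_i} - h_{n_{i+1}}‖` is finite almost
everywhere; or `TendstoInMeasure.exists_seq_tendsto_ae`). Let `u x` be the limit of `h_{n_i} x` where it exists (a set
in `⋂ 𝒜_n`: it is `𝒜_N`-measurable for each `N`, because the tail `i ≥ i_N` only uses `𝒜_N`-measurable functions) and `0` elsewhere: `u` is
`⨅ 𝒜_n`-measurable, `‖u‖ ≤ M`, and `∫ ‖h_{n_i} - u‖^2 → 0` (dominated convergence).
-/

set_option autoImplicit false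

namespace Pool.Agent.VINO

open MeasureTheory Filter Topology

/-- a bounded version of the conditional expectation -/
private theorem exists_version {X : Type*} (𝒜 : MeasurableSpace X) [m : MeasurableSpace X]
    (μ : Measure X) [IsProbabilityMeasure μ] (hm : 𝒜 ≤ m) (h : X → ℝ)
    (hh : Measurable h) (M : ℝ) (hM : 0 ≤ M) (hb : ∀ x, |h x| ≤ M) :
    ∃ w : X → ℝ, Measurable[𝒜] w ∧ (∀ x, |w x| ≤ M) ∧
      ∀ R : X → ℝ, Measurable[𝒜] R → (∃ C : ℝ, ∀ x, |R x| ≤ C) →
        ∫ x, (h x - w x) * R x ∂μ = 0 := by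
  have hint : Integrable h μ := Integrable.of_bound hh.aestronglyMeasurable M
    (Eventually.of_forall fun x => by simpa using hb x)
  have hc : StronglyMeasurable[𝒜] (μ[h | 𝒜]) := stronglyMeasurable_condExp
  have hcm : Measurable[𝒜] (μ[h | 𝒜]) := hc.measurable
  have hbd : ∀ᵐ x ∂μ, |(μ[h | 𝒜]) x| ≤ M := by
    exact ae_bdd_abs_condExp_of_ae_bdd_abs (m := 𝒜) (μ := μ) (R := M) (f := h)
      (Eventually.of_forall fun x => hb x)
  set w : X → ℝ := fun x => max (-M) (min M ((μ[h | 𝒜]) x)) with hw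
  have hwm : Measurable[𝒜] w :=
    Measurable.max measurable_const (Measurable.min measurable_const hcm)
  have hwb : ∀ x, |w x| ≤ M := by
    intro x
    rw [abs_le]
    exact ⟨le_max_left _ _, max_le (by linarith) (min_le_left _ _)⟩
  have hae : w =ᵐ[μ] μ[h | 𝒜] := by
    filter_upwards [hbd] with x hx
    rw [abs_le] at hx
    simp only [hw]
    rw [min_eq_right hx.2, max_eq_right hx.1]
  refine ⟨w, hwm, hwb, ?_⟩
  intro R hR hC
  obtain ⟨C, hC⟩ := hC
  have hRm : Measurable R := hR.mono hm le_rfl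
  have hRs : StronglyMeasurable[𝒜] R := hR.stronglyMeasurable
  have hRint : Integrable (h * R) μ := by
    refine Integrable.of_bound (hh.mul hRm).aestronglyMeasurable (M * C)
      (Eventually.of_forall fun x => ?_)
    simp only [Pi.mul_apply, norm_mul, Real.norm_eq_abs]
    exact mul_le_mul (hb x) (hC x) (abs_nonneg _) hM
  have h1 : μ[h * R | 𝒜] =ᵐ[μ] μ[h | 𝒜] * R :=
    condExp_mul_of_stronglyMeasurable_right hRs hRint hint
  have h2 : ∫ x, (μ[h * R | 𝒜]) x ∂μ = ∫ x, (h * R) x ∂μ := integral_condExp hm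
  have h3 : ∫ x, (μ[h * R | 𝒜]) x ∂μ = ∫ x, w x * R x ∂μ := by
    apply integral_congr_ae
    filter_upwards [h1, hae] with x hx hx2
    rw [hx, hx2]
    rfl
  have hwR : Integrable (fun x => w x * R x) μ := by
    refine Integrable.of_bound ((hwm.mono hm le_rfl).mul hRm).aestronglyMeasurable (M * C)
      (Eventually.of_forall fun x => ?_)
    simp only [norm_mul, Real.norm_eq_abs]
    exact mul_le_mul (hwb x) (hC x) (abs_nonneg _) hM
  have e : ∀ x, (h x - w x) * R x = (h * R) x - w x * R x := fun x => by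
    simp only [Pi.mul_apply]; ring
  simp_rw [e]
  rw [integral_sub hRint hwR, ← h2, h3, sub_self]

private theorem real_case {X : Type*} (𝒜 : ℕ → MeasurableSpace X) [m : MeasurableSpace X]
    (μ : Measure X) [IsProbabilityMeasure μ] (hm : ∀ n, 𝒜 n ≤ m) (hanti : Antitone 𝒜) (h : X → ℝ)
    (hh : Measurable h) (M : ℝ) (hM : 0 ≤ M) (hb : ∀ x, |h x| ≤ M) :
    ∃ (w : ℕ → X → ℝ) (u : X → ℝ), (∀ n, Measurable[𝒜 n] (w n)) ∧ (∀ n x, |w n x| ≤ M) ∧
      (∀ n, ∀ R : X → ℝ, Measurable[𝒜 n] R → (∃ C : ℝ, ∀ x, |R x| ≤ C) →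
        ∫ x, (h x - w n x) * R x ∂μ = 0) ∧
      Measurable[⨅ n, 𝒜 n] u ∧ (∀ x, |u x| ≤ M) ∧
      ∀ δ > 0, ∃ N, ∀ n ≥ N, ∫ x, (w n x - u x) ^ 2 ∂μ ≤ δ := by
  choose w hwm hwb hw using fun n => exists_version (𝒜 n) μ (hm n) h hh M hM hb
  have hwm' : ∀ n, Measurable (w n) := fun n => (hwm n).mono (hm n) le_rfl
  have hint2 : ∀ f g : X → ℝ, Measurable f → Measurable g → (∀ x, |f x| ≤ M) →
      (∀ x, |g x| ≤ M) → Integrable (fun x => f x * g x) μ := by
    intro f g hf hg hfb hgb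
    refine Integrable.of_bound (hf.mul hg).aestronglyMeasurable (M * M)
      (Eventually.of_forall fun x => ?_)
    simp only [norm_mul, Real.norm_eq_abs]
    exact mul_le_mul (hfb x) (hgb x) (abs_nonneg _) hM
  have hint1 : ∀ f : X → ℝ, Measurable f → (∀ x, |f x| ≤ M) → Integrable f μ := by
    intro f hf hfb
    exact Integrable.of_bound hf.aestronglyMeasurable M
      (Eventually.of_forall fun x => by simpa using hfb x)
  have hhw : ∀ n k, n ≤ k → ∫ x, h x * w k x ∂μ = ∫ x, w n x * w k x ∂μ := by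
    intro n k hnk
    have h1 := hw n (w k) ((hwm k).mono (hanti hnk) le_rfl) ⟨M, hwb k⟩
    have e : ∀ x, (h x - w n x) * w k x = h x * w k x - w n x * w k x := fun x => by ring
    simp_rw [e] at h1
    rw [integral_sub (hint2 h (w k) hh (hwm' k) hb (hwb k))
      (hint2 (w n) (w k) (hwm' n) (hwm' k) (hwb n) (hwb k))] at h1
    linarith
  set a : ℕ → ℝ := fun n => ∫ x, w n x * w n x ∂μ with ha
  have hdiff : ∀ n k, n ≤ k → ∫ x, (w n x - w k x) ^ 2 ∂μ = a n - a k := by
    intro n k hnk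
    have e : ∀ x, (w n x - w k x) ^ 2 = (w n x * w n x - 2 * (w n x * w k x)) + w k x * w k x :=
      fun x => by ring
    simp_rw [e]
    have i1 := hint2 (w n) (w n) (hwm' n) (hwm' n) (hwb n) (hwb n)
    have i2 := hint2 (w n) (w k) (hwm' n) (hwm' k) (hwb n) (hwb k)
    have i3 := hint2 (w k) (w k) (hwm' k) (hwm' k) (hwb k) (hwb k)
    have i12 : Integrable (fun x => w n x * w n x - 2 * (w n x * w k x)) μ :=
      i1.sub (i2.const_mul 2)
    rw [integral_add i12 i3, integral_sub i1 (i2.const_mul 2),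
      integral_const_mul, ← hhw n k hnk, hhw k k le_rfl]
    simp only [ha]
    ring
  have hanti_a : Antitone a := by
    intro n k hnk
    have h1 : 0 ≤ ∫ x, (w n x - w k x) ^ 2 ∂μ := integral_nonneg fun x => sq_nonneg _
    rw [hdiff n k hnk] at h1
    linarith
  have ha0 : ∀ n, 0 ≤ a n := fun n => integral_nonneg fun x => mul_self_nonneg _
  have hbdd : BddBelow (Set.range a) := ⟨0, by rintro _ ⟨n, rfl⟩; exact ha0 n⟩
  have hlim := tendsto_atTop_ciInf hanti_a hbdd
  have hcau : ∀ δ > 0, ∃ N, ∀ n ≥ N, ∀ k ≥ N, ∫ x, (w n x - w k x) ^ 2 ∂μ ≤ δ := by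
    intro δ hδ
    have h1 : ∀ᶠ n in atTop, a n < (⨅ n, a n) + δ :=
      (hlim.eventually_lt_const (by linarith))
    obtain ⟨N, hN⟩ := eventually_atTop.mp h1
    have key : ∀ n k, N ≤ n → n ≤ k → ∫ x, (w n x - w k x) ^ 2 ∂μ ≤ δ := by
      intro n k hn hnk
      rw [hdiff n k hnk]
      have h2 := hN n hn
      have h3 := ciInf_le hbdd k
      linarith
    refine ⟨N, fun n hn k hk => ?_⟩
    rcases le_total n k with hnk | hnk
    · exact key n k hn hnk
    · have h2 := key k n hk hnk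
      have e : ∀ x, (w n x - w k x) ^ 2 = (w k x - w n x) ^ 2 := fun x => by ring
      simp_rw [e]
      exact h2
  -- the subsequence
  have hq : ∀ i : ℕ, (0 : ℝ) < ((1 / 2 : ℝ) ^ i / 2) ^ 2 := fun i => by positivity
  choose N₀ hN₀ using fun i : ℕ => hcau _ (hq i)
  set N₁ : ℕ → ℕ := fun i => (∑ j ∈ Finset.range (i + 1), N₀ j) + i with hN₁
  have hN₁mono : Monotone N₁ := by
    refine monotone_nat_of_le_succ fun i => ?_
    simp only [hN₁]
    rw [Finset.sum_range_succ _ (i + 1)]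
    omega
  have hN₁ge : ∀ i, N₀ i ≤ N₁ i := by
    intro i
    simp only [hN₁]
    rw [Finset.sum_range_succ]
    omega
  have hN₁i : ∀ i, i ≤ N₁ i := fun i => by simp only [hN₁]; omega
  have hB : ∑' i : ℕ, ENNReal.ofReal ((1 / 2 : ℝ) ^ i) ≠ ⊤ := by
    rw [← ENNReal.ofReal_tsum_of_nonneg (fun i => by positivity)
      (summable_geometric_of_lt_one (by norm_num) (by norm_num))]
    exact ENNReal.ofReal_ne_top
  have hL1 : ∀ N n k : ℕ, N ≤ n → N ≤ k →
      eLpNorm (w (N₁ n) - w (N₁ k)) 1 μ < ENNReal.ofReal ((1 / 2 : ℝ) ^ N) := by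
    intro N n k hn hk
    have hd : Measurable (w (N₁ n) - w (N₁ k)) := (hwm' _).sub (hwm' _)
    have hdi : Integrable (w (N₁ n) - w (N₁ k)) μ :=
      (hint1 _ (hwm' _) (hwb _)).sub (hint1 _ (hwm' _) (hwb _))
    rw [eLpNorm_one_eq_lintegral_enorm, ← ofReal_integral_norm_eq_lintegral_enorm hdi]
    apply (ENNReal.ofReal_lt_ofReal_iff (by positivity)).mpr
    have h1 := hN₀ N (N₁ n) ((hN₁ge N).trans (hN₁mono hn)) (N₁ k)
      ((hN₁ge N).trans (hN₁mono hk))
    set t : ℝ := (1 / 2 : ℝ) ^ N / 2 with ht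
    have ht0 : 0 < t := by positivity
    have hsq : Integrable (fun x => (w (N₁ n) x - w (N₁ k) x) ^ 2) μ := by
      refine Integrable.of_bound (hd.pow_const 2).aestronglyMeasurable ((2 * M) ^ 2)
        (Eventually.of_forall fun x => ?_)
      rw [Real.norm_eq_abs, abs_pow]
      apply pow_le_pow_left₀ (abs_nonneg _)
      have h2 := abs_sub (w (N₁ n) x) (w (N₁ k) x)
      have h3 := hwb (N₁ n) x
      have h4 := hwb (N₁ k) x
      linarith
    have h2 : ∫ x, ‖(w (N₁ n) - w (N₁ k)) x‖ ∂μ ≤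
        ∫ x, (t / 2 + (2 * t)⁻¹ * (w (N₁ n) x - w (N₁ k) x) ^ 2) ∂μ := by
      have hr : Integrable (fun x => t / 2 + (2 * t)⁻¹ * (w (N₁ n) x - w (N₁ k) x) ^ 2) μ :=
        (integrable_const _).add (hsq.const_mul _)
      apply integral_mono hdi.norm hr
      intro x
      simp only [Pi.sub_apply, Real.norm_eq_abs]
      set y := w (N₁ n) x - w (N₁ k) x with hy
      have h3 : 0 ≤ (|y| - t) ^ 2 := sq_nonneg _
      have h4 : |y| ^ 2 = y ^ 2 := sq_abs y
      have h5 : t / 2 + (2 * t)⁻¹ * y ^ 2 - |y| = (2 * t)⁻¹ * (|y| - t) ^ 2 := by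
        rw [← h4]
        field_simp
        ring
      have h6 : 0 ≤ (2 * t)⁻¹ * (|y| - t) ^ 2 := by positivity
      linarith
    rw [integral_add (integrable_const _) (hsq.const_mul _), integral_const_mul] at h2
    simp only [integral_const, probReal_univ, smul_eq_mul, one_mul] at h2
    have h3 : (2 * t)⁻¹ * ∫ x, (w (N₁ n) x - w (N₁ k) x) ^ 2 ∂μ ≤ (2 * t)⁻¹ * t ^ 2 :=
      mul_le_mul_of_nonneg_left h1 (by positivity)
    have h4 : (2 * t)⁻¹ * t ^ 2 = t / 2 := by
      field_simp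
    have h5 : (1 / 2 : ℝ) ^ N = 2 * t := by rw [ht]; ring
    rw [h5]
    linarith
  have hae := Lp.ae_tendsto_of_cauchy_eLpNorm (μ := μ) (p := 1) (f := fun i => w (N₁ i))
    (fun i => (hwm' _).aestronglyMeasurable) le_rfl hB hL1
  set v : X → ℝ := fun x => limsup (fun i => w (N₁ i) x) atTop with hv
  have hvm : Measurable[⨅ n, 𝒜 n] v := by
    have h1 : ∀ n, Measurable[𝒜 n] v := by
      intro n
      have e : v = fun x => limsup (fun i => w (N₁ (i + n)) x) atTop := by
        funext x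
        simp only [hv]
        exact (limsup_nat_add (fun i => w (N₁ i) x) n).symm
      rw [e]
      refine Measurable.limsup fun i => ?_
      refine (hwm _).mono (hanti ?_) le_rfl
      have h2 := hN₁i (i + n)
      omega
    intro s hs
    rw [MeasurableSpace.measurableSet_iInf]
    exact fun n => h1 n hs
  set u : X → ℝ := fun x => max (-M) (min M (v x)) with hu
  have hum : Measurable[⨅ n, 𝒜 n] u :=
    Measurable.max measurable_const (Measurable.min measurable_const hvm)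
  have hub : ∀ x, |u x| ≤ M := by
    intro x
    rw [abs_le]
    exact ⟨le_max_left _ _, max_le (by linarith) (min_le_left _ _)⟩
  have hum' : Measurable u := hum.mono ((iInf_le 𝒜 0).trans (hm 0)) le_rfl
  have haeu : ∀ᵐ x ∂μ, Tendsto (fun i => w (N₁ i) x) atTop (𝓝 (u x)) := by
    filter_upwards [hae] with x hx
    obtain ⟨l, hl⟩ := hx
    have h1 : v x = l := hl.limsup_eq
    have h2 : l ≤ M := le_of_tendsto' hl fun i => (abs_le.mp (hwb _ x)).2
    have h3 : -M ≤ l := ge_of_tendsto' hl fun i => (abs_le.mp (hwb _ x)).1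
    have h4 : u x = l := by
      simp only [hu]
      rw [h1, min_eq_right h2, max_eq_right h3]
    rw [h4]
    exact hl
  have hsqi : ∀ f g : X → ℝ, Measurable f → Measurable g → (∀ x, |f x| ≤ M) →
      (∀ x, |g x| ≤ M) → Integrable (fun x => (f x - g x) ^ 2) μ := by
    intro f g hf hg hfb hgb
    refine Integrable.of_bound ((hf.sub hg).pow_const 2).aestronglyMeasurable ((2 * M) ^ 2)
      (Eventually.of_forall fun x => ?_)
    rw [Real.norm_eq_abs, abs_pow]
    apply pow_le_pow_left₀ (abs_nonneg _)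
    have h2 := abs_sub (f x) (g x)
    have h3 := hfb x
    have h4 := hgb x
    linarith
  have hdom : Tendsto (fun i => ∫ x, (w (N₁ i) x - u x) ^ 2 ∂μ) atTop (𝓝 0) := by
    have h1 := tendsto_integral_of_dominated_convergence (μ := μ)
      (F := fun i x => (w (N₁ i) x - u x) ^ 2) (f := fun _ => (0 : ℝ)) (fun _ => (2 * M) ^ 2)
      (fun i => (((hwm' _).sub hum').pow_const 2).aestronglyMeasurable) (integrable_const _)
      (fun i => Eventually.of_forall fun x => by
        rw [Real.norm_eq_abs, abs_pow]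
        apply pow_le_pow_left₀ (abs_nonneg _)
        have h2 := abs_sub (w (N₁ i) x) (u x)
        have h3 := hwb (N₁ i) x
        have h4 := hub x
        linarith)
      (by
        filter_upwards [haeu] with x hx
        have h2 := (hx.sub_const (u x)).pow 2
        simpa using h2)
    simpa using h1
  refine ⟨w, u, hwm, hwb, hw, hum, hub, ?_⟩
  intro δ hδ
  obtain ⟨N, hN⟩ := hcau (δ / 4) (by linarith)
  have h1 : ∀ᶠ i in atTop, ∫ x, (w (N₁ i) x - u x) ^ 2 ∂μ < δ / 4 :=
    hdom.eventually_lt_const (by linarith)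
  obtain ⟨i, hi1, hi2⟩ := (h1.and (eventually_ge_atTop N)).exists
  refine ⟨N, fun n hn => ?_⟩
  have h2 := hN n hn (N₁ i) (hi2.trans (hN₁i i))
  have j1 := hsqi (w n) (w (N₁ i)) (hwm' _) (hwm' _) (hwb _) (hwb _)
  have j2 := hsqi (w (N₁ i)) u (hwm' _) hum' (hwb _) hub
  have h3 : ∫ x, (w n x - u x) ^ 2 ∂μ ≤
      ∫ x, (2 * (w n x - w (N₁ i) x) ^ 2 + 2 * (w (N₁ i) x - u x) ^ 2) ∂μ := by
    have hr : Integrable (fun x => 2 * (w n x - w (N₁ i) x) ^ 2 + 2 * (w (N₁ i) x - u x) ^ 2) μ :=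
      (j1.const_mul 2).add (j2.const_mul 2)
    apply integral_mono (hsqi (w n) u (hwm' _) hum' (hwb _) hub) hr
    intro x
    simp only
    nlinarith [sq_nonneg ((w n x - w (N₁ i) x) - (w (N₁ i) x - u x))]
  rw [integral_add (j1.const_mul 2) (j2.const_mul 2), integral_const_mul, integral_const_mul] at h3
  linarith

private theorem reCLM_integral {X : Type*} [MeasurableSpace X] (μ : Measure X) (f : X → ℂ)
    (hf : Integrable f μ) : (∫ x, f x ∂μ).re = ∫ x, (f x).re ∂μ := by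
  have h := integral_re (𝕜 := ℂ) hf
  simpa using h.symm

private theorem imCLM_integral {X : Type*} [MeasurableSpace X] (μ : Measure X) (f : X → ℂ)
    (hf : Integrable f μ) : (∫ x, f x ∂μ).im = ∫ x, (f x).im ∂μ := by
  have h := integral_im (𝕜 := ℂ) hf
  simpa using h.symm

theorem rev_mart {X : Type*} (𝒜 : ℕ → MeasurableSpace X) [m : MeasurableSpace X]
    (μ : Measure X) [IsProbabilityMeasure μ] (hm : ∀ n, 𝒜 n ≤ m) (hanti : Antitone 𝒜) (h : X → ℂ)
    (hh : Measurable h) (hb : ∃ M : ℝ, ∀ x, ‖h x‖ ≤ M) (ε : ℝ) (hε : 0 < ε) :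
    ∃ (n : ℕ) (w u : X → ℂ), Measurable[𝒜 n] w ∧ (∃ M : ℝ, ∀ x, ‖w x‖ ≤ M) ∧
      (∀ R : X → ℂ, Measurable[𝒜 n] R → (∃ M : ℝ, ∀ x, ‖R x‖ ≤ M) →
        ∫ x, (h x - w x) * R x ∂μ = 0) ∧
      Measurable[⨅ n, 𝒜 n] u ∧ (∃ M : ℝ, ∀ x, ‖u x‖ ≤ M) ∧
      ∫ x, ‖w x - u x‖ ^ 2 ∂μ ≤ ε := by
  obtain ⟨M, hM⟩ := hb
  have hM0 : 0 ≤ M ∨ IsEmpty X := by
    by_cases hX : Nonempty X
    · obtain ⟨x⟩ := hX
      exact Or.inl ((norm_nonneg _).trans (hM x))
    · exact Or.inr (not_nonempty_iff.mp hX)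
  have hM0 : 0 ≤ M := by
    rcases hM0 with h1 | h1
    · exact h1
    · exfalso
      have h2 : μ Set.univ = 0 := by
        rw [Set.univ_eq_empty_iff.mpr h1, measure_empty]
      rw [measure_univ] at h2
      exact one_ne_zero h2
  obtain ⟨w₁, u₁, hwm₁, hwb₁, hw₁, hum₁, hub₁, hc₁⟩ := real_case 𝒜 μ hm hanti (fun x => (h x).re)
    (Complex.measurable_re.comp hh) M hM0 (fun x => (Complex.abs_re_le_norm _).trans (hM x))
  obtain ⟨w₂, u₂, hwm₂, hwb₂, hw₂, hum₂, hub₂, hc₂⟩ := real_case 𝒜 μ hm hanti (fun x => (h x).im)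
    (Complex.measurable_im.comp hh) M hM0 (fun x => (Complex.abs_im_le_norm _).trans (hM x))
  obtain ⟨N₁, hN₁⟩ := hc₁ (ε / 2) (by linarith)
  obtain ⟨N₂, hN₂⟩ := hc₂ (ε / 2) (by linarith)
  set n := max N₁ N₂ with hn
  have e₁ := hN₁ n (le_max_left _ _)
  have e₂ := hN₂ n (le_max_right _ _)
  have wm₁ : Measurable (w₁ n) := (hwm₁ n).mono (hm n) le_rfl
  have wm₂ : Measurable (w₂ n) := (hwm₂ n).mono (hm n) le_rfl
  have um₁ : Measurable u₁ := hum₁.mono ((iInf_le 𝒜 0).trans (hm 0)) le_rfl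
  have um₂ : Measurable u₂ := hum₂.mono ((iInf_le 𝒜 0).trans (hm 0)) le_rfl
  refine ⟨n, fun x => ⟨w₁ n x, w₂ n x⟩, fun x => ⟨u₁ x, u₂ x⟩, ?_, ⟨M + M, ?_⟩, ?_, ?_,
    ⟨M + M, ?_⟩, ?_⟩
  · have h1 : (fun x => (⟨w₁ n x, w₂ n x⟩ : ℂ)) = fun x => (w₁ n x : ℂ) + w₂ n x * Complex.I := by
      funext x
      apply Complex.ext <;> simp
    rw [h1]
    exact (Complex.measurable_ofReal.comp (hwm₁ n)).add
      ((Complex.measurable_ofReal.comp (hwm₂ n)).mul measurable_const)
  · intro x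
    have h1 := Complex.norm_le_abs_re_add_abs_im (⟨w₁ n x, w₂ n x⟩ : ℂ)
    have h2 := hwb₁ n x
    have h3 := hwb₂ n x
    simp only at h1
    linarith
  · intro R hR hC
    obtain ⟨C, hC⟩ := hC
    have hRm : Measurable R := hR.mono (hm n) le_rfl
    have hC1 : ∀ x, |(R x).re| ≤ C := fun x => (Complex.abs_re_le_norm _).trans (hC x)
    have hC2 : ∀ x, |(R x).im| ≤ C := fun x => (Complex.abs_im_le_norm _).trans (hC x)
    have r1 := hw₁ n (fun x => (R x).re) (Complex.measurable_re.comp hR) ⟨C, hC1⟩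
    have r2 := hw₁ n (fun x => (R x).im) (Complex.measurable_im.comp hR) ⟨C, hC2⟩
    have r3 := hw₂ n (fun x => (R x).re) (Complex.measurable_re.comp hR) ⟨C, hC1⟩
    have r4 := hw₂ n (fun x => (R x).im) (Complex.measurable_im.comp hR) ⟨C, hC2⟩
    have hi : Integrable (fun x => (h x - ⟨w₁ n x, w₂ n x⟩) * R x) μ := by
      have hm1 : Measurable (fun x => (h x - ⟨w₁ n x, w₂ n x⟩) * R x) := by
        have h1 : (fun x => (h x - (⟨w₁ n x, w₂ n x⟩ : ℂ)) * R x) =
            fun x => (h x - ((w₁ n x : ℂ) + w₂ n x * Complex.I)) * R x := by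
          funext x
          congr 2
          apply Complex.ext <;> simp
        rw [h1]
        exact (hh.sub ((Complex.measurable_ofReal.comp wm₁).add
          ((Complex.measurable_ofReal.comp wm₂).mul measurable_const))).mul hRm
      refine Integrable.of_bound hm1.aestronglyMeasurable ((M + (M + M)) * C)
        (Eventually.of_forall fun x => ?_)
      rw [norm_mul]
      apply mul_le_mul _ (hC x) (norm_nonneg _) (by linarith)
      refine (norm_sub_le _ _).trans (add_le_add (hM x) ?_)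
      have h1 := Complex.norm_le_abs_re_add_abs_im (⟨w₁ n x, w₂ n x⟩ : ℂ)
      have h2 := hwb₁ n x
      have h3 := hwb₂ n x
      simp only at h1
      linarith
    have bi : ∀ (f g R : X → ℝ), Measurable f → Measurable g → Measurable R → (∀ x, |f x| ≤ M) →
        (∀ x, |g x| ≤ M) → (∀ x, |R x| ≤ C) → Integrable (fun x => (f x - g x) * R x) μ := by
      intro f g R hf hg hR hfb hgb hRb
      refine Integrable.of_bound ((hf.sub hg).mul hR).aestronglyMeasurable ((M + M) * C)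
        (Eventually.of_forall fun x => ?_)
      rw [Real.norm_eq_abs, abs_mul]
      apply mul_le_mul _ (hRb x) (abs_nonneg _) (by linarith)
      exact (abs_sub _ _).trans (add_le_add (hfb x) (hgb x))
    have hre : ∀ x, |(h x).re| ≤ M := fun x => (Complex.abs_re_le_norm _).trans (hM x)
    have him : ∀ x, |(h x).im| ≤ M := fun x => (Complex.abs_im_le_norm _).trans (hM x)
    have mre : Measurable (fun x => (h x).re) := Complex.measurable_re.comp hh
    have mim : Measurable (fun x => (h x).im) := Complex.measurable_im.comp hh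
    have Rre : Measurable (fun x => (R x).re) := Complex.measurable_re.comp hRm
    have Rim : Measurable (fun x => (R x).im) := Complex.measurable_im.comp hRm
    have b1 := bi _ _ _ mre wm₁ Rre hre (hwb₁ n) hC1
    have b2 := bi _ _ _ mre wm₁ Rim hre (hwb₁ n) hC2
    have b3 := bi _ _ _ mim wm₂ Rre him (hwb₂ n) hC1
    have b4 := bi _ _ _ mim wm₂ Rim him (hwb₂ n) hC2
    apply Complex.ext
    · have h1 := reCLM_integral μ _ hi
      rw [h1]
      have e : ∀ x, ((h x - ⟨w₁ n x, w₂ n x⟩) * R x).re =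
          ((h x).re - w₁ n x) * (R x).re - ((h x).im - w₂ n x) * (R x).im := by
        intro x
        simp [Complex.mul_re]
      simp_rw [e]
      rw [integral_sub b1 b4, r1, r4]
      simp
    · have h1 := imCLM_integral μ _ hi
      rw [h1]
      have e : ∀ x, ((h x - ⟨w₁ n x, w₂ n x⟩) * R x).im =
          ((h x).re - w₁ n x) * (R x).im + ((h x).im - w₂ n x) * (R x).re := by
        intro x
        simp [Complex.mul_im]
      simp_rw [e]
      rw [integral_add b2 b3, r2, r3]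
      simp
  · have h1 : (fun x => (⟨u₁ x, u₂ x⟩ : ℂ)) = fun x => (u₁ x : ℂ) + u₂ x * Complex.I := by
      funext x
      apply Complex.ext <;> simp
    rw [h1]
    exact (Complex.measurable_ofReal.comp hum₁).add
      ((Complex.measurable_ofReal.comp hum₂).mul measurable_const)
  · intro x
    have h1 := Complex.norm_le_abs_re_add_abs_im (⟨u₁ x, u₂ x⟩ : ℂ)
    have h2 := hub₁ x
    have h3 := hub₂ x
    simp only at h1
    linarith
  · have e : ∀ x, ‖(⟨w₁ n x, w₂ n x⟩ : ℂ) - ⟨u₁ x, u₂ x⟩‖ ^ 2 =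
        (w₁ n x - u₁ x) ^ 2 + (w₂ n x - u₂ x) ^ 2 := by
      intro x
      rw [Complex.sq_norm, Complex.normSq_apply]
      simp only [Complex.sub_re, Complex.sub_im]
      ring
    simp_rw [e]
    have bi : ∀ (f g : X → ℝ), Measurable f → Measurable g → (∀ x, |f x| ≤ M) →
        (∀ x, |g x| ≤ M) → Integrable (fun x => (f x - g x) ^ 2) μ := by
      intro f g hf hg hfb hgb
      refine Integrable.of_bound ((hf.sub hg).pow_const 2).aestronglyMeasurable ((M + M) ^ 2)
        (Eventually.of_forall fun x => ?_)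
      rw [Real.norm_eq_abs, abs_pow]
      apply pow_le_pow_left₀ (abs_nonneg _)
      exact (abs_sub _ _).trans (add_le_add (hfb x) (hgb x))
    rw [integral_add (bi _ _ wm₁ um₁ (hwb₁ n) hub₁) (bi _ _ wm₂ um₂ (hwb₂ n) hub₂)]
    linarith

end Pool.Agent.VINO
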