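import Pool.Agent.VINO.KBas
import Pool.Agent.VINO.KRev

/-!
# VINO / KDen: density of the sums of functions of type `P` and of type `K`

PROOF.  Case 1 (`𝒜` is everything modulo null sets): `f` is almost everywhere equal to a bounded `𝒜`-measurable function `h` (from the
statement for sets: `f` is measurable for the completion-like `σ`-algebra; e.g. approximate `f` in `L²` by a simple
function, replace its sets by sets of `𝒜`; this gives an `𝒜`-measurable bounded `h` with `∫ ‖f - h‖^2 ≤ ε/4`, which suffices).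
`rev_mart` for `h` and `𝒜_n = 𝒜.comap T^[n]` (`⨅ 𝒜_n = tailA T 𝒜`) with `ε/4`: `u` is `TypP`, `v = h - w` is `TypK` with `k = 0`, `p = n`, and
`∫ ‖f - (u + v)‖^2 ≤ 2 (∫ ‖f - h‖^2 + ∫ ‖w - u‖^2) ≤ ε`.
Case 2 (`S = T⁻¹`): the `σ`-algebras `ℬ_k = 𝒜.comap S^[k]` are increasing (`𝒜 = (𝒜.comap T).comap S ≤ 𝒜.comap S`); by the density of
the simple functions and the approximation of sets of `⨆ ℬ_k` by sets of the algebra `⋃ ℬ_k`
(`MeasureTheory.exists_measurableSet_..`, or Lévy's upward theorem `tendsto_eLpNorm_condExp`/`tendsto_ae_condExp` for the filtration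
`ℬ`) there are `k` and a bounded `𝒜`-measurable `h` with `∫ ‖f - h ∘ S^[k]‖^2 ≤ ε/4` (a bounded `ℬ_k`-measurable function is `h ∘ S^[k]`
with `h` bounded `𝒜`-measurable). Decompose `h` as in case 1 (`h = u + v + (w - u)`), `u' = u ∘ S^[k]`, `v' = v ∘ S^[k]`; `T^[k]`, `S^[k]` are
inverse and `S^[k]` preserves `μ`. `v' ∘ T^[k] = v`, so `v'` is `TypK` with `k`, `p = n`. `u'` is `TypP`: `u` is measurable for
`𝒜.comap T^[n+k]` for each `n`, so `u ∘ S^[k]` is measurable for `𝒜.comap (T^[n+k] ∘ S^[k]) = 𝒜.comap T^[n]`.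
-/

set_option autoImplicit false

namespace Pool.Agent.VINO

open MeasureTheory Filter Topology

/-- Approximation of the sets of `⨆ ℬ_n`. -/
private theorem kd_set {X : Type*} [m : MeasurableSpace X] (μ : Measure X)
    [IsProbabilityMeasure μ] (ℬ : ℕ → MeasurableSpace X) (hm : ∀ n, ℬ n ≤ m) (hmono : Monotone ℬ)
    (s : Set X) (hs : MeasurableSet[⨆ n, ℬ n] s) (δ : ℝ) (hδ : 0 < δ) :
    ∃ (k : ℕ) (t : Set X), MeasurableSet[ℬ k] t ∧ μ (symmDiff s t) < ENNReal.ofReal δ := by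
  have hle : (⨆ n, ℬ n) ≤ m := iSup_le hm
  have halg : IsSetAlgebra {t : Set X | ∃ k, MeasurableSet[ℬ k] t} := by
    refine ⟨⟨0, @MeasurableSet.empty _ (ℬ 0)⟩, ?_, ?_⟩
    · rintro t ⟨k, hk⟩
      exact ⟨k, hk.compl⟩
    · rintro t t' ⟨k, hk⟩ ⟨l, hl⟩
      exact ⟨max k l, MeasurableSet.union (hmono (le_max_left k l) _ hk)
        (hmono (le_max_right k l) _ hl)⟩
  have hgen : (⨆ n, ℬ n) =
      MeasurableSpace.generateFrom {t : Set X | ∃ k, MeasurableSet[ℬ k] t} := by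
    rw [← MeasurableSpace.generateFrom_iUnion_measurableSet]
    congr 1
    ext t
    rw [Set.mem_iUnion]
    rfl
  have hfin : IsFiniteMeasure (μ.trim hle) := isFiniteMeasure_trim hle
  obtain ⟨t, ⟨k, hk⟩, ht⟩ := @Measure.MeasureDense.approx X (⨆ n, ℬ n) (μ.trim hle) _
    (@Measure.MeasureDense.of_generateFrom_isSetAlgebra_finite X
    (⨆ n, ℬ n) (μ.trim hle) _ hfin halg hgen) s hs
    (@measure_ne_top X (⨆ n, ℬ n) (μ.trim hle) hfin s) δ hδ
  exact ⟨k, t, hk, (le_trim hle).trans_lt ht⟩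

/-- Approximation of the functions. -/
private theorem kd_dense {X : Type*} [m : MeasurableSpace X] (μ : Measure X)
    [IsProbabilityMeasure μ] (ℬ : ℕ → MeasurableSpace X) (hm : ∀ n, ℬ n ≤ m) (hmono : Monotone ℬ)
    (hgen : ∀ B : Set X, MeasurableSet B → ∃ B', MeasurableSet[⨆ n, ℬ n] B' ∧ B' =ᵐ[μ] B)
    (f : X → ℂ) (hf : Bdd f) (δ : ℝ) (hδ : 0 < δ) :
    ∃ (k : ℕ) (g : X → ℂ), Measurable[ℬ k] g ∧ (∃ M : ℝ, ∀ x, ‖g x‖ ≤ M) ∧
      ∫ x, ‖f x - g x‖ ^ 2 ∂μ ≤ δ := by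
  obtain ⟨M, hM⟩ := hf.2
  have hfL : MemLp f 2 μ :=
    MemLp.of_bound hf.1.aestronglyMeasurable M (Filter.Eventually.of_forall hM)
  have hsδ : 0 < Real.sqrt δ := Real.sqrt_pos.2 hδ
  obtain ⟨g, hg, k, hgk, M', hM'⟩ := hfL.induction_dense (by norm_num)
    (fun g => ∃ k, Measurable[ℬ k] g ∧ ∃ M : ℝ, ∀ x, ‖g x‖ ≤ M)
    (by
      intro c s hs _ ε hε
      obtain ⟨η, hη, hη'⟩ := exists_eLpNorm_indicator_le (μ := μ) (p := 2) (by norm_num) c hε
      obtain ⟨B', hB', hBs⟩ := hgen s hs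
      obtain ⟨k, t, htk, ht⟩ := kd_set μ ℬ hm hmono B' hB' η (by exact_mod_cast hη)
      refine ⟨t.indicator fun _ => c, ?_, k, ?_, ‖c‖, ?_⟩
      · have e1 : (t.indicator (fun _ => c) - s.indicator fun _ => c) =ᵐ[μ]
            (t.indicator (fun _ => c) - B'.indicator fun _ => c) := by
          have e2 : (B'.indicator fun _ => c) =ᵐ[μ] (s.indicator fun _ => c) :=
            indicator_ae_eq_of_ae_eq_set hBs
          filter_upwards [e2] with x hx
          rw [Pi.sub_apply, Pi.sub_apply, hx]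
        rw [eLpNorm_congr_ae e1]
        refine le_trans (eLpNorm_mono (g := (symmDiff B' t).indicator fun _ => c) ?_)
          (hη' _ ?_)
        · intro x
          rw [Pi.sub_apply]
          by_cases h1 : x ∈ t <;> by_cases h2 : x ∈ B'
          · simp [h1, h2]
          · have h3 : x ∈ symmDiff B' t := Or.inr ⟨h1, h2⟩
            simp [h1, h2, h3]
          · have h3 : x ∈ symmDiff B' t := Or.inl ⟨h2, h1⟩
            simp [h1, h2, h3]
          · simp [h1, h2]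
        · refine ht.le.trans ?_
          rw [ENNReal.ofReal_coe_nnreal]
      · exact Measurable.indicator measurable_const htk
      · intro x
        exact norm_indicator_le_norm_self (fun _ => c) x)
    (by
      rintro g g' ⟨k, hk, M, hM⟩ ⟨l, hl, M', hM'⟩
      refine ⟨max k l, (hk.mono (hmono (le_max_left k l)) le_rfl).add
        (hl.mono (hmono (le_max_right k l)) le_rfl), M + M', fun x => ?_⟩
      exact (norm_add_le _ _).trans (add_le_add (hM x) (hM' x)))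
    (by
      rintro g ⟨k, hk, -⟩
      exact (hk.mono (hm k) le_rfl).aestronglyMeasurable)
    (ε := ENNReal.ofReal (Real.sqrt δ)) (by
      rw [Ne, ENNReal.ofReal_eq_zero, not_le]
      exact hsδ)
  refine ⟨k, g, hgk, ⟨M', hM'⟩, ?_⟩
  have hgm : Measurable g := hgk.mono (hm k) le_rfl
  have hfg : MemLp (f - g) 2 μ :=
    MemLp.of_bound (hf.1.sub hgm).aestronglyMeasurable (M + M')
      (Filter.Eventually.of_forall fun x => (norm_sub_le _ _).trans (add_le_add (hM x) (hM' x)))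
  rw [hfg.eLpNorm_eq_integral_rpow_norm two_ne_zero (by norm_num), ENNReal.toReal_ofNat,
    ENNReal.ofReal_le_ofReal_iff (Real.sqrt_nonneg δ)] at hg
  have e1 : ∀ x, ‖(f - g) x‖ ^ (2 : ℝ) = ‖f x - g x‖ ^ 2 := by
    intro x
    rw [Real.rpow_two, Pi.sub_apply]
  simp only [e1] at hg
  have e2 : (∫ x, ‖f x - g x‖ ^ 2 ∂μ) ^ ((2 : ℝ)⁻¹) = Real.sqrt (∫ x, ‖f x - g x‖ ^ 2 ∂μ) := by
    rw [Real.sqrt_eq_rpow, one_div]
  rw [e2, Real.sqrt_le_sqrt_iff hδ.le] at hg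
  exact hg

private theorem kd_int {X : Type*} [m : MeasurableSpace X] (μ : Measure X)
    [IsProbabilityMeasure μ] {F : X → ℂ} (hF : Bdd F) : Integrable (fun x => ‖F x‖ ^ 2) μ := by
  obtain ⟨M, hM⟩ := hF.2
  refine Integrable.of_bound (hF.1.norm.pow_const 2).aestronglyMeasurable (M ^ 2)
    (Filter.Eventually.of_forall fun x => ?_)
  rw [Real.norm_of_nonneg (by positivity)]
  exact pow_le_pow_left₀ (norm_nonneg _) (hM x) 2

private theorem kd_sub {X : Type*} [m : MeasurableSpace X] {F G : X → ℂ} (hF : Bdd F)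
    (hG : Bdd G) : Bdd fun x => F x - G x := by
  obtain ⟨M, hM⟩ := hF.2
  obtain ⟨M', hM'⟩ := hG.2
  exact ⟨hF.1.sub hG.1, M + M', fun x => (norm_sub_le _ _).trans (add_le_add (hM x) (hM' x))⟩

private theorem kd_add {X : Type*} [m : MeasurableSpace X] {F G : X → ℂ} (hF : Bdd F)
    (hG : Bdd G) : Bdd fun x => F x + G x := by
  obtain ⟨M, hM⟩ := hF.2
  obtain ⟨M', hM'⟩ := hG.2
  exact ⟨hF.1.add hG.1, M + M', fun x => (norm_add_le _ _).trans (add_le_add (hM x) (hM' x))⟩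

/-- The decomposition for `𝒜`-measurable functions, transported by `Sk`. -/
private theorem kd_core {X : Type*} {𝒜 : MeasurableSpace X} [m : MeasurableSpace X]
    {μ : Measure X} [IsProbabilityMeasure μ] {T : X → X}
    (h𝒜 : 𝒜 ≤ m) (hA : 𝒜.comap T ≤ 𝒜) (k : ℕ) (Sk : X → X) (hSk : MeasurePreserving Sk μ μ)
    (hST : ∀ x, Sk (T^[k] x) = x) (hTS : ∀ x, T^[k] (Sk x) = x) (f h : X → ℂ) (hf : Bdd f)
    (hh : Measurable[𝒜] h) (hhb : ∃ M : ℝ, ∀ x, ‖h x‖ ≤ M) (ε : ℝ) (hε : 0 < ε)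
    (hfh : ∫ x, ‖f x - h (Sk x)‖ ^ 2 ∂μ ≤ ε / 4) :
    ∃ u v : X → ℂ, TypP T 𝒜 u ∧ (∃ k p, TypK T 𝒜 μ k p v) ∧
      ∫ x, ‖f x - (u x + v x)‖ ^ 2 ∂μ ≤ ε := by
  have h0 : 𝒜.comap T^[0] = 𝒜 := by
    rw [Function.iterate_zero]
    exact MeasurableSpace.comap_id
  have hle : ∀ n, 𝒜.comap T^[n] ≤ 𝒜 := by
    intro n
    calc 𝒜.comap T^[n] ≤ 𝒜.comap T^[0] := comap_anti hA (Nat.zero_le n)
      _ = 𝒜 := h0
  obtain ⟨n, w, u, hw, hwb, horth, hu, hub, hwu⟩ := rev_mart (fun n => 𝒜.comap T^[n]) μ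
    (fun n => (hle n).trans h𝒜) (fun a b hab => comap_anti hA hab) h (hh.mono h𝒜 le_rfl) hhb
    (ε / 4) (by linarith)
  have hw𝒜 : Measurable[𝒜] w := hw.mono (hle n) le_rfl
  have htail : tailA T 𝒜 ≤ 𝒜 := (iInf_le (fun n => 𝒜.comap T^[n]) 0).trans (hle 0)
  have hum : Measurable u := hu.mono (htail.trans h𝒜) le_rfl
  have hwm : Measurable w := hw𝒜.mono h𝒜 le_rfl
  have hhm : Measurable h := hh.mono h𝒜 le_rfl
  obtain ⟨Mw, hMw⟩ := hwb
  obtain ⟨Mu, hMu⟩ := hub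
  obtain ⟨Mh, hMh⟩ := hhb
  have hSm : Measurable Sk := hSk.measurable
  have hvM : ∀ x, ‖h x - w x‖ ≤ Mh + Mw := fun x =>
    (norm_sub_le _ _).trans (add_le_add (hMh x) (hMw x))
  refine ⟨fun x => u (Sk x), fun x => h (Sk x) - w (Sk x), ⟨⟨hum.comp hSm, Mu, fun x => hMu _⟩,
    ?_⟩, ⟨k, n, ⟨(hhm.comp hSm).sub (hwm.comp hSm), Mh + Mw, fun x => hvM _⟩, ?_, ?_⟩, ?_⟩
  · -- the tail
    intro B hB
    rw [tailA, MeasurableSpace.measurableSet_iInf]
    intro j
    have e1 : Measurable[𝒜.comap T^[j + k]] u := hu.mono (iInf_le (fun n => 𝒜.comap T^[n]) _) le_rfl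
    have e2 : Measurable[(𝒜.comap T^[j + k]).comap Sk] fun x => u (Sk x) :=
      e1.comp (comap_measurable Sk)
    have e3 : (𝒜.comap T^[j + k]).comap Sk = 𝒜.comap T^[j] := by
      rw [MeasurableSpace.comap_comp]
      congr 1
      funext x
      rw [Function.comp_apply, Function.iterate_add_apply, hTS]
    rw [e3] at e2
    exact e2 hB
  · have e1 : (fun x => h (Sk (T^[k] x)) - w (Sk (T^[k] x))) = fun x => h x - w x := by
      funext x
      rw [hST]
    rw [e1]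
    exact hh.sub hw𝒜
  · intro R hR hRb
    have e1 : (fun x => (h (Sk (T^[k] x)) - w (Sk (T^[k] x))) * R x) =
        fun x => (h x - w x) * R x := by
      funext x
      rw [hST]
    rw [e1]
    exact horth R hR hRb
  · -- the estimate
    have hB1 : Bdd fun x => f x - h (Sk x) :=
      kd_sub hf ⟨hhm.comp hSm, Mh, fun x => hMh _⟩
    have hB2 : Bdd fun x => w (Sk x) - u (Sk x) :=
      kd_sub ⟨hwm.comp hSm, Mw, fun x => hMw _⟩ ⟨hum.comp hSm, Mu, fun x => hMu _⟩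
    have hB3 : Bdd fun x => f x - (u (Sk x) + (h (Sk x) - w (Sk x))) :=
      kd_sub hf (kd_add ⟨hum.comp hSm, Mu, fun x => hMu _⟩
        (kd_sub ⟨hhm.comp hSm, Mh, fun x => hMh _⟩ ⟨hwm.comp hSm, Mw, fun x => hMw _⟩))
    have e1 : ∫ x, ‖w (Sk x) - u (Sk x)‖ ^ 2 ∂μ = ∫ x, ‖w x - u x‖ ^ 2 ∂μ := by
      have e2 := integral_map (μ := μ) (φ := Sk) hSm.aemeasurable
        (f := fun x => ‖w x - u x‖ ^ 2) ((hwm.sub hum).norm.pow_const 2).aestronglyMeasurable
      rw [hSk.map_eq] at e2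
      exact e2.symm
    calc ∫ x, ‖f x - (u (Sk x) + (h (Sk x) - w (Sk x)))‖ ^ 2 ∂μ ≤
          ∫ x, (2 * ‖f x - h (Sk x)‖ ^ 2 + 2 * ‖w (Sk x) - u (Sk x)‖ ^ 2) ∂μ := by
          refine integral_mono (kd_int μ hB3)
            (((kd_int μ hB1).const_mul 2).add ((kd_int μ hB2).const_mul 2)) fun x => ?_
          have e3 : f x - (u (Sk x) + (h (Sk x) - w (Sk x))) =
              (f x - h (Sk x)) + (w (Sk x) - u (Sk x)) := by ring
          show ‖f x - (u (Sk x) + (h (Sk x) - w (Sk x)))‖ ^ 2 ≤ _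
          rw [e3]
          have e4 := norm_add_le (f x - h (Sk x)) (w (Sk x) - u (Sk x))
          have e5 : ‖(f x - h (Sk x)) + (w (Sk x) - u (Sk x))‖ ^ 2 ≤
              (‖f x - h (Sk x)‖ + ‖w (Sk x) - u (Sk x)‖) ^ 2 :=
            pow_le_pow_left₀ (norm_nonneg _) e4 2
          have e6 := sq_nonneg (‖f x - h (Sk x)‖ - ‖w (Sk x) - u (Sk x)‖)
          show ‖(f x - h (Sk x)) + (w (Sk x) - u (Sk x))‖ ^ 2 ≤
            2 * ‖f x - h (Sk x)‖ ^ 2 + 2 * ‖w (Sk x) - u (Sk x)‖ ^ 2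
          linarith
      _ = 2 * ∫ x, ‖f x - h (Sk x)‖ ^ 2 ∂μ + 2 * ∫ x, ‖w (Sk x) - u (Sk x)‖ ^ 2 ∂μ := by
          rw [integral_add ((kd_int μ hB1).const_mul 2) ((kd_int μ hB2).const_mul 2),
            integral_const_mul, integral_const_mul]
      _ ≤ ε := by
          rw [e1]
          linarith

theorem kden {X : Type*} {𝒜 : MeasurableSpace X} [m : MeasurableSpace X] {μ : Measure X}
    [IsProbabilityMeasure μ] {T : X → X} (hT : MeasurePreserving T μ μ) (h𝒜 : 𝒜 ≤ m)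
    (hA : 𝒜.comap T ≤ 𝒜) (hgen : GenA T 𝒜 μ) (f : X → ℂ) (hf : Bdd f) (ε : ℝ) (hε : 0 < ε) :
    ∃ u v : X → ℂ, TypP T 𝒜 u ∧ (∃ k p, TypK T 𝒜 μ k p v) ∧
      ∫ x, ‖f x - (u x + v x)‖ ^ 2 ∂μ ≤ ε := by
  obtain ⟨M, hM⟩ := hf.2
  rcases hgen with hgen | ⟨S, hS, hSTx, hTSx, hgen⟩
  · -- `𝒜` is everything
    obtain ⟨-, h, hh, hhb, hfh⟩ := kd_dense μ (fun _ => 𝒜) (fun _ => h𝒜) (fun _ _ _ => le_rfl)
      (fun B hB => by
        obtain ⟨B', h1, h2⟩ := hgen B hB
        exact ⟨B', le_iSup (fun _ : ℕ => 𝒜) 0 _ h1, h2⟩) f hf (ε / 4) (by linarith)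
    exact kd_core h𝒜 hA 0 id (MeasurePreserving.id μ) (fun x => rfl) (fun x => rfl) f h hf hh
      hhb ε hε hfh
  · -- `T` is invertible
    have hSmp : MeasurePreserving S μ μ := by
      refine ⟨hS, ?_⟩
      have e1 : S ∘ T = id := funext hSTx
      calc μ.map S = (μ.map T).map S := by rw [hT.map_eq]
        _ = μ.map (S ∘ T) := Measure.map_map hS hT.measurable
        _ = μ := by rw [e1, Measure.map_id]
    have hST : ∀ k x, S^[k] (T^[k] x) = x := fun k x =>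
      (Function.LeftInverse.iterate (g := S) (f := T) hSTx k) x
    have hTS : ∀ k x, T^[k] (S^[k] x) = x := fun k x =>
      (Function.LeftInverse.iterate (g := T) (f := S) hTSx k) x
    have hstep : 𝒜 ≤ 𝒜.comap S := by
      have e1 : (𝒜.comap T).comap S = 𝒜 := by
        rw [MeasurableSpace.comap_comp]
        have e2 : T ∘ S = id := funext hTSx
        rw [e2, MeasurableSpace.comap_id]
      calc 𝒜 = (𝒜.comap T).comap S := e1.symm
        _ ≤ 𝒜.comap S := MeasurableSpace.comap_mono hA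
    have hmono : Monotone fun k : ℕ => 𝒜.comap S^[k] := by
      refine monotone_nat_of_le_succ fun k => ?_
      have e1 : 𝒜.comap S^[k + 1] = (𝒜.comap S).comap S^[k] := by
        rw [MeasurableSpace.comap_comp, Function.iterate_succ']
      show 𝒜.comap S^[k] ≤ 𝒜.comap S^[k + 1]
      rw [e1]
      exact MeasurableSpace.comap_mono hstep
    have hmk : ∀ k : ℕ, 𝒜.comap S^[k] ≤ m := by
      intro k
      have e1 : Measurable[m, 𝒜] S^[k] := (hS.iterate k).mono le_rfl h𝒜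
      exact e1.comap_le
    obtain ⟨k, g, hg, hgb, hfg⟩ := kd_dense μ (fun k : ℕ => 𝒜.comap S^[k]) hmk hmono hgen f hf
      (ε / 4) (by linarith)
    obtain ⟨Mg, hMg⟩ := hgb
    have hgT : Measurable[𝒜] fun x => g (T^[k] x) := by
      have e2 : Measurable[(𝒜.comap S^[k]).comap T^[k]] fun x => g (T^[k] x) :=
        hg.comp (comap_measurable T^[k])
      have e3 : (𝒜.comap S^[k]).comap T^[k] = 𝒜 := by
        rw [MeasurableSpace.comap_comp]
        have e4 : S^[k] ∘ T^[k] = id := funext (hST k)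
        rw [e4, MeasurableSpace.comap_id]
      rwa [e3] at e2
    refine kd_core h𝒜 hA k S^[k] (hSmp.iterate k) (hST k) (hTS k) f (fun x => g (T^[k] x)) hf
      hgT ⟨Mg, fun x => hMg _⟩ ε hε ?_
    have e5 : (fun x => ‖f x - g (T^[k] (S^[k] x))‖ ^ 2) = fun x => ‖f x - g x‖ ^ 2 := by
      funext x
      rw [hTS]
    rw [e5]
    exact hfg

end Pool.Agent.VINO
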