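import Pool.Agent.VMV.BilA

/-!
# VINO / Chr: continuous characters of `ℝ` and of `ℤ`

PROOFS.  `char_real`: `F t = (φ t : ℂ)` is continuous, `F (s + t) = F s F t`, `F 0 = 1`. Choose `δ > 0` with
`I = ∫_0^δ F ≠ 0` (`F` near `1`); `F t * I = ∫_t^{t+δ} F`, so `F` is differentiable, `F' = z F` with
`z = F' 0`, so `F t = exp (z t)` (uniqueness: the derivative of `F t exp (-z t)` vanishes), `|F| = 1` gives
`Re z = 0`; `θ = Im z / (2π)`. (Or use a Mathlib result on the continuous characters of `ℝ`.)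
`char_circle`: every point of the circle is `e β` (`Complex.exp` of its argument).
`e_eq_one`: `e t = 1 ↔ t` is an integer (`Complex.exp_eq_one_iff`).
-/

set_option autoImplicit false

namespace Pool.Agent.VINO

open Pool.Agent.VMV

private lemma char_deriv (F : ℝ → ℂ) (hF : Continuous F) (hadd : ∀ s t, F (s + t) = F s * F t)
    (h0 : F 0 = 1) : ∃ z : ℂ, ∀ t, HasDerivAt F (z * F t) t := by
  have h1 : ∀ᶠ t in nhds (0 : ℝ), ‖F t - 1‖ < 1 / 2 := by
    have h2 : Filter.Tendsto (fun t => ‖F t - 1‖) (nhds 0) (nhds 0) := by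
      have h3 : Continuous fun t => ‖F t - 1‖ := by fun_prop
      have h4 := h3.tendsto 0
      simpa [h0] using h4
    exact h2.eventually (gt_mem_nhds (by norm_num))
  obtain ⟨ε, hε, hε'⟩ := Metric.eventually_nhds_iff.1 h1
  set δ : ℝ := ε / 2 with hδ
  have hδ0 : 0 < δ := by positivity
  have hii : ∀ a b : ℝ, IntervalIntegrable F MeasureTheory.volume a b := fun a b =>
    hF.intervalIntegrable a b
  set I : ℂ := ∫ s in (0 : ℝ)..δ, F s with hI
  have hI0 : I ≠ 0 := by
    intro hI0
    have h2 : ‖∫ s in (0 : ℝ)..δ, (F s - 1)‖ ≤ 1 / 2 * |δ - 0| := by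
      refine intervalIntegral.norm_integral_le_of_norm_le_const fun s hs => ?_
      rw [Set.uIoc_of_le hδ0.le] at hs
      refine (hε' ?_).le
      rw [Real.dist_eq, sub_zero, abs_of_pos hs.1]
      have := hs.2
      linarith
    have h3 : ∫ s in (0 : ℝ)..δ, (F s - 1) = I - δ := by
      rw [intervalIntegral.integral_sub (hii 0 δ) (by simp), ← hI]
      simp
    rw [h3, hI0, zero_sub, norm_neg, Complex.norm_real, Real.norm_eq_abs, sub_zero,
      abs_of_pos hδ0] at h2
    linarith
  set G : ℝ → ℂ := fun t => ∫ s in (0 : ℝ)..t, F s with hG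
  have hGd : ∀ t, HasDerivAt G (F t) t := fun t =>
    (hF.integral_hasStrictDerivAt 0 t).hasDerivAt
  have hGI : ∀ t, F t * I = G (t + δ) - G t := by
    intro t
    have h2 : F t * I = ∫ s in (0 : ℝ)..δ, F (t + s) := by
      rw [hI, ← intervalIntegral.integral_const_mul]
      refine intervalIntegral.integral_congr fun s _ => ?_
      exact (hadd t s).symm
    rw [h2, intervalIntegral.integral_comp_add_left (fun x => F x) t, add_zero]
    exact (intervalIntegral.integral_interval_sub_left (hii 0 _) (hii 0 _)).symm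
  have hFG : F = fun t => (G (t + δ) - G t) / I := by
    funext t
    rw [← hGI t, mul_div_cancel_right₀ _ hI0]
  refine ⟨(F δ - 1) / I, fun t => ?_⟩
  have h2 : HasDerivAt (fun t => (G (t + δ) - G t) / I) ((F (t + δ) - F t) / I) t :=
    ((HasDerivAt.comp_add_const t δ (hGd (t + δ))).sub (hGd t)).div_const I
  rw [← hFG] at h2
  have h3 : (F (t + δ) - F t) / I = (F δ - 1) / I * F t := by
    rw [hadd t δ]
    ring
  rwa [h3] at h2

theorem char_real (φ : ℝ → Circle) (hφ : Continuous φ) (hadd : ∀ s t, φ (s + t) = φ s * φ t) :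
    ∃ θ : ℝ, ∀ t, ((φ t : Circle) : ℂ) = e (θ * t) := by
  set F : ℝ → ℂ := fun t => ((φ t : Circle) : ℂ) with hF
  have hFc : Continuous F := continuous_subtype_val.comp hφ
  have hFa : ∀ s t, F (s + t) = F s * F t := by
    intro s t
    change ((φ (s + t) : Circle) : ℂ) = ((φ s : Circle) : ℂ) * ((φ t : Circle) : ℂ)
    rw [hadd s t, Circle.coe_mul]
  have hn : ∀ t, ‖F t‖ = 1 := fun t => Circle.norm_coe _
  have h0 : F 0 = 1 := by
    have h1 := hFa 0 0
    rw [add_zero] at h1
    have h2 : F 0 ≠ 0 := by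
      rw [← norm_pos_iff, hn 0]
      norm_num
    have h3 : F 0 * (F 0 - 1) = 0 := by
      rw [mul_sub, mul_one, ← h1, sub_self]
    exact sub_eq_zero.1 ((mul_eq_zero.1 h3).resolve_left h2)
  obtain ⟨z, hz⟩ := char_deriv F hFc hFa h0
  have hexp : ∀ t, F t = Complex.exp (z * t) := by
    have h1 : ∀ t, HasDerivAt (fun t : ℝ => F t * Complex.exp (-(z * t))) 0 t := by
      intro t
      have h2 : HasDerivAt (fun t : ℝ => Complex.exp (-(z * t)))
          (Complex.exp (-(z * t)) * -(z * 1)) t :=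
        ((((hasDerivAt_id t).ofReal_comp).const_mul z).neg).cexp
      have h3 : HasDerivAt (fun t : ℝ => F t * Complex.exp (-(z * t)))
          (z * F t * Complex.exp (-(z * t)) + F t * (Complex.exp (-(z * t)) * -(z * 1))) t :=
        (hz t).mul h2
      have h4 : z * F t * Complex.exp (-(z * t)) +
          F t * (Complex.exp (-(z * t)) * -(z * 1)) = 0 := by ring
      rw [h4] at h3
      exact h3
    intro t
    have h2 : (fun t : ℝ => F t * Complex.exp (-(z * t))) t =
        (fun t : ℝ => F t * Complex.exp (-(z * t))) 0 :=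
      is_const_of_deriv_eq_zero (fun t => (h1 t).differentiableAt) (fun t => (h1 t).deriv) t 0
    beta_reduce at h2
    rw [h0, Complex.ofReal_zero, mul_zero, neg_zero, Complex.exp_zero, one_mul] at h2
    have h3 : F t * Complex.exp (-(z * t)) * Complex.exp (z * t) = Complex.exp (z * t) := by
      rw [h2, one_mul]
    rwa [mul_assoc, ← Complex.exp_add, neg_add_cancel, Complex.exp_zero, mul_one] at h3
  have hre : z.re = 0 := by
    have h1 := hn 1
    rw [hexp 1, Complex.ofReal_one, mul_one, Complex.norm_exp] at h1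
    exact Real.exp_eq_one_iff _ |>.1 h1
  refine ⟨z.im / (2 * Real.pi), fun t => ?_⟩
  change F t = _
  rw [hexp t]
  unfold e
  congr 1
  have h1 : z = (z.im : ℂ) * Complex.I := by
    apply Complex.ext
    · simp [hre]
    · simp
  have h2 : (Real.pi : ℂ) ≠ 0 := by
    exact_mod_cast Real.pi_ne_zero
  conv_lhs => rw [h1]
  push_cast
  field_simp

theorem char_circle (z : Circle) : ∃ β : ℝ, (z : ℂ) = e β := by
  refine ⟨Complex.arg z / (2 * Real.pi), ?_⟩
  have h2 : (Real.pi : ℂ) ≠ 0 := by
    exact_mod_cast Real.pi_ne_zero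
  have h1 : (z : ℂ) = Complex.exp (Complex.arg z * Complex.I) := by
    have h3 := Complex.norm_mul_exp_arg_mul_I (z : ℂ)
    rw [Circle.norm_coe, Complex.ofReal_one, one_mul] at h3
    exact h3.symm
  conv_lhs => rw [h1]
  unfold e
  congr 1
  push_cast
  field_simp

theorem e_eq_one (t : ℝ) : e t = 1 ↔ ∃ k : ℤ, t = k := by
  unfold e
  rw [Complex.exp_eq_one_iff]
  have h2 : (Real.pi : ℂ) ≠ 0 := by
    exact_mod_cast Real.pi_ne_zero
  constructor
  · rintro ⟨n, hn⟩
    refine ⟨n, ?_⟩
    have h3 : (2 * Real.pi * Complex.I : ℂ) * t = (2 * Real.pi * Complex.I : ℂ) * n := by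
      rw [hn]
      ring
    have h4 : (2 * Real.pi * Complex.I : ℂ) ≠ 0 :=
      mul_ne_zero (mul_ne_zero two_ne_zero h2) Complex.I_ne_zero
    have h5 := mul_left_cancel₀ h4 h3
    exact_mod_cast h5
  · rintro ⟨n, hn⟩
    refine ⟨n, ?_⟩
    rw [hn]
    push_cast
    ring

theorem e_pow (t : ℝ) (m : ℕ) : e t ^ m = e (t * m) := by
  unfold e
  rw [← Complex.exp_nat_mul]
  congr 1
  push_cast
  ring

end Pool.Agent.VINO
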