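import Pool.Agent.VINO.Avg

/-!
# VINO / Floor: the averages of `e (∑ θ_j ⌊G(n + j)⌋)` tend to zero

PROOF.  Write `G_j = G c (n + j) ≥ 0`, `⌊G_j⌋ = G_j - fract G_j`, `ψ_j t = e (-θ_j * fract t)`, so
`e (∑ θ_j ⌊G_j⌋) = e (∑ θ_j G_j) ∏_j ψ_j (G_j)`.
(1) For integers `m_j`: `av (e (∑ (θ_j + m_j) G_j)) → 0` by `avg_H` (`θ + m ≠ 0` because `θ` is not integral).
Hence for trigonometric polynomials `P_j` (finite linear combinations of the `e (m t)`, `m ∈ ℤ`):
`av (e (∑ θ_j G_j) ∏ P_j (G_j)) → 0` (expand the product), and the same for continuous `1`-periodic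
`φ_j` by uniform approximation (`span_fourier_closure_eq_top` for `AddCircle (1:ℝ)`; telescoping
`‖∏ a_j - ∏ b_j‖ ≤ ∑ ‖a_j - b_j‖ * C`).
(2) For a continuous `1`-periodic `b : ℝ → ℝ`: `av (b (G_j)) → ∫_0^1 b` (again by `avg_H` for the single
`β = m e_j`, `m ≠ 0`, and approximation).
(3) Given `δ ∈ (0, 1/4)` let `φ_j` be the continuous `1`-periodic function equal to `ψ_j` on `[δ, 1]`, and
on `[0, δ]` the segment joining `ψ_j (1^-) = e (-θ_j)` to `ψ_j δ`: `|φ_j| ≤ 1`, and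
`|ψ_j - φ_j| ≤ 2 b` where `b` is a continuous `1`-periodic function, `0 ≤ b ≤ 1`, `b = 1` on `[0, δ]`, `∫ b ≤ 3 δ`.
So `limsup |av (e (∑ θ_j ⌊G_j⌋))| ≤ ∑_j 2 * 3 δ`. Let `δ → 0`.
(Any other choice is fine, for example `φ_j t = w(t) ψ_j t` with a continuous `w`, `0 ≤ w ≤ 1`, vanishing near `ℤ`,
`w = 1` outside `(-δ, δ) + ℤ`.)
-/

set_option autoImplicit false

namespace Pool.Agent.VINO

open Pool.Agent.VMV Filter Topology

private theorem fl_norm_e (t : ℝ) : ‖e t‖ = 1 := by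
  unfold e
  rw [Complex.norm_exp]
  simp

private theorem fl_e_add (s t : ℝ) : e (s + t) = e s * e t := by
  unfold e
  rw [← Complex.exp_add]
  congr 1
  push_cast
  ring

private theorem fl_e_zero : e 0 = 1 := by
  unfold e
  simp

private theorem fl_e_sum {ι : Type} (s : Finset ι) (f : ι → ℝ) :
    e (∑ i ∈ s, f i) = ∏ i ∈ s, e (f i) := by
  classical
  induction s using Finset.induction_on with
  | empty => simp [fl_e_zero]
  | insert i s hi ih => rw [Finset.sum_insert hi, Finset.prod_insert hi, fl_e_add, ih]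

private theorem fl_e_re (t : ℝ) : (e t).re = Real.cos (2 * Real.pi * t) := by
  unfold e
  rw [Complex.exp_re]
  simp

private theorem fl_av_le (N : ℕ) (u : ℕ → ℂ) {C : ℝ} (hC : 0 ≤ C) (hu : ∀ n, ‖u n‖ ≤ C) :
    ‖av N u‖ ≤ C := by
  unfold av
  rw [norm_mul, norm_inv, Complex.norm_natCast]
  rcases Nat.eq_zero_or_pos N with h | h
  · subst h
    simpa using hC
  · have hN : (0 : ℝ) < N := by exact_mod_cast h
    rw [inv_mul_le_iff₀ hN]
    refine (norm_sum_le _ _).trans ((Finset.sum_le_sum fun n _ => hu n).trans (le_of_eq ?_))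
    rw [Finset.sum_const, Nat.card_Icc, nsmul_eq_mul, add_tsub_cancel_right]

private theorem fl_av_add (N : ℕ) (u v : ℕ → ℂ) :
    av N (fun n => u n + v n) = av N u + av N v := by
  unfold av
  rw [Finset.sum_add_distrib, mul_add]

private theorem fl_av_sub (N : ℕ) (u v : ℕ → ℂ) :
    av N (fun n => u n - v n) = av N u - av N v := by
  unfold av
  rw [Finset.sum_sub_distrib, mul_sub]

private theorem fl_av_smul (N : ℕ) (a : ℂ) (u : ℕ → ℂ) :
    av N (fun n => a * u n) = a * av N u := by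
  unfold av
  rw [← Finset.mul_sum]
  ring

private theorem fl_av_sum {ι : Type} (s : Finset ι) (N : ℕ) (u : ι → ℕ → ℂ) :
    av N (fun n => ∑ i ∈ s, u i n) = ∑ i ∈ s, av N (u i) := by
  unfold av
  rw [Finset.sum_comm, Finset.mul_sum]

private theorem fl_prod {ι : Type} (s : Finset ι) (a b : ι → ℂ) (ha : ∀ i, ‖a i‖ ≤ 1)
    (hb : ∀ i, ‖b i‖ ≤ 1) : ‖∏ i ∈ s, a i - ∏ i ∈ s, b i‖ ≤ ∑ i ∈ s, ‖a i - b i‖ := by
  classical
  induction s using Finset.induction_on with
  | empty => simp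
  | insert i s hi ih =>
    rw [Finset.prod_insert hi, Finset.prod_insert hi, Finset.sum_insert hi]
    have e1 : a i * ∏ i ∈ s, a i - b i * ∏ i ∈ s, b i =
        (a i - b i) * ∏ i ∈ s, a i + b i * (∏ i ∈ s, a i - ∏ i ∈ s, b i) := by ring
    rw [e1]
    refine (norm_add_le _ _).trans ?_
    rw [norm_mul, norm_mul]
    have h1 : ‖∏ i ∈ s, a i‖ ≤ 1 := by
      rw [norm_prod]
      exact Finset.prod_le_one (fun _ _ => norm_nonneg _) fun i _ => ha i
    have h2 : ‖a i - b i‖ * ‖∏ i ∈ s, a i‖ ≤ ‖a i - b i‖ :=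
      mul_le_of_le_one_right (norm_nonneg _) h1
    have h3 : ‖b i‖ * ‖∏ i ∈ s, a i - ∏ i ∈ s, b i‖ ≤ ‖∏ i ∈ s, a i - ∏ i ∈ s, b i‖ :=
      mul_le_of_le_one_left (norm_nonneg _) (hb i)
    linarith

/-- The weight. -/
private noncomputable def wt (δ t : ℝ) : ℝ := min 1 (min t (1 - t) / δ)

/-- The continuous replacement of `t ↦ e (-θ fract t)`. -/
private noncomputable def ph (δ θ : ℝ) (t : ℝ) : ℂ := (wt δ t : ℂ) * e (-θ * t)

private theorem ph_cont (δ θ : ℝ) : Continuous (ph δ θ) := by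
  unfold ph wt e
  fun_prop

private noncomputable def Ph (δ θ : ℝ) : UnitAddCircle → ℂ := AddCircle.liftIco (1 : ℝ) 0 (ph δ θ)

private theorem Ph_cont (δ θ : ℝ) : Continuous (Ph δ θ) := by
  unfold Ph
  refine AddCircle.liftIco_continuous ?_ (ph_cont δ θ).continuousOn
  unfold ph wt
  simp

private theorem Ph_coe (δ θ x : ℝ) : Ph δ θ (x : UnitAddCircle) = ph δ θ (Int.fract x) := by
  have h1 : (x : UnitAddCircle) = ((Int.fract x : ℝ) : UnitAddCircle) := by
    have h2 : x = Int.fract x + (⌊x⌋ : ℝ) := (Int.fract_add_floor x).symm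
    conv_lhs => rw [h2]
    rw [AddCircle.coe_add]
    have h3 : (((⌊x⌋ : ℤ) : ℝ) : UnitAddCircle) = 0 := by
      rw [AddCircle.coe_eq_zero_iff]
      exact ⟨⌊x⌋, by simp⟩
    rw [h3, add_zero]
  rw [h1]
  unfold Ph
  refine AddCircle.liftIco_coe_apply ?_
  rw [zero_add]
  exact ⟨Int.fract_nonneg x, Int.fract_lt_one x⟩

/-- The majorant. -/
private noncomputable def bM (M : ℕ) (t : ℝ) : ℝ :=
  2 / (M : ℝ) ^ 2 * ‖∑ k ∈ Finset.range M, e (k * t)‖ ^ 2

private theorem bM_nonneg (M : ℕ) (t : ℝ) : 0 ≤ bM M t := by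
  unfold bM
  positivity

private theorem bM_one {M : ℕ} (hM : 1 ≤ M) {t : ℝ}
    (h : |t - round t| ≤ 1 / (8 * (M : ℝ))) : 1 ≤ bM M t := by
  have hM0 : (0 : ℝ) < M := by exact_mod_cast hM
  have h1 : ∀ k ∈ Finset.range M, 1 / √2 ≤ (e (k * t)).re := by
    intro k hk
    have hk' : (k : ℝ) ≤ M := by exact_mod_cast (Finset.mem_range.1 hk).le
    rw [fl_e_re]
    have e1 : Real.cos (2 * Real.pi * (k * t)) = Real.cos (2 * Real.pi * (k * (t - round t))) := by
      have e2 : 2 * Real.pi * (k * t) = 2 * Real.pi * (k * (t - round t)) +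
          ((k * round t : ℤ) : ℝ) * (2 * Real.pi) := by
        push_cast
        ring
      rw [e2, Real.cos_add_int_mul_two_pi]
    have e3 : |2 * Real.pi * (k * (t - round t))| ≤ Real.pi / 4 := by
      rw [abs_mul (2 * Real.pi), abs_mul (k : ℝ), abs_of_pos Real.two_pi_pos, Nat.abs_cast]
      have e4 : (k : ℝ) * |t - round t| ≤ M * (1 / (8 * (M : ℝ))) := by gcongr
      have e5 : (M : ℝ) * (1 / (8 * (M : ℝ))) = 1 / 8 := by field_simp
      rw [e5] at e4
      calc 2 * Real.pi * ((k : ℝ) * |t - round t|) ≤ 2 * Real.pi * (1 / 8) := by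
            have := Real.pi_pos
            gcongr
        _ = Real.pi / 4 := by ring
    rw [e1, ← Real.cos_abs]
    have e6 : Real.cos (Real.pi / 4) ≤ Real.cos |2 * Real.pi * (k * (t - round t))| :=
      Real.cos_le_cos_of_nonneg_of_le_pi (abs_nonneg _) (by linarith [Real.pi_pos]) e3
    rw [Real.cos_pi_div_four] at e6
    have e7 : 1 / √2 = √2 / 2 := by
      rw [div_eq_div_iff (by positivity) two_ne_zero, Real.mul_self_sqrt (by norm_num)]
      norm_num
    rw [e7]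
    exact e6
  have h2 : M * (1 / √2) ≤ ‖∑ k ∈ Finset.range M, e (k * t)‖ := by
    refine le_trans ?_ (Complex.re_le_norm _)
    rw [Complex.re_sum]
    refine le_trans (le_of_eq ?_) (Finset.sum_le_sum h1)
    rw [Finset.sum_const, Finset.card_range, nsmul_eq_mul]
  unfold bM
  have h3 : (M * (1 / √2)) ^ 2 ≤ ‖∑ k ∈ Finset.range M, e (k * t)‖ ^ 2 := by gcongr
  have h4 : (M * (1 / √2)) ^ 2 = (M : ℝ) ^ 2 / 2 := by
    rw [mul_pow, div_pow, Real.sq_sqrt (by norm_num)]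
    ring
  rw [h4] at h3
  calc (1 : ℝ) = 2 / (M : ℝ) ^ 2 * ((M : ℝ) ^ 2 / 2) := by field_simp
    _ ≤ _ := by gcongr

private theorem ph_sub {M : ℕ} (hM : 1 ≤ M) (θ x : ℝ) :
    ‖e (-θ * Int.fract x) - ph (1 / (8 * (M : ℝ))) θ (Int.fract x)‖ ≤ bM M x ∧
      ‖ph (1 / (8 * (M : ℝ))) θ (Int.fract x)‖ ≤ 1 := by
  have hM0 : (0 : ℝ) < M := by exact_mod_cast hM
  have hδ : (0 : ℝ) < 1 / (8 * (M : ℝ)) := by positivity
  have hmin : min (Int.fract x) (1 - Int.fract x) = |x - round x| :=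
    (abs_sub_round_eq_min x).symm
  have hw0 : 0 ≤ wt (1 / (8 * (M : ℝ))) (Int.fract x) := by
    unfold wt
    rw [hmin]
    exact le_min zero_le_one (by positivity)
  have hw1 : wt (1 / (8 * (M : ℝ))) (Int.fract x) ≤ 1 := min_le_left _ _
  constructor
  · have e1 : e (-θ * Int.fract x) - ph (1 / (8 * (M : ℝ))) θ (Int.fract x) =
        ((1 - wt (1 / (8 * (M : ℝ))) (Int.fract x) : ℝ) : ℂ) * e (-θ * Int.fract x) := by
      unfold ph
      push_cast
      ring
    rw [e1, norm_mul, fl_norm_e, mul_one, Complex.norm_real, Real.norm_eq_abs,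
      abs_of_nonneg (by linarith)]
    by_cases h : |x - round x| ≤ 1 / (8 * (M : ℝ))
    · have := bM_one hM h
      linarith
    · push Not at h
      have h2 : wt (1 / (8 * (M : ℝ))) (Int.fract x) = 1 := by
        unfold wt
        rw [hmin, min_eq_left]
        rw [le_div_iff₀ hδ]
        linarith
      rw [h2, sub_self]
      exact bM_nonneg M x
  · unfold ph
    rw [norm_mul, fl_norm_e, mul_one, Complex.norm_real, Real.norm_eq_abs, abs_of_nonneg hw0]
    exact hw1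

private theorem bM_av {c : ℝ} (hc0 : 0 < c) (hc1 : c < 1 / 2) {r : ℕ} (j : Fin (r + 1)) {M : ℕ}
    (hM : 1 ≤ M) :
    Tendsto (fun N => av N fun n => (bM M (G c ((n : ℝ) + (j.1 : ℝ))) : ℂ)) atTop
      (𝓝 (2 / (M : ℂ))) := by
  have hM0 : (M : ℂ) ≠ 0 := by
    have : M ≠ 0 := by omega
    exact_mod_cast this
  have e1 : ∀ t : ℝ, (bM M t : ℂ) = ∑ k ∈ Finset.range M, ∑ l ∈ Finset.range M,
      2 / (M : ℂ) ^ 2 * e (((k : ℝ) - l) * t) := by
    intro t
    unfold bM
    push_cast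
    rw [← Complex.conj_mul', map_sum, Finset.sum_mul_sum, Finset.mul_sum, Finset.sum_comm]
    refine Finset.sum_congr rfl fun k _ => ?_
    rw [Finset.mul_sum]
    refine Finset.sum_congr rfl fun l _ => ?_
    congr 1
    unfold e
    rw [← Complex.exp_conj, ← Complex.exp_add]
    congr 1
    simp only [map_mul, Complex.conj_I, Complex.conj_ofReal, map_ofNat]
    push_cast
    ring
  have e2 : ∀ N : ℕ, (av N fun n => (bM M (G c ((n : ℝ) + (j.1 : ℝ))) : ℂ)) =
      ∑ k ∈ Finset.range M, ∑ l ∈ Finset.range M, 2 / (M : ℂ) ^ 2 *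
        av N fun n => e (((k : ℝ) - l) * G c ((n : ℝ) + (j.1 : ℝ))) := by
    intro N
    simp only [e1]
    rw [fl_av_sum]
    refine Finset.sum_congr rfl fun k _ => ?_
    rw [fl_av_sum]
    exact Finset.sum_congr rfl fun l _ => fl_av_smul _ _ _
  simp only [e2]
  have e3 : ∀ k l : ℕ, Tendsto (fun N => 2 / (M : ℂ) ^ 2 *
      av N fun n => e (((k : ℝ) - l) * G c ((n : ℝ) + (j.1 : ℝ)))) atTop
        (𝓝 (2 / (M : ℂ) ^ 2 * if k = l then 1 else 0)) := by
    intro k l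
    apply Tendsto.const_mul
    by_cases hkl : k = l
    · rw [if_pos hkl]
      refine tendsto_const_nhds.congr' ?_
      filter_upwards [eventually_ge_atTop 1] with N hN
      have hN0 : (N : ℂ) ≠ 0 := by
        have : N ≠ 0 := by omega
        exact_mod_cast this
      unfold av
      simp only [hkl, sub_self, zero_mul, fl_e_zero, Finset.sum_const, Nat.card_Icc,
        add_tsub_cancel_right, nsmul_eq_mul, mul_one]
      rw [inv_mul_cancel₀ hN0]
    · rw [if_neg hkl]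
      have h1 : (Pi.single j ((k : ℝ) - l) : Fin (r + 1) → ℝ) ≠ 0 := by
        intro h
        have h2 := congrFun h j
        rw [Pi.single_eq_same, Pi.zero_apply, sub_eq_zero] at h2
        exact hkl (by exact_mod_cast h2)
      have h3 := avg_H hc0 hc1 _ h1
      refine h3.congr fun N => ?_
      unfold av
      congr 1
      refine Finset.sum_congr rfl fun n _ => ?_
      show e (H c (Pi.single j ((k : ℝ) - l)) (n : ℝ)) =
        e (((k : ℝ) - l) * G c ((n : ℝ) + (j.1 : ℝ)))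
      congr 1
      unfold H
      rw [Finset.sum_eq_single j]
      · rw [Pi.single_eq_same]
      · intro i _ hi
        rw [Pi.single_eq_of_ne hi, zero_mul]
      · intro h
        exact absurd (Finset.mem_univ j) h
  have e4 := tendsto_finsetSum (Finset.range M) fun k _ =>
    tendsto_finsetSum (Finset.range M) fun l _ => e3 k l
  have e5 : ∑ k ∈ Finset.range M, ∑ l ∈ Finset.range M,
      (2 / (M : ℂ) ^ 2 * if k = l then 1 else 0) = 2 / (M : ℂ) := by
    have h1 : ∀ k ∈ Finset.range M, ∑ l ∈ Finset.range M,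
        (2 / (M : ℂ) ^ 2 * if k = l then 1 else 0) = 2 / (M : ℂ) ^ 2 := by
      intro k hk
      simp only [mul_ite, mul_one, mul_zero]
      rw [Finset.sum_ite_eq, if_pos hk]
    rw [Finset.sum_congr rfl h1, Finset.sum_const, Finset.card_range, nsmul_eq_mul]
    field_simp
  rw [e5] at e4
  exact e4

private theorem dens {c : ℝ} (hc0 : 0 < c) (hc1 : c < 1 / 2) {r : ℕ} (θ : Fin (r + 1) → ℝ)
    (hθ : ¬ ∀ j, ∃ k : ℤ, θ j = k) (Φ : C(UnitAddTorus (Fin (r + 1)), ℂ)) :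
    Tendsto (fun N => av N fun n => e (∑ j, θ j * G c ((n : ℝ) + (j.1 : ℝ))) *
      Φ fun j => ((G c ((n : ℝ) + (j.1 : ℝ)) : ℝ) : UnitAddCircle)) atTop (𝓝 0) := by
  have h1 : ∀ Ψ ∈ Submodule.span ℂ (Set.range (UnitAddTorus.mFourier (d := Fin (r + 1)))),
      Tendsto (fun N => av N fun n => e (∑ j, θ j * G c ((n : ℝ) + (j.1 : ℝ))) *
        Ψ fun j => ((G c ((n : ℝ) + (j.1 : ℝ)) : ℝ) : UnitAddCircle)) atTop (𝓝 0) := by
    intro Ψ hΨ
    induction hΨ using Submodule.span_induction with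
    | mem x hx =>
      obtain ⟨m, rfl⟩ := hx
      have hβ : (fun j => θ j + (m j : ℝ)) ≠ 0 := by
        intro h
        apply hθ
        intro j
        refine ⟨-m j, ?_⟩
        have := congrFun h j
        simp only [Pi.zero_apply] at this
        push_cast
        linarith
      refine (avg_H hc0 hc1 _ hβ).congr fun N => ?_
      unfold av
      congr 1
      refine Finset.sum_congr rfl fun n _ => ?_
      have e1 : UnitAddTorus.mFourier m
          (fun j => ((G c ((n : ℝ) + (j.1 : ℝ)) : ℝ) : UnitAddCircle)) =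
          ∏ j, e ((m j : ℝ) * G c ((n : ℝ) + (j.1 : ℝ))) := by
        show ∏ j, fourier (m j) ((G c ((n : ℝ) + (j.1 : ℝ)) : ℝ) : UnitAddCircle) = _
        refine Finset.prod_congr rfl fun j _ => ?_
        rw [fourier_coe_apply]
        unfold e
        congr 1
        push_cast
        ring
      show e (H c (fun j => θ j + (m j : ℝ)) (n : ℝ)) =
        e (∑ j, θ j * G c ((n : ℝ) + (j.1 : ℝ))) * UnitAddTorus.mFourier m
          (fun j => ((G c ((n : ℝ) + (j.1 : ℝ)) : ℝ) : UnitAddCircle))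
      rw [e1, ← fl_e_sum, ← fl_e_add, ← Finset.sum_add_distrib]
      congr 1
      unfold H
      exact Finset.sum_congr rfl fun j _ => by ring
    | zero =>
      refine tendsto_const_nhds.congr fun N => ?_
      unfold av
      simp
    | add x y _ _ hx hy =>
      have := hx.add hy
      rw [add_zero] at this
      refine this.congr fun N => ?_
      rw [← fl_av_add]
      congr 1
      funext n
      rw [ContinuousMap.add_apply, mul_add]
    | smul a x _ hx =>
      have := hx.const_mul a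
      rw [mul_zero] at this
      refine this.congr fun N => ?_
      rw [← fl_av_smul]
      congr 1
      funext n
      rw [ContinuousMap.smul_apply, smul_eq_mul]
      ring
  rw [Metric.tendsto_atTop]
  intro ε hε
  have h2 : Φ ∈ closure (Submodule.span ℂ
      (Set.range (UnitAddTorus.mFourier (d := Fin (r + 1)))) : Set C(UnitAddTorus (Fin (r + 1)), ℂ)) := by
    rw [← Submodule.topologicalClosure_coe, UnitAddTorus.span_mFourier_closure_eq_top]
    trivial
  obtain ⟨Ψ, hΨ, hd⟩ := Metric.mem_closure_iff.1 h2 (ε / 2) (by positivity)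
  obtain ⟨N₀, hN₀⟩ := Metric.tendsto_atTop.1 (h1 Ψ hΨ) (ε / 2) (by positivity)
  refine ⟨N₀, fun N hN => ?_⟩
  have h3 := hN₀ N hN
  rw [dist_zero_right] at h3 ⊢
  have h4 : ‖(av N fun n => e (∑ j, θ j * G c ((n : ℝ) + (j.1 : ℝ))) *
      Φ fun j => ((G c ((n : ℝ) + (j.1 : ℝ)) : ℝ) : UnitAddCircle)) -
      (av N fun n => e (∑ j, θ j * G c ((n : ℝ) + (j.1 : ℝ))) *
      Ψ fun j => ((G c ((n : ℝ) + (j.1 : ℝ)) : ℝ) : UnitAddCircle))‖ ≤ ε / 2 := by
    rw [← fl_av_sub]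
    refine fl_av_le N _ (by positivity) fun n => ?_
    rw [← mul_sub, norm_mul, fl_norm_e, one_mul, ← dist_eq_norm]
    exact (ContinuousMap.dist_apply_le_dist _).trans hd.le
  have h5 := norm_sub_norm_le (av N fun n => e (∑ j, θ j * G c ((n : ℝ) + (j.1 : ℝ))) *
      Φ fun j => ((G c ((n : ℝ) + (j.1 : ℝ)) : ℝ) : UnitAddCircle))
      (av N fun n => e (∑ j, θ j * G c ((n : ℝ) + (j.1 : ℝ))) *
      Ψ fun j => ((G c ((n : ℝ) + (j.1 : ℝ)) : ℝ) : UnitAddCircle))
  linarith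

theorem avg_floor {c : ℝ} (hc0 : 0 < c) (hc1 : c < 1 / 2) {r : ℕ} (θ : Fin (r + 1) → ℝ)
    (hθ : ¬ ∀ j, ∃ k : ℤ, θ j = k) :
    Tendsto (fun N => av N fun n => e (∑ j, θ j * (a c (n + j.1) : ℝ))) atTop (𝓝 0) := by
  rw [Metric.tendsto_atTop]
  intro ε hε
  obtain ⟨M, hM⟩ := exists_nat_gt (8 * ((r : ℝ) + 1) / ε)
  have hM0 : (0 : ℝ) < M := lt_of_le_of_lt (by positivity) hM
  have hM1 : 1 ≤ M := by
    have : 0 < M := by exact_mod_cast hM0
    omega
  obtain ⟨δ, hδ⟩ : ∃ δ : ℝ, δ = 1 / (8 * (M : ℝ)) := ⟨_, rfl⟩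
  -- the continuous function on the torus
  obtain ⟨Φ, hΦ⟩ : ∃ Φ : C(UnitAddTorus (Fin (r + 1)), ℂ), ∀ x, Φ x = ∏ j, Ph δ (θ j) (x j) :=
    ⟨⟨fun x => ∏ j, Ph δ (θ j) (x j), continuous_finsetProd _ fun j _ =>
      (Ph_cont δ (θ j)).comp (continuous_apply j)⟩, fun x => rfl⟩
  obtain ⟨N₁, hN₁⟩ := Metric.tendsto_atTop.1 (dens hc0 hc1 θ hθ Φ) (ε / 2) (by positivity)
  have hb : ∀ j : Fin (r + 1), ∃ N₂ : ℕ, ∀ N, N₂ ≤ N →
      ‖av N fun n => (bM M (G c ((n : ℝ) + (j.1 : ℝ))) : ℂ)‖ < 4 / M := by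
    intro j
    have h1 := (bM_av hc0 hc1 j hM1).norm
    have h2 : ‖2 / (M : ℂ)‖ = 2 / (M : ℝ) := by
      rw [norm_div, Complex.norm_natCast]
      norm_num
    rw [h2] at h1
    have h3 : 2 / (M : ℝ) < 4 / M := by
      apply div_lt_div_of_pos_right _ hM0
      norm_num
    exact eventually_atTop.1 (h1.eventually_lt_const h3)
  choose N₂ hN₂ using hb
  refine ⟨max N₁ (∑ j, N₂ j), fun N hN => ?_⟩
  have g1 := hN₁ N ((le_max_left _ _).trans hN)
  have g2 : ∀ j : Fin (r + 1), ‖av N fun n => (bM M (G c ((n : ℝ) + (j.1 : ℝ))) : ℂ)‖ < 4 / M := fun j =>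
    hN₂ j N ((Finset.single_le_sum (fun _ _ => Nat.zero_le _) (Finset.mem_univ j)).trans
      ((le_max_right _ _).trans hN))
  rw [dist_zero_right] at g1 ⊢
  -- the pointwise comparison
  have hpt : ∀ n : ℕ, ‖e (∑ j, θ j * (a c (n + j.1) : ℝ)) -
      e (∑ j, θ j * G c ((n : ℝ) + (j.1 : ℝ))) *
        Φ (fun j : Fin (r + 1) => ((G c ((n : ℝ) + (j.1 : ℝ)) : ℝ) : UnitAddCircle))‖ ≤
      ∑ j : Fin (r + 1), bM M (G c ((n : ℝ) + (j.1 : ℝ))) := by
    intro n
    have e1 : ∀ j : Fin (r + 1), (a c (n + j.1) : ℝ) =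
        G c ((n : ℝ) + (j.1 : ℝ)) - Int.fract (G c ((n : ℝ) + (j.1 : ℝ))) := by
      intro j
      have h0 : 0 ≤ G c ((n : ℝ) + (j.1 : ℝ)) := (Real.exp_pos _).le
      unfold a
      push_cast
      rw [Int.self_sub_fract, natCast_floor_eq_intCast_floor h0]
    have e2 : e (∑ j, θ j * (a c (n + j.1) : ℝ)) =
        e (∑ j, θ j * G c ((n : ℝ) + (j.1 : ℝ))) *
          ∏ j : Fin (r + 1), e (-θ j * Int.fract (G c ((n : ℝ) + (j.1 : ℝ)))) := by
      rw [← fl_e_sum, ← fl_e_add, ← Finset.sum_add_distrib]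
      congr 1
      refine Finset.sum_congr rfl fun j _ => ?_
      rw [e1 j]
      ring
    rw [e2, ← mul_sub, norm_mul, fl_norm_e, one_mul, hΦ]
    refine (fl_prod _ _ _ (fun j => (fl_norm_e _).le) fun j => ?_).trans ?_
    · rw [Ph_coe, hδ]
      exact (ph_sub hM1 (θ j) _).2
    · refine Finset.sum_le_sum fun j _ => ?_
      rw [Ph_coe, hδ]
      exact (ph_sub hM1 (θ j) _).1
  -- averages
  have h3 : ‖(av N fun n => e (∑ j, θ j * (a c (n + j.1) : ℝ))) -
      (av N fun n => e (∑ j, θ j * G c ((n : ℝ) + (j.1 : ℝ))) *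
        Φ (fun j : Fin (r + 1) => ((G c ((n : ℝ) + (j.1 : ℝ)) : ℝ) : UnitAddCircle)))‖ ≤
      ∑ j : Fin (r + 1), ‖av N fun n => (bM M (G c ((n : ℝ) + (j.1 : ℝ))) : ℂ)‖ := by
    rw [← fl_av_sub]
    have e3 : ∀ j : Fin (r + 1), ‖av N fun n => (bM M (G c ((n : ℝ) + (j.1 : ℝ))) : ℂ)‖ =
        (N : ℝ)⁻¹ * ∑ n ∈ Finset.Icc 1 N, bM M (G c ((n : ℝ) + (j.1 : ℝ))) := by
      intro j
      have h5 : (av N fun n => (bM M (G c ((n : ℝ) + (j.1 : ℝ))) : ℂ)) =
          (((N : ℝ)⁻¹ * ∑ n ∈ Finset.Icc 1 N, bM M (G c ((n : ℝ) + (j.1 : ℝ))) : ℝ) : ℂ) := by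
        unfold av
        push_cast
        rfl
      rw [h5, Complex.norm_real, Real.norm_eq_abs, abs_of_nonneg]
      exact mul_nonneg (by positivity) (Finset.sum_nonneg fun _ _ => bM_nonneg _ _)
    rw [Finset.sum_congr rfl fun j _ => e3 j, ← Finset.mul_sum, Finset.sum_comm]
    unfold av
    rw [norm_mul, norm_inv, Complex.norm_natCast]
    refine mul_le_mul_of_nonneg_left ?_ (by positivity)
    exact (norm_sum_le _ _).trans (Finset.sum_le_sum fun n _ => hpt n)
  have h4 : ∑ j : Fin (r + 1), ‖av N fun n => (bM M (G c ((n : ℝ) + (j.1 : ℝ))) : ℂ)‖ ≤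
      ε / 2 := by
    refine (Finset.sum_le_sum fun j _ => (g2 j).le).trans ?_
    rw [Finset.sum_const, Finset.card_univ, Fintype.card_fin, nsmul_eq_mul]
    rw [div_lt_iff₀ hε] at hM
    push_cast
    rw [mul_div_assoc', div_le_iff₀ hM0]
    linarith
  have h5 := norm_sub_norm_le (av N fun n => e (∑ j, θ j * (a c (n + j.1) : ℝ)))
      (av N fun n => e (∑ j, θ j * G c ((n : ℝ) + (j.1 : ℝ))) *
        Φ (fun j : Fin (r + 1) => ((G c ((n : ℝ) + (j.1 : ℝ)) : ℝ) : UnitAddCircle)))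
  linarith

end Pool.Agent.VINO
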