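import Pool.Agent.VINO.EDefs
import Pool.Agent.VINO.Floor
import Pool.Agent.VINO.Chr

/-!
# VINO / APl: averages of finite trigonometric sums along `a c n`

PROOFS.  `ap_avg`: expand the product `∏_j u j (a(n+j)) = ∑_{i : ∀ j, Fin (p j)} (∏ cc) e (∑_j β_(j, i j) a(n+j))`
(`Finset.prod_univ_sum`, `Fintype.piFinset_univ`, `e_add`); the average of a summand tends to `0` by `avg_floor` unless
all `β_(j, i j)` are integers, and then the exponential is `1` and the average is `1` (for `N ≥ 1`); the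
limit is the sum over the `i` with all `β` integral of `∏ cc`, i.e. `∏_j M j` (`Finset.prod_univ_sum` again).
`ap_per`: let `ζ = e (q γ)`, `v m = e (-γ m) u m`; then `v (m + q) = v m`, so with
`c_i = (1/q) ∑_{s < q} v s e (-i s / q)` (`i < q`): `v m = ∑_{i<q} c_i e (i m / q)` (finite Fourier inversion:
`∑_{i<q} e (i (m - s) / q) = q` if `q ∣ m - s` and `0` otherwise), `u m = ∑ c_i e ((γ + i/q) m)`.
-/

set_option autoImplicit false

namespace Pool.Agent.VINO

open Filter Topology Pool.Agent.VMV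

private theorem al_av_sum {ι : Type} (s : Finset ι) (N : ℕ) (A : ι → ℂ) (E : ι → ℕ → ℂ) :
    av N (fun n => ∑ i ∈ s, A i * E i n) = ∑ i ∈ s, A i * av N (E i) := by
  unfold av
  rw [Finset.sum_comm, Finset.mul_sum]
  refine Finset.sum_congr rfl fun i _ => ?_
  rw [← Finset.mul_sum]
  ring

private theorem al_av_one {N : ℕ} (hN : 1 ≤ N) : av N (fun _ => 1) = 1 := by
  have hN0 : (N : ℂ) ≠ 0 := by
    have : N ≠ 0 := by omega
    exact_mod_cast this
  unfold av
  simp only [Finset.sum_const, Nat.card_Icc, add_tsub_cancel_right, nsmul_eq_mul, mul_one]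
  rw [inv_mul_cancel₀ hN0]

theorem ap_avg {c : ℝ} (hc0 : 0 < c) (hc1 : c < 1 / 2) {r : ℕ} (u : Fin (r + 1) → ℕ → ℂ)
    (M : Fin (r + 1) → ℂ) (h : ∀ j, IsAP (u j) (M j)) :
    Tendsto (fun N => av N fun n => ∏ j, u j (a c (n + j.1))) atTop (𝓝 (∏ j, M j)) := by
  classical
  choose p cc β hu hM using h
  have e1 : ∀ n : ℕ, ∏ j, u j (a c (n + j.1)) = ∑ φ ∈ Fintype.piFinset
      (fun j : Fin (r + 1) => (Finset.univ : Finset (Fin (p j)))),
      (∏ j, cc j (φ j)) * e (∑ j, β j (φ j) * (a c (n + j.1) : ℝ)) := by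
    intro n
    have e2 : ∏ j, u j (a c (n + j.1)) = ∏ j, ∑ i : Fin (p j),
        cc j i * e (β j i * (a c (n + j.1) : ℝ)) := Finset.prod_congr rfl fun j _ => hu j _
    rw [e2, Finset.prod_univ_sum]
    refine Finset.sum_congr rfl fun φ _ => ?_
    rw [Finset.prod_mul_distrib, e_sum]
  have e3 : (∏ j, M j) = ∑ φ ∈ Fintype.piFinset
      (fun j : Fin (r + 1) => (Finset.univ : Finset (Fin (p j)))),
      (∏ j, cc j (φ j)) * if (∀ j, ∃ k : ℤ, β j (φ j) = k) then 1 else 0 := by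
    rw [Finset.prod_congr rfl fun j _ => hM j, Finset.prod_univ_sum]
    refine Finset.sum_congr rfl fun φ _ => ?_
    by_cases hφ : ∀ j, ∃ k : ℤ, β j (φ j) = k
    · rw [if_pos hφ, mul_one]
      exact Finset.prod_congr rfl fun j _ => if_pos (hφ j)
    · rw [if_neg hφ, mul_zero]
      push Not at hφ
      obtain ⟨j, hj⟩ := hφ
      refine Finset.prod_eq_zero (Finset.mem_univ j) (if_neg ?_)
      rintro ⟨k, hk⟩
      exact hj k hk
  simp only [e1, al_av_sum]
  rw [e3]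
  refine tendsto_finsetSum _ fun φ _ => Tendsto.const_mul _ ?_
  by_cases hφ : ∀ j, ∃ k : ℤ, β j (φ j) = k
  · rw [if_pos hφ]
    refine tendsto_const_nhds.congr' ?_
    filter_upwards [eventually_ge_atTop 1] with N hN
    have e4 : ∀ n : ℕ, e (∑ j, β j (φ j) * (a c (n + j.1) : ℝ)) = 1 := by
      intro n
      rw [e_eq_one]
      choose k hk using hφ
      refine ⟨∑ j, k j * (a c (n + j.1) : ℤ), ?_⟩
      push_cast
      exact Finset.sum_congr rfl fun j _ => by rw [hk j]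
    simp only [e4]
    exact (al_av_one hN).symm
  · rw [if_neg hφ]
    exact avg_floor hc0 hc1 (fun j => β j (φ j)) hφ

open Classical in
private theorem geo (q : ℕ) (hq : 1 ≤ q) (m s : ℕ) :
    ∑ i ∈ Finset.range q, e ((i : ℝ) * (((m : ℝ) - s) / q)) =
      if (∃ k : ℤ, ((m : ℝ) - s) / q = k) then (q : ℂ) else 0 := by
  have hq0 : (q : ℝ) ≠ 0 := by
    have : q ≠ 0 := by omega
    exact_mod_cast this
  have h1 : ∀ i : ℕ, e ((i : ℝ) * (((m : ℝ) - s) / q)) = e (((m : ℝ) - s) / q) ^ i := by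
    intro i
    rw [e_pow, mul_comm]
  simp only [h1]
  by_cases hk : ∃ k : ℤ, ((m : ℝ) - s) / q = k
  · rw [if_pos hk, (e_eq_one _).2 hk]
    simp
  · rw [if_neg hk]
    have h2 : e (((m : ℝ) - s) / q) ≠ 1 := fun h => hk ((e_eq_one _).1 h)
    have h3 : e (((m : ℝ) - s) / q) ^ q = 1 := by
      rw [e_pow, e_eq_one]
      refine ⟨(m : ℤ) - s, ?_⟩
      push_cast
      field_simp
    rw [geom_sum_eq h2, h3, sub_self, zero_div]

theorem ap_per (u : ℕ → ℂ) (q : ℕ) (hq : 1 ≤ q) (ζ : ℂ) (hζ : ‖ζ‖ = 1)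
    (h : ∀ m, u (m + q) = ζ * u m) : ∃ M, IsAP u M := by
  classical
  have hq0 : (q : ℝ) ≠ 0 := by
    have : q ≠ 0 := by omega
    exact_mod_cast this
  have hqC : (q : ℂ) ≠ 0 := by
    have : q ≠ 0 := by omega
    exact_mod_cast this
  obtain ⟨b, hb⟩ := char_circle ⟨ζ, mem_sphere_zero_iff_norm.2 hζ⟩
  have hb' : ζ = e b := hb
  obtain ⟨γ, hγ⟩ : ∃ γ : ℝ, γ = b / q := ⟨_, rfl⟩
  have hγ' : γ * q = b := by rw [hγ]; field_simp
  have hv : Function.Periodic (fun m : ℕ => e (-γ * m) * u m) q := by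
    intro m
    show e (-γ * ((m + q : ℕ) : ℝ)) * u (m + q) = e (-γ * m) * u m
    rw [h, hb']
    have e1 : e (-γ * ((m + q : ℕ) : ℝ)) * e b = e (-γ * m) := by
      rw [← e_add]
      congr 1
      push_cast
      rw [← hγ']
      ring
    rw [← mul_assoc, e1]
  refine ⟨_, q, fun i => (q : ℂ)⁻¹ * ∑ s ∈ Finset.range q,
    (e (-γ * s) * u s) * e (-((i.1 : ℝ) * s / q)), fun i => γ + (i.1 : ℝ) / q, ?_, rfl⟩
  intro m
  have e1 : ∀ i : Fin q, ((q : ℂ)⁻¹ * ∑ s ∈ Finset.range q,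
      (e (-γ * s) * u s) * e (-((i.1 : ℝ) * s / q))) * e ((γ + (i.1 : ℝ) / q) * m) =
      ∑ s ∈ Finset.range q, (q : ℂ)⁻¹ * (e (-γ * s) * u s) * e (γ * m) *
        e ((i.1 : ℝ) * (((m : ℝ) - s) / q)) := by
    intro i
    rw [Finset.mul_sum, Finset.sum_mul]
    refine Finset.sum_congr rfl fun s _ => ?_
    have e2 : e ((γ + (i.1 : ℝ) / q) * m) * e (-((i.1 : ℝ) * s / q)) =
        e (γ * m) * e ((i.1 : ℝ) * (((m : ℝ) - s) / q)) := by
      rw [← e_add, ← e_add]
      congr 1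
      ring
    linear_combination (q : ℂ)⁻¹ * (e (-γ * s) * u s) * e2
  rw [Finset.sum_congr rfl fun i _ => e1 i, Finset.sum_comm]
  have e3 : ∀ s ∈ Finset.range q, ∑ i : Fin q, (q : ℂ)⁻¹ * (e (-γ * s) * u s) * e (γ * m) *
        e ((i.1 : ℝ) * (((m : ℝ) - s) / q)) = (q : ℂ)⁻¹ * (e (-γ * s) * u s) * e (γ * m) *
        if (∃ k : ℤ, ((m : ℝ) - s) / q = k) then (q : ℂ) else 0 := by
    intro s _
    rw [← Finset.mul_sum, ← geo q hq m s, Finset.sum_range]
  rw [Finset.sum_congr rfl e3, Finset.sum_eq_single (m % q)]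
  · have h1 : ∃ k : ℤ, ((m : ℝ) - ((m % q : ℕ) : ℝ)) / q = k := by
      refine ⟨((m / q : ℕ) : ℤ), ?_⟩
      rw [div_eq_iff hq0, sub_eq_iff_eq_add, Int.cast_natCast]
      have := Nat.div_add_mod m q
      have h2 : (q : ℝ) * ((m / q : ℕ) : ℝ) + ((m % q : ℕ) : ℝ) = m := by exact_mod_cast this
      linarith
    rw [if_pos h1]
    have h3 := hv.map_mod_nat m
    beta_reduce at h3
    rw [h3]
    have h4 : e (-γ * m) * e (γ * m) = 1 := by
      rw [← e_add, e_eq_one]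
      exact ⟨0, by push_cast; ring⟩
    have h5 : (q : ℂ)⁻¹ * q = 1 := inv_mul_cancel₀ hqC
    linear_combination (-(u m)) * h4 - (e (-γ * m) * u m * e (γ * m)) * h5
  · intro s hs hne
    rw [if_neg, mul_zero]
    rintro ⟨k, hk⟩
    apply hne
    rw [div_eq_iff hq0] at hk
    have h1 : (m : ℤ) - s = k * q := by exact_mod_cast hk
    have h2 : (m : ℤ) = s + q * k := by linarith
    have h3 : ((m % q : ℕ) : ℤ) = s := by
      rw [Int.natCast_mod, h2, Int.add_mul_emod_self_left]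
      exact Int.emod_eq_of_lt (by positivity) (by exact_mod_cast Finset.mem_range.1 hs)
    exact_mod_cast h3.symm
  · intro hs
    exact absurd (Finset.mem_range.2 (Nat.mod_lt _ (by omega))) hs

end Pool.Agent.VINO
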