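import Pool.Agent.VINO.Win

/-!
# VINO / Avg: the averages of `e (∑ β_j G(n + j))` tend to zero

PROOF.  `u n = e (H c β n)`, `‖u n‖ = 1`. `Y = ⌊N^(c/16)⌋`. For each shift `h ≥ 0`:
`‖∑_{n ≤ N} u n - ∑_{n ≤ N} u (n + h)‖ ≤ 2 h`; average over `h = p q`, `p, q ≤ Y`:
`‖∑_{n ≤ N} u n‖ ≤ Y^(-2) ∑_{n ≤ N} ‖∑_{p, q ≤ Y} u (n + p q)‖ + 2 Y^2`. The terms with `n ≤ ε N` are at most `Y^2`
each (total `ε N`); for `ε N < n ≤ N`, `N` large: `n^(c/24) ≤ N^(c/24) ≤ N^(c/16) - 1 ≤ Y` and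
`Y ≤ N^(c/16) ≤ (n/ε)^(c/16) ≤ n^(c/12)`, so `window` gives `≤ ε Y^2`. `2 Y^2 ≤ 2 N^(c/8) ≤ ε N`.
-/

set_option autoImplicit false

namespace Pool.Agent.VINO

open Pool.Agent.VMV Filter Topology

private theorem av_tel (u : ℕ → ℂ) (h N : ℕ) :
    ∑ n ∈ Finset.Icc 1 N, u (n + (h + 1)) - ∑ n ∈ Finset.Icc 1 N, u (n + h) =
      u (N + h + 1) - u (h + 1) := by
  induction N with
  | zero => simp
  | succ N ih =>
    rw [Finset.sum_Icc_succ_top (by omega), Finset.sum_Icc_succ_top (by omega)]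
    have e1 : N + 1 + (h + 1) = N + 1 + h + 1 := by ring
    have e2 : N + 1 + h = N + h + 1 := by ring
    rw [e1, e2]
    linear_combination ih

private theorem av_sh (u : ℕ → ℂ) (hu : ∀ n, ‖u n‖ ≤ 1) (N h : ℕ) :
    ‖∑ n ∈ Finset.Icc 1 N, u n - ∑ n ∈ Finset.Icc 1 N, u (n + h)‖ ≤ 2 * h := by
  induction h with
  | zero => simp
  | succ h ih =>
    have e1 : ∑ n ∈ Finset.Icc 1 N, u n - ∑ n ∈ Finset.Icc 1 N, u (n + (h + 1)) =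
        (∑ n ∈ Finset.Icc 1 N, u n - ∑ n ∈ Finset.Icc 1 N, u (n + h)) -
          (u (N + h + 1) - u (h + 1)) := by
      rw [← av_tel]
      ring
    rw [e1]
    refine (norm_sub_le _ _).trans ?_
    have h2 : ‖u (N + h + 1) - u (h + 1)‖ ≤ 2 :=
      (norm_sub_le _ _).trans (by linarith [hu (N + h + 1), hu (h + 1)])
    push_cast
    linarith

theorem av_shift (u : ℕ → ℂ) (hu : ∀ n, ‖u n‖ ≤ 1) (N Y : ℕ) (hY : 1 ≤ Y) :
    ‖∑ n ∈ Finset.Icc 1 N, u n‖ ≤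
      ((Y : ℝ) ^ 2)⁻¹ * ∑ n ∈ Finset.Icc 1 N,
        ‖∑ p ∈ Finset.Icc 1 Y, ∑ q ∈ Finset.Icc 1 Y, u (n + p * q)‖ + 2 * (Y : ℝ) ^ 2 := by
  have hY0 : (0 : ℝ) < Y := by exact_mod_cast hY
  have h1 : ∀ p ∈ Finset.Icc 1 Y, ∀ q ∈ Finset.Icc 1 Y,
      ‖∑ n ∈ Finset.Icc 1 N, u n - ∑ n ∈ Finset.Icc 1 N, u (n + p * q)‖ ≤ 2 * (Y : ℝ) ^ 2 := by
    intro p hp q hq
    refine (av_sh u hu N (p * q)).trans ?_
    have hp' : (p : ℝ) ≤ Y := by exact_mod_cast (Finset.mem_Icc.1 hp).2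
    have hq' : (q : ℝ) ≤ Y := by exact_mod_cast (Finset.mem_Icc.1 hq).2
    push_cast
    have : (p : ℝ) * q ≤ Y * Y := by gcongr
    nlinarith
  have h2 : ((Y : ℂ) ^ 2) * ∑ n ∈ Finset.Icc 1 N, u n =
      ∑ n ∈ Finset.Icc 1 N, ∑ p ∈ Finset.Icc 1 Y, ∑ q ∈ Finset.Icc 1 Y, u (n + p * q) +
      ∑ p ∈ Finset.Icc 1 Y, ∑ q ∈ Finset.Icc 1 Y,
        (∑ n ∈ Finset.Icc 1 N, u n - ∑ n ∈ Finset.Icc 1 N, u (n + p * q)) := by
    simp only [Finset.sum_sub_distrib, Finset.sum_const, Nat.card_Icc, nsmul_eq_mul,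
      add_tsub_cancel_right]
    rw [Finset.sum_comm]
    have : ∀ p ∈ Finset.Icc 1 Y, ∑ n ∈ Finset.Icc 1 N, ∑ q ∈ Finset.Icc 1 Y, u (n + p * q) =
        ∑ q ∈ Finset.Icc 1 Y, ∑ n ∈ Finset.Icc 1 N, u (n + p * q) := fun p _ =>
      Finset.sum_comm
    rw [Finset.sum_congr rfl this]
    ring
  have h3 : (Y : ℝ) ^ 2 * ‖∑ n ∈ Finset.Icc 1 N, u n‖ ≤
      ∑ n ∈ Finset.Icc 1 N, ‖∑ p ∈ Finset.Icc 1 Y, ∑ q ∈ Finset.Icc 1 Y, u (n + p * q)‖ +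
      (Y : ℝ) ^ 2 * (2 * (Y : ℝ) ^ 2) := by
    have e1 : (Y : ℝ) ^ 2 * ‖∑ n ∈ Finset.Icc 1 N, u n‖ =
        ‖((Y : ℂ) ^ 2) * ∑ n ∈ Finset.Icc 1 N, u n‖ := by
      rw [norm_mul, norm_pow, Complex.norm_natCast]
    rw [e1, h2]
    refine (norm_add_le _ _).trans (add_le_add (norm_sum_le _ _) ?_)
    refine (norm_sum_le _ _).trans ?_
    refine (Finset.sum_le_sum fun p hp => (norm_sum_le _ _).trans
      (Finset.sum_le_sum fun q hq => h1 p hp q hq)).trans (le_of_eq ?_)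
    simp only [Finset.sum_const, Nat.card_Icc, nsmul_eq_mul, add_tsub_cancel_right]
    ring
  have h4 : ‖∑ n ∈ Finset.Icc 1 N, u n‖ ≤ ((Y : ℝ) ^ 2)⁻¹ *
      (∑ n ∈ Finset.Icc 1 N, ‖∑ p ∈ Finset.Icc 1 Y, ∑ q ∈ Finset.Icc 1 Y, u (n + p * q)‖ +
      (Y : ℝ) ^ 2 * (2 * (Y : ℝ) ^ 2)) := by
    rw [← div_eq_inv_mul, le_div_iff₀ (by positivity), mul_comm]
    exact h3
  refine h4.trans (le_of_eq ?_)
  field_simp

private theorem norm_e' (t : ℝ) : ‖e t‖ = 1 := by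
  unfold e
  rw [Complex.norm_exp]
  simp

private theorem avg_ev {c ε : ℝ} (hc0 : 0 < c) (hc1 : c < 1 / 2) (hε : 0 < ε) (n₀ : ℕ) :
    ∃ N₀ : ℕ, ∀ N : ℕ, N₀ ≤ N → (n₀ : ℝ) ≤ ε * N ∧
      (N : ℝ) ^ (c / 24) + 1 ≤ (N : ℝ) ^ (c / 16) ∧
      (N : ℝ) ^ (c / 16) ≤ (ε * N) ^ (c / 12) ∧ 2 * (N : ℝ) ^ (c / 8) ≤ ε * N ∧ 1 ≤ N := by
  have hy : Tendsto (fun N : ℕ => (N : ℝ) ^ (c / 48)) atTop atTop :=
    (tendsto_rpow_atTop (by positivity)).comp tendsto_natCast_atTop_atTop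
  have hs : Tendsto (fun N : ℕ => (N : ℝ) ^ ((1 : ℝ) / 2)) atTop atTop :=
    (tendsto_rpow_atTop (by positivity)).comp tendsto_natCast_atTop_atTop
  have hN : Tendsto (fun N : ℕ => (N : ℝ)) atTop atTop := tendsto_natCast_atTop_atTop
  have ev : ∀ᶠ N : ℕ in atTop, (n₀ : ℝ) ≤ ε * N ∧
      (N : ℝ) ^ (c / 24) + 1 ≤ (N : ℝ) ^ (c / 16) ∧
      (N : ℝ) ^ (c / 16) ≤ (ε * N) ^ (c / 12) ∧ 2 * (N : ℝ) ^ (c / 8) ≤ ε * N ∧ 1 ≤ N := by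
    filter_upwards [hN.eventually_ge_atTop (n₀ / ε), hy.eventually_ge_atTop 2,
      hy.eventually_ge_atTop (1 / ε ^ (c / 12)), hs.eventually_ge_atTop (2 / ε),
      eventually_ge_atTop 1] with N g1 g2 g3 g4 g5
    have hN1 : (1 : ℝ) ≤ N := by exact_mod_cast g5
    have hN0 : (0 : ℝ) < N := by linarith
    obtain ⟨y, hydef⟩ : ∃ y : ℝ, y = (N : ℝ) ^ (c / 48) := ⟨_, rfl⟩
    rw [← hydef] at g2 g3
    have hpow : ∀ k : ℕ, y ^ k = (N : ℝ) ^ (c / 48 * k) := by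
      intro k
      rw [hydef, ← Real.rpow_natCast, ← Real.rpow_mul hN0.le]
    have e2 : (N : ℝ) ^ (c / 24) = y ^ 2 := by
      rw [hpow]
      congr 1
      push_cast
      ring
    have e3 : (N : ℝ) ^ (c / 16) = y ^ 3 := by
      rw [hpow]
      congr 1
      push_cast
      ring
    have e4 : (N : ℝ) ^ (c / 12) = y ^ 4 := by
      rw [hpow]
      congr 1
      push_cast
      ring
    refine ⟨?_, ?_, ?_, ?_, g5⟩
    · rw [div_le_iff₀ hε] at g1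
      linarith
    · rw [e2, e3]
      nlinarith [sq_nonneg y, mul_nonneg (sq_nonneg y) (by linarith : (0:ℝ) ≤ y - 2)]
    · rw [Real.mul_rpow hε.le hN0.le, e3, e4]
      rw [div_le_iff₀ (Real.rpow_pos_of_pos hε _)] at g3
      have hy3 : 0 ≤ y ^ 3 := by positivity
      calc y ^ 3 = y ^ 3 * 1 := by ring
        _ ≤ y ^ 3 * (y * ε ^ (c / 12)) := by gcongr
        _ = ε ^ (c / 12) * y ^ 4 := by ring
    · rw [div_le_iff₀ hε] at g4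
      have h1 : (N : ℝ) ^ (c / 8) ≤ (N : ℝ) ^ ((1 : ℝ) / 2) :=
        Real.rpow_le_rpow_of_exponent_le hN1 (by linarith)
      have h2 : (N : ℝ) = (N : ℝ) ^ ((1 : ℝ) / 2) * (N : ℝ) ^ ((1 : ℝ) / 2) := by
        rw [← Real.rpow_add hN0]
        norm_num
      have h3 : 0 ≤ (N : ℝ) ^ ((1 : ℝ) / 2) := by positivity
      calc 2 * (N : ℝ) ^ (c / 8) ≤ ((N : ℝ) ^ ((1 : ℝ) / 2) * ε) * (N : ℝ) ^ ((1 : ℝ) / 2) := by
            gcongr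
        _ = ε * ((N : ℝ) ^ ((1 : ℝ) / 2) * (N : ℝ) ^ ((1 : ℝ) / 2)) := by ring
        _ = ε * N := by rw [← h2]
  obtain ⟨N₀, h⟩ := eventually_atTop.1 ev
  exact ⟨N₀, h⟩

theorem avg_H {c : ℝ} (hc0 : 0 < c) (hc1 : c < 1 / 2) {r : ℕ} (β : Fin (r + 1) → ℝ)
    (hβ : β ≠ 0) : Tendsto (fun N => av N fun n => e (H c β n)) atTop (𝓝 0) := by
  rw [Metric.tendsto_atTop]
  intro ε' hε'
  obtain ⟨ε, hε⟩ : ∃ ε : ℝ, ε = ε' / 4 := ⟨_, rfl⟩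
  have hε0 : 0 < ε := by rw [hε]; positivity
  obtain ⟨n₀, hn₀⟩ := window hc0 hc1 β hβ ε hε0
  obtain ⟨N₀, hN₀⟩ := avg_ev hc0 hc1 hε0 n₀
  refine ⟨N₀, fun N hN => ?_⟩
  obtain ⟨g1, g2, g3, g4, g5⟩ := hN₀ N hN
  have hN1 : (1 : ℝ) ≤ N := by exact_mod_cast g5
  have hN0 : (0 : ℝ) < N := by linarith
  obtain ⟨Y, hYdef⟩ : ∃ Y : ℕ, Y = ⌊(N : ℝ) ^ (c / 16)⌋₊ := ⟨_, rfl⟩
  have hYle : (Y : ℝ) ≤ (N : ℝ) ^ (c / 16) := by
    rw [hYdef]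
    exact Nat.floor_le (by positivity)
  have hYge : (N : ℝ) ^ (c / 16) - 1 ≤ Y := by
    rw [hYdef]
    exact (Nat.sub_one_lt_floor _).le
  have hY24 : (N : ℝ) ^ (c / 24) ≤ Y := by linarith
  have hY1 : 1 ≤ Y := by
    have h1 : (1 : ℝ) ≤ (N : ℝ) ^ (c / 24) := Real.one_le_rpow hN1 (by positivity)
    have h2 : (1 : ℝ) ≤ Y := h1.trans hY24
    exact_mod_cast h2
  have hY0 : (0 : ℝ) < Y := by exact_mod_cast hY1
  have hu : ∀ n : ℕ, ‖e (H c β (n : ℝ))‖ ≤ 1 := fun n => (norm_e' _).le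
  have key := av_shift (fun n : ℕ => e (H c β (n : ℝ))) hu N Y hY1
  have hD : ∀ n ∈ Finset.Icc 1 N,
      ‖∑ p ∈ Finset.Icc 1 Y, ∑ q ∈ Finset.Icc 1 Y, e (H c β ((n + p * q : ℕ) : ℝ))‖ ≤
        ε * (Y : ℝ) ^ 2 + (if (n : ℝ) ≤ ε * N then (Y : ℝ) ^ 2 else 0) := by
    intro n hn
    have hnN : (n : ℝ) ≤ N := by exact_mod_cast (Finset.mem_Icc.1 hn).2
    by_cases h : (n : ℝ) ≤ ε * N
    · rw [if_pos h]
      have h1 : ‖∑ p ∈ Finset.Icc 1 Y, ∑ q ∈ Finset.Icc 1 Y, e (H c β ((n + p * q : ℕ) : ℝ))‖ ≤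
          (Y : ℝ) ^ 2 := by
        refine (norm_sum_le _ _).trans ?_
        refine (Finset.sum_le_sum fun p _ => (norm_sum_le _ _).trans
          (Finset.sum_le_sum fun q _ => hu _)).trans (le_of_eq ?_)
        simp only [Finset.sum_const, Nat.card_Icc, nsmul_eq_mul, add_tsub_cancel_right]
        ring
      have h2 : 0 ≤ ε * (Y : ℝ) ^ 2 := by positivity
      linarith
    · rw [if_neg h, add_zero]
      push Not at h
      have hn0 : n₀ ≤ n := by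
        have : (n₀ : ℝ) ≤ n := by linarith
        exact_mod_cast this
      have h1 := hn₀ n hn0 Y
        ((Real.rpow_le_rpow (by positivity) hnN (by positivity)).trans hY24)
        (hYle.trans (g3.trans (Real.rpow_le_rpow (by positivity) h.le (by positivity))))
      push_cast
      exact h1
  have hsum : ∑ n ∈ Finset.Icc 1 N,
      ‖∑ p ∈ Finset.Icc 1 Y, ∑ q ∈ Finset.Icc 1 Y, e (H c β ((n + p * q : ℕ) : ℝ))‖ ≤
        2 * (ε * N) * (Y : ℝ) ^ 2 := by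
    refine (Finset.sum_le_sum hD).trans ?_
    rw [Finset.sum_add_distrib, Finset.sum_const, Nat.card_Icc, nsmul_eq_mul,
      add_tsub_cancel_right, ← Finset.sum_filter, Finset.sum_const, nsmul_eq_mul]
    have h1 : (((Finset.Icc 1 N).filter fun n : ℕ => (n : ℝ) ≤ ε * N).card : ℝ) ≤ ε * N := by
      have h2 : ((Finset.Icc 1 N).filter fun n : ℕ => (n : ℝ) ≤ ε * N) ⊆
          Finset.Icc 1 ⌊ε * N⌋₊ := by
        intro n hn
        rw [Finset.mem_filter] at hn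
        rw [Finset.mem_Icc]
        exact ⟨(Finset.mem_Icc.1 hn.1).1, Nat.le_floor hn.2⟩
      have h3 := Finset.card_le_card h2
      rw [Nat.card_Icc, add_tsub_cancel_right] at h3
      calc (((Finset.Icc 1 N).filter fun n : ℕ => (n : ℝ) ≤ ε * N).card : ℝ) ≤ (⌊ε * N⌋₊ : ℝ) := by
            exact_mod_cast h3
        _ ≤ ε * N := Nat.floor_le (by positivity)
    have h4 : (((Finset.Icc 1 N).filter fun n : ℕ => (n : ℝ) ≤ ε * N).card : ℝ) * (Y : ℝ) ^ 2 ≤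
        ε * N * (Y : ℝ) ^ 2 := by gcongr
    linarith
  have hfin : ‖∑ n ∈ Finset.Icc 1 N, e (H c β (n : ℝ))‖ ≤ 3 * (ε * N) := by
    have h1 : ((Y : ℝ) ^ 2)⁻¹ * (∑ n ∈ Finset.Icc 1 N,
        ‖∑ p ∈ Finset.Icc 1 Y, ∑ q ∈ Finset.Icc 1 Y, e (H c β ((n + p * q : ℕ) : ℝ))‖) ≤
        2 * (ε * N) := by
      rw [inv_mul_le_iff₀ (by positivity)]
      linarith
    have h2 : 2 * (Y : ℝ) ^ 2 ≤ ε * N := by
      have h3 : (Y : ℝ) ^ 2 ≤ (N : ℝ) ^ (c / 8) := by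
        calc (Y : ℝ) ^ 2 ≤ ((N : ℝ) ^ (c / 16)) ^ 2 := by gcongr
          _ = (N : ℝ) ^ (c / 8) := by
              rw [← Real.rpow_natCast, ← Real.rpow_mul hN0.le]
              congr 1
              push_cast
              ring
      linarith
    linarith [key]
  rw [dist_zero_right]
  unfold av
  rw [norm_mul, norm_inv, Complex.norm_natCast, inv_mul_lt_iff₀ hN0]
  refine hfin.trans_lt ?_
  rw [hε]
  nlinarith

end Pool.Agent.VINO
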