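import Pool.Agent.VINO.Slots

/-!
# VINO / Ptw: the product formula extends from a family with dense span to all continuous functions

PROOF.  Step 1 (`r = 0`): the set of the `f : C(Y, ℂ)` such that `av (f (y n))` converges is a closed
subspace (Cauchy criterion, `‖av N u‖ ≤ sup ‖u‖`), contains `V`, so is everything. Let `Λ' f` be the limit
(`Classical.choose`); it is linear, `‖Λ' f‖ ≤ ‖f‖`, and `Λ' f = Λ f` for `f ∈ V` (uniqueness of limits; the
hypothesis `h` with `r = 0`). Step 2: `Q φ` := the averages of `∏ φ j (y (n+j))` tend to `∏ Λ' (φ j)`. Use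
`slots`: sums and multiples in one slot (`Fin.prod` of an update: `Finset.prod_update_of_mem`), and
closedness: `‖∏ ..(update g j f) - ∏ ..(update g j f')‖ ≤ ‖f - f'‖ ∏_{i ≠ j} ‖g i‖`, the same for `Λ'`.
-/

set_option autoImplicit false

namespace Pool.Agent.VINO

open Filter Topology

theorem av_norm_le {u : ℕ → ℂ} {C : ℝ} (hC : 0 ≤ C) (h : ∀ n, 1 ≤ n → ‖u n‖ ≤ C) (N : ℕ) :
    ‖av N u‖ ≤ C := by
  unfold av
  rcases Nat.eq_zero_or_pos N with rfl | hN
  · simpa using hC
  · rw [norm_mul, norm_inv, Complex.norm_natCast]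
    have h1 : ‖∑ n ∈ Finset.Icc 1 N, u n‖ ≤ N * C := by
      refine (norm_sum_le _ _).trans ((Finset.sum_le_sum
        (fun n hn => h n (Finset.mem_Icc.1 hn).1)).trans ?_)
      rw [Finset.sum_const, Nat.card_Icc, nsmul_eq_mul, Nat.add_sub_cancel]
    have h2 : (0 : ℝ) < N := by exact_mod_cast hN
    calc (N : ℝ)⁻¹ * ‖∑ n ∈ Finset.Icc 1 N, u n‖ ≤ (N : ℝ)⁻¹ * (N * C) :=
          mul_le_mul_of_nonneg_left h1 (by positivity)
      _ = C := by field_simp

private theorem av_add_p (N : ℕ) (u v : ℕ → ℂ) :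
    av N (fun n => u n + v n) = av N u + av N v := by
  unfold av
  rw [Finset.sum_add_distrib, mul_add]

private theorem av_sub_p (N : ℕ) (u v : ℕ → ℂ) :
    av N (fun n => u n - v n) = av N u - av N v := by
  unfold av
  rw [Finset.sum_sub_distrib, mul_sub]

private theorem av_mul_p (N : ℕ) (z : ℂ) (u : ℕ → ℂ) :
    av N (fun n => z * u n) = z * av N u := by
  unfold av
  rw [← Finset.mul_sum]
  ring

/-- a product with one slot updated -/
private theorem prod_upd {ι : Type*} [Fintype ι] [DecidableEq ι] {E : Type*} (L : ι → E → ℂ)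
    (g : ι → E) (j : ι) (f : E) :
    ∏ i, L i (Function.update g j f i) = L j f * ∏ i ∈ Finset.univ.erase j, L i (g i) := by
  rw [← Finset.mul_prod_erase Finset.univ _ (Finset.mem_univ j), Function.update_self]
  congr 1
  refine Finset.prod_congr rfl (fun i hi => ?_)
  rw [Function.update_of_ne (Finset.ne_of_mem_erase hi)]

/-- limits pass to limits of functions, uniformly in the averages -/
private theorem lim_close {F : ℕ → ℂ} (h : ∀ ε : ℝ, 0 < ε → ∃ F' : ℕ → ℂ, CauchySeq F' ∧
    ∀ N, ‖F N - F' N‖ ≤ ε) : CauchySeq F := by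
  rw [Metric.cauchySeq_iff]
  intro ε hε
  obtain ⟨F', hF', hd⟩ := h (ε / 4) (by positivity)
  obtain ⟨N₀, hN₀⟩ := Metric.cauchySeq_iff.1 hF' (ε / 4) (by positivity)
  refine ⟨N₀, fun m hm n hn => ?_⟩
  have h1 := hN₀ m hm n hn
  have h2 := hd m
  have h3 := hd n
  rw [dist_eq_norm] at h1 ⊢
  have h4 : F m - F n = (F m - F' m) + (F' m - F' n) - (F n - F' n) := by ring
  rw [h4]
  have h5 := norm_sub_le ((F m - F' m) + (F' m - F' n)) (F n - F' n)
  have h6 := norm_add_le (F m - F' m) (F' m - F' n)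
  linarith

private theorem lim_close' {F : ℕ → ℂ} {l : ℂ} (h : ∀ ε : ℝ, 0 < ε → ∃ (F' : ℕ → ℂ) (l' : ℂ),
    Tendsto F' atTop (𝓝 l') ∧ (∀ N, ‖F N - F' N‖ ≤ ε) ∧ ‖l - l'‖ ≤ ε) :
    Tendsto F atTop (𝓝 l) := by
  rw [Metric.tendsto_atTop]
  intro ε hε
  obtain ⟨F', l', hF', hd, hl⟩ := h (ε / 4) (by positivity)
  obtain ⟨N₀, hN₀⟩ := Metric.tendsto_atTop.1 hF' (ε / 4) (by positivity)
  refine ⟨N₀, fun n hn => ?_⟩
  have h1 := hN₀ n hn
  have h2 := hd n
  rw [dist_eq_norm] at h1 ⊢
  have h4 : F n - l = (F n - F' n) + (F' n - l') - (l - l') := by ring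
  rw [h4]
  have h5 := norm_sub_le ((F n - F' n) + (F' n - l')) (l - l')
  have h6 := norm_add_le (F n - F' n) (F' n - l')
  linarith

theorem ptw {Y : Type*} [TopologicalSpace Y] [CompactSpace Y] (y : ℕ → Y) (V : Set C(Y, ℂ))
    (hV : ∀ f, f ∈ closure (Submodule.span ℂ V : Set C(Y, ℂ))) (Λ : C(Y, ℂ) → ℂ)
    (h : ∀ (r : ℕ) (φ : Fin (r + 1) → C(Y, ℂ)), (∀ j, φ j ∈ V) →
      Tendsto (fun N => av N fun n => ∏ j, φ j (y (n + j.1))) atTop (𝓝 (∏ j, Λ (φ j)))) :
    ProdLim y := by
  have hdiff : ∀ (f f' : C(Y, ℂ)) (N : ℕ),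
      ‖(av N fun n => f (y n)) - (av N fun n => f' (y n))‖ ≤ ‖f - f'‖ := by
    intro f f' N
    rw [← av_sub_p]
    refine av_norm_le (norm_nonneg _) (fun n _ => ?_) N
    exact (f - f').norm_coe_le_norm (y n)
  have hVc : ∀ f ∈ V, Tendsto (fun N => av N fun n => f (y n)) atTop (𝓝 (Λ f)) := by
    intro f hf
    have h1 := h 0 (fun _ => f) (fun _ => hf)
    simpa using h1
  have hspan : ∀ f ∈ Submodule.span ℂ V, ∃ l : ℂ,
      Tendsto (fun N => av N fun n => f (y n)) atTop (𝓝 l) := by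
    intro f hf
    induction hf using Submodule.span_induction with
    | mem f hf => exact ⟨_, hVc f hf⟩
    | zero =>
      refine ⟨0, ?_⟩
      have h1 : (fun N => av N fun n => (0 : C(Y, ℂ)) (y n)) = fun _ => 0 := by
        funext N
        simp [av]
      rw [h1]
      exact tendsto_const_nhds
    | add f g _ _ hf hg =>
      obtain ⟨l, hl⟩ := hf
      obtain ⟨m, hm⟩ := hg
      refine ⟨l + m, ?_⟩
      have h1 : (fun N => av N fun n => (f + g) (y n)) =
          fun N => (av N fun n => f (y n)) + (av N fun n => g (y n)) := by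
        funext N
        rw [← av_add_p]
        rfl
      rw [h1]
      exact hl.add hm
    | smul z f _ hf =>
      obtain ⟨l, hl⟩ := hf
      refine ⟨z * l, ?_⟩
      have h1 : (fun N => av N fun n => (z • f) (y n)) =
          fun N => z * (av N fun n => f (y n)) := by
        funext N
        rw [← av_mul_p]
        rfl
      rw [h1]
      exact hl.const_mul z
  have hall : ∀ f : C(Y, ℂ), ∃ l : ℂ, Tendsto (fun N => av N fun n => f (y n)) atTop (𝓝 l) := by
    intro f
    refine cauchySeq_tendsto_of_complete (lim_close (fun ε hε => ?_))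
    obtain ⟨f', hf', hd⟩ := Metric.mem_closure_iff.1 (hV f) ε hε
    obtain ⟨l, hl⟩ := hspan f' hf'
    refine ⟨_, hl.cauchySeq, fun N => (hdiff f f' N).trans ?_⟩
    rw [← dist_eq_norm]
    exact hd.le
  choose M hM using hall
  have hMV : ∀ f ∈ V, M f = Λ f := fun f hf => tendsto_nhds_unique (hM f) (hVc f hf)
  have hMd : ∀ f f', ‖M f - M f'‖ ≤ ‖f - f'‖ := fun f f' =>
    le_of_tendsto ((hM f).sub (hM f')).norm (Eventually.of_forall (fun N => hdiff f f' N))
  have hMadd : ∀ f f', M (f + f') = M f + M f' := by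
    intro f f'
    refine tendsto_nhds_unique (hM (f + f')) ?_
    have h1 : (fun N => av N fun n => (f + f') (y n)) =
        fun N => (av N fun n => f (y n)) + (av N fun n => f' (y n)) := by
      funext N
      rw [← av_add_p]
      rfl
    rw [h1]
    exact (hM f).add (hM f')
  have hMsmul : ∀ (z : ℂ) f, M (z • f) = z * M f := by
    intro z f
    refine tendsto_nhds_unique (hM (z • f)) ?_
    have h1 : (fun N => av N fun n => (z • f) (y n)) =
        fun N => z * (av N fun n => f (y n)) := by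
      funext N
      rw [← av_mul_p]
      rfl
    rw [h1]
    exact (hM f).const_mul z
  have hM0 : M 0 = 0 := by
    have h1 := hMsmul 0 0
    simpa using h1
  refine ⟨M, fun r φ => ?_⟩
  -- the property `Q`
  have hP1 : ∀ (g : Fin (r + 1) → C(Y, ℂ)) (j : Fin (r + 1)) (f : C(Y, ℂ)) (n : ℕ),
      ∏ i, (Function.update g j f) i (y (n + i.1)) =
        f (y (n + j.1)) * ∏ i ∈ Finset.univ.erase j, g i (y (n + i.1)) :=
    fun g j f n => prod_upd (fun i (u : C(Y, ℂ)) => u (y (n + i.1))) g j f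
  have hP2 : ∀ (g : Fin (r + 1) → C(Y, ℂ)) (j : Fin (r + 1)) (f : C(Y, ℂ)),
      ∏ i, M (Function.update g j f i) = M f * ∏ i ∈ Finset.univ.erase j, M (g i) :=
    fun g j f => prod_upd (fun _ (u : C(Y, ℂ)) => M u) g j f
  refine slots (fun g : Fin (r + 1) → C(Y, ℂ) =>
    Tendsto (fun N => av N fun n => ∏ j, g j (y (n + j.1))) atTop (𝓝 (∏ j, M (g j))))
    ?_ ?_ ?_ ?_ V ?_ φ (fun j => hV (φ j))
  · intro g j f f' h1 h2
    simp only [hP1, hP2] at h1 h2 ⊢
    have h3 : (fun N => av N fun n => (f + f') (y (n + j.1)) *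
        ∏ i ∈ Finset.univ.erase j, g i (y (n + i.1))) =
        fun N => (av N fun n => f (y (n + j.1)) * ∏ i ∈ Finset.univ.erase j, g i (y (n + i.1))) +
        (av N fun n => f' (y (n + j.1)) * ∏ i ∈ Finset.univ.erase j, g i (y (n + i.1))) := by
      funext N
      rw [← av_add_p]
      congr 1
      funext n
      rw [ContinuousMap.add_apply, add_mul]
    rw [h3, hMadd, add_mul]
    exact h1.add h2
  · intro g j z f h1
    simp only [hP1, hP2] at h1 ⊢
    have h3 : (fun N => av N fun n => (z • f) (y (n + j.1)) *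
        ∏ i ∈ Finset.univ.erase j, g i (y (n + i.1))) =
        fun N => z * (av N fun n => f (y (n + j.1)) *
          ∏ i ∈ Finset.univ.erase j, g i (y (n + i.1))) := by
      funext N
      rw [← av_mul_p]
      congr 1
      funext n
      rw [ContinuousMap.smul_apply, smul_eq_mul, mul_assoc]
    rw [h3, hMsmul, mul_assoc]
    exact h1.const_mul z
  · intro g j
    simp only [hP1, hP2]
    rw [hM0, zero_mul]
    have h3 : (fun N => av N fun n => (0 : C(Y, ℂ)) (y (n + j.1)) *
        ∏ i ∈ Finset.univ.erase j, g i (y (n + i.1))) = fun _ => 0 := by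
      funext N
      simp [av]
    rw [h3]
    exact tendsto_const_nhds
  · intro g j f h1
    simp only [hP1, hP2] at h1 ⊢
    refine lim_close' (fun ε hε => ?_)
    have hK : 0 ≤ ∏ i ∈ Finset.univ.erase j, ‖g i‖ :=
      Finset.prod_nonneg (fun i _ => norm_nonneg _)
    obtain ⟨f', hf', hT⟩ := h1 (ε / (∏ i ∈ Finset.univ.erase j, ‖g i‖ + 1)) (by positivity)
    have hεK : ‖f - f'‖ * ∏ i ∈ Finset.univ.erase j, ‖g i‖ ≤ ε := by
      calc ‖f - f'‖ * ∏ i ∈ Finset.univ.erase j, ‖g i‖
          ≤ ε / (∏ i ∈ Finset.univ.erase j, ‖g i‖ + 1) *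
            (∏ i ∈ Finset.univ.erase j, ‖g i‖ + 1) :=
            mul_le_mul hf' (by linarith) hK (by positivity)
        _ = ε := by field_simp
    refine ⟨_, _, hT, fun N => ?_, ?_⟩
    · rw [← av_sub_p]
      refine av_norm_le hε.le (fun n _ => ?_) N
      rw [← sub_mul, norm_mul, norm_prod]
      refine le_trans (mul_le_mul ?_ (Finset.prod_le_prod (fun i _ => norm_nonneg _)
        (fun i _ => (g i).norm_coe_le_norm (y (n + i.1)))) (Finset.prod_nonneg
        (fun i _ => norm_nonneg _)) (norm_nonneg (f - f'))) hεK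
      exact (f - f').norm_coe_le_norm (y (n + j.1))
    · rw [← sub_mul, norm_mul, norm_prod]
      refine le_trans (mul_le_mul (hMd f f') (Finset.prod_le_prod (fun i _ => norm_nonneg _)
        (fun i _ => ?_)) (Finset.prod_nonneg (fun i _ => norm_nonneg _))
        (norm_nonneg (f - f'))) hεK
      have h5 := hMd (g i) 0
      rwa [hM0, sub_zero, sub_zero] at h5
  · intro g hg
    have h1 := h r g hg
    have h2 : ∏ j, M (g j) = ∏ j, Λ (g j) := Finset.prod_congr rfl (fun j _ => hMV _ (hg j))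
    rw [h2]
    exact h1

end Pool.Agent.VINO
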