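import Pool.Agent.VINO.Slots
import Pool.Agent.VINO.Ptw

/-!
# VINO / Cls: the almost everywhere product formula extends to the closed span

PROOF.  `slots` with `Q f = PP c μ S f`. Sums and multiples in one slot: intersect the two sets of full
measure; the product over the slots is linear in the slot `j` (`Finset.prod_update_of_mem`), and the
integral is linear (continuous functions on a compact space are integrable for a finite measure:
`Continuous.integrable_of_hasCompactSupport` or `BoundedContinuousFunction`; no second countability is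
assumed). Closedness: for `ε = 1/(k+1)` choose `f'_k`; on the intersection of the countably many sets of full
measure the averages for `update g j f` differ from those for `update g j f'_k` by at most
`ε ∏_{i ≠ j} ‖g i‖` (`av_norm_le`), and the products of the integrals by the same amount; conclude by
`3ε`.
-/

set_option autoImplicit false

namespace Pool.Agent.VINO

open MeasureTheory Filter Topology

private theorem cls_upd {ι E : Type*} [Fintype ι] [DecidableEq ι] (F : ι → E → ℂ) (g : ι → E) (j : ι)
    (f : E) : ∏ i, F i (Function.update g j f i) = F j f * ∏ i ∈ Finset.univ.erase j, F i (g i) := by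
  rw [← Finset.mul_prod_erase Finset.univ _ (Finset.mem_univ j), Function.update_self]
  congr 1
  refine Finset.prod_congr rfl fun i hi => ?_
  rw [Function.update_of_ne (Finset.ne_of_mem_erase hi)]

private theorem cls_av_add (N : ℕ) (u v : ℕ → ℂ) :
    av N (fun n => u n + v n) = av N u + av N v := by
  unfold av
  rw [Finset.sum_add_distrib, mul_add]

private theorem cls_av_smul (N : ℕ) (z : ℂ) (u : ℕ → ℂ) :
    av N (fun n => z * u n) = z * av N u := by
  unfold av
  rw [← Finset.mul_sum]
  ring

private theorem cls_av_sub (N : ℕ) (u v : ℕ → ℂ) :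
    av N u - av N v = av N (fun n => u n - v n) := by
  unfold av
  rw [Finset.sum_sub_distrib, mul_sub]

private theorem cls_int {X : Type*} [TopologicalSpace X] [CompactSpace X] [MeasurableSpace X]
    [BorelSpace X] (μ : Measure X) [IsProbabilityMeasure μ] (f : C(X, ℂ)) :
    Integrable (fun x => f x) μ := by
  refine Integrable.of_bound (f.continuous.aestronglyMeasurable) ‖f‖ ?_
  exact Filter.Eventually.of_forall fun x => ContinuousMap.norm_coe_le_norm f x

private theorem cls_int_norm {X : Type*} [TopologicalSpace X] [CompactSpace X] [MeasurableSpace X]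
    [BorelSpace X] (μ : Measure X) [IsProbabilityMeasure μ] (f : C(X, ℂ)) :
    ‖∫ x, f x ∂μ‖ ≤ ‖f‖ := by
  have h := norm_integral_le_of_norm_le_const (μ := μ) (f := fun x => f x) (C := ‖f‖)
    (Filter.Eventually.of_forall fun x => ContinuousMap.norm_coe_le_norm f x)
  simpa using h

theorem cls (c : ℝ) {X : Type*} [TopologicalSpace X] [CompactSpace X] [MeasurableSpace X]
    [BorelSpace X] (μ : Measure X) [IsProbabilityMeasure μ] (S : ℕ → X → X) {r : ℕ}
    (V : Set C(X, ℂ)) (hV : ∀ f : Fin (r + 1) → C(X, ℂ), (∀ j, f j ∈ V) → PP c μ S f)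
    (f : Fin (r + 1) → C(X, ℂ))
    (hf : ∀ j, f j ∈ closure (Submodule.span ℂ V : Set C(X, ℂ))) : PP c μ S f := by
  classical
  refine slots (fun f => PP c μ S f) ?_ ?_ ?_ ?_ V hV f hf
  · intro g j f f' h1 h2
    show PP c μ S _
    have h1' : PP c μ S (Function.update g j f) := h1
    have h2' : PP c μ S (Function.update g j f') := h2
    unfold PP at h1' h2' ⊢
    filter_upwards [h1', h2'] with x hx1 hx2
    have h3 := hx1.add hx2
    have e1 : ∀ (p : ℕ → X) (n : ℕ), (∏ i : Fin (r + 1), (Function.update g j (f + f')) i (p (n + i.1)))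
        = (∏ i : Fin (r + 1), (Function.update g j f) i (p (n + i.1)))
          + ∏ i : Fin (r + 1), (Function.update g j f') i (p (n + i.1)) := by
      intro p n
      rw [cls_upd (fun (i : Fin (r + 1)) (φ : C(X, ℂ)) => φ (p (n + i.1))) g j (f + f'),
        cls_upd (fun (i : Fin (r + 1)) (φ : C(X, ℂ)) => φ (p (n + i.1))) g j f,
        cls_upd (fun (i : Fin (r + 1)) (φ : C(X, ℂ)) => φ (p (n + i.1))) g j f']
      simp only [ContinuousMap.add_apply]
      ring
    have e2 : (∏ i : Fin (r + 1), ∫ x, (Function.update g j (f + f')) i x ∂μ)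
        = (∏ i : Fin (r + 1), ∫ x, (Function.update g j f) i x ∂μ)
          + ∏ i : Fin (r + 1), ∫ x, (Function.update g j f') i x ∂μ := by
      rw [cls_upd (fun (i : Fin (r + 1)) (φ : C(X, ℂ)) => ∫ x, φ x ∂μ) g j (f + f'),
        cls_upd (fun (i : Fin (r + 1)) (φ : C(X, ℂ)) => ∫ x, φ x ∂μ) g j f,
        cls_upd (fun (i : Fin (r + 1)) (φ : C(X, ℂ)) => ∫ x, φ x ∂μ) g j f']
      have e3 : (∫ x, (f + f') x ∂μ) = (∫ x, f x ∂μ) + ∫ x, f' x ∂μ := by
        simp only [ContinuousMap.add_apply]
        exact integral_add (cls_int μ f) (cls_int μ f')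
      rw [e3]
      ring
    rw [e2]
    refine h3.congr fun N => ?_
    rw [← cls_av_add]
    congr 1
    funext n
    exact (e1 (fun m => S (a c m) x) n).symm
  · intro g j z f h1
    show PP c μ S _
    have h1' : PP c μ S (Function.update g j f) := h1
    unfold PP at h1' ⊢
    filter_upwards [h1'] with x hx1
    have h3 := hx1.const_mul z
    have e1 : ∀ (p : ℕ → X) (n : ℕ), (∏ i : Fin (r + 1), (Function.update g j (z • f)) i (p (n + i.1)))
        = z * (∏ i : Fin (r + 1), (Function.update g j f) i (p (n + i.1))) := by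
      intro p n
      rw [cls_upd (fun (i : Fin (r + 1)) (φ : C(X, ℂ)) => φ (p (n + i.1))) g j (z • f),
        cls_upd (fun (i : Fin (r + 1)) (φ : C(X, ℂ)) => φ (p (n + i.1))) g j f]
      simp only [ContinuousMap.smul_apply, smul_eq_mul]
      ring
    have e2 : (∏ i : Fin (r + 1), ∫ x, (Function.update g j (z • f)) i x ∂μ)
        = z * (∏ i : Fin (r + 1), ∫ x, (Function.update g j f) i x ∂μ) := by
      rw [cls_upd (fun (i : Fin (r + 1)) (φ : C(X, ℂ)) => ∫ x, φ x ∂μ) g j (z • f),
        cls_upd (fun (i : Fin (r + 1)) (φ : C(X, ℂ)) => ∫ x, φ x ∂μ) g j f]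
      have e3 : (∫ x, (z • f) x ∂μ) = z * (∫ x, f x ∂μ) := by
        simp only [ContinuousMap.smul_apply, smul_eq_mul]
        exact integral_const_mul z _
      rw [e3]
      ring
    rw [e2]
    refine h3.congr fun N => ?_
    rw [← cls_av_smul]
    congr 1
    funext n
    exact (e1 (fun m => S (a c m) x) n).symm
  · intro g j
    show PP c μ S _
    unfold PP
    refine Filter.Eventually.of_forall fun x => ?_
    have e1 : ∀ (p : ℕ → X) (n : ℕ),
        (∏ i : Fin (r + 1), (Function.update g j (0 : C(X, ℂ))) i (p (n + i.1))) = 0 := by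
      intro p n
      rw [cls_upd (fun (i : Fin (r + 1)) (φ : C(X, ℂ)) => φ (p (n + i.1))) g j 0]
      simp
    have e2 : (∏ i : Fin (r + 1), ∫ x, (Function.update g j (0 : C(X, ℂ))) i x ∂μ) = 0 := by
      rw [cls_upd (fun (i : Fin (r + 1)) (φ : C(X, ℂ)) => ∫ x, φ x ∂μ) g j 0]
      simp
    rw [e2]
    refine tendsto_const_nhds.congr fun N => ?_
    have e3 : (fun n => ∏ i : Fin (r + 1),
        (Function.update g j (0 : C(X, ℂ))) i (S (a c (n + i.1)) x)) = fun _ => 0 := by
      funext n
      exact e1 (fun m => S (a c m) x) n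
    rw [e3]
    simp [av]
  · intro g j f h
    show PP c μ S _
    have hpos : ∀ k : ℕ, (0 : ℝ) < 1 / ((k : ℝ) + 1) := fun k => by positivity
    choose F hF1 hF2 using fun k : ℕ => h (1 / ((k : ℝ) + 1)) (hpos k)
    have hF3 : ∀ k, PP c μ S (Function.update g j (F k)) := hF2
    unfold PP at hF3 ⊢
    have hF4 := ae_all_iff.2 hF3
    filter_upwards [hF4] with x hx
    set C : ℝ := ∏ i ∈ Finset.univ.erase j, ‖g i‖ with hC
    have hC0 : 0 ≤ C := Finset.prod_nonneg fun i _ => norm_nonneg _
    rw [Metric.tendsto_atTop]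
    intro ε hε
    have hd : 0 < ε / 3 / (C + 1) := by positivity
    obtain ⟨k, hk⟩ := exists_nat_one_div_lt hd
    have hk2 : 1 / ((k : ℝ) + 1) * C < ε / 3 := by
      have h5 : 1 / ((k : ℝ) + 1) * (C + 1) < ε / 3 := by
        rwa [lt_div_iff₀ (by positivity)] at hk
      have h6 : 0 < 1 / ((k : ℝ) + 1) := hpos k
      nlinarith
    obtain ⟨N0, hN0⟩ := (Metric.tendsto_atTop.1 (hx k)) (ε / 3) (by positivity)
    refine ⟨N0, fun N hN => ?_⟩
    have h7 := hN0 N hN
    have hfk : ‖f - F k‖ ≤ 1 / ((k : ℝ) + 1) := hF1 k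
    -- the averages
    have h8 : ‖(av N fun n => ∏ i : Fin (r + 1), (Function.update g j f) i (S (a c (n + i.1)) x))
        - (av N fun n => ∏ i : Fin (r + 1), (Function.update g j (F k)) i (S (a c (n + i.1)) x))‖
        ≤ 1 / ((k : ℝ) + 1) * C := by
      rw [cls_av_sub]
      refine av_norm_le (by positivity) (fun n _ => ?_) N
      rw [cls_upd (fun (i : Fin (r + 1)) (φ : C(X, ℂ)) => φ (S (a c (n + i.1)) x)) g j f,
        cls_upd (fun (i : Fin (r + 1)) (φ : C(X, ℂ)) => φ (S (a c (n + i.1)) x)) g j (F k),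
        ← sub_mul, norm_mul]
      refine mul_le_mul ?_ ?_ (norm_nonneg _) (hpos k).le
      · have := ContinuousMap.norm_coe_le_norm (f - F k) (S (a c (n + j.1)) x)
        rw [ContinuousMap.sub_apply] at this
        exact this.trans hfk
      · rw [norm_prod]
        exact Finset.prod_le_prod (fun i _ => norm_nonneg _)
          fun i _ => ContinuousMap.norm_coe_le_norm (g i) _
    have h9 : ‖(∏ i : Fin (r + 1), ∫ x, (Function.update g j (F k)) i x ∂μ)
        - ∏ i : Fin (r + 1), ∫ x, (Function.update g j f) i x ∂μ‖ ≤ 1 / ((k : ℝ) + 1) * C := by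
      rw [cls_upd (fun (i : Fin (r + 1)) (φ : C(X, ℂ)) => ∫ x, φ x ∂μ) g j f,
        cls_upd (fun (i : Fin (r + 1)) (φ : C(X, ℂ)) => ∫ x, φ x ∂μ) g j (F k),
        ← sub_mul, norm_mul]
      refine mul_le_mul ?_ ?_ (norm_nonneg _) (hpos k).le
      · have h10 : (∫ x, F k x ∂μ) - (∫ x, f x ∂μ) = ∫ x, (F k - f) x ∂μ := by
          simp only [ContinuousMap.sub_apply]
          exact (integral_sub (cls_int μ (F k)) (cls_int μ f)).symm
        rw [h10]
        refine (cls_int_norm μ (F k - f)).trans ?_
        rw [norm_sub_rev]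
        exact hfk
      · rw [norm_prod]
        exact Finset.prod_le_prod (fun i _ => norm_nonneg _)
          fun i _ => cls_int_norm μ (g i)
    rw [dist_eq_norm] at h7 ⊢
    set A1 := (av N fun n => ∏ i : Fin (r + 1), (Function.update g j f) i (S (a c (n + i.1)) x))
    set A2 := (av N fun n => ∏ i : Fin (r + 1), (Function.update g j (F k)) i (S (a c (n + i.1)) x))
    set L1 := ∏ i : Fin (r + 1), ∫ x, (Function.update g j f) i x ∂μ
    set L2 := ∏ i : Fin (r + 1), ∫ x, (Function.update g j (F k)) i x ∂μ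
    have h11 : A1 - L1 = (A1 - A2) + (A2 - L2) + (L2 - L1) := by ring
    rw [h11]
    calc ‖(A1 - A2) + (A2 - L2) + (L2 - L1)‖ ≤ ‖A1 - A2‖ + ‖A2 - L2‖ + ‖L2 - L1‖ := norm_add₃_le
      _ < ε := by linarith

end Pool.Agent.VINO
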