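import Pool.Agent.VMV.Defs

/-!
# VINO / Defs: definitions

MP_823c05_an: Furstenberg systems along the iterates `⌊n ^ (log n) ^ c⌋` at typical points.
-/

set_option autoImplicit false

namespace Pool.Agent.VINO

open Finset

/-- The function `x ^ (log x) ^ c = exp ((log x) ^ (1 + c))`. -/
noncomputable def G (c x : ℝ) : ℝ := Real.exp (Real.log x ^ (1 + c))

/-- The iterates `⌊G n⌋`. -/
noncomputable def a (c : ℝ) (n : ℕ) : ℕ := ⌊G c n⌋₊

/-! ### The derivatives of `G` -/

/-- `K = (1 + c) L ^ c`, the logarithmic derivative of `G` in the variable `L = log x`. -/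
noncomputable def KK (c L : ℝ) : ℝ := (1 + c) * L ^ c

/-- The function `exp ((L + w) ^ (1 + c) - L ^ (1 + c) - K w)` of `w`. -/
noncomputable def hh (c L w : ℝ) : ℝ := Real.exp ((L + w) ^ (1 + c) - L ^ (1 + c) - KK c L * w)

/-- The Taylor coefficients of `hh c L` at `0`. -/
noncomputable def em (c L : ℝ) (m : ℕ) : ℝ := iteratedDeriv m (hh c L) 0 / m.factorial

/-- The combination `∑ β_j G(x + j)` of shifts of `G`. -/
noncomputable def H (c : ℝ) {r : ℕ} (β : Fin (r + 1) → ℝ) (x : ℝ) : ℝ := ∑ j, β j * G c (x + (j.1 : ℝ))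

/-- `A = (log x) ^ c`. -/
noncomputable def AA (c x : ℝ) : ℝ := Real.log x ^ c

/-- The degree of the Taylor polynomials. -/
noncomputable def kk (c x : ℝ) : ℕ := ⌈3 * AA c x⌉₊ + 2

/-! ### Averages -/

/-- The average of `u 1, …, u N`. -/
noncomputable def av (N : ℕ) (u : ℕ → ℂ) : ℂ := (N : ℂ)⁻¹ * ∑ n ∈ Finset.Icc 1 N, u n

end Pool.Agent.VINO
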