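import Pool.Agent.VINO.Dprod

/-!
# VINO / Dem: bounds for the Taylor coefficients `em c L m` of `hh c L`

PROOFS.  Let `h = hh c L`, `E' w = (1+c) ((L+w)^c - L^c)`, `ε i = (E')^(i)(0) / i!`.
`h' = E' h` near `0` (`(d/dw) (L+w)^(1+c) = (1+c) (L+w)^c`, `K = (1+c) L^c`). Leibniz for the `m`-th
derivative at `0`: `(m+1) em (m+1) = ∑_{i ≤ m} ε i * em (m-i)` (`em_rec`;
`(m choose i) i! (m-i)! = m!`). `ε 0 = 0`; for `i ≥ 1`,
`ε i = (1+c) (c choose i) L^(c-i)` with `|(c choose i)| = c (1-c) (2-c) .. (i-1-c) / i! ≤ 1`, so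
`|ε i| ≤ 2 L^(c-i)` (`eps_le`; induction for the iterated derivative of the power, or
`iteratedDeriv` of `rpow` in Mathlib: `Real.iter_deriv_rpow_const`).
`em_zero`: `h 0 = 1`.
`em_le`: `δ = 4 ρ^2 L^(c-1) ≤ 1/2`; strong induction on `m ≥ 1`: `|em m| ≤ δ / ρ^m`. `em 1 = ε 0 = 0`.
For `m ≥ 1`: `|ε i| ≤ 2 L^(c-1) L^(-(i-1)) ≤ 2 L^(c-1) (2ρ)^(-(i-1))`, so
`(m+1) |em (m+1)| ≤ |ε m| + ∑_{i=1}^{m-1} |ε i| δ ρ^(-(m-i))
≤ 2 L^(c-1) ρ^(1-m) + 2 L^(c-1) δ ρ^(1-m) ∑ 2^(-(i-1)) ≤ 2 L^(c-1) ρ^(1-m) + 4 L^(c-1) δ ρ^(1-m)`, and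
`2 L^(c-1) ρ^2 = δ/2`, `4 L^(c-1) ρ^2 δ = δ^2 ≤ δ/2`, so `(m+1) |em (m+1)| ρ^(m+1) ≤ δ`.
-/

set_option autoImplicit false

namespace Pool.Agent.VINO

open Filter Topology

theorem em_zero (c : ℝ) {L : ℝ} (hL : 0 < L) : em c L 0 = 1 := by
  unfold em hh
  simp

/-- the logarithmic derivative is smooth -/
private theorem de_smooth (c : ℝ) {L : ℝ} (hL : 0 < L) (n : ℕ) :
    ContDiffAt ℝ n (fun w : ℝ => (1 + c) * ((L + w) ^ c - L ^ c)) 0 := by
  refine contDiffAt_const.mul (ContDiffAt.sub ?_ contDiffAt_const)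
  have h1 : ContDiffAt ℝ n (fun x : ℝ => x ^ c) (L + 0) :=
    Real.contDiffAt_rpow_const_of_ne (by rw [add_zero]; exact hL.ne')
  exact ContDiffAt.comp (0 : ℝ) h1 (contDiffAt_const.add contDiffAt_id)

private theorem de_deriv (c : ℝ) {L : ℝ} (hL : 0 < L) :
    deriv (hh c L) =ᶠ[𝓝 0] fun w => ((1 + c) * ((L + w) ^ c - L ^ c)) * hh c L w := by
  have h1 : ∀ᶠ w : ℝ in 𝓝 0, -L < w := lt_mem_nhds (by linarith)
  filter_upwards [h1] with w hw
  have h2 : L + w ≠ 0 := by linarith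
  have d1 : HasDerivAt (fun w : ℝ => (L + w) ^ (1 + c)) ((1 + c) * (L + w) ^ c) w := by
    have h3 := ((hasDerivAt_id w).const_add L).rpow_const (p := 1 + c) (Or.inl h2)
    simp only [id, add_sub_cancel_left, one_mul] at h3
    exact h3
  have d2 : HasDerivAt (fun w : ℝ => (L + w) ^ (1 + c) - L ^ (1 + c) - KK c L * w)
      ((1 + c) * (L + w) ^ c - KK c L * 1) w :=
    (d1.sub_const _).sub ((hasDerivAt_id w).const_mul _)
  have d3 : HasDerivAt (hh c L) (Real.exp ((L + w) ^ (1 + c) - L ^ (1 + c) - KK c L * w) *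
      ((1 + c) * (L + w) ^ c - KK c L * 1)) w := d2.exp
  rw [d3.deriv]
  unfold hh KK
  ring

theorem em_rec (c : ℝ) {L : ℝ} (hL : 0 < L) (m : ℕ) :
    ((m : ℝ) + 1) * em c L (m + 1) = ∑ i ∈ Finset.range (m + 1),
      iteratedDeriv i (fun w : ℝ => (1 + c) * ((L + w) ^ c - L ^ c)) 0 / i.factorial *
        em c L (m - i) := by
  have h1 : iteratedDeriv (m + 1) (hh c L) 0 = ∑ i ∈ Finset.range (m + 1),
      m.choose i * iteratedDeriv i (fun w : ℝ => (1 + c) * ((L + w) ^ c - L ^ c)) 0 *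
        iteratedDeriv (m - i) (hh c L) 0 := by
    rw [iteratedDeriv_succ', (de_deriv c hL).iteratedDeriv_eq m,
      iteratedDeriv_fun_mul (de_smooth c hL m) (hh_smooth c hL m)]
  have hm : (((m + 1).factorial : ℕ) : ℝ) = ((m : ℝ) + 1) * m.factorial := by
    rw [Nat.factorial_succ]
    push_cast
    ring
  have hm0 : (m.factorial : ℝ) ≠ 0 := by exact_mod_cast m.factorial_ne_zero
  have hm1 : (m : ℝ) + 1 ≠ 0 := by positivity
  unfold em
  rw [h1, hm]
  have h2 : ∀ x : ℝ, ((m : ℝ) + 1) * (x / (((m : ℝ) + 1) * m.factorial)) = x / m.factorial := by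
    intro x
    field_simp
  rw [h2, Finset.sum_div]
  refine Finset.sum_congr rfl fun i hi => ?_
  have hi' : i ≤ m := by
    have := Finset.mem_range.1 hi
    omega
  have h3 : ((m.choose i : ℕ) : ℝ) * i.factorial * (m - i).factorial = m.factorial := by
    exact_mod_cast Nat.choose_mul_factorial_mul_factorial hi'
  have hi0 : (i.factorial : ℝ) ≠ 0 := by exact_mod_cast i.factorial_ne_zero
  have hmi0 : ((m - i).factorial : ℝ) ≠ 0 := by exact_mod_cast (m - i).factorial_ne_zero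
  rw [← h3]
  have hc0 : ((m.choose i : ℕ) : ℝ) ≠ 0 := by
    exact_mod_cast (Nat.choose_pos hi').ne'
  field_simp

private theorem de_poch {c : ℝ} (hc0 : 0 < c) (hc1 : c < 1) (k : ℕ) :
    |(descPochhammer ℝ (k + 1)).eval c| ≤ (k.factorial : ℝ) := by
  induction k with
  | zero =>
    rw [descPochhammer_succ_eval]
    simp only [descPochhammer_zero, Polynomial.eval_one, one_mul, CharP.cast_eq_zero, sub_zero,
      Nat.factorial_zero, Nat.cast_one]
    rw [abs_of_pos hc0]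
    exact hc1.le
  | succ k ih =>
    rw [descPochhammer_succ_eval, abs_mul, Nat.factorial_succ, Nat.cast_mul, mul_comm]
    have h1 : |c - ((k + 1 : ℕ) : ℝ)| ≤ ((k + 1 : ℕ) : ℝ) := by
      rw [abs_le]
      push_cast
      have : (0 : ℝ) ≤ k := Nat.cast_nonneg k
      constructor
      · linarith
      · linarith
    exact mul_le_mul h1 ih (abs_nonneg _) (Nat.cast_nonneg _)

theorem eps_le {c : ℝ} (hc0 : 0 < c) (hc1 : c < 1) {L : ℝ} (hL : 0 < L) (i : ℕ) (hi : 1 ≤ i) :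
    |iteratedDeriv i (fun w : ℝ => (1 + c) * ((L + w) ^ c - L ^ c)) 0 / i.factorial| ≤
      2 * L ^ (c - (i : ℝ)) := by
  obtain ⟨k, rfl⟩ : ∃ k, i = k + 1 := ⟨i - 1, by omega⟩
  have h1 : iteratedDeriv (k + 1) (fun w : ℝ => (1 + c) * ((L + w) ^ c - L ^ c)) 0 =
      (1 + c) * ((descPochhammer ℝ (k + 1)).eval c * L ^ (c - ((k + 1 : ℕ) : ℝ))) := by
    rw [iteratedDeriv_const_mul_field]
    congr 1
    have h2 : (fun w : ℝ => (L + w) ^ c - L ^ c) = fun w : ℝ => -(L ^ c) + (L + w) ^ c := by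
      funext w
      ring
    rw [h2, iteratedDeriv_const_add (Nat.succ_pos k),
      iteratedDeriv_comp_const_add (k + 1) (fun x : ℝ => x ^ c) L]
    simp only [add_zero]
    rw [iteratedDeriv_eq_iterate, Real.iter_deriv_rpow_const]
  rw [h1, abs_div, abs_mul, abs_mul]
  have hL0 : 0 < L ^ (c - ((k + 1 : ℕ) : ℝ)) := Real.rpow_pos_of_pos hL _
  have hf : (0 : ℝ) < ((k + 1).factorial : ℕ) := by exact_mod_cast (k + 1).factorial_pos
  rw [abs_of_pos hf, abs_of_pos hL0, abs_of_pos (by linarith : (0 : ℝ) < 1 + c),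
    div_le_iff₀ hf]
  have h3 := de_poch hc0 hc1 k
  have h4 : (k.factorial : ℝ) ≤ ((k + 1).factorial : ℕ) := by
    exact_mod_cast Nat.factorial_le (Nat.le_succ k)
  calc (1 + c) * (|(descPochhammer ℝ (k + 1)).eval c| * L ^ (c - ((k + 1 : ℕ) : ℝ)))
      ≤ 2 * (((k + 1).factorial : ℕ) * L ^ (c - ((k + 1 : ℕ) : ℝ))) := by
        refine mul_le_mul (by linarith) ?_ (by positivity) (by norm_num)
        exact mul_le_mul_of_nonneg_right (h3.trans h4) hL0.le
    _ = 2 * L ^ (c - ((k + 1 : ℕ) : ℝ)) * ((k + 1).factorial : ℕ) := by ring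

private theorem de_geo (n : ℕ) : ∑ i ∈ Finset.range n, ((1 : ℝ) / 2) ^ i ≤ 2 := by
  rw [geom_sum_eq (by norm_num)]
  have : (0 : ℝ) ≤ (1 / 2) ^ n := by positivity
  rw [div_le_iff_of_neg (by norm_num)]
  linarith

theorem em_le {c : ℝ} (hc0 : 0 < c) (hc1 : c < 1) {ρ L : ℝ} (hρ : 1 ≤ ρ) (hL : 2 * ρ ≤ L)
    (h : 8 * ρ ^ 2 * L ^ (c - 1) ≤ 1) (m : ℕ) (hm : 1 ≤ m) :
    |em c L m| ≤ 4 * ρ ^ 2 * L ^ (c - 1) / ρ ^ m := by
  have hL0 : 0 < L := by linarith
  have hρ0 : 0 < ρ := by linarith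
  have hLc : 0 < L ^ (c - 1) := Real.rpow_pos_of_pos hL0 _
  obtain ⟨e, he⟩ : ∃ e : ℕ → ℝ, e = fun i : ℕ =>
    iteratedDeriv i (fun w : ℝ => (1 + c) * ((L + w) ^ c - L ^ c)) 0 / i.factorial := ⟨_, rfl⟩
  obtain ⟨T, hT⟩ : ∃ T : ℝ, T = 2 * ρ ^ 2 * L ^ (c - 1) := ⟨_, rfl⟩
  have hT0 : 0 < T := by rw [hT]; positivity
  have hT1 : T ≤ 1 / 4 := by rw [hT]; linarith
  have he0 : e 0 = 0 := by
    rw [he]
    simp
  have hrec : ∀ m : ℕ, ((m : ℝ) + 1) * em c L (m + 1) =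
      ∑ i ∈ Finset.range (m + 1), e i * em c L (m - i) := by
    intro m
    rw [em_rec c hL0 m, he]
  have heps : ∀ i : ℕ, |e (i + 1)| * ρ ^ (i + 1) * ρ ≤ T * (1 / 2) ^ i := by
    intro i
    have h1 : |e (i + 1)| ≤ 2 * L ^ (c - ((i + 1 : ℕ) : ℝ)) := by
      rw [he]
      exact eps_le hc0 hc1 hL0 (i + 1) (by omega)
    have h2 : L ^ (c - ((i + 1 : ℕ) : ℝ)) = L ^ (c - 1) / L ^ i := by
      have : c - ((i + 1 : ℕ) : ℝ) = (c - 1) - (i : ℝ) := by
        push_cast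
        ring
      rw [this, Real.rpow_sub hL0, Real.rpow_natCast]
    rw [h2] at h1
    have h3 : ρ ^ i / L ^ i ≤ (1 / 2) ^ i := by
      rw [← div_pow]
      apply pow_le_pow_left₀ (by positivity)
      rw [div_le_iff₀ hL0]
      linarith
    calc |e (i + 1)| * ρ ^ (i + 1) * ρ = |e (i + 1)| * (ρ ^ (i + 1) * ρ) := by ring
      _ ≤ 2 * (L ^ (c - 1) / L ^ i) * (ρ ^ (i + 1) * ρ) :=
          mul_le_mul_of_nonneg_right h1 (by positivity)
      _ = T * (ρ ^ i / L ^ i) := by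
          rw [hT]
          ring
      _ ≤ T * (1 / 2) ^ i := mul_le_mul_of_nonneg_left h3 hT0.le
  -- the main induction
  have key : ∀ m : ℕ, 1 ≤ m → |em c L m| * ρ ^ m ≤ 2 * T := by
    intro m
    induction m using Nat.strong_induction_on with
    | _ m ih =>
      intro hm
      obtain ⟨n, rfl⟩ : ∃ n, m = n + 1 := ⟨m - 1, by omega⟩
      rcases Nat.eq_zero_or_pos n with rfl | hn
      · have h1 := hrec 0
        rw [Finset.sum_range_one, he0, zero_mul] at h1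
        have h2 : em c L (0 + 1) = 0 := by
          simpa using h1
        rw [h2]
        simp only [abs_zero, zero_mul]
        linarith
      · obtain ⟨k, rfl⟩ : ∃ k, n = k + 1 := ⟨n - 1, by omega⟩
        have h1 := hrec (k + 1)
        rw [Finset.sum_range_succ', he0, zero_mul, add_zero, Finset.sum_range_succ,
          Nat.sub_self, em_zero c hL0, mul_one] at h1
        have h2 : ∀ i ∈ Finset.range k, |e (i + 1) * em c L (k + 1 - (i + 1))| * ρ ^ (k + 1 + 1) ≤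
            2 * T ^ 2 * (1 / 2) ^ i := by
          intro i hi
          have hi' := Finset.mem_range.1 hi
          have h3 := ih (k + 1 - (i + 1)) (by omega) (by omega)
          have h4 : ρ ^ (k + 1 + 1) = ρ ^ (i + 1) * ρ * ρ ^ (k + 1 - (i + 1)) := by
            rw [← pow_succ, ← pow_add]
            congr 1
            omega
          rw [abs_mul, h4]
          calc |e (i + 1)| * |em c L (k + 1 - (i + 1))| *
                (ρ ^ (i + 1) * ρ * ρ ^ (k + 1 - (i + 1))) =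
                (|e (i + 1)| * ρ ^ (i + 1) * ρ) *
                  (|em c L (k + 1 - (i + 1))| * ρ ^ (k + 1 - (i + 1))) := by ring
            _ ≤ (T * (1 / 2) ^ i) * (2 * T) :=
                mul_le_mul (heps i) h3 (by positivity) (by positivity)
            _ = 2 * T ^ 2 * (1 / 2) ^ i := by ring
        have h5 : (((k + 1 : ℕ) : ℝ) + 1) * |em c L (k + 1 + 1)| * ρ ^ (k + 1 + 1) ≤
            2 * T ^ 2 * 2 + T := by
          have h6 : (((k + 1 : ℕ) : ℝ) + 1) * |em c L (k + 1 + 1)| ≤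
              (∑ i ∈ Finset.range k, |e (i + 1) * em c L (k + 1 - (i + 1))|) + |e (k + 1)| := by
            have h7 : (0 : ℝ) < ((k + 1 : ℕ) : ℝ) + 1 := by positivity
            rw [← abs_of_pos h7, ← abs_mul, h1]
            exact (abs_add_le _ _).trans (add_le_add_left (Finset.abs_sum_le_sum_abs _ _) _)
          have h8 := mul_le_mul_of_nonneg_right h6 (by positivity : 0 ≤ ρ ^ (k + 1 + 1))
          refine h8.trans ?_
          rw [add_mul, Finset.sum_mul]
          refine add_le_add ?_ ?_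
          · refine (Finset.sum_le_sum h2).trans ?_
            rw [← Finset.mul_sum]
            exact mul_le_mul_of_nonneg_left (de_geo k) (by positivity)
          · have h9 := heps k
            have h10 : T * (1 / 2) ^ k ≤ T := mul_le_of_le_one_right hT0.le
              (pow_le_one₀ (by norm_num) (by norm_num))
            calc |e (k + 1)| * ρ ^ (k + 1 + 1) = |e (k + 1)| * ρ ^ (k + 1) * ρ := by ring
              _ ≤ T * (1 / 2) ^ k := h9
              _ ≤ T := h10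
        have h11 : |em c L (k + 1 + 1)| * ρ ^ (k + 1 + 1) ≤
            (((k + 1 : ℕ) : ℝ) + 1) * |em c L (k + 1 + 1)| * ρ ^ (k + 1 + 1) := by
          have h12 : (1 : ℝ) ≤ ((k + 1 : ℕ) : ℝ) + 1 := by
            have : (0 : ℝ) ≤ ((k + 1 : ℕ) : ℝ) := Nat.cast_nonneg _
            linarith
          have h13 : 0 ≤ |em c L (k + 1 + 1)| * ρ ^ (k + 1 + 1) := by positivity
          calc |em c L (k + 1 + 1)| * ρ ^ (k + 1 + 1) ≤
                (((k + 1 : ℕ) : ℝ) + 1) * (|em c L (k + 1 + 1)| * ρ ^ (k + 1 + 1)) :=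
                le_mul_of_one_le_left h13 h12
            _ = _ := by ring
        have h14 : T ^ 2 ≤ 1 / 4 * T := by
          calc T ^ 2 = T * T := by ring
            _ ≤ 1 / 4 * T := mul_le_mul_of_nonneg_right hT1 hT0.le
        linarith
  have h1 := key m hm
  rw [le_div_iff₀ (by positivity)]
  rw [hT] at h1
  linarith

end Pool.Agent.VINO
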