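import Pool.Agent.VINO.Defs

/-!
# VINO / Dprod: the derivatives of `exp (L ^ (1 + c))`

PROOF of `gderiv`.  For all real `w`: `exp ((L+w)^(1+c)) = exp (L^(1+c)) * (exp (K w) * hh c L w)`,
`K = KK c L`. Both factors are smooth at `w = 0` (`L > 0`: `Real.contDiffAt_rpow_const_of_ne` for the
power). Take `iteratedDeriv j` at `w = 0`: the left side is `iteratedDeriv j (exp (·^(1+c))) L`
(`iteratedDeriv_comp_const_add`, `iteratedDeriv_comp_add_const`, ..), the right side is by the
Leibniz rule `exp (L^(1+c)) ∑_m (j choose m) K^(j-m) (hh c L)^(m)(0)`, and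
`(hh c L)^(m)(0) = m! em c L m`, `(j choose m) m! = j.descFactorial m` (`Nat.descFactorial_eq_factorial_mul_choose`).
The Leibniz rule: search `iteratedDeriv_mul`, `iteratedDerivWithin_mul`; the derivatives of
`exp (K w)`: `iteratedDeriv_exp_const_mul`.
`g_smooth`: composition of `exp` and the power.
-/

set_option autoImplicit false

namespace Pool.Agent.VINO

theorem g_smooth (c : ℝ) (n : ℕ) :
    ContDiffOn ℝ n (fun L : ℝ => Real.exp (L ^ (1 + c))) (Set.Ioi 0) := by
  intro L hL
  have hL' : (0 : ℝ) < L := hL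
  exact ((Real.contDiffAt_rpow_const_of_ne hL'.ne').exp).contDiffWithinAt

theorem hh_smooth (c : ℝ) {L : ℝ} (hL : 0 < L) (n : ℕ) : ContDiffAt ℝ n (hh c L) 0 := by
  unfold hh
  have h1 : ContDiffAt ℝ n (fun w : ℝ => (L + w) ^ (1 + c)) 0 := by
    have h2 : ContDiffAt ℝ n (fun w : ℝ => L + w) 0 := contDiffAt_const.add contDiffAt_id
    exact h2.rpow_const_of_ne (by simpa using hL.ne')
  have h3 : ContDiffAt ℝ n (fun w : ℝ => KK c L * w) 0 := contDiffAt_const.mul contDiffAt_id
  exact ((h1.sub contDiffAt_const).sub h3).exp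

theorem gderiv (c : ℝ) {L : ℝ} (hL : 0 < L) (j : ℕ) :
    iteratedDeriv j (fun L : ℝ => Real.exp (L ^ (1 + c))) L =
      Real.exp (L ^ (1 + c)) * ∑ m ∈ Finset.range (j + 1),
        em c L m * (j.descFactorial m : ℝ) * KK c L ^ (j - m) := by
  have h0 : (fun w : ℝ => Real.exp ((L + w) ^ (1 + c))) =
      fun w => Real.exp (L ^ (1 + c)) * (hh c L w * Real.exp (KK c L * w)) := by
    funext w
    unfold hh
    rw [← Real.exp_add, ← Real.exp_add]
    congr 1
    ring
  have h1 := congrFun (iteratedDeriv_comp_const_add j (fun L : ℝ => Real.exp (L ^ (1 + c))) L) 0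
  simp only [add_zero] at h1
  rw [← h1, h0, iteratedDeriv_const_mul_field]
  congr 1
  have hK : ContDiffAt ℝ j (fun w : ℝ => Real.exp (KK c L * w)) 0 :=
    (contDiffAt_const.mul contDiffAt_id).exp
  rw [iteratedDeriv_fun_mul (hh_smooth c hL j) hK]
  refine Finset.sum_congr rfl fun m _ => ?_
  rw [iteratedDeriv_exp_const_mul, Nat.descFactorial_eq_factorial_mul_choose]
  unfold em
  have : (m.factorial : ℝ) ≠ 0 := by exact_mod_cast m.factorial_ne_zero
  simp only [mul_zero, Real.exp_zero, mul_one]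
  push_cast
  field_simp

end Pool.Agent.VINO
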