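import Pool.Agent.VINO.Dlog
import Pool.Agent.VINO.Dprod

/-!
# VINO / Dform: the formula for the derivatives of `G`

PROOF.  `G c y = φ (log y)` with `φ L = exp (L^(1+c))`. `dlog`, `g_smooth`, `gderiv`, exchange the two
sums over `j` and `m ≤ j` (extend the inner sum to `m ≤ l`: `descFactorial j m = 0` for `m > j`), and
`∑_j coeff_j * (j.descFactorial m) * K^(j-m) = (derivative^[m] q).eval K`
(`Polynomial.coeff_iterate_derivative`, `Polynomial.eval_eq_sum_range'`, or
`Polynomial.iterate_derivative_X_pow_eq_natCast_mul` with linearity over the monomials).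
`G_smooth`: composition with `log`.
-/

set_option autoImplicit false

namespace Pool.Agent.VINO

open Polynomial in
private theorem df_eval (q : ℝ[X]) (l m : ℕ) (hq : q.natDegree < l + 1) (K : ℝ) :
    (derivative^[m] q).eval K =
      ∑ j ∈ Finset.range (l + 1), q.coeff j * (j.descFactorial m : ℝ) * K ^ (j - m) := by
  conv_lhs => rw [q.as_sum_range_C_mul_X_pow' hq]
  rw [Polynomial.iterate_derivative_sum, Polynomial.eval_finsetSum]
  refine Finset.sum_congr rfl fun j _ => ?_
  rw [Polynomial.iterate_derivative_C_mul, Polynomial.iterate_derivative_X_pow_eq_natCast_mul]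
  simp only [Polynomial.eval_mul, Polynomial.eval_C, Polynomial.eval_natCast, Polynomial.eval_pow,
    Polynomial.eval_X]
  ring

open Polynomial in
theorem dform (c : ℝ) (l : ℕ) (x : ℝ) (hx : 1 < x) :
    x ^ l * iteratedDeriv l (G c) x =
      G c x * ∑ m ∈ Finset.range (l + 1), em c (Real.log x) m *
        (derivative^[m] (descPochhammer ℝ l)).eval (KK c (Real.log x)) := by
  have hL : 0 < Real.log x := Real.log_pos hx
  have h1 : x ^ l * iteratedDeriv l (G c) x = ∑ j ∈ Finset.range (l + 1),
      (descPochhammer ℝ l).coeff j *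
        iteratedDeriv j (fun L : ℝ => Real.exp (L ^ (1 + c))) (Real.log x) :=
    dlog (fun L : ℝ => Real.exp (L ^ (1 + c))) (g_smooth c) l x hx
  have h2 : G c x = Real.exp (Real.log x ^ (1 + c)) := rfl
  have h3 : ∀ j ∈ Finset.range (l + 1), (descPochhammer ℝ l).coeff j *
      iteratedDeriv j (fun L : ℝ => Real.exp (L ^ (1 + c))) (Real.log x) =
      G c x * ∑ m ∈ Finset.range (l + 1), em c (Real.log x) m * ((descPochhammer ℝ l).coeff j *
        (j.descFactorial m : ℝ) * KK c (Real.log x) ^ (j - m)) := by
    intro j hj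
    have hjl : j + 1 ≤ l + 1 := by
      have := Finset.mem_range.1 hj
      omega
    rw [gderiv c hL j, ← h2]
    have h4 : ∑ m ∈ Finset.range (j + 1), em c (Real.log x) m * (j.descFactorial m : ℝ) *
        KK c (Real.log x) ^ (j - m) = ∑ m ∈ Finset.range (l + 1), em c (Real.log x) m *
        (j.descFactorial m : ℝ) * KK c (Real.log x) ^ (j - m) := by
      refine Finset.sum_subset (Finset.range_mono hjl) fun m _ hm => ?_
      have h5 : j < m := by
        rw [Finset.mem_range] at hm
        omega
      rw [Nat.descFactorial_eq_zero_iff_lt.2 h5]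
      simp
    rw [h4, Finset.mul_sum, Finset.mul_sum, Finset.mul_sum]
    refine Finset.sum_congr rfl fun m _ => ?_
    ring
  rw [h1, Finset.sum_congr rfl h3, ← Finset.mul_sum, Finset.sum_comm]
  congr 1
  refine Finset.sum_congr rfl fun m _ => ?_
  rw [← Finset.mul_sum, df_eval (descPochhammer ℝ l) l m]
  rw [descPochhammer_natDegree]
  omega

theorem G_smooth (c : ℝ) {x : ℝ} (hx : 1 < x) (n : ℕ) : ContDiffAt ℝ n (G c) x := by
  have hL : 0 < Real.log x := Real.log_pos hx
  have h1 : ContDiffAt ℝ n (fun L : ℝ => Real.exp (L ^ (1 + c))) (Real.log x) :=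
    (g_smooth c n).contDiffAt (Ioi_mem_nhds hL)
  have h2 : ContDiffAt ℝ n Real.log x := Real.contDiffAt_log.2 (by linarith)
  exact h1.comp x h2

end Pool.Agent.VINO
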