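import Pool.Agent.VINO.Defs

/-!
# VINO / Dlog: the derivatives of `φ (log x)`

PROOF.  `q l = descPochhammer ℝ l`, `q (l+1) = q l * (X - l)` (`descPochhammer_succ_right`), and write
`(q(D) φ)(L) = ∑_j q_j φ^(j)(L)`. Induction on `l`, the claim for all `x > 1` (an open set, so both sides
may be differentiated: equality near `x` gives equality of the derivatives,
`Filter.EventuallyEq.deriv_eq`). `F = φ ∘ log` is smooth on `x > 1` (`log x > 0`). From
`x^l F^(l)(x) = (q_l(D) φ)(log x)`:
`l x^(l-1) F^(l)(x) + x^l F^(l+1)(x) = (D q_l(D) φ)(log x) / x`. Multiply by `x`: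
`x^(l+1) F^(l+1)(x) = (D q_l(D) φ)(log x) - l (q_l(D) φ)(log x) = (q_(l+1)(D) φ)(log x)`
(coefficients of `q_l * X - l q_l`: `Polynomial.coeff_mul_X`, `coeff_C_mul`, ..).
`deriv` of `iteratedDeriv l F` is `iteratedDeriv (l+1) F` (`iteratedDeriv_succ`); `φ^(j)` is
differentiable at the points of `(0, ∞)` by `hφ` (`ContDiffOn.contDiffAt`,
`ContDiffAt.differentiableAt_iteratedDeriv` or via `iteratedDerivWithin`).
-/

set_option autoImplicit false

namespace Pool.Agent.VINO

private theorem dlog_diff (g : ℝ → ℝ) (x : ℝ) (h : ∀ n : ℕ, ContDiffAt ℝ n g x) (j : ℕ) :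
    DifferentiableAt ℝ (iteratedDeriv j g) x := by
  have h1 : ContDiffAt ℝ 1 (iteratedFDeriv ℝ j g) x :=
    (h (j + 1)).iteratedFDeriv_right (by push_cast; rw [add_comm])
  have h2 : DifferentiableAt ℝ (iteratedFDeriv ℝ j g) x := h1.differentiableAt (by norm_num)
  rw [iteratedDeriv_eq_equiv_comp]
  exact (LinearIsometryEquiv.differentiableAt _).comp x h2

private theorem dlog_coeff (l : ℕ) (f : ℕ → ℝ) :
    ∑ j ∈ Finset.range (l + 1 + 1), (descPochhammer ℝ (l + 1)).coeff j * f j =
      ∑ j ∈ Finset.range (l + 1), (descPochhammer ℝ l).coeff j * f (j + 1) -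
        l * ∑ j ∈ Finset.range (l + 1), (descPochhammer ℝ l).coeff j * f j := by
  have h0 : (descPochhammer ℝ l).coeff (l + 1) = 0 :=
    Polynomial.coeff_eq_zero_of_natDegree_lt (by rw [descPochhammer_natDegree]; omega)
  have h1 : ∀ j, (descPochhammer ℝ (l + 1)).coeff j =
      (descPochhammer ℝ l * Polynomial.X).coeff j - l * (descPochhammer ℝ l).coeff j := by
    intro j
    rw [descPochhammer_succ_right, mul_sub, Polynomial.coeff_sub]
    congr 1
    have : (l : Polynomial ℝ) = Polynomial.C (l : ℝ) := by simp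
    rw [this, Polynomial.coeff_mul_C, mul_comm]
  simp only [h1, sub_mul, Finset.sum_sub_distrib]
  congr 1
  · rw [Finset.sum_range_succ']
    simp only [Polynomial.coeff_mul_X, Polynomial.mul_coeff_zero, Polynomial.coeff_X_zero,
      mul_zero, zero_mul, add_zero]
  · rw [Finset.sum_range_succ, h0, mul_zero, zero_mul, add_zero, Finset.mul_sum]
    exact Finset.sum_congr rfl fun j _ => by ring

theorem dlog (φ : ℝ → ℝ) (hφ : ∀ n : ℕ, ContDiffOn ℝ n φ (Set.Ioi 0)) (l : ℕ) (x : ℝ)
    (hx : 1 < x) :
    x ^ l * iteratedDeriv l (fun y => φ (Real.log y)) x =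
      ∑ j ∈ Finset.range (l + 1), (descPochhammer ℝ l).coeff j * iteratedDeriv j φ (Real.log x) := by
  have hφ' : ∀ y : ℝ, 0 < y → ∀ n : ℕ, ContDiffAt ℝ n φ y := fun y hy n =>
    (hφ n).contDiffAt (Ioi_mem_nhds hy)
  have hF : ∀ y : ℝ, 1 < y → ∀ n : ℕ, ContDiffAt ℝ n (fun y => φ (Real.log y)) y := by
    intro y hy n
    have h1 : ContDiffAt ℝ n Real.log y := Real.contDiffAt_log.2 (by linarith)
    exact (hφ' _ (Real.log_pos hy) n).comp y h1
  induction l generalizing x with
  | zero =>
    simp
  | succ l ih =>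
    have hx0 : x ≠ 0 := by linarith
    have hL : 0 < Real.log x := Real.log_pos hx
    have e1 : HasDerivAt (iteratedDeriv l fun y => φ (Real.log y))
        (iteratedDeriv (l + 1) (fun y => φ (Real.log y)) x) x := by
      rw [iteratedDeriv_succ]
      exact (dlog_diff _ x (hF x hx) l).hasDerivAt
    have e2 : HasDerivAt (fun y => y ^ l * iteratedDeriv l (fun y => φ (Real.log y)) y)
        ((l : ℝ) * x ^ (l - 1) * iteratedDeriv l (fun y => φ (Real.log y)) x +
          x ^ l * iteratedDeriv (l + 1) (fun y => φ (Real.log y)) x) x :=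
      (hasDerivAt_pow l x).mul e1
    have e3 : HasDerivAt (fun y => ∑ j ∈ Finset.range (l + 1),
        (descPochhammer ℝ l).coeff j * iteratedDeriv j φ (Real.log y))
        (∑ j ∈ Finset.range (l + 1),
          (descPochhammer ℝ l).coeff j * (iteratedDeriv (j + 1) φ (Real.log x) * x⁻¹)) x := by
      refine HasDerivAt.fun_sum fun j _ => ?_
      have h1 : HasDerivAt (iteratedDeriv j φ) (iteratedDeriv (j + 1) φ (Real.log x))
          (Real.log x) := by
        rw [iteratedDeriv_succ]
        exact (dlog_diff _ _ (hφ' _ hL) j).hasDerivAt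
      exact (h1.comp x (Real.hasDerivAt_log hx0)).const_mul _
    have e4 : (fun y => y ^ l * iteratedDeriv l (fun y => φ (Real.log y)) y) =ᶠ[nhds x]
        (fun y => ∑ j ∈ Finset.range (l + 1),
          (descPochhammer ℝ l).coeff j * iteratedDeriv j φ (Real.log y)) := by
      filter_upwards [Ioi_mem_nhds hx] with y hy
      exact ih y hy
    have e5 := e2.unique (e3.congr_of_eventuallyEq e4)
    have e6 : (l : ℝ) * x ^ (l - 1) * x = l * x ^ l := by
      rcases l with _ | l
      · simp
      · rw [Nat.add_sub_cancel, pow_succ]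
        ring
    have e7 : ∑ j ∈ Finset.range (l + 1),
        (descPochhammer ℝ l).coeff j * (iteratedDeriv (j + 1) φ (Real.log x) * x⁻¹) =
        (∑ j ∈ Finset.range (l + 1),
          (descPochhammer ℝ l).coeff j * iteratedDeriv (j + 1) φ (Real.log x)) * x⁻¹ := by
      rw [Finset.sum_mul]
      exact Finset.sum_congr rfl fun j _ => by ring
    rw [e7] at e5
    have e8 : (l : ℝ) * x ^ l * iteratedDeriv l (fun y => φ (Real.log y)) x +
        x ^ (l + 1) * iteratedDeriv (l + 1) (fun y => φ (Real.log y)) x =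
        ∑ j ∈ Finset.range (l + 1),
          (descPochhammer ℝ l).coeff j * iteratedDeriv (j + 1) φ (Real.log x) := by
      calc _ = ((l : ℝ) * x ^ (l - 1) * x) * iteratedDeriv l (fun y => φ (Real.log y)) x +
            x ^ (l + 1) * iteratedDeriv (l + 1) (fun y => φ (Real.log y)) x := by rw [e6]
        _ = ((l : ℝ) * x ^ (l - 1) * iteratedDeriv l (fun y => φ (Real.log y)) x +
          x ^ l * iteratedDeriv (l + 1) (fun y => φ (Real.log y)) x) * x := by
            rw [pow_succ]
            ring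
        _ = _ := by rw [e5, mul_assoc, inv_mul_cancel₀ hx0, mul_one]
    rw [dlog_coeff l fun j => iteratedDeriv j φ (Real.log x), ← e8, ← ih x hx]
    ring

end Pool.Agent.VINO
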