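import Mathlib

/-!
# VINO / Dpoch: derivatives of the falling factorial polynomials

PROOFS.  `q_(l+1) = q_l (X - l)` (`descPochhammer_succ_right`), so
`(derivative^[m] q_(l+1)).eval K = (derivative^[m] q_l).eval K * (K - l) + m (derivative^[m-1] q_l).eval K`
(Leibniz, or induction on `m`: `Polynomial.iterate_derivative_mul..`; state it first).
`poch_bound`: induction on `l` for all `m`; with `S_l = ∑_{i<l} 1/(K - i)`:
`≤ q_l(K) S_l^m (K - l) + m q_l(K) S_l^(m-1) = q_(l+1)(K) (S_l^m + m S_l^(m-1) / (K - l))
≤ q_(l+1)(K) (S_l + 1/(K-l))^m` (the first two terms of the binomial expansion, all terms are `≥ 0`).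
`poch_abs`: induction: `≤ (l.descFactorial m) M^(l-m) M + m (l.descFactorial (m-1)) M^(l-m+1)
= M^(l+1-m) ((l+1).descFactorial m)` (natural subtraction: treat `m = 0`, `m ≤ l`, `m = l+1`, `m > l+1`).
`poch_eval`: `q_l(K) = ∏_{i<l} (K - i)` (`descPochhammer_eval_eq_prod_range`).
`poch_fact`: `K - i ≥ l - i`, `∏_{i<l} (l - i) = l!`. `poch_le`: `0 ≤ K - i ≤ K`.
-/

set_option autoImplicit false

namespace Pool.Agent.VINO

open Polynomial

theorem poch_eval (l : ℕ) (K : ℝ) :
    (descPochhammer ℝ l).eval K = ∏ i ∈ Finset.range l, (K - i) := by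
  exact descPochhammer_eval_eq_prod_range l K

theorem poch_leib (p : ℝ[X]) (a : ℝ) (m : ℕ) :
    derivative^[m + 1] (p * (X - C a)) =
      derivative^[m + 1] p * (X - C a) + ((m + 1 : ℕ) : ℝ[X]) * derivative^[m] p := by
  induction m with
  | zero =>
    simp
  | succ m ih =>
    rw [Function.iterate_succ_apply', ih, derivative_add, derivative_mul, derivative_mul,
      derivative_natCast, zero_mul, zero_add, derivative_sub, derivative_X, derivative_C,
      sub_zero, mul_one, ← Function.iterate_succ_apply' derivative (m + 1) p,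
      ← Function.iterate_succ_apply' derivative m p]
    push_cast
    ring

theorem poch_rec (l m : ℕ) (K : ℝ) :
    (derivative^[m + 1] (descPochhammer ℝ (l + 1))).eval K =
      (derivative^[m + 1] (descPochhammer ℝ l)).eval K * (K - l) +
        (m + 1) * (derivative^[m] (descPochhammer ℝ l)).eval K := by
  rw [descPochhammer_succ_right]
  have h : ((l : ℕ) : ℝ[X]) = C (l : ℝ) := (C_eq_natCast l).symm
  rw [h, poch_leib]
  simp

theorem poch_rec0 (l : ℕ) (K : ℝ) :
    (descPochhammer ℝ (l + 1)).eval K = (descPochhammer ℝ l).eval K * (K - l) := by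
  rw [poch_eval, poch_eval, Finset.prod_range_succ]

theorem poch_binom {S t : ℝ} (hS : 0 ≤ S) (ht : 0 ≤ t) (m : ℕ) :
    S ^ (m + 1) + (m + 1) * S ^ m * t ≤ (S + t) ^ (m + 1) := by
  induction m with
  | zero => simp
  | succ m ih =>
    have h1 : (S ^ (m + 1) + (m + 1) * S ^ m * t) * (S + t) ≤ (S + t) ^ (m + 1 + 1) := by
      rw [pow_succ (S + t) (m + 1)]
      exact mul_le_mul_of_nonneg_right ih (by positivity)
    have h2 : 0 ≤ ((m : ℝ) + 1) * S ^ m * t * t := by positivity
    have h3 : (S ^ (m + 1) + (m + 1) * S ^ m * t) * (S + t) =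
        S ^ (m + 1 + 1) + ((m : ℝ) + 1 + 1) * S ^ (m + 1) * t + ((m : ℝ) + 1) * S ^ m * t * t := by
      ring
    push_cast
    linarith

theorem poch_nonneg {l : ℕ} {K : ℝ} (h : ∀ i < l, (i : ℝ) < K) :
    0 ≤ (descPochhammer ℝ l).eval K := by
  rw [poch_eval]
  exact Finset.prod_nonneg fun i hi => (sub_pos.2 (h i (Finset.mem_range.1 hi))).le

theorem poch_bound {l : ℕ} {K : ℝ} (h : ∀ i < l, (i : ℝ) < K) (m : ℕ) :
    0 ≤ (derivative^[m] (descPochhammer ℝ l)).eval K ∧
      (derivative^[m] (descPochhammer ℝ l)).eval K ≤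
        (descPochhammer ℝ l).eval K * (∑ i ∈ Finset.range l, 1 / (K - i)) ^ m := by
  induction l generalizing m with
  | zero =>
    cases m with
    | zero => simp
    | succ m =>
      have : derivative^[m + 1] (descPochhammer ℝ 0) = 0 := by
        rw [descPochhammer_zero, Function.iterate_succ_apply, derivative_one,
          iterate_map_zero]
      rw [this]
      simp
  | succ l ih =>
    have h' : ∀ i < l, (i : ℝ) < K := fun i hi => h i (by omega)
    cases m with
    | zero =>
      have := poch_nonneg h
      simpa using this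
    | succ m =>
      have hl : 0 < K - l := sub_pos.2 (h l (by omega))
      obtain ⟨a1, a2⟩ := ih h' (m + 1)
      obtain ⟨b1, b2⟩ := ih h' m
      have hq := poch_nonneg h'
      set S := ∑ i ∈ Finset.range l, 1 / (K - i) with hS
      have hS0 : 0 ≤ S := Finset.sum_nonneg fun i hi =>
        (one_div_pos.2 (sub_pos.2 (h' i (Finset.mem_range.1 hi)))).le
      rw [poch_rec, Finset.sum_range_succ, ← hS, poch_rec0]
      refine ⟨by positivity, ?_⟩
      have ht : 0 ≤ 1 / (K - l) := by positivity
      have h1 := poch_binom hS0 ht m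
      have h2 : (descPochhammer ℝ l).eval K * (K - l) *
          (S ^ (m + 1) + (m + 1) * S ^ m * (1 / (K - l))) ≤
          (descPochhammer ℝ l).eval K * (K - l) * (S + 1 / (K - l)) ^ (m + 1) :=
        mul_le_mul_of_nonneg_left h1 (by positivity)
      have h3 : (descPochhammer ℝ l).eval K * (K - l) *
          (S ^ (m + 1) + (m + 1) * S ^ m * (1 / (K - l))) =
          (descPochhammer ℝ l).eval K * S ^ (m + 1) * (K - l) +
            (m + 1) * ((descPochhammer ℝ l).eval K * S ^ m) := by
        field_simp
      have h4 := mul_le_mul_of_nonneg_right a2 hl.le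
      have h5 : ((m : ℝ) + 1) * (derivative^[m] (descPochhammer ℝ l)).eval K ≤
          (m + 1) * ((descPochhammer ℝ l).eval K * S ^ m) :=
        mul_le_mul_of_nonneg_left b2 (by positivity)
      linarith

theorem poch_abs {l : ℕ} {K M : ℝ} (hM : 1 ≤ M) (h : ∀ i < l, |K - i| ≤ M) (m : ℕ) :
    |(derivative^[m] (descPochhammer ℝ l)).eval K| ≤ (l.descFactorial m : ℝ) * M ^ (l - m) := by
  have hM0 : 0 ≤ M := by linarith
  induction l generalizing m with
  | zero =>
    cases m with
    | zero => simp
    | succ m =>
      have : derivative^[m + 1] (descPochhammer ℝ 0) = 0 := by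
        rw [descPochhammer_zero, Function.iterate_succ_apply, derivative_one,
          iterate_map_zero]
      rw [this]
      simp
  | succ l ih =>
    have h' : ∀ i < l, |K - i| ≤ M := fun i hi => h i (by omega)
    have hl : |K - l| ≤ M := h l (by omega)
    cases m with
    | zero =>
      have h0 := ih h' 0
      rw [Function.iterate_zero, id] at h0
      rw [Function.iterate_zero, id, poch_rec0, abs_mul]
      simp only [Nat.descFactorial_zero, Nat.cast_one, one_mul, Nat.sub_zero] at h0 ⊢
      rw [pow_succ]
      exact mul_le_mul h0 hl (abs_nonneg _) (by positivity)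
    | succ m =>
      have a := ih h' (m + 1)
      have b := ih h' m
      rw [poch_rec]
      have h1 : |(derivative^[m + 1] (descPochhammer ℝ l)).eval K * (K - l) +
        (m + 1) * (derivative^[m] (descPochhammer ℝ l)).eval K| ≤
          (l.descFactorial (m + 1) : ℝ) * M ^ (l - (m + 1)) * M +
          (m + 1) * ((l.descFactorial m : ℝ) * M ^ (l - m)) := by
        refine (abs_add_le _ _).trans (add_le_add ?_ ?_)
        · rw [abs_mul]
          exact mul_le_mul a hl (abs_nonneg _) (by positivity)
        · rw [abs_mul, abs_of_nonneg (by positivity : (0 : ℝ) ≤ (m : ℝ) + 1)]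
          exact mul_le_mul_of_nonneg_left b (by positivity)
      refine h1.trans (le_of_eq ?_)
      rw [Nat.succ_descFactorial_succ, Nat.descFactorial_succ, Nat.add_sub_add_right]
      rcases lt_trichotomy m l with hml | hml | hml
      · obtain ⟨k, rfl⟩ : ∃ k, l = m + 1 + k := ⟨l - (m + 1), by omega⟩
        have e1 : m + 1 + k - (m + 1) = k := by omega
        have e2 : m + 1 + k - m = k + 1 := by omega
        rw [e1, e2]
        push_cast
        ring
      · subst hml
        rw [Nat.sub_self]
        push_cast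
        ring
      · have e3 : l.descFactorial m = 0 := Nat.descFactorial_eq_zero_iff_lt.2 hml
        rw [e3]
        simp

theorem poch_fact {l : ℕ} {K : ℝ} (h : (l : ℝ) ≤ K) :
    (l.factorial : ℝ) ≤ (descPochhammer ℝ l).eval K := by
  have h1 : (descPochhammer ℝ l).eval (l : ℝ) = (l.factorial : ℝ) := by
    rw [descPochhammer_eval_eq_descFactorial, Nat.descFactorial_self]
  rw [← h1, poch_eval, poch_eval]
  apply Finset.prod_le_prod
  · intro i hi
    have : (i : ℝ) ≤ l := by exact_mod_cast (Finset.mem_range.1 hi).le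
    linarith
  · intro i _
    linarith

theorem poch_le {l : ℕ} {K : ℝ} (h : (l : ℝ) ≤ K) : (descPochhammer ℝ l).eval K ≤ K ^ l := by
  rw [poch_eval]
  calc ∏ i ∈ Finset.range l, (K - i) ≤ ∏ _i ∈ Finset.range l, K := by
        apply Finset.prod_le_prod
        · intro i hi
          have : (i : ℝ) ≤ l := by exact_mod_cast (Finset.mem_range.1 hi).le
          linarith
        · intro i _
          have : (0 : ℝ) ≤ i := Nat.cast_nonneg i
          linarith
    _ = K ^ l := by rw [Finset.prod_const, Finset.card_range]

end Pool.Agent.VINO
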