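import Pool.Agent.VINO.Dtwo

/-!
# VINO / Dstep: consecutive derivatives of `G` near `x`

PROOF.  `L = log x`, `K = KK c L`, `L' = log ξ ∈ [L, L + r/x]` (`log (1 + r/x) ≤ r/x`), `K' = KK c L' ≥ K`.
Apply `dtwo` at `ξ` to `l + 1 ≤ (1-η) K ≤ (1-η) K'` and at `x` to `l`:
`0 < (1/2) G(ξ) ξ^(-l-1) q_(l+1)(K') ≤ G^(l+1)(ξ) ≤ (3/2) G(ξ) ξ^(-l-1) q_(l+1)(K')`,
`G^(l)(x) ≥ (1/2) G(x) x^(-l) q_l(K) > 0`, `q_(l+1)(K') = q_l(K') (K' - l) ≤ q_l(K') K'`. So the quotient is at most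
`3 (G(ξ)/G(x)) (1/x) (q_l(K')/q_l(K)) K'` and each of `G(ξ)/G(x)`, `q_l(K')/q_l(K)`, `K'/K` is at most `2` for
large `x` (`3 * 8 = 24 ≤ 30`):
`G(ξ)/G(x) = exp (L'^(1+c) - L^(1+c)) ≤ exp ((1+c) L'^c (r/x))` (mean value) and `log x ^ c / x → 0`;
`K' - K ≤ 2 (L' - L) ≤ 2 r/x` (`L ↦ L^c` is `1`-Lipschitz for `L ≥ 1`, `c < 1`);
`q_l(K')/q_l(K) = ∏_{i<l} (1 + (K'-K)/(K-i)) ≤ exp (l (K'-K) / (η K)) ≤ exp ((K'-K)/η)`
(`K - i ≥ η K`, `l ≤ K`, `poch_eval`).
-/

set_option autoImplicit false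

namespace Pool.Agent.VINO

theorem dstep_pos {l : ℕ} {K : ℝ} (h : (l : ℝ) ≤ K) : 0 < (descPochhammer ℝ l).eval K :=
  lt_of_lt_of_le (by exact_mod_cast l.factorial_pos) (poch_fact h)

theorem dstep_half {y : ℝ} (h : y ≤ 1 / 2) : Real.exp y ≤ 2 := by
  have h1 := Real.log_two_gt_d9
  calc Real.exp y ≤ Real.exp (Real.log 2) := Real.exp_le_exp.2 (by linarith)
    _ = 2 := Real.exp_log (by norm_num)

theorem dstep_rpow {c L L' : ℝ} (hc0 : 0 < c) (hc1 : c < 1) (hL : 1 ≤ L) (hLL : L ≤ L') :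
    L' ^ c - L ^ c ≤ L ^ c * ((L' - L) / L) := by
  have h0 : 0 < L := by linarith
  have h1 : L' ^ c = L ^ c * (1 + (L' - L) / L) ^ c := by
    rw [← Real.mul_rpow h0.le (by
      have : 0 ≤ (L' - L) / L := div_nonneg (by linarith) h0.le
      linarith)]
    congr 1
    field_simp
    ring
  have h2 : (1 + (L' - L) / L) ^ c ≤ 1 + c * ((L' - L) / L) := by
    apply rpow_one_add_le_one_add_mul_self _ hc0.le hc1.le
    have : 0 ≤ (L' - L) / L := div_nonneg (by linarith) h0.le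
    linarith
  have h3 : 0 ≤ L ^ c := Real.rpow_nonneg h0.le _
  have h4 : 0 ≤ (L' - L) / L := div_nonneg (by linarith) h0.le
  rw [h1]
  have h5 : (1 + (L' - L) / L) ^ c ≤ 1 + (L' - L) / L := by nlinarith
  nlinarith

theorem dstep_prod {l : ℕ} {K K' η : ℝ} (hη : 0 < η) (hK : 0 < K) (hKK : K ≤ K')
    (hl : (l : ℝ) ≤ (1 - η) * K) (h : K' - K ≤ η / 2) :
    (descPochhammer ℝ l).eval K' ≤ 2 * (descPochhammer ℝ l).eval K := by
  rw [poch_eval, poch_eval]
  have h1 : ∀ i ∈ Finset.range l, K' - i ≤ (K - i) * Real.exp ((K' - K) / (η * K)) := by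
    intro i hi
    have hil : (i : ℝ) ≤ l := by exact_mod_cast (Finset.mem_range.1 hi).le
    have h2 : η * K ≤ K - i := by linarith
    have h3 : 0 < η * K := mul_pos hη hK
    have h4 : (K' - K) / (η * K) + 1 ≤ Real.exp ((K' - K) / (η * K)) := Real.add_one_le_exp _
    have h5 : K' - K ≤ (K - i) * ((K' - K) / (η * K)) := by
      rw [← mul_div_assoc, le_div_iff₀ h3, mul_comm]
      exact mul_le_mul_of_nonneg_right h2 (by linarith)
    nlinarith
  have h6 : ∀ i ∈ Finset.range l, 0 ≤ K' - i := by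
    intro i hi
    have hil : (i : ℝ) ≤ l := by exact_mod_cast (Finset.mem_range.1 hi).le
    nlinarith [mul_pos hη hK]
  have h7 : 0 ≤ ∏ i ∈ Finset.range l, (K - i) := by
    refine Finset.prod_nonneg fun i hi => ?_
    have hil : (i : ℝ) ≤ l := by exact_mod_cast (Finset.mem_range.1 hi).le
    nlinarith [mul_pos hη hK]
  calc ∏ i ∈ Finset.range l, (K' - i)
      ≤ ∏ i ∈ Finset.range l, ((K - i) * Real.exp ((K' - K) / (η * K))) :=
        Finset.prod_le_prod h6 h1
    _ = (∏ i ∈ Finset.range l, (K - i)) * Real.exp ((K' - K) / (η * K)) ^ l := by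
        rw [Finset.prod_mul_distrib, Finset.prod_const, Finset.card_range]
    _ ≤ (∏ i ∈ Finset.range l, (K - i)) * 2 := by
        refine mul_le_mul_of_nonneg_left ?_ h7
        rw [← Real.exp_nat_mul]
        apply dstep_half
        have h3 : 0 < η * K := mul_pos hη hK
        rw [← mul_div_assoc, div_le_iff₀ h3]
        have h8 : (l : ℝ) ≤ K := by nlinarith
        have h9 : (l : ℝ) * (K' - K) ≤ K * (η / 2) :=
          mul_le_mul h8 h (by linarith) hK.le
        linarith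
    _ = _ := by ring

theorem dstep {c η : ℝ} (hc0 : 0 < c) (hc1 : c < 1) (hη0 : 0 < η) (hη1 : η < 1) (r : ℕ) :
    ∃ L₀ : ℝ, 1 ≤ L₀ ∧ ∀ x : ℝ, 0 < x → L₀ ≤ Real.log x → ∀ l : ℕ,
      (l : ℝ) + 1 ≤ (1 - η) * KK c (Real.log x) → ∀ ξ ∈ Set.Icc x (x + r),
      0 < iteratedDeriv l (G c) x ∧ 0 < iteratedDeriv (l + 1) (G c) ξ ∧
      iteratedDeriv (l + 1) (G c) ξ ≤
        30 * KK c (Real.log x) / x * iteratedDeriv l (G c) x := by
  obtain ⟨L₁, hL₁, hd⟩ := dtwo hc0 hc1 hη0 hη1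
  refine ⟨max L₁ (max 2 (max (16 * (r : ℝ)) (4 * r / η))), le_max_of_le_left hL₁, ?_⟩
  intro x hx hL l hl ξ hξ
  have hLL₁ : L₁ ≤ Real.log x := (le_max_left _ _).trans hL
  have hL2 : 2 ≤ Real.log x := ((le_max_left _ _).trans (le_max_right _ _)).trans hL
  have hLr : 16 * (r : ℝ) ≤ Real.log x :=
    (((le_max_left _ _).trans (le_max_right _ _)).trans (le_max_right _ _)).trans hL
  have hLη : 4 * (r : ℝ) / η ≤ Real.log x :=
    (((le_max_right _ _).trans (le_max_right _ _)).trans (le_max_right _ _)).trans hL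
  have hr0 : (0 : ℝ) ≤ r := Nat.cast_nonneg _
  have hxq : Real.log x ^ 2 / 2 ≤ x := by
    have := Real.quadratic_le_exp_of_nonneg (show 0 ≤ Real.log x by linarith)
    rw [Real.exp_log hx] at this
    linarith
  have hxL : Real.log x < x := by
    have := Real.add_one_le_exp (Real.log x)
    rw [Real.exp_log hx] at this
    linarith
  have hxξ : x ≤ ξ := hξ.1
  have hξ0 : 0 < ξ := by linarith
  have hξ2 : ξ ≤ 2 * x := by linarith [hξ.2]
  set L : ℝ := Real.log x with hLdef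
  set L' : ℝ := Real.log ξ with hL'def
  have hLL' : L ≤ L' := Real.log_le_log hx hxξ
  have hL'2 : L' ≤ 2 * L := by
    have h1 : L' ≤ Real.log (2 * x) := Real.log_le_log hξ0 hξ2
    rw [Real.log_mul (by norm_num) hx.ne'] at h1
    have h2 : Real.log 2 ≤ 1 := by
      have := Real.log_le_sub_one_of_pos (show (0 : ℝ) < 2 by norm_num)
      linarith
    linarith
  have hdL : L' - L ≤ r / x := by
    have h1 : L' - L = Real.log (ξ / x) := by
      rw [Real.log_div hξ0.ne' hx.ne']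
    rw [h1]
    have h2 := Real.log_le_sub_one_of_pos (div_pos hξ0 hx)
    have h3 : ξ / x - 1 ≤ r / x := by
      rw [div_sub_one hx.ne']
      exact div_le_div_of_nonneg_right (by linarith [hξ.2]) hx.le
    linarith
  have hL0 : 0 < L := by linarith
  have hLc : 0 < L ^ c := Real.rpow_pos_of_pos hL0 c
  have hLcL : L ^ c ≤ L := by
    calc L ^ c ≤ L ^ (1 : ℝ) := Real.rpow_le_rpow_of_exponent_le (by linarith) hc1.le
      _ = L := Real.rpow_one L
  have hLc' : L ^ c ≤ L' ^ c := Real.rpow_le_rpow hL0.le hLL' hc0.le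
  have hL'cL : L' ^ c ≤ L' := by
    calc L' ^ c ≤ L' ^ (1 : ℝ) := Real.rpow_le_rpow_of_exponent_le (by linarith) hc1.le
      _ = L' := Real.rpow_one L'
  have hdc : L' ^ c - L ^ c ≤ L ^ c * ((L' - L) / L) := dstep_rpow hc0 hc1 (by linarith) hLL'
  have hdc1 : L' ^ c - L ^ c ≤ L' - L := by
    refine hdc.trans ?_
    rw [← mul_div_assoc, div_le_iff₀ hL0]
    nlinarith
  have hdcL : L * (L' ^ c - L ^ c) ≤ L ^ c * (L' - L) := by
    have h1 : L * (L ^ c * ((L' - L) / L)) = L ^ c * (L' - L) := by field_simp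
    rw [← h1]
    exact mul_le_mul_of_nonneg_left hdc hL0.le
  have hK : 0 < KK c L := mul_pos (by linarith) hLc
  have hKK : KK c L ≤ KK c L' := mul_le_mul_of_nonneg_left hLc' (by linarith)
  have hrx : (r : ℝ) / x ≤ η / 4 := by
    rw [div_le_iff₀ hx]
    rw [div_le_iff₀ hη0] at hLη
    nlinarith
  have hKdiff : KK c L' - KK c L ≤ η / 2 := by
    have h1 : KK c L' - KK c L = (1 + c) * (L' ^ c - L ^ c) := by unfold KK; ring
    rw [h1]
    nlinarith
  have hKtwo : KK c L' ≤ 2 * KK c L := by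
    have h1 : L' ^ c ≤ (2 * L) ^ c := Real.rpow_le_rpow (by linarith) hL'2 hc0.le
    have h2 : (2 * L) ^ c = 2 ^ c * L ^ c := Real.mul_rpow (by norm_num) hL0.le
    have h3 : (2 : ℝ) ^ c ≤ 2 := by
      calc (2 : ℝ) ^ c ≤ 2 ^ (1 : ℝ) := Real.rpow_le_rpow_of_exponent_le (by norm_num) hc1.le
        _ = 2 := Real.rpow_one 2
    have h4 : L' ^ c ≤ 2 * L ^ c := by
      rw [h2] at h1
      exact h1.trans (mul_le_mul_of_nonneg_right h3 hLc.le)
    unfold KK
    nlinarith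
  have hGG : G c ξ ≤ 2 * G c x := by
    have h1 : L' ^ (1 + c) - L ^ (1 + c) ≤ 1 / 2 := by
      have e1 : L' ^ (1 + c) = L' * L' ^ c := by
        rw [Real.rpow_add (by linarith), Real.rpow_one]
      have e2 : L ^ (1 + c) = L * L ^ c := by
        rw [Real.rpow_add hL0, Real.rpow_one]
      rw [e1, e2]
      have h2 : L' * L' ^ c - L * L ^ c = (L' - L) * L' ^ c + L * (L' ^ c - L ^ c) := by ring
      rw [h2]
      have h3 : (L' - L) * L' ^ c ≤ r / x * (2 * L) :=
        mul_le_mul hdL (hL'cL.trans hL'2) (Real.rpow_nonneg (by linarith) _) (by positivity)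
      have h4 : L ^ c * (L' - L) ≤ L * (r / x) :=
        mul_le_mul hLcL hdL (by linarith) hL0.le
      have h5 : (r : ℝ) / x * L ≤ 1 / 8 := by
        rw [div_mul_eq_mul_div, div_le_iff₀ hx]
        nlinarith
      nlinarith
    have h6 : G c ξ = G c x * Real.exp (L' ^ (1 + c) - L ^ (1 + c)) := by
      unfold G
      rw [← Real.exp_add]
      congr 1
      ring
    rw [h6]
    have h7 := dstep_half h1
    have h8 : 0 < G c x := Real.exp_pos _
    nlinarith
  have hGx : 0 < G c x := Real.exp_pos _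
  have hGξ : 0 < G c ξ := Real.exp_pos _
  have hl1 : (l : ℝ) ≤ (1 - η) * KK c L := by linarith
  have hlK : (l : ℝ) ≤ KK c L := by nlinarith
  have hl' : ((l + 1 : ℕ) : ℝ) ≤ (1 - η) * KK c L' := by
    push_cast
    nlinarith
  have hlK' : ((l + 1 : ℕ) : ℝ) ≤ KK c L' := by nlinarith
  have hqx : 0 < (descPochhammer ℝ l).eval (KK c L) := dstep_pos hlK
  have hqx' : 0 < (descPochhammer ℝ l).eval (KK c L') := dstep_pos (hlK.trans hKK)
  have hqξ : 0 < (descPochhammer ℝ (l + 1)).eval (KK c L') := dstep_pos hlK'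
  obtain ⟨hx1, -⟩ := hd x hx hLL₁ l hl1
  obtain ⟨hξ1, hξ2'⟩ := hd ξ hξ0 (hLL₁.trans hLL') (l + 1) hl'
  have hxl : 0 < x ^ l := pow_pos hx l
  have hξl : 0 < ξ ^ (l + 1) := pow_pos hξ0 _
  have hpos1 : 0 < iteratedDeriv l (G c) x := by
    have : 0 < x ^ l * iteratedDeriv l (G c) x := lt_of_lt_of_le (by positivity) hx1
    exact pos_of_mul_pos_right this hxl.le
  have hpos2 : 0 < iteratedDeriv (l + 1) (G c) ξ := by
    have : 0 < ξ ^ (l + 1) * iteratedDeriv (l + 1) (G c) ξ := lt_of_lt_of_le (by positivity) hξ1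
    exact pos_of_mul_pos_right this hξl.le
  refine ⟨hpos1, hpos2, ?_⟩
  have hq : (descPochhammer ℝ (l + 1)).eval (KK c L') ≤ 4 * KK c L * (descPochhammer ℝ l).eval (KK c L) := by
    have e1 : (descPochhammer ℝ (l + 1)).eval (KK c L')
        = (descPochhammer ℝ l).eval (KK c L') * (KK c L' - l) := by
      rw [poch_eval, poch_eval, Finset.prod_range_succ]
    have e2 := dstep_prod hη0 hK hKK hl1 hKdiff
    rw [e1]
    have e3 : KK c L' - l ≤ 2 * KK c L := by
      have : (0 : ℝ) ≤ l := Nat.cast_nonneg _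
      linarith
    calc (descPochhammer ℝ l).eval (KK c L') * (KK c L' - l)
        ≤ (descPochhammer ℝ l).eval (KK c L') * (2 * KK c L) :=
          mul_le_mul_of_nonneg_left e3 hqx'.le
      _ ≤ (2 * (descPochhammer ℝ l).eval (KK c L)) * (2 * KK c L) :=
          mul_le_mul_of_nonneg_right e2 (by linarith)
      _ = _ := by ring
  have hA : x ^ (l + 1) * iteratedDeriv (l + 1) (G c) ξ
      ≤ 12 * (G c x * (KK c L * (descPochhammer ℝ l).eval (KK c L))) := by
    calc x ^ (l + 1) * iteratedDeriv (l + 1) (G c) ξ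
        ≤ ξ ^ (l + 1) * iteratedDeriv (l + 1) (G c) ξ :=
          mul_le_mul_of_nonneg_right (pow_le_pow_left₀ hx.le hxξ _) hpos2.le
      _ ≤ 3 / 2 * (G c ξ * (descPochhammer ℝ (l + 1)).eval (KK c L')) := hξ2'
      _ ≤ 3 / 2 * ((2 * G c x) * (4 * KK c L * (descPochhammer ℝ l).eval (KK c L))) := by
          refine mul_le_mul_of_nonneg_left ?_ (by norm_num)
          exact mul_le_mul hGG hq hqξ.le (by positivity)
      _ = _ := by ring
  have hB : 1 / 2 * (G c x * (descPochhammer ℝ l).eval (KK c L)) * KK c L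
      ≤ x ^ l * iteratedDeriv l (G c) x * KK c L := mul_le_mul_of_nonneg_right hx1 hK.le
  have hC : x ^ (l + 1) * iteratedDeriv (l + 1) (G c) ξ
      ≤ x ^ (l + 1) * (30 * KK c L / x * iteratedDeriv l (G c) x) := by
    have e1 : x ^ (l + 1) * (30 * KK c L / x * iteratedDeriv l (G c) x)
        = 30 * (x ^ l * iteratedDeriv l (G c) x * KK c L) := by
      rw [pow_succ]; field_simp
    rw [e1]
    have e2 : 0 < G c x * (KK c L * (descPochhammer ℝ l).eval (KK c L)) := by positivity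
    nlinarith
  exact le_of_mul_le_mul_left hC (pow_pos hx _)

end Pool.Agent.VINO
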