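import Pool.Agent.VINO.Dform
import Pool.Agent.VINO.Dem
import Pool.Agent.VINO.Dpoch

/-!
# VINO / Dtwo: the size of the derivatives of `G`

PROOF of `dtwo`.  `ρ = 2/η`, `L = log x` large (`L ≥ 2ρ`, `8 ρ^2 L^(c-1) ≤ 1`), `K = KK c L`, `q = descPochhammer ℝ l`.
`l ≤ (1-η) K`, so `K - i ≥ η K` for `i ≤ l` and `S = ∑_{i<l} 1/(K-i) ≤ l / (η K) ≤ 1/η = ρ/2`. By `dform`,
`em_zero`, `em_le`, `poch_bound`: `|x^l G^(l)(x) / G(x) - q(K)| ≤ ∑_{m=1}^{l} 4 ρ^2 L^(c-1) ρ^(-m) q(K) (ρ/2)^m
≤ 4 ρ^2 L^(c-1) q(K) ≤ q(K)/2`.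
PROOF of `dbig`.  `ρ = 2`. `L` so large that also `K ≥ 1`, so `l ≥ 1`; for `i < l`: `|K - i| ≤ l`
(`0 ≤ K ≤ l`). `poch_abs` with `M = l`: `|x^l G^(l)(x)| ≤ G(x) ∑_{m ≤ l} |em m| (l! / (l-m)!) l^(l-m)`,
`l^(l-m) / (l-m)! ≤ exp l` (`Real.pow_div_factorial_le_exp`), and
`∑_{m≤l} |em m| ≤ 1 + 16 L^(c-1) ∑_{m ≥ 1} 2^(-m) ≤ 2`.
-/

set_option autoImplicit false

namespace Pool.Agent.VINO

open Polynomial

private theorem exL {c ρ : ℝ} (hc1 : c < 1) :
    ∃ L₀ : ℝ, 1 ≤ L₀ ∧ ∀ L : ℝ, L₀ ≤ L → 2 * ρ ≤ L ∧ 8 * ρ ^ 2 * L ^ (c - 1) ≤ 1 := by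
  have h1 : Filter.Tendsto (fun L : ℝ => 8 * ρ ^ 2 * L ^ (c - 1)) Filter.atTop
      (nhds (8 * ρ ^ 2 * 0)) := by
    apply Filter.Tendsto.const_mul
    have := tendsto_rpow_neg_atTop (y := 1 - c) (by linarith)
    simpa [neg_sub] using this
  rw [mul_zero] at h1
  have h2 := h1.eventually (Iic_mem_nhds (show (0 : ℝ) < 1 by norm_num))
  obtain ⟨B, hB⟩ := Filter.eventually_atTop.1 h2
  refine ⟨max 1 (max B (2 * ρ)), le_max_left _ _, fun L hL => ⟨?_, ?_⟩⟩
  · exact le_trans (le_trans (le_max_right _ _) (le_max_right _ _)) hL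
  · exact hB L (le_trans (le_trans (le_max_left _ _) (le_max_right _ _)) hL)

private theorem sum_half (l : ℕ) : ∑ m ∈ Finset.range l, ((1 : ℝ) / 2) ^ (m + 1) ≤ 1 := by
  have : ∀ l : ℕ, ∑ m ∈ Finset.range l, ((1 : ℝ) / 2) ^ (m + 1) = 1 - (1 / 2) ^ l := by
    intro l
    induction l with
    | zero => simp
    | succ l ih => rw [Finset.sum_range_succ, ih]; ring
  rw [this]
  have : (0 : ℝ) ≤ (1 / 2) ^ l := by positivity
  linarith

theorem dtwo {c η : ℝ} (hc0 : 0 < c) (hc1 : c < 1) (hη0 : 0 < η) (hη1 : η < 1) :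
    ∃ L₀ : ℝ, 1 ≤ L₀ ∧ ∀ x : ℝ, 0 < x → L₀ ≤ Real.log x → ∀ l : ℕ,
      (l : ℝ) ≤ (1 - η) * KK c (Real.log x) →
      1 / 2 * (G c x * (descPochhammer ℝ l).eval (KK c (Real.log x))) ≤
        x ^ l * iteratedDeriv l (G c) x ∧
      x ^ l * iteratedDeriv l (G c) x ≤
        3 / 2 * (G c x * (descPochhammer ℝ l).eval (KK c (Real.log x))) := by
  obtain ⟨L₀, hL₀, H⟩ := exL (c := c) (ρ := 2 / η) hc1
  refine ⟨L₀, hL₀, fun x hx hL l hl => ?_⟩
  obtain ⟨h1, h2⟩ := H _ hL
  have hρ : (1 : ℝ) ≤ 2 / η := by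
    rw [le_div_iff₀ hη0]; linarith
  have hρ0 : (0 : ℝ) < 2 / η := by positivity
  have hx1 : 1 < x := by
    by_contra hc
    have : Real.log x ≤ 0 := Real.log_nonpos hx.le (not_lt.1 hc)
    linarith
  set L := Real.log x with hLdef
  have hLpos : 0 < L := by linarith
  have hKpos : 0 < KK c L := by
    unfold KK; positivity
  set K := KK c L with hK
  have hKi : ∀ i < l, η * K ≤ K - (i : ℝ) := by
    intro i hi
    have : (i : ℝ) ≤ l := by exact_mod_cast hi.le
    nlinarith
  have hKi' : ∀ i < l, (i : ℝ) < K := by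
    intro i hi
    have := hKi i hi
    have h3 : 0 < η * K := by positivity
    linarith
  have hS : ∑ i ∈ Finset.range l, 1 / (K - (i : ℝ)) ≤ 1 / η := by
    calc ∑ i ∈ Finset.range l, 1 / (K - (i : ℝ)) ≤ ∑ i ∈ Finset.range l, 1 / (η * K) := by
          apply Finset.sum_le_sum
          intro i hi
          exact one_div_le_one_div_of_le (by positivity) (hKi i (Finset.mem_range.1 hi))
      _ = (l : ℝ) / (η * K) := by simp [div_eq_mul_inv]
      _ ≤ K / (η * K) := by
          apply div_le_div_of_nonneg_right _ (by positivity)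
          nlinarith
      _ = 1 / η := by field_simp
  have hS0 : 0 ≤ ∑ i ∈ Finset.range l, 1 / (K - (i : ℝ)) := by
    apply Finset.sum_nonneg
    intro i hi
    have := hKi' i (Finset.mem_range.1 hi)
    have h3 : 0 < K - i := by linarith
    positivity
  set S := ∑ i ∈ Finset.range l, 1 / (K - (i : ℝ)) with hSdef
  have hq0 : 0 ≤ (descPochhammer ℝ l).eval K := by
    have := (poch_bound hKi' 0).1
    simpa using this
  set q := (descPochhammer ℝ l).eval K with hq
  have hG : 0 < G c x := Real.exp_pos _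
  have hform := dform c l x hx1
  rw [Finset.sum_range_succ', ← hLdef, ← hK] at hform
  simp only [Function.iterate_zero, id_eq] at hform
  rw [em_zero c hLpos, one_mul, ← hq] at hform
  have hR : |∑ m ∈ Finset.range l, em c L (m + 1) *
      (derivative^[m + 1] (descPochhammer ℝ l)).eval K| ≤ q / 2 := by
    calc |∑ m ∈ Finset.range l, em c L (m + 1) *
          (derivative^[m + 1] (descPochhammer ℝ l)).eval K|
        ≤ ∑ m ∈ Finset.range l, |em c L (m + 1) *
          (derivative^[m + 1] (descPochhammer ℝ l)).eval K| := Finset.abs_sum_le_sum_abs _ _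
      _ ≤ ∑ m ∈ Finset.range l, (q / 2) * (1 / 2) ^ (m + 1) := by
          apply Finset.sum_le_sum
          intro m _
          obtain ⟨hp0, hp1⟩ := poch_bound hKi' (m + 1)
          have he := em_le hc0 hc1 hρ h1 h2 (m + 1) (by omega)
          rw [abs_mul, abs_of_nonneg hp0]
          have hpow : (0 : ℝ) < (2 / η) ^ (m + 1) := by positivity
          calc |em c L (m + 1)| * (derivative^[m + 1] (descPochhammer ℝ l)).eval K
              ≤ (4 * (2 / η) ^ 2 * L ^ (c - 1) / (2 / η) ^ (m + 1)) * (q * S ^ (m + 1)) := by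
                apply mul_le_mul he hp1 hp0
                positivity
            _ = (4 * (2 / η) ^ 2 * L ^ (c - 1)) * q * (S ^ (m + 1) / (2 / η) ^ (m + 1)) := by
                ring
            _ ≤ (1 / 2) * q * ((1 / 2) ^ (m + 1)) := by
                apply mul_le_mul
                · apply mul_le_mul_of_nonneg_right _ hq0
                  linarith
                · rw [← div_pow]
                  apply pow_le_pow_left₀ (by positivity)
                  rw [div_le_iff₀ hρ0]
                  calc S ≤ 1 / η := hS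
                    _ = 1 / 2 * (2 / η) := by field_simp
                · positivity
                · positivity
            _ = (q / 2) * (1 / 2) ^ (m + 1) := by ring
      _ = (q / 2) * ∑ m ∈ Finset.range l, ((1 : ℝ) / 2) ^ (m + 1) := by
          rw [Finset.mul_sum]
      _ ≤ (q / 2) * 1 := by
          apply mul_le_mul_of_nonneg_left (sum_half l) (by positivity)
      _ = q / 2 := by ring
  obtain ⟨hR1, hR2⟩ := abs_le.1 hR
  rw [hform]
  constructor
  · nlinarith
  · nlinarith

theorem dbig {c : ℝ} (hc0 : 0 < c) (hc1 : c < 1) :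
    ∃ L₀ : ℝ, 1 ≤ L₀ ∧ ∀ x : ℝ, 0 < x → L₀ ≤ Real.log x → ∀ l : ℕ,
      KK c (Real.log x) ≤ l →
      |x ^ l * iteratedDeriv l (G c) x| ≤ 2 * G c x * l.factorial * Real.exp l := by
  obtain ⟨L₀, hL₀, H⟩ := exL (c := c) (ρ := 2) hc1
  refine ⟨L₀, hL₀, fun x hx hL l hl => ?_⟩
  obtain ⟨h1, h2⟩ := H _ hL
  have hx1 : 1 < x := by
    by_contra hc
    have : Real.log x ≤ 0 := Real.log_nonpos hx.le (not_lt.1 hc)
    linarith
  set L := Real.log x with hLdef
  have hLpos : 0 < L := by linarith
  have hKge : 1 ≤ KK c L := by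
    unfold KK
    have : 1 ≤ L ^ c := Real.one_le_rpow (by linarith) hc0.le
    nlinarith
  set K := KK c L with hK
  have hl1 : (1 : ℝ) ≤ l := le_trans hKge hl
  have hKi : ∀ i < l, |K - (i : ℝ)| ≤ l := by
    intro i hi
    have h3 : (i : ℝ) ≤ l := by exact_mod_cast hi.le
    have h4 : (0 : ℝ) ≤ i := by positivity
    rw [abs_le]
    constructor <;> linarith
  have hD : ∀ m ≤ l, |(derivative^[m] (descPochhammer ℝ l)).eval K| ≤
      l.factorial * Real.exp l := by
    intro m hm
    refine le_trans (poch_abs hl1 hKi m) ?_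
    have h3 : ((l.descFactorial m : ℕ) : ℝ) * ((l - m).factorial : ℝ) = l.factorial := by
      have := Nat.factorial_mul_descFactorial hm
      rw [mul_comm]
      exact_mod_cast this
    have h4 : (l : ℝ) ^ (l - m) / ((l - m).factorial : ℝ) ≤ Real.exp l :=
      Real.pow_div_factorial_le_exp (l : ℝ) (by positivity) (l - m)
    have hf : (0 : ℝ) < ((l - m).factorial : ℝ) := by positivity
    rw [div_le_iff₀ hf] at h4
    calc ((l.descFactorial m : ℕ) : ℝ) * (l : ℝ) ^ (l - m)
        ≤ ((l.descFactorial m : ℕ) : ℝ) * (Real.exp l * ((l - m).factorial : ℝ)) := by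
          apply mul_le_mul_of_nonneg_left h4 (by positivity)
      _ = (((l.descFactorial m : ℕ) : ℝ) * ((l - m).factorial : ℝ)) * Real.exp l := by ring
      _ = _ := by rw [h3]
  have hG : 0 < G c x := Real.exp_pos _
  rw [dform c l x hx1, abs_mul, abs_of_pos hG]
  have hF : (0 : ℝ) ≤ l.factorial * Real.exp l := by positivity
  have hR : |∑ m ∈ Finset.range (l + 1), em c L m *
      (derivative^[m] (descPochhammer ℝ l)).eval K| ≤ 2 * (l.factorial * Real.exp l) := by
    calc |∑ m ∈ Finset.range (l + 1), em c L m *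
          (derivative^[m] (descPochhammer ℝ l)).eval K|
        ≤ ∑ m ∈ Finset.range (l + 1), |em c L m *
          (derivative^[m] (descPochhammer ℝ l)).eval K| := Finset.abs_sum_le_sum_abs _ _
      _ ≤ ∑ m ∈ Finset.range (l + 1), |em c L m| * (l.factorial * Real.exp l) := by
          apply Finset.sum_le_sum
          intro m hm
          rw [abs_mul]
          apply mul_le_mul_of_nonneg_left _ (abs_nonneg _)
          exact hD m (by have := Finset.mem_range.1 hm; omega)
      _ = (∑ m ∈ Finset.range (l + 1), |em c L m|) * (l.factorial * Real.exp l) := by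
          rw [Finset.sum_mul]
      _ ≤ 2 * (l.factorial * Real.exp l) := by
          apply mul_le_mul_of_nonneg_right _ hF
          rw [Finset.sum_range_succ', em_zero c hLpos, abs_one]
          have : ∑ m ∈ Finset.range l, |em c L (m + 1)| ≤ 1 := by
            calc ∑ m ∈ Finset.range l, |em c L (m + 1)|
                ≤ ∑ m ∈ Finset.range l, ((1 : ℝ) / 2) ^ (m + 1) := by
                  apply Finset.sum_le_sum
                  intro m _
                  refine le_trans (em_le hc0 hc1 (ρ := 2) (by norm_num) h1 h2 (m + 1)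
                    (by omega)) ?_
                  rw [one_div, inv_pow, div_eq_mul_inv]
                  have h5 : (0 : ℝ) < (2 ^ (m + 1))⁻¹ := by positivity
                  have h6 : 4 * 2 ^ 2 * L ^ (c - 1) ≤ 1 := by
                    have : 0 ≤ L ^ (c - 1) := by positivity
                    linarith
                  nlinarith
              _ ≤ 1 := sum_half l
          linarith
  calc G c x * |∑ m ∈ Finset.range (l + 1), em c L m *
          (derivative^[m] (descPochhammer ℝ l)).eval K|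
      ≤ G c x * (2 * (l.factorial * Real.exp l)) := mul_le_mul_of_nonneg_left hR hG.le
    _ = _ := by ring

end Pool.Agent.VINO
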