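import Pool.Agent.VINO.Defs

/-!
# VINO / EDefs: definitions for the ergodic part

`HasBernoulliFS d`: the bounded sequence `d 1, d 2, …` has a unique Furstenberg system, and it is a
product measure. `PL d`: all the correlation averages of `d` converge and factorise. `ProdLim y`: the
same for a sequence of points of a topological space.
-/

set_option autoImplicit false

namespace Pool.Agent.VINO

open MeasureTheory Filter Topology

/-- The averages of the Dirac masses at the points `S^n ω` converge weak-* to a product measure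
`ρ^ℤ` (`(S ω) k = ω (k + 1)`). -/
def BernoulliLim {R : ℝ} (ω : ℤ → Metric.closedBall (0 : ℂ) R) : Prop :=
  ∃ ρ : Measure (Metric.closedBall (0 : ℂ) R), IsProbabilityMeasure ρ ∧
    ∀ F : (ℤ → Metric.closedBall (0 : ℂ) R) → ℂ, Continuous F →
      Tendsto (fun N => av N fun n => F fun k => ω (k + n)) atTop
        (𝓝 (∫ w, F w ∂(Measure.infinitePi fun _ : ℤ => ρ)))

/-- The bounded sequence `d 1, d 2, …`, extended by `0`, has a unique Furstenberg system, and it is
a product measure. -/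
def HasBernoulliFS (d : ℕ → ℂ) : Prop :=
  (∃ R : ℝ, ∀ n, ‖d n‖ ≤ R) ∧ ∀ (R : ℝ) (ω : ℤ → Metric.closedBall (0 : ℂ) R),
    (∀ n : ℕ, 1 ≤ n → (ω n : ℂ) = d n) → (∀ n : ℤ, n ≤ 0 → (ω n : ℂ) = 0) → BernoulliLim ω

/-- The correlation averages of the sequence of points `y` converge and factorise. -/
def ProdLim {Y : Type*} [TopologicalSpace Y] (y : ℕ → Y) : Prop :=
  ∃ Λ : C(Y, ℂ) → ℂ, ∀ (r : ℕ) (φ : Fin (r + 1) → C(Y, ℂ)),
    Tendsto (fun N => av N fun n => ∏ j, φ j (y (n + j.1))) atTop (𝓝 (∏ j, Λ (φ j)))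

/-- The product formula for the sequence of maps `S (a c n)` and the functions `f j`. -/
def PP (c : ℝ) {X : Type*} [TopologicalSpace X] [MeasurableSpace X] (μ : Measure X)
    (S : ℕ → X → X) {r : ℕ} (f : Fin (r + 1) → C(X, ℂ)) : Prop :=
  ∀ᵐ x ∂μ, Tendsto (fun N => av N fun n => ∏ j, f j (S (a c (n + j.1)) x)) atTop
    (𝓝 (∏ j, ∫ x, f j x ∂μ))

/-- The monomial `z ^ a * conj z ^ b`. -/
noncomputable def mono (p : ℕ × ℕ) : C(ℂ, ℂ) :=
  ⟨fun z => z ^ p.1 * (starRingEnd ℂ z) ^ p.2, by fun_prop⟩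

/-- Finite trigonometric sums in `m` with mean value `M`. -/
def IsAP (u : ℕ → ℂ) (M : ℂ) : Prop :=
  ∃ (p : ℕ) (cc : Fin p → ℂ) (β : Fin p → ℝ),
    (∀ m : ℕ, u m = ∑ i, cc i * Pool.Agent.VMV.e (β i * m)) ∧
      M = ∑ i, (open Classical in if ∃ k : ℤ, β i = k then cc i else 0)

end Pool.Agent.VINO
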