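import Pool.Agent.VINO.KDefs
import Pool.Agent.VINO.FurB

/-!
# VINO / EFin: from the product formula to Furstenberg systems

PROOF.  `Prd` for the countably many tuples `j ↦ mono (p j) ∘ f` (`r : ℕ`, `p : Fin (r+1) → ℕ × ℕ`). For almost all `x`: let `Λ₀ p` be the
limit of the averages of `mono p (f (T^[a c n] x))` (exists: `r = 0`, constant tuple). For a tuple `p`, the limits `l j`
are `Λ₀ (p j)` (uniqueness). `furB` with `d n = f (T^[a c n] x)`.
-/

set_option autoImplicit false

namespace Pool.Agent.VINO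

open MeasureTheory Filter Topology

theorem fs_of_prd {c : ℝ} {X : Type*} [MeasurableSpace X] (μ : Measure X) (T : X → X)
    (f : X → ℂ) (hf : Bdd f)
    (h : ∀ (r : ℕ) (p : Fin (r + 1) → ℕ × ℕ), Prd c μ T fun j x => mono (p j) (f x)) :
    ∀ᵐ x ∂μ, HasBernoulliFS fun n => f (T^[a c n] x) := by
  have h1 : ∀ᵐ x ∂μ, ∀ (r : ℕ) (p : Fin (r + 1) → ℕ × ℕ), ∃ l : Fin (r + 1) → ℂ,
      (∀ j, Tendsto (fun N => av N fun n => mono (p j) (f (T^[a c n] x))) atTop (𝓝 (l j))) ∧
      Tendsto (fun N => av N fun n => ∏ j, mono (p j) (f (T^[a c (n + j.1)] x))) atTop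
        (𝓝 (∏ j, l j)) := by
    rw [ae_all_iff]
    intro r
    rw [ae_all_iff]
    intro p
    exact h r p
  obtain ⟨M, hM⟩ := hf.2
  filter_upwards [h1] with x hx
  refine furB _ ⟨M, fun n => hM _⟩
    (fun q => limUnder atTop fun N => av N fun n => mono q (f (T^[a c n] x))) ?_
  intro r p
  obtain ⟨l, hl, hp⟩ := hx r p
  have h2 : ∀ j, (limUnder atTop fun N => av N fun n => mono (p j) (f (T^[a c n] x))) = l j :=
    fun j => (hl j).limUnder_eq
  simp only [h2]
  exact hp

end Pool.Agent.VINO
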