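import Pool.Agent.VINO.KDefs
import Pool.Agent.VINO.Ptw

/-!
# VINO / ELin: linearity of the product formula in one slot, factors

PROOFS.  `prd_add`, `prd_smul`: intersect the sets of full measure; the limits `l i`, `i ≠ j`, of the two tuples agree
(uniqueness of limits), the product over the slots is linear in the slot `j` (`Finset.prod_update_of_mem`,
`av` is linear). `prd_congr`: for almost all `x`, `f j (T^[m] x) = f' j (T^[m] x)` for all `j`, `m` (`T^[m]` is measure
preserving: `(hT.iterate m).quasiMeasurePreserving.ae`, `ae_all_iff`).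
`prd_factor`: for almost all `x`, `π (T^[m] x) = S^[m] (π x)` for all `m` (induction, `ae_all_iff`), and the set of full
measure in `Y` pulls back (`hπ.quasiMeasurePreserving.ae`).
-/

set_option autoImplicit false

namespace Pool.Agent.VINO

open MeasureTheory Filter Topology

private theorem el_prod {ι X : Type*} [Fintype ι] [DecidableEq ι] (F : ι → X → ℂ) (j : ι)
    (h : X → ℂ) (y : ι → X) :
    ∏ i, Function.update F j h i (y i) = h (y j) * ∏ i ∈ Finset.univ.erase j, F i (y i) := by
  rw [← Finset.mul_prod_erase Finset.univ _ (Finset.mem_univ j), Function.update_self]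
  congr 1
  refine Finset.prod_congr rfl fun i hi => ?_
  rw [Function.update_of_ne (Finset.ne_of_mem_erase hi)]

private theorem el_prod' {ι : Type*} [Fintype ι] [DecidableEq ι] (F : ι → ℂ) (j : ι) (h : ℂ) :
    ∏ i, Function.update F j h i = h * ∏ i ∈ Finset.univ.erase j, F i := by
  rw [← Finset.mul_prod_erase Finset.univ _ (Finset.mem_univ j), Function.update_self]
  congr 1
  refine Finset.prod_congr rfl fun i hi => ?_
  rw [Function.update_of_ne (Finset.ne_of_mem_erase hi)]

private theorem el_add (N : ℕ) (u v : ℕ → ℂ) :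
    av N (fun n => u n + v n) = av N u + av N v := by
  unfold av
  rw [Finset.sum_add_distrib, mul_add]

private theorem el_mul (N : ℕ) (z : ℂ) (u : ℕ → ℂ) :
    av N (fun n => z * u n) = z * av N u := by
  unfold av
  rw [← Finset.mul_sum]
  ring

theorem prd_add {c : ℝ} {X : Type*} [MeasurableSpace X] {μ : Measure X} {T : X → X} {r : ℕ}
    (f : Fin (r + 1) → X → ℂ) (j : Fin (r + 1)) (h h' : X → ℂ)
    (H : Prd c μ T (Function.update f j h)) (H' : Prd c μ T (Function.update f j h')) :
    Prd c μ T (Function.update f j (h + h')) := by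
  filter_upwards [H, H'] with x hx hx'
  obtain ⟨l, hl, hp⟩ := hx
  obtain ⟨l', hl', hp'⟩ := hx'
  have hll : ∀ i ∈ Finset.univ.erase j, l' i = l i := by
    intro i hi
    have hij := Finset.ne_of_mem_erase hi
    have h1 := hl i
    have h2 := hl' i
    rw [Function.update_of_ne hij] at h1 h2
    exact tendsto_nhds_unique h2 h1
  refine ⟨Function.update l j (l j + l' j), fun i => ?_, ?_⟩
  · by_cases hij : i = j
    · subst hij
      have h1 := hl i
      have h2 := hl' i
      rw [Function.update_self] at h1 h2 ⊢
      rw [Function.update_self]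
      refine (h1.add h2).congr fun N => ?_
      rw [← el_add]
      rfl
    · have h1 := hl i
      rw [Function.update_of_ne hij] at h1 ⊢
      rw [Function.update_of_ne hij]
      exact h1
  · have h1 : ∏ i, Function.update l j (l j + l' j) i = ∏ i, l i + ∏ i, l' i := by
      rw [el_prod', ← Finset.mul_prod_erase Finset.univ l (Finset.mem_univ j),
        ← Finset.mul_prod_erase Finset.univ l' (Finset.mem_univ j), Finset.prod_congr rfl hll]
      ring
    rw [h1]
    refine (hp.add hp').congr fun N => ?_
    rw [← el_add]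
    congr 1
    funext n
    rw [el_prod, el_prod, el_prod]
    show _ = (h _ + h' _) * _
    ring

theorem prd_smul {c : ℝ} {X : Type*} [MeasurableSpace X] {μ : Measure X} {T : X → X} {r : ℕ}
    (f : Fin (r + 1) → X → ℂ) (j : Fin (r + 1)) (z : ℂ) (h : X → ℂ)
    (H : Prd c μ T (Function.update f j h)) :
    Prd c μ T (Function.update f j (z • h)) := by
  filter_upwards [H] with x hx
  obtain ⟨l, hl, hp⟩ := hx
  refine ⟨Function.update l j (z * l j), fun i => ?_, ?_⟩
  · by_cases hij : i = j
    · subst hij
      have h1 := hl i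
      rw [Function.update_self] at h1 ⊢
      rw [Function.update_self]
      refine (h1.const_mul z).congr fun N => ?_
      rw [← el_mul]
      rfl
    · have h1 := hl i
      rw [Function.update_of_ne hij] at h1 ⊢
      rw [Function.update_of_ne hij]
      exact h1
  · have h1 : ∏ i, Function.update l j (z * l j) i = z * ∏ i, l i := by
      rw [el_prod', ← Finset.mul_prod_erase Finset.univ l (Finset.mem_univ j)]
      ring
    rw [h1]
    refine (hp.const_mul z).congr fun N => ?_
    rw [← el_mul]
    congr 1
    funext n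
    rw [el_prod, el_prod]
    show _ = (z * h _) * _
    ring

theorem prd_congr {c : ℝ} {X : Type*} [MeasurableSpace X] {μ : Measure X} {T : X → X}
    (hT : MeasurePreserving T μ μ) {r : ℕ} (f f' : Fin (r + 1) → X → ℂ)
    (h : ∀ j, f j =ᵐ[μ] f' j) (H : Prd c μ T f) : Prd c μ T f' := by
  have h1 : ∀ᵐ x ∂μ, ∀ j, ∀ n : ℕ, f j (T^[n] x) = f' j (T^[n] x) :=
    ae_all_iff.2 fun j => ae_all_iff.2 fun n => (hT.iterate n).quasiMeasurePreserving.ae (h j)
  filter_upwards [H, h1] with x hx h2
  obtain ⟨l, hl, hp⟩ := hx
  refine ⟨l, fun j => ?_, ?_⟩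
  · simpa only [h2] using hl j
  · simpa only [h2] using hp

theorem prd_factor {c : ℝ} {X Y : Type*} [MeasurableSpace X] [MeasurableSpace Y]
    {μ : Measure X} {ν : Measure Y} {T : X → X} {S : Y → Y} (hT : MeasurePreserving T μ μ)
    (π : X → Y) (hπ : MeasurePreserving π μ ν) (hS : ∀ᵐ x ∂μ, π (T x) = S (π x)) {r : ℕ}
    (F : Fin (r + 1) → Y → ℂ) (H : Prd c ν S F) : Prd c μ T fun j x => F j (π x) := by
  have h1 : ∀ᵐ x ∂μ, ∀ n : ℕ, π (T (T^[n] x)) = S (π (T^[n] x)) :=
    ae_all_iff.2 fun n => (hT.iterate n).quasiMeasurePreserving.ae hS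
  have h2 := hπ.quasiMeasurePreserving.ae H
  filter_upwards [h1, h2] with x hx h3
  have h4 : ∀ n : ℕ, π (T^[n] x) = S^[n] (π x) := by
    intro n
    induction n with
    | zero => rfl
    | succ n ih => rw [Function.iterate_succ_apply', Function.iterate_succ_apply', hx n, ih]
  obtain ⟨l, hl, hp⟩ := h3
  refine ⟨l, fun j => ?_, ?_⟩
  · simpa only [h4] using hl j
  · simpa only [h4] using hp

end Pool.Agent.VINO
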