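import Pool.Agent.VINO.ESlot

/-!
# VINO / EMain: extension of the product formula to the `L²` closure of the span

PROOF.  As in `Slots.lean`: for a finset `s` of slots let `P s` be: `Prd c μ T g` for all `g` with `g j ∈ W` for `j ∈ s` and
`g j ∈ V` for `j ∉ s`. Induction on `s`. For `insert j s`, `g` given: for `f ∈ V`, `Prd (update g j f)` by the induction
hypothesis; by `prd_add`, `prd_smul` the same for all `f ∈ span V` (`Submodule.span_induction`; `0 = 0 • f₀` with `f₀ ∈ V`,
`hne`); elements of `span V` are bounded measurable; `slot_L2` (`g i` is `Bdd` for all `i`: `hV`, `hW`) gives `Prd g`.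
-/

set_option autoImplicit false

namespace Pool.Agent.VINO

open MeasureTheory Filter Topology

theorem ext_main {c : ℝ} (hc0 : 0 < c) (hc1 : c < 1 / 2) {X : Type*} [MeasurableSpace X]
    (μ : Measure X) [IsProbabilityMeasure μ] (T : X → X) (hT : MeasurePreserving T μ μ)
    (V W : Set (X → ℂ)) (hne : V.Nonempty) (hV : ∀ h ∈ V, Bdd h) (hW : ∀ f ∈ W, Bdd f)
    (hd : ∀ f ∈ W, ∀ ε : ℝ, 0 < ε → ∃ h ∈ Submodule.span ℂ V, ∫ x, ‖f x - h x‖ ^ 2 ∂μ ≤ ε)
    (hP : ∀ (r : ℕ) (f : Fin (r + 1) → X → ℂ), (∀ j, f j ∈ V) → Prd c μ T f)
    (r : ℕ) (f : Fin (r + 1) → X → ℂ) (hf : ∀ j, f j ∈ W) : Prd c μ T f := by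
  classical
  have hspanB : ∀ h ∈ Submodule.span ℂ V, Bdd h := by
    intro h hh
    induction hh using Submodule.span_induction with
    | mem x hx => exact hV x hx
    | zero => exact ⟨measurable_const, 0, fun x => by simp⟩
    | add x y _ _ hx hy =>
      obtain ⟨h1, M, h2⟩ := hx
      obtain ⟨h3, M', h4⟩ := hy
      refine ⟨h1.add h3, M + M', fun t => ?_⟩
      rw [Pi.add_apply]
      exact (norm_add_le _ _).trans (add_le_add (h2 t) (h4 t))
    | smul z x _ hx =>
      obtain ⟨h1, M, h2⟩ := hx
      refine ⟨h1.const_smul z, ‖z‖ * M, fun t => ?_⟩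
      rw [Pi.smul_apply, smul_eq_mul, norm_mul]
      exact mul_le_mul_of_nonneg_left (h2 t) (norm_nonneg _)
  obtain ⟨f₀, hf₀⟩ := hne
  have key : ∀ s : Finset (Fin (r + 1)), ∀ g : Fin (r + 1) → X → ℂ, (∀ j ∈ s, g j ∈ W) →
      (∀ j ∉ s, g j ∈ V) → Prd c μ T g := by
    intro s
    induction s using Finset.induction_on with
    | empty =>
      intro g _ h2
      exact hP r g fun j => h2 j (Finset.notMem_empty j)
    | insert j s hj ih =>
      intro g h1 h2
      have c1 : ∀ h ∈ V, Prd c μ T (Function.update g j h) := by
        intro h hh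
        refine ih _ ?_ ?_
        · intro i hi
          have hij : i ≠ j := by
            rintro rfl
            exact hj hi
          rw [Function.update_of_ne hij]
          exact h1 i (Finset.mem_insert_of_mem hi)
        · intro i hi
          by_cases hij : i = j
          · rw [hij, Function.update_self]
            exact hh
          · rw [Function.update_of_ne hij]
            refine h2 i fun h3 => ?_
            rcases Finset.mem_insert.1 h3 with h4 | h4
            · exact hij h4
            · exact hi h4
      have c2 : ∀ h ∈ Submodule.span ℂ V, Prd c μ T (Function.update g j h) := by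
        intro h hh
        induction hh using Submodule.span_induction with
        | mem x hx => exact c1 x hx
        | zero =>
          have h3 := prd_smul g j 0 f₀ (c1 f₀ hf₀)
          rw [zero_smul] at h3
          exact h3
        | add x y _ _ hx hy => exact prd_add g j x y hx hy
        | smul z x _ hx => exact prd_smul g j z x hx
      refine slot_L2 hc0 hc1 μ T hT g ?_ j ?_
      · intro i
        by_cases hi : i ∈ insert j s
        · exact hW _ (h1 i hi)
        · exact hV _ (h2 i hi)
      · intro ε hε
        obtain ⟨h, hh, hle⟩ := hd (g j) (h1 j (Finset.mem_insert_self j s)) ε hε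
        exact ⟨h, hspanB h hh, hle, c2 h hh⟩
  exact key Finset.univ f (fun j _ => hf j) fun j hj => absurd (Finset.mem_univ j) hj

end Pool.Agent.VINO
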