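import Pool.Agent.VINO.Hlow

/-!
# VINO / Sep: separation of the values `∑ θ_j ⌊G(n + j)⌋`

PROOF.  `H c θ n = ∑ θ_j G c (n + j)`, `|∑ θ_j a c (n+j) - H c θ n| ≤ S := ∑ |θ_j|` (`0 ≤ G - ⌊G⌋ ≤ 1`). Mean
value theorem on `[m, n]` (`H_smooth` gives differentiability for `x > 1`):
`|H n - H m| ≥ inf_{x ≥ m} |H'(x)| (n - m)`, and `|H'(x)| ≥ c₁ G(x) / x^(1+r)` by `H_two` with `η = 1/2`, `l = 1`
(`1 + r + 2 ≤ (1/2) KK c (log x)` for large `x`), which tends to infinity: `G(x) / x^(1+r) =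
exp (L (L^c - 1 - r))`. Choose `n₀` with `|H'| ≥ 1 + 2 S` on `[n₀, ∞)`: the difference is at least
`(1 + 2S)(n - m) - 2 S ≥ n - m`.
-/

set_option autoImplicit false

namespace Pool.Agent.VINO

/-- `a` is `G` up to one -/
private theorem sep_floor (c : ℝ) (n : ℕ) : |(a c n : ℝ) - G c n| ≤ 1 := by
  have h0 : 0 ≤ G c n := (Real.exp_pos _).le
  have h1 : ((⌊G c n⌋₊ : ℕ) : ℝ) ≤ G c n := Nat.floor_le h0
  have h2 : G c n < (⌊G c n⌋₊ : ℕ) + 1 := Nat.lt_floor_add_one _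
  unfold a
  rw [abs_le]
  constructor <;> linarith

private theorem sep_H (c : ℝ) {r : ℕ} (θ : Fin (r + 1) → ℝ) (n : ℕ) :
    |∑ j, θ j * (a c (n + j.1) : ℝ) - H c θ n| ≤ ∑ j, |θ j| := by
  unfold H
  rw [← Finset.sum_sub_distrib]
  refine (Finset.abs_sum_le_sum_abs _ _).trans (Finset.sum_le_sum fun j _ => ?_)
  rw [← mul_sub, abs_mul]
  have h := sep_floor c (n + j.1)
  rw [Nat.cast_add] at h
  exact mul_le_of_le_one_right (abs_nonneg _) h

theorem sep {c : ℝ} (hc0 : 0 < c) (hc1 : c < 1) {r : ℕ} (θ : Fin (r + 1) → ℝ) (hθ : θ ≠ 0) :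
    ∃ n₀ : ℕ, ∀ m n : ℕ, n₀ ≤ m → m < n →
      ((n : ℝ) - m) ≤ |∑ j, θ j * (a c (n + j.1) : ℝ) - ∑ j, θ j * (a c (m + j.1) : ℝ)| := by
  obtain ⟨c₁, c₂, L₀, hc₁, hc₂, hL₀, hH⟩ :=
    H_two hc0 hc1 (show (0 : ℝ) < 1 / 2 by norm_num) (by norm_num) θ hθ
  set S : ℝ := ∑ j, |θ j| with hS
  have hS0 : 0 ≤ S := Finset.sum_nonneg fun j _ => abs_nonneg _
  set L₁ : ℝ := (2 * ((r : ℝ) + 3)) ^ (1 / c) with hL₁
  set M : ℝ := max L₀ (max 1 L₁) with hM
  -- lower bound of the derivative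
  have hder : ∀ x : ℝ, Real.exp M ≤ x → (1 + 2 * S) / c₁ ≤ x →
      1 + 2 * S ≤ |deriv (H c θ) x| := by
    intro x hx1 hx2
    have hx0 : 0 < x := (Real.exp_pos _).trans_le hx1
    have hlog : M ≤ Real.log x := by
      rw [Real.le_log_iff_exp_le hx0]
      exact hx1
    have hl0 : L₀ ≤ Real.log x := (le_max_left _ _).trans hlog
    have hl1 : 1 ≤ Real.log x := ((le_max_left _ _).trans (le_max_right _ _)).trans hlog
    have hl2 : L₁ ≤ Real.log x := ((le_max_right _ _).trans (le_max_right _ _)).trans hlog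
    set L : ℝ := Real.log x with hL
    have hLpos : 0 < L := by linarith
    have hLc : 2 * ((r : ℝ) + 3) ≤ L ^ c := by
      have h1 : L₁ ^ c = 2 * ((r : ℝ) + 3) := by
        rw [hL₁, ← Real.rpow_mul (by positivity), one_div, inv_mul_cancel₀ hc0.ne',
          Real.rpow_one]
      rw [← h1]
      exact Real.rpow_le_rpow (Real.rpow_nonneg (by positivity) _) hl2 hc0.le
    have hK : (1 : ℕ) + (r : ℝ) + 2 ≤ (1 - 1 / 2) * KK c L := by
      unfold KK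
      have h1 : L ^ c ≤ (1 + c) * L ^ c := by
        have : 0 ≤ L ^ c := Real.rpow_nonneg hLpos.le _
        nlinarith
      push_cast
      linarith
    have h := (hH x hx0 hl0 1 hK).1
    rw [iteratedDeriv_one, Nat.factorial_one, Nat.cast_one, div_one] at h
    refine le_trans ?_ h
    have hG : x ≤ G c x / x ^ (1 + r) := by
      rw [le_div_iff₀ (by positivity), ← pow_succ']
      have h1 : x ^ (1 + r + 1) = Real.exp (((1 + r + 1 : ℕ) : ℝ) * L) := by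
        rw [Real.exp_nat_mul, hL, Real.exp_log hx0]
      rw [h1]
      unfold G
      refine Real.exp_le_exp.2 ?_
      rw [← hL, Real.rpow_add hLpos, Real.rpow_one, mul_comm]
      refine mul_le_mul_of_nonneg_left ?_ hLpos.le
      push_cast
      have : (0 : ℝ) ≤ r := Nat.cast_nonneg r
      linarith
    calc 1 + 2 * S = c₁ * ((1 + 2 * S) / c₁) := by field_simp
      _ ≤ c₁ * x := mul_le_mul_of_nonneg_left hx2 hc₁.le
      _ ≤ c₁ * (G c x / x ^ (1 + r)) := mul_le_mul_of_nonneg_left hG hc₁.le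
  refine ⟨⌈Real.exp M⌉₊ + ⌈(1 + 2 * S) / c₁⌉₊ + 2, ?_⟩
  intro m n hm hmn
  have hmR : ((⌈Real.exp M⌉₊ + ⌈(1 + 2 * S) / c₁⌉₊ + 2 : ℕ) : ℝ) ≤ m := by exact_mod_cast hm
  push_cast at hmR
  have h1 : Real.exp M ≤ ⌈Real.exp M⌉₊ := Nat.le_ceil _
  have h2 : (1 + 2 * S) / c₁ ≤ ⌈(1 + 2 * S) / c₁⌉₊ := Nat.le_ceil _
  have h3 : (0 : ℝ) ≤ ⌈Real.exp M⌉₊ := Nat.cast_nonneg _
  have h4 : (0 : ℝ) ≤ ⌈(1 + 2 * S) / c₁⌉₊ := Nat.cast_nonneg _
  have hmnR : (m : ℝ) + 1 ≤ n := by exact_mod_cast hmn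
  have hdiff : ∀ x : ℝ, (m : ℝ) ≤ x → DifferentiableAt ℝ (H c θ) x := by
    intro x hx
    exact (H_smooth c θ (show 1 < x by linarith) 1).differentiableAt (by norm_num)
  obtain ⟨ξ, hξ, hξ'⟩ := exists_deriv_eq_slope (H c θ) (show (m : ℝ) < n by linarith)
    (fun x hx => (hdiff x hx.1).continuousAt.continuousWithinAt)
    (fun x hx => (hdiff x hx.1.le).differentiableWithinAt)
  have hξb := hder ξ (by linarith [hξ.1]) (by linarith [hξ.1])
  have hnm : 0 < (n : ℝ) - m := by linarith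
  rw [hξ', abs_div, abs_of_pos hnm, le_div_iff₀ hnm] at hξb
  have e1 := sep_H c θ n
  have e2 := sep_H c θ m
  rw [← hS] at e1 e2
  set An : ℝ := ∑ j, θ j * (a c (n + j.1) : ℝ) with hAn
  set Am : ℝ := ∑ j, θ j * (a c (m + j.1) : ℝ) with hAm
  have e3 : |H c θ n - H c θ m| ≤ |An - Am| + 2 * S := by
    have e4 : H c θ n - H c θ m = (An - Am) - (An - H c θ n) + (Am - H c θ m) := by ring
    rw [e4]
    refine (abs_add_le _ _).trans ?_
    have e5 := abs_sub (An - Am) (An - H c θ n)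
    linarith
  nlinarith

end Pool.Agent.VINO
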