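import Pool.Agent.VINO.Fwin
import Pool.Agent.VINO.Sep

/-!
# VINO / Flow: the average tends to zero if a flow twists the functions

PROOF.  `φ n = ∑ θ_j a c (n + j)`; `sep` gives `n₀`. Let `M ≥ 1` bound all `‖f j‖`. Let `p ≥ 1` be given; by
uniform continuity of `(t, x) ↦ f j (h t x)` on the compact `[0,1] × X` (more precisely: the curried map
`ℝ → C(X, ℂ)`, `t ↦ f j ∘ h t`, is continuous, so uniformly continuous on `[0, 1]`) there are `q` and the
windows `W_i = [i/q, (i+1)/q]`, `i < q`, with `|f j (h t z) - f j (h (i/q) z)| ≤ 1/p` for `t ∈ W_i`, all `z`, `j`.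
Fix `x` and `i`, `w n = ∏_j f j (h (i/q) (S (a(n+j)) x)) / M^(r+1)`, `‖w n‖ ≤ 1`. By `heq`
`∏_j f j (S (a(n+j)) (h t x)) = e (t φ(n)) ∏_j f j (h t (S (a(n+j)) x))`, and for `t ∈ W_i` this differs from
`e (t φ n) M^(r+1) w n` by at most `(r+1) M^r / p`. By `flow_window`, for almost all `t ∈ W_i`:
`limsup_N ‖av N (∏_j f j (S (a(n+j)) (h t x)))‖ ≤ (r+1) M^r / p`. So for every `x`, for almost all
`t ∈ [0,1]` the point `h t x` is not in the measurable set
`E_p = {z | ¬ ∀ᶠ N, ‖av N (∏_j f j (S (a(n+j)) z))‖ ≤ 2 (r+1) M^r / p}`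
(countable union/intersection of sets defined by continuous functions of `z`). By Fubini on
`[0,1] × X` (the set `{(t, x) | h t x ∈ E_p}` is measurable: `hh` is continuous, and `ℝ` is second countable, so
`ℝ × X` is a Borel space: `Prod.borelSpace` with `SecondCountableTopologyEither`;
`Measure.ae_prod..`, `measure_prod_null`, `measure_ae_null_of_prod_null`, and the symmetric version) for almost all
`t`, `μ {x | h t x ∈ E_p} = 0`; take one such `t`: `μ E_p = 0` (`hμ t`). This for all `p ≥ 1` gives the claim.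
-/

set_option autoImplicit false

namespace Pool.Agent.VINO

open MeasureTheory Filter Topology Pool.Agent.VMV

private theorem fl_av_sub (N : ℕ) (u v : ℕ → ℂ) {δ : ℝ} (hδ : 0 ≤ δ)
    (h : ∀ n, ‖u n - v n‖ ≤ δ) : ‖av N u - av N v‖ ≤ δ := by
  unfold av
  rw [← mul_sub, ← Finset.sum_sub_distrib, norm_mul, norm_inv, Complex.norm_natCast]
  rcases Nat.eq_zero_or_pos N with h0 | h0
  · subst h0
    simpa using hδ
  · have hN : (0 : ℝ) < N := by exact_mod_cast h0
    have h1 : ‖∑ n ∈ Finset.Icc 1 N, (u n - v n)‖ ≤ N * δ := by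
      refine (norm_sum_le _ _).trans ?_
      refine (Finset.sum_le_sum fun n _ => h n).trans (le_of_eq ?_)
      rw [Finset.sum_const, Nat.card_Icc, Nat.add_sub_cancel, nsmul_eq_mul]
    calc (N : ℝ)⁻¹ * ‖∑ n ∈ Finset.Icc 1 N, (u n - v n)‖ ≤ (N : ℝ)⁻¹ * (N * δ) :=
          mul_le_mul_of_nonneg_left h1 (by positivity)
      _ = δ := by field_simp

private theorem fl_e_norm (t : ℝ) : ‖e t‖ = 1 := by
  unfold e
  have h1 : (2 * Real.pi * Complex.I * t : ℂ) = ((2 * Real.pi * t : ℝ) : ℂ) * Complex.I := by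
    push_cast
    ring
  rw [h1, Complex.norm_exp_ofReal_mul_I]

private theorem fl_e_prod {r : ℕ} (θ : Fin (r + 1) → ℝ) (m : Fin (r + 1) → ℕ) (t : ℝ) :
    ∏ j, e (θ j * m j * t) = e (t * ∑ j, θ j * (m j : ℝ)) := by
  unfold e
  rw [← Complex.exp_sum]
  congr 1
  push_cast
  rw [Finset.mul_sum, Finset.mul_sum]
  exact Finset.sum_congr rfl fun j _ => by ring

theorem flow {c : ℝ} (hc0 : 0 < c) (hc1 : c < 1) {X : Type*} [TopologicalSpace X] [CompactSpace X]
    [MeasurableSpace X] [BorelSpace X] (μ : Measure X) [IsProbabilityMeasure μ] {r : ℕ}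
    (f : Fin (r + 1) → C(X, ℂ)) (S : ℕ → X → X) (hS : ∀ m, Continuous (S m)) (h : ℝ → X → X)
    (hh : Continuous fun p : ℝ × X => h p.1 p.2) (hμ : ∀ t, MeasurePreserving (h t) μ μ)
    (θ : Fin (r + 1) → ℝ) (hθ : θ ≠ 0)
    (heq : ∀ j (m : ℕ) (t : ℝ) (x : X),
      f j (S m (h t x)) = e (θ j * m * t) * f j (h t (S m x))) :
    ∀ᵐ x ∂μ, Tendsto (fun N => av N fun n => ∏ j, f j (S (a c (n + j.1)) x)) atTop (𝓝 0) := by
  -- the functions
  let G : C(ℝ × (Fin (r + 1) → X), ℂ) :=
    ⟨fun p => ∏ j, f j (h p.1 (p.2 j)), by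
      refine continuous_finset_prod _ fun j _ => (f j).continuous.comp ?_
      exact hh.comp (f := fun p : ℝ × (Fin (r + 1) → X) => (p.1, p.2 j)) (by fun_prop)⟩
  let z : X → ℕ → Fin (r + 1) → X := fun x n j => S (a c (n + j.1)) x
  let φ : ℕ → ℝ := fun n => ∑ j, θ j * (a c (n + j.1) : ℝ)
  let P : X → ℕ → ℂ := fun x n => ∏ j, f j (S (a c (n + j.1)) x)
  have hP : ∀ (t : ℝ) (x : X) (n : ℕ), P (h t x) n = e (t * φ n) * G (t, z x n) := by
    intro t x n
    change ∏ j, f j (S (a c (n + j.1)) (h t x)) = _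
    simp only [heq]
    rw [Finset.prod_mul_distrib, fl_e_prod θ (fun j => a c (n + j.1)) t]
    rfl
  obtain ⟨n₀, hn₀⟩ := sep hc0 hc1 θ hθ
  have hPc : ∀ (N : ℕ), Continuous fun x => av N (P x) := by
    intro N
    unfold av
    refine continuous_const.mul (continuous_finset_sum _ fun n _ => ?_)
    exact continuous_finset_prod _ fun j _ => (f j).continuous.comp (hS _)
  -- the exceptional sets
  have key : ∀ ε : ℝ, 0 < ε → ∀ᵐ x ∂μ, ∀ᶠ N in atTop, ‖av N (P x)‖ < ε := by
    intro ε hε
    let E : Set X := {x | ∀ᶠ N in atTop, ‖av N (P x)‖ < ε}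
    have hE : MeasurableSet E := by
      have h1 : E = ⋃ N0 : ℕ, ⋂ N : ℕ, ⋂ _ : N0 ≤ N, {x | ‖av N (P x)‖ < ε} := by
        ext x
        simp only [Set.mem_iUnion, Set.mem_iInter, Set.mem_setOf_eq]
        exact eventually_atTop
      rw [h1]
      refine MeasurableSet.iUnion fun N0 => MeasurableSet.iInter fun N => MeasurableSet.iInter
        fun _ => ?_
      exact (isOpen_lt (hPc N).norm continuous_const).measurableSet
    -- uniform continuity
    have huc := isCompact_Icc.uniformContinuousOn_of_continuous (s := Set.Icc (0 : ℝ) 2)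
      G.curry.continuous.continuousOn
    obtain ⟨δ, hδ, hd⟩ := Metric.uniformContinuousOn_iff.1 huc (ε / 2) (by linarith)
    obtain ⟨q, hq⟩ := exists_nat_one_div_lt hδ
    set q' : ℝ := (q : ℝ) + 1 with hq'
    have hq0 : 0 < q' := by positivity
    have hwin : ∀ x : X, ∀ᵐ t ∂(volume.restrict (Set.Icc (0 : ℝ) 1)), h t x ∈ E := by
      intro x
      rw [ae_restrict_iff' measurableSet_Icc]
      have hall : ∀ i : ℕ, ∀ᵐ t ∂(volume : Measure ℝ), t ∈ Set.Icc ((i : ℝ) / q') ((i + 1) / q') →
          t ∈ Set.Icc (0 : ℝ) 1 → h t x ∈ E := by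
        intro i
        set t0 : ℝ := (i : ℝ) / q' with ht0
        set M : ℝ := ‖G.curry t0‖ + 1 with hM
        have hM0 : 0 < M := by positivity
        have hfw := flow_window φ n₀ hn₀ (fun n => G (t0, z x n) / (M : ℂ)) (by
          intro n
          rw [norm_div, Complex.norm_real, Real.norm_of_nonneg hM0.le, div_le_one hM0]
          have h1 : ‖(G.curry t0) (z x n)‖ ≤ ‖G.curry t0‖ := ContinuousMap.norm_coe_le_norm _ _
          have h2 : (G.curry t0) (z x n) = G (t0, z x n) := rfl
          rw [h2] at h1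
          linarith) t0 ((i + 1) / q') (by
            rw [ht0]
            exact div_le_div_of_nonneg_right (by linarith) hq0.le)
        rw [ae_restrict_iff' measurableSet_Icc] at hfw
        filter_upwards [hfw] with t ht htW ht01
        have h1 := ht htW
        have h2 : Tendsto (fun N => (M : ℂ) * av N fun n => e (t * φ n) * (G (t0, z x n) / (M : ℂ)))
            atTop (𝓝 ((M : ℂ) * 0)) := h1.const_mul _
        rw [mul_zero] at h2
        have h3 := (tendsto_zero_iff_norm_tendsto_zero.1 h2).eventually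
          (gt_mem_nhds (show (0 : ℝ) < ε / 2 by linarith))
        have h4 : dist t t0 < δ := by
          rw [Real.dist_eq, abs_of_nonneg (by linarith [htW.1])]
          have h5 : ((i : ℝ) + 1) / q' - t0 = 1 / q' := by
            rw [ht0]
            ring
          have h6 := htW.2
          linarith
        have ht02 : t0 ∈ Set.Icc (0 : ℝ) 2 :=
          ⟨by positivity, by linarith [htW.1, ht01.2]⟩
        have h5 := hd t ⟨ht01.1, by linarith [ht01.2]⟩ t0 ht02 h4
        change ∀ᶠ N in atTop, ‖av N (P (h t x))‖ < ε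
        filter_upwards [h3] with N hN
        have h6 : (M : ℂ) * (av N fun n => e (t * φ n) * (G (t0, z x n) / (M : ℂ))) =
            av N fun n => e (t * φ n) * G (t0, z x n) := by
          unfold av
          rw [← mul_assoc, mul_comm (M : ℂ), mul_assoc, Finset.mul_sum]
          congr 1
          refine Finset.sum_congr rfl fun n _ => ?_
          have : (M : ℂ) ≠ 0 := by exact_mod_cast hM0.ne'
          field_simp
        rw [h6] at hN
        have h7 : ‖av N (P (h t x)) - av N fun n => e (t * φ n) * G (t0, z x n)‖ ≤ ε / 2 := by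
          refine fl_av_sub N _ _ (by linarith) fun n => ?_
          rw [hP, ← mul_sub, norm_mul, fl_e_norm, one_mul]
          have h8 : ‖(G.curry t) (z x n) - (G.curry t0) (z x n)‖ ≤ ε / 2 := by
            rw [← dist_eq_norm]
            exact (ContinuousMap.dist_apply_le_dist _).trans h5.le
          exact h8
        have h9 := norm_add_le (av N (P (h t x)) - av N fun n => e (t * φ n) * G (t0, z x n))
          (av N fun n => e (t * φ n) * G (t0, z x n))
        rw [sub_add_cancel] at h9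
        linarith
      filter_upwards [ae_all_iff.2 hall] with t ht ht01
      refine ht ⌊t * q'⌋₊ ⟨?_, ?_⟩ ht01
      · rw [div_le_iff₀ hq0]
        exact Nat.floor_le (mul_nonneg ht01.1 hq0.le)
      · rw [le_div_iff₀ hq0]
        exact (Nat.lt_floor_add_one _).le
    have hmeas : Measurable fun p : X × ℝ => h p.2 p.1 := by
      have h1 : Measurable fun p : ℝ × X => h p.1 p.2 := hh.measurable
      exact h1.comp measurable_swap
    have hcomm : ∀ᵐ t ∂(volume.restrict (Set.Icc (0 : ℝ) 1)), ∀ᵐ x ∂μ, h t x ∈ E :=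
      (Measure.ae_ae_comm (μ := μ) (ν := volume.restrict (Set.Icc (0 : ℝ) 1))
        (p := fun x t => h t x ∈ E) (hmeas hE)).1 (Eventually.of_forall hwin)
    have hne : (ae (volume.restrict (Set.Icc (0 : ℝ) 1))).NeBot := by
      rw [ae_neBot, Ne, Measure.restrict_eq_zero, Real.volume_Icc]
      simp
    obtain ⟨t, ht⟩ := hcomm.exists
    have h1 : μ Eᶜ = 0 := by
      rw [← (hμ t).measure_preimage hE.compl.nullMeasurableSet]
      exact ht
    exact h1
  have hfin : ∀ᵐ x ∂μ, ∀ k : ℕ, ∀ᶠ N in atTop, ‖av N (P x)‖ < 1 / ((k : ℝ) + 1) :=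
    ae_all_iff.2 fun k => key _ (by positivity)
  filter_upwards [hfin] with x hx
  rw [tendsto_zero_iff_norm_tendsto_zero, Metric.tendsto_nhds]
  intro ε hε
  obtain ⟨k, hk⟩ := exists_nat_one_div_lt hε
  filter_upwards [hx k] with N hN
  rw [dist_zero_right, norm_norm]
  exact hN.trans hk

end Pool.Agent.VINO
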