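import Pool.Agent.VINO.NDefs

/-!
# VINO / NInv: continuous invariant functions are constant

PROOFS.  `open_pos`: if `U` is open, nonempty and `μ U = 0`, then the translates `x • U` (`x : G`) cover `G ⧸ Γ`
(the action is transitive), finitely many of them cover (compactness), all have measure `0`
(`H.inv`), so `μ univ = 0`, a contradiction.
`inv_const`: by ergodicity `f` is almost everywhere constant `z`
(`Ergodic.ae_eq_const_of_ae_eq_comp` or similar, for `AEStronglyMeasurable`/`Measurable` functions to `ℂ`); the open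
set `{x | f x ≠ z}` has measure `0`, so it is empty.
-/

set_option autoImplicit false

namespace Pool.Agent.VINO

open MeasureTheory Filter Topology

theorem open_pos {G : Type*} [Group G] [TopologicalSpace G] [IsTopologicalGroup G]
    {Γ : Subgroup G} [CompactSpace (G ⧸ Γ)] [MeasurableSpace (G ⧸ Γ)] [BorelSpace (G ⧸ Γ)]
    {μ : Measure (G ⧸ Γ)} [IsProbabilityMeasure μ] {g : G} (H : NilHyp G Γ μ g)
    {U : Set (G ⧸ Γ)} (hU : IsOpen U) (hne : U.Nonempty) : μ U ≠ 0 := by
  intro h0
  obtain ⟨u, hu⟩ := hne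
  have hc : ∀ x : G, Continuous fun y : G ⧸ Γ => x • y := fun x => continuous_const_smul x
  obtain ⟨t, ht⟩ := isCompact_univ.elim_finite_subcover
    (fun x : G => (fun y : G ⧸ Γ => x • y) ⁻¹' U) (fun x => hU.preimage (hc x)) (by
      intro y _
      obtain ⟨x, hx⟩ := MulAction.exists_smul_eq G y u
      refine Set.mem_iUnion.2 ⟨x, ?_⟩
      show x • y ∈ U
      rw [hx]
      exact hu)
  have h1 : μ (⋃ x ∈ t, (fun y : G ⧸ Γ => x • y) ⁻¹' U) = 0 := by
    refine (measure_biUnion_null_iff t.countable_toSet).2 ?_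
    intro x _
    rw [(H.inv x).measure_preimage hU.measurableSet.nullMeasurableSet]
    exact h0
  have h2 : μ Set.univ = 0 := measure_mono_null ht h1
  rw [measure_univ] at h2
  exact one_ne_zero h2

theorem inv_const {G : Type*} [Group G] [TopologicalSpace G] [IsTopologicalGroup G]
    {Γ : Subgroup G} [CompactSpace (G ⧸ Γ)] [MeasurableSpace (G ⧸ Γ)] [BorelSpace (G ⧸ Γ)]
    {μ : Measure (G ⧸ Γ)} [IsProbabilityMeasure μ] {g : G} (H : NilHyp G Γ μ g)
    (f : C(G ⧸ Γ, ℂ)) (hf : ∀ x, f (g • x) = f x) : ∃ z : ℂ, ∀ x, f x = z := by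
  obtain ⟨z, hz⟩ := H.erg.quasiErgodic.ae_eq_const_of_ae_eq_comp_ae (g := f)
    f.continuous.aestronglyMeasurable (Filter.Eventually.of_forall hf)
  refine ⟨z, ?_⟩
  by_contra hcon
  push Not at hcon
  obtain ⟨x, hx⟩ := hcon
  have hU : IsOpen {x : G ⧸ Γ | f x ≠ z} := isOpen_ne_fun f.continuous continuous_const
  refine open_pos H hU ⟨x, hx⟩ ?_
  exact hz

end Pool.Agent.VINO
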