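import Pool.Agent.VINO.NGen
import Pool.Agent.VINO.NInv
import Pool.Agent.Kur.OB

/-!
# VINO / NChar: a nontrivial character is seen by a path

PROOF.  For `x : G`, `u ∈ LL G n` let `B x u = χ ⁅x, u⁆` (`⁅x, u⁆ ∈ LL G (n+1)`). By `comm_mul_left`, `comm_mul_right` and
`h2`, `B` is multiplicative in `x : G` and in `u ∈ LL G n`; it is continuous in `x`, and in `u ∈ LL G n`
(jointly continuous on `G × LL G n`).
(1) `B g u = 1` for `u ∈ LL G n`: true on `Gens g n` (paths: `hp`; `w ∈ LL G (n+1)`: `⁅g, w⁆ ∈ LL G (n+2)`, `h2`;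
`n = 0`, `u = g`: `⁅g, g⁆ = 1`), so on `Subgroup.closure (Gens g n)`, a subgroup of `LL G n`, and by continuity and
`gens_dense` on `LL G n`.
(2) For `δ ∈ Γ ∩ LL G n`: `x ↦ B x δ` is a continuous homomorphism `G → Circle`, trivial on `Γ` (`⁅γ, δ⁆` is in
`Γ ∩ LL G (n+1)`: `hΓ`), so it defines a continuous function on `G ⧸ Γ` (`QuotientGroup.lift` / `Quotient.lift` with
`B (x γ) δ = B x δ B γ δ`), invariant under `g` by (1); by `inv_const` it is constant, equal to its value `1` at `1`.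
(3) Let `φ` be a one-parameter subgroup of `G`. Claim: there is `δ₀ > 0` with `‖B (φ t) u - 1‖ < 1` for all
`|t| < δ₀`, `u ∈ LL G n`. For `u₀ ∈ LL G n` there are an open `V ∋ u₀` in `LL G n` and `δ' > 0` with this property for
`u ∈ V`, `|t| < δ'` (joint continuity, `B 1 u₀ = 1`); the images of the `V` in the compact
`LL G n ⧸ Γ.subgroupOf (LL G n)` are open (the quotient map is open) and finitely many cover; `B x (u γ) = B x u` for
`γ ∈ Γ ∩ LL G n` by (2). For `|t| < δ₀` all powers `B (φ t) u ^ m = B (φ t) (u ^ m)` are at distance `< 1` from `1`, so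
`B (φ t) u = 1` (`Pool.Agent.Kur.circle_eq_one_of_forall`). For all `t`: `φ t = φ (t/k) ^ k`.
(4) For `u ∈ LL G n` the set `{x | B x u = 1}` is a closed subgroup of `G` containing `g` (1) and all one-parameter
subgroups (3), so it is `G` (`H.gen`). `LL G (n+1)` is generated by the commutators `⁅u, x⁆ = ⁅x, u⁆⁻¹`
(`Subgroup.closure_induction`, `mem_lowerCentralSeries_succ_iff`), so `χ = 1` on it.
-/

set_option autoImplicit false

namespace Pool.Agent.VINO

open MeasureTheory Filter Topology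
open scoped commutatorElement

section Aux

variable {G : Type*} [Group G]

private theorem chr_one {n : ℕ} (χ : G → Circle) (h2 : ∀ w ∈ LL G (n + 2), χ w = 1) :
    χ 1 = 1 := h2 1 (one_mem _)

private theorem B_mul_left {n : ℕ} (χ : G → Circle)
    (hχ : ∀ u ∈ LL G (n + 1), ∀ v ∈ LL G (n + 1), χ (u * v) = χ u * χ v)
    (h2 : ∀ w ∈ LL G (n + 2), χ w = 1) (x x' : G) {u : G} (hu : u ∈ LL G n) :
    χ ⁅x * x', u⁆ = χ ⁅x, u⁆ * χ ⁅x', u⁆ := by
  obtain ⟨w, hw, h⟩ := comm_mul_left x x' hu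
  rw [h, hχ _ (mul_mem (comm_mem hu x) (comm_mem hu x')) _ (LL_anti _ hw),
    hχ _ (comm_mem hu x) _ (comm_mem hu x'), h2 w hw, mul_one]

private theorem B_mul_right {n : ℕ} (χ : G → Circle)
    (hχ : ∀ u ∈ LL G (n + 1), ∀ v ∈ LL G (n + 1), χ (u * v) = χ u * χ v)
    (h2 : ∀ w ∈ LL G (n + 2), χ w = 1) (x : G) {u u' : G} (hu : u ∈ LL G n)
    (hu' : u' ∈ LL G n) :
    χ ⁅x, u * u'⁆ = χ ⁅x, u⁆ * χ ⁅x, u'⁆ := by
  obtain ⟨w, hw, h⟩ := comm_mul_right x hu hu'
  rw [h, hχ _ (mul_mem (comm_mem hu x) (comm_mem hu' x)) _ (LL_anti _ hw),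
    hχ _ (comm_mem hu x) _ (comm_mem hu' x), h2 w hw, mul_one]

private theorem B_inv_left {n : ℕ} (χ : G → Circle)
    (hχ : ∀ u ∈ LL G (n + 1), ∀ v ∈ LL G (n + 1), χ (u * v) = χ u * χ v)
    (h2 : ∀ w ∈ LL G (n + 2), χ w = 1) (x : G) {u : G} (hu : u ∈ LL G n) :
    χ ⁅x⁻¹, u⁆ = (χ ⁅x, u⁆)⁻¹ := by
  have h := B_mul_left χ hχ h2 x⁻¹ x hu
  rw [inv_mul_cancel, commutatorElement_one_left, chr_one χ h2] at h
  exact eq_inv_of_mul_eq_one_left h.symm

private theorem B_inv_right {n : ℕ} (χ : G → Circle)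
    (hχ : ∀ u ∈ LL G (n + 1), ∀ v ∈ LL G (n + 1), χ (u * v) = χ u * χ v)
    (h2 : ∀ w ∈ LL G (n + 2), χ w = 1) (x : G) {u : G} (hu : u ∈ LL G n) :
    χ ⁅x, u⁻¹⁆ = (χ ⁅x, u⁆)⁻¹ := by
  have h := B_mul_right χ hχ h2 x (inv_mem hu) hu
  rw [inv_mul_cancel, commutatorElement_one_right, chr_one χ h2] at h
  exact eq_inv_of_mul_eq_one_left h.symm

private theorem B_pow_left {n : ℕ} (χ : G → Circle)
    (hχ : ∀ u ∈ LL G (n + 1), ∀ v ∈ LL G (n + 1), χ (u * v) = χ u * χ v)
    (h2 : ∀ w ∈ LL G (n + 2), χ w = 1) (x : G) {u : G} (hu : u ∈ LL G n) (m : ℕ) :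
    χ ⁅x ^ m, u⁆ = (χ ⁅x, u⁆) ^ m := by
  induction m with
  | zero => rw [pow_zero, pow_zero, commutatorElement_one_left, chr_one χ h2]
  | succ m ih => rw [pow_succ, B_mul_left χ hχ h2 _ _ hu, ih, pow_succ]

private theorem B_pow_right {n : ℕ} (χ : G → Circle)
    (hχ : ∀ u ∈ LL G (n + 1), ∀ v ∈ LL G (n + 1), χ (u * v) = χ u * χ v)
    (h2 : ∀ w ∈ LL G (n + 2), χ w = 1) (x : G) {u : G} (hu : u ∈ LL G n) (m : ℕ) :
    χ ⁅x, u ^ m⁆ = (χ ⁅x, u⁆) ^ m := by
  induction m with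
  | zero => rw [pow_zero, pow_zero, commutatorElement_one_right, chr_one χ h2]
  | succ m ih => rw [pow_succ, B_mul_right χ hχ h2 _ (pow_mem hu m) hu, ih, pow_succ]

end Aux

theorem char_triv {G : Type*} [Group G] [TopologicalSpace G] [IsTopologicalGroup G]
    {Γ : Subgroup G} [CompactSpace (G ⧸ Γ)] [MeasurableSpace (G ⧸ Γ)] [BorelSpace (G ⧸ Γ)]
    {μ : Measure (G ⧸ Γ)} [IsProbabilityMeasure μ] {g : G} (H : NilHyp G Γ μ g) (n : ℕ)
    (χ : G → Circle) (hχ : IsChr (n + 1) χ) (h2 : ∀ w ∈ LL G (n + 2), χ w = 1)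
    (hΓ : ∀ w ∈ LL G (n + 1), w ∈ Γ → χ w = 1)
    (hp : ∀ h : ℝ → G, IsPath n h → ∀ t, χ ⁅g, h t⁆ = 1) :
    ∀ u ∈ LL G (n + 1), χ u = 1 := by
  have hm := hχ.mul
  have hone : χ 1 = 1 := chr_one χ h2
  -- continuity
  have hcx : ∀ u ∈ LL G n, Continuous fun x : G => χ ⁅x, u⁆ := by
    intro u hu
    refine hχ.cont.comp_continuous ?_ (fun x => comm_mem hu x)
    simp only [commutatorElement_def]
    fun_prop
  have hcj : Continuous fun p : G × LL G n => χ ⁅p.1, (p.2 : G)⁆ := by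
    refine hχ.cont.comp_continuous ?_ (fun p => comm_mem p.2.2 p.1)
    simp only [commutatorElement_def]
    fun_prop
  have hcu : ∀ x : G, ContinuousOn (fun u : G => χ ⁅x, u⁆) (LL G n : Set G) := by
    intro x
    have hc : Continuous fun u : G => ⁅x, u⁆ := by
      simp only [commutatorElement_def]
      fun_prop
    exact hχ.cont.comp hc.continuousOn (fun u hu => comm_mem hu x)
  -- step (1)
  have h1 : ∀ u ∈ LL G n, χ ⁅g, u⁆ = 1 := by
    let S : Subgroup G :=
      { carrier := {u | u ∈ LL G n ∧ χ ⁅g, u⁆ = 1}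
        one_mem' := ⟨one_mem _, by rw [commutatorElement_one_right, hone]⟩
        mul_mem' := by
          rintro a b ⟨ha, ha'⟩ ⟨hb, hb'⟩
          exact ⟨mul_mem ha hb, by rw [B_mul_right χ hm h2 g ha hb, ha', hb', mul_one]⟩
        inv_mem' := by
          rintro a ⟨ha, ha'⟩
          exact ⟨inv_mem ha, by rw [B_inv_right χ hm h2 g ha, ha', inv_one]⟩ }
    have hS : Subgroup.closure (Gens g n) ≤ S := by
      rw [Subgroup.closure_le]
      rintro x ((⟨h, hh, t, rfl⟩ | hx) | ⟨hn, hx⟩)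
      · exact ⟨hh.mem t, hp h hh t⟩
      · exact ⟨LL_anti n hx, h2 _ (comm_mem hx g)⟩
      · refine ⟨?_, ?_⟩
        · subst hn
          exact Subgroup.mem_top x
        · rw [hx, commutatorElement_self, hone]
    intro u hu
    have hcl := gens_dense g H.gen n hu
    have hw : ContinuousWithinAt (fun u : G => χ ⁅g, u⁆)
        (Subgroup.closure (Gens g n) : Set G) u :=
      (hcu g u hu).mono fun v hv => (hS hv).1
    have h3 := hw.mem_closure hcl (t := {(1 : Circle)}) fun v hv => (hS hv).2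
    rw [closure_singleton] at h3
    exact h3
  -- step (2)
  have hs2 : ∀ δ ∈ LL G n, δ ∈ Γ → ∀ x : G, χ ⁅x, δ⁆ = 1 := by
    intro δ hδ hδΓ x
    have hwd : ∀ a b : G, (QuotientGroup.leftRel Γ).r a b → χ ⁅a, δ⁆ = χ ⁅b, δ⁆ := by
      intro a b hab
      have hab' : a⁻¹ * b ∈ Γ := QuotientGroup.leftRel_apply.1 hab
      have e1 : b = a * (a⁻¹ * b) := by group
      have e2 : χ ⁅a⁻¹ * b, δ⁆ = 1 := by
        refine hΓ _ (comm_mem hδ _) ?_
        rw [commutatorElement_def]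
        exact mul_mem (mul_mem (mul_mem hab' hδΓ) (inv_mem hab')) (inv_mem hδΓ)
      rw [e1, B_mul_left χ hm h2 _ _ hδ, e2, mul_one]
    let F : G ⧸ Γ → Circle := Quotient.lift (fun a : G => χ ⁅a, δ⁆) hwd
    have hF : ∀ a : G, F (QuotientGroup.mk a) = χ ⁅a, δ⁆ := fun a => rfl
    have hFc : Continuous F := (hcx δ hδ).quotient_lift hwd
    let F' : C(G ⧸ Γ, ℂ) := ⟨fun y => (F y : ℂ), continuous_subtype_val.comp hFc⟩
    obtain ⟨z, hz⟩ := inv_const H F' (by
      intro y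
      obtain ⟨a, rfl⟩ := QuotientGroup.mk_surjective y
      show (F (QuotientGroup.mk (g * a)) : ℂ) = (F (QuotientGroup.mk a) : ℂ)
      rw [hF, hF, B_mul_left χ hm h2 _ _ hδ, h1 δ hδ, one_mul])
    have e1 : (F (QuotientGroup.mk x) : ℂ) = z := hz _
    have e2 : (F (QuotientGroup.mk 1) : ℂ) = z := hz _
    have e3 : F (QuotientGroup.mk x) = F (QuotientGroup.mk 1) := Circle.ext (e1.trans e2.symm)
    rw [hF, hF, commutatorElement_one_left, hone] at e3
    exact e3
  -- step (3)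
  have hs3 : ∀ φ : ℝ → G, Continuous φ → (∀ s t, φ (s + t) = φ s * φ t) →
      ∀ t, ∀ u ∈ LL G n, χ ⁅φ t, u⁆ = 1 := by
    intro φ hφ hφa
    have hφ0 : φ 0 = 1 := by
      have := hφa 0 0
      rw [add_zero] at this
      exact (mul_eq_left.1 this.symm)
    have _ : CompactSpace (LL G n ⧸ Γ.subgroupOf (LL G n)) := H.coc n
    have hev : ∀ᶠ t in 𝓝 (0 : ℝ), ∀ u : LL G n, ‖((χ ⁅φ t, (u : G)⁆ : Circle) : ℂ) - 1‖ < 1 := by
      have hP := (isCompact_univ (X := LL G n ⧸ Γ.subgroupOf (LL G n))).eventually_forall_of_forall_eventually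
        (x₀ := (0 : ℝ)) (P := fun t k => ∀ u : LL G n, (QuotientGroup.mk u : LL G n ⧸ Γ.subgroupOf (LL G n)) = k →
          ‖((χ ⁅φ t, (u : G)⁆ : Circle) : ℂ) - 1‖ < 1) (by
        intro k _
        obtain ⟨u₀, rfl⟩ := QuotientGroup.mk_surjective k
        have hop : IsOpenMap (Prod.map (id : ℝ → ℝ)
            (QuotientGroup.mk : LL G n → LL G n ⧸ Γ.subgroupOf (LL G n))) :=
          IsOpenMap.id.prodMap QuotientGroup.isOpenMap_coe
        refine (hop.nhds_le (0, u₀)) ?_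
        rw [Filter.mem_map]
        have hc : Continuous fun p : ℝ × LL G n =>
            ‖((χ ⁅φ p.1, (p.2 : G)⁆ : Circle) : ℂ) - 1‖ := by
          have := hcj.comp ((hφ.comp continuous_fst).prodMk
            (continuous_snd (X := ℝ) (Y := LL G n)))
          exact ((continuous_subtype_val.comp this).sub continuous_const).norm
        have hev := (hc.tendsto (0, u₀)).eventually_lt_const (u := 1) (by
          show ‖((χ ⁅φ 0, (u₀ : G)⁆ : Circle) : ℂ) - 1‖ < 1
          rw [hφ0, commutatorElement_one_left, hone]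
          simp)
        filter_upwards [hev] with p hpp
        show ∀ u : LL G n, (QuotientGroup.mk u : LL G n ⧸ Γ.subgroupOf (LL G n)) =
          QuotientGroup.mk p.2 → ‖((χ ⁅φ p.1, (u : G)⁆ : Circle) : ℂ) - 1‖ < 1
        intro u hu
        have hmem := QuotientGroup.eq.1 hu.symm
        rw [Subgroup.mem_subgroupOf] at hmem
        have hmem' : (p.2 : G)⁻¹ * (u : G) ∈ Γ := hmem
        have hLL : (p.2 : G)⁻¹ * (u : G) ∈ LL G n := mul_mem (inv_mem p.2.2) u.2
        have e1 : (u : G) = (p.2 : G) * ((p.2 : G)⁻¹ * (u : G)) := by group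
        rw [e1, B_mul_right χ hm h2 _ p.2.2 hLL, hs2 _ hLL hmem', mul_one]
        exact hpp)
      filter_upwards [hP] with t ht u
      exact ht _ (Set.mem_univ _) u rfl
    have hev2 : ∀ᶠ t in 𝓝 (0 : ℝ), ∀ u ∈ LL G n, χ ⁅φ t, u⁆ = 1 := by
      filter_upwards [hev] with t ht u hu
      apply Pool.Agent.Kur.circle_eq_one_of_forall
      intro k
      rw [← B_pow_right χ hm h2 _ hu k]
      exact (ht ⟨u ^ k, pow_mem hu k⟩).le
    intro t u hu
    have hlim : Tendsto (fun k : ℕ => t / ((k : ℝ) + 1)) atTop (𝓝 0) := by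
      have := (tendsto_one_div_add_atTop_nhds_zero_nat (𝕜 := ℝ)).const_mul t
      rw [mul_zero] at this
      refine this.congr fun k => ?_
      ring
    obtain ⟨k, hk⟩ := (hlim.eventually hev2).exists
    have hpw : ∀ (s : ℝ) (m : ℕ), φ ((m : ℝ) * s) = φ s ^ m := by
      intro s m
      induction m with
      | zero => rw [Nat.cast_zero, zero_mul, hφ0, pow_zero]
      | succ m ih =>
        rw [Nat.cast_succ, add_mul, one_mul, hφa, ih, pow_succ]
    have e1 : t = ((k + 1 : ℕ) : ℝ) * (t / ((k : ℝ) + 1)) := by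
      have : (k : ℝ) + 1 ≠ 0 := by positivity
      push_cast
      field_simp
    rw [e1, hpw, B_pow_left χ hm h2 _ hu, hk u hu, one_pow]
  -- step (4)
  have hs4 : ∀ x : G, ∀ u ∈ LL G n, χ ⁅x, u⁆ = 1 := by
    intro x u hu
    let S : Subgroup G :=
      { carrier := {x | χ ⁅x, u⁆ = 1}
        one_mem' := by
          show χ ⁅1, u⁆ = 1
          rw [commutatorElement_one_left, hone]
        mul_mem' := by
          intro a b ha hb
          have ha' : χ ⁅a, u⁆ = 1 := ha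
          have hb' : χ ⁅b, u⁆ = 1 := hb
          show χ ⁅a * b, u⁆ = 1
          rw [B_mul_left χ hm h2 _ _ hu, ha', hb', mul_one]
        inv_mem' := by
          intro a ha
          have ha' : χ ⁅a, u⁆ = 1 := ha
          show χ ⁅a⁻¹, u⁆ = 1
          rw [B_inv_left χ hm h2 _ hu, ha', inv_one] }
    have hS : Subgroup.closure ({g} ∪ {x : G | ∃ φ : ℝ → G, Continuous φ ∧
        (∀ s t, φ (s + t) = φ s * φ t) ∧ ∃ t, φ t = x}) ≤ S := by
      rw [Subgroup.closure_le]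
      rintro y (hy | ⟨φ, hφ, hφa, t, rfl⟩)
      · rw [Set.mem_singleton_iff] at hy
        rw [hy]
        exact h1 u hu
      · exact hs3 φ hφ hφa t u hu
    have hclosed : IsClosed (S : Set G) := isClosed_singleton.preimage (hcx u hu)
    have hx : x ∈ closure (Subgroup.closure ({g} ∪ {x : G | ∃ φ : ℝ → G, Continuous φ ∧
        (∀ s t, φ (s + t) = φ s * φ t) ∧ ∃ t, φ t = x}) : Set G) := by
      rw [H.gen]
      trivial
    exact closure_minimal (fun y hy => hS hy) hclosed hx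
  let T : Subgroup G :=
    { carrier := {u | u ∈ LL G (n + 1) ∧ χ u = 1}
      one_mem' := ⟨one_mem _, hone⟩
      mul_mem' := by
        rintro a b ⟨ha, ha'⟩ ⟨hb, hb'⟩
        exact ⟨mul_mem ha hb, by rw [hm a ha b hb, ha', hb', mul_one]⟩
      inv_mem' := by
        rintro a ⟨ha, ha'⟩
        refine ⟨inv_mem ha, ?_⟩
        have h := hm a⁻¹ (inv_mem ha) a ha
        rw [inv_mul_cancel, hone, ha', mul_one] at h
        exact h.symm }
  have hT : LL G (n + 1) ≤ T := by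
    show ⁅LL G n, (⊤ : Subgroup G)⁆ ≤ T
    rw [Subgroup.commutator_le]
    intro a ha b _
    refine ⟨comm_mem' ha b, ?_⟩
    have h := hm ⁅a, b⁆ (comm_mem' ha b) ⁅b, a⁆ (comm_mem ha b)
    rw [← commutatorElement_inv b a, inv_mul_cancel, hone, hs4 b a ha, mul_one] at h
    rw [← commutatorElement_inv b a]
    exact h.symm
  intro u hu
  exact (hT hu).2

end Pool.Agent.VINO
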