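import Pool.Agent.VINO.PwB
import Pool.Agent.VINO.NChar
import Pool.Agent.VINO.Cls
import Pool.Agent.VINO.Flow
import Pool.Agent.VINO.Chr

/-!
# VINO / NStepB: the induction step along the lower central series

PROOF.  Let `f j`, `j ≤ r`, be invariant under `LL G (n+2)`. By `cls` (with `V = VV Γ (n+1)`) and `pw_nil` for `n+1`, we may
assume that `f j ∈ VV Γ (n+1)` for all `j`, with characters `χ j` of `LL G (n+1)`.
If some `f j = 0`: both sides are `0`. Otherwise `χ j` is trivial on `LL G (n+2)` and on `Γ ∩ LL G (n+1)` (`chr_triv`).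
If all the `χ j` are trivial on `LL G (n+1)` then all `f j` are invariant under `LL G (n+1)`: induction hypothesis `hQ`.
Otherwise let `j₀` be such that `χ j₀` is not trivial on `LL G (n+1)`. By `char_triv` there is a path `h` at level `n` and
`t₀` with `χ j₀ ⁅g, h t₀⁆ ≠ 1`. For all `j`, `t ↦ χ j ⁅g, h t⁆` is continuous (`⁅g, h t⁆ ∈ LL G (n+1)`, `IsChr.cont`) and
multiplicative (`comm_mul_right` and `⁅g, w⁆ ∈ LL G (n+2)` for `w ∈ LL G (n+1)`), so `= e (θ j t)` by `char_real`, and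
`θ j₀ ≠ 0`. For `m : ℕ`: `f j (g^m • h t • x) = f j (⁅g^m, h t⁆ • h t • g^m • x) = χ j ⁅g^m, h t⁆ f j (h t • g^m • x)` and
`χ j ⁅g^m, h t⁆ = (χ j ⁅g, h t⁆)^m = e (θ j m t)` (`comm_pow`). By `flow` the averages tend to `0` almost everywhere.
And `∫ f j₀ dμ = 0`: `∫ f j₀ = ∫ f j₀ (u • x) dμ = χ j₀ u ∫ f j₀` for `u ∈ LL G (n+1)` with `χ j₀ u ≠ 1`.
-/

set_option autoImplicit false

namespace Pool.Agent.VINO

open MeasureTheory Filter Topology Pool.Agent.VMV
open scoped commutatorElement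

private lemma nsb_pow {G : Type*} [Group G] [TopologicalSpace G] {n : ℕ} {χ : G → Circle}
    (hχ : IsChr n χ) (h1 : χ 1 = 1) {u : G} (hu : u ∈ LL G n) (m : ℕ) :
    χ (u ^ m) = χ u ^ m := by
  induction m with
  | zero => rw [pow_zero, pow_zero, h1]
  | succ m ih => rw [pow_succ, pow_succ, hχ.mul _ ((LL G n).pow_mem hu m) _ hu, ih]

private lemma nsb_av_zero (N : ℕ) : av N (fun _ => 0) = 0 := by
  simp [av]

theorem step_succ {c : ℝ} (hc0 : 0 < c) (hc1 : c < 1) {G : Type*} [Group G]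
    [TopologicalSpace G] [IsTopologicalGroup G] {Γ : Subgroup G} [CompactSpace (G ⧸ Γ)]
    [MeasurableSpace (G ⧸ Γ)] [BorelSpace (G ⧸ Γ)] {μ : Measure (G ⧸ Γ)}
    [IsProbabilityMeasure μ] {g : G} (H : NilHyp G Γ μ g) (n : ℕ) (hQ : QQ c Γ μ g (n + 1)) :
    QQ c Γ μ g (n + 2) := by
  intro r f hf
  refine cls c μ _ (VV Γ (n + 1)) ?_ f (fun j => pw_nil (n + 1) (H.coc (n + 1)) (f j) (hf j))
  clear hf f
  intro f hfV
  choose hinv χ hχ hfχ using hfV
  by_cases hz : ∃ j, f j = 0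
  · obtain ⟨j, hj⟩ := hz
    refine Filter.Eventually.of_forall fun x => ?_
    have h1 : ∏ j, ∫ x, f j x ∂μ = 0 := by
      refine Finset.prod_eq_zero (Finset.mem_univ j) ?_
      rw [hj]
      simp
    have h2 : (fun N => av N fun n => ∏ j, f j (g ^ (a c (n + j.1)) • x)) = fun _ => 0 := by
      funext N
      have h3 : (fun n => ∏ j, f j (g ^ (a c (n + j.1)) • x)) = fun _ => 0 := by
        funext n
        refine Finset.prod_eq_zero (Finset.mem_univ j) ?_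
        rw [hj]
        rfl
      rw [h3, nsb_av_zero]
    rw [h1]
    show Tendsto (fun N => av N fun n => ∏ j, f j (g ^ (a c (n + j.1)) • x)) atTop (𝓝 0)
    rw [h2]
    exact tendsto_const_nhds
  push Not at hz
  have htriv : ∀ j, (∀ w ∈ LL G (n + 2), χ j w = 1) ∧ ∀ w ∈ LL G (n + 1), w ∈ Γ → χ j w = 1 := by
    intro j
    refine chr_triv (n := n + 1) (fun x => f j x) (hinv j) ?_ (χ j) (hfχ j)
    intro h0
    apply hz j
    ext x
    exact congrFun h0 x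
  by_cases hall : ∀ j, ∀ u ∈ LL G (n + 1), χ j u = 1
  · refine hQ r f fun j w hw x => ?_
    rw [hfχ j w hw x, hall j w hw]
    simp
  push Not at hall
  obtain ⟨j₀, u₀, hu₀, hχu₀⟩ := hall
  -- a path
  have hex : ∃ h : ℝ → G, IsPath n h ∧ ∃ t, χ j₀ ⁅g, h t⁆ ≠ 1 := by
    by_contra hcon
    push Not at hcon
    exact hχu₀ (char_triv H n (χ j₀) (hχ j₀) (htriv j₀).1 (htriv j₀).2
      (fun h hh t => hcon h hh t) u₀ hu₀)
  obtain ⟨h, hpath, t₀, ht₀⟩ := hex
  have hmem : ∀ t, ⁅g, h t⁆ ∈ LL G (n + 1) := fun t => comm_mem (hpath.mem t) g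
  have hcomm : Continuous fun t => ⁅g, h t⁆ := by
    have h1 : (fun t => ⁅g, h t⁆) = fun t => g * h t * g⁻¹ * (h t)⁻¹ := by
      funext t
      rw [commutatorElement_def]
    rw [h1]
    exact ((continuous_const.mul hpath.cont).mul continuous_const).mul hpath.cont.inv
  have hφc : ∀ j, Continuous fun t => χ j ⁅g, h t⁆ := fun j =>
    (hχ j).cont.comp_continuous hcomm hmem
  have hφadd : ∀ j s t, χ j ⁅g, h (s + t)⁆ = χ j ⁅g, h s⁆ * χ j ⁅g, h t⁆ := by
    intro j s t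
    obtain ⟨w, hw, hst⟩ := hpath.add s t
    obtain ⟨w1, hw1, e1⟩ := comm_mul_right g ((LL G n).mul_mem (hpath.mem s) (hpath.mem t))
      (LL_anti n hw)
    obtain ⟨w2, hw2, e2⟩ := comm_mul_right g (hpath.mem s) (hpath.mem t)
    have hgw : ⁅g, w⁆ ∈ LL G (n + 2) := comm_mem hw g
    have a1 : ⁅g, h s⁆ * ⁅g, h t⁆ ∈ LL G (n + 1) := (LL G (n + 1)).mul_mem (hmem s) (hmem t)
    have a2 : w2 ∈ LL G (n + 1) := LL_anti (n + 1) hw2
    have a3 : ⁅g, w⁆ ∈ LL G (n + 1) := LL_anti (n + 1) hgw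
    have a4 : w1 ∈ LL G (n + 1) := LL_anti (n + 1) hw1
    rw [hst, e1, e2, (hχ j).mul _ ((LL G (n + 1)).mul_mem ((LL G (n + 1)).mul_mem a1 a2) a3) _ a4,
      (hχ j).mul _ ((LL G (n + 1)).mul_mem a1 a2) _ a3, (hχ j).mul _ a1 _ a2,
      (hχ j).mul _ (hmem s) _ (hmem t), (htriv j).1 w1 hw1, (htriv j).1 w2 hw2,
      (htriv j).1 _ hgw, mul_one, mul_one, mul_one]
  choose θ hθ using fun j => char_real (fun t => χ j ⁅g, h t⁆) (hφc j) (hφadd j)
  have hθ0 : θ ≠ 0 := by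
    intro h0
    apply ht₀
    have h1 := hθ j₀ t₀
    rw [h0] at h1
    have h2 : e ((0 : Fin (r + 1) → ℝ) j₀ * t₀) = 1 := by
      rw [Pi.zero_apply, zero_mul]
      exact (e_eq_one 0).2 ⟨0, by simp⟩
    rw [h2] at h1
    exact Circle.ext h1
  have hone : ∀ j, χ j 1 = 1 := fun j => (htriv j).1 1 (Subgroup.one_mem _)
  have heq : ∀ j (m : ℕ) (t : ℝ) (x : G ⧸ Γ),
      f j (g ^ m • (h t • x)) = e (θ j * m * t) * f j (h t • (g ^ m • x)) := by
    intro j m t x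
    have h1 : g ^ m • (h t • x) = ⁅g ^ m, h t⁆ • (h t • (g ^ m • x)) := by
      rw [smul_smul, smul_smul, smul_smul, commutatorElement_def]
      congr 1
      group
    have hm1 : ⁅g ^ m, h t⁆ ∈ LL G (n + 1) := comm_mem (hpath.mem t) _
    rw [h1, hfχ j _ hm1]
    congr 1
    obtain ⟨w, hw, ew⟩ := comm_pow g (hpath.mem t) m
    rw [ew, (hχ j).mul _ ((LL G (n + 1)).pow_mem (hmem t) m) _ (LL_anti (n + 1) hw),
      (htriv j).1 w hw, mul_one, nsb_pow (hχ j) (hone j) (hmem t) m, Circle.coe_pow, hθ j t,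
      e_pow]
    congr 1
    ring
  have hflow := flow hc0 hc1 μ f (fun m x => g ^ m • x) (fun m => continuous_const_smul _)
    (fun t x => h t • x) ((hpath.cont.comp continuous_fst).smul continuous_snd)
    (fun t => H.inv (h t)) θ hθ0 heq
  -- the integral of `f j₀`
  have hint : ∫ x, f j₀ x ∂μ = 0 := by
    have h1 : ∫ x, f j₀ (u₀ • x) ∂μ = ∫ x, f j₀ x ∂μ :=
      (H.inv u₀).integral_comp (Homeomorph.smul u₀).measurableEmbedding (fun x => f j₀ x)
    have h2 : ∫ x, f j₀ (u₀ • x) ∂μ = (χ j₀ u₀ : ℂ) * ∫ x, f j₀ x ∂μ := by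
      rw [← integral_const_mul]
      exact integral_congr_ae (Filter.Eventually.of_forall fun x => hfχ j₀ u₀ hu₀ x)
    rw [h1] at h2
    have h3 : (1 - (χ j₀ u₀ : ℂ)) * ∫ x, f j₀ x ∂μ = 0 := by
      rw [sub_mul, one_mul, ← h2, sub_self]
    rcases mul_eq_zero.1 h3 with h4 | h4
    · exfalso
      apply hχu₀
      apply Circle.ext
      rw [Circle.coe_one]
      exact (sub_eq_zero.1 h4).symm
    · exact h4
  have hprod : ∏ j, ∫ x, f j x ∂μ = 0 := Finset.prod_eq_zero (Finset.mem_univ j₀) hint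
  show ∀ᵐ x ∂μ, Tendsto (fun N => av N fun n => ∏ j, f j (g ^ (a c (n + j.1)) • x)) atTop
    (𝓝 (∏ j, ∫ x, f j x ∂μ))
  rw [hprod]
  exact hflow

end Pool.Agent.VINO
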