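import Pool.Agent.VINO.NStepA
import Pool.Agent.VINO.NStepB
import Pool.Agent.VINO.FurB

/-!
# VINO / NFin: the theorem for nilsystems

PROOF.  `QQ c Γ μ g (n+1)` for all `n` by induction (`step_zero`, `step_succ`). `G` is nilpotent, so `LL G n = ⊥` for some
`n` (and so `LL G (n+1) = ⊥`): `Group.nilpotent_iff_lowerCentralSeries`; every function is invariant. So `PP` holds for
all tuples of continuous functions; apply it to `f_j = mono (p j) ∘ f` for the countably many `r`, `p`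
(`ae_all_iff`). For almost all `x`, `furB` with `d n = f (g^(a c n) • x)`, `Λ₀ p = ∫ mono p ∘ f dμ`.
-/

set_option autoImplicit false

namespace Pool.Agent.VINO

open MeasureTheory Filter Topology

theorem nil_main {c : ℝ} (hc0 : 0 < c) (hc1 : c < 1 / 2) {G : Type*} [Group G]
    [TopologicalSpace G] [IsTopologicalGroup G] {Γ : Subgroup G} [CompactSpace (G ⧸ Γ)]
    [MeasurableSpace (G ⧸ Γ)] [BorelSpace (G ⧸ Γ)] {μ : Measure (G ⧸ Γ)}
    [IsProbabilityMeasure μ] {g : G} (H : NilHyp G Γ μ g) (f : C(G ⧸ Γ, ℂ)) :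
    ∀ᵐ x ∂μ, HasBernoulliFS fun n => f (g ^ a c n • x) := by
  have hQ : ∀ n, QQ c Γ μ g (n + 1) := by
    intro n
    induction n with
    | zero => exact step_zero hc0 hc1 H
    | succ n ih => exact step_succ hc0 (by linarith) H n ih
  obtain ⟨n, hn⟩ := Subgroup.nilpotent_iff_lowerCentralSeries.1 H.nil
  have hn1 : LL G (n + 1) = ⊥ := by
    rw [eq_bot_iff]
    exact (Subgroup.lowerCentralSeries_antitone (S := (⊤ : Subgroup G)) (Nat.le_succ n)).trans hn.le
  have hPP : ∀ (r : ℕ) (φ : Fin (r + 1) → C(G ⧸ Γ, ℂ)), PP c μ (fun m x => g ^ m • x) φ := by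
    intro r φ
    refine hQ n r φ (fun j w hw x => ?_)
    rw [hn1, Subgroup.mem_bot] at hw
    rw [hw, one_smul]
  have key : ∀ᵐ x ∂μ, ∀ (q : Σ r : ℕ, Fin (r + 1) → ℕ × ℕ),
      Tendsto (fun N => av N fun n => ∏ j, mono (q.2 j) (f (g ^ a c (n + j.1) • x))) atTop
        (𝓝 (∏ j, ∫ x, mono (q.2 j) (f x) ∂μ)) := by
    rw [ae_all_iff]
    rintro ⟨r, p⟩
    exact hPP r (fun j => (mono (p j)).comp f)
  filter_upwards [key] with x hx
  refine furB _ ⟨‖f‖, fun n => ContinuousMap.norm_coe_le_norm f _⟩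
    (fun p => ∫ x, mono p (f x) ∂μ) ?_
  intro r p
  exact hx ⟨r, p⟩

end Pool.Agent.VINO
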