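import Pool.Agent.VINO.EMain
import Pool.Agent.VINO.NFin

/-!
# VINO / ENil: nilsystems, bounded measurable functions

PROOFS.  `nil_cont`: `QQ c Γ μ g (n+1)` for all `n` (`step_zero`, `step_succ`), nilpotency (as in `NFin.lean`) gives `PP` for all
tuples of continuous functions; `PP` for the tuple and for the single functions `f j` (`r = 0`) give `Prd` with
`l j = ∫ f j dμ` (`(g • ·)^[m] y = g ^ m • y`).
`nil_bdd`: `ext_main` with `V` = continuous functions, `W` = all bounded measurable functions; density of the continuous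
functions in `L²` for weakly regular measures on compact Hausdorff spaces:
`MeasureTheory.MemLp.exists_boundedContinuous_eLpNorm_sub_le` (or the version for compact support).
`nil_factor`: an `ℱ`-measurable bounded function, `ℱ = comap π`, is `F ∘ π` with `F` measurable
(`Measurable.exists_eq_measurable_comp`-type lemma: search `Measurable` `factorsThrough`/`exists_measurable_comp`), and bounded
after truncation; `prd_factor`.
-/

set_option autoImplicit false

namespace Pool.Agent.VINO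

open MeasureTheory Filter Topology

universe u v

theorem nil_PP {c : ℝ} (hc0 : 0 < c) (hc1 : c < 1 / 2) {G : Type*} [Group G]
    [TopologicalSpace G] [IsTopologicalGroup G] {Γ : Subgroup G} [CompactSpace (G ⧸ Γ)]
    [MeasurableSpace (G ⧸ Γ)] [BorelSpace (G ⧸ Γ)] {μ : Measure (G ⧸ Γ)}
    [IsProbabilityMeasure μ] {g : G} (H : NilHyp G Γ μ g) (r : ℕ)
    (φ : Fin (r + 1) → C(G ⧸ Γ, ℂ)) : PP c μ (fun m x => g ^ m • x) φ := by
  have hQ : ∀ n, QQ c Γ μ g (n + 1) := by
    intro n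
    induction n with
    | zero => exact step_zero hc0 hc1 H
    | succ n ih => exact step_succ hc0 (by linarith) H n ih
  obtain ⟨n, hn⟩ := Subgroup.nilpotent_iff_lowerCentralSeries.1 H.nil
  have hn1 : LL G (n + 1) = ⊥ := by
    rw [eq_bot_iff]
    exact (Subgroup.lowerCentralSeries_antitone (S := (⊤ : Subgroup G)) (Nat.le_succ n)).trans hn.le
  refine hQ n r φ (fun j w hw x => ?_)
  rw [hn1, Subgroup.mem_bot] at hw
  rw [hw, one_smul]

/-- continuous functions are dense in the square integrable functions -/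
private theorem dense_sq {Y : Type*} [TopologicalSpace Y] [CompactSpace Y] [NormalSpace Y]
    [MeasurableSpace Y] [BorelSpace Y] (μ : Measure Y) [IsProbabilityMeasure μ]
    [μ.WeaklyRegular] (f : Y → ℂ) (hf : Bdd f) (ε : ℝ) (hε : 0 < ε) :
    ∃ h : C(Y, ℂ), ∫ x, ‖f x - h x‖ ^ 2 ∂μ ≤ ε := by
  obtain ⟨hm, M, hM⟩ := hf
  have h1 : MemLp f (ENNReal.ofReal 2) μ :=
    MemLp.of_bound hm.aestronglyMeasurable M (Filter.Eventually.of_forall hM)
  obtain ⟨g, hg, _⟩ := h1.exists_boundedContinuous_integral_rpow_sub_le (by norm_num) hε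
  refine ⟨g.toContinuousMap, ?_⟩
  refine le_trans (le_of_eq ?_) hg
  refine integral_congr_ae (Filter.Eventually.of_forall (fun x => ?_))
  show ‖f x - g x‖ ^ 2 = ‖f x - g x‖ ^ (2 : ℝ)
  rw [Real.rpow_two]

theorem nil_cont {c : ℝ} (hc0 : 0 < c) (hc1 : c < 1 / 2) {G' : Type*} [Group G']
    [TopologicalSpace G'] [IsTopologicalGroup G'] {Γ : Subgroup G'} [CompactSpace (G' ⧸ Γ)]
    [MeasurableSpace (G' ⧸ Γ)] [BorelSpace (G' ⧸ Γ)] {μ : Measure (G' ⧸ Γ)}
    [IsProbabilityMeasure μ] {g : G'} (H : NilHyp G' Γ μ g) {r : ℕ}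
    (f : Fin (r + 1) → C(G' ⧸ Γ, ℂ)) : Prd c μ (fun y => g • y) fun j x => f j x := by
  have h1 := nil_PP hc0 hc1 H r f
  have h2 : ∀ᵐ x ∂μ, ∀ j, Tendsto (fun N => av N fun n => f j (g ^ a c n • x)) atTop
      (𝓝 (∫ x, f j x ∂μ)) := by
    rw [ae_all_iff]
    intro j
    filter_upwards [nil_PP hc0 hc1 H 0 (fun _ => f j)] with x hx
    simpa using hx
  filter_upwards [h1, h2] with x hx1 hx2
  refine ⟨fun j => ∫ x, f j x ∂μ, fun j => ?_, ?_⟩
  · have h3 : (fun N => av N fun n => f j ((fun y => g • y)^[a c n] x)) =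
        fun N => av N fun n => f j (g ^ a c n • x) := by
      simp only [smul_iterate_apply]
    rw [h3]
    exact hx2 j
  · have h3 : (fun N => av N fun n => ∏ j, f j ((fun y => g • y)^[a c (n + j.1)] x)) =
        fun N => av N fun n => ∏ j, f j (g ^ a c (n + j.1) • x) := by
      simp only [smul_iterate_apply]
    rw [h3]
    exact hx1

theorem nil_bdd {c : ℝ} (hc0 : 0 < c) (hc1 : c < 1 / 2) {G' : Type*} [Group G']
    [TopologicalSpace G'] [IsTopologicalGroup G'] {Γ : Subgroup G'} [CompactSpace (G' ⧸ Γ)]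
    [T2Space (G' ⧸ Γ)] [MeasurableSpace (G' ⧸ Γ)] [BorelSpace (G' ⧸ Γ)] {μ : Measure (G' ⧸ Γ)}
    [IsProbabilityMeasure μ] [μ.WeaklyRegular] {g : G'} (H : NilHyp G' Γ μ g) {r : ℕ}
    (f : Fin (r + 1) → (G' ⧸ Γ) → ℂ) (hf : ∀ j, Bdd (f j)) : Prd c μ (fun y => g • y) f := by
  refine ext_main hc0 hc1 μ (fun y => g • y) (H.inv g)
    {h | ∃ φ : C(G' ⧸ Γ, ℂ), h = fun x => φ x} {h | Bdd h} ⟨fun x => (0 : C(G' ⧸ Γ, ℂ)) x, 0, rfl⟩
    ?_ (fun f hf => hf) ?_ ?_ r f hf
  · rintro _ ⟨φ, rfl⟩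
    exact ⟨φ.continuous.measurable, ‖φ‖, fun x => φ.norm_coe_le_norm x⟩
  · intro f hf ε hε
    obtain ⟨h, hh⟩ := dense_sq μ f hf ε hε
    exact ⟨fun x => h x, Submodule.subset_span ⟨h, rfl⟩, hh⟩
  · intro r f hf
    choose φ hφ using hf
    have h1 := nil_cont hc0 hc1 H φ
    have h2 : f = fun j x => φ j x := funext hφ
    rw [h2]
    exact h1

theorem nil_factor {c : ℝ} (hc0 : 0 < c) (hc1 : c < 1 / 2) {X : Type u}
    (ℱ : MeasurableSpace X) [MeasurableSpace X] (μ : Measure X) [IsProbabilityMeasure μ]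
    (T : X → X) (hT : MeasurePreserving T μ μ) (hF : NilFactor.{u, v} T ℱ μ) {r : ℕ}
    (f : Fin (r + 1) → X → ℂ) (hf : ∀ j, Bdd (f j) ∧ Measurable[ℱ] (f j)) : Prd c μ T f := by
  obtain ⟨G', iG, iT, iTG, Γ, iC, iT2, iM, iB, ν, iP, iW, g, π, hN, hπ, hg, hℱ⟩ := hF
  subst hℱ
  have h1 : ∀ j, ∃ F : (G' ⧸ Γ) → ℂ, Bdd F ∧ f j = fun x => F (π x) := by
    intro j
    obtain ⟨⟨_, M, hM⟩, hm⟩ := hf j
    obtain ⟨F, hF, hfF⟩ := hm.exists_eq_measurable_comp
    classical
    refine ⟨fun y => if ‖F y‖ ≤ M then F y else 0, ⟨?_, |M|, fun y => ?_⟩, ?_⟩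
    · exact Measurable.ite (measurableSet_le hF.norm measurable_const) hF measurable_const
    · beta_reduce
      by_cases h : ‖F y‖ ≤ M
      · rw [if_pos h]
        exact h.trans (le_abs_self M)
      · rw [if_neg h, norm_zero]
        exact abs_nonneg M
    · funext x
      have h2 : f j x = F (π x) := congrFun hfF x
      have h3 := hM x
      rw [h2] at h3 ⊢
      beta_reduce
      rw [if_pos h3]
  choose F hF hfF using h1
  have h2 : f = fun j x => F j (π x) := funext hfF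
  rw [h2]
  exact prd_factor hT π hπ hg F (nil_bdd hc0 hc1 hN F hF)

end Pool.Agent.VINO
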