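import Mathlib

/-!
# VINO / MHopf: the maximal ergodic theorem

PROOFS.  `hopf`: Garsia's proof. `S_M x = ∑_{m<M} (f (T^m x) - l)`, `S*_N = max_{0 ≤ M ≤ N} S_M ≥ 0`. On
`E_N = {S*_N > 0}`: `S*_N x ≤ (f x - l) + S*_N (T x)`, so `∫_{E_N} (f - l) ≥ ∫_{E_N} S*_N - ∫_{E_N} S*_N ∘ T ≥ ∫ S*_N - ∫ S*_N ∘ T = 0`. So
`l μ(E_N) ≤ ∫ f`, and the set is the increasing union of the `E_N`.
`hopf2`: Cauchy-Schwarz: `(∑_{m<M} f (T^m x))^2 ≤ M ∑_{m<M} f^2 (T^m x)`, so the set is contained in that of `hopf` for `f^2`, `l^2`.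
-/

set_option autoImplicit false

namespace Pool.Agent.VINO

open MeasureTheory

/-- the maximal function: `Ph (N+1) x = max 0 (g x + Ph N (T x))` -/
private noncomputable def Ph {X : Type*} (T : X → X) (g : X → ℝ) : ℕ → X → ℝ
  | 0 => fun _ => 0
  | N + 1 => fun x => max 0 (g x + Ph T g N (T x))

private theorem ph_succ {X : Type*} (T : X → X) (g : X → ℝ) (N : ℕ) (x : X) :
    Ph T g (N + 1) x = max 0 (g x + Ph T g N (T x)) := rfl

private theorem ph_nonneg {X : Type*} (T : X → X) (g : X → ℝ) (N : ℕ) (x : X) :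
    0 ≤ Ph T g N x := by
  cases N with
  | zero => exact le_rfl
  | succ N => exact le_max_left _ _

private theorem ph_le_succ {X : Type*} (T : X → X) (g : X → ℝ) (N : ℕ) :
    ∀ x, Ph T g N x ≤ Ph T g (N + 1) x := by
  induction N with
  | zero => intro x; exact ph_nonneg T g 1 x
  | succ N ih =>
    intro x
    rw [ph_succ, ph_succ T g (N + 1)]
    exact max_le_max le_rfl (by linarith [ih (T x)])

private theorem sum_le_ph {X : Type*} (T : X → X) (g : X → ℝ) : ∀ (N M : ℕ), M ≤ N → ∀ x,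
    ∑ m ∈ Finset.range M, g (T^[m] x) ≤ Ph T g N x := by
  intro N
  induction N with
  | zero =>
    intro M hM x
    rw [Nat.le_zero.1 hM]
    simp [Ph]
  | succ N ih =>
    intro M hM x
    cases M with
    | zero =>
      rw [Finset.sum_range_zero]
      exact ph_nonneg T g _ x
    | succ M =>
      rw [Finset.sum_range_succ', ph_succ]
      refine le_trans ?_ (le_max_right _ _)
      have h1 := ih M (by omega) (T x)
      have h2 : ∀ m, T^[m + 1] x = T^[m] (T x) := fun m => Function.iterate_succ_apply T m x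
      simp only [h2, Function.iterate_zero, id_eq]
      linarith

private theorem ph_meas {X : Type*} [MeasurableSpace X] {T : X → X} (hT : Measurable T)
    {g : X → ℝ} (hg : Measurable g) (N : ℕ) : Measurable (Ph T g N) := by
  induction N with
  | zero => exact measurable_const
  | succ N ih => exact measurable_const.max (hg.add (ih.comp hT))

private theorem ph_int {X : Type*} [MeasurableSpace X] (μ : Measure X) [IsFiniteMeasure μ]
    {T : X → X} (hT : MeasurePreserving T μ μ) {g : X → ℝ} (hg : Integrable g μ) (N : ℕ) :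
    Integrable (Ph T g N) μ := by
  induction N with
  | zero => exact integrable_const _
  | succ N ih =>
    have h1 : Integrable (fun x => Ph T g N (T x)) μ := hT.integrable_comp_of_integrable ih
    exact (integrable_const (0 : ℝ)).sup (hg.add h1)

private theorem garsia {X : Type*} [MeasurableSpace X] (μ : Measure X) [IsFiniteMeasure μ]
    {T : X → X} (hT : MeasurePreserving T μ μ) {g : X → ℝ} (hgm : Measurable g)
    (hg : Integrable g μ) (N : ℕ) : 0 ≤ ∫ x in {x | 0 < Ph T g N x}, g x ∂μ := by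
  set E : Set X := {x | 0 < Ph T g N x} with hE
  have hEm : MeasurableSet E := measurableSet_lt measurable_const (ph_meas hT.measurable hgm N)
  cases N with
  | zero =>
    have : E = ∅ := by
      rw [hE]
      ext x
      simp [Ph]
    rw [this]
    simp
  | succ N =>
    have hi := ph_int μ hT hg (N + 1)
    have hiT : Integrable (fun x => Ph T g (N + 1) (T x)) μ :=
      hT.integrable_comp_of_integrable hi
    have h1 : ∫ x in E, Ph T g (N + 1) x ∂μ ≤
        ∫ x in E, (g x + Ph T g (N + 1) (T x)) ∂μ := by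
      refine setIntegral_mono_on hi.integrableOn (hg.add hiT).integrableOn hEm ?_
      intro x hx
      have h2 : 0 < Ph T g (N + 1) x := hx
      rw [ph_succ] at h2 ⊢
      have h3 := ph_le_succ T g N (T x)
      rcases le_or_gt (g x + Ph T g N (T x)) 0 with h4 | h4
      · rw [max_eq_left h4] at h2
        exact absurd h2 (lt_irrefl _)
      · rw [max_eq_right h4.le]
        linarith
    rw [integral_add hg.integrableOn hiT.integrableOn] at h1
    have h2 : ∫ x in E, Ph T g (N + 1) x ∂μ = ∫ x, Ph T g (N + 1) x ∂μ := by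
      refine setIntegral_eq_integral_of_forall_compl_eq_zero fun x hx => ?_
      exact le_antisymm (not_lt.1 hx) (ph_nonneg T g _ x)
    have h3 : ∫ x in E, Ph T g (N + 1) (T x) ∂μ ≤ ∫ x, Ph T g (N + 1) (T x) ∂μ :=
      setIntegral_le_integral hiT (Filter.Eventually.of_forall fun x => ph_nonneg T g _ _)
    have h4 : ∫ x, Ph T g (N + 1) (T x) ∂μ = ∫ x, Ph T g (N + 1) x ∂μ := by
      rw [← integral_map hT.measurable.aemeasurable
        (f := Ph T g (N + 1)) (by rw [hT.map_eq]; exact hi.aestronglyMeasurable), hT.map_eq]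
    linarith

theorem hopf {X : Type*} [MeasurableSpace X] (μ : Measure X) [IsFiniteMeasure μ] (T : X → X)
    (hT : MeasurePreserving T μ μ) (f : X → ℝ) (hf : Measurable f) (h0 : ∀ x, 0 ≤ f x)
    (hb : ∃ M : ℝ, ∀ x, f x ≤ M) (l : ℝ) (hl : 0 < l) :
    μ {x | ∃ M : ℕ, 1 ≤ M ∧ l * M < ∑ m ∈ Finset.range M, f (T^[m] x)} ≤
      ENNReal.ofReal ((∫ x, f x ∂μ) / l) := by
  obtain ⟨C, hC⟩ := hb
  have hfi : Integrable f μ := Integrable.of_bound hf.aestronglyMeasurable C
    (Filter.Eventually.of_forall fun x => by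
      rw [Real.norm_of_nonneg (h0 x)]
      exact hC x)
  set g : X → ℝ := fun x => f x - l with hg
  have hgm : Measurable g := hf.sub measurable_const
  have hgi : Integrable g μ := hfi.sub (integrable_const l)
  have hsub : {x | ∃ M : ℕ, 1 ≤ M ∧ l * M < ∑ m ∈ Finset.range M, f (T^[m] x)} ⊆
      ⋃ N, {x | 0 < Ph T g N x} := by
    rintro x ⟨M, _, hM⟩
    refine Set.mem_iUnion.2 ⟨M, ?_⟩
    refine lt_of_lt_of_le ?_ (sum_le_ph T g M M le_rfl x)
    have h1 : ∑ m ∈ Finset.range M, g (T^[m] x) =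
        ∑ m ∈ Finset.range M, f (T^[m] x) - M * l := by
      simp only [hg]
      rw [Finset.sum_sub_distrib, Finset.sum_const, Finset.card_range, nsmul_eq_mul]
    rw [h1]
    linarith
  refine (measure_mono hsub).trans ?_
  have hmono : Monotone fun N => {x | 0 < Ph T g N x} := by
    refine monotone_nat_of_le_succ fun N x hx => ?_
    exact lt_of_lt_of_le hx (ph_le_succ T g N x)
  rw [hmono.measure_iUnion]
  refine iSup_le fun N => ?_
  have h1 := garsia μ hT hgm hgi N
  set E : Set X := {x | 0 < Ph T g N x} with hE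
  have h2 : ∫ x in E, g x ∂μ = ∫ x in E, f x ∂μ - μ.real E * l := by
    simp only [hg]
    rw [integral_sub hfi.integrableOn (integrable_const l).integrableOn, setIntegral_const,
      smul_eq_mul]
  have h3 : ∫ x in E, f x ∂μ ≤ ∫ x, f x ∂μ :=
    setIntegral_le_integral hfi (Filter.Eventually.of_forall h0)
  have h4 : μ.real E ≤ (∫ x, f x ∂μ) / l := by
    rw [le_div_iff₀ hl]
    linarith
  rw [← ofReal_measureReal (measure_ne_top μ E)]
  exact ENNReal.ofReal_le_ofReal h4

theorem hopf2 {X : Type*} [MeasurableSpace X] (μ : Measure X) [IsFiniteMeasure μ] (T : X → X)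
    (hT : MeasurePreserving T μ μ) (f : X → ℝ) (hf : Measurable f) (h0 : ∀ x, 0 ≤ f x)
    (hb : ∃ M : ℝ, ∀ x, f x ≤ M) (l : ℝ) (hl : 0 < l) :
    μ {x | ∃ M : ℕ, 1 ≤ M ∧ l * M < ∑ m ∈ Finset.range M, f (T^[m] x)} ≤
      ENNReal.ofReal ((∫ x, f x ^ 2 ∂μ) / l ^ 2) := by
  obtain ⟨C, hC⟩ := hb
  refine le_trans (measure_mono ?_) (hopf μ T hT (fun x => f x ^ 2) (hf.pow_const 2)
    (fun x => sq_nonneg _) ⟨C ^ 2, fun x => pow_le_pow_left₀ (h0 x) (hC x) 2⟩ (l ^ 2)
    (by positivity))
  rintro x ⟨M, hM1, hM⟩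
  refine ⟨M, hM1, ?_⟩
  have hM0 : (0 : ℝ) < M := by exact_mod_cast hM1
  have h1 : (∑ m ∈ Finset.range M, f (T^[m] x)) ^ 2 ≤
      (Finset.range M).card * ∑ m ∈ Finset.range M, f (T^[m] x) ^ 2 :=
    sq_sum_le_card_mul_sum_sq
  rw [Finset.card_range] at h1
  have h2 : (l * M) ^ 2 < (∑ m ∈ Finset.range M, f (T^[m] x)) ^ 2 :=
    pow_lt_pow_left₀ hM (by positivity) (by norm_num)
  have h3 : M * (l ^ 2 * M) < M * ∑ m ∈ Finset.range M, f (T^[m] x) ^ 2 := by
    calc (M : ℝ) * (l ^ 2 * M) = (l * M) ^ 2 := by ring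
      _ < _ := h2.trans_le h1
  exact lt_of_mul_lt_mul_left h3 hM0.le

end Pool.Agent.VINO
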