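import Pool.Agent.VINO.MDif
import Pool.Agent.VINO.MHopf

/-!
# VINO / MMax: the weak type `(2,2)` maximal inequality along `a c n`

PROOF.  `A_N f x = (1/N) ∑_{n ≤ N} f (T^[a n] x)`, `D_N f = (1/N) ∑_m wt c N m f (T^m x)`. For `2^(i-1) ≤ N < 2^i`, `i ≥ 1`:
`A_N f ≤ 2 A_(2^i) f` (`f ≥ 0`). So the set is contained in `⋃_{i ≥ 1} {A_(2^i) f > l/2} ⊆ {∃ i, D_(2^i) f > l/4} ∪
⋃_i {|A_(2^i) f - D_(2^i) f| > l/4}`. By `wts` (with `B = l/8`, contrapositive): if `D_N f x > l/4` for some `N ≥ 1` then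
`∑_{m<M} f (T^m x) > (l/8) M` for some `M ≥ 1`; `hopf2`: measure `≤ 64 ∫ f^2 / l^2`. Chebyshev and `dif`:
`μ {|A_(2^i) f - D_(2^i) f| > l/4} ≤ (16 / l^2) (C/(i log 2)^2)^2 ∫ f^2`, summable over `i ≥ 1`.
-/

set_option autoImplicit false

namespace Pool.Agent.VINO

open MeasureTheory

theorem maxi {c : ℝ} (hc0 : 0 < c) (hc1 : c < 1 / 2) :
    ∃ C : ℝ, 0 < C ∧ ∀ (X : Type*) [MeasurableSpace X] (μ : Measure X) [IsFiniteMeasure μ]
      (T : X → X), MeasurePreserving T μ μ → ∀ f : X → ℝ, Measurable f → (∀ x, 0 ≤ f x) →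
      (∃ M : ℝ, ∀ x, f x ≤ M) → ∀ l : ℝ, 0 < l →
      μ {x | ∃ N : ℕ, 1 ≤ N ∧ l * N < ∑ n ∈ Finset.Icc 1 N, f (T^[a c n] x)} ≤
        ENNReal.ofReal (C * (∫ x, f x ^ 2 ∂μ) / l ^ 2) := by
  obtain ⟨C, hC, hdif⟩ := dif hc0 hc1
  have hsum : Summable (fun i : ℕ => 1 / ((i : ℝ) + 1) ^ 4) := by
    have h1 : Summable (fun i : ℕ => 1 / ((i : ℝ)) ^ 4) :=
      Real.summable_one_div_nat_pow.mpr (by norm_num)
    have h2 := (summable_nat_add_iff 1).mpr h1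
    refine h2.congr fun i => ?_
    push_cast
    rfl
  obtain ⟨S4, hS4⟩ : ∃ S4 : ℝ, S4 = ∑' i : ℕ, 1 / ((i : ℝ) + 1) ^ 4 := ⟨_, rfl⟩
  have hS40 : 0 ≤ S4 := by
    rw [hS4]
    exact tsum_nonneg (fun i => by positivity)
  have hl2 : 0 < Real.log 2 := Real.log_pos (by norm_num)
  refine ⟨64 + 16 * C ^ 2 / Real.log 2 ^ 4 * S4, by positivity, ?_⟩
  intro X _ μ _ T hT f hf hf0 hfb l hl
  obtain ⟨M, hM⟩ := hfb
  obtain ⟨I, hI⟩ : ∃ I : ℝ, I = ∫ x, f x ^ 2 ∂μ := ⟨_, rfl⟩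
  have hI0 : 0 ≤ I := by
    rw [hI]
    exact integral_nonneg fun x => sq_nonneg _
  rw [← hI]
  -- the real form of the difference
  obtain ⟨R, hRdef⟩ : ∃ R : ℕ → X → ℝ, R = fun (N : ℕ) (x : X) =>
      (N : ℝ)⁻¹ * ∑ n ∈ Finset.Icc 1 N, f (T^[a c n] x) -
      (N : ℝ)⁻¹ * ∑ m ∈ Finset.range (⌊G c N⌋₊ + 1), wt c N m * f (T^[m] x) := ⟨_, rfl⟩
  have hR : ∀ (N : ℕ) (x : X), ‖av N (fun n => ((f (T^[a c n] x) : ℝ) : ℂ)) -
      DD c N (fun m => ((f (T^[m] x) : ℝ) : ℂ))‖ = |R N x| := by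
    intro N x
    have h1 : av N (fun n => ((f (T^[a c n] x) : ℝ) : ℂ)) -
        DD c N (fun m => ((f (T^[m] x) : ℝ) : ℂ)) = ((R N x : ℝ) : ℂ) := by
      rw [hRdef]
      unfold av DD
      push_cast
      ring
    rw [h1, Complex.norm_real, Real.norm_eq_abs]
  have hRint : ∀ N : ℕ, 2 ≤ N → ∫ x, R N x ^ 2 ∂μ ≤ (C / Real.log N ^ 2) ^ 2 * I := by
    intro N hN
    have h := hdif X μ T hT (fun x => ((f x : ℝ) : ℂ)) (Complex.measurable_ofReal.comp hf)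
      ⟨M, fun x => by
        rw [Complex.norm_real, Real.norm_eq_abs, abs_of_nonneg (hf0 x)]
        exact hM x⟩ N hN
    simp only [hR, Complex.norm_real, Real.norm_eq_abs, sq_abs] at h
    rw [hI]
    exact h
  have hmem : ∀ k : ℕ, MemLp (fun x => f (T^[k] x)) 2 μ := by
    intro k
    refine MemLp.of_bound (hf.comp (hT.measurable.iterate k)).aestronglyMeasurable M ?_
    refine Filter.Eventually.of_forall fun x => ?_
    rw [Real.norm_eq_abs, abs_of_nonneg (hf0 _)]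
    exact hM _
  have hRsq : ∀ N : ℕ, Integrable (fun x => R N x ^ 2) μ := by
    intro N
    apply MemLp.integrable_sq
    rw [hRdef]
    refine MemLp.sub (MemLp.const_mul ?_ _) (MemLp.const_mul ?_ _)
    · exact memLp_finsetSum _ fun n _ => hmem _
    · exact memLp_finsetSum _ fun m _ => (hmem m).const_mul _
  -- Chebyshev
  have hcheb : ∀ i : ℕ, μ {x | l / 4 < |R (2 ^ (i + 1)) x|} ≤
      ENNReal.ofReal (16 * C ^ 2 / Real.log 2 ^ 4 * I / l ^ 2 * (1 / ((i : ℝ) + 1) ^ 4)) := by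
    intro i
    have h2N : 2 ≤ 2 ^ (i + 1) := by
      calc 2 = 2 ^ 1 := by norm_num
        _ ≤ 2 ^ (i + 1) := Nat.pow_le_pow_right (by norm_num) (by omega)
    have h1 := mul_meas_ge_le_integral_of_nonneg (μ := μ)
      (Filter.Eventually.of_forall fun x => sq_nonneg (R (2 ^ (i + 1)) x))
      (hRsq (2 ^ (i + 1))) ((l / 4) ^ 2)
    have h2 := hRint _ h2N
    have hlog : Real.log ((2 ^ (i + 1) : ℕ) : ℝ) = ((i : ℝ) + 1) * Real.log 2 := by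
      push_cast
      rw [Real.log_pow]
      push_cast
      ring
    rw [hlog] at h2
    have hi : (0 : ℝ) < (i : ℝ) + 1 := by positivity
    have h3 : μ.real {x | (l / 4) ^ 2 ≤ R (2 ^ (i + 1)) x ^ 2} ≤
        16 * C ^ 2 / Real.log 2 ^ 4 * I / l ^ 2 * (1 / ((i : ℝ) + 1) ^ 4) := by
      have h4 : (l / 4) ^ 2 * μ.real {x | (l / 4) ^ 2 ≤ R (2 ^ (i + 1)) x ^ 2} ≤
          (C / (((i : ℝ) + 1) * Real.log 2) ^ 2) ^ 2 * I := h1.trans h2
      have h5 : 0 < (l / 4) ^ 2 := by positivity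
      calc μ.real {x | (l / 4) ^ 2 ≤ R (2 ^ (i + 1)) x ^ 2}
          = ((l / 4) ^ 2 * μ.real {x | (l / 4) ^ 2 ≤ R (2 ^ (i + 1)) x ^ 2}) / (l / 4) ^ 2 := by
            field_simp
        _ ≤ ((C / (((i : ℝ) + 1) * Real.log 2) ^ 2) ^ 2 * I) / (l / 4) ^ 2 :=
            div_le_div_of_nonneg_right h4 h5.le
        _ = _ := by
            field_simp
            ring
    calc μ {x | l / 4 < |R (2 ^ (i + 1)) x|} ≤ μ {x | (l / 4) ^ 2 ≤ R (2 ^ (i + 1)) x ^ 2} := by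
          apply measure_mono
          intro x hx
          change l / 4 < |R (2 ^ (i + 1)) x| at hx
          change (l / 4) ^ 2 ≤ R (2 ^ (i + 1)) x ^ 2
          rw [← sq_abs (R (2 ^ (i + 1)) x)]
          exact pow_le_pow_left₀ (by positivity) hx.le 2
      _ = ENNReal.ofReal (μ.real {x | (l / 4) ^ 2 ≤ R (2 ^ (i + 1)) x ^ 2}) := by
          rw [measureReal_def, ENNReal.ofReal_toReal (measure_ne_top _ _)]
      _ ≤ _ := ENNReal.ofReal_le_ofReal h3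
  -- the set
  have hsub : {x | ∃ N : ℕ, 1 ≤ N ∧ l * N < ∑ n ∈ Finset.Icc 1 N, f (T^[a c n] x)} ⊆
      {x | ∃ M : ℕ, 1 ≤ M ∧ (l / 8) * M < ∑ m ∈ Finset.range M, f (T^[m] x)} ∪
      ⋃ i : ℕ, {x | l / 4 < |R (2 ^ (i + 1)) x|} := by
    rintro x ⟨N, hN, hx⟩
    obtain ⟨i, hi⟩ : ∃ i, i = Nat.log 2 N := ⟨_, rfl⟩
    have hi1 : 2 ^ i ≤ N := by
      rw [hi]
      exact Nat.pow_log_le_self 2 (by omega)
    have hi2 : N < 2 ^ (i + 1) := by
      rw [hi]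
      exact Nat.lt_pow_succ_log_self (by norm_num) N
    obtain ⟨Q, hQ⟩ : ∃ Q : ℕ, Q = 2 ^ (i + 1) := ⟨_, rfl⟩
    have hQ2 : Q ≤ 2 * N := by
      rw [hQ, pow_succ]
      omega
    have hQ1 : 1 ≤ Q := by omega
    have hQR : (Q : ℝ) ≤ 2 * N := by exact_mod_cast hQ2
    have hQ0 : (0 : ℝ) < Q := by exact_mod_cast hQ1
    have hA : l / 2 * Q < ∑ n ∈ Finset.Icc 1 Q, f (T^[a c n] x) := by
      calc l / 2 * Q ≤ l * N := by nlinarith
        _ < ∑ n ∈ Finset.Icc 1 N, f (T^[a c n] x) := hx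
        _ ≤ ∑ n ∈ Finset.Icc 1 Q, f (T^[a c n] x) := by
          apply Finset.sum_le_sum_of_subset_of_nonneg
          · apply Finset.Icc_subset_Icc_right
            omega
          · intro n _ _
            exact hf0 _
    by_cases hcase : l / 4 < |R (2 ^ (i + 1)) x|
    · exact Or.inr (Set.mem_iUnion.mpr ⟨i, hcase⟩)
    · left
      by_contra hcon
      apply hcase
      have hB : ∀ M : ℕ, 1 ≤ M → ∑ m ∈ Finset.range M, f (T^[m] x) ≤ l / 8 * M := by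
        intro M hM1
        by_contra hlt
        exact hcon ⟨M, hM1, not_le.mp hlt⟩
      have hw := wts hc0 (fun m => f (T^[m] x)) (fun m => hf0 _) (l / 8) hB (Q : ℝ)
        (by exact_mod_cast hQ1) (⌊G c Q⌋₊ + 1)
      rw [← hQ]
      have h1 : R Q x = (Q : ℝ)⁻¹ * ∑ n ∈ Finset.Icc 1 Q, f (T^[a c n] x) -
          (Q : ℝ)⁻¹ * ∑ m ∈ Finset.range (⌊G c Q⌋₊ + 1), wt c Q m * f (T^[m] x) := by
        rw [hRdef]
      have h2 : l / 2 < (Q : ℝ)⁻¹ * ∑ n ∈ Finset.Icc 1 Q, f (T^[a c n] x) := by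
        rw [inv_mul_eq_div, lt_div_iff₀ hQ0]
        exact hA
      have h3 : (Q : ℝ)⁻¹ * ∑ m ∈ Finset.range (⌊G c Q⌋₊ + 1), wt c Q m * f (T^[m] x) ≤
          l / 4 := by
        rw [inv_mul_eq_div, div_le_iff₀ hQ0]
        calc ∑ m ∈ Finset.range (⌊G c Q⌋₊ + 1), wt c Q m * f (T^[m] x) ≤ 2 * (l / 8) * Q := hw
          _ = l / 4 * Q := by ring
      refine lt_of_lt_of_le ?_ (le_abs_self _)
      rw [h1]
      linarith
  have hhopf := hopf2 μ T hT f hf hf0 ⟨M, hM⟩ (l / 8) (by positivity)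
  rw [← hI] at hhopf
  calc μ {x | ∃ N : ℕ, 1 ≤ N ∧ l * N < ∑ n ∈ Finset.Icc 1 N, f (T^[a c n] x)}
      ≤ μ ({x | ∃ M : ℕ, 1 ≤ M ∧ (l / 8) * M < ∑ m ∈ Finset.range M, f (T^[m] x)} ∪
      ⋃ i : ℕ, {x | l / 4 < |R (2 ^ (i + 1)) x|}) := measure_mono hsub
    _ ≤ μ {x | ∃ M : ℕ, 1 ≤ M ∧ (l / 8) * M < ∑ m ∈ Finset.range M, f (T^[m] x)} +
      μ (⋃ i : ℕ, {x | l / 4 < |R (2 ^ (i + 1)) x|}) := measure_union_le _ _
    _ ≤ ENNReal.ofReal (I / (l / 8) ^ 2) +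
      ∑' i : ℕ, ENNReal.ofReal (16 * C ^ 2 / Real.log 2 ^ 4 * I / l ^ 2 *
        (1 / ((i : ℝ) + 1) ^ 4)) := by
        gcongr
        exact (measure_iUnion_le _).trans (ENNReal.tsum_le_tsum hcheb)
    _ = ENNReal.ofReal (I / (l / 8) ^ 2) +
      ENNReal.ofReal (16 * C ^ 2 / Real.log 2 ^ 4 * I / l ^ 2 * S4) := by
        rw [hS4, ← tsum_mul_left, ENNReal.ofReal_tsum_of_nonneg]
        · intro i
          positivity
        · exact hsum.mul_left _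
    _ = ENNReal.ofReal (I / (l / 8) ^ 2 + 16 * C ^ 2 / Real.log 2 ^ 4 * I / l ^ 2 * S4) := by
        rw [ENNReal.ofReal_add (by positivity) (by positivity)]
    _ = ENNReal.ofReal ((64 + 16 * C ^ 2 / Real.log 2 ^ 4 * S4) * I / l ^ 2) := by
        congr 1
        field_simp
        ring

end Pool.Agent.VINO
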