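import Pool.Agent.VINO.ELin
import Pool.Agent.VINO.MMax

/-!
# VINO / ESlot: the product formula is closed in `L²` in each slot

PROOF.  Let `C` be the constant of `maxi`, `l_k = 2^(-k)`. Choose `h_k` with `∫ ‖f j - h_k‖^2 ≤ 4^(-k) 2^(-k)`. `maxi` for
`|f j - h_k|` (a bounded measurable function `≥ 0`): `μ {∃ N ≥ 1, ∑_{n ≤ N} ‖f j - h_k‖ (T^[a n] x) > l_k N} ≤ C 2^(-k)`, summable: by
Borel-Cantelli (`measure_limsup_atTop_eq_zero`, `ae_eventually_notMem`) for almost all `x`, for all large `k` and all `N ≥ 1`: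
`(1/N) ∑_{n ≤ N} ‖f j - h_k‖ (T^[a n] x) ≤ l_k`. Fix such an `x`, also in the sets of full measure for all the
`Prd c μ T (update f j h_k)` (limits `l^(k)`). For `i ≠ j` the `l^(k) i` do not depend on `k` (uniqueness). The averages of `f j`
along `a n` differ from those of `h_k` by at most `l_k`; so `l^(k) j` is a Cauchy sequence, with limit `l j`, and the averages
of `f j` tend to `l j`. The averages of the products differ by at most
`∏_{i ≠ j} B_i * (1/N) ∑_{n ≤ N} ‖f j - h_k‖ (T^[a(n+j)] x) ≤ B (1/N) ∑_{n ≤ N + r} (..) ≤ B (r+1) l_k`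
(`‖f i‖ ≤ B_i`), so they tend to `lim_k ∏_i l^(k) i = ∏ l i`.
-/

set_option autoImplicit false

namespace Pool.Agent.VINO

open MeasureTheory Filter Topology

/-- limits pass to limits of functions, uniformly in the averages -/
private theorem sl_close {F : ℕ → ℂ} {l : ℂ} (h : ∀ e : ℝ, 0 < e → ∃ (F' : ℕ → ℂ) (l' : ℂ),
    Tendsto F' atTop (𝓝 l') ∧ (∀ N, 1 ≤ N → ‖F N - F' N‖ ≤ e) ∧ ‖l - l'‖ ≤ e) :
    Tendsto F atTop (𝓝 l) := by
  rw [Metric.tendsto_atTop]
  intro e he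
  obtain ⟨F', l', hF', hd, hl⟩ := h (e / 4) (by positivity)
  obtain ⟨N₀, hN₀⟩ := Metric.tendsto_atTop.1 hF' (e / 4) (by positivity)
  refine ⟨max N₀ 1, fun n hn => ?_⟩
  have h1 := hN₀ n (le_trans (le_max_left _ _) hn)
  have h2 := hd n (le_trans (le_max_right _ _) hn)
  rw [dist_eq_norm] at h1 ⊢
  have h4 : F n - l = (F n - F' n) + (F' n - l') - (l - l') := by ring
  rw [h4]
  have h5 := norm_sub_le ((F n - F' n) + (F' n - l')) (l - l')
  have h6 := norm_add_le (F n - F' n) (F' n - l')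
  linarith

private theorem sl_diff (N : ℕ) (hN : 1 ≤ N) (u v : ℕ → ℂ) (E : ℝ)
    (h : ∑ n ∈ Finset.Icc 1 N, ‖u n - v n‖ ≤ E * N) : ‖av N u - av N v‖ ≤ E := by
  have h1 : av N u - av N v = (N : ℂ)⁻¹ * ∑ n ∈ Finset.Icc 1 N, (u n - v n) := by
    unfold av
    rw [← mul_sub, ← Finset.sum_sub_distrib]
  have hN0 : (0 : ℝ) < N := by exact_mod_cast hN
  rw [h1, norm_mul, norm_inv, Complex.norm_natCast]
  calc (N : ℝ)⁻¹ * ‖∑ n ∈ Finset.Icc 1 N, (u n - v n)‖ ≤ (N : ℝ)⁻¹ * (E * N) :=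
        mul_le_mul_of_nonneg_left ((norm_sum_le _ _).trans h) (by positivity)
    _ = E := by field_simp

/-- the deterministic part -/
private theorem slot_det {r : ℕ} (u : Fin (r + 1) → ℕ → ℂ) (B : ℝ) (hB : 1 ≤ B)
    (hu : ∀ i n, ‖u i n‖ ≤ B) (j : Fin (r + 1)) (w : ℕ → Fin (r + 1) → ℕ → ℂ)
    (hw : ∀ k i, i ≠ j → w k i = u i) (ε : ℕ → ℝ) (hε : Tendsto ε atTop (𝓝 0))
    (hε0 : ∀ k, 0 ≤ ε k)
    (hd : ∀ᶠ k in atTop, ∀ N : ℕ, 1 ≤ N → ∑ n ∈ Finset.Icc 1 N, ‖u j n - w k j n‖ ≤ ε k * N)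
    (hl : ∀ k, ∃ l : Fin (r + 1) → ℂ, (∀ i, Tendsto (fun N => av N (w k i)) atTop (𝓝 (l i))) ∧
      Tendsto (fun N => av N fun n => ∏ i, w k i (n + i.1)) atTop (𝓝 (∏ i, l i))) :
    ∃ l : Fin (r + 1) → ℂ, (∀ i, Tendsto (fun N => av N (u i)) atTop (𝓝 (l i))) ∧
      Tendsto (fun N => av N fun n => ∏ i, u i (n + i.1)) atTop (𝓝 (∏ i, l i)) := by
  choose L hL1 hL2 using hl
  have hLi : ∀ k i, i ≠ j → L k i = L 0 i := by
    intro k i hi
    have h1 := hL1 k i
    rw [hw k i hi] at h1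
    have h2 := hL1 0 i
    rw [hw 0 i hi] at h2
    exact tendsto_nhds_unique h1 h2
  have hdiff : ∀ᶠ k in atTop, ∀ N : ℕ, 1 ≤ N → ‖av N (u j) - av N (w k j)‖ ≤ ε k := by
    filter_upwards [hd] with k hk N hN
    exact sl_diff N hN _ _ _ (hk N hN)
  have hsmall : ∀ e : ℝ, 0 < e → ∀ᶠ k in atTop, ε k < e := fun e he =>
    hε.eventually (gt_mem_nhds he)
  have hcau : CauchySeq (fun N => av N (u j)) := by
    rw [Metric.cauchySeq_iff]
    intro e he
    obtain ⟨k, hk1, hk2⟩ := ((hsmall (e / 4) (by positivity)).and hdiff).exists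
    obtain ⟨N₀, hN₀⟩ := Metric.cauchySeq_iff.1 (hL1 k j).cauchySeq (e / 4) (by positivity)
    refine ⟨max N₀ 1, fun m hm n hn => ?_⟩
    have h1 := hN₀ m (le_trans (le_max_left _ _) hm) n (le_trans (le_max_left _ _) hn)
    have h2 := hk2 m (le_trans (le_max_right _ _) hm)
    have h3 := hk2 n (le_trans (le_max_right _ _) hn)
    rw [dist_eq_norm] at h1 ⊢
    have h4 : av m (u j) - av n (u j) = (av m (u j) - av m (w k j)) +
        (av m (w k j) - av n (w k j)) - (av n (u j) - av n (w k j)) := by ring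
    rw [h4]
    have h5 := norm_sub_le ((av m (u j) - av m (w k j)) + (av m (w k j) - av n (w k j)))
      (av n (u j) - av n (w k j))
    have h6 := norm_add_le (av m (u j) - av m (w k j)) (av m (w k j) - av n (w k j))
    linarith
  obtain ⟨lj, hlj⟩ := cauchySeq_tendsto_of_complete hcau
  have hLj : ∀ᶠ k in atTop, ‖lj - L k j‖ ≤ ε k := by
    filter_upwards [hdiff] with k hk
    refine le_of_tendsto (hlj.sub (hL1 k j)).norm ?_
    filter_upwards [eventually_ge_atTop 1] with N hN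
    exact hk N hN
  have hLb : ∀ i, i ≠ j → ‖L 0 i‖ ≤ B := by
    intro i hi
    have h1 := hL1 0 i
    rw [hw 0 i hi] at h1
    refine le_of_tendsto h1.norm (Eventually.of_forall fun N => ?_)
    exact av_norm_le (by linarith) (fun n _ => hu i n) N
  have hcard : ((Finset.univ : Finset (Fin (r + 1))).erase j).card = r := by
    rw [Finset.card_erase_of_mem (Finset.mem_univ j), Finset.card_univ, Fintype.card_fin]
    omega
  have hB0 : 0 ≤ B := by linarith
  have hBr : 1 ≤ B ^ r := one_le_pow₀ hB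
  refine ⟨Function.update (L 0) j lj, ?_, ?_⟩
  · intro i
    by_cases hi : i = j
    · subst hi
      rw [Function.update_self]
      exact hlj
    · rw [Function.update_of_ne hi]
      have h1 := hL1 0 i
      rw [hw 0 i hi] at h1
      exact h1
  · refine sl_close fun e he => ?_
    have hsm : ∀ᶠ k in atTop, ε k < e / (B ^ r * (r + 1)) := hsmall _ (by positivity)
    obtain ⟨k, hk1, hk2, hk3⟩ := (hsm.and (hd.and hLj)).exists
    have hke : B ^ r * (r + 1) * ε k ≤ e := by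
      rw [lt_div_iff₀ (by positivity)] at hk1
      linarith
    have hr0 : (0 : ℝ) ≤ r := Nat.cast_nonneg r
    refine ⟨_, _, hL2 k, ?_, ?_⟩
    · intro N hN
      refine (sl_diff N hN _ _ (B ^ r * (r + 1) * ε k) ?_).trans hke
      have hpt : ∀ n, ‖∏ i, u i (n + i.1) - ∏ i, w k i (n + i.1)‖ ≤
          B ^ r * ‖u j (n + j.1) - w k j (n + j.1)‖ := by
        intro n
        rw [← Finset.mul_prod_erase Finset.univ (fun i => u i (n + i.1)) (Finset.mem_univ j),
          ← Finset.mul_prod_erase Finset.univ (fun i => w k i (n + i.1)) (Finset.mem_univ j)]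
        have h1 : ∏ i ∈ Finset.univ.erase j, w k i (n + i.1) =
            ∏ i ∈ Finset.univ.erase j, u i (n + i.1) := by
          refine Finset.prod_congr rfl fun i hi => ?_
          rw [hw k i (Finset.ne_of_mem_erase hi)]
        rw [h1, ← sub_mul, norm_mul, mul_comm, norm_prod]
        refine mul_le_mul_of_nonneg_right ?_ (norm_nonneg _)
        calc ∏ i ∈ Finset.univ.erase j, ‖u i (n + i.1)‖ ≤ ∏ _i ∈ Finset.univ.erase j, B :=
              Finset.prod_le_prod (fun i _ => norm_nonneg _) fun i _ => hu i _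
          _ = B ^ r := by rw [Finset.prod_const, hcard]
      have hsh : ∑ n ∈ Finset.Icc 1 N, ‖u j (n + j.1) - w k j (n + j.1)‖ ≤
          ∑ m ∈ Finset.Icc 1 (N + j.1), ‖u j m - w k j m‖ := by
        have h1 : ∑ n ∈ Finset.Icc 1 N, ‖u j (n + j.1) - w k j (n + j.1)‖ =
            ∑ m ∈ (Finset.Icc 1 N).map (addRightEmbedding j.1), ‖u j m - w k j m‖ := by
          rw [Finset.sum_map]
          rfl
        rw [h1]
        refine Finset.sum_le_sum_of_subset_of_nonneg ?_ fun _ _ _ => norm_nonneg _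
        intro m hm
        rw [Finset.mem_map] at hm
        obtain ⟨n, hn, rfl⟩ := hm
        rw [Finset.mem_Icc] at hn ⊢
        simp only [addRightEmbedding_apply]
        omega
      have hN1 : (1 : ℝ) ≤ N := by exact_mod_cast hN
      have hj : ((j.1 : ℕ) : ℝ) ≤ r := by
        have := j.2
        exact_mod_cast (by omega : j.1 ≤ r)
      calc ∑ n ∈ Finset.Icc 1 N, ‖∏ i, u i (n + i.1) - ∏ i, w k i (n + i.1)‖
          ≤ ∑ n ∈ Finset.Icc 1 N, B ^ r * ‖u j (n + j.1) - w k j (n + j.1)‖ :=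
            Finset.sum_le_sum fun n _ => hpt n
        _ = B ^ r * ∑ n ∈ Finset.Icc 1 N, ‖u j (n + j.1) - w k j (n + j.1)‖ := by
            rw [Finset.mul_sum]
        _ ≤ B ^ r * (ε k * ((N + j.1 : ℕ) : ℝ)) :=
            mul_le_mul_of_nonneg_left (hsh.trans (hk2 _ (by omega))) (by positivity)
        _ ≤ B ^ r * (ε k * ((r + 1) * N)) := by
            refine mul_le_mul_of_nonneg_left (mul_le_mul_of_nonneg_left ?_ (hε0 k))
              (by positivity)
            push_cast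
            nlinarith
        _ = B ^ r * (r + 1) * ε k * N := by ring
    · have h1 : ∏ i, Function.update (L 0) j lj i = lj * ∏ i ∈ Finset.univ.erase j, L 0 i := by
        rw [← Finset.mul_prod_erase Finset.univ _ (Finset.mem_univ j), Function.update_self]
        congr 1
        refine Finset.prod_congr rfl fun i hi => ?_
        rw [Function.update_of_ne (Finset.ne_of_mem_erase hi)]
      have h2 : ∏ i, L k i = L k j * ∏ i ∈ Finset.univ.erase j, L 0 i := by
        rw [← Finset.mul_prod_erase Finset.univ _ (Finset.mem_univ j)]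
        congr 1
        refine Finset.prod_congr rfl fun i hi => ?_
        rw [hLi k i (Finset.ne_of_mem_erase hi)]
      rw [h1, h2, ← sub_mul, norm_mul, norm_prod]
      have h3 : ∏ i ∈ Finset.univ.erase j, ‖L 0 i‖ ≤ B ^ r := by
        calc ∏ i ∈ Finset.univ.erase j, ‖L 0 i‖ ≤ ∏ _i ∈ Finset.univ.erase j, B :=
              Finset.prod_le_prod (fun i _ => norm_nonneg _) fun i hi =>
                hLb i (Finset.ne_of_mem_erase hi)
          _ = B ^ r := by rw [Finset.prod_const, hcard]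
      calc ‖lj - L k j‖ * ∏ i ∈ Finset.univ.erase j, ‖L 0 i‖ ≤ ε k * B ^ r :=
            mul_le_mul hk3 h3 (Finset.prod_nonneg fun i _ => norm_nonneg _) (hε0 k)
        _ ≤ B ^ r * (r + 1) * ε k := by
            have h4 : 0 ≤ B ^ r * ε k := mul_nonneg (by positivity) (hε0 k)
            nlinarith
        _ ≤ e := hke

theorem slot_L2 {c : ℝ} (hc0 : 0 < c) (hc1 : c < 1 / 2) {X : Type*} [MeasurableSpace X]
    (μ : Measure X) [IsProbabilityMeasure μ] (T : X → X) (hT : MeasurePreserving T μ μ) {r : ℕ}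
    (f : Fin (r + 1) → X → ℂ) (hf : ∀ j, Bdd (f j)) (j : Fin (r + 1))
    (happ : ∀ ε : ℝ, 0 < ε → ∃ h : X → ℂ, Bdd h ∧ ∫ x, ‖f j x - h x‖ ^ 2 ∂μ ≤ ε ∧
      Prd c μ T (Function.update f j h)) : Prd c μ T f := by
  obtain ⟨C, hC, hmax⟩ := maxi hc0 hc1
  have happ' : ∀ k : ℕ, ∃ h : X → ℂ, Bdd h ∧ ∫ x, ‖f j x - h x‖ ^ 2 ∂μ ≤ (1 / 8 : ℝ) ^ k ∧
      Prd c μ T (Function.update f j h) := fun k => happ _ (by positivity)
  choose h hh1 hh2 hh3 using happ'
  have hset : ∀ k : ℕ, μ {x | ∃ N : ℕ, 1 ≤ N ∧ (1 / 2 : ℝ) ^ k * N <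
      ∑ n ∈ Finset.Icc 1 N, ‖f j (T^[a c n] x) - h k (T^[a c n] x)‖} ≤
      ENNReal.ofReal (C * (1 / 2 : ℝ) ^ k) := by
    intro k
    obtain ⟨M1, hM1⟩ := (hf j).2
    obtain ⟨M2, hM2⟩ := (hh1 k).2
    refine (hmax X μ T hT (fun x => ‖f j x - h k x‖) ((hf j).1.sub (hh1 k).1).norm
      (fun x => norm_nonneg _) ⟨M1 + M2, fun x => (norm_sub_le _ _).trans
        (add_le_add (hM1 x) (hM2 x))⟩ ((1 / 2 : ℝ) ^ k) (by positivity)).trans ?_
    refine ENNReal.ofReal_le_ofReal ?_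
    have h8 : (1 / 8 : ℝ) ^ k = (1 / 2 : ℝ) ^ k * ((1 / 2 : ℝ) ^ k) ^ 2 := by
      rw [← pow_mul, ← pow_add, show (1 / 8 : ℝ) = (1 / 2) ^ 3 by norm_num, ← pow_mul]
      congr 1
      ring
    rw [div_le_iff₀ (by positivity)]
    calc C * ∫ x, ‖f j x - h k x‖ ^ 2 ∂μ ≤ C * (1 / 8 : ℝ) ^ k :=
          mul_le_mul_of_nonneg_left (hh2 k) hC.le
      _ = C * (1 / 2 : ℝ) ^ k * ((1 / 2 : ℝ) ^ k) ^ 2 := by
          rw [h8]
          ring
  have hsum : ∑' k : ℕ, μ {x | ∃ N : ℕ, 1 ≤ N ∧ (1 / 2 : ℝ) ^ k * N <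
      ∑ n ∈ Finset.Icc 1 N, ‖f j (T^[a c n] x) - h k (T^[a c n] x)‖} ≠ ⊤ := by
    refine ne_top_of_le_ne_top ?_ (ENNReal.tsum_le_tsum hset)
    refine Summable.tsum_ofReal_ne_top ?_
    exact (summable_geometric_of_lt_one (by norm_num) (by norm_num)).mul_left C
  have hbc := ae_eventually_notMem hsum
  have hall : ∀ᵐ x ∂μ, ∀ k : ℕ, ∃ l : Fin (r + 1) → ℂ,
      (∀ i, Tendsto (fun N => av N fun n => Function.update f j (h k) i (T^[a c n] x)) atTop
        (𝓝 (l i))) ∧
      Tendsto (fun N => av N fun n => ∏ i, Function.update f j (h k) i (T^[a c (n + i.1)] x))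
        atTop (𝓝 (∏ i, l i)) := ae_all_iff.2 fun k => hh3 k
  choose hfm Mb hMb using hf
  filter_upwards [hbc, hall] with x hx1 hx2
  refine slot_det (fun i n => f i (T^[a c n] x)) (1 + ∑ i, |Mb i|) ?_ ?_ j
    (fun k i n => Function.update f j (h k) i (T^[a c n] x)) ?_ (fun k => (1 / 2 : ℝ) ^ k) ?_ ?_
    ?_ hx2
  · have : 0 ≤ ∑ i, |Mb i| := Finset.sum_nonneg fun i _ => abs_nonneg _
    linarith
  · intro i n
    have h1 := hMb i (T^[a c n] x)
    have h2 : |Mb i| ≤ ∑ i, |Mb i| :=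
      Finset.single_le_sum (f := fun i => |Mb i|) (fun i _ => abs_nonneg _) (Finset.mem_univ i)
    have h3 := le_abs_self (Mb i)
    linarith
  · intro k i hi
    funext n
    simp only [Function.update_of_ne hi]
  · exact tendsto_pow_atTop_nhds_zero_of_lt_one (by norm_num) (by norm_num)
  · intro k
    positivity
  · filter_upwards [hx1] with k hk N hN
    by_contra hcon
    refine hk ⟨N, hN, ?_⟩
    simp only [Function.update_self] at hcon
    exact not_le.1 hcon

end Pool.Agent.VINO
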