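import Pool.Agent.VINO.TChr
import Pool.Agent.VINO.Del

/-!
# VINO / TCnt: averages of characters with frequencies of bounded multiplicity

PROOF.  `del` with `u n x = z n * mFourier (K n) x`, `‖u n x‖ ≤ 1`. `∫ ‖av N u‖^2 = N^(-2) ∑_{m, n ≤ N} z n conj (z m)
∫ mFourier (K n - K m) = N^(-2) ∑_{m, n : K m = K n} .. ≤ N^(-2) N C = C / N ≤ C / √N` (`int_mFourier`,
`mFourier_add`, `mFourier_neg`).
-/

set_option autoImplicit false

namespace Pool.Agent.VINO

open MeasureTheory Filter Topology UnitAddTorus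

theorem cnt_le {d : ℕ} (k : Fin d → ℤ) (x : UnitAddTorus (Fin d)) : ‖mFourier k x‖ ≤ 1 := by
  have h := (mFourier k).norm_coe_le_norm x
  rwa [mFourier_norm] at h

theorem cnt_integrable {d : ℕ} (k : Fin d → ℤ) :
    Integrable (fun x => mFourier k x) (hT d) := by
  refine Integrable.of_bound (mFourier k).continuous.aestronglyMeasurable 1 ?_
  exact ae_of_all _ fun x => cnt_le k x

theorem cnt_avg {d : ℕ} (K : ℕ → Fin d → ℤ) (C : ℕ)
    (hC : ∀ N n : ℕ, ((Finset.Icc 1 N).filter fun m => K m = K n).card ≤ C)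
    (z : ℕ → ℂ) (hz : ∀ n, ‖z n‖ ≤ 1) :
    ∀ᵐ x ∂(hT d), Tendsto (fun N => av N fun n => z n * mFourier (K n) x) atTop (𝓝 0) := by
  refine del (hT d) (fun n x => z n * mFourier (K n) x) (fun n => ?_) (fun n => ?_) C ?_
  · exact (continuous_const.mul (mFourier (K n)).continuous).aestronglyMeasurable
  · refine ae_of_all _ fun x => ?_
    rw [norm_mul]
    exact mul_le_one₀ (hz n) (norm_nonneg _) (cnt_le _ _)
  intro N hN
  have hN0 : (0 : ℝ) < N := by exact_mod_cast hN
  -- the square as a double sum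
  have h1 : ∀ x : UnitAddTorus (Fin d),
      ((‖∑ n ∈ Finset.Icc 1 N, z n * mFourier (K n) x‖ ^ 2 : ℝ) : ℂ) =
      ∑ n ∈ Finset.Icc 1 N, ∑ m ∈ Finset.Icc 1 N,
        (z n * (starRingEnd ℂ) (z m)) * mFourier (K n + -K m) x := by
    intro x
    push_cast
    rw [← Complex.mul_conj', map_sum, Finset.sum_mul_sum]
    refine Finset.sum_congr rfl fun n _ => Finset.sum_congr rfl fun m _ => ?_
    rw [map_mul, mFourier_add, mFourier_neg]
    ring
  have h2 : ((∫ x, ‖∑ n ∈ Finset.Icc 1 N, z n * mFourier (K n) x‖ ^ 2 ∂(hT d) : ℝ) : ℂ) =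
      ∑ n ∈ Finset.Icc 1 N, ∑ m ∈ Finset.Icc 1 N,
        (z n * (starRingEnd ℂ) (z m)) * (if K n + -K m = 0 then 1 else 0) := by
    rw [← integral_complex_ofReal]
    simp only [h1]
    rw [integral_finset_sum]
    · refine Finset.sum_congr rfl fun n _ => ?_
      rw [integral_finset_sum]
      · refine Finset.sum_congr rfl fun m _ => ?_
        rw [integral_const_mul, int_mFourier]
      · intro m _
        exact (cnt_integrable _).const_mul _
    · intro n _
      refine integrable_finset_sum _ fun m _ => ?_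
      exact (cnt_integrable _).const_mul _
  have h3 : ∫ x, ‖∑ n ∈ Finset.Icc 1 N, z n * mFourier (K n) x‖ ^ 2 ∂(hT d) ≤ N * C := by
    have h4 : (∫ x, ‖∑ n ∈ Finset.Icc 1 N, z n * mFourier (K n) x‖ ^ 2 ∂(hT d)) ≤
        ‖((∫ x, ‖∑ n ∈ Finset.Icc 1 N, z n * mFourier (K n) x‖ ^ 2 ∂(hT d) : ℝ) : ℂ)‖ := by
      rw [Complex.norm_real]
      exact le_abs_self _
    refine h4.trans ?_
    rw [h2]
    refine (norm_sum_le _ _).trans ?_
    have h5 : ∀ n ∈ Finset.Icc 1 N, ‖∑ m ∈ Finset.Icc 1 N,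
        (z n * (starRingEnd ℂ) (z m)) * (if K n + -K m = 0 then (1 : ℂ) else 0)‖ ≤ (C : ℝ) := by
      intro n _
      refine (norm_sum_le _ _).trans ?_
      have h6 : ∀ m ∈ Finset.Icc 1 N,
          ‖(z n * (starRingEnd ℂ) (z m)) * (if K n + -K m = 0 then (1 : ℂ) else 0)‖ ≤
            (if K m = K n then (1 : ℝ) else 0) := by
        intro m _
        rw [norm_mul, norm_mul, RCLike.norm_conj]
        have h7 : ‖z n‖ * ‖z m‖ ≤ 1 := mul_le_one₀ (hz n) (norm_nonneg _) (hz m)
        by_cases h : K m = K n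
        · rw [if_pos h, if_pos (by rw [h]; abel), norm_one, mul_one]
          exact h7
        · rw [if_neg h, if_neg, norm_zero, mul_zero]
          intro h8
          apply h
          have h9 := add_neg_eq_zero.1 h8
          exact h9.symm
      refine (Finset.sum_le_sum h6).trans ?_
      rw [Finset.sum_ite, Finset.sum_const_zero, add_zero, Finset.sum_const, nsmul_eq_mul, mul_one]
      exact_mod_cast hC N n
    refine (Finset.sum_le_sum h5).trans ?_
    rw [Finset.sum_const, nsmul_eq_mul, Nat.card_Icc, Nat.add_sub_cancel]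
  have h10 : ∀ x : UnitAddTorus (Fin d), ‖av N fun n => z n * mFourier (K n) x‖ ^ 2 =
      ((N : ℝ) ^ 2)⁻¹ * ‖∑ n ∈ Finset.Icc 1 N, z n * mFourier (K n) x‖ ^ 2 := by
    intro x
    unfold av
    rw [norm_mul, mul_pow, norm_inv, Complex.norm_natCast, inv_pow]
  simp only [h10]
  rw [integral_const_mul]
  have h11 : ((N : ℝ) ^ 2)⁻¹ * ∫ x, ‖∑ n ∈ Finset.Icc 1 N, z n * mFourier (K n) x‖ ^ 2 ∂(hT d) ≤
      ((N : ℝ) ^ 2)⁻¹ * (N * C) := mul_le_mul_of_nonneg_left h3 (by positivity)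
  refine h11.trans ?_
  have h12 : ((N : ℝ) ^ 2)⁻¹ * (N * C) = C / N := by
    field_simp
  rw [h12]
  have h13 : Real.sqrt N ≤ N := by
    rw [Real.sqrt_le_left hN0.le]
    have : (1 : ℝ) ≤ N := by exact_mod_cast hN
    nlinarith
  exact div_le_div_of_nonneg_left (Nat.cast_nonneg C) (Real.sqrt_pos.2 hN0) h13

end Pool.Agent.VINO
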