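import Mathlib

/-!
# VINO / TDich: the algebraic dichotomy

PROOF.  Let `I` be the ideal of the `p ∈ ℚ[X]` with `p(B) k_j = 0` for all `j` (as vectors over `ℚ`). It contains the
characteristic polynomial of `B` (Cayley-Hamilton), so it is generated by a monic polynomial `m` (`ℚ[X]` is a
principal ideal domain) dividing it.
CLAIM. If `R ∈ ℂ[X]`, `R ≠ 0` has degree `< deg m`, then `R(B) k_j ≠ 0` for some `j`. Otherwise, let `ρ_i ≠ 0` be a coefficient of
`R` and let `ℓ : ℂ → ℚ` be `ℚ`-linear with `ℓ ρ_i ≠ 0` (`Module.forall_dual_apply_eq_zero_iff`). Applying `ℓ` to the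
coordinates of `∑ ρ_i B^i k_j = 0` (the coordinates of `B^i k_j` are rational) gives `∑ ℓ(ρ_i) B^i k_j = 0`, so
`∑ ℓ(ρ_i) X^i ∈ I` is nonzero of degree `< deg m`, a contradiction.
(a) `m` has a complex root `l` with `‖l‖ > 1`: `m = (X - l) R` over `ℂ`, `v j = R(B) k_j`; not all `0` by the claim, and
`(B - l) v j = m(B) k_j = 0`.
(b) all complex roots of `m` have absolute value `≤ 1`. Every root `l` is an algebraic integer (a root of the
characteristic polynomial, monic with integer coefficients), all its conjugates are roots of `m` (`m ∈ ℚ[X]`,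
`minpoly ℚ l ∣ m`), so by Kronecker's theorem (`NumberField.Embeddings.pow_eq_one_of_norm_le_one` for `l` in the number field
`ℚ(l)`, or `Polynomial`-version; search `pow_eq_one_of_norm_le_one`) `l` is `0` or a root of unity; `0` is excluded because
`det B ≠ 0`. Let `q` be a common order of the finitely many roots. Every root of `m` is a root of `X^q - 1`, so
`m ∣ (X^q - 1)^D` with `D = deg m` (over `ℂ`: `m` splits; `Polynomial.Splits`; divisibility descends from `ℂ` to `ℚ`:
`Polynomial.map_dvd_map'`). So `(X^q - 1)^D ∈ I`.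
-/

set_option autoImplicit false

namespace Pool.Agent.VINO

open Polynomial

/-- Kronecker: a nonzero complex root of a rational polynomial all of whose roots have norm at most one,
and which is an algebraic integer, is a root of unity. -/
theorem dich_kron (m : ℚ[X]) (hall : ∀ z : ℂ, aeval z m = 0 → ‖z‖ ≤ 1)
    (z : ℂ) (hz0 : z ≠ 0) (hzi : IsIntegral ℤ z) (hz : aeval z m = 0) :
    ∃ n, 0 < n ∧ z ^ n = 1 := by
  open IntermediateField in
  let K := ℚ⟮z⟯
  let : NumberField K := {
    to_charZero := ℚ⟮z⟯.charZero,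
    to_finiteDimensional := adjoin.finiteDimensional hzi.tower_top }
  let y : K := ⟨z, mem_adjoin_simple_self ℚ z⟩
  suffices ∃ (n : ℕ) (_ : 0 < n), y ^ n = 1 by
    obtain ⟨n, hn₀, hn₁⟩ := this
    exact ⟨n, hn₀, congrArg (algebraMap K ℂ) hn₁⟩
  refine NumberField.Embeddings.pow_eq_one_of_norm_le_one (x := y) K ℂ (Subtype.coe_ne_coe.mp hz0)
    (coe_isIntegral_iff.mp hzi)
    fun φ ↦ hall _ ?_
  have H (ψ : K →+* ℂ) : ψ ((aeval y) m) = (aeval (ψ y)) m := by
    conv_rhs => rw [← map_id (p := m)]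
    exact m.map_aeval_eq_aeval_map (by ext; simp) y
  rw [← H, map_eq_zero_iff _ φ.injective,
    ← map_eq_zero_iff _ (FaithfulSMul.algebraMap_injective ↥K ℂ), H]
  exact hz

theorem dich_order (s : Finset ℂ) (hs : ∀ z ∈ s, ∃ n : ℕ, 0 < n ∧ z ^ n = 1) :
    ∃ q : ℕ, 0 < q ∧ ∀ z ∈ s, z ^ q = 1 := by
  classical
  induction s using Finset.induction_on with
  | empty => exact ⟨1, one_pos, by simp⟩
  | insert a s ha ih =>
    obtain ⟨q, hq, h⟩ := ih fun z hz => hs z (Finset.mem_insert_of_mem hz)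
    obtain ⟨n, hn, h'⟩ := hs a (Finset.mem_insert_self _ _)
    refine ⟨n * q, Nat.mul_pos hn hq, fun z hz => ?_⟩
    rcases Finset.mem_insert.1 hz with rfl | hz
    · rw [pow_mul, h', one_pow]
    · rw [mul_comm, pow_mul, h z hz, one_pow]

/-- A rational polynomial whose complex roots are roots of unity divides a power of `X ^ q - 1`. -/
theorem dich_dvd (m : ℚ[X]) (hm : m ≠ 0) (h : ∀ z : ℂ, aeval z m = 0 → ∃ n : ℕ, 0 < n ∧ z ^ n = 1) :
    ∃ q D : ℕ, 1 ≤ q ∧ m ∣ (X ^ q - 1) ^ D := by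
  classical
  set mc : ℂ[X] := m.map (algebraMap ℚ ℂ) with hmc
  have hmc0 : mc ≠ 0 := (Polynomial.map_ne_zero_iff (algebraMap ℚ ℂ).injective).2 hm
  obtain ⟨q, hq, hqr⟩ := dich_order mc.roots.toFinset (by
    intro z hz
    rw [Multiset.mem_toFinset, mem_roots hmc0, IsRoot, hmc, eval_map_algebraMap] at hz
    exact h z hz)
  refine ⟨q, Multiset.card mc.roots, hq, ?_⟩
  rw [← Polynomial.map_dvd_map' (algebraMap ℚ ℂ), ← hmc]
  have hsp : mc.Splits := IsAlgClosed.splits mc
  have h1 : mc = C mc.leadingCoeff * (mc.roots.map fun a => X - C a).prod :=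
    hsp.eq_prod_roots
  have h2 : (mc.roots.map fun a => (X - C a : ℂ[X])).prod ∣
      (mc.roots.map fun _ => (X ^ q - 1 : ℂ[X])).prod := by
    apply Multiset.prod_dvd_prod_of_dvd
    intro a ha
    rw [dvd_iff_isRoot, IsRoot, eval_sub, eval_pow, eval_X, eval_one,
      hqr a (Multiset.mem_toFinset.2 ha), sub_self]
  rw [Multiset.map_const', Multiset.prod_replicate] at h2
  have h3 : IsUnit (C mc.leadingCoeff : ℂ[X]) :=
    isUnit_C.2 (isUnit_iff_ne_zero.2 (leadingCoeff_ne_zero.2 hmc0))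
  have h4 : C mc.leadingCoeff * (mc.roots.map fun a => X - C a).prod ∣
      (X ^ q - 1 : ℂ[X]) ^ Multiset.card mc.roots := h3.mul_left_dvd.2 h2
  rw [← h1] at h4
  simpa using h4

theorem dich {d r : ℕ} (B : Matrix (Fin d) (Fin d) ℤ) (hB : B.det ≠ 0)
    (k : Fin (r + 1) → Fin d → ℤ) :
    (∃ (l : ℂ) (R : ℂ[X]), 1 < ‖l‖ ∧
      (∃ j, (aeval (B.map (Int.cast : ℤ → ℂ)) R).mulVec (fun i => (k j i : ℂ)) ≠ 0) ∧
      ∀ j, (B.map (Int.cast : ℤ → ℂ)).mulVec
          ((aeval (B.map (Int.cast : ℤ → ℂ)) R).mulVec fun i => (k j i : ℂ)) =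
        l • (aeval (B.map (Int.cast : ℤ → ℂ)) R).mulVec fun i => (k j i : ℂ)) ∨
    ∃ q D : ℕ, 1 ≤ q ∧ ∀ j, ((B ^ q - 1) ^ D).mulVec (k j) = 0 := by
  classical
  set Bc : Matrix (Fin d) (Fin d) ℂ := B.map (Int.cast : ℤ → ℂ) with hBc
  set Bq : Matrix (Fin d) (Fin d) ℚ := B.map (Int.cast : ℤ → ℚ) with hBq
  set kc : Fin (r + 1) → Fin d → ℂ := fun j i => (k j i : ℂ) with hkc
  set kq : Fin (r + 1) → Fin d → ℚ := fun j i => (k j i : ℚ) with hkq
  -- casting
  have hBcq : Bc = (Algebra.ofId ℚ ℂ).mapMatrix Bq := by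
    ext i j
    simp [hBc, hBq]
  have hcast : ∀ (p : ℚ[X]) (j) (s), (aeval Bc p).mulVec (kc j) s =
      (((aeval Bq p).mulVec (kq j) s : ℚ) : ℂ) := by
    intro p j s
    rw [hBcq, aeval_algHom_apply]
    simp only [Matrix.mulVec, dotProduct, AlgHom.mapMatrix_apply, Matrix.map_apply, hkc, hkq]
    push_cast
    simp
  have hcast' : ∀ (p : ℚ[X]) (j) (s), (aeval Bc (p.map (algebraMap ℚ ℂ))).mulVec (kc j) s =
      (((aeval Bq p).mulVec (kq j) s : ℚ) : ℂ) := by
    intro p j s
    rw [aeval_map_algebraMap]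
    exact hcast p j s
  -- the ideal
  let I : Ideal ℚ[X] :=
    { carrier := {p | ∀ j, (aeval Bq p).mulVec (kq j) = 0}
      add_mem' := by
        intro a b ha hb j
        rw [map_add, Matrix.add_mulVec, ha j, hb j, add_zero]
      zero_mem' := by
        intro j
        rw [map_zero, Matrix.zero_mulVec]
      smul_mem' := by
        intro c a ha j
        rw [smul_eq_mul, map_mul, ← Matrix.mulVec_mulVec, ha j, Matrix.mulVec_zero] }
  have hI : ∀ p, p ∈ I ↔ ∀ j, (aeval Bq p).mulVec (kq j) = 0 := fun p => Iff.rfl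
  have hcp : Bq.charpoly ∈ I := by
    rw [hI]
    intro j
    rw [Matrix.aeval_self_charpoly, Matrix.zero_mulVec]
  set m : ℚ[X] := Submodule.IsPrincipal.generator I with hm
  have hmI : ∀ p, p ∈ I ↔ m ∣ p := fun p => Submodule.IsPrincipal.mem_iff_generator_dvd I
  have hm0 : m ≠ 0 := by
    intro h
    have h1 := (hmI _).1 hcp
    rw [h, zero_dvd_iff] at h1
    exact (Matrix.charpoly_monic Bq).ne_zero h1
  have hmm : m ∈ I := (hmI _).2 dvd_rfl
  -- the claim
  have claim : ∀ R : ℂ[X], R ≠ 0 → R.natDegree < m.natDegree →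
      ∃ j, (aeval Bc R).mulVec (kc j) ≠ 0 := by
    intro R hR hdeg
    by_contra hcon
    push Not at hcon
    have hlc : R.coeff R.natDegree ≠ 0 := leadingCoeff_ne_zero.2 hR
    obtain ⟨ℓ, hℓ⟩ : ∃ ℓ : ℂ →ₗ[ℚ] ℚ, ℓ (R.coeff R.natDegree) ≠ 0 := by
      by_contra hno
      push Not at hno
      exact hlc ((Module.forall_dual_apply_eq_zero_iff ℚ _).1 hno)
    let P : ℚ[X] := ∑ i ∈ Finset.range (R.natDegree + 1), monomial i (ℓ (R.coeff i))
    have hPc : ∀ n, n ≤ R.natDegree → P.coeff n = ℓ (R.coeff n) := by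
      intro n hn
      simp only [P, finsetSum_coeff, coeff_monomial]
      rw [Finset.sum_ite_eq' (Finset.range (R.natDegree + 1)) n]
      simp [Nat.lt_succ_iff.2 hn]
    have hP0 : P ≠ 0 := by
      intro h
      have := hPc R.natDegree le_rfl
      rw [h, coeff_zero] at this
      exact hℓ this.symm
    have hPdeg : P.natDegree < m.natDegree := by
      refine lt_of_le_of_lt ?_ hdeg
      refine natDegree_sum_le_of_forall_le _ _ ?_
      intro i hi
      exact (natDegree_monomial_le _).trans (Nat.lt_succ_iff.1 (Finset.mem_range.1 hi))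
    have hPI : P ∈ I := by
      rw [hI]
      intro j
      funext s
      have h1 : (aeval Bq P).mulVec (kq j) s =
          ∑ i ∈ Finset.range (R.natDegree + 1), ℓ (R.coeff i) * ((Bq ^ i).mulVec (kq j) s) := by
        simp only [P, map_sum, aeval_monomial]
        rw [Matrix.sum_mulVec, Finset.sum_apply]
        refine Finset.sum_congr rfl fun i _ => ?_
        rw [← Algebra.smul_def, Matrix.smul_mulVec, Pi.smul_apply, smul_eq_mul]
      have h2 : (aeval Bc R).mulVec (kc j) s =
          ∑ i ∈ Finset.range (R.natDegree + 1), R.coeff i * ((Bc ^ i).mulVec (kc j) s) := by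
        rw [aeval_eq_sum_range, Matrix.sum_mulVec, Finset.sum_apply]
        refine Finset.sum_congr rfl fun i _ => ?_
        rw [Matrix.smul_mulVec, Pi.smul_apply, smul_eq_mul]
      have h3 : ∀ i : ℕ, (Bc ^ i).mulVec (kc j) s = (((Bq ^ i).mulVec (kq j) s : ℚ) : ℂ) := by
        intro i
        have := hcast (X ^ i) j s
        simpa only [map_pow, aeval_X] using this
      rw [h1]
      have h4 : ∀ i ∈ Finset.range (R.natDegree + 1),
          ℓ (R.coeff i) * ((Bq ^ i).mulVec (kq j) s) =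
            ℓ (R.coeff i * ((Bc ^ i).mulVec (kc j) s)) := by
        intro i _
        rw [h3, mul_comm (R.coeff i), mul_comm (ℓ (R.coeff i))]
        have : ((((Bq ^ i).mulVec (kq j) s : ℚ) : ℂ) * R.coeff i) =
            ((Bq ^ i).mulVec (kq j) s) • R.coeff i := by
          rw [Algebra.smul_def]; rfl
        rw [this, map_smul, smul_eq_mul]
      rw [Finset.sum_congr rfl h4, ← map_sum, ← h2, hcon j]
      simp
    have h5 := natDegree_le_of_dvd ((hmI _).1 hPI) hP0
    omega
  by_cases hroot : ∃ l : ℂ, aeval l m = 0 ∧ 1 < ‖l‖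
  · left
    obtain ⟨l, hl, hl1⟩ := hroot
    set mc : ℂ[X] := m.map (algebraMap ℚ ℂ) with hmc
    have hmc0 : mc ≠ 0 := (Polynomial.map_ne_zero_iff (algebraMap ℚ ℂ).injective).2 hm0
    have hr : mc.IsRoot l := by
      rw [IsRoot, hmc, eval_map_algebraMap]; exact hl
    obtain ⟨R, hR⟩ := dvd_iff_isRoot.2 hr
    have hR0 : R ≠ 0 := by
      rintro rfl
      rw [mul_zero] at hR
      exact hmc0 hR
    have hdeg : mc.natDegree = 1 + R.natDegree := by
      rw [hR, natDegree_mul (X_sub_C_ne_zero l) hR0, natDegree_X_sub_C]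
    have hdeg' : mc.natDegree = m.natDegree := natDegree_map _
    refine ⟨l, R, hl1, claim R hR0 (by omega), fun j => ?_⟩
    have h1 : (aeval Bc mc).mulVec (kc j) = 0 := by
      funext s
      rw [hcast', (hI _).1 hmm j]
      simp
    rw [hR, map_mul, ← Matrix.mulVec_mulVec, map_sub, aeval_X, aeval_C, Matrix.sub_mulVec,
      Algebra.algebraMap_eq_smul_one, Matrix.smul_mulVec, Matrix.one_mulVec, sub_eq_zero] at h1
    exact h1
  · right
    push Not at hroot
    have hmcp : m ∣ Bq.charpoly := (hmI _).1 hcp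
    have hcpq : Bq.charpoly = B.charpoly.map (algebraMap ℤ ℚ) := by
      have := Matrix.charpoly_map B (Int.castRingHom ℚ)
      exact this
    have hrootB : ∀ z : ℂ, aeval z m = 0 → aeval z B.charpoly = 0 := by
      intro z hz
      obtain ⟨c, hc⟩ := hmcp
      have h1 : aeval z Bq.charpoly = 0 := by rw [hc, map_mul, hz, zero_mul]
      rwa [hcpq, aeval_map_algebraMap] at h1
    obtain ⟨q, D, hq, hdvd⟩ := dich_dvd m hm0 (by
      intro z hz
      refine dich_kron m (fun w hw => hroot w hw) z ?_ ?_ hz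
      · rintro rfl
        have h1 := hrootB 0 hz
        have h2 := Matrix.det_eq_sign_charpoly_coeff B
        have h3 : ((B.charpoly.coeff 0 : ℤ) : ℂ) = 0 := by
          rw [coeff_zero_eq_aeval_zero]
          simpa [← coeff_zero_eq_aeval_zero'] using h1
        have h4 : B.charpoly.coeff 0 = 0 := by exact_mod_cast h3
        rw [h4, mul_zero] at h2
        exact hB h2
      · exact ⟨B.charpoly, Matrix.charpoly_monic B, by
          rw [← aeval_def]; exact hrootB z hz⟩)
    refine ⟨q, D, hq, fun j => ?_⟩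
    have h1 : (aeval Bq ((X ^ q - 1) ^ D : ℚ[X])).mulVec (kq j) = 0 :=
      (hI _).1 ((hmI _).2 hdvd) j
    have h2 : aeval Bq ((X ^ q - 1) ^ D : ℚ[X]) = (Bq ^ q - 1) ^ D := by
      simp
    rw [h2] at h1
    have h3 : (Bq ^ q - 1) ^ D = (Int.castRingHom ℚ).mapMatrix ((B ^ q - 1) ^ D) := by
      rw [map_pow, map_sub, map_pow, map_one]
      rfl
    rw [h3] at h1
    funext s
    have h4 := congrFun h1 s
    have h5 : (((((B ^ q - 1) ^ D).mulVec (k j) s : ℤ)) : ℚ) = 0 := by
      refine Eq.trans ?_ h4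
      simp only [Matrix.mulVec, dotProduct, RingHom.mapMatrix_apply, Matrix.map_apply, hkq]
      push_cast
      rfl
    have h6 : ((B ^ q - 1) ^ D).mulVec (k j) s = 0 := by exact_mod_cast h5
    rw [h6]; rfl

end Pool.Agent.VINO
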