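import Pool.Agent.VINO.TDefs
import Pool.Agent.VINO.Gap

/-!
# VINO / TGrow: the expanding case

PROOF.  `v j = R(B) k_j ∈ ℂ^d`; `R(B)` commutes with `B`, `B v j = l v j`, so `R(B) (KV c B k n) = ∑_j l^(a(n+j)) v j`. Let
`j₁` be the largest `j` with `v j ≠ 0` and `i` a coordinate with `(v j₁)_i ≠ 0`, `V n = ∑_{j ≤ j₁} l^(a(n+j)) (v j)_i`. Since
`a(n+j₁) - a(n+j) → ∞` for `j < j₁` (`gap`, `a_mono`) and `‖l‖ > 1`, for large `n`
`(1/2) ‖(v j₁)_i‖ ‖l‖^(a(n+j₁)) ≤ ‖V n‖ ≤ (3/2) ‖(v j₁)_i‖ ‖l‖^(a(n+j₁))`, and as `a(n+1+j₁) - a(n+j₁) → ∞`, for large `n`: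
`‖V (n+1)‖ > ‖V n‖`. So `‖V n‖` is strictly increasing for `n ≥ n₀`, `n ↦ KV c B k n` is injective on `[n₀, ∞)`, and
`C = n₀ + 1`.
-/

set_option autoImplicit false

namespace Pool.Agent.VINO

open Polynomial

/-- The natural gaps tend to infinity. -/
theorem gap_nat {c : ℝ} (hc0 : 0 < c) (hc1 : c < 1) (p q : ℕ) (hpq : p < q) :
    Filter.Tendsto (fun n => a c (n + q) - a c (n + p)) Filter.atTop Filter.atTop := by
  rw [Filter.tendsto_atTop]
  intro b
  have h1 := (Filter.tendsto_atTop.mp (gap hc0 hc1) (b : ℝ))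
  have h2 := (Filter.tendsto_add_atTop_nat p).eventually h1
  filter_upwards [h2, Filter.eventually_ge_atTop 1] with n hn hn1
  have h3 : a c (n + p + 1) ≤ a c (n + q) := a_mono hc0 (by omega) (by omega)
  have h4 : ((a c (n + p) : ℝ)) + b ≤ a c (n + p + 1) := by linarith
  have h5 : a c (n + p) + b ≤ a c (n + p + 1) := by exact_mod_cast h4
  omega

/-- An eigenvector of a matrix is an eigenvector of its powers. -/
theorem pow_mulVec_eig {d : ℕ} (M : Matrix (Fin d) (Fin d) ℂ) (l : ℂ) (v : Fin d → ℂ)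
    (h : M.mulVec v = l • v) (m : ℕ) : (M ^ m).mulVec v = l ^ m • v := by
  induction m with
  | zero => simp
  | succ m ih =>
    rw [pow_succ, ← Matrix.mulVec_mulVec, h, Matrix.mulVec_smul, ih, smul_smul, pow_succ, mul_comm]

theorem grow {c : ℝ} (hc0 : 0 < c) (hc1 : c < 1) {d r : ℕ} (B : Matrix (Fin d) (Fin d) ℤ)
    (k : Fin (r + 1) → Fin d → ℤ) (l : ℂ) (R : ℂ[X]) (hl : 1 < ‖l‖)
    (hne : ∃ j, (aeval (B.map (Int.cast : ℤ → ℂ)) R).mulVec (fun i => (k j i : ℂ)) ≠ 0)
    (heig : ∀ j, (B.map (Int.cast : ℤ → ℂ)).mulVec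
        ((aeval (B.map (Int.cast : ℤ → ℂ)) R).mulVec fun i => (k j i : ℂ)) =
      l • (aeval (B.map (Int.cast : ℤ → ℂ)) R).mulVec fun i => (k j i : ℂ)) :
    ∃ C : ℕ, ∀ N n : ℕ,
      ((Finset.Icc 1 N).filter fun m => KV c B k m = KV c B k n).card ≤ C := by
  classical
  set M : Matrix (Fin d) (Fin d) ℂ := B.map (Int.cast : ℤ → ℂ) with hM
  set Q : Matrix (Fin d) (Fin d) ℂ := aeval M R with hQ
  set v : Fin (r + 1) → Fin d → ℂ := fun j => Q.mulVec (fun i => (k j i : ℂ)) with hv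
  have hl0 : l ≠ 0 := by
    intro h; rw [h, norm_zero] at hl; linarith
  -- the largest index
  obtain ⟨j₀, hj₀⟩ := hne
  have hS : (Finset.univ.filter fun j => v j ≠ 0).Nonempty := ⟨j₀, by simpa [hv] using hj₀⟩
  set j₁ := (Finset.univ.filter fun j => v j ≠ 0).max' hS with hj₁
  have hj₁m : v j₁ ≠ 0 := by
    have := Finset.max'_mem _ hS
    exact (Finset.mem_filter.mp this).2
  have hgt : ∀ j, j₁ < j → v j = 0 := by
    intro j hj
    by_contra hne
    have := Finset.le_max' (Finset.univ.filter fun j => v j ≠ 0) j (by simp [hne])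
    exact absurd (lt_of_lt_of_le hj this) (lt_irrefl _)
  obtain ⟨i, hi⟩ := Function.ne_iff.mp hj₁m
  have hi : v j₁ i ≠ 0 := by simpa using hi
  -- powers commute
  have hcomm : ∀ m : ℕ, Q * M ^ m = M ^ m * Q := by
    intro m
    have h1 : Commute (aeval M R) (aeval M (X ^ m : ℂ[X])) := by
      rw [Commute, SemiconjBy, ← map_mul, ← map_mul, mul_comm]
    simpa using h1.eq
  have hcast : ∀ (m : ℕ) (u : Fin d → ℤ),
      (fun i => (((B ^ m).mulVec u i : ℤ) : ℂ)) = (M ^ m).mulVec (fun i => (u i : ℂ)) := by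
    intro m u
    have h1 : M ^ m = (B ^ m).map (Int.cast : ℤ → ℂ) := by
      have := map_pow ((Int.castRingHom ℂ).mapMatrix (m := Fin d)) B m
      simpa [RingHom.mapMatrix_apply, hM] using this.symm
    rw [h1]
    funext i
    simp [Matrix.mulVec, dotProduct]
  -- the linear functional
  have hV : ∀ n : ℕ, (Q.mulVec fun i => (KV c B k n i : ℂ)) i =
      ∑ j : Fin (r + 1), l ^ a c (n + j.1) * v j i := by
    intro n
    have h1 : (fun i => (KV c B k n i : ℂ)) =
        ∑ j : Fin (r + 1), (M ^ a c (n + j.1)).mulVec (fun i => (k j i : ℂ)) := by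
      funext i
      rw [Finset.sum_apply]
      simp only [KV, Finset.sum_apply, Int.cast_sum]
      refine Finset.sum_congr rfl fun j _ => ?_
      exact congrFun (hcast (a c (n + j.1)) (k j)) i
    have h2 : (Q.mulVec fun i => (KV c B k n i : ℂ)) =
        ∑ j : Fin (r + 1), l ^ a c (n + j.1) • v j := by
      rw [h1, Matrix.mulVec_sum]
      refine Finset.sum_congr rfl fun j _ => ?_
      rw [Matrix.mulVec_mulVec, hcomm, ← Matrix.mulVec_mulVec]
      exact pow_mulVec_eig M l (v j) (heig j) _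
    rw [h2, Finset.sum_apply]
    rfl
  -- the normalised sum
  set g : Fin (r + 1) → ℕ → ℂ := fun j n =>
    if j ≤ j₁ then (l⁻¹) ^ (a c (n + j₁.1) - a c (n + j.1)) * v j i else 0 with hg
  have hfac : ∀ n : ℕ, 1 ≤ n → ∑ j : Fin (r + 1), l ^ a c (n + j.1) * v j i =
      l ^ a c (n + j₁.1) * ∑ j, g j n := by
    intro n hn
    rw [Finset.mul_sum]
    refine Finset.sum_congr rfl fun j _ => ?_
    simp only [hg]
    split_ifs with h
    · have h1 : a c (n + j.1) ≤ a c (n + j₁.1) :=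
        a_mono hc0 (by omega) (by have : j.1 ≤ j₁.1 := h; omega)
      have h2 : l ^ a c (n + j₁.1) =
          l ^ (a c (n + j₁.1) - a c (n + j.1)) * l ^ a c (n + j.1) := by
        rw [← pow_add]; congr 1; omega
      have h3 : l ^ (a c (n + j₁.1) - a c (n + j.1)) *
          (l⁻¹) ^ (a c (n + j₁.1) - a c (n + j.1)) = 1 := by
        rw [← mul_pow, mul_inv_cancel₀ hl0, one_pow]
      rw [h2]
      calc l ^ a c (n + j.1) * v j i
          = (l ^ (a c (n + j₁.1) - a c (n + j.1)) *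
          (l⁻¹) ^ (a c (n + j₁.1) - a c (n + j.1))) * (l ^ a c (n + j.1) * v j i) := by
            rw [h3, one_mul]
        _ = _ := by ring
    · have : v j = 0 := hgt j (not_le.mp h)
      simp [this]
  have hglim : Filter.Tendsto (fun n => ∑ j, g j n) Filter.atTop (nhds (v j₁ i)) := by
    have h1 : ∀ j, Filter.Tendsto (g j) Filter.atTop (nhds (if j = j₁ then v j₁ i else 0)) := by
      intro j
      by_cases hj : j = j₁
      · subst hj
        simp only [hg, le_refl, if_true, Nat.sub_self, pow_zero, one_mul]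
        exact tendsto_const_nhds
      · rw [if_neg hj]
        by_cases hle : j ≤ j₁
        · have hlt : j.1 < j₁.1 := lt_of_le_of_ne hle (fun h => hj (Fin.ext h))
          have h2 : ‖l⁻¹‖ < 1 := by
            rw [norm_inv]; exact inv_lt_one_of_one_lt₀ hl
          have h3 := (tendsto_pow_atTop_nhds_zero_of_norm_lt_one h2).comp
            (gap_nat hc0 hc1 j.1 j₁.1 hlt)
          have h4 := h3.mul_const (v j i)
          rw [zero_mul] at h4
          refine h4.congr fun n => ?_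
          simp only [hg, hle, if_true, Function.comp]
        · simp only [hg, hle, if_false]
          exact tendsto_const_nhds
    have h2 := tendsto_finset_sum Finset.univ fun j _ => h1 j
    simpa using h2
  have hnorm := hglim.norm
  set w : ℝ := ‖v j₁ i‖ with hw
  have hwpos : 0 < w := norm_pos_iff.mpr hi
  -- the growth
  have hev1 : ∀ᶠ n in Filter.atTop, ‖∑ j, g j n‖ < 3 / 2 * w ∧ 1 / 2 * w < ‖∑ j, g j n‖ :=
    (hnorm.eventually (gt_mem_nhds (by linarith))).and
      (hnorm.eventually (lt_mem_nhds (by linarith)))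
  have hev2 : ∀ᶠ n in Filter.atTop, (3 : ℝ) ≤ ‖l‖ ^ (a c (n + (j₁.1 + 1)) - a c (n + j₁.1)) :=
    (tendsto_pow_atTop_atTop_of_one_lt hl).comp (gap_nat hc0 hc1 j₁.1 (j₁.1 + 1) (by omega))
      |>.eventually (Filter.eventually_ge_atTop 3)
  have hev1' := (Filter.tendsto_add_atTop_nat 1).eventually hev1
  obtain ⟨n₀, hn₀⟩ := Filter.eventually_atTop.mp
    (((hev1.and hev1').and hev2).and (Filter.eventually_ge_atTop 1))
  set V : ℕ → ℂ := fun n => ∑ j : Fin (r + 1), l ^ a c (n + j.1) * v j i with hVdef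
  have hstep : ∀ n, n₀ ≤ n → ‖V n‖ < ‖V (n + 1)‖ := by
    intro n hn
    obtain ⟨⟨⟨hA, hB⟩, hC⟩, hD⟩ := hn₀ n hn
    have e1 : ‖V n‖ = ‖l‖ ^ a c (n + j₁.1) * ‖∑ j, g j n‖ := by
      simp only [hVdef]
      rw [hfac n hD, norm_mul, norm_pow]
    have e2 : ‖V (n + 1)‖ = ‖l‖ ^ a c (n + 1 + j₁.1) * ‖∑ j, g j (n + 1)‖ := by
      simp only [hVdef]
      rw [hfac (n + 1) (by omega), norm_mul, norm_pow]
    have hm : a c (n + j₁.1) ≤ a c (n + (j₁.1 + 1)) := a_mono hc0 (by omega) (by omega)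
    have e3 : ‖l‖ ^ a c (n + 1 + j₁.1) =
        ‖l‖ ^ (a c (n + (j₁.1 + 1)) - a c (n + j₁.1)) * ‖l‖ ^ a c (n + j₁.1) := by
      rw [← pow_add]
      congr 1
      have : n + 1 + j₁.1 = n + (j₁.1 + 1) := by omega
      rw [this]; omega
    have hp : 0 < ‖l‖ ^ a c (n + j₁.1) := pow_pos (by linarith) _
    rw [e1, e2, e3]
    calc ‖l‖ ^ a c (n + j₁.1) * ‖∑ j, g j n‖
        < ‖l‖ ^ a c (n + j₁.1) * (3 / 2 * w) := mul_lt_mul_of_pos_left hA.1 hp
      _ = 3 * ‖l‖ ^ a c (n + j₁.1) * (1 / 2 * w) := by ring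
      _ ≤ ‖l‖ ^ (a c (n + (j₁.1 + 1)) - a c (n + j₁.1)) * ‖l‖ ^ a c (n + j₁.1) *
          (1 / 2 * w) := by
          have := mul_le_mul_of_nonneg_right hC hp.le
          exact mul_le_mul_of_nonneg_right this (by linarith)
      _ ≤ _ := by
          refine mul_le_mul_of_nonneg_left hB.2.le ?_
          positivity
  have hmono : ∀ m n, n₀ ≤ m → m < n → ‖V m‖ < ‖V n‖ := by
    intro m n hm hmn
    induction n, hmn using Nat.le_induction with
    | base => exact hstep m hm
    | succ n hn ih => exact ih.trans (hstep n (by omega))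
  have hinj : ∀ m n, n₀ ≤ m → n₀ ≤ n → KV c B k m = KV c B k n → m = n := by
    intro m n hm hn h
    have hVe : V m = V n := by
      simp only [hVdef]
      rw [← hV m, ← hV n, h]
    rcases lt_trichotomy m n with h1 | h1 | h1
    · exact absurd (by rw [hVe]) (hmono m n hm h1).ne
    · exact h1
    · exact absurd (by rw [hVe]) (hmono n m hn h1).ne
  refine ⟨n₀ + 1, fun N n => ?_⟩
  have hsub : ((Finset.Icc 1 N).filter fun m => KV c B k m = KV c B k n) ⊆
      Finset.range n₀ ∪ ((Finset.Icc 1 N).filter fun m => n₀ ≤ m ∧ KV c B k m = KV c B k n) := by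
    intro m hm
    rw [Finset.mem_filter] at hm
    by_cases h : m < n₀
    · exact Finset.mem_union_left _ (Finset.mem_range.mpr h)
    · exact Finset.mem_union_right _ (Finset.mem_filter.mpr ⟨hm.1, not_lt.mp h, hm.2⟩)
  have hone : ((Finset.Icc 1 N).filter fun m => n₀ ≤ m ∧ KV c B k m = KV c B k n).card ≤ 1 := by
    rw [Finset.card_le_one]
    intro x hx y hy
    rw [Finset.mem_filter] at hx hy
    exact hinj x y hx.2.1 hy.2.1 (hx.2.2.trans hy.2.2.symm)
  calc _ ≤ (Finset.range n₀ ∪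
        ((Finset.Icc 1 N).filter fun m => n₀ ≤ m ∧ KV c B k m = KV c B k n)).card :=
        Finset.card_le_card hsub
    _ ≤ (Finset.range n₀).card + _ := Finset.card_union_le _ _
    _ ≤ n₀ + 1 := by rw [Finset.card_range]; omega

end Pool.Agent.VINO
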