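import Pool.Agent.VINO.TDefs
import Pool.Agent.VINO.Sep

/-!
# VINO / TUnip: the quasi-unipotent case

PROOF.  `Nl = B^q - 1`. Let `D` be minimal with `Nl^D k_j = 0` for all `j`; `D ≥ 2` by `hne`. `w j = Nl^(D-2) k_j`:
`Nl^2 w j = 0` for all `j`, `Nl w j ≠ 0` for some `j`. For `a = q m + s`: `B^a w j = B^s (1 + Nl)^m w j = B^s (w j + m Nl w j)`.
Suppose `KV m = KV n` with `m, n ≥ n₀` and `a(m+j) ≡ a(n+j) mod q` for all `j` (with the residues `s j`). Apply `Nl^(D-2)`: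
`∑_j B^(a(n+j)) w j = ∑_j B^(a(m+j)) w j`, so `∑_j (a(n+j) - a(m+j))/q • B^(s j) Nl w j = 0`. `z j = B^(s j) Nl w j`, not all
zero (`det B ≠ 0`: `Matrix.mulVec` is injective). With a coordinate `i` such that the `θ j = (z j)_i` are not all zero:
`∑ θ j (a(n+j) - a(m+j)) = 0`, so `m = n` by `sep` (`n₀` from `sep`, the maximum over the finitely many possible
`(s j)_j` and `i`). So for each `n ≥ n₀`... in all cases: the `m ≥ n₀` with `KV m = KV n` fall into at most `q^(r+1)` classes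
according to the residues of `(a(m+j))_j` modulo `q`, and any two elements `m, m' ≥ n₀` of the same class are equal
(`KV m = KV m'`). So `C = n₀ + q^(r+1)`.
-/

set_option autoImplicit false

namespace Pool.Agent.VINO

private theorem unip_pow {d : ℕ} (Nl : Matrix (Fin d) (Fin d) ℤ) (w : Fin d → ℤ)
    (h : (Nl ^ 2).mulVec w = 0) (m : ℕ) :
    ((1 + Nl) ^ m).mulVec w = w + (m : ℤ) • Nl.mulVec w := by
  induction m with
  | zero => simp
  | succ m ih =>
    have h' : Nl.mulVec (Nl.mulVec w) = 0 := by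
      rw [Matrix.mulVec_mulVec, ← sq, h]
    rw [pow_succ', ← Matrix.mulVec_mulVec, ih, Matrix.mulVec_add, Matrix.mulVec_smul,
      Matrix.add_mulVec, Matrix.one_mulVec, Matrix.add_mulVec, Matrix.one_mulVec, h',
      Nat.cast_succ]
    module

private theorem unip_B {d : ℕ} (B : Matrix (Fin d) (Fin d) ℤ) (q : ℕ) (w : Fin d → ℤ)
    (h : ((B ^ q - 1) ^ 2).mulVec w = 0) (b : ℕ) :
    (B ^ b).mulVec w = (B ^ (b % q)).mulVec w +
      ((b / q : ℕ) : ℤ) • (B ^ (b % q)).mulVec ((B ^ q - 1).mulVec w) := by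
  have h1 : B ^ b = B ^ (b % q) * (1 + (B ^ q - 1)) ^ (b / q) := by
    rw [add_sub_cancel, ← pow_mul, ← pow_add, Nat.mod_add_div]
  rw [h1, ← Matrix.mulVec_mulVec, unip_pow _ _ h, Matrix.mulVec_add, Matrix.mulVec_smul]

private theorem unip_KV {c : ℝ} {d r : ℕ} (B : Matrix (Fin d) (Fin d) ℤ)
    (k : Fin (r + 1) → Fin d → ℤ) (q D : ℕ) (n : ℕ) :
    ((B ^ q - 1) ^ D).mulVec (KV c B k n) =
      ∑ j, (B ^ a c (n + j.1)).mulVec (((B ^ q - 1) ^ D).mulVec (k j)) := by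
  unfold KV
  rw [Matrix.mulVec_sum]
  refine Finset.sum_congr rfl fun j _ => ?_
  rw [Matrix.mulVec_mulVec, Matrix.mulVec_mulVec]
  have hc : Commute (B ^ q - 1) B := by
    apply Commute.sub_left
    · exact (Commute.refl B).pow_left q
    · exact Commute.one_left B
  rw [(hc.pow_pow D (a c (n + j.1))).eq]

theorem unip {c : ℝ} (hc0 : 0 < c) (hc1 : c < 1) {d r : ℕ} (B : Matrix (Fin d) (Fin d) ℤ)
    (hB : B.det ≠ 0) (k : Fin (r + 1) → Fin d → ℤ) (q D : ℕ) (hq : 1 ≤ q)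
    (hD : ∀ j, ((B ^ q - 1) ^ D).mulVec (k j) = 0) (hne : ∃ j, (B ^ q - 1).mulVec (k j) ≠ 0) :
    ∃ C : ℕ, ∀ N n : ℕ,
      ((Finset.Icc 1 N).filter fun m => KV c B k m = KV c B k n).card ≤ C := by
  classical
  have hex : ∃ D : ℕ, ∀ j, ((B ^ q - 1) ^ D).mulVec (k j) = 0 := ⟨D, hD⟩
  have hD0 := Nat.find_spec hex
  have hmin : ∀ m < Nat.find hex, ¬ ∀ j, ((B ^ q - 1) ^ m).mulVec (k j) = 0 :=
    fun m hm => Nat.find_min hex hm
  set D0 := Nat.find hex with hD0def
  obtain ⟨j0, hj0⟩ := hne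
  have h2 : 2 ≤ D0 := by
    by_contra hlt
    have h1 : D0 = 0 ∨ D0 = 1 := by omega
    apply hj0
    rcases h1 with h1 | h1
    · have h3 := hD0 j0
      rw [h1, pow_zero, Matrix.one_mulVec] at h3
      rw [h3, Matrix.mulVec_zero]
    · have h3 := hD0 j0
      rw [h1, pow_one] at h3
      exact h3
  obtain ⟨D', hD'⟩ : ∃ D', D0 = D' + 2 := ⟨D0 - 2, by omega⟩
  set w : Fin (r + 1) → Fin d → ℤ := fun j => ((B ^ q - 1) ^ D').mulVec (k j) with hw
  have hw2 : ∀ j, ((B ^ q - 1) ^ 2).mulVec (w j) = 0 := fun j => by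
    rw [hw]
    beta_reduce
    rw [Matrix.mulVec_mulVec, ← pow_add, show 2 + D' = D0 by omega]
    exact hD0 j
  obtain ⟨j1, hj1⟩ : ∃ j, (B ^ q - 1).mulVec (w j) ≠ 0 := by
    have h3 := hmin (D' + 1) (by omega)
    rw [not_forall] at h3
    obtain ⟨j, hj⟩ := h3
    refine ⟨j, ?_⟩
    rw [hw]
    beta_reduce
    rwa [Matrix.mulVec_mulVec, ← pow_succ']
  set z : (Fin (r + 1) → Fin q) → Fin (r + 1) → Fin d → ℤ :=
    fun s j => (B ^ (s j : ℕ)).mulVec ((B ^ q - 1).mulVec (w j)) with hz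
  -- separation
  have hsep : ∀ s : Fin (r + 1) → Fin q, ∃ n₀ : ℕ, ∀ m n : ℕ, n₀ ≤ m → m < n →
      ∑ j, (((a c (n + j.1) : ℕ) : ℤ) - ((a c (m + j.1) : ℕ) : ℤ)) • z s j ≠ 0 := by
    intro s
    have hz1 : z s j1 ≠ 0 := by
      intro h0
      apply hj1
      have hdet : (B ^ (s j1 : ℕ)).det ≠ 0 := by
        rw [Matrix.det_pow]
        exact pow_ne_zero _ hB
      exact Matrix.eq_zero_of_mulVec_eq_zero hdet h0
    obtain ⟨i, hi⟩ := Function.ne_iff.1 hz1
    have hθ : (fun j => ((z s j i : ℤ) : ℝ)) ≠ 0 := by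
      intro h0
      have h3 := congrFun h0 j1
      simp only [Pi.zero_apply, Int.cast_eq_zero] at h3
      exact hi h3
    obtain ⟨n₀, hn₀⟩ := sep hc0 hc1 _ hθ
    refine ⟨n₀, fun m n hm hmn h0 => ?_⟩
    have h3 := hn₀ m n hm hmn
    have h4 := congrFun h0 i
    rw [Finset.sum_apply, Pi.zero_apply] at h4
    have h5 : ∑ j, ((z s j i : ℤ) : ℝ) * (a c (n + j.1) : ℝ) -
        ∑ j, ((z s j i : ℤ) : ℝ) * (a c (m + j.1) : ℝ) = 0 := by
      rw [← Finset.sum_sub_distrib]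
      have h6 := congrArg (fun x : ℤ => (x : ℝ)) h4
      simp only [Pi.smul_apply, smul_eq_mul, Int.cast_sum, Int.cast_mul, Int.cast_sub,
        Int.cast_natCast, Int.cast_zero] at h6
      rw [← h6]
      refine Finset.sum_congr rfl fun j _ => ?_
      ring
    rw [h5, abs_zero] at h3
    have h7 : (m : ℝ) < n := by exact_mod_cast hmn
    linarith
  choose n₀ hn₀ using hsep
  set N0 : ℕ := Finset.univ.sup n₀ with hN0
  have hq0 : 0 < q := hq
  set res : ℕ → Fin (r + 1) → Fin q := fun m j => ⟨a c (m + j.1) % q, Nat.mod_lt _ hq0⟩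
    with hres
  have key : ∀ m n : ℕ, N0 ≤ m → m < n → KV c B k m = KV c B k n → res m ≠ res n := by
    intro m n hm hmn hK hr
    have h3 : n₀ (res n) ≤ m := (Finset.le_sup (Finset.mem_univ _)).trans hm
    apply hn₀ (res n) m n h3 hmn
    have h4 := congrArg (fun x => ((B ^ q - 1) ^ D').mulVec x) hK
    beta_reduce at h4
    rw [unip_KV, unip_KV] at h4
    have h5 : ∀ j : Fin (r + 1), a c (m + j.1) % q = a c (n + j.1) % q := fun j =>
      Fin.mk.inj_iff.1 (congrFun hr j)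
    have h6 : ∀ l : ℕ, ∑ j, (B ^ a c (l + j.1)).mulVec (w j) =
        ∑ j, (B ^ (a c (l + j.1) % q)).mulVec (w j) +
        ∑ j, ((a c (l + j.1) / q : ℕ) : ℤ) •
          (B ^ (a c (l + j.1) % q)).mulVec ((B ^ q - 1).mulVec (w j)) := by
      intro l
      rw [← Finset.sum_add_distrib]
      refine Finset.sum_congr rfl fun j _ => ?_
      exact unip_B B q (w j) (hw2 j) _
    change ∑ j, (B ^ a c (m + j.1)).mulVec (w j) = ∑ j, (B ^ a c (n + j.1)).mulVec (w j) at h4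
    rw [h6, h6] at h4
    have h7 : ∑ j, (B ^ (a c (m + j.1) % q)).mulVec (w j) =
        ∑ j, (B ^ (a c (n + j.1) % q)).mulVec (w j) :=
      Finset.sum_congr rfl fun j _ => by rw [h5 j]
    rw [h7, add_right_inj] at h4
    have h8 : ∑ j, (((a c (n + j.1) / q : ℕ) : ℤ) - ((a c (m + j.1) / q : ℕ) : ℤ)) •
        z (res n) j = 0 := by
      have h9 : ∑ j, (((a c (n + j.1) / q : ℕ) : ℤ) - ((a c (m + j.1) / q : ℕ) : ℤ)) •
          z (res n) j = ∑ j, ((a c (n + j.1) / q : ℕ) : ℤ) •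
          (B ^ (a c (n + j.1) % q)).mulVec ((B ^ q - 1).mulVec (w j)) -
          ∑ j, ((a c (m + j.1) / q : ℕ) : ℤ) •
          (B ^ (a c (m + j.1) % q)).mulVec ((B ^ q - 1).mulVec (w j)) := by
        rw [← Finset.sum_sub_distrib]
        refine Finset.sum_congr rfl fun j _ => ?_
        rw [sub_smul, h5 j]
      rw [h9, h4, sub_self]
    have h10 : ∑ j, (((a c (n + j.1) : ℕ) : ℤ) - ((a c (m + j.1) : ℕ) : ℤ)) • z (res n) j =
        (q : ℤ) • ∑ j, (((a c (n + j.1) / q : ℕ) : ℤ) - ((a c (m + j.1) / q : ℕ) : ℤ)) •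
        z (res n) j := by
      rw [Finset.smul_sum]
      refine Finset.sum_congr rfl fun j _ => ?_
      rw [smul_smul]
      congr 1
      have e1 := Nat.mod_add_div (a c (m + j.1)) q
      have e2 := Nat.mod_add_div (a c (n + j.1)) q
      have e3 := h5 j
      have e4 : ((a c (m + j.1) % q : ℕ) : ℤ) + (q : ℤ) * ((a c (m + j.1) / q : ℕ) : ℤ) =
          ((a c (m + j.1) : ℕ) : ℤ) := by exact_mod_cast e1
      have e5 : ((a c (n + j.1) % q : ℕ) : ℤ) + (q : ℤ) * ((a c (n + j.1) / q : ℕ) : ℤ) =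
          ((a c (n + j.1) : ℕ) : ℤ) := by exact_mod_cast e2
      rw [e3] at e4
      linear_combination e4 - e5
    rw [h10, h8, smul_zero]
  refine ⟨N0 + Fintype.card (Fin (r + 1) → Fin q), fun N n => ?_⟩
  rw [← Finset.card_filter_add_card_filter_not (fun m => m < N0)]
  refine Nat.add_le_add ?_ ?_
  · calc _ ≤ (Finset.range N0).card := Finset.card_le_card fun m hm => by
          rw [Finset.mem_filter] at hm
          exact Finset.mem_range.2 hm.2
      _ = N0 := Finset.card_range _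
  · rw [← Finset.card_univ]
    apply Finset.card_le_card_of_injOn res (fun _ _ => Finset.mem_coe.2 (Finset.mem_univ _))
    intro m hm m' hm' he
    rw [Finset.mem_coe, Finset.mem_filter, Finset.mem_filter, not_lt] at hm hm'
    by_contra hne'
    rcases lt_or_gt_of_ne hne' with hlt | hlt
    · exact key m m' hm.2 hlt (hm.1.2.trans hm'.1.2.symm) he
    · exact key m' m hm'.2 hlt (hm'.1.2.trans hm.1.2.symm) he.symm

end Pool.Agent.VINO
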