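import Pool.Agent.VINO.TPer
import Pool.Agent.VINO.TCnt
import Pool.Agent.VINO.TDich
import Pool.Agent.VINO.TGrow
import Pool.Agent.VINO.TUnip
import Pool.Agent.VINO.FurB

/-!
# VINO / TMain: the theorem for affine endomorphisms of tori

PROOFS.  `B = Aᵀ`, `det B = det A ≠ 0`.
`not_per`: by `dich`, either `grow` applies, or `(B^q - 1)^D k_j = 0` for all `j`; then, if `(B^q - 1) k_j = 0` for all `j`, all
`k_j` are periodic (`B^q k_j = k_j`), excluded; otherwise `unip`. So the multiplicities of `KV c B k` are bounded, and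
`mFourier_prod`, `cnt_avg` give the claim.
`torus_lim`: let `Λ x k` be the mean value `M` of `m ↦ mFourier k (T^m x)` (`per_ap`) if `Per B k`, and `0` otherwise. For almost
all `x`, for all `r` and all `k : Fin (r+1) → Fin d → ℤ` (countably many): the averages of
`∏_j mFourier (k j) (T^(a(n+j)) x)` tend to `∏_j Λ x (k j)`: by `ap_avg` if all `k j` are periodic (all `x`), by `not_per`
otherwise (the product of the `Λ` contains a factor `0`). `ptw` with `V = range mFourier`, whose span is dense
(`UnitAddTorus.span_mFourier_closure_eq_top`); `mFourier` is injective (or choose a preimage).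
`torus_main`: `furC`.
-/

set_option autoImplicit false

namespace Pool.Agent.VINO

open MeasureTheory Filter Topology UnitAddTorus

theorem not_per {c : ℝ} (hc0 : 0 < c) (hc1 : c < 1) {d r : ℕ} (A : Matrix (Fin d) (Fin d) ℤ)
    (hA : A.det ≠ 0) (b : UnitAddTorus (Fin d)) (k : Fin (r + 1) → Fin d → ℤ)
    (hk : ¬ ∀ j, Per A.transpose (k j)) :
    ∀ᵐ x ∂(hT d), Tendsto (fun N => av N fun n =>
      ∏ j, mFourier (k j) ((TT A b)^[a c (n + j.1)] x)) atTop (𝓝 0) := by
  have hB : A.transpose.det ≠ 0 := by rwa [Matrix.det_transpose]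
  have hC : ∃ C : ℕ, ∀ N n : ℕ, ((Finset.Icc 1 N).filter fun m =>
      KV c A.transpose k m = KV c A.transpose k n).card ≤ C := by
    rcases dich A.transpose hB k with ⟨l, R, hl, hne, heig⟩ | ⟨q, D, hq, hD⟩
    · exact grow hc0 hc1 A.transpose k l R hl hne heig
    · by_cases hne : ∃ j, (A.transpose ^ q - 1).mulVec (k j) ≠ 0
      · exact unip hc0 hc1 A.transpose hB k q D hq hD hne
      · exfalso
        push Not at hne
        apply hk
        intro j
        refine ⟨q, hq, ?_⟩
        have h1 := hne j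
        rw [Matrix.sub_mulVec, Matrix.one_mulVec, sub_eq_zero] at h1
        exact h1
  obtain ⟨C, hC⟩ := hC
  choose z hz1 hz2 using fun n => mFourier_prod c A b k n
  filter_upwards [cnt_avg (KV c A.transpose k) C hC z (fun n => (hz1 n).le)] with x hx
  have h1 : (fun N => av N fun n => ∏ j, mFourier (k j) ((TT A b)^[a c (n + j.1)] x)) =
      fun N => av N fun n => z n * mFourier (KV c A.transpose k n) x := by
    funext N
    congr 1
    funext n
    exact hz2 n x
  rw [h1]
  exact hx

theorem torus_lim {c : ℝ} (hc0 : 0 < c) (hc1 : c < 1 / 2) {d : ℕ}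
    (A : Matrix (Fin d) (Fin d) ℤ) (hA : A.det ≠ 0) (b : UnitAddTorus (Fin d)) :
    ∀ᵐ x ∂(hT d), ProdLim fun n => (TT A b)^[a c n] x := by
  classical
  have h1 : ∀ᵐ x ∂(hT d), ∀ (r : ℕ) (k : Fin (r + 1) → Fin d → ℤ),
      (¬ ∀ j, Per A.transpose (k j)) → Tendsto (fun N => av N fun n =>
        ∏ j, mFourier (k j) ((TT A b)^[a c (n + j.1)] x)) atTop (𝓝 0) := by
    rw [ae_all_iff]
    intro r
    rw [ae_all_iff]
    intro k
    by_cases hk : ∀ j, Per A.transpose (k j)
    · exact Filter.Eventually.of_forall fun x h => absurd hk h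
    · filter_upwards [not_per hc0 (by linarith) A hA b k hk] with x hx _ using hx
  filter_upwards [h1] with x hx
  -- the mean values
  obtain ⟨L, hL1, hL2⟩ : ∃ L : (Fin d → ℤ) → ℂ,
      (∀ k, Per A.transpose k → IsAP (fun m => mFourier k ((TT A b)^[m] x)) (L k)) ∧
      ∀ k, ¬ Per A.transpose k → L k = 0 := by
    refine ⟨fun k => if h : Per A.transpose k then Classical.choose (per_ap A b x k h) else 0,
      ?_, ?_⟩
    · intro k hk
      simp only [dif_pos hk]
      exact Classical.choose_spec (per_ap A b x k hk)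
    · intro k hk
      simp only [dif_neg hk]
  -- the choice of the frequency
  obtain ⟨kk, hkk⟩ : ∃ kk : C(UnitAddTorus (Fin d), ℂ) → (Fin d → ℤ),
      ∀ f ∈ Set.range (mFourier (d := Fin d)), mFourier (kk f) = f := by
    refine ⟨fun f => if h : ∃ k, mFourier (d := Fin d) k = f then Classical.choose h else 0, ?_⟩
    intro f hf
    have hf' : ∃ k, mFourier (d := Fin d) k = f := hf
    simp only [dif_pos hf']
    exact Classical.choose_spec hf'
  refine ptw (fun n => (TT A b)^[a c n] x) (Set.range (mFourier (d := Fin d))) ?_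
    (fun f => L (kk f)) ?_
  · intro f
    rw [← Submodule.topologicalClosure_coe, span_mFourier_closure_eq_top]
    exact Submodule.mem_top
  · intro r φ hφ
    have e1 : (fun N => av N fun n => ∏ j, φ j ((fun n => (TT A b)^[a c n] x) (n + j.1))) =
        fun N => av N fun n => ∏ j, mFourier (kk (φ j)) ((TT A b)^[a c (n + j.1)] x) := by
      funext N
      congr 1
      funext n
      refine Finset.prod_congr rfl fun j _ => ?_
      rw [hkk (φ j) (hφ j)]
    rw [e1]
    by_cases hk : ∀ j, Per A.transpose (kk (φ j))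
    · exact ap_avg hc0 hc1 (fun j m => mFourier (kk (φ j)) ((TT A b)^[m] x))
        (fun j => L (kk (φ j))) fun j => hL1 _ (hk j)
    · have h2 := hx r (fun j => kk (φ j)) hk
      push Not at hk
      obtain ⟨j, hj⟩ := hk
      have e2 : ∏ j, L (kk (φ j)) = 0 := Finset.prod_eq_zero (Finset.mem_univ j) (hL2 _ hj)
      rw [e2]
      exact h2

theorem torus_main {c : ℝ} (hc0 : 0 < c) (hc1 : c < 1 / 2) {d : ℕ}
    (A : Matrix (Fin d) (Fin d) ℤ) (hA : A.det ≠ 0) (b : UnitAddTorus (Fin d))
    (f : C(UnitAddTorus (Fin d), ℂ)) :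
    ∀ᵐ x ∂(hT d), HasBernoulliFS fun n => f ((TT A b)^[a c n] x) := by
  filter_upwards [torus_lim hc0 hc1 A hA b] with x hx
  exact furC _ hx f

end Pool.Agent.VINO
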