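import Pool.Agent.VINO.TChr

/-!
# VINO / TMea: affine maps with `det A ≠ 0` preserve the Haar measure

PROOFS.  `TT_meas`: `x ↦ A x` is a surjective (`det A ≠ 0`: the torus is divisible; or compute with characters)
continuous endomorphism of a compact group and the translation preserves the Haar measure. Possible route: the image
of `hT d` under `TT A b` is a probability measure; it is `hT d` because the integrals of all the characters `mFourier k`
coincide (`mFourier_TT`, `int_mFourier`; `Aᵀ k = 0` only for `k = 0`), the span of the characters is dense
(`UnitAddTorus.span_mFourier_closure_eq_top`) and finite measures on a compact metric space are determined by the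
integrals of continuous functions (`MeasureTheory.ext_of_forall_integral_eq_of_IsFiniteMeasure`). Or:
`MonoidHom`/`AddMonoidHom.measurePreserving` for surjective continuous homomorphisms of compact groups.
-/

set_option autoImplicit false

namespace Pool.Agent.VINO

open MeasureTheory Filter Topology UnitAddTorus

/-- Continuous functions on a compact space are integrable for probability measures. -/
theorem integrable_contMap {X : Type*} [TopologicalSpace X] [CompactSpace X] [MeasurableSpace X]
    [OpensMeasurableSpace X] (ρ : Measure X) [IsProbabilityMeasure ρ] (f : C(X, ℂ)) :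
    Integrable (fun x => f x) ρ :=
  (BoundedContinuousFunction.mkOfCompact f).integrable ρ

/-- The integral is continuous on the continuous functions. -/
theorem continuous_int {X : Type*} [TopologicalSpace X] [CompactSpace X] [MeasurableSpace X]
    [OpensMeasurableSpace X] (ρ : Measure X) [IsProbabilityMeasure ρ] :
    Continuous fun f : C(X, ℂ) => ∫ x, f x ∂ρ := by
  refine (LipschitzWith.of_dist_le_mul (K := 1) fun f g => ?_).continuous
  rw [dist_eq_norm, dist_eq_norm, NNReal.coe_one, one_mul,
    ← integral_sub (integrable_contMap ρ f) (integrable_contMap ρ g)]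
  have h := norm_integral_le_of_norm_le_const (μ := ρ) (f := fun x => f x - g x)
    (C := ‖f - g‖) (Eventually.of_forall fun x => by
      simpa using ContinuousMap.norm_coe_le_norm (f - g) x)
  simpa using h

theorem continuous_TT {d : ℕ} (A : Matrix (Fin d) (Fin d) ℤ) (b : UnitAddTorus (Fin d)) :
    Continuous (TT A b) := by
  unfold TT
  refine continuous_pi fun i => ?_
  refine Continuous.add ?_ continuous_const
  exact continuous_finsetSum _ fun j _ => (continuous_apply j).zsmul _

theorem TT_meas {d : ℕ} (A : Matrix (Fin d) (Fin d) ℤ) (hA : A.det ≠ 0)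
    (b : UnitAddTorus (Fin d)) : MeasurePreserving (TT A b) (hT d) (hT d) := by
  have hc := continuous_TT A b
  refine ⟨hc.measurable, ?_⟩
  haveI : IsProbabilityMeasure ((hT d).map (TT A b)) :=
    Measure.isProbabilityMeasure_map hc.aemeasurable
  -- characters
  have hchar : ∀ k : Fin d → ℤ,
      ∫ x, mFourier k x ∂((hT d).map (TT A b)) = ∫ x, mFourier k x ∂(hT d) := by
    intro k
    rw [integral_map hc.aemeasurable (mFourier k).continuous.aestronglyMeasurable]
    simp only [mFourier_TT]
    rw [integral_const_mul, int_mFourier, int_mFourier]
    by_cases hk : k = 0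
    · subst hk
      simp [mFourier_zero]
    · have h1 : A.transpose.mulVec k ≠ 0 := by
        intro h
        exact hk (Matrix.eq_zero_of_mulVec_eq_zero (by rwa [Matrix.det_transpose]) h)
      rw [if_neg hk, if_neg h1, mul_zero]
  -- all continuous functions
  have hall : ∀ f : C(UnitAddTorus (Fin d), ℂ),
      ∫ x, f x ∂((hT d).map (TT A b)) = ∫ x, f x ∂(hT d) := by
    have hclosed : IsClosed {f : C(UnitAddTorus (Fin d), ℂ) |
        ∫ x, f x ∂((hT d).map (TT A b)) = ∫ x, f x ∂(hT d)} :=
      isClosed_eq (continuous_int _) (continuous_int _)
    have hspan : (Submodule.span ℂ (Set.range (mFourier (d := Fin d))) :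
        Set C(UnitAddTorus (Fin d), ℂ)) ⊆ {f : C(UnitAddTorus (Fin d), ℂ) |
        ∫ x, f x ∂((hT d).map (TT A b)) = ∫ x, f x ∂(hT d)} := by
      intro f hf
      refine Submodule.span_induction (p := fun f _ =>
        ∫ x, f x ∂((hT d).map (TT A b)) = ∫ x, f x ∂(hT d)) ?_ ?_ ?_ ?_ hf
      · rintro _ ⟨k, rfl⟩
        exact hchar k
      · simp
      · intro f g _ _ hf hg
        simp only [ContinuousMap.add_apply]
        rw [integral_add (integrable_contMap _ f) (integrable_contMap _ g),
          integral_add (integrable_contMap _ f) (integrable_contMap _ g), hf, hg]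
      · intro z f _ hf
        simp only [ContinuousMap.smul_apply, smul_eq_mul]
        rw [integral_const_mul, integral_const_mul, hf]
    intro f
    have h1 : f ∈ (Submodule.span ℂ (Set.range (mFourier (d := Fin d)))).topologicalClosure := by
      rw [span_mFourier_closure_eq_top]; trivial
    exact closure_minimal hspan hclosed h1
  refine ext_of_forall_integral_eq_of_IsFiniteMeasure fun f => ?_
  set F : C(UnitAddTorus (Fin d), ℂ) :=
    ⟨fun x => ((f x : ℝ) : ℂ), Complex.continuous_ofReal.comp f.continuous⟩ with hF
  have h := hall F
  have h1 : ∀ ρ : Measure (UnitAddTorus (Fin d)), ∫ x, F x ∂ρ = ((∫ x, f x ∂ρ : ℝ) : ℂ) := by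
    intro ρ
    exact integral_ofReal
  rw [h1, h1] at h
  exact_mod_cast h

end Pool.Agent.VINO
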