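import Pool.Agent.VINO.EMain
import Pool.Agent.VINO.EFin
import Pool.Agent.VINO.TMain
import Pool.Agent.VINO.TMea

/-!
# VINO / ETor: affine maps of tori, bounded measurable functions

PROOF.  `T = TT A b` preserves `hT d` (`TT_meas`). `torus_lim`: for almost all `x` `ProdLim (n ↦ T^[a c n] x)`, which gives `Prd` for all
tuples of continuous functions (`l j = Λ (f j)`, the case `r = 0` for the single functions). `ext_main` with `V` = the continuous
functions, `W` = the bounded measurable ones (density in `L²`: finite measures on metrizable spaces are weakly regular,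
`MeasureTheory.MemLp.exists_boundedContinuous_eLpNorm_sub_le`). `fs_of_prd` (`mono p ∘ f` is bounded and measurable).
-/

set_option autoImplicit false

namespace Pool.Agent.VINO

open MeasureTheory Filter Topology

/-- continuous functions are dense in the square integrable functions -/
private theorem dense_sq {Y : Type*} [TopologicalSpace Y] [CompactSpace Y] [NormalSpace Y]
    [MeasurableSpace Y] [BorelSpace Y] (μ : Measure Y) [IsProbabilityMeasure μ]
    [μ.WeaklyRegular] (f : Y → ℂ) (hf : Bdd f) (ε : ℝ) (hε : 0 < ε) :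
    ∃ h : C(Y, ℂ), ∫ x, ‖f x - h x‖ ^ 2 ∂μ ≤ ε := by
  obtain ⟨hm, M, hM⟩ := hf
  have h1 : MemLp f (ENNReal.ofReal 2) μ :=
    MemLp.of_bound hm.aestronglyMeasurable M (Filter.Eventually.of_forall hM)
  obtain ⟨g, hg, _⟩ := h1.exists_boundedContinuous_integral_rpow_sub_le (by norm_num) hε
  refine ⟨g.toContinuousMap, ?_⟩
  refine le_trans (le_of_eq ?_) hg
  refine integral_congr_ae (Filter.Eventually.of_forall (fun x => ?_))
  show ‖f x - g x‖ ^ 2 = ‖f x - g x‖ ^ (2 : ℝ)
  rw [Real.rpow_two]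

/-- the product formula for all tuples of bounded measurable functions on the torus -/
theorem torus_prd {c : ℝ} (hc0 : 0 < c) (hc1 : c < 1 / 2) {d : ℕ}
    (A : Matrix (Fin d) (Fin d) ℤ) (hA : A.det ≠ 0) (b : UnitAddTorus (Fin d)) (r : ℕ)
    (f : Fin (r + 1) → UnitAddTorus (Fin d) → ℂ) (hf : ∀ j, Bdd (f j)) :
    Prd c (hT d) (TT A b) f := by
  refine ext_main hc0 hc1 (hT d) (TT A b) (TT_meas A hA b)
    {h | ∃ φ : C(UnitAddTorus (Fin d), ℂ), h = fun x => φ x} {h | Bdd h}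
    ⟨fun x => (0 : C(UnitAddTorus (Fin d), ℂ)) x, 0, rfl⟩ ?_ (fun f hf => hf) ?_ ?_ r f hf
  · rintro _ ⟨φ, rfl⟩
    exact ⟨φ.continuous.measurable, ‖φ‖, fun x => φ.norm_coe_le_norm x⟩
  · intro f hf ε hε
    obtain ⟨h, hh⟩ := dense_sq (hT d) f hf ε hε
    exact ⟨fun x => h x, Submodule.subset_span ⟨h, rfl⟩, hh⟩
  · intro r f hf
    choose φ hφ using hf
    have h2 : f = fun j x => φ j x := funext hφ
    rw [h2]
    filter_upwards [torus_lim hc0 hc1 A hA b] with x hx
    obtain ⟨Λ, hΛ⟩ := hx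
    refine ⟨fun j => Λ (φ j), fun j => ?_, hΛ r φ⟩
    have h3 := hΛ 0 (fun _ => φ j)
    simpa using h3

theorem torus_bdd {c : ℝ} (hc0 : 0 < c) (hc1 : c < 1 / 2) {d : ℕ}
    (A : Matrix (Fin d) (Fin d) ℤ) (hA : A.det ≠ 0) (b : UnitAddTorus (Fin d))
    (f : UnitAddTorus (Fin d) → ℂ) (hf : Bdd f) :
    ∀ᵐ x ∂(hT d), HasBernoulliFS fun n => f ((TT A b)^[a c n] x) := by
  refine fs_of_prd (hT d) (TT A b) f hf (fun r p => ?_)
  refine torus_prd hc0 hc1 A hA b r _ (fun j => ?_)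
  obtain ⟨hm, M, hM⟩ := hf
  refine ⟨(mono (p j)).continuous.measurable.comp hm, |M| ^ (p j).1 * |M| ^ (p j).2, fun x => ?_⟩
  have h1 : ‖f x‖ ≤ |M| := (hM x).trans (le_abs_self M)
  show ‖f x ^ (p j).1 * (starRingEnd ℂ (f x)) ^ (p j).2‖ ≤ _
  rw [norm_mul, norm_pow, norm_pow, RCLike.norm_conj]
  gcongr

end Pool.Agent.VINO
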