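import Pool.Agent.VMV.BilA

/-!
# VINO / Fej: approximation of Lipschitz periodic functions by Fejér means

PROOF.  Fejér kernel `F(s) = ∑_{|k| < K} (1 - |k|/K) e(k s) = (1/K) |∑_{j<K} e(j s)|^2 ≥ 0`, `∫_0^1 F = 1`, and for
`0 < |s| ≤ 1/2`: `F(s) ≤ 1 / (K sin^2 (π s)) ≤ 1 / (4 K s^2)`. `c k = (1 - |k|/K) ∫_0^1 φ(t) e(-k t) dt` for `|k| < K`, `0` otherwise;
`∑ c k e(k t) = ∫_{-1/2}^{1/2} φ(t - s) F(s) ds`. So the error is at most `Λ ∫_{-1/2}^{1/2} |s| F(s) ds ≤
Λ (η + ∫_{η<|s|≤1/2} ds / (4 K |s|)) = Λ (η + (1/(2K)) log (1/(2η)))`; `η = 1/(2√K)`: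
`≤ Λ (1/(2√K) + (1/(4K)) log K) ≤ 2 Λ/√K` (`log K ≤ 2√K..`). (Or by Cauchy-Schwarz
`∫ |s| F ≤ (∫ s^2 F)^(1/2)`, `∫_{-1/2}^{1/2} s^2 F ≤ ∫ 1/(4K) = 1/(4K)`: this is simpler and gives the bound `Λ / (2 √K)`.)
-/

set_option autoImplicit false

namespace Pool.Agent.VINO

open Pool.Agent.VMV

private lemma fe_cont : Continuous e := by
  unfold e
  fun_prop

private lemma fe_int_one (n : ℤ) : e n = 1 := by
  unfold e
  rw [Complex.exp_eq_one_iff]
  exact ⟨n, by push_cast; ring⟩

private lemma fe_per (n : ℤ) (t : ℝ) : e (n * (t + 1)) = e (n * t) := by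
  rw [mul_add, mul_one, e_add, fe_int_one, mul_one]

private lemma fe_int (n : ℤ) : ∫ s in (0 : ℝ)..1, e (n * s) = if n = 0 then 1 else 0 := by
  split_ifs with h
  · subst h
    simp [e]
  · have hc : (2 * (Real.pi : ℂ) * Complex.I * n) ≠ 0 := by
      refine mul_ne_zero (mul_ne_zero (mul_ne_zero two_ne_zero ?_) Complex.I_ne_zero) ?_
      · exact_mod_cast Real.pi_ne_zero
      · exact_mod_cast h
    have h1 : ∀ s : ℝ, e (n * s) = Complex.exp ((2 * (Real.pi : ℂ) * Complex.I * n) * s) := by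
      intro s
      unfold e
      congr 1
      push_cast
      ring
    simp_rw [h1]
    rw [integral_exp_mul_complex hc]
    have h2 : Complex.exp ((2 * (Real.pi : ℂ) * Complex.I * n) * (1 : ℝ)) = 1 := by
      have := fe_int_one n
      unfold e at this
      push_cast at this ⊢
      rw [mul_one]
      exact this
    rw [h2]
    simp

/-- the Dirichlet kernel -/
private noncomputable def feD (K : ℕ) (s : ℝ) : ℂ := ∑ j ∈ Finset.range K, e (j * s)

private lemma feD_cont (K : ℕ) : Continuous (feD K) := by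
  unfold feD
  refine continuous_finsetSum _ fun j _ => ?_
  exact fe_cont.comp (continuous_const.mul continuous_id)

private lemma feD_per (K : ℕ) (s : ℝ) : feD K (s + 1) = feD K s := by
  unfold feD
  refine Finset.sum_congr rfl fun j _ => ?_
  have := fe_per (j : ℤ) s
  push_cast at this
  exact this

private lemma feD_sq (K : ℕ) (s : ℝ) : ((‖feD K s‖ ^ 2 : ℝ) : ℂ) =
    ∑ p ∈ Finset.range K ×ˢ Finset.range K, e ((((p.1 : ℤ) - p.2 : ℤ) : ℝ) * s) := by
  rw [← Complex.normSq_eq_norm_sq, ← Complex.mul_conj]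
  unfold feD
  rw [map_sum, Finset.sum_mul_sum, Finset.sum_product]
  refine Finset.sum_congr rfl fun j _ => Finset.sum_congr rfl fun l _ => ?_
  rw [conj_e, ← e_add]
  congr 1
  push_cast
  ring

private lemma fe_card_diag (K : ℕ) : ∑ p ∈ Finset.range K ×ˢ Finset.range K,
    (if ((p.1 : ℤ) - p.2 : ℤ) = 0 then (1 : ℂ) else 0) = K := by
  rw [Finset.sum_product]
  have : ∀ j ∈ Finset.range K, ∑ l ∈ Finset.range K,
      (if ((j : ℤ) - l : ℤ) = 0 then (1 : ℂ) else 0) = 1 := by
    intro j hj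
    rw [Finset.sum_eq_single_of_mem j hj]
    · simp
    · intro l _ hl
      rw [if_neg]
      omega
  rw [Finset.sum_congr rfl this]
  simp

private lemma feD_int (K : ℕ) : ∫ s in (0 : ℝ)..1, ‖feD K s‖ ^ 2 = K := by
  have h : ((∫ s in (0 : ℝ)..1, ‖feD K s‖ ^ 2 : ℝ) : ℂ) = K := by
    rw [← intervalIntegral.integral_ofReal]
    simp_rw [feD_sq]
    rw [intervalIntegral.integral_finsetSum]
    · simp_rw [fe_int]
      exact fe_card_diag K
    · intro p _
      exact (fe_cont.comp (continuous_const.mul continuous_id)).intervalIntegrable _ _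
  exact_mod_cast h

private lemma feD_bound (K : ℕ) (s : ℝ) (hs : |s| ≤ 1 / 2) : s ^ 2 * ‖feD K s‖ ^ 2 ≤ 1 / 4 := by
  have h1 : feD K s * (e s - 1) = e (K * s) - 1 := by
    have h2 : ∀ n : ℕ, e (n * s) = (e s) ^ n := by
      intro n
      induction n with
      | zero => simp [e]
      | succ n ih =>
        rw [pow_succ, ← ih, ← e_add]
        congr 1
        push_cast
        ring
    unfold feD
    simp_rw [h2]
    exact geom_sum_mul (e s) K
  have h3 : ‖e (K * s) - 1‖ ≤ 2 := by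
    calc ‖e (K * s) - 1‖ ≤ ‖e (K * s)‖ + ‖(1 : ℂ)‖ := norm_sub_le _ _
      _ = 2 := by rw [norm_e, norm_one]; norm_num
  have h4 : 4 * |s| ≤ ‖e s - 1‖ := by
    have h5 : e s = Complex.exp (Complex.I * ((2 * Real.pi * s : ℝ) : ℂ)) := by
      unfold e
      congr 1
      push_cast
      ring
    rw [h5, Complex.norm_exp_I_mul_ofReal_sub_one, Real.norm_eq_abs, abs_mul,
      show 2 * Real.pi * s / 2 = Real.pi * s by ring]
    have h6 : |Real.pi * s| ≤ Real.pi / 2 := by
      rw [abs_mul, abs_of_pos Real.pi_pos]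
      nlinarith [Real.pi_pos]
    have h7 := Real.mul_abs_le_abs_sin h6
    rw [abs_mul, abs_of_pos Real.pi_pos] at h7
    have h8 : 2 / Real.pi * (Real.pi * |s|) = 2 * |s| := by
      field_simp
    rw [h8] at h7
    rw [abs_two]
    linarith
  have h9 : 4 * |s| * ‖feD K s‖ ≤ 2 := by
    calc 4 * |s| * ‖feD K s‖ ≤ ‖e s - 1‖ * ‖feD K s‖ :=
          mul_le_mul_of_nonneg_right h4 (norm_nonneg _)
      _ = ‖e (K * s) - 1‖ := by rw [← h1, norm_mul, mul_comm]
      _ ≤ 2 := h3
  have h10 : |s| * ‖feD K s‖ ≤ 1 / 2 := by linarith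
  have h11 : 0 ≤ |s| * ‖feD K s‖ := by positivity
  calc s ^ 2 * ‖feD K s‖ ^ 2 = (|s| * ‖feD K s‖) ^ 2 := by rw [mul_pow, sq_abs]
    _ ≤ (1 / 2) ^ 2 := pow_le_pow_left₀ h11 h10 2
    _ = 1 / 4 := by norm_num

theorem fejer (φ : ℝ → ℂ) (hper : ∀ t, φ (t + 1) = φ t) (hb : ∀ t, ‖φ t‖ ≤ 1) (Λ : ℝ)
    (hL : ∀ s t, ‖φ s - φ t‖ ≤ Λ * |s - t|) (K : ℕ) (hK : 1 ≤ K) :
    ∃ cc : ℤ → ℂ, (∀ k, ‖cc k‖ ≤ 1) ∧ cc 0 = ∫ t in (0 : ℝ)..1, φ t ∧
      ∀ t, ‖φ t - ∑ k ∈ Finset.Icc (-(K : ℤ)) K, cc k * e (k * t)‖ ≤ 2 * Λ / Real.sqrt K := by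
  have hΛ : 0 ≤ Λ := by
    have := (norm_nonneg _).trans (hL 0 1)
    simpa using this
  have hφc : Continuous φ := by
    have : LipschitzWith ⟨Λ, hΛ⟩ φ := by
      refine LipschitzWith.of_dist_le_mul fun s t => ?_
      rw [dist_eq_norm, Real.dist_eq]
      exact hL s t
    exact this.continuous
  have hK0 : (0 : ℝ) < K := by exact_mod_cast hK
  have hKC : (K : ℂ) ≠ 0 := by exact_mod_cast hK0.ne'
  set hat : ℤ → ℂ := fun k => ∫ u in (0 : ℝ)..1, φ u * e (-(k * u)) with hhat
  set S : Finset (ℕ × ℕ) := Finset.range K ×ˢ Finset.range K with hS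
  set fib : ℤ → Finset (ℕ × ℕ) := fun k => S.filter (fun p => ((p.1 : ℤ) - p.2 : ℤ) = k) with hfib
  have hec : ∀ k : ℤ, Continuous fun u : ℝ => φ u * e (-(k * u)) := fun k =>
    hφc.mul (fe_cont.comp (continuous_const.mul continuous_id).neg)
  have hhat1 : ∀ k, ‖hat k‖ ≤ 1 := by
    intro k
    have := intervalIntegral.norm_integral_le_of_norm_le_const (a := (0 : ℝ)) (b := 1) (C := 1)
      (f := fun u => φ u * e (-(k * u))) (fun u _ => by
        rw [norm_mul, norm_e, mul_one]; exact hb u)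
    simpa using this
  have hcard : ∀ k, ((fib k).card : ℝ) ≤ K := by
    intro k
    have : (fib k).card ≤ (Finset.range K).card := by
      refine Finset.card_le_card_of_injOn Prod.fst ?_ ?_
      · intro p hp
        simp only [hfib, hS, Finset.coe_filter, Finset.mem_product, Set.mem_ofPred_eq] at hp
        exact hp.1.1
      · intro p hp q hq h
        simp only [hfib, hS, Finset.coe_filter, Finset.mem_product, Set.mem_ofPred_eq] at hp hq
        apply Prod.ext h
        have h1 := hp.2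
        have h2 := hq.2
        omega
    rw [Finset.card_range] at this
    exact_mod_cast this
  refine ⟨fun k => ((fib k).card : ℂ) / K * hat k, ?_, ?_, ?_⟩
  · intro k
    rw [norm_mul, norm_div, Complex.norm_natCast, Complex.norm_natCast]
    have h1 : ((fib k).card : ℝ) / K ≤ 1 := (div_le_one hK0).2 (hcard k)
    have h2 : 0 ≤ ((fib k).card : ℝ) / K := by positivity
    calc ((fib k).card : ℝ) / K * ‖hat k‖ ≤ 1 * 1 :=
          mul_le_mul h1 (hhat1 k) (norm_nonneg _) zero_le_one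
      _ = 1 := one_mul 1
  · have h0 : ((fib 0).card : ℂ) = K := by
      rw [← fe_card_diag K, Finset.sum_ite, Finset.sum_const_zero, add_zero, Finset.sum_const,
        nsmul_eq_mul, mul_one]
    beta_reduce
    rw [h0, div_self hKC, one_mul, hhat]
    simp [e]
  · intro t
    -- the sum as an integral
    have hsum : ∑ k ∈ Finset.Icc (-(K : ℤ)) K, ((fib k).card : ℂ) / K * hat k * e (k * t) =
        ∫ u in (0 : ℝ)..1, φ u * ((‖feD K (t - u)‖ ^ 2 / K : ℝ) : ℂ) := by
      have h1 : ∀ u : ℝ, φ u * ((‖feD K (t - u)‖ ^ 2 / K : ℝ) : ℂ) =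
          ∑ p ∈ S, (1 / (K : ℂ)) * e ((((p.1 : ℤ) - p.2 : ℤ) : ℝ) * t) *
            (φ u * e (-((((p.1 : ℤ) - p.2 : ℤ) : ℝ) * u))) := by
        intro u
        rw [Complex.ofReal_div, feD_sq, Complex.ofReal_natCast, Finset.sum_div, Finset.mul_sum]
        refine Finset.sum_congr rfl fun p _ => ?_
        rw [mul_sub, sub_eq_add_neg, e_add]
        ring
      simp_rw [h1]
      rw [intervalIntegral.integral_finsetSum]
      · simp_rw [intervalIntegral.integral_const_mul]
        have h2 : ∀ p ∈ S, ((p.1 : ℤ) - p.2 : ℤ) ∈ Finset.Icc (-(K : ℤ)) K := by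
          intro p hp
          rw [hS, Finset.mem_product, Finset.mem_range, Finset.mem_range] at hp
          rw [Finset.mem_Icc]
          omega
        rw [← Finset.sum_fiberwise_of_maps_to h2]
        refine Finset.sum_congr rfl fun k _ => ?_
        have h3 : ∀ p ∈ S.filter (fun p => ((p.1 : ℤ) - p.2 : ℤ) = k),
            (1 / (K : ℂ)) * e ((((p.1 : ℤ) - p.2 : ℤ) : ℝ) * t) *
              (∫ u in (0 : ℝ)..1, φ u * e (-((((p.1 : ℤ) - p.2 : ℤ) : ℝ) * u))) =
            (1 / (K : ℂ)) * e (k * t) * hat k := by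
          intro p hp
          rw [Finset.mem_filter] at hp
          rw [hp.2]
        rw [Finset.sum_congr rfl h3, Finset.sum_const, nsmul_eq_mul]
        ring
      · intro p _
        exact ((hec _).const_mul _).intervalIntegrable _ _
    rw [hsum]
    set G : ℝ → ℂ := fun u => (φ t - φ u) * ((‖feD K (t - u)‖ ^ 2 / K : ℝ) : ℂ) with hG
    have hDc : Continuous fun u : ℝ => ‖feD K (t - u)‖ ^ 2 :=
      ((feD_cont K).comp (continuous_const.sub continuous_id)).norm.pow 2
    have hDper : ∀ u : ℝ, ‖feD K (t - (u + 1))‖ ^ 2 = ‖feD K (t - u)‖ ^ 2 := by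
      intro u
      rw [← feD_per K (t - (u + 1))]
      congr 3
      ring
    have hDint : ∀ a : ℝ, ∫ u in a..(a + 1), ‖feD K (t - u)‖ ^ 2 = K := by
      intro a
      have hp : Function.Periodic (fun u : ℝ => ‖feD K (t - u)‖ ^ 2) 1 := hDper
      rw [hp.intervalIntegral_add_eq a (t - 1)]
      have h1 : ∫ u in (t - 1)..(t - 1 + 1), ‖feD K (t - u)‖ ^ 2 =
          ∫ x in (t - (t - 1 + 1))..(t - (t - 1)), ‖feD K x‖ ^ 2 :=
        intervalIntegral.integral_comp_sub_left (fun x => ‖feD K x‖ ^ 2) t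
      rw [h1, show t - (t - 1 + 1) = 0 by ring, show t - (t - 1) = 1 by ring, feD_int]
    have hdiff : φ t - ∫ u in (0 : ℝ)..1, φ u * ((‖feD K (t - u)‖ ^ 2 / K : ℝ) : ℂ) =
        ∫ u in (0 : ℝ)..1, G u := by
      have h1 : φ t = ∫ u in (0 : ℝ)..1, φ t * ((‖feD K (t - u)‖ ^ 2 / K : ℝ) : ℂ) := by
        rw [intervalIntegral.integral_const_mul, intervalIntegral.integral_ofReal,
          intervalIntegral.integral_div]
        have := hDint 0
        rw [zero_add] at this
        rw [this, div_self hK0.ne', Complex.ofReal_one, mul_one]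
      conv_lhs => rw [h1]
      rw [← intervalIntegral.integral_sub]
      · refine intervalIntegral.integral_congr fun u _ => ?_
        simp only [hG]
        ring
      · exact (continuous_const.mul (Complex.continuous_ofReal.comp
          (hDc.div_const _))).intervalIntegrable _ _
      · exact (hφc.mul (Complex.continuous_ofReal.comp
          (hDc.div_const _))).intervalIntegrable _ _
    rw [hdiff]
    have hGper : Function.Periodic G 1 := by
      intro u
      simp only [hG]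
      rw [hper, hDper]
    have hshift := hGper.intervalIntegral_add_eq 0 (t - 1 / 2)
    rw [zero_add] at hshift
    rw [hshift]
    have hsK : 0 < Real.sqrt K := Real.sqrt_pos.2 hK0
    have hsK2 : Real.sqrt K * Real.sqrt K = K := Real.mul_self_sqrt hK0.le
    -- pointwise bound
    have hpt : ∀ u ∈ Set.Ioc (t - 1 / 2) (t - 1 / 2 + 1), ‖G u‖ ≤
        Λ * (1 / (8 * Real.sqrt K) + ‖feD K (t - u)‖ ^ 2 / (2 * K * Real.sqrt K)) := by
      intro u hu
      have hs : |t - u| ≤ 1 / 2 := by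
        rw [abs_le]
        constructor <;> linarith [hu.1, hu.2]
      have hb2 := feD_bound K (t - u) hs
      have hn : ‖G u‖ = ‖φ t - φ u‖ * (‖feD K (t - u)‖ ^ 2 / K) := by
        simp only [hG]
        rw [norm_mul, Complex.norm_real, Real.norm_eq_abs, abs_of_nonneg (by positivity)]
      rw [hn]
      have h1 : ‖φ t - φ u‖ * (‖feD K (t - u)‖ ^ 2 / K) ≤
          Λ * |t - u| * (‖feD K (t - u)‖ ^ 2 / K) :=
        mul_le_mul_of_nonneg_right (hL t u) (by positivity)
      refine h1.trans ?_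
      rw [mul_assoc]
      refine mul_le_mul_of_nonneg_left ?_ hΛ
      have h2 : |t - u| ≤ (Real.sqrt K * (t - u) ^ 2 + 1 / Real.sqrt K) / 2 := by
        have h3 : 0 ≤ (Real.sqrt K * |t - u| - 1) ^ 2 / Real.sqrt K := by positivity
        have h4 : (Real.sqrt K * |t - u| - 1) ^ 2 / Real.sqrt K =
            Real.sqrt K * (t - u) ^ 2 + 1 / Real.sqrt K - 2 * |t - u| := by
          rw [← sq_abs (t - u)]
          field_simp
          ring
        rw [h4] at h3
        linarith
      calc |t - u| * (‖feD K (t - u)‖ ^ 2 / K) ≤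
            (Real.sqrt K * (t - u) ^ 2 + 1 / Real.sqrt K) / 2 * (‖feD K (t - u)‖ ^ 2 / K) :=
            mul_le_mul_of_nonneg_right h2 (by positivity)
        _ = ((t - u) ^ 2 * ‖feD K (t - u)‖ ^ 2) * (Real.sqrt K / (2 * K)) +
            ‖feD K (t - u)‖ ^ 2 / (2 * K * Real.sqrt K) := by
            field_simp
        _ ≤ 1 / 4 * (Real.sqrt K / (2 * K)) + ‖feD K (t - u)‖ ^ 2 / (2 * K * Real.sqrt K) := by
            have : 0 ≤ Real.sqrt K / (2 * K) := by positivity
            nlinarith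
        _ = 1 / (8 * Real.sqrt K) + ‖feD K (t - u)‖ ^ 2 / (2 * K * Real.sqrt K) := by
            congr 1
            rw [← hsK2, Real.sqrt_mul_self (Real.sqrt_nonneg _)]
            field_simp
            norm_num
    have hint : IntervalIntegrable (fun u => Λ * (1 / (8 * Real.sqrt K) +
        ‖feD K (t - u)‖ ^ 2 / (2 * K * Real.sqrt K))) MeasureTheory.volume
        (t - 1 / 2) (t - 1 / 2 + 1) :=
      (continuous_const.mul (continuous_const.add (hDc.div_const _))).intervalIntegrable _ _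
    have hle := intervalIntegral.norm_integral_le_of_norm_le (by linarith)
      (Filter.Eventually.of_forall hpt) hint
    refine hle.trans ?_
    rw [intervalIntegral.integral_const_mul, intervalIntegral.integral_add
      (intervalIntegrable_const) ((hDc.div_const _).intervalIntegrable _ _),
      intervalIntegral.integral_const, intervalIntegral.integral_div, hDint]
    rw [show t - 1 / 2 + 1 - (t - 1 / 2) = 1 by ring, one_smul, mul_div_assoc 2 Λ,
      show 2 * (Λ / Real.sqrt K) = Λ * (2 / Real.sqrt K) by ring]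
    refine mul_le_mul_of_nonneg_left ?_ hΛ
    have : 1 / (8 * Real.sqrt K) + K / (2 * K * Real.sqrt K) = (5 / 8) / Real.sqrt K := by
      field_simp
      norm_num
    rw [this]
    exact div_le_div_of_nonneg_right (by norm_num) hsK.le

end Pool.Agent.VINO
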