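import Pool.Agent.VINO.Del
import Pool.Agent.VMV.BilA

/-!
# VINO / Fwin: oscillation in a parameter

PROOF.  `del` on `[s, t]` with Lebesgue measure, `u n τ = e (τ φ(n)) w n`. Expand:
`∫_s^t ‖av N u‖^2 dτ = N^(-2) ∑_{m, n ≤ N} w n conj (w m) ∫_s^t e (τ (φ n - φ m)) dτ`, and the inner integral is at
most `t - s` in absolute value, and at most `1 / |φ n - φ m| ≤ 1 / |n - m|` if `n₀ ≤ m, n`, `m ≠ n`
(`|∫_s^t e(τ y) dτ| ≤ 2 / (2π |y|) ≤ 1/|y|`). So the total is at most
`N^(-2) ((t - s) (N + 2 n₀ N) + 2 N ∑_{k ≤ N} 1/k) ≤ C / √N`, since `∑_{k ≤ N} 1/k ≤ 1 + log N ≤ 3 √N`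
(`harmonic_le_one_add_log`, or `1/k ≤ 1/√k·..`: `∑_{k≤N} 1/k ≤ ∑ 1/√k ≤ 2 √N`).
-/

set_option autoImplicit false

namespace Pool.Agent.VINO

open MeasureTheory Filter Topology Pool.Agent.VMV

private theorem fw_int_le (s t y : ℝ) (hst : s ≤ t) : ‖∫ τ in Set.Icc s t, e (τ * y)‖ ≤ t - s := by
  have h1 := norm_setIntegral_le_of_norm_le_const (μ := volume) (s := Set.Icc s t)
    (f := fun τ => e (τ * y)) (C := 1) (by simp) (fun x _ => (norm_e _).le)
  refine h1.trans (le_of_eq ?_)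
  rw [one_mul, Measure.real, Real.volume_Icc, ENNReal.toReal_ofReal (sub_nonneg.2 hst)]

private theorem fw_int_le' (s t y d : ℝ) (hst : s ≤ t) (hd : 0 < d) (hy : d ≤ |y|) :
    ‖∫ τ in Set.Icc s t, e (τ * y)‖ ≤ 1 / d := by
  have hy0 : y ≠ 0 := by
    rintro rfl
    rw [abs_zero] at hy
    linarith
  rw [integral_Icc_eq_integral_Ioc, ← intervalIntegral.integral_of_le hst]
  have hc : (2 * Real.pi * Complex.I * (y : ℂ)) ≠ 0 := by
    simp [hy0, Real.pi_ne_zero]
  have h1 : ∀ τ : ℝ, e (τ * y) = Complex.exp (2 * Real.pi * Complex.I * (y : ℂ) * τ) := by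
    intro τ
    unfold e
    congr 1
    push_cast
    ring
  simp_rw [h1]
  rw [integral_exp_mul_complex hc, ← h1, ← h1, norm_div]
  have h2 : ‖(2 * Real.pi * Complex.I * (y : ℂ))‖ = 2 * Real.pi * |y| := by
    simp [abs_of_pos Real.pi_pos]
  rw [h2]
  have h3 : ‖e (t * y) - e (s * y)‖ ≤ 2 := by
    refine (norm_sub_le _ _).trans ?_
    rw [norm_e, norm_e]
    norm_num
  have hpi := Real.pi_gt_three
  rw [div_le_div_iff₀ (by positivity) hd]
  have h4 : d * 2 ≤ 2 * Real.pi * |y| := by nlinarith [abs_nonneg y]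
  calc ‖e (t * y) - e (s * y)‖ * d ≤ 2 * d := mul_le_mul_of_nonneg_right h3 hd.le
    _ ≤ 1 * (2 * Real.pi * |y|) := by linarith

private theorem fw_harm (N : ℕ) : ∑ k ∈ Finset.Icc 1 N, 1 / (k : ℝ) ≤ 2 * Real.sqrt N := by
  induction N with
  | zero => simp
  | succ N ih =>
    rw [Finset.sum_Icc_succ_top (by omega)]
    have h1 : (0 : ℝ) ≤ N := Nat.cast_nonneg N
    have h2 := Real.sq_sqrt h1
    have h3 : (0 : ℝ) ≤ Real.sqrt N := Real.sqrt_nonneg _
    have h4 : Real.sqrt ((N + 1 : ℕ) : ℝ) ^ 2 = N + 1 := by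
      rw [Real.sq_sqrt (Nat.cast_nonneg _)]
      push_cast
      ring
    have h5 : (1 : ℝ) ≤ Real.sqrt ((N + 1 : ℕ) : ℝ) := by
      rw [Real.one_le_sqrt]
      push_cast
      linarith
    have h6 : Real.sqrt N ≤ Real.sqrt ((N + 1 : ℕ) : ℝ) := Real.sqrt_le_sqrt (by push_cast; linarith)
    set a := Real.sqrt N
    set b := Real.sqrt ((N + 1 : ℕ) : ℝ)
    have h7 : 1 / ((N + 1 : ℕ) : ℝ) ≤ 1 / b := by
      apply one_div_le_one_div_of_le (by linarith)
      push_cast
      nlinarith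
    have h8 : 1 / b ≤ 2 * (b - a) := by
      rw [div_le_iff₀ (by linarith)]
      nlinarith
    linarith

private theorem fw_row (n N : ℕ) (hn : n ∈ Finset.Icc 1 N) :
    ∑ m ∈ Finset.Icc 1 N, (if n = m then 0 else 1 / |(n : ℝ) - m|) ≤ 4 * Real.sqrt N := by
  rw [Finset.mem_Icc] at hn
  have h1 : ∀ m ∈ Finset.Icc 1 N, (if n = m then 0 else 1 / |(n : ℝ) - m|) ≤
      (if m < n then 1 / ((n - m : ℕ) : ℝ) else 0) + (if n < m then 1 / ((m - n : ℕ) : ℝ) else 0) := by
    intro m _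
    rcases lt_trichotomy m n with h | h | h
    · rw [if_neg (by omega), if_pos h, if_neg (by omega), Nat.cast_sub h.le, abs_of_pos, add_zero]
      have : (m : ℝ) < n := by exact_mod_cast h
      linarith
    · subst h
      simp
    · rw [if_neg (by omega), if_neg (by omega), if_pos h, Nat.cast_sub h.le, zero_add, abs_sub_comm,
        abs_of_pos]
      have : (n : ℝ) < m := by exact_mod_cast h
      linarith
  refine (Finset.sum_le_sum h1).trans ?_
  rw [Finset.sum_add_distrib, ← Finset.sum_filter, ← Finset.sum_filter]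
  have hH := fw_harm N
  have h2 : ∑ m ∈ (Finset.Icc 1 N).filter (fun m => m < n), 1 / ((n - m : ℕ) : ℝ) ≤
      ∑ k ∈ Finset.Icc 1 N, 1 / (k : ℝ) := by
    have hinj : Set.InjOn (fun m => n - m) ((Finset.Icc 1 N).filter (fun m => m < n) : Set ℕ) := by
      intro a ha b hb hab
      simp only [Finset.coe_filter, Set.mem_ofPred_eq] at ha hb
      simp only at hab
      omega
    rw [← Finset.sum_image (f := fun k : ℕ => 1 / (k : ℝ)) (g := fun m => n - m) hinj]
    apply Finset.sum_le_sum_of_subset_of_nonneg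
    · intro k hk
      obtain ⟨m, hm, rfl⟩ := Finset.mem_image.1 hk
      rw [Finset.mem_filter, Finset.mem_Icc] at hm
      rw [Finset.mem_Icc]
      omega
    · intro _ _ _
      positivity
  have h3 : ∑ m ∈ (Finset.Icc 1 N).filter (fun m => n < m), 1 / ((m - n : ℕ) : ℝ) ≤
      ∑ k ∈ Finset.Icc 1 N, 1 / (k : ℝ) := by
    have hinj : Set.InjOn (fun m => m - n) ((Finset.Icc 1 N).filter (fun m => n < m) : Set ℕ) := by
      intro a ha b hb hab
      simp only [Finset.coe_filter, Set.mem_ofPred_eq] at ha hb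
      simp only at hab
      omega
    rw [← Finset.sum_image (f := fun k : ℕ => 1 / (k : ℝ)) (g := fun m => m - n) hinj]
    apply Finset.sum_le_sum_of_subset_of_nonneg
    · intro k hk
      obtain ⟨m, hm, rfl⟩ := Finset.mem_image.1 hk
      rw [Finset.mem_filter, Finset.mem_Icc] at hm
      rw [Finset.mem_Icc]
      omega
    · intro _ _ _
      positivity
  linarith

theorem flow_window (φ : ℕ → ℝ) (n₀ : ℕ)
    (hsep : ∀ m n : ℕ, n₀ ≤ m → m < n → ((n : ℝ) - m) ≤ |φ n - φ m|) (w : ℕ → ℂ)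
    (hw : ∀ n, ‖w n‖ ≤ 1) (s t : ℝ) (hst : s ≤ t) :
    ∀ᵐ τ ∂(volume.restrict (Set.Icc s t)),
      Tendsto (fun N => av N fun n => e (τ * φ n) * w n) atTop (𝓝 0) := by
  have hcont : ∀ y : ℝ, Continuous fun τ : ℝ => e (τ * y) := by
    intro y
    unfold e
    fun_prop
  have hts : 0 ≤ t - s := sub_nonneg.2 hst
  refine del (volume.restrict (Set.Icc s t)) (fun n τ => e (τ * φ n) * w n) ?_ ?_
    ((t - s) * (1 + 2 * n₀) + 4) ?_
  · intro n
    exact ((hcont (φ n)).mul continuous_const).aestronglyMeasurable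
  · intro n
    refine Filter.Eventually.of_forall fun τ => ?_
    rw [norm_mul, norm_e, one_mul]
    exact hw n
  intro N hN
  have hN1 : (1 : ℝ) ≤ N := by exact_mod_cast hN
  have hN0 : (0 : ℝ) < N := by linarith
  -- expansion of the square
  have hsq : ∀ τ : ℝ, ((‖∑ n ∈ Finset.Icc 1 N, e (τ * φ n) * w n‖ ^ 2 : ℝ) : ℂ) =
      ∑ n ∈ Finset.Icc 1 N, ∑ m ∈ Finset.Icc 1 N,
        (w n * (starRingEnd ℂ) (w m)) * e (τ * (φ n - φ m)) := by
    intro τ
    have h1 : ((‖∑ n ∈ Finset.Icc 1 N, e (τ * φ n) * w n‖ ^ 2 : ℝ) : ℂ) =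
        (∑ n ∈ Finset.Icc 1 N, e (τ * φ n) * w n) *
          (starRingEnd ℂ) (∑ n ∈ Finset.Icc 1 N, e (τ * φ n) * w n) := by
      rw [Complex.mul_conj, Complex.normSq_eq_norm_sq]
    rw [h1, map_sum, Finset.sum_mul_sum]
    refine Finset.sum_congr rfl fun n _ => Finset.sum_congr rfl fun m _ => ?_
    rw [map_mul, conj_e, mul_sub, sub_eq_add_neg, e_add]
    ring
  set I : ℕ → ℕ → ℝ := fun n m => ‖∫ τ in Set.Icc s t, e (τ * (φ n - φ m))‖ with hI
  have hint : ∫ τ in Set.Icc s t, ‖∑ n ∈ Finset.Icc 1 N, e (τ * φ n) * w n‖ ^ 2 ≤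
      ∑ n ∈ Finset.Icc 1 N, ∑ m ∈ Finset.Icc 1 N, I n m := by
    have h0 : 0 ≤ ∫ τ in Set.Icc s t, ‖∑ n ∈ Finset.Icc 1 N, e (τ * φ n) * w n‖ ^ 2 :=
      integral_nonneg fun τ => by positivity
    have h1 : ((∫ τ in Set.Icc s t, ‖∑ n ∈ Finset.Icc 1 N, e (τ * φ n) * w n‖ ^ 2 : ℝ) : ℂ) =
        ∑ n ∈ Finset.Icc 1 N, ∑ m ∈ Finset.Icc 1 N,
          (w n * (starRingEnd ℂ) (w m)) * ∫ τ in Set.Icc s t, e (τ * (φ n - φ m)) := by
      rw [← integral_complex_ofReal]
      simp_rw [hsq]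
      have hI1 : ∀ n m : ℕ, Integrable (fun τ : ℝ => (w n * (starRingEnd ℂ) (w m)) *
          e (τ * (φ n - φ m))) (volume.restrict (Set.Icc s t)) := fun n m =>
        ((continuous_const.mul (hcont (φ n - φ m))).continuousOn).integrableOn_Icc
      rw [integral_finsetSum _ fun n _ => integrable_finsetSum _ fun m _ => hI1 n m]
      refine Finset.sum_congr rfl fun n _ => ?_
      rw [integral_finsetSum _ fun m _ => hI1 n m]
      refine Finset.sum_congr rfl fun m _ => ?_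
      rw [integral_const_mul]
    have h2 : ∫ τ in Set.Icc s t, ‖∑ n ∈ Finset.Icc 1 N, e (τ * φ n) * w n‖ ^ 2 =
        ‖((∫ τ in Set.Icc s t, ‖∑ n ∈ Finset.Icc 1 N, e (τ * φ n) * w n‖ ^ 2 : ℝ) : ℂ)‖ := by
      rw [Complex.norm_real, Real.norm_of_nonneg h0]
    rw [h2, h1]
    refine (norm_sum_le _ _).trans (Finset.sum_le_sum fun n _ => ?_)
    refine (norm_sum_le _ _).trans (Finset.sum_le_sum fun m _ => ?_)
    rw [norm_mul, norm_mul, RCLike.norm_conj]
    have h3 : ‖w n‖ * ‖w m‖ ≤ 1 := mul_le_one₀ (hw n) (norm_nonneg _) (hw m)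
    calc ‖w n‖ * ‖w m‖ * ‖∫ τ in Set.Icc s t, e (τ * (φ n - φ m))‖ ≤
          1 * ‖∫ τ in Set.Icc s t, e (τ * (φ n - φ m))‖ :=
          mul_le_mul_of_nonneg_right h3 (norm_nonneg _)
      _ = I n m := by rw [one_mul]
  -- the pointwise bound
  have hpt : ∀ n m : ℕ, I n m ≤ (t - s) * (if n = m then 1 else 0) +
      (t - s) * (if n < n₀ then 1 else 0) + (t - s) * (if m < n₀ then 1 else 0) +
      (if n = m then 0 else 1 / |(n : ℝ) - m|) := by
    intro n m
    have hle := fw_int_le s t (φ n - φ m) hst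
    have hnn : ∀ P : Prop, ∀ [Decidable P], 0 ≤ (t - s) * (if P then (1 : ℝ) else 0) := by
      intro P _
      split_ifs <;> simp [hts]
    have hq : (0 : ℝ) ≤ (if n = m then 0 else 1 / |(n : ℝ) - m|) := by
      split_ifs <;> positivity
    by_cases h1 : n = m
    · have := hnn (n < n₀)
      have := hnn (m < n₀)
      rw [if_pos h1, if_pos h1] at *
      simp only [hI]
      linarith
    by_cases h2 : n < n₀
    · have := hnn (m < n₀)
      rw [if_neg h1, if_neg h1, if_pos h2] at *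
      simp only [hI]
      linarith
    by_cases h3 : m < n₀
    · rw [if_neg h1, if_neg h1, if_neg h2, if_pos h3] at *
      simp only [hI]
      linarith
    · rw [if_neg h1, if_neg h1, if_neg h2, if_neg h3, mul_zero, zero_add, zero_add, zero_add]
      rw [not_lt] at h2 h3
      rcases lt_or_gt_of_ne h1 with h | h
      · have h5 : (n : ℝ) < m := by exact_mod_cast h
        rw [abs_sub_comm, abs_of_pos (by linarith)]
        apply fw_int_le' s t _ _ hst (by linarith)
        rw [abs_sub_comm]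
        exact hsep n m h2 h
      · have h5 : (m : ℝ) < n := by exact_mod_cast h
        rw [abs_of_pos (by linarith)]
        exact fw_int_le' s t _ _ hst (by linarith) (hsep m n h3 h)
  have hcount : ∑ n ∈ Finset.Icc 1 N, ∑ m ∈ Finset.Icc 1 N, I n m ≤
      (t - s) * N + (t - s) * (n₀ * N) + (t - s) * (n₀ * N) + N * (4 * Real.sqrt N) := by
    refine (Finset.sum_le_sum fun n _ => Finset.sum_le_sum fun m _ => hpt n m).trans ?_
    simp only [Finset.sum_add_distrib, ← Finset.mul_sum]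
    have hlt : ∑ n ∈ Finset.Icc 1 N, (if n < n₀ then (1 : ℝ) else 0) ≤ n₀ := by
      rw [← Finset.sum_filter, Finset.sum_const, nsmul_eq_mul, mul_one]
      have : ((Finset.Icc 1 N).filter fun n => n < n₀).card ≤ n₀ := by
        calc ((Finset.Icc 1 N).filter fun n => n < n₀).card ≤ (Finset.range n₀).card := by
              apply Finset.card_le_card
              intro n hn
              rw [Finset.mem_filter] at hn
              exact Finset.mem_range.2 hn.2
          _ = n₀ := Finset.card_range _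
      exact_mod_cast this
    have e1 : ∑ n ∈ Finset.Icc 1 N, ∑ m ∈ Finset.Icc 1 N, (if n = m then (1 : ℝ) else 0) ≤ N := by
      calc ∑ n ∈ Finset.Icc 1 N, ∑ m ∈ Finset.Icc 1 N, (if n = m then (1 : ℝ) else 0)
          ≤ ∑ n ∈ Finset.Icc 1 N, (1 : ℝ) := by
            refine Finset.sum_le_sum fun n _ => ?_
            rw [Finset.sum_ite_eq]
            split_ifs <;> norm_num
        _ = N := by
            rw [Finset.sum_const, Nat.card_Icc, nsmul_eq_mul]
            simp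
    have e2 : ∑ n ∈ Finset.Icc 1 N, ∑ m ∈ Finset.Icc 1 N, (if n < n₀ then (1 : ℝ) else 0) ≤
        n₀ * N := by
      simp only [Finset.sum_const, Nat.card_Icc, nsmul_eq_mul, Nat.add_sub_cancel]
      rw [← Finset.mul_sum, mul_comm]
      exact mul_le_mul_of_nonneg_right hlt hN0.le
    have e3 : ∑ n ∈ Finset.Icc 1 N, ∑ m ∈ Finset.Icc 1 N, (if m < n₀ then (1 : ℝ) else 0) ≤
        n₀ * N := by
      rw [Finset.sum_const, Nat.card_Icc, nsmul_eq_mul, Nat.add_sub_cancel, mul_comm]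
      exact mul_le_mul_of_nonneg_right hlt hN0.le
    have e4 : ∑ n ∈ Finset.Icc 1 N, ∑ m ∈ Finset.Icc 1 N,
        (if n = m then 0 else 1 / |(n : ℝ) - m|) ≤ N * (4 * Real.sqrt N) := by
      refine (Finset.sum_le_sum fun n hn => fw_row n N hn).trans (le_of_eq ?_)
      rw [Finset.sum_const, Nat.card_Icc, nsmul_eq_mul, Nat.add_sub_cancel]
    have f1 := mul_le_mul_of_nonneg_left e1 hts
    have f2 := mul_le_mul_of_nonneg_left e2 hts
    have f3 := mul_le_mul_of_nonneg_left e3 hts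
    linarith
  have hav : ∀ τ : ℝ, ‖av N fun n => e (τ * φ n) * w n‖ ^ 2 =
      ((N : ℝ) ^ 2)⁻¹ * ‖∑ n ∈ Finset.Icc 1 N, e (τ * φ n) * w n‖ ^ 2 := by
    intro τ
    unfold av
    rw [norm_mul, mul_pow, norm_inv, Complex.norm_natCast, inv_pow]
  simp_rw [hav]
  rw [integral_const_mul]
  have hsN : Real.sqrt N ^ 2 = N := Real.sq_sqrt hN0.le
  have hs1 : 1 ≤ Real.sqrt N := by
    rw [Real.one_le_sqrt]
    exact hN1
  have hs0 : 0 < Real.sqrt N := by linarith
  calc ((N : ℝ) ^ 2)⁻¹ * ∫ τ in Set.Icc s t, ‖∑ n ∈ Finset.Icc 1 N, e (τ * φ n) * w n‖ ^ 2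
      ≤ ((N : ℝ) ^ 2)⁻¹ * ((t - s) * N + (t - s) * (n₀ * N) + (t - s) * (n₀ * N) +
          N * (4 * Real.sqrt N)) :=
        mul_le_mul_of_nonneg_left (hint.trans hcount) (by positivity)
    _ ≤ ((t - s) * (1 + 2 * n₀) + 4) / Real.sqrt N := by
        rw [inv_mul_le_iff₀ (by positivity)]
        rw [← mul_div_assoc, le_div_iff₀ hs0]
        have h1 : (N : ℝ) ≤ N ^ 2 := by nlinarith
        have h2 : Real.sqrt N ≤ N := by nlinarith
        have h3 : 0 ≤ (t - s) * (1 + 2 * n₀) := by positivity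
        have h4 : (N : ℝ) * Real.sqrt N ≤ N ^ 2 := by nlinarith
        have h5 := mul_le_mul_of_nonneg_left h4 h3
        have h6 : (N : ℝ) * (4 * Real.sqrt N) * Real.sqrt N = 4 * N ^ 2 := by
          calc (N : ℝ) * (4 * Real.sqrt N) * Real.sqrt N = 4 * N * Real.sqrt N ^ 2 := by ring
            _ = 4 * N ^ 2 := by
              rw [hsN]
              ring
        calc ((t - s) * N + (t - s) * (n₀ * N) + (t - s) * (n₀ * N) +
              N * (4 * Real.sqrt N)) * Real.sqrt N =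
            (t - s) * (1 + 2 * n₀) * (N * Real.sqrt N) + N * (4 * Real.sqrt N) * Real.sqrt N := by
              ring
          _ ≤ (N : ℝ) ^ 2 * ((t - s) * (1 + 2 * n₀) + 4) := by
              rw [h6]
              linarith

end Pool.Agent.VINO
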