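import Pool.Agent.VINO.Hlow

/-!
# VINO / Good: many Taylor coefficients of `H` in the good range

PROOF.  `L = log x`, `A = L^c = AA c x`, `κ = log y / log x ∈ [c/24, c/12]` (so `y = x^κ`), `T` the set of
all `j : Fin k` (`k = kk c x ≥ 3 A`) such that `l = j + 1` satisfies `A (1 + 3κ/4) ≤ l ≤ A (1 + 5κ/4)`.
There are at least `Aκ/2 - 1 ≥ Aκ/4` such integers `l` (all are `≤ 2 A ≤ k`), each is `≥ A`, so
`∑_{j ∈ T} (j+1) ≥ A^2 κ/4 ≥ (c/96) A^2`.
Apply `H_two` with `η = c/8`: `l + r + 2 ≤ A (1 + 5c/48) + r + 2 ≤ (1 - c/8)(1+c) A` for large `A`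
(`(1 - c/8)(1+c) ≥ 1 + 13 c/16`). `G c x = exp (A L)` (`L^(1+c) = L L^c`), so
(upper) `log |α_l| ≤ log c₂ + A L - l L + 2 (1+c) A ≤ A L - l L + 4 A`, and it suffices that
`A L + 4 A ≤ l L (1 - κ/2)`: `l (1 - κ/2) ≥ A (1 + 3κ/4)(1 - κ/2) ≥ A (1 + κ/8)` (`κ ≤ 1/3`), `L κ ≥ 32`;
(lower) `log |α_l| ≥ log c₁ + A L - (l + r) L`, and it suffices that
`l L (1 - 3κ/2) ≤ A L + log c₁ - r L`: `l (1 - 3κ/2) ≤ A (1 + 5κ/4)(1 - 3κ/2) ≤ A (1 - κ/4)` and
`A κ/4 ≥ r + |log c₁| / L` for large `x`.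
-/

set_option autoImplicit false

namespace Pool.Agent.VINO

open Filter

private theorem good_count {A κ : ℝ} {k : ℕ} (hA : 0 < A) (hκ : 0 < κ) (h4 : 4 ≤ A * κ)
    (hk : A * (1 + 5 * κ / 4) ≤ k) :
    A * (A * κ / 4) ≤ ∑ j ∈ (Finset.univ : Finset (Fin k)).filter
      (fun j => A * (1 + 3 * κ / 4) ≤ ((j.1 : ℝ) + 1) ∧ ((j.1 : ℝ) + 1) ≤ A * (1 + 5 * κ / 4)),
      ((j.1 : ℝ) + 1) := by
  classical
  set lo := A * (1 + 3 * κ / 4) with hlo
  set hi := A * (1 + 5 * κ / 4) with hhi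
  have hlopos : 0 < lo := by positivity
  have hhipos : 0 < hi := by positivity
  have hAlo : A ≤ lo := by
    have : 0 ≤ A * (3 * κ / 4) := by positivity
    rw [hlo]; linarith
  have hlohi : lo + A * κ / 2 = hi := by rw [hlo, hhi]; ring
  have ha1 : 1 ≤ ⌈lo⌉₊ := Nat.one_le_ceil_iff.2 hlopos
  have hac : (⌈lo⌉₊ : ℝ) < lo + 1 := Nat.ceil_lt_add_one hlopos.le
  have hbf : hi - 1 < (⌊hi⌋₊ : ℝ) := Nat.sub_one_lt_floor hi
  rw [Finset.sum_filter]
  rw [Fin.sum_univ_eq_sum_range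
    (fun i : ℕ => if lo ≤ ((i : ℝ) + 1) ∧ ((i : ℝ) + 1) ≤ hi then ((i : ℝ) + 1) else 0) k]
  have hsub : Finset.Ico (⌈lo⌉₊ - 1) ⌊hi⌋₊ ⊆ Finset.range k := by
    intro i hi'
    rw [Finset.mem_Ico] at hi'
    rw [Finset.mem_range]
    have h1 : (⌊hi⌋₊ : ℝ) ≤ k := (Nat.floor_le hhipos.le).trans hk
    have h2 : ⌊hi⌋₊ ≤ k := by exact_mod_cast h1
    omega
  have hcast : ((⌈lo⌉₊ - 1 : ℕ) : ℝ) = (⌈lo⌉₊ : ℝ) - 1 := by
    rw [Nat.cast_sub ha1, Nat.cast_one]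
  have hle : ⌈lo⌉₊ - 1 ≤ ⌊hi⌋₊ := by
    have : ((⌈lo⌉₊ - 1 : ℕ) : ℝ) ≤ (⌊hi⌋₊ : ℝ) := by rw [hcast]; linarith
    exact_mod_cast this
  calc A * (A * κ / 4) ≤ ((⌊hi⌋₊ - (⌈lo⌉₊ - 1) : ℕ) : ℝ) * A := by
        rw [mul_comm A]
        refine mul_le_mul_of_nonneg_right ?_ hA.le
        rw [Nat.cast_sub hle, hcast]
        linarith
    _ = ∑ i ∈ Finset.Ico (⌈lo⌉₊ - 1) ⌊hi⌋₊, A := by
        rw [Finset.sum_const, Nat.card_Ico, nsmul_eq_mul]
    _ ≤ ∑ i ∈ Finset.Ico (⌈lo⌉₊ - 1) ⌊hi⌋₊,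
          (if lo ≤ ((i : ℝ) + 1) ∧ ((i : ℝ) + 1) ≤ hi then ((i : ℝ) + 1) else 0) := by
        refine Finset.sum_le_sum (fun i hi' => ?_)
        rw [Finset.mem_Ico] at hi'
        have h1 : (⌈lo⌉₊ : ℝ) ≤ (i : ℝ) + 1 := by
          have : ⌈lo⌉₊ ≤ i + 1 := by omega
          exact_mod_cast this
        have h2 : lo ≤ (i : ℝ) + 1 := (Nat.le_ceil lo).trans h1
        have h3 : (i : ℝ) + 1 ≤ hi := by
          have h4 : i + 1 ≤ ⌊hi⌋₊ := by omega
          have h5 : ((i + 1 : ℕ) : ℝ) ≤ (⌊hi⌋₊ : ℝ) := by exact_mod_cast h4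
          push_cast at h5
          exact h5.trans (Nat.floor_le hhipos.le)
        rw [if_pos ⟨h2, h3⟩]
        linarith
    _ ≤ _ := Finset.sum_le_sum_of_subset_of_nonneg hsub
        (fun i _ _ => by split_ifs <;> positivity)

theorem good_set {c : ℝ} (hc0 : 0 < c) (hc1 : c < 1 / 2) {r : ℕ} (β : Fin (r + 1) → ℝ)
    (hβ : β ≠ 0) :
    ∃ x₀ : ℝ, 1 < x₀ ∧ ∀ x : ℝ, x₀ ≤ x → ∀ y : ℝ, x ^ (c / 24) ≤ y → y ≤ x ^ (c / 12) →
      ∃ T : Finset (Fin (kk c x)), c / 96 * (AA c x) ^ 2 ≤ ∑ j ∈ T, ((j.1 : ℝ) + 1) ∧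
        ∀ j ∈ T,
          y ^ (-(3 * ((j.1 : ℝ) + 1) / 2)) ≤
            |iteratedDeriv (j.1 + 1) (H c β) x / ((j.1 + 1).factorial : ℝ)| ∧
          |iteratedDeriv (j.1 + 1) (H c β) x / ((j.1 + 1).factorial : ℝ)| ≤
            y ^ (-(((j.1 : ℝ) + 1) / 2)) := by
  classical
  obtain ⟨c₁, c₂, L₀, hc₁, hc₂, hL₀, htwo⟩ := H_two (c := c) (η := c / 8) hc0 (by linarith)
    (by positivity) (by linarith) β hβ
  -- large `x`
  have hAA : Tendsto (fun x : ℝ => AA c x) atTop atTop :=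
    (tendsto_rpow_atTop hc0).comp Real.tendsto_log_atTop
  have hev : ∀ᶠ x : ℝ in atTop, 1 < x ∧ L₀ ≤ Real.log x ∧ 768 / c ≤ Real.log x ∧
      96 / c * ((r : ℝ) + |Real.log c₁|) ≤ AA c x ∧ |Real.log c₂| ≤ AA c x ∧
      96 / c ≤ AA c x ∧ 24 / (17 * c) * ((r : ℝ) + 2) ≤ AA c x := by
    filter_upwards [eventually_gt_atTop (1 : ℝ),
      Real.tendsto_log_atTop.eventually_ge_atTop L₀,
      Real.tendsto_log_atTop.eventually_ge_atTop (768 / c),
      hAA.eventually_ge_atTop (96 / c * ((r : ℝ) + |Real.log c₁|)),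
      hAA.eventually_ge_atTop (|Real.log c₂|),
      hAA.eventually_ge_atTop (96 / c),
      hAA.eventually_ge_atTop (24 / (17 * c) * ((r : ℝ) + 2))] with x h1 h2 h3 h4 h5 h6 h7
    exact ⟨h1, h2, h3, h4, h5, h6, h7⟩
  obtain ⟨x₀, hx₀⟩ := eventually_atTop.1 hev
  refine ⟨x₀, (hx₀ x₀ le_rfl).1, fun x hx y hy1 hy2 => ?_⟩
  obtain ⟨hx1, hL0, hLc, hA1, hA2, hA3, hA4⟩ := hx₀ x hx
  have hxpos : 0 < x := by linarith
  set L := Real.log x with hLdef
  have hL1 : 1 ≤ L := hL₀.trans hL0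
  have hLpos : 0 < L := by linarith
  set A := AA c x with hAdef
  have hApos : 0 < A := lt_of_lt_of_le (by positivity) hA3
  have hypos : 0 < y := lt_of_lt_of_le (Real.rpow_pos_of_pos hxpos _) hy1
  set κ := Real.log y / L with hκ
  have hly : Real.log y = κ * L := by rw [hκ]; field_simp
  have hκ1 : c / 24 ≤ κ := by
    rw [hκ, le_div_iff₀ hLpos]
    have := Real.log_le_log (Real.rpow_pos_of_pos hxpos _) hy1
    rwa [Real.log_rpow hxpos] at this
  have hκ2 : κ ≤ c / 12 := by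
    rw [hκ, div_le_iff₀ hLpos]
    have := Real.log_le_log hypos hy2
    rwa [Real.log_rpow hxpos] at this
  have hκpos : 0 < κ := lt_of_lt_of_le (by positivity) hκ1
  have hcA3 : 96 ≤ c * A := by
    rw [div_le_iff₀ hc0] at hA3; linarith
  have hAκ4 : 4 ≤ A * κ := by
    have : A * (c / 24) ≤ A * κ := mul_le_mul_of_nonneg_left hκ1 hApos.le
    linarith
  have hkA : A * (1 + 5 * κ / 4) ≤ (kk c x : ℝ) := by
    have h1 : 3 * A ≤ (⌈3 * AA c x⌉₊ : ℝ) := Nat.le_ceil _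
    have h2 : (kk c x : ℝ) = (⌈3 * AA c x⌉₊ : ℝ) + 2 := by
      unfold kk; push_cast; ring
    rw [h2]
    have h3 : A * κ ≤ A * 1 := mul_le_mul_of_nonneg_left (by linarith) hApos.le
    linarith
  refine ⟨(Finset.univ : Finset (Fin (kk c x))).filter
      (fun j => A * (1 + 3 * κ / 4) ≤ ((j.1 : ℝ) + 1) ∧ ((j.1 : ℝ) + 1) ≤ A * (1 + 5 * κ / 4)),
      ?_, ?_⟩
  · refine le_trans ?_ (good_count hApos hκpos hAκ4 hkA)
    have : c / 96 * A ^ 2 = A * (A * (c / 24) / 4) := by ring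
    rw [this]
    refine mul_le_mul_of_nonneg_left ?_ hApos.le
    have : A * (c / 24) ≤ A * κ := mul_le_mul_of_nonneg_left hκ1 hApos.le
    linarith
  · intro j hj
    rw [Finset.mem_filter] at hj
    obtain ⟨-, hj1, hj2⟩ := hj
    set l : ℕ := j.1 + 1 with hl
    have hlr : (j.1 : ℝ) + 1 = (l : ℝ) := by rw [hl]; push_cast; ring
    rw [hlr] at hj1 hj2 ⊢
    have hKK : KK c L = (1 + c) * A := rfl
    have hLr : L ^ (1 + c) = L * A := by
      rw [Real.rpow_add hLpos, Real.rpow_one]; rfl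
    have hG : G c x = Real.exp (A * L) := by
      unfold G
      rw [← hLdef, hLr, mul_comm]
    have hcond : (l : ℝ) + r + 2 ≤ (1 - c / 8) * KK c L := by
      rw [hKK]
      have h1 : A * κ ≤ A * (c / 12) := mul_le_mul_of_nonneg_left hκ2 hApos.le
      have h2 : (r : ℝ) + 2 ≤ 17 * c / 24 * A := by
        have : 24 / (17 * c) * ((r : ℝ) + 2) ≤ A := hA4
        rw [div_mul_eq_mul_div, div_le_iff₀ (by positivity)] at this
        linarith
      have h3 : c ^ 2 * A ≤ c * (1 / 2) * A := by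
        have : c ^ 2 ≤ c * (1 / 2) := by
          rw [sq]; exact mul_le_mul_of_nonneg_left hc1.le hc0.le
        exact mul_le_mul_of_nonneg_right this hApos.le
      linarith
    obtain ⟨hlow, hupp⟩ := htwo x hxpos hL0 l hcond
    have hxp : ∀ n : ℕ, x ^ n = Real.exp (n * L) := by
      intro n
      rw [Real.exp_nat_mul, hLdef, Real.exp_log hxpos]
    have habs : |iteratedDeriv l (H c β) x / (l.factorial : ℝ)| =
        |iteratedDeriv l (H c β) x| / (l.factorial : ℝ) := by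
      rw [abs_div, Nat.abs_cast]
    rw [habs]
    have hc₁e : c₁ = Real.exp (Real.log c₁) := (Real.exp_log hc₁).symm
    have hc₂e : c₂ = Real.exp (Real.log c₂) := (Real.exp_log hc₂).symm
    constructor
    · refine le_trans ?_ hlow
      rw [Real.rpow_def_of_pos hypos, hG, hxp, hc₁e, ← Real.exp_sub, ← Real.exp_add]
      refine Real.exp_le_exp.2 ?_
      rw [hly]
      push_cast
      have h1 : (l : ℝ) * (1 - 3 * κ / 2) ≤ A * (1 + 5 * κ / 4) * (1 - 3 * κ / 2) :=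
        mul_le_mul_of_nonneg_right hj2 (by linarith)
      have h2 : A * (1 + 5 * κ / 4) * (1 - 3 * κ / 2) ≤ A * (1 - κ / 4) := by
        have : 0 ≤ A * (15 * κ ^ 2 / 8) := by positivity
        linarith
      have h3 : (r : ℝ) + |Real.log c₁| ≤ A * κ / 4 := by
        have h4 : 96 / c * ((r : ℝ) + |Real.log c₁|) ≤ A := hA1
        rw [div_mul_eq_mul_div, div_le_iff₀ hc0] at h4
        have h5 : A * (c / 24) ≤ A * κ := mul_le_mul_of_nonneg_left hκ1 hApos.le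
        linarith
      have h4 : -|Real.log c₁| * L ≤ Real.log c₁ := by
        have h5 : -|Real.log c₁| ≤ Real.log c₁ := neg_abs_le _
        have h6 : 0 ≤ |Real.log c₁| := abs_nonneg _
        have h7 : |Real.log c₁| * 1 ≤ |Real.log c₁| * L := mul_le_mul_of_nonneg_left hL1 h6
        linarith
      have h5 : (l : ℝ) * (1 - 3 * κ / 2) ≤ A - (r + |Real.log c₁|) := by linarith
      have h6 := mul_le_mul_of_nonneg_right h5 hLpos.le
      have e1 : κ * L * -(3 * (l : ℝ) / 2) = (l : ℝ) * (1 - 3 * κ / 2) * L - l * L := by ring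
      rw [e1]
      have e2 : (A - (r + |Real.log c₁|)) * L - l * L
          = -|Real.log c₁| * L + (A * L - ((l : ℝ) + r) * L) := by ring
      linarith
    · refine le_trans hupp ?_
      rw [Real.rpow_def_of_pos hypos, hG, hxp, hc₂e, ← Real.exp_sub, ← Real.exp_add, ← Real.exp_add]
      refine Real.exp_le_exp.2 ?_
      rw [hly, ← hLdef, hKK]
      have h1 : A * (1 + 3 * κ / 4) * (1 - κ / 2) ≤ (l : ℝ) * (1 - κ / 2) :=
        mul_le_mul_of_nonneg_right hj1 (by linarith)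
      have h2 : A * (1 + κ / 8) ≤ A * (1 + 3 * κ / 4) * (1 - κ / 2) := by
        have h3 : κ ≤ 1 / 3 := by linarith
        have h4 : 0 ≤ A * (κ * (1 / 3 - κ)) := by
          have : 0 ≤ 1 / 3 - κ := by linarith
          positivity
        linarith
      have h3 : 32 ≤ κ * L := by
        have h4 : c / 24 * L ≤ κ * L := mul_le_mul_of_nonneg_right hκ1 hLpos.le
        have h5 : 768 / c ≤ L := hLc
        rw [div_le_iff₀ hc0] at h5
        linarith
      have h4 : 4 * A ≤ A * (κ / 8) * L := by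
        have h5 : A * 32 ≤ A * (κ * L) := mul_le_mul_of_nonneg_left h3 hApos.le
        linarith
      have h5 : Real.log c₂ ≤ A := (le_abs_self _).trans hA2
      have h6 : A * (1 + κ / 8) ≤ (l : ℝ) * (1 - κ / 2) := h2.trans h1
      have h7 := mul_le_mul_of_nonneg_right h6 hLpos.le
      have e1 : κ * L * -((l : ℝ) / 2) = (l : ℝ) * (1 - κ / 2) * L - l * L := by ring
      rw [e1]
      have h8 : 2 * ((1 + c) * A) ≤ 3 * A := by
        have := mul_le_mul_of_nonneg_right hc1.le hApos.le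
        linarith
      linarith

end Pool.Agent.VINO
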