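import Pool.Agent.VINO.Hlow

/-!
# VINO / Hbig: upper bounds for the high derivatives of `H`

PROOF.  `H_iteratedDeriv`; for `j ≤ r` and `ξ ∈ [x, 2x]` the point `y = ξ + j` is in `[x, 3x]` (`x ≥ r`).
`KK c (log y) ≤ KK c (log 3x) ≤ 2 KK c (log x) ≤ l` (`log 3x ≤ 2 log x`, so `(log 3x)^c ≤ 2^c (log x)^c`).
`dbig`: `|G^(l)(y)| ≤ 2 G(y) l! exp(l) y^(-l) ≤ 2 G(3x) l! (exp 1 / x)^l` (`G` is increasing on `[1, ∞)`).
Sum over `j`: `C = 2 ∑ |β_j| + 1`.
-/

set_option autoImplicit false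

namespace Pool.Agent.VINO

theorem H_big {c : ℝ} (hc0 : 0 < c) (hc1 : c < 1) {r : ℕ} (β : Fin (r + 1) → ℝ) :
    ∃ C L₀ : ℝ, 0 < C ∧ 1 ≤ L₀ ∧ ∀ x : ℝ, 0 < x → L₀ ≤ Real.log x → ∀ ξ ∈ Set.Icc x (2 * x),
      ∀ l : ℕ, 2 * KK c (Real.log x) ≤ l →
      |iteratedDeriv l (H c β) ξ| / l.factorial ≤ C * G c (3 * x) * (Real.exp 1 / x) ^ l := by
  obtain ⟨L₁, hL₁, hd⟩ := dbig hc0 hc1
  refine ⟨2 * (∑ j, |β j|) + 1, max L₁ (max 2 (r : ℝ)), by positivity, le_max_of_le_left hL₁, ?_⟩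
  intro x hx hL ξ hξ l hl
  have hLL₁ : L₁ ≤ Real.log x := (le_max_left _ _).trans hL
  have hL2 : 2 ≤ Real.log x := ((le_max_left _ _).trans (le_max_right _ _)).trans hL
  have hLr : (r : ℝ) ≤ Real.log x := ((le_max_right _ _).trans (le_max_right _ _)).trans hL
  have hxL : Real.log x < x := by
    have := Real.add_one_le_exp (Real.log x)
    rw [Real.exp_log hx] at this
    linarith
  have hx1 : 1 < x := by linarith
  have hξ1 : 1 < ξ := lt_of_lt_of_le hx1 hξ.1
  have hG3 : 0 < G c (3 * x) := Real.exp_pos _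
  have hex : 0 < Real.exp 1 / x := div_pos (Real.exp_pos _) hx
  have hlog3 : Real.log (3 * x) ≤ 2 * Real.log x := by
    rw [Real.log_mul (by norm_num) hx.ne']
    have : Real.log 3 ≤ 2 := by
      have := Real.log_le_sub_one_of_pos (show (0 : ℝ) < 3 by norm_num)
      linarith
    linarith
  have key : ∀ j : Fin (r + 1), |iteratedDeriv l (G c) (ξ + (j.1 : ℝ))| ≤
      2 * G c (3 * x) * l.factorial * (Real.exp 1 / x) ^ l := by
    intro j
    set y : ℝ := ξ + (j.1 : ℝ) with hy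
    have hj0 : (0 : ℝ) ≤ (j.1 : ℝ) := Nat.cast_nonneg _
    have hjr : (j.1 : ℝ) ≤ r := by exact_mod_cast Nat.le_of_lt_succ j.2
    have hxy : x ≤ y := by rw [hy]; linarith [hξ.1]
    have hy3 : y ≤ 3 * x := by rw [hy]; linarith [hξ.2]
    have hy0 : 0 < y := by linarith
    have hlogy : Real.log x ≤ Real.log y := Real.log_le_log hx hxy
    have hlogy3 : Real.log y ≤ Real.log (3 * x) := Real.log_le_log hy0 hy3
    have hK : KK c (Real.log y) ≤ l := by
      refine le_trans ?_ hl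
      unfold KK
      have h1 : Real.log y ^ c ≤ (2 * Real.log x) ^ c :=
        Real.rpow_le_rpow (by linarith) (hlogy3.trans hlog3) hc0.le
      have h2 : (2 * Real.log x) ^ c = 2 ^ c * Real.log x ^ c :=
        Real.mul_rpow (by norm_num) (by linarith)
      have h3 : (2 : ℝ) ^ c ≤ 2 := by
        calc (2 : ℝ) ^ c ≤ 2 ^ (1 : ℝ) := Real.rpow_le_rpow_of_exponent_le (by norm_num) hc1.le
          _ = 2 := Real.rpow_one 2
      have h4 : 0 ≤ Real.log x ^ c := Real.rpow_nonneg (by linarith) _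
      calc (1 + c) * Real.log y ^ c ≤ (1 + c) * (2 * Real.log x ^ c) := by
            apply mul_le_mul_of_nonneg_left _ (by linarith)
            calc Real.log y ^ c ≤ 2 ^ c * Real.log x ^ c := h1.trans h2.le
              _ ≤ 2 * Real.log x ^ c := mul_le_mul_of_nonneg_right h3 h4
        _ = 2 * ((1 + c) * Real.log x ^ c) := by ring
    have hmain := hd y hy0 (hLL₁.trans hlogy) l hK
    have hGy : G c y ≤ G c (3 * x) := by
      unfold G
      apply Real.exp_le_exp.2
      exact Real.rpow_le_rpow (by linarith) hlogy3 (by linarith)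
    rw [abs_mul, abs_of_pos (pow_pos hy0 l)] at hmain
    have hxl : 0 < x ^ l := pow_pos hx l
    have h5 : x ^ l * |iteratedDeriv l (G c) y| ≤ 2 * G c (3 * x) * l.factorial * Real.exp l := by
      calc x ^ l * |iteratedDeriv l (G c) y| ≤ y ^ l * |iteratedDeriv l (G c) y| :=
            mul_le_mul_of_nonneg_right (pow_le_pow_left₀ hx.le hxy l) (abs_nonneg _)
        _ ≤ 2 * G c y * l.factorial * Real.exp l := hmain
        _ ≤ 2 * G c (3 * x) * l.factorial * Real.exp l := by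
            have : (0 : ℝ) ≤ l.factorial * Real.exp l := by positivity
            nlinarith
    have h6 : (Real.exp 1 / x) ^ l = Real.exp l / x ^ l := by
      rw [div_pow, ← Real.exp_nat_mul, mul_one]
    rw [h6, ← mul_div_assoc, le_div_iff₀ hxl, mul_comm]
    exact h5
  rw [H_iteratedDeriv c β hξ1 l]
  have hfac : (0 : ℝ) < l.factorial := by exact_mod_cast l.factorial_pos
  rw [div_le_iff₀ hfac]
  have hB : 0 ≤ G c (3 * x) * (Real.exp 1 / x) ^ l * l.factorial := by positivity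
  calc |∑ j, β j * iteratedDeriv l (G c) (ξ + (j.1 : ℝ))|
      ≤ ∑ j, |β j * iteratedDeriv l (G c) (ξ + (j.1 : ℝ))| := Finset.abs_sum_le_sum_abs _ _
    _ ≤ ∑ j, |β j| * (2 * G c (3 * x) * l.factorial * (Real.exp 1 / x) ^ l) := by
        refine Finset.sum_le_sum fun j _ => ?_
        rw [abs_mul]
        exact mul_le_mul_of_nonneg_left (key j) (abs_nonneg _)
    _ = 2 * (∑ j, |β j|) * (G c (3 * x) * (Real.exp 1 / x) ^ l * l.factorial) := by
        rw [← Finset.sum_mul]; ring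
    _ ≤ (2 * (∑ j, |β j|) + 1) * (G c (3 * x) * (Real.exp 1 / x) ^ l * l.factorial) := by
        nlinarith
    _ = _ := by ring

end Pool.Agent.VINO
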