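import Pool.Agent.VINO.Dstep

/-!
# VINO / Hlow: two-sided bounds for the derivatives of `H = ∑ β_j G(· + j)`

PROOF.  Let `b_i = ∑_j β_j j^i`. As `β ≠ 0` there is a smallest `m ≤ r` with `b_m ≠ 0` (Vandermonde:
`Matrix.det_vandermonde_ne_zero_iff`, the nodes `0, .., r` are different).
`H^(l)(x) = ∑_j β_j G^(l)(x + j)` (`G` is smooth at the points `x + j > 1`: `G_smooth`;
`iteratedDeriv` of a finite sum, of a constant multiple and of a translate).
Taylor's formula with Lagrange remainder for `G^(l)` at `x` of order `m` with increment `j` (for `j ≥ 1`,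
trivial for `j = 0`): `G^(l)(x + j) = ∑_{i ≤ m} G^(l+i)(x) j^i / i! + G^(l+m+1)(ξ_j) j^(m+1) / (m+1)!`,
`ξ_j ∈ [x, x + r]`. Since `b_i = 0` for `i < m`:
`|H^(l)(x) - b_m G^(l+m)(x) / m!| ≤ (∑ |β_j|) (r+1)^(r+1) sup_ξ G^(l+m+1)(ξ)
≤ (∑ |β_j|) (r+1)^(r+1) (30 K / x) G^(l+m)(x)` by `dstep` (`l + m + 1 ≤ l + r + 1 ≤ (1-η) K`), and
`K / x → 0` as `x → ∞`, so for large `x` this is `≤ |b_m| G^(l+m)(x) / (2 m!)`. Hence
`(1/2) (|b_m|/m!) G^(l+m)(x) ≤ |H^(l)(x)| ≤ (3/2) (|b_m|/m!) G^(l+m)(x)`. By `dtwo`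
`(1/2) G(x) x^(-l-m) q_(l+m)(K) ≤ G^(l+m)(x) ≤ (3/2) G(x) x^(-l-m) q_(l+m)(K)`, and
`l! ≤ (l+m)! ≤ q_(l+m)(K) ≤ K^(l+m)` (`poch_fact`, `poch_le`), `K^l / l! ≤ exp K`, `K^m ≤ m! exp K`
(`Real.pow_div_factorial_le_exp`), `x^(-l-r) ≤ x^(-l-m) ≤ x^(-l)`.
-/

set_option autoImplicit false

namespace Pool.Agent.VINO

private theorem Hl_G_on (c : ℝ) (l : ℕ) :
    ContDiffOn ℝ (⊤ : ℕ∞) (iteratedDeriv l (G c)) (Set.Ioi 1) := by
  induction l with
  | zero =>
    rw [iteratedDeriv_zero, contDiffOn_infty]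
    intro n x hx
    exact (G_smooth c hx n).contDiffWithinAt
  | succ l ih =>
    rw [iteratedDeriv_succ]
    exact ((contDiffOn_infty_iff_deriv_of_isOpen isOpen_Ioi).1 ih).2

private theorem Hl_G_at (c : ℝ) (l : ℕ) {x : ℝ} (hx : 1 < x) (n : ℕ) :
    ContDiffAt ℝ n (iteratedDeriv l (G c)) x := by
  have h := (Hl_G_on c l).contDiffAt (Ioi_mem_nhds hx)
  exact h.of_le (by exact_mod_cast le_top)

private theorem Hl_shift (c : ℝ) (s : ℝ) (hs : 0 ≤ s) {x : ℝ} (hx : 1 < x) (n : ℕ) :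
    ContDiffAt ℝ n (fun y => G c (y + s)) x := by
  have h1 : ContDiffAt ℝ n (G c) (x + s) := G_smooth c (by linarith) n
  exact ContDiffAt.comp (g := G c) (f := fun y => y + s) x h1 (contDiffAt_id.add contDiffAt_const)

theorem H_smooth (c : ℝ) {r : ℕ} (β : Fin (r + 1) → ℝ) {x : ℝ} (hx : 1 < x) (n : ℕ) :
    ContDiffAt ℝ n (H c β) x := by
  have e1 : H c β = fun y => ∑ j, β j * G c (y + (j.1 : ℝ)) := rfl
  rw [e1]
  exact ContDiffAt.sum fun j _ => contDiffAt_const.mul (Hl_shift c _ (Nat.cast_nonneg _) hx n)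

theorem H_iteratedDeriv (c : ℝ) {r : ℕ} (β : Fin (r + 1) → ℝ) {x : ℝ} (hx : 1 < x) (n : ℕ) :
    iteratedDeriv n (H c β) x = ∑ j, β j * iteratedDeriv n (G c) (x + (j.1 : ℝ)) := by
  have e1 : H c β = fun y => ∑ j, β j * G c (y + (j.1 : ℝ)) := rfl
  rw [e1, iteratedDeriv_fun_sum fun j _ =>
    contDiffAt_const.mul (Hl_shift c _ (Nat.cast_nonneg _) hx n)]
  refine Finset.sum_congr rfl fun j _ => ?_
  rw [iteratedDeriv_const_mul _ (Hl_shift c _ (Nat.cast_nonneg _) hx n),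
    iteratedDeriv_comp_add_const]

private theorem Hl_moment {r : ℕ} (β : Fin (r + 1) → ℝ) (hβ : β ≠ 0) :
    ∃ m : ℕ, m ≤ r ∧ ∑ j : Fin (r + 1), β j * (j.1 : ℝ) ^ m ≠ 0 ∧
      ∀ i < m, ∑ j : Fin (r + 1), β j * (j.1 : ℝ) ^ i = 0 := by
  classical
  have h : ∃ m : ℕ, m ≤ r ∧ ∑ j : Fin (r + 1), β j * (j.1 : ℝ) ^ m ≠ 0 := by
    by_contra hcon
    push Not at hcon
    apply hβ
    refine Matrix.eq_zero_of_forall_pow_sum_mul_pow_eq_zero
      (f := fun j : Fin (r + 1) => (j.1 : ℝ)) ?_ ?_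
    · intro i j hij
      have : (i.1 : ℝ) = (j.1 : ℝ) := hij
      exact Fin.ext (by exact_mod_cast this)
    · intro i
      exact hcon i.1 (by omega)
  refine ⟨Nat.find h, (Nat.find_spec h).1, (Nat.find_spec h).2, fun i hi => ?_⟩
  have h1 := Nat.find_min h hi
  have h2 : i ≤ r := hi.le.trans (Nat.find_spec h).1
  by_contra h3
  exact h1 ⟨h2, h3⟩

/-- Taylor's formula for the combination. -/
private theorem Hl_taylor (c : ℝ) {r : ℕ} (β : Fin (r + 1) → ℝ) {m : ℕ}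
    (h0 : ∀ i < m, ∑ j : Fin (r + 1), β j * (j.1 : ℝ) ^ i = 0) {x : ℝ} (hx : 1 < x) (l : ℕ)
    {C : ℝ} (hC : ∀ y ∈ Set.Icc x (x + ((r + 1 : ℕ) : ℝ)),
      |iteratedDeriv (l + m + 1) (G c) y| ≤ C) :
    |iteratedDeriv l (H c β) x - (∑ j : Fin (r + 1), β j * (j.1 : ℝ) ^ m) / m.factorial *
      iteratedDeriv (l + m) (G c) x| ≤
      (∑ j, |β j|) * ((r + 1 : ℕ) : ℝ) ^ (m + 1) * C := by
  obtain ⟨f, hf⟩ : ∃ f : ℝ → ℝ, f = iteratedDeriv l (G c) := ⟨_, rfl⟩
  have hr0 : (0 : ℝ) < ((r + 1 : ℕ) : ℝ) := by positivity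
  have hud : UniqueDiffOn ℝ (Set.Icc x (x + ((r + 1 : ℕ) : ℝ))) := uniqueDiffOn_Icc (by linarith)
  have hit : ∀ i : ℕ, iteratedDeriv i f = iteratedDeriv (l + i) (G c) := by
    intro i
    rw [hf, iteratedDeriv_eq_iterate, iteratedDeriv_eq_iterate, iteratedDeriv_eq_iterate,
      ← Function.iterate_add_apply, add_comm]
  have hfat : ∀ y, 1 < y → ∀ n : ℕ, ContDiffAt ℝ n f y := fun y hy n => by
    rw [hf]
    exact Hl_G_at c l hy n
  have hw : ∀ i : ℕ, ∀ y ∈ Set.Icc x (x + ((r + 1 : ℕ) : ℝ)),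
      iteratedDerivWithin i f (Set.Icc x (x + ((r + 1 : ℕ) : ℝ))) y =
        iteratedDeriv (l + i) (G c) y := by
    intro i y hy
    rw [iteratedDerivWithin_eq_iteratedDeriv hud (hfat y (by linarith [hy.1]) i) hy, hit i]
  have hC0 : 0 ≤ C := (abs_nonneg _).trans (hC x ⟨le_rfl, by linarith⟩)
  have hT : ∀ j : Fin (r + 1), |f (x + (j.1 : ℝ)) - ∑ i ∈ Finset.range (m + 1),
      ((i.factorial : ℝ)⁻¹ * (j.1 : ℝ) ^ i) * iteratedDeriv (l + i) (G c) x| ≤
        C * ((r + 1 : ℕ) : ℝ) ^ (m + 1) := by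
    intro j
    have hj : (j.1 : ℝ) ≤ ((r + 1 : ℕ) : ℝ) := by exact_mod_cast j.2.le
    have hj0 : (0 : ℝ) ≤ (j.1 : ℝ) := Nat.cast_nonneg _
    have h1 := taylor_mean_remainder_bound (f := f) (a := x) (b := x + ((r + 1 : ℕ) : ℝ))
      (C := C) (x := x + (j.1 : ℝ)) (n := m) (by linarith)
      (fun y hy => (hfat y (by linarith [hy.1]) (m + 1)).contDiffWithinAt)
      ⟨by linarith, by linarith⟩ (fun y hy => by
        rw [Real.norm_eq_abs, hw (m + 1) y hy]
        exact hC y hy)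
    rw [taylor_within_apply, Real.norm_eq_abs, add_sub_cancel_left] at h1
    have h2 : ∑ i ∈ Finset.range (m + 1), ((i.factorial : ℝ)⁻¹ * (j.1 : ℝ) ^ i) •
        iteratedDerivWithin i f (Set.Icc x (x + ((r + 1 : ℕ) : ℝ))) x =
        ∑ i ∈ Finset.range (m + 1), ((i.factorial : ℝ)⁻¹ * (j.1 : ℝ) ^ i) *
          iteratedDeriv (l + i) (G c) x :=
      Finset.sum_congr rfl fun i _ => by
        rw [hw i x ⟨le_rfl, by linarith⟩, smul_eq_mul]
    rw [h2] at h1
    refine h1.trans ?_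
    have h3 : (1 : ℝ) ≤ m.factorial := by exact_mod_cast Nat.factorial_pos m
    refine (div_le_self (by positivity) h3).trans ?_
    gcongr
  have hsum : iteratedDeriv l (H c β) x - (∑ j : Fin (r + 1), β j * (j.1 : ℝ) ^ m) / m.factorial *
      iteratedDeriv (l + m) (G c) x = ∑ j : Fin (r + 1), β j *
        (f (x + (j.1 : ℝ)) - ∑ i ∈ Finset.range (m + 1),
      ((i.factorial : ℝ)⁻¹ * (j.1 : ℝ) ^ i) * iteratedDeriv (l + i) (G c) x) := by
    have e1 : ∑ j : Fin (r + 1), β j * ∑ i ∈ Finset.range (m + 1),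
        ((i.factorial : ℝ)⁻¹ * (j.1 : ℝ) ^ i) * iteratedDeriv (l + i) (G c) x =
        (∑ j : Fin (r + 1), β j * (j.1 : ℝ) ^ m) / m.factorial *
          iteratedDeriv (l + m) (G c) x := by
      have e2 : ∀ j : Fin (r + 1), β j * ∑ i ∈ Finset.range (m + 1),
          ((i.factorial : ℝ)⁻¹ * (j.1 : ℝ) ^ i) * iteratedDeriv (l + i) (G c) x =
          ∑ i ∈ Finset.range (m + 1), (β j * (j.1 : ℝ) ^ i) *
            ((i.factorial : ℝ)⁻¹ * iteratedDeriv (l + i) (G c) x) := by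
        intro j
        rw [Finset.mul_sum]
        exact Finset.sum_congr rfl fun i _ => by ring
      rw [Finset.sum_congr rfl fun j _ => e2 j, Finset.sum_comm, Finset.sum_range_succ,
        Finset.sum_eq_zero, zero_add, ← Finset.sum_mul]
      · ring
      · intro i hi
        rw [← Finset.sum_mul, h0 i (Finset.mem_range.1 hi), zero_mul]
    rw [H_iteratedDeriv c β hx l, ← e1, ← Finset.sum_sub_distrib]
    refine Finset.sum_congr rfl fun j _ => ?_
    rw [hf]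
    ring
  rw [hsum]
  refine (Finset.abs_sum_le_sum_abs _ _).trans ?_
  rw [mul_assoc, Finset.sum_mul]
  refine Finset.sum_le_sum fun j _ => ?_
  rw [abs_mul]
  refine mul_le_mul_of_nonneg_left ((hT j).trans (le_of_eq ?_)) (abs_nonneg _)
  ring

private theorem Hl_small {c : ℝ} (hc0 : 0 < c) (hc1 : c < 1) {L x : ℝ} (hL : 1 ≤ L)
    (hx : 0 < x) (hLx : L = Real.log x) : KK c L / x ≤ 4 / L := by
  have h1 : L ^ c ≤ L := by
    calc L ^ c ≤ L ^ (1 : ℝ) := Real.rpow_le_rpow_of_exponent_le hL hc1.le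
      _ = L := Real.rpow_one L
  have h2 : x = Real.exp L := by rw [hLx, Real.exp_log hx]
  have h3 : L ^ 2 / 2 ≤ Real.exp L := by
    have := Real.quadratic_le_exp_of_nonneg (by linarith : 0 ≤ L)
    linarith
  have hL0 : 0 < L := by linarith
  have hx2 : L ^ 2 / 2 ≤ x := by rw [h2]; exact h3
  unfold KK
  rw [div_le_div_iff₀ hx hL0]
  have h4 : (1 + c) * L ^ c ≤ 2 * L := by
    have : 0 ≤ L ^ c := by positivity
    nlinarith
  calc (1 + c) * L ^ c * L ≤ 2 * L * L := by gcongr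
    _ = 4 * (L ^ 2 / 2) := by ring
    _ ≤ 4 * x := by gcongr

theorem H_two {c η : ℝ} (hc0 : 0 < c) (hc1 : c < 1) (hη0 : 0 < η) (hη1 : η < 1) {r : ℕ}
    (β : Fin (r + 1) → ℝ) (hβ : β ≠ 0) :
    ∃ c₁ c₂ L₀ : ℝ, 0 < c₁ ∧ 0 < c₂ ∧ 1 ≤ L₀ ∧ ∀ x : ℝ, 0 < x → L₀ ≤ Real.log x → ∀ l : ℕ,
      (l : ℝ) + r + 2 ≤ (1 - η) * KK c (Real.log x) →
      c₁ * (G c x / x ^ (l + r)) ≤ |iteratedDeriv l (H c β) x| / l.factorial ∧
      |iteratedDeriv l (H c β) x| / l.factorial ≤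
        c₂ * (G c x / x ^ l) * Real.exp (2 * KK c (Real.log x)) := by
  obtain ⟨m, hmr, hm, hm0⟩ := Hl_moment β hβ
  obtain ⟨b, hb⟩ : ∃ b : ℝ, b = |∑ j : Fin (r + 1), β j * (j.1 : ℝ) ^ m| := ⟨_, rfl⟩
  have hb0 : 0 < b := by rw [hb]; exact abs_pos.2 hm
  obtain ⟨L₁, hL₁, h1⟩ := dtwo hc0 hc1 hη0 hη1
  obtain ⟨L₂, hL₂, h2⟩ := dstep hc0 hc1 hη0 hη1 (r + 1)
  obtain ⟨B, hB⟩ : ∃ B : ℝ, B = (∑ j, |β j|) * ((r + 1 : ℕ) : ℝ) ^ (m + 1) := ⟨_, rfl⟩
  have hB0 : 0 ≤ B := by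
    rw [hB]
    exact mul_nonneg (Finset.sum_nonneg fun _ _ => abs_nonneg _) (by positivity)
  have hmf : (0 : ℝ) < m.factorial := by exact_mod_cast Nat.factorial_pos m
  refine ⟨b / m.factorial / 4, 9 / 4 * b, max (max L₁ L₂) (max 1 (240 * B * m.factorial / b)),
    by positivity, by positivity, (le_max_left _ _).trans (le_max_right _ _), ?_⟩
  intro x hx hLx l hl
  have hLx1 : L₁ ≤ Real.log x := (le_max_left _ _).trans ((le_max_left _ _).trans hLx)
  have hLx2 : L₂ ≤ Real.log x := (le_max_right _ _).trans ((le_max_left _ _).trans hLx)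
  have hLx3 : 1 ≤ Real.log x := (le_max_left _ _).trans ((le_max_right _ _).trans hLx)
  have hLx4 : 240 * B * m.factorial / b ≤ Real.log x :=
    (le_max_right _ _).trans ((le_max_right _ _).trans hLx)
  obtain ⟨L, hL⟩ : ∃ L, L = Real.log x := ⟨_, rfl⟩
  rw [← hL] at hLx3 hLx4 hl ⊢
  have hL0 : 0 < L := by linarith
  have hx1 : 1 < x := by
    rw [← Real.log_pos_iff hx.le, ← hL]
    exact hL0
  obtain ⟨K, hK⟩ : ∃ K, K = KK c L := ⟨_, rfl⟩
  rw [← hK] at hl ⊢
  have hK0 : 0 < K := by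
    rw [hK]
    unfold KK
    positivity
  have hmr' : (m : ℝ) ≤ r := by exact_mod_cast hmr
  have hlm : ((l + m : ℕ) : ℝ) + 1 ≤ (1 - η) * K := by
    push_cast
    linarith
  have hlm2 : ((l + m : ℕ) : ℝ) ≤ (1 - η) * K := by linarith
  have hlmK : ((l + m : ℕ) : ℝ) ≤ K := by
    have : (1 - η) * K ≤ K := by nlinarith
    linarith
  -- the derivative of G
  obtain ⟨g, hg⟩ : ∃ g : ℝ, g = iteratedDeriv (l + m) (G c) x := ⟨_, rfl⟩
  have hstep : ∀ ξ ∈ Set.Icc x (x + ((r + 1 : ℕ) : ℝ)), 0 < g ∧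
      0 < iteratedDeriv (l + m + 1) (G c) ξ ∧
      iteratedDeriv (l + m + 1) (G c) ξ ≤ 30 * K / x * g := by
    intro ξ hξ
    have := h2 x hx hLx2 (l + m) (by rw [← hL, ← hK]; exact hlm) ξ hξ
    rw [← hL, ← hK, ← hg] at this
    exact this
  have hg0 : 0 < g := (hstep x ⟨le_rfl, by
    have : (0 : ℝ) ≤ ((r + 1 : ℕ) : ℝ) := Nat.cast_nonneg _
    linarith⟩).1
  have hT := Hl_taylor c β hm0 hx1 l (C := 30 * K / x * g) (fun y hy => by
    rw [abs_of_pos (hstep y hy).2.1]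
    exact (hstep y hy).2.2)
  rw [← hB, ← hg] at hT
  have hKx : K / x ≤ 4 / L := by
    rw [hK]
    exact Hl_small hc0 hc1 hLx3 hx hL
  have herr : B * (30 * K / x * g) ≤ b / m.factorial / 2 * g := by
    have e1 : B * (30 * (4 / L)) ≤ b / m.factorial / 2 := by
      rw [div_le_iff₀ hb0] at hLx4
      rw [div_div, mul_div_assoc', mul_div_assoc', div_le_div_iff₀ hL0 (by positivity)]
      nlinarith
    calc B * (30 * K / x * g) = B * (30 * (K / x)) * g := by ring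
      _ ≤ B * (30 * (4 / L)) * g := by gcongr
      _ ≤ b / m.factorial / 2 * g := by gcongr
  have hmain : |(∑ j : Fin (r + 1), β j * (j.1 : ℝ) ^ m) / m.factorial * g| =
      b / m.factorial * g := by
    rw [abs_mul, abs_div, ← hb, abs_of_pos hmf, abs_of_pos hg0]
  have hlow : b / m.factorial / 2 * g ≤ |iteratedDeriv l (H c β) x| := by
    have h3 := abs_sub_abs_le_abs_sub
      ((∑ j : Fin (r + 1), β j * (j.1 : ℝ) ^ m) / m.factorial * g) (iteratedDeriv l (H c β) x)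
    rw [abs_sub_comm, hmain] at h3
    have h4 : b / m.factorial / 2 * g + b / m.factorial / 2 * g = b / m.factorial * g := by ring
    linarith
  have hupp : |iteratedDeriv l (H c β) x| ≤ 3 / 2 * (b / m.factorial) * g := by
    have h3 := abs_sub_abs_le_abs_sub (iteratedDeriv l (H c β) x)
      ((∑ j : Fin (r + 1), β j * (j.1 : ℝ) ^ m) / m.factorial * g)
    rw [hmain] at h3
    have h4 : b / m.factorial * g + b / m.factorial / 2 * g = 3 / 2 * (b / m.factorial) * g := by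
      ring
    linarith
  -- the size of g
  obtain ⟨q, hq⟩ : ∃ q : ℝ, q = (descPochhammer ℝ (l + m)).eval K := ⟨_, rfl⟩
  have hd := h1 x hx hLx1 (l + m) (by rw [← hL, ← hK]; exact hlm2)
  rw [← hL, ← hK, ← hq, ← hg] at hd
  obtain ⟨hd1, hd2⟩ := hd
  have hq1 : ((l + m).factorial : ℝ) ≤ q := by rw [hq]; exact poch_fact hlmK
  have hq2 : q ≤ K ^ (l + m) := by rw [hq]; exact poch_le hlmK
  have hG0 : 0 < G c x := Real.exp_pos _
  have hlf : (0 : ℝ) < l.factorial := by exact_mod_cast Nat.factorial_pos l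
  have hxlm : 0 < x ^ (l + m) := by positivity
  constructor
  · rw [le_div_iff₀ hlf]
    refine le_trans ?_ hlow
    have e1 : G c x * (l.factorial : ℝ) / (2 * x ^ (l + m)) ≤ g := by
      rw [div_le_iff₀ (by positivity)]
      have e2 : (l.factorial : ℝ) ≤ q := by
        refine le_trans ?_ hq1
        exact_mod_cast Nat.factorial_le (Nat.le_add_right l m)
      have e3 : G c x * (l.factorial : ℝ) ≤ G c x * q := by gcongr
      linarith
    have e4 : G c x / x ^ (l + r) ≤ G c x / x ^ (l + m) := by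
      apply div_le_div_of_nonneg_left hG0.le hxlm
      exact pow_le_pow_right₀ hx1.le (by omega)
    calc b / m.factorial / 4 * (G c x / x ^ (l + r)) * l.factorial
        ≤ b / m.factorial / 4 * (G c x / x ^ (l + m)) * l.factorial := by gcongr
      _ = b / m.factorial / 2 * (G c x * (l.factorial : ℝ) / (2 * x ^ (l + m))) := by
          field_simp
          ring
      _ ≤ b / m.factorial / 2 * g := by gcongr
  · rw [div_le_iff₀ hlf]
    refine hupp.trans ?_
    have e1 : g ≤ 3 / 2 * (G c x / x ^ (l + m) * K ^ (l + m)) := by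
      have e2 : x ^ (l + m) * g ≤ 3 / 2 * (G c x * K ^ (l + m)) := by
        refine hd2.trans ?_
        gcongr
      have e3 : 3 / 2 * (G c x / x ^ (l + m) * K ^ (l + m)) =
          3 / 2 * (G c x * K ^ (l + m)) / x ^ (l + m) := by ring
      rw [e3, le_div_iff₀ hxlm]
      linarith
    have e2 : K ^ l ≤ l.factorial * Real.exp K := by
      have := Real.pow_div_factorial_le_exp K hK0.le l
      rw [div_le_iff₀ hlf] at this
      linarith
    have e3 : K ^ m ≤ m.factorial * Real.exp K := by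
      have := Real.pow_div_factorial_le_exp K hK0.le m
      rw [div_le_iff₀ hmf] at this
      linarith
    have e4 : G c x / x ^ (l + m) ≤ G c x / x ^ l := by
      apply div_le_div_of_nonneg_left hG0.le (by positivity)
      exact pow_le_pow_right₀ hx1.le (by omega)
    have e5 : Real.exp (2 * K) = Real.exp K * Real.exp K := by
      rw [← Real.exp_add]
      congr 1
      ring
    have hE := Real.exp_pos K
    have e6 : K ^ (l + m) ≤ (l.factorial * Real.exp K) * (m.factorial * Real.exp K) := by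
      rw [pow_add]
      exact mul_le_mul e2 e3 (by positivity) (by positivity)
    have e7 : G c x / x ^ (l + m) * K ^ (l + m) ≤ G c x / x ^ l *
          ((l.factorial * Real.exp K) * (m.factorial * Real.exp K)) :=
      mul_le_mul e4 e6 (by positivity) (by positivity)
    calc 3 / 2 * (b / m.factorial) * g
        ≤ 3 / 2 * (b / m.factorial) * (3 / 2 * (G c x / x ^ (l + m) * K ^ (l + m))) := by gcongr
      _ ≤ 3 / 2 * (b / m.factorial) * (3 / 2 * (G c x / x ^ l *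
          ((l.factorial * Real.exp K) * (m.factorial * Real.exp K)))) := by
          have e8 : 0 ≤ 3 / 2 * (b / m.factorial) := by positivity
          exact mul_le_mul_of_nonneg_left (by linarith) e8
      _ = 9 / 4 * b * (G c x / x ^ l) * Real.exp (2 * K) * l.factorial := by
          rw [e5]
          field_simp
          ring

end Pool.Agent.VINO
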