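import Pool.Agent.VINO.KDefs

/-!
# VINO / KBas: basic facts on the types `TypP`, `TypK`

Notation: `𝒜_n = 𝒜.comap T^[n]`. PROOFS.  `comap_anti`: `𝒜.comap T ≤ 𝒜`, so `𝒜_(n+1) = (𝒜.comap T).comap T^[n] ≤ 𝒜_n`
(`MeasurableSpace.comap_comp`, `Function.iterate_succ'`). `tail_comp`: `f` is `𝒜_(n)`-measurable for all `n`, so `f ∘ T^[s]` is
`𝒜_(n+s)`-measurable for all `n` and `𝒜_(n + s) ≤ 𝒜_n`.
`comp_comap`: `R` measurable for `𝒜_(p+d) = (𝒜_p).comap T^[d]` and bounded is `R' ∘ T^[d]` with `R'` bounded and `𝒜_p`-measurable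
(search: a function measurable with respect to `comap g` factors through `g`; then truncate `R'` outside the ball of
radius `M`).
`typK_mono`: `f ∘ T^[k+d] = (f ∘ T^[k]) ∘ T^[d]` is `𝒜_d`-measurable, so `𝒜`-measurable. For `R` bounded and `𝒜_(p+d)`-measurable write
`R = R' ∘ T^[d]`; `∫ f (T^[k] (T^[d] x)) R' (T^[d] x) dμ = ∫ f (T^[k] x) R' x dμ = 0`. And for `p ≤ p'`: `𝒜_(p') ≤ 𝒜_p`.
-/

set_option autoImplicit false

namespace Pool.Agent.VINO

open MeasureTheory Filter Topology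

private theorem kb_iter {X : Type*} (T : X → X) (𝒜 : MeasurableSpace X) (p d : ℕ) :
    (𝒜.comap T^[p]).comap T^[d] = 𝒜.comap T^[p + d] := by
  rw [MeasurableSpace.comap_comp, Function.iterate_add]

private theorem kb_comp {X : Type*} {T : X → X} {𝒜 : MeasurableSpace X} (p d : ℕ) {f : X → ℂ}
    (hf : Measurable[𝒜.comap T^[p]] f) : Measurable[𝒜.comap T^[p + d]] fun x => f (T^[d] x) := by
  rw [← kb_iter]
  exact Measurable.comp hf (comap_measurable T^[d])

theorem comap_anti {X : Type*} {T : X → X} {𝒜 : MeasurableSpace X} (hA : 𝒜.comap T ≤ 𝒜)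
    {m n : ℕ} (h : m ≤ n) : 𝒜.comap T^[n] ≤ 𝒜.comap T^[m] := by
  induction n, h using Nat.le_induction with
  | base => exact le_rfl
  | succ n _ ih =>
    refine le_trans ?_ ih
    rw [add_comm n 1, ← kb_iter, Function.iterate_one]
    exact MeasurableSpace.comap_mono hA

theorem tail_comp {X : Type*} {T : X → X} {𝒜 : MeasurableSpace X} (hA : 𝒜.comap T ≤ 𝒜)
    {f : X → ℂ} (hf : Measurable[tailA T 𝒜] f) (s n : ℕ) :
    Measurable[𝒜.comap T^[n]] fun x => f (T^[s] x) := by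
  have h1 : Measurable[𝒜.comap T^[n]] f := hf.mono (iInf_le _ n) le_rfl
  exact (kb_comp n s h1).mono (comap_anti hA (Nat.le_add_right n s)) le_rfl

theorem comp_comap {X : Type*} {T : X → X} {𝒜 : MeasurableSpace X} (p d : ℕ) {R : X → ℂ}
    (hR : Measurable[𝒜.comap T^[p + d]] R) (hb : ∃ M : ℝ, ∀ x, ‖R x‖ ≤ M) :
    ∃ R' : X → ℂ, Measurable[𝒜.comap T^[p]] R' ∧ (∃ M : ℝ, ∀ x, ‖R' x‖ ≤ M) ∧
      ∀ x, R x = R' (T^[d] x) := by
  rw [← kb_iter] at hR
  obtain ⟨h, hm, hh⟩ := @Measurable.exists_eq_measurable_comp X X ℂ (𝒜.comap T^[p]) T^[d] R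
    _ _ _ hR
  obtain ⟨M, hM⟩ := hb
  classical
  refine ⟨fun x => if ‖h x‖ ≤ M then h x else 0, ?_, ⟨max M 0, fun x => ?_⟩, fun x => ?_⟩
  · have hset : MeasurableSet[𝒜.comap T^[p]] {x | ‖h x‖ ≤ M} := by
      have h2 : MeasurableSet {w : ℂ | ‖w‖ ≤ M} := measurableSet_le measurable_norm measurable_const
      exact hm h2
    letI : MeasurableSpace X := 𝒜.comap T^[p]
    exact Measurable.ite hset hm measurable_const
  · beta_reduce
    split_ifs with h1
    · exact h1.trans (le_max_left _ _)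
    · rw [norm_zero]
      exact le_max_right _ _
  · have h1 : R x = h (T^[d] x) := by
      rw [hh]
      rfl
    have h2 : ‖h (T^[d] x)‖ ≤ M := by
      rw [← h1]
      exact hM x
    beta_reduce
    rw [if_pos h2]
    exact h1

theorem typK_mono {X : Type*} {𝒜 : MeasurableSpace X} [m : MeasurableSpace X]
    {μ : Measure X} {T : X → X} (hT : MeasurePreserving T μ μ) (h𝒜 : 𝒜 ≤ m) (hA : 𝒜.comap T ≤ 𝒜)
    {k p k' p' : ℕ} {f : X → ℂ} (hf : TypK T 𝒜 μ k p f) (hk : k ≤ k') (hp : p + (k' - k) ≤ p') :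
    TypK T 𝒜 μ k' p' f := by
  obtain ⟨hb, hm, ho⟩ := hf
  obtain ⟨d, rfl⟩ := Nat.exists_eq_add_of_le hk
  have hd : p + d ≤ p' := by omega
  have hle : ∀ q, 𝒜.comap T^[q] ≤ 𝒜 := by
    intro q
    have := comap_anti hA (Nat.zero_le q)
    rwa [Function.iterate_zero, MeasurableSpace.comap_id] at this
  refine ⟨hb, ?_, fun R hR hRb => ?_⟩
  · have h1 : Measurable[𝒜.comap T^[0]] fun x => f (T^[k] x) := by
      rw [Function.iterate_zero, MeasurableSpace.comap_id]
      exact hm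
    have h2 := kb_comp 0 d h1
    rw [zero_add] at h2
    have h3 : (fun x => f (T^[k + d] x)) = fun x => f (T^[k] (T^[d] x)) := by
      funext x
      rw [Function.iterate_add_apply]
    rw [h3]
    exact h2.mono (hle d) le_rfl
  · obtain ⟨R', hR1, hR2, hR3⟩ := comp_comap p d (hR.mono (comap_anti hA hd) le_rfl) hRb
    have h0 := ho R' hR1 hR2
    have hTd := hT.iterate d
    have hmeas : Measurable fun y => f (T^[k] y) * R' y := by
      refine Measurable.mul (hb.1.comp (hT.measurable.iterate k)) ?_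
      exact hR1.mono ((hle p).trans h𝒜) le_rfl
    have h1 : ∫ x, f (T^[k] (T^[d] x)) * R' (T^[d] x) ∂μ = 0 := by
      have h2 := integral_map (μ := μ) hTd.measurable.aemeasurable
        (f := fun y => f (T^[k] y) * R' y) hmeas.aestronglyMeasurable
      rw [hTd.map_eq] at h2
      rw [← h2]
      exact h0
    rw [← h1]
    refine integral_congr_ae (Filter.Eventually.of_forall fun x => ?_)
    beta_reduce
    rw [Function.iterate_add_apply, hR3]

end Pool.Agent.VINO
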