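import Pool.Agent.VINO.KAvg
import Pool.Agent.VINO.KDen
import Pool.Agent.VINO.EMain
import Pool.Agent.VINO.EFin
import Pool.Agent.VINO.ENil

/-!
# VINO / KFin: relative K-extensions of pro-nilsystems

PROOFS.  `tail_nil` (the product formula for functions of type `P`): `ext_main` with `V` = the bounded functions measurable with
respect to some `ℱ i`, `W` = the functions of type `P`. A tuple from `V` is measurable with respect to one `ℱ i` (`hmono`), so
`nil_factor` applies. Density: approximate a bounded `tailA T 𝒜`-measurable function in `L²` by a simple function (linear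
combination of indicators of sets of the tail), and the sets by sets of `ℱ i` (`hP`).
`red_main`: `ext_main` with `V` = functions of type `P` or of type `K` (for some `k`, `p`), `W` = bounded measurable functions; density by
`kden`. For a tuple from `V`: if all are of type `P` use `hPP`. Otherwise make `k`, `p` common (`typK_mono`, maxima over the finite
set), `kavg` gives: the averages of the products tend to `0`; the averages of each single `f j` of type `K` tend to `0` (`kavg` with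
`r = 0`), and those of type `P` converge (`hPP` with `r = 0`); the product of the limits contains a factor `0`. (If `f j` is of both
types it does not matter.)
`relK_main`: `red_main`, `tail_nil`, and `fs_of_prd` (`mono p ∘ f` is bounded and measurable).
-/

set_option autoImplicit false

namespace Pool.Agent.VINO

open MeasureTheory Filter Topology

universe u v

/-- Approximation of bounded functions which are measurable with respect to a sub-`σ`-algebra by
linear combinations of the indicators of a class of sets which approximates it. -/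
private theorem dens {X : Type*} (𝒯 : MeasurableSpace X) [m : MeasurableSpace X] (μ : Measure X)
    [IsProbabilityMeasure μ] (h𝒯 : 𝒯 ≤ m) (𝒮 : Set (Set X)) (hS : ∀ B ∈ 𝒮, MeasurableSet B)
    (happ : ∀ A, MeasurableSet[𝒯] A → ∀ ε : ENNReal, 0 < ε → ∃ B ∈ 𝒮, μ (symmDiff A B) ≤ ε)
    (f : X → ℂ) (hf : Measurable[𝒯] f) (hb : ∃ M : ℝ, ∀ x, ‖f x‖ ≤ M) (ε : ℝ) (hε : 0 < ε) :
    ∃ h ∈ Submodule.span ℂ {g : X → ℂ | ∃ B ∈ 𝒮, g = B.indicator fun _ => 1},
      ∫ x, ‖f x - h x‖ ^ 2 ∂μ ≤ ε := by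
  classical
  obtain ⟨M, hM⟩ := hb
  obtain ⟨n, hn⟩ := exists_nat_ge (16 / ε)
  have hn0 : (0 : ℝ) < n := lt_of_lt_of_le (by positivity) hn
  obtain ⟨q, hq⟩ : ∃ q : X → ℤ × ℤ, ∀ x, q x = (⌊(n : ℝ) * (f x).re⌋, ⌊(n : ℝ) * (f x).im⌋) :=
    ⟨_, fun _ => rfl⟩
  obtain ⟨K, hK⟩ : ∃ K : ℤ, K = ⌈(n : ℝ) * |M|⌉ := ⟨_, rfl⟩
  obtain ⟨S, hSd⟩ : ∃ S : Finset (ℤ × ℤ), S = Finset.Icc (-K) K ×ˢ Finset.Icc (-K) K := ⟨_, rfl⟩
  obtain ⟨v, hv⟩ : ∃ v : ℤ × ℤ → ℂ, ∀ p, v p = ((p.1 : ℂ) + p.2 * Complex.I) / n :=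
    ⟨_, fun _ => rfl⟩
  have hfl : ∀ y : ℝ, |y| ≤ |M| → ⌊(n : ℝ) * y⌋ ∈ Finset.Icc (-K) K := by
    intro y hy
    rw [Finset.mem_Icc]
    have h1 : (n : ℝ) * |M| ≤ K := by
      rw [hK]
      exact Int.le_ceil _
    have h2 := (abs_le.1 hy).1
    have h3 := (abs_le.1 hy).2
    constructor
    · rw [Int.le_floor]
      push_cast
      nlinarith
    · have h4 : (n : ℝ) * y ≤ K := (mul_le_mul_of_nonneg_left h3 hn0.le).trans h1
      exact_mod_cast (Int.floor_le _).trans h4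
  have hqS : ∀ x, q x ∈ S := by
    intro x
    have hM' : ‖f x‖ ≤ |M| := (hM x).trans (le_abs_self M)
    rw [hSd, hq, Finset.mem_product]
    exact ⟨hfl _ ((Complex.abs_re_le_norm _).trans hM'), hfl _ ((Complex.abs_im_le_norm _).trans hM')⟩
  have hqv : ∀ x, ‖f x - v (q x)‖ ≤ 2 / n := by
    intro x
    have hfr : ∀ y : ℝ, |y - (⌊(n : ℝ) * y⌋ : ℝ) / n| ≤ 1 / n := by
      intro y
      have h1 : y - (⌊(n : ℝ) * y⌋ : ℝ) / n = ((n : ℝ) * y - ⌊(n : ℝ) * y⌋) / n := by
        field_simp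
      rw [h1, abs_div, abs_of_pos hn0]
      refine div_le_div_of_nonneg_right ?_ hn0.le
      rw [abs_of_nonneg (sub_nonneg.2 (Int.floor_le _))]
      linarith [(Int.lt_floor_add_one ((n : ℝ) * y)).le]
    have h2 : f x - v (q x) = (((f x).re - (⌊(n : ℝ) * (f x).re⌋ : ℝ) / n : ℝ) : ℂ) +
        (((f x).im - (⌊(n : ℝ) * (f x).im⌋ : ℝ) / n : ℝ) : ℂ) * Complex.I := by
      rw [hv, hq]
      nth_rewrite 1 [← Complex.re_add_im (f x)]
      push_cast
      ring
    rw [h2]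
    refine (norm_add_le _ _).trans ?_
    rw [norm_mul, Complex.norm_I, mul_one, Complex.norm_real, Complex.norm_real,
      Real.norm_eq_abs, Real.norm_eq_abs]
    have h3 := hfr (f x).re
    have h4 := hfr (f x).im
    calc _ ≤ (1 : ℝ) / n + 1 / n := add_le_add h3 h4
      _ = 2 / n := by ring
  have hA : ∀ p : ℤ × ℤ, MeasurableSet[𝒯] {x | q x = p} := by
    intro p
    have h1 : {x | q x = p} = (fun x => ⌊(n : ℝ) * (f x).re⌋) ⁻¹' {p.1} ∩
        (fun x => ⌊(n : ℝ) * (f x).im⌋) ⁻¹' {p.2} := by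
      ext x
      simp only [Set.mem_ofPred_eq, hq, Set.mem_inter_iff, Set.mem_preimage,
        Set.mem_singleton_iff, Prod.ext_iff]
    rw [h1]
    have h2 : Measurable[𝒯] fun x => (f x).re := Complex.measurable_re.comp hf
    have h3 : Measurable[𝒯] fun x => (f x).im := Complex.measurable_im.comp hf
    have h4 : Measurable fun y : ℝ => ⌊(n : ℝ) * y⌋ :=
      Int.measurable_floor.comp (measurable_id.const_mul (n : ℝ))
    exact MeasurableSet.inter ((h4.comp h2) (MeasurableSet.singleton _))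
      ((h4.comp h3) (MeasurableSet.singleton _))
  obtain ⟨C, hC⟩ : ∃ C : ℝ, C = ∑ p ∈ S, ‖v p‖ := ⟨_, rfl⟩
  have hC0 : 0 ≤ C := by
    rw [hC]
    exact Finset.sum_nonneg fun p _ => norm_nonneg _
  obtain ⟨δ, hδ⟩ : ∃ δ : ℝ, δ = ε / (4 * (C ^ 2 + 1)) := ⟨_, rfl⟩
  have hδ0 : 0 < δ := by
    rw [hδ]
    positivity
  have hBex := fun p : ℤ × ℤ => happ _ (hA p) (ENNReal.ofReal δ) (ENNReal.ofReal_pos.2 hδ0)
  choose B hBS hBδ using hBex
  refine ⟨∑ p ∈ S, v p • (B p).indicator fun _ => 1, ?_, ?_⟩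
  · exact Submodule.sum_mem _ fun p _ => Submodule.smul_mem _ _
      (Submodule.subset_span ⟨B p, hBS p, rfl⟩)
  obtain ⟨D, hD⟩ : ∃ D : ℤ × ℤ → Set X, ∀ p, D p = symmDiff {x | q x = p} (B p) :=
    ⟨_, fun _ => rfl⟩
  have hDm : ∀ p, MeasurableSet (D p) := by
    intro p
    rw [hD]
    exact MeasurableSet.symmDiff (h𝒯 _ (hA p)) (hS _ (hBS p))
  have hDμ : ∀ p, μ.real (D p) ≤ δ := by
    intro p
    rw [hD]
    have h1 := hBδ p
    rw [Measure.real]
    exact ENNReal.toReal_le_of_le_ofReal hδ0.le h1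
  have hpt : ∀ x, ‖f x - (∑ p ∈ S, v p • (B p).indicator (fun _ => (1 : ℂ))) x‖ ^ 2 ≤
      8 / n ^ 2 + 2 * C * ∑ p ∈ S, ‖v p‖ * (D p).indicator (fun _ => (1 : ℝ)) x := by
    intro x
    have h1 : v (q x) = ∑ p ∈ S, v p * (if q x = p then 1 else 0) := by
      simp only [mul_ite, mul_one, mul_zero]
      rw [Finset.sum_ite_eq S (q x), if_pos (hqS x)]
    obtain ⟨E, hE⟩ : ∃ E : ℝ, E = ∑ p ∈ S, ‖v p‖ * (D p).indicator (fun _ => (1 : ℝ)) x :=
      ⟨_, rfl⟩
    have hE0 : 0 ≤ E := by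
      rw [hE]
      exact Finset.sum_nonneg fun p _ => mul_nonneg (norm_nonneg _)
        (Set.indicator_nonneg (fun _ _ => zero_le_one) x)
    have hEC : E ≤ C := by
      rw [hE, hC]
      refine Finset.sum_le_sum fun p _ => ?_
      have h2 : (D p).indicator (fun _ => (1 : ℝ)) x ≤ 1 :=
        Set.indicator_le_self' (fun _ _ => zero_le_one) x
      nlinarith [norm_nonneg (v p)]
    have h3 : ‖v (q x) - (∑ p ∈ S, v p • (B p).indicator (fun _ => (1 : ℂ))) x‖ ≤ E := by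
      rw [h1, Finset.sum_apply, ← Finset.sum_sub_distrib, hE]
      refine (norm_sum_le _ _).trans (Finset.sum_le_sum fun p _ => ?_)
      rw [Pi.smul_apply, smul_eq_mul, ← mul_sub, norm_mul]
      refine mul_le_mul_of_nonneg_left ?_ (norm_nonneg _)
      by_cases hx1 : q x = p
      · by_cases hx2 : x ∈ B p
        · rw [if_pos hx1, Set.indicator_of_mem hx2, sub_self, norm_zero]
          exact Set.indicator_nonneg (fun _ _ => zero_le_one) x
        · have hx3 : x ∈ D p := by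
            rw [hD, Set.mem_symmDiff]
            exact Or.inl ⟨hx1, hx2⟩
          rw [if_pos hx1, Set.indicator_of_notMem hx2, Set.indicator_of_mem hx3, sub_zero,
            norm_one]
      · by_cases hx2 : x ∈ B p
        · have hx3 : x ∈ D p := by
            rw [hD, Set.mem_symmDiff]
            exact Or.inr ⟨hx2, hx1⟩
          rw [if_neg hx1, Set.indicator_of_mem hx2, Set.indicator_of_mem hx3, zero_sub,
            norm_neg, norm_one]
        · rw [if_neg hx1, Set.indicator_of_notMem hx2, sub_self, norm_zero]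
          exact Set.indicator_nonneg (fun _ _ => zero_le_one) x
    rw [← hE]
    have h4 : ‖f x - (∑ p ∈ S, v p • (B p).indicator (fun _ => (1 : ℂ))) x‖ ≤ 2 / n + E := by
      calc _ = ‖(f x - v (q x)) +
            (v (q x) - (∑ p ∈ S, v p • (B p).indicator (fun _ => (1 : ℂ))) x)‖ := by
            congr 1
            ring
        _ ≤ _ := (norm_add_le _ _).trans (add_le_add (hqv x) h3)
    have h5 : (0 : ℝ) ≤ 2 / n := by positivity
    calc _ ≤ (2 / n + E) ^ 2 := pow_le_pow_left₀ (norm_nonneg _) h4 2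
      _ ≤ 2 * (2 / n) ^ 2 + 2 * (C * E) := by
          nlinarith [sq_nonneg ((2 : ℝ) / n - E), mul_le_mul_of_nonneg_right hEC hE0]
      _ = 8 / n ^ 2 + 2 * C * E := by ring
  have hint : ∀ p ∈ S, Integrable (fun x => ‖v p‖ * (D p).indicator (fun _ => (1 : ℝ)) x) μ :=
    fun p _ => ((integrable_const (1 : ℝ)).indicator (hDm p)).const_mul ‖v p‖
  have hint2 : Integrable (fun x => 8 / (n : ℝ) ^ 2 + 2 * C * ∑ p ∈ S, ‖v p‖ *
      (D p).indicator (fun _ => (1 : ℝ)) x) μ :=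
    (integrable_const _).add ((integrable_finsetSum _ hint).const_mul _)
  refine (integral_mono_of_nonneg (ae_of_all _ fun x => by positivity) hint2
    (ae_of_all _ hpt)).trans ?_
  rw [integral_add (integrable_const _) ((integrable_finsetSum _ hint).const_mul _),
    integral_const, probReal_univ, one_smul, integral_const_mul, integral_finsetSum _ hint]
  have h6 : ∑ p ∈ S, ∫ x, ‖v p‖ * (D p).indicator (fun _ => (1 : ℝ)) x ∂μ ≤ C * δ := by
    rw [hC, Finset.sum_mul]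
    refine Finset.sum_le_sum fun p _ => ?_
    rw [integral_const_mul, integral_indicator (hDm p), setIntegral_const, smul_eq_mul, mul_one]
    exact mul_le_mul_of_nonneg_left (hDμ p) (norm_nonneg _)
  have h7 : 8 / (n : ℝ) ^ 2 ≤ ε / 2 := by
    rw [div_le_iff₀ hε] at hn
    rw [div_le_iff₀ (by positivity)]
    have h8 : (1 : ℝ) ≤ n := by
      have : 0 < n := by exact_mod_cast hn0
      exact_mod_cast this
    nlinarith
  have h9 : 2 * C * (C * δ) ≤ ε / 2 := by
    rw [hδ]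
    have h10 : 2 * C * (C * (ε / (4 * (C ^ 2 + 1)))) = ε / 2 * (C ^ 2 / (C ^ 2 + 1)) := by
      field_simp
      ring
    rw [h10]
    have h11 : C ^ 2 / (C ^ 2 + 1) ≤ 1 := by
      rw [div_le_one (by positivity)]
      linarith
    nlinarith
  have h12 : 2 * C * ∑ p ∈ S, ∫ x, ‖v p‖ * (D p).indicator (fun _ => (1 : ℝ)) x ∂μ ≤
      2 * C * (C * δ) := mul_le_mul_of_nonneg_left h6 (by positivity)
  linarith

theorem tail_nil {c : ℝ} (hc0 : 0 < c) (hc1 : c < 1 / 2) {X : Type u} {𝒜 : MeasurableSpace X}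
    (ℱ : ℕ → MeasurableSpace X) [m : MeasurableSpace X] {μ : Measure X}
    [IsProbabilityMeasure μ] {T : X → X} (hT : MeasurePreserving T μ μ) (h𝒜 : 𝒜 ≤ m)
    (hmono : Monotone ℱ) (hnil : ∀ i, NilFactor.{u, v} T (ℱ i) μ)
    (hP : ∀ A : Set X, MeasurableSet[tailA T 𝒜] A → ∀ ε : ENNReal, 0 < ε →
      ∃ i, ∃ B : Set X, MeasurableSet[ℱ i] B ∧ μ (symmDiff A B) ≤ ε)
    (r : ℕ) (f : Fin (r + 1) → X → ℂ) (hf : ∀ j, TypP T 𝒜 (f j)) : Prd c μ T f := by
  have htm : tailA T 𝒜 ≤ m := by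
    refine le_trans (iInf_le (fun n : ℕ => 𝒜.comap T^[n]) 0) ?_
    rw [Function.iterate_zero, MeasurableSpace.comap_id]
    exact h𝒜
  have hℱ : ∀ i, ℱ i ≤ m := by
    intro i
    obtain ⟨G', _, _, _, Γ, _, _, _, _, ν, _, _, g, π, _, hπ, _, hF⟩ := hnil i
    rw [hF]
    exact hπ.measurable.comap_le
  refine ext_main hc0 hc1 μ T hT {h : X → ℂ | Bdd h ∧ ∃ i, Measurable[ℱ i] h}
    {h : X → ℂ | TypP T 𝒜 h} ?_ (fun h hh => hh.1) (fun h hh => hh.1) ?_ ?_ r f hf
  · exact ⟨fun _ => 0, ⟨measurable_const, 0, fun x => by rw [norm_zero]⟩, 0,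
      @measurable_const _ _ _ (ℱ 0) 0⟩
  · intro f hf ε hε
    obtain ⟨h, hh, hhε⟩ := dens (tailA T 𝒜) μ htm {B : Set X | ∃ i, MeasurableSet[ℱ i] B}
      (fun B hB => by
        obtain ⟨i, hi⟩ := hB
        exact hℱ i B hi)
      (fun A hA ε hε => by
        obtain ⟨i, B, hB, hAB⟩ := hP A hA ε hε
        exact ⟨B, ⟨i, hB⟩, hAB⟩) f hf.2 hf.1.2 ε hε
    refine ⟨h, ?_, hhε⟩
    refine Submodule.span_mono ?_ hh
    rintro g ⟨B, ⟨i, hB⟩, rfl⟩
    refine ⟨⟨measurable_const.indicator (hℱ i B hB), 1, fun x => ?_⟩, i, ?_⟩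
    · by_cases hx : x ∈ B
      · rw [Set.indicator_of_mem hx, norm_one]
      · rw [Set.indicator_of_notMem hx, norm_zero]
        exact zero_le_one
    · exact Measurable.indicator (@measurable_const _ _ _ (ℱ i) 1) hB
  · intro r f hf
    choose ii hii using fun j => (hf j).2
    exact nil_factor hc0 hc1 (ℱ (Finset.univ.sup ii)) μ T hT (hnil _) f fun j =>
      ⟨(hf j).1, (hii j).mono (hmono (Finset.le_sup (Finset.mem_univ j))) le_rfl⟩

theorem red_main {c : ℝ} (hc0 : 0 < c) (hc1 : c < 1 / 2) {X : Type*} {𝒜 : MeasurableSpace X}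
    [m : MeasurableSpace X] {μ : Measure X} [IsProbabilityMeasure μ] {T : X → X}
    (hT : MeasurePreserving T μ μ) (h𝒜 : 𝒜 ≤ m) (hA : 𝒜.comap T ≤ 𝒜) (hgen : GenA T 𝒜 μ)
    (hPP : ∀ (r : ℕ) (f : Fin (r + 1) → X → ℂ), (∀ j, TypP T 𝒜 (f j)) → Prd c μ T f)
    (r : ℕ) (f : Fin (r + 1) → X → ℂ) (hf : ∀ j, Bdd (f j)) : Prd c μ T f := by
  refine ext_main hc0 hc1 μ T hT {h : X → ℂ | TypP T 𝒜 h ∨ ∃ k p, TypK T 𝒜 μ k p h}
    {h : X → ℂ | Bdd h} ?_ ?_ (fun h hh => hh) ?_ ?_ r f hf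
  · exact ⟨fun _ => 0, Or.inl ⟨⟨measurable_const, 0, fun x => by rw [norm_zero]⟩,
      @measurable_const _ _ _ (tailA T 𝒜) 0⟩⟩
  · rintro h (hh | ⟨k, p, hh⟩)
    · exact hh.1
    · exact hh.1
  · intro f hf ε hε
    obtain ⟨u, v, hu, hv, huv⟩ := kden hT h𝒜 hA hgen f hf ε hε
    exact ⟨u + v, add_mem (Submodule.subset_span (Or.inl hu))
      (Submodule.subset_span (Or.inr hv)), huv⟩
  · intro r f hf
    by_cases hall : ∀ j, TypP T 𝒜 (f j)
    · exact hPP r f hall
    · push Not at hall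
      obtain ⟨j₀, hj₀⟩ := hall
      have hex : ∀ j, ∃ q : ℕ × ℕ, TypP T 𝒜 (f j) ∨ TypK T 𝒜 μ q.1 q.2 (f j) := by
        intro j
        rcases hf j with h | ⟨k, p, h⟩
        · exact ⟨(0, 0), Or.inl h⟩
        · exact ⟨(k, p), Or.inr h⟩
      choose q hq using hex
      obtain ⟨k, hk⟩ : ∃ k, k = ∑ j, (q j).1 := ⟨_, rfl⟩
      obtain ⟨p, hp⟩ : ∃ p, p = k + ∑ j, (q j).2 := ⟨_, rfl⟩
      have hkp : ∀ j, TypP T 𝒜 (f j) ∨ TypK T 𝒜 μ k p (f j) := by
        intro j
        rcases hq j with h | h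
        · exact Or.inl h
        · refine Or.inr (typK_mono hT h𝒜 hA h ?_ ?_)
          · rw [hk]
            exact Finset.single_le_sum (f := fun j => (q j).1) (fun _ _ => Nat.zero_le _)
              (Finset.mem_univ j)
          · have h1 : (q j).2 ≤ ∑ j, (q j).2 :=
              Finset.single_le_sum (f := fun j => (q j).2) (fun _ _ => Nat.zero_le _)
                (Finset.mem_univ j)
            omega
      have hj₀K : TypK T 𝒜 μ k p (f j₀) := (hkp j₀).resolve_left hj₀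
      have hc1' : c < 1 := by linarith
      have h0 := kavg hc0 hc1' hT h𝒜 hA f k p hkp ⟨j₀, hj₀K⟩
      have hKj : ∀ j, TypK T 𝒜 μ k p (f j) →
          ∀ᵐ x ∂μ, Tendsto (fun N => av N fun n => f j (T^[a c n] x)) atTop (𝓝 0) := by
        intro j hj
        have h1 := kavg hc0 hc1' hT h𝒜 hA (r := 0) (fun _ => f j) k p (fun _ => Or.inr hj)
          ⟨0, hj⟩
        filter_upwards [h1] with x hx
        have h2 : (fun N => av N fun n => ∏ i : Fin (0 + 1), f j (T^[a c (n + i.1)] x)) =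
            fun N => av N fun n => f j (T^[a c n] x) := by
          funext N
          congr 1
          funext n
          exact Fin.prod_univ_one _
        rw [h2] at hx
        exact hx
      have hj : ∀ j, ∀ᵐ x ∂μ, ∃ l, Tendsto (fun N => av N fun n => f j (T^[a c n] x)) atTop
          (𝓝 l) := by
        intro j
        rcases hkp j with h | h
        · have h1 := hPP 0 (fun _ => f j) fun _ => h
          filter_upwards [h1] with x hx
          obtain ⟨l, hl, _⟩ := hx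
          exact ⟨l 0, hl 0⟩
        · filter_upwards [hKj j h] with x hx
          exact ⟨0, hx⟩
      have h3 := ae_all_iff.2 hj
      filter_upwards [h0, hKj j₀ hj₀K, h3] with x hx0 hxj₀ hx3
      choose l hl using hx3
      have hl0 : l j₀ = 0 := tendsto_nhds_unique (hl j₀) hxj₀
      refine ⟨l, hl, ?_⟩
      rw [Finset.prod_eq_zero (Finset.mem_univ j₀) hl0]
      exact hx0

theorem relK_main {c : ℝ} (hc0 : 0 < c) (hc1 : c < 1 / 2) {X : Type u} {𝒜 : MeasurableSpace X}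
    (ℱ : ℕ → MeasurableSpace X) [m : MeasurableSpace X] {μ : Measure X}
    [IsProbabilityMeasure μ] {T : X → X} (hT : MeasurePreserving T μ μ) (h𝒜 : 𝒜 ≤ m)
    (hA : 𝒜.comap T ≤ 𝒜) (hgen : GenA T 𝒜 μ) (hmono : Monotone ℱ)
    (hnil : ∀ i, NilFactor.{u, v} T (ℱ i) μ)
    (hP : ∀ A : Set X, MeasurableSet[tailA T 𝒜] A → ∀ ε : ENNReal, 0 < ε →
      ∃ i, ∃ B : Set X, MeasurableSet[ℱ i] B ∧ μ (symmDiff A B) ≤ ε)
    (f : X → ℂ) (hf : Bdd f) :
    ∀ᵐ x ∂μ, HasBernoulliFS fun n => f (T^[a c n] x) := by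
  refine fs_of_prd μ T f hf fun r p => ?_
  refine red_main hc0 hc1 hT h𝒜 hA hgen (fun r f hf => tail_nil.{u, v} hc0 hc1 ℱ hT h𝒜 hmono hnil hP r f hf)
    r _ fun j => ?_
  obtain ⟨hfm, M, hM⟩ := hf
  refine ⟨(mono (p j)).continuous.measurable.comp hfm, M ^ (p j).1 * M ^ (p j).2, fun x => ?_⟩
  change ‖f x ^ (p j).1 * (starRingEnd ℂ (f x)) ^ (p j).2‖ ≤ _
  rw [norm_mul, norm_pow, norm_pow, RCLike.norm_conj]
  have hM0 : 0 ≤ M := (norm_nonneg _).trans (hM x)
  exact mul_le_mul (pow_le_pow_left₀ (norm_nonneg _) (hM x) _)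
    (pow_le_pow_left₀ (norm_nonneg _) (hM x) _) (by positivity) (by positivity)

end Pool.Agent.VINO
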