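import Pool.Agent.VINO.KBas

/-!
# VINO / KOrth: orthogonality

PROOF.  `𝒜_n = 𝒜.comap T^[n]`, `q = s j₀ - k`. `f j₀ (T^[s j₀] x) = (f j₀ ∘ T^[k]) (T^[q] x)`. The other factors of the integrand form a
bounded `𝒜_(q+p)`-measurable function `R`: for `i < j₀` (both products) `f i` is `TypP`: `tail_comp`. For `i > j₀` in the first product:
`TypP`: `tail_comp`; `TypK`: `f i (T^[s i] x) = (f i ∘ T^[k]) (T^[s i - k] x)` is `𝒜_(s i - k)`-measurable and `s i - k ≥ q + p`
(`comap_anti`). For `i ≥ j₀` in the second product the same with `s' i - k ≥ q + p`. (Conjugates and finite products of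
measurable functions are measurable.) By `comp_comap` `R = R' ∘ T^[q]` with `R'` bounded and `𝒜_p`-measurable, so the
integral is `∫ (f j₀ ∘ T^[k]) (T^[q] x) R' (T^[q] x) dμ = ∫ f j₀ (T^[k] x) R' x dμ = 0`.
-/

set_option autoImplicit false

namespace Pool.Agent.VINO

open MeasureTheory Filter Topology

private theorem ko_R {X ι : Type*} [MeasurableSpace X] (S S' : Finset ι) (g g' : ι → X → ℂ)
    (h : ∀ i ∈ S, Measurable (g i)) (h' : ∀ i ∈ S', Measurable (g' i)) :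
    Measurable (fun x => (∏ i ∈ S, g i x) * (starRingEnd ℂ) (∏ i ∈ S', g' i x)) := by
  apply Measurable.mul
  · exact Finset.measurable_prod S h
  · exact Complex.continuous_conj.measurable.comp (Finset.measurable_prod S' h')

private theorem ko_bdd {X ι : Type*} [MeasurableSpace X] (S S' : Finset ι) (g g' : ι → X → ℂ)
    (h : ∀ i, ∃ M : ℝ, ∀ x, ‖g i x‖ ≤ M) (h' : ∀ i, ∃ M : ℝ, ∀ x, ‖g' i x‖ ≤ M) :
    ∃ M : ℝ, ∀ x, ‖(∏ i ∈ S, g i x) * (starRingEnd ℂ) (∏ i ∈ S', g' i x)‖ ≤ M := by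
  choose M hM using h
  choose M' hM' using h'
  refine ⟨(∏ i ∈ S, |M i|) * ∏ i ∈ S', |M' i|, fun x => ?_⟩
  rw [norm_mul, RCLike.norm_conj, norm_prod, norm_prod]
  apply mul_le_mul
  · exact Finset.prod_le_prod (fun i _ => norm_nonneg _) fun i _ => (hM i x).trans (le_abs_self _)
  · exact Finset.prod_le_prod (fun i _ => norm_nonneg _) fun i _ => (hM' i x).trans (le_abs_self _)
  · exact Finset.prod_nonneg fun i _ => norm_nonneg _
  · exact Finset.prod_nonneg fun i _ => abs_nonneg _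

theorem korth {X : Type*} {𝒜 : MeasurableSpace X} [m : MeasurableSpace X] {μ : Measure X}
    [IsFiniteMeasure μ] {T : X → X} (hT : MeasurePreserving T μ μ) (h𝒜 : 𝒜 ≤ m)
    (hA : 𝒜.comap T ≤ 𝒜) {r : ℕ} (f : Fin (r + 1) → X → ℂ) (k p : ℕ) (j₀ : Fin (r + 1))
    (h0 : TypK T 𝒜 μ k p (f j₀)) (hlt : ∀ i, i < j₀ → TypP T 𝒜 (f i))
    (hgt : ∀ i, j₀ < i → TypP T 𝒜 (f i) ∨ TypK T 𝒜 μ k p (f i))
    (s s' : Fin (r + 1) → ℕ) (hs : ∀ i, k ≤ s i) (hs' : ∀ i, k ≤ s' i)
    (h1 : ∀ i, j₀ < i → s j₀ + p ≤ s i) (h2 : ∀ i, j₀ ≤ i → s j₀ + p ≤ s' i) :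
    ∫ x, (∏ i, f i (T^[s i] x)) * (starRingEnd ℂ) (∏ i, f i (T^[s' i] x)) ∂μ = 0 := by
  classical
  obtain ⟨q, hq⟩ : ∃ q, s j₀ = k + q := ⟨s j₀ - k, by have := hs j₀; omega⟩
  have hP : ∀ i, TypP T 𝒜 (f i) → ∀ t n, Measurable[𝒜.comap T^[n]] fun x => f i (T^[t] x) :=
    fun i hi t n => tail_comp hA hi.2 t n
  have hK : ∀ i, TypK T 𝒜 μ k p (f i) → ∀ t n, n + k ≤ t →
      Measurable[𝒜.comap T^[n]] fun x => f i (T^[t] x) := by
    intro i hi t n hn
    obtain ⟨d, hd⟩ : ∃ d, t = k + d := ⟨t - k, by omega⟩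
    have hdn : n ≤ d := by omega
    have e1 : (fun x => f i (T^[t] x)) = (fun y => f i (T^[k] y)) ∘ T^[d] := by
      funext x
      rw [hd, Function.iterate_add_apply]
      rfl
    rw [e1]
    have h3 : Measurable[𝒜.comap T^[d]] ((fun y => f i (T^[k] y)) ∘ T^[d]) :=
      Measurable.comp hi.2.1 (comap_measurable _)
    exact h3.mono (comap_anti hA hdn) le_rfl
  have hbd : ∀ i, ∃ M : ℝ, ∀ x, ‖f i x‖ ≤ M := by
    intro i
    rcases lt_trichotomy i j₀ with h | h | h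
    · exact (hlt i h).1.2
    · rw [h]; exact h0.1.2
    · rcases hgt i h with h' | h'
      · exact h'.1.2
      · exact h'.1.2
  have hRm : Measurable[𝒜.comap T^[p + q]] (fun x =>
      (∏ i ∈ Finset.univ.erase j₀, f i (T^[s i] x)) *
        (starRingEnd ℂ) (∏ i ∈ Finset.univ, f i (T^[s' i] x))) := by
    apply @ko_R X (Fin (r + 1)) (𝒜.comap T^[p + q]) (Finset.univ.erase j₀) Finset.univ
      (fun i x => f i (T^[s i] x)) (fun i x => f i (T^[s' i] x))
    · intro i hi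
      have hne : i ≠ j₀ := (Finset.mem_erase.1 hi).1
      rcases lt_trichotomy i j₀ with h | h | h
      · exact hP i (hlt i h) _ _
      · exact absurd h hne
      · rcases hgt i h with h' | h'
        · exact hP i h' _ _
        · exact hK i h' _ _ (by have := h1 i h; omega)
    · intro i _
      rcases lt_trichotomy i j₀ with h | h | h
      · exact hP i (hlt i h) _ _
      · exact hK i (by rw [h]; exact h0) _ _ (by have := h2 i h.ge; omega)
      · rcases hgt i h with h' | h'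
        · exact hP i h' _ _
        · exact hK i h' _ _ (by have := h2 i h.le; omega)
  have hRb := ko_bdd (Finset.univ.erase j₀) Finset.univ
      (fun i x => f i (T^[s i] x)) (fun i x => f i (T^[s' i] x))
      (fun i => by obtain ⟨M, hM⟩ := hbd i; exact ⟨M, fun x => hM _⟩)
      (fun i => by obtain ⟨M, hM⟩ := hbd i; exact ⟨M, fun x => hM _⟩)
  obtain ⟨R', hR'm, hR'b, hR'⟩ := comp_comap p q hRm hRb
  have e2 : ∀ x, (∏ i, f i (T^[s i] x)) * (starRingEnd ℂ) (∏ i, f i (T^[s' i] x)) =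
      (fun y => f j₀ (T^[k] y) * R' y) (T^[q] x) := by
    intro x
    have e3 : T^[s j₀] x = T^[k] (T^[q] x) := by rw [hq, Function.iterate_add_apply]
    rw [← Finset.mul_prod_erase Finset.univ (fun i => f i (T^[s i] x)) (Finset.mem_univ j₀),
      mul_assoc]
    show f j₀ (T^[s j₀] x) * _ = f j₀ (T^[k] (T^[q] x)) * R' (T^[q] x)
    rw [e3, ← hR' x]
  have hTq : MeasurePreserving T^[q] μ μ := hT.iterate q
  have hle : 𝒜.comap T^[p] ≤ 𝒜 := by
    have := comap_anti hA (Nat.zero_le p)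
    simpa using this
  have hF : Measurable (fun y => f j₀ (T^[k] y) * R' y) :=
    (h0.2.1.mono h𝒜 le_rfl).mul (hR'm.mono (hle.trans h𝒜) le_rfl)
  calc ∫ x, (∏ i, f i (T^[s i] x)) * (starRingEnd ℂ) (∏ i, f i (T^[s' i] x)) ∂μ
      = ∫ x, (fun y => f j₀ (T^[k] y) * R' y) (T^[q] x) ∂μ := by
        congr 1
        funext x
        exact e2 x
    _ = ∫ y, f j₀ (T^[k] y) * R' y ∂(μ.map T^[q]) :=
        (integral_map hTq.measurable.aemeasurable hF.aestronglyMeasurable).symm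
    _ = ∫ y, f j₀ (T^[k] y) * R' y ∂μ := by rw [hTq.map_eq]
    _ = 0 := h0.2.2 R' hR'm hR'b

end Pool.Agent.VINO
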