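import Pool.Agent.VMV.BilA

/-!
# VINO / MPars: Parseval, and convolutions on `ℤ`

PROOF.  `e_orth`: `∫_0^1 e(k t) dt = 1` if `k = 0` and `0` otherwise, for integers `k`.
`parseval`: for a finite set `S` of integers, `∫_0^1 ‖∑_{k ∈ S} c k e(k t)‖^2 dt = ∑_{k ∈ S} ‖c k‖^2` (expand the square).
`pars`: let `F' t = F t` for `t < I + J`, `0` otherwise (`t : ℤ`, `0` for negative `t`), and `C s = ∑_{m < J} w m F' (s + m)` for
`s : ℤ`, supported in `(-J, I + J)`. `P(θ) = ∑_t F' t e(-t θ)`, `Q(θ) = ∑_m w m e(m θ)`; then `∑_s C s e(-s θ) = Q(θ) P(θ)`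
(`s = t - m`). Parseval twice: `∑_s ‖C s‖^2 = ∫ ‖Q P‖^2 ≤ B^2 ∫ ‖P‖^2 = B^2 ∑_t ‖F' t‖^2`. For `0 ≤ s < I` and `m < J`:
`F'(s+m) = F(s+m)`. (If `B < 0` the hypothesis is contradictory; `‖Q‖ ≤ B`.)
-/

set_option autoImplicit false

namespace Pool.Agent.VINO

open Pool.Agent.VMV

private theorem mp_cont (a : ℝ) : Continuous fun t : ℝ => e (a * t) := by
  unfold e
  fun_prop

theorem e_orth (k : ℤ) : ∫ t in (0 : ℝ)..1, e (k * t) = if k = 0 then 1 else 0 := by
  by_cases hk : k = 0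
  · rw [if_pos hk, hk]
    simp [e]
  · rw [if_neg hk]
    have hc : (2 * (Real.pi : ℂ) * Complex.I * k) ≠ 0 := by
      have h1 : (Real.pi : ℂ) ≠ 0 := Complex.ofReal_ne_zero.2 Real.pi_ne_zero
      have h2 : (k : ℂ) ≠ 0 := Int.cast_ne_zero.2 hk
      have h3 := Complex.I_ne_zero
      simp only [ne_eq, mul_eq_zero, not_or]
      exact ⟨⟨⟨two_ne_zero, h1⟩, h3⟩, h2⟩
    have h1 : ∀ t : ℝ, e (k * t) = Complex.exp ((2 * (Real.pi : ℂ) * Complex.I * k) * t) := by
      intro t
      unfold e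
      congr 1
      push_cast
      ring
    simp_rw [h1]
    rw [integral_exp_mul_complex hc]
    have h2 : Complex.exp ((2 * (Real.pi : ℂ) * Complex.I * k) * ((1 : ℝ) : ℂ)) = 1 := by
      rw [← Complex.exp_int_mul_two_pi_mul_I k]
      congr 1
      push_cast
      ring
    rw [h2]
    simp

theorem parseval (S : Finset ℤ) (cc : ℤ → ℂ) :
    ∫ t in (0 : ℝ)..1, ‖∑ k ∈ S, cc k * e (k * t)‖ ^ 2 = ∑ k ∈ S, ‖cc k‖ ^ 2 := by
  have key : (((∫ t in (0 : ℝ)..1, ‖∑ k ∈ S, cc k * e (k * t)‖ ^ 2) : ℝ) : ℂ) =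
      ((∑ k ∈ S, ‖cc k‖ ^ 2 : ℝ) : ℂ) := by
    rw [← intervalIntegral.integral_ofReal]
    have h1 : ∀ t : ℝ, ((‖∑ k ∈ S, cc k * e (k * t)‖ ^ 2 : ℝ) : ℂ) =
        ∑ k ∈ S, ∑ l ∈ S, cc k * (starRingEnd ℂ) (cc l) * e (((k - l : ℤ) : ℝ) * t) := by
      intro t
      have h2 : ((‖∑ k ∈ S, cc k * e (k * t)‖ ^ 2 : ℝ) : ℂ) =
          (∑ k ∈ S, cc k * e (k * t)) * (starRingEnd ℂ) (∑ k ∈ S, cc k * e (k * t)) := by
        rw [Complex.mul_conj, Complex.normSq_eq_norm_sq]
      rw [h2, map_sum, Finset.sum_mul_sum]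
      refine Finset.sum_congr rfl fun k _ => Finset.sum_congr rfl fun l _ => ?_
      rw [map_mul, conj_e]
      have h3 : e (((k - l : ℤ) : ℝ) * t) = e (k * t) * e (-(l * t)) := by
        rw [← e_add]
        congr 1
        push_cast
        ring
      rw [h3]
      ring
    simp_rw [h1]
    rw [intervalIntegral.integral_finsetSum]
    · rw [Complex.ofReal_sum]
      refine Finset.sum_congr rfl fun k hk => ?_
      rw [intervalIntegral.integral_finsetSum]
      · have h4 : ∀ l ∈ S, ∫ t in (0 : ℝ)..1,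
            cc k * (starRingEnd ℂ) (cc l) * e (((k - l : ℤ) : ℝ) * t) =
            if l = k then cc k * (starRingEnd ℂ) (cc l) else 0 := by
          intro l _
          rw [intervalIntegral.integral_const_mul, e_orth]
          by_cases h : l = k
          · rw [if_pos h, if_pos (by rw [h, sub_self]), mul_one]
          · rw [if_neg h, if_neg (fun h5 => h (sub_eq_zero.1 h5).symm), mul_zero]
        rw [Finset.sum_congr rfl h4, Finset.sum_ite_eq' S k, if_pos hk, Complex.mul_conj,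
          Complex.normSq_eq_norm_sq]
      · intro l _
        exact ((mp_cont _).const_mul _ |>.intervalIntegrable _ _)
    · intro k _
      refine Continuous.intervalIntegrable ?_ _ _
      refine continuous_finsetSum _ fun l _ => ?_
      exact (mp_cont _).const_mul _
  exact_mod_cast key

theorem pars (J : ℕ) (w : ℕ → ℂ) (B : ℝ)
    (hB : ∀ θ : ℝ, ‖∑ m ∈ Finset.range J, w m * e (θ * m)‖ ≤ B) (I : ℕ) (F : ℕ → ℂ) :
    ∑ s ∈ Finset.range I, ‖∑ m ∈ Finset.range J, w m * F (s + m)‖ ^ 2 ≤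
      B ^ 2 * ∑ s ∈ Finset.range (I + J), ‖F s‖ ^ 2 := by
  classical
  set T : Finset (ℕ × ℕ) := Finset.range J ×ˢ Finset.range (I + J) with hT
  set S : Finset ℤ := Finset.Ico (-(J : ℤ)) ((I : ℤ) + J) with hS
  set C : ℤ → ℂ := fun s => ∑ p ∈ T with (p.2 : ℤ) - p.1 = s, w p.1 * F p.2 with hC
  have hQP : ∀ θ : ℝ, (∑ m ∈ Finset.range J, w m * e (-θ * m)) *
      (∑ t ∈ Finset.range (I + J), F t * e (θ * t)) = ∑ s ∈ S, C s * e (s * θ) := by
    intro θ
    rw [Finset.sum_mul_sum, ← Finset.sum_product']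
    have hmap : ∀ p ∈ T, (p.2 : ℤ) - p.1 ∈ S := by
      intro p hp
      rw [hT, Finset.mem_product, Finset.mem_range, Finset.mem_range] at hp
      rw [hS, Finset.mem_Ico]
      omega
    rw [← Finset.sum_fiberwise_of_maps_to hmap]
    refine Finset.sum_congr rfl fun s _ => ?_
    rw [hC, Finset.sum_mul]
    refine Finset.sum_congr rfl fun p hp => ?_
    have h1 := (Finset.mem_filter.1 hp).2
    have h2 : e ((s : ℝ) * θ) = e (-θ * p.1) * e (θ * p.2) := by
      rw [← e_add, ← h1]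
      congr 1
      push_cast
      ring
    rw [h2]
    ring
  have hCs : ∀ s ∈ Finset.range I, ∑ m ∈ Finset.range J, w m * F (s + m) = C (s : ℤ) := by
    intro s hs
    rw [Finset.mem_range] at hs
    rw [hC]
    refine Finset.sum_nbij' (fun m => (m, s + m)) (fun p => p.1) ?_ ?_ ?_ ?_ ?_
    · intro m hm
      rw [Finset.mem_range] at hm
      rw [Finset.mem_filter, hT, Finset.mem_product, Finset.mem_range, Finset.mem_range]
      refine ⟨⟨hm, ?_⟩, ?_⟩
      · show s + m < I + J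
        omega
      · push_cast
        ring
    · intro p hp
      rw [Finset.mem_filter, hT, Finset.mem_product] at hp
      exact hp.1.1
    · intro m _
      rfl
    · intro p hp
      have h1 := (Finset.mem_filter.1 hp).2
      refine Prod.ext rfl ?_
      show s + p.1 = p.2
      omega
    · intro m _
      rfl
  have h1 : ∑ s ∈ Finset.range I, ‖∑ m ∈ Finset.range J, w m * F (s + m)‖ ^ 2 ≤
      ∑ s ∈ S, ‖C s‖ ^ 2 := by
    rw [Finset.sum_congr rfl fun s hs => by rw [hCs s hs]]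
    have h2 : ∑ s ∈ Finset.range I, ‖C (s : ℤ)‖ ^ 2 =
        ∑ s ∈ (Finset.range I).map Nat.castEmbedding, ‖C s‖ ^ 2 := by
      rw [Finset.sum_map]
      rfl
    rw [h2]
    refine Finset.sum_le_sum_of_subset_of_nonneg ?_ fun _ _ _ => by positivity
    intro s hs
    rw [Finset.mem_map] at hs
    obtain ⟨m, hm, rfl⟩ := hs
    rw [Finset.mem_range] at hm
    rw [hS, Finset.mem_Ico]
    show -(J : ℤ) ≤ (m : ℤ) ∧ (m : ℤ) < I + J
    omega
  refine h1.trans ?_
  rw [← parseval S C]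
  have hP : ∫ t in (0 : ℝ)..1, ‖∑ k ∈ Finset.range (I + J), F k * e (t * k)‖ ^ 2 =
      ∑ s ∈ Finset.range (I + J), ‖F s‖ ^ 2 := by
    have h3 := parseval ((Finset.range (I + J)).map (Nat.castEmbedding (R := ℤ)))
      (fun k => F k.toNat)
    rw [Finset.sum_map] at h3
    simp only [Finset.sum_map, Nat.castEmbedding_apply, Int.toNat_natCast] at h3
    rw [← h3]
    refine intervalIntegral.integral_congr fun t _ => ?_
    show ‖_‖ ^ 2 = ‖_‖ ^ 2
    congr 2
    refine Finset.sum_congr rfl fun k _ => ?_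
    rw [mul_comm t]
    push_cast
    rfl
  rw [← hP, ← intervalIntegral.integral_const_mul]
  refine intervalIntegral.integral_mono_on zero_le_one ?_ ?_ ?_
  · refine Continuous.intervalIntegrable ?_ _ _
    refine Continuous.pow (Continuous.norm (continuous_finsetSum _ fun k _ => ?_)) 2
    exact (mp_cont _).const_mul _
  · refine Continuous.intervalIntegrable ?_ _ _
    refine Continuous.const_mul (Continuous.pow (Continuous.norm
      (continuous_finsetSum _ fun k _ => ?_)) 2) _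
    have : (fun t : ℝ => F k * e (t * k)) = fun t : ℝ => F k * e ((k : ℝ) * t) := by
      funext t
      rw [mul_comm t]
    rw [this]
    exact (mp_cont _).const_mul _
  · intro t _
    rw [← hQP t, norm_mul, mul_pow]
    refine mul_le_mul_of_nonneg_right ?_ (by positivity)
    exact pow_le_pow_left₀ (norm_nonneg _) (hB (-t)) 2

end Pool.Agent.VINO
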