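import Pool.Agent.VINO.NDefs

/-!
# VINO / NBas: commutators modulo the lower central series

PROOFS.  `comm_mem`, `comm_mem'`: `LL G (n+1) = ⁅LL G n, ⊤⁆` (`Subgroup.commutator_mem_commutator`,
`Subgroup.commutator_comm`). `LL G n` is normal (it is characteristic), antitone.
`comm_mul_right`: `⁅x, u u'⁆ = ⁅x, u⁆ (u ⁅x, u'⁆ u⁻¹) = ⁅x, u⁆ ⁅u, ⁅x, u'⁆⁆ ⁅x, u'⁆` and the middle factor is in
`LL G (n+2)`, a normal subgroup. `comm_mul_left`: `⁅x x', u⁆ = x ⁅x', u⁆ x⁻¹ ⁅x, u⁆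
= ⁅x, ⁅x', u⁆⁆ ⁅x', u⁆ ⁅x, u⁆`, and `⁅x', u⁆`, `⁅x, u⁆` commute modulo `LL G (n+2)`.
`comm_pow`: induction with `comm_mul_left`.
`gam_act`: `x = mk y`: `γ • mk y = mk (γ y) = mk (y (y⁻¹ γ y γ⁻¹)) = (y ⁅y⁻¹, γ⁆ y⁻¹) • mk y` (`γ` is in `Γ`), and
`y ⁅y⁻¹, γ⁆ y⁻¹ ∈ LL G (n+1)`.
`chr_triv`: choose `x` with `f x ≠ 0`; `χ w f x = f (w • x) = f x`, for `w ∈ LL G (n+1)` by the invariance, and
for `w ∈ Γ ∩ LL G n` by `gam_act`.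
-/

set_option autoImplicit false

namespace Pool.Agent.VINO

open MeasureTheory Filter Topology
open scoped commutatorElement

section
variable {G : Type*} [Group G]

theorem LL_normal (n : ℕ) : (LL G n).Normal := inferInstance

theorem LL_anti (n : ℕ) : LL G (n + 1) ≤ LL G n :=
  Subgroup.lowerCentralSeries_antitone _ (Nat.le_succ n)

theorem comm_mem {n : ℕ} {u : G} (hu : u ∈ LL G n) (x : G) : ⁅x, u⁆ ∈ LL G (n + 1) := by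
  rw [← inv_mem_iff, commutatorElement_inv]
  exact Subgroup.commutator_mem_commutator hu (Subgroup.mem_top x)

theorem comm_mem' {n : ℕ} {u : G} (hu : u ∈ LL G n) (x : G) : ⁅u, x⁆ ∈ LL G (n + 1) :=
  Subgroup.commutator_mem_commutator hu (Subgroup.mem_top x)

theorem comm_mul_right {n : ℕ} (x : G) {u u' : G} (hu : u ∈ LL G n) (hu' : u' ∈ LL G n) :
    ∃ w ∈ LL G (n + 2), ⁅x, u * u'⁆ = ⁅x, u⁆ * ⁅x, u'⁆ * w := by
  have _ := hu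
  refine ⟨⁅⁅x, u'⁆⁻¹, u⁆, comm_mem' (inv_mem (comm_mem hu' x)) u, ?_⟩
  simp only [commutatorElement_def]
  group

theorem comm_mul_left {n : ℕ} (x x' : G) {u : G} (hu : u ∈ LL G n) :
    ∃ w ∈ LL G (n + 2), ⁅x * x', u⁆ = ⁅x, u⁆ * ⁅x', u⁆ * w := by
  have hN : (LL G (n + 2)).Normal := LL_normal (n + 2)
  refine ⟨⁅⁅x', u⁆⁻¹, ⁅x, u⁆⁻¹⁆ * (⁅x, u⁆⁻¹ * ⁅⁅x', u⁆⁻¹, x⁆ * (⁅x, u⁆⁻¹)⁻¹),
    mul_mem (comm_mem' (inv_mem (comm_mem hu x')) _)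
      (hN.conj_mem _ (comm_mem' (inv_mem (comm_mem hu x')) _) _), ?_⟩
  simp only [commutatorElement_def]
  group

theorem comm_pow {n : ℕ} (x : G) {u : G} (hu : u ∈ LL G n) (m : ℕ) :
    ∃ w ∈ LL G (n + 2), ⁅x ^ m, u⁆ = ⁅x, u⁆ ^ m * w := by
  have hN : (LL G (n + 2)).Normal := LL_normal (n + 2)
  induction m with
  | zero => exact ⟨1, one_mem _, by simp⟩
  | succ m ih =>
    obtain ⟨w, hw, h1⟩ := ih
    obtain ⟨w', hw', h2⟩ := comm_mul_left (x ^ m) x hu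
    refine ⟨(⁅x, u⁆⁻¹ * w * (⁅x, u⁆⁻¹)⁻¹) * w', mul_mem (hN.conj_mem _ hw _) hw', ?_⟩
    rw [pow_succ, h2, h1, pow_succ]
    group

theorem gam_act {Γ : Subgroup G} {n : ℕ} (f : G ⧸ Γ → ℂ)
    (hf : ∀ w ∈ LL G (n + 1), ∀ x, f (w • x) = f x) {γ : G} (hγ : γ ∈ LL G n) (hγΓ : γ ∈ Γ)
    (x : G ⧸ Γ) : f (γ • x) = f x := by
  obtain ⟨y, rfl⟩ := QuotientGroup.mk_surjective x
  have h1 : γ • (QuotientGroup.mk y : G ⧸ Γ) = ⁅γ, y⁆ • (QuotientGroup.mk y : G ⧸ Γ) := by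
    show (QuotientGroup.mk (γ * y) : G ⧸ Γ) = QuotientGroup.mk (⁅γ, y⁆ * y)
    rw [← QuotientGroup.mk_mul_of_mem (⁅γ, y⁆ * y) hγΓ]
    congr 1
    rw [commutatorElement_def]
    group
  rw [h1]
  exact hf _ (comm_mem' hγ y) _

theorem chr_triv {Γ : Subgroup G} {n : ℕ} (f : G ⧸ Γ → ℂ)
    (hf : ∀ w ∈ LL G (n + 1), ∀ x, f (w • x) = f x) (hf0 : f ≠ 0) (χ : G → Circle)
    (hχ : ∀ u ∈ LL G n, ∀ x, f (u • x) = χ u * f x) :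
    (∀ w ∈ LL G (n + 1), χ w = 1) ∧ ∀ w ∈ LL G n, w ∈ Γ → χ w = 1 := by
  obtain ⟨x, hx⟩ : ∃ x, f x ≠ 0 := by
    by_contra hcon
    push Not at hcon
    exact hf0 (funext hcon)
  have key : ∀ w ∈ LL G n, f (w • x) = f x → χ w = 1 := by
    intro w hw h
    have h1 := hχ w hw x
    rw [h] at h1
    have h2 : ((χ w : Circle) : ℂ) = 1 := by
      have h3 : ((χ w : Circle) : ℂ) * f x = 1 * f x := by rw [one_mul, ← h1]
      exact mul_right_cancel₀ hx h3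
    exact Circle.ext (by rw [h2, Circle.coe_one])
  exact ⟨fun w hw => key w (LL_anti n hw) (hf w hw x),
    fun w hw hwΓ => key w hw (gam_act f hf hw hwΓ x)⟩

end

end Pool.Agent.VINO
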