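import Pool.Agent.VINO.EDefs

/-!
# VINO / NDefs: nilsystems, definitions

`G` is a nilpotent topological group, `Γ` a subgroup, `X = G ⧸ Γ` compact, `μ` a `G`-invariant
probability measure on `X`, `g : G` acts ergodically. `LL G n` is the lower central series
(`LL G 0 = G`, `LL G (n+1) = [G, LL G n]`).
-/

set_option autoImplicit false

namespace Pool.Agent.VINO

open MeasureTheory Filter Topology

/-- The lower central series, `LL G 0 = ⊤`. -/
abbrev LL (G : Type*) [Group G] (n : ℕ) : Subgroup G := (⊤ : Subgroup G).lowerCentralSeries n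

/-- The hypotheses on a nilsystem. -/
structure NilHyp (G : Type*) [Group G] [TopologicalSpace G] (Γ : Subgroup G)
    [MeasurableSpace (G ⧸ Γ)] (μ : Measure (G ⧸ Γ)) (g : G) : Prop where
  /-- `G` is nilpotent -/
  nil : Group.IsNilpotent G
  /-- `μ` is invariant under `G` -/
  inv : ∀ x : G, MeasurePreserving (fun y : G ⧸ Γ => x • y) μ μ
  /-- the translation by `g` is ergodic -/
  erg : Ergodic (fun y : G ⧸ Γ => g • y) μ
  /-- `Γ ∩ LL G n` is cocompact in `LL G n` -/
  coc : ∀ n, CompactSpace (LL G n ⧸ Γ.subgroupOf (LL G n))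
  /-- `G` is topologically generated by `g` and the one-parameter subgroups -/
  gen : closure (Subgroup.closure ({g} ∪ {x : G | ∃ φ : ℝ → G, Continuous φ ∧
    (∀ s t, φ (s + t) = φ s * φ t) ∧ ∃ t, φ t = x}) : Set G) = Set.univ

/-- One-parameter subgroups of `LL G n` modulo `LL G (n+1)`. -/
structure IsPath {G : Type*} [Group G] [TopologicalSpace G] (n : ℕ) (h : ℝ → G) : Prop where
  cont : Continuous h
  mem : ∀ t, h t ∈ LL G n
  add : ∀ s t, ∃ w ∈ LL G (n + 1), h (s + t) = h s * h t * w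

/-- `χ` is a continuous character of `LL G n` (its values outside of `LL G n` are irrelevant). -/
structure IsChr {G : Type*} [Group G] [TopologicalSpace G] (n : ℕ) (χ : G → Circle) : Prop where
  mul : ∀ u ∈ LL G n, ∀ v ∈ LL G n, χ (u * v) = χ u * χ v
  cont : ContinuousOn χ (LL G n : Set G)

/-- The continuous functions on `G ⧸ Γ` invariant under `LL G (n+1)` which are eigenfunctions of
`LL G n`. -/
def VV {G : Type*} [Group G] [TopologicalSpace G] (Γ : Subgroup G) (n : ℕ) :
    Set C(G ⧸ Γ, ℂ) :=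
  {f | (∀ w ∈ LL G (n + 1), ∀ x, f (w • x) = f x) ∧
    ∃ χ : G → Circle, IsChr n χ ∧ ∀ u ∈ LL G n, ∀ x, f (u • x) = χ u * f x}

/-- The product formula for the functions invariant under `LL G n`. -/
def QQ (c : ℝ) {G : Type*} [Group G] [TopologicalSpace G] (Γ : Subgroup G)
    [MeasurableSpace (G ⧸ Γ)] (μ : Measure (G ⧸ Γ)) (g : G) (n : ℕ) : Prop :=
  ∀ (r : ℕ) (f : Fin (r + 1) → C(G ⧸ Γ, ℂ)),
    (∀ j, ∀ w ∈ LL G n, ∀ x, f j (w • x) = f j x) → PP c μ (fun m x => g ^ m • x) f

end Pool.Agent.VINO
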