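import Pool.Agent.VINO.NBas

/-!
# VINO / NGen: paths generate the lower central series

PROOF of `gens_dense`.  Induction on `n`. `n = 0`: one-parameter subgroups are paths at level `0`
(`LL G 0 = ⊤`, `w = 1`), so `Gens g 0` contains the set in `NilHyp.gen`.
`n → n + 1`: let `D = Subgroup.closure (Gens g (n+1))`, `H` its topological closure
(`Subgroup.topologicalClosure`), a closed subgroup containing `LL G (n+2)`. `LL G (n+1)` is generated by the
`⁅p, q⁆`, `p ∈ LL G n`, `q : G` (`Subgroup.commutator_le`), `⁅p, q⁆ = ⁅q, p⁆⁻¹`, so show `⁅q, p⁆ ∈ H`. Fix `q`;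
`S = {p ∈ LL G n | ⁅q, p⁆ ∈ H}` is a subgroup (`comm_mul_right`, `LL G (n+2) ≤ H`). `S` contains `Gens g n`: for a path `h` at
level `n`, `t ↦ ⁅q, h t⁆` is a path at level `n+1` (`⁅q, h s h t w⁆ ≡ ⁅q, h s⁆ ⁅q, h t⁆ ⁅q, w⁆` modulo `LL G (n+2)` by
`comm_mul_right`, and `⁅q, w⁆ ∈ LL G (n+2)`); for `w ∈ LL G (n+1)`: `⁅q, w⁆ ∈ LL G (n+2)`; and if `n = 0`, for `g`:
`⁅q, g⁆ ∈ H` for all `q`, because the set of these `q` is a subgroup (`comm_mul_left` with `u = g ∈ LL G 0`), is closed
(`q ↦ ⁅q, g⁆` is continuous), and contains `g` (`⁅g, g⁆ = 1`), the values of the paths at level `0`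
(`t ↦ ⁅h t, g⁆` is a path at level `1`: `comm_mul_left`) and `LL G 1`, so it is `G` by the case `n = 0`.
So `S ⊇ Subgroup.closure (Gens g n)`, and if `p ∈ LL G n` is a limit of elements `p_i` of
`Subgroup.closure (Gens g n)` then `⁅q, p⁆ = lim ⁅q, p_i⁆ ∈ H` (`map_mem_closure`).
-/

set_option autoImplicit false

namespace Pool.Agent.VINO

open MeasureTheory Filter Topology
open scoped commutatorElement

/-- The generators at level `n`. -/
def Gens {G : Type*} [Group G] [TopologicalSpace G] (g : G) (n : ℕ) : Set G :=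
  {x | ∃ h : ℝ → G, IsPath n h ∧ ∃ t, h t = x} ∪ (LL G (n + 1) : Set G) ∪ {x | n = 0 ∧ x = g}

private theorem gn_right {G : Type*} [Group G] [TopologicalSpace G] [IsTopologicalGroup G]
    {n : ℕ} {h : ℝ → G} (hh : IsPath n h) (q : G) : IsPath (n + 1) (fun t => ⁅q, h t⁆) := by
  refine ⟨?_, fun t => comm_mem (hh.mem t) q, fun s t => ?_⟩
  · simp only [commutatorElement_def]
    have := hh.cont
    fun_prop
  · obtain ⟨w, hw, e⟩ := hh.add s t
    obtain ⟨w1, hw1, e1⟩ := comm_mul_right q (mul_mem (hh.mem s) (hh.mem t)) (LL_anti n hw)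
    obtain ⟨w2, hw2, e2⟩ := comm_mul_right q (hh.mem s) (hh.mem t)
    refine ⟨w2 * ⁅q, w⁆ * w1, mul_mem (mul_mem hw2 (comm_mem hw q)) hw1, ?_⟩
    rw [e, e1, e2]
    group

private theorem gn_left {G : Type*} [Group G] [TopologicalSpace G] [IsTopologicalGroup G]
    {h : ℝ → G} (hh : IsPath 0 h) (g : G) : IsPath (0 + 1) (fun t => ⁅h t, g⁆) := by
  have hg : g ∈ LL G 0 := Subgroup.mem_top g
  refine ⟨?_, fun t => comm_mem' (hh.mem t) g, fun s t => ?_⟩
  · simp only [commutatorElement_def]
    have := hh.cont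
    fun_prop
  · obtain ⟨w, hw, e⟩ := hh.add s t
    obtain ⟨w1, hw1, e1⟩ := comm_mul_left (h s * h t) w hg
    obtain ⟨w2, hw2, e2⟩ := comm_mul_left (h s) (h t) hg
    refine ⟨w2 * ⁅w, g⁆ * w1, mul_mem (mul_mem hw2 (comm_mem' hw g)) hw1, ?_⟩
    rw [e, e1, e2]
    group

theorem gens_dense {G : Type*} [Group G] [TopologicalSpace G] [IsTopologicalGroup G] (g : G)
    (hgen : closure (Subgroup.closure ({g} ∪ {x : G | ∃ φ : ℝ → G, Continuous φ ∧
      (∀ s t, φ (s + t) = φ s * φ t) ∧ ∃ t, φ t = x}) : Set G) = Set.univ) (n : ℕ) :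
    (LL G n : Set G) ⊆ closure (Subgroup.closure (Gens g n) : Set G) := by
  have h0 : closure (Subgroup.closure (Gens g 0) : Set G) = Set.univ := by
    rw [← Set.univ_subset_iff, ← hgen]
    refine closure_mono (Subgroup.closure_mono ?_)
    rintro x (hx | ⟨φ, h1, h2, t, h3⟩)
    · exact Or.inr ⟨rfl, hx⟩
    · exact Or.inl (Or.inl ⟨φ, ⟨h1, fun _ => Subgroup.mem_top _, fun s t =>
        ⟨1, one_mem _, by rw [h2, mul_one]⟩⟩, t, h3⟩)
  induction n with
  | zero => rw [h0]; exact Set.subset_univ _
  | succ n ih =>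
    set H : Subgroup G := (Subgroup.closure (Gens g (n + 1))).topologicalClosure with hH
    have hHc : IsClosed (H : Set G) := Subgroup.isClosed_topologicalClosure _
    have hGH : Gens g (n + 1) ⊆ H := fun x hx =>
      Subgroup.le_topologicalClosure _ (Subgroup.subset_closure hx)
    have hL2 : LL G (n + 2) ≤ H := fun x hx => hGH (Or.inl (Or.inr hx))
    -- the case of the generator `g`
    have hg : n = 0 → ∀ q : G, ⁅q, g⁆ ∈ H := by
      intro hn
      subst hn
      have hgt : g ∈ LL G 0 := Subgroup.mem_top g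
      let Q : Subgroup G :=
        { carrier := {q | ⁅q, g⁆ ∈ H}
          one_mem' := by
            show ⁅(1 : G), g⁆ ∈ H
            rw [commutatorElement_one_left]
            exact one_mem _
          mul_mem' := by
            intro a b ha hb
            obtain ⟨w, hw, e⟩ := comm_mul_left a b hgt
            show ⁅a * b, g⁆ ∈ H
            rw [e]
            exact mul_mem (mul_mem ha hb) (hL2 hw)
          inv_mem' := by
            intro a ha
            obtain ⟨w, hw, e⟩ := comm_mul_left a a⁻¹ hgt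
            rw [mul_inv_cancel, commutatorElement_one_left] at e
            have e2 : ⁅a⁻¹, g⁆ = ⁅a, g⁆⁻¹ * w⁻¹ := by
              rw [eq_mul_inv_iff_mul_eq]
              exact eq_inv_of_mul_eq_one_right (by rw [← mul_assoc, ← e])
            show ⁅a⁻¹, g⁆ ∈ H
            rw [e2]
            exact mul_mem (inv_mem ha) (inv_mem (hL2 hw)) }
      have hQc : IsClosed (Q : Set G) := by
        have hc : Continuous fun q : G => ⁅q, g⁆ := by
          simp only [commutatorElement_def]
          fun_prop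
        exact hHc.preimage hc
      have hQ : Subgroup.closure (Gens g 0) ≤ Q := by
        rw [Subgroup.closure_le]
        rintro x ((⟨h, hh, t, rfl⟩ | hx) | ⟨-, hx⟩)
        · exact hGH (Or.inl (Or.inl ⟨_, gn_left hh g, t, rfl⟩))
        · exact hL2 (comm_mem' hx g)
        · show ⁅x, g⁆ ∈ H
          rw [hx, commutatorElement_self]
          exact one_mem _
      intro q
      have h1 : closure (Subgroup.closure (Gens g 0) : Set G) ⊆ Q :=
        closure_minimal hQ hQc
      rw [h0] at h1
      exact h1 (Set.mem_univ q)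
    -- commutators
    have key : ∀ q : G, ∀ p ∈ LL G n, ⁅q, p⁆ ∈ H := by
      intro q
      let S : Subgroup G :=
        { carrier := {p | p ∈ LL G n ∧ ⁅q, p⁆ ∈ H}
          one_mem' := by
            refine ⟨one_mem _, ?_⟩
            rw [commutatorElement_one_right]
            exact one_mem _
          mul_mem' := by
            rintro a b ⟨ha, ha'⟩ ⟨hb, hb'⟩
            obtain ⟨w, hw, e⟩ := comm_mul_right q ha hb
            refine ⟨mul_mem ha hb, ?_⟩
            rw [e]
            exact mul_mem (mul_mem ha' hb') (hL2 hw)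
          inv_mem' := by
            rintro a ⟨ha, ha'⟩
            obtain ⟨w, hw, e⟩ := comm_mul_right q ha (inv_mem ha)
            rw [mul_inv_cancel, commutatorElement_one_right] at e
            have e2 : ⁅q, a⁻¹⁆ = ⁅q, a⁆⁻¹ * w⁻¹ := by
              rw [eq_mul_inv_iff_mul_eq]
              exact eq_inv_of_mul_eq_one_right (by rw [← mul_assoc, ← e])
            refine ⟨inv_mem ha, ?_⟩
            rw [e2]
            exact mul_mem (inv_mem ha') (inv_mem (hL2 hw)) }
      have hS : Subgroup.closure (Gens g n) ≤ S := by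
        rw [Subgroup.closure_le]
        rintro x ((⟨h, hh, t, rfl⟩ | hx) | ⟨hn, hx⟩)
        · exact ⟨hh.mem t, hGH (Or.inl (Or.inl ⟨_, gn_right hh q, t, rfl⟩))⟩
        · exact ⟨LL_anti n hx, hL2 (comm_mem hx q)⟩
        · refine ⟨?_, ?_⟩
          · rw [hn]
            exact Subgroup.mem_top x
          · rw [hx]
            exact hg hn q
      intro p hp
      have hc : Continuous fun p : G => ⁅q, p⁆ := by
        simp only [commutatorElement_def]
        fun_prop
      have h1 : ⁅q, p⁆ ∈ closure (H : Set G) :=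
        map_mem_closure hc (ih hp) fun x hx => (hS hx).2
      rwa [hHc.closure_eq] at h1
    have h2 : LL G (n + 1) ≤ H := by
      show ⁅LL G n, ⊤⁆ ≤ H
      rw [Subgroup.commutator_le]
      intro p hp q _
      rw [← inv_mem_iff, commutatorElement_inv]
      exact key q p hp
    exact h2

end Pool.Agent.VINO
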