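import Pool.Agent.VINO.PwB
import Pool.Agent.VINO.NInv
import Pool.Agent.VINO.Cls
import Pool.Agent.VINO.APl

/-!
# VINO / NStepA: the product formula for functions invariant under `LL G 1 = [G, G]`

PROOF.  `cls` with `V = VV Γ 0`, `pw_nil` for `n = 0` (`H.coc 0`). Let `f j ∈ VV Γ 0` for all `j`, with characters `χ j` of
`LL G 0 = ⊤`. Then `f j (g ^ m • x) = (χ j g) ^ m f j x` (induction), `χ j g = e (β j)` (`char_circle`), so
`m ↦ f j (g^m • x)` is `IsAP` with `p = 1` and mean value `M j = f j x` if `β j` is an integer and `0` otherwise, and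
`ap_avg` gives: the averages tend to `∏ M j`, for every `x`. Finally `M j = ∫ f j dμ`: if `β j` is an integer, `χ j g = 1`
(`e_eq_one`), `f j` is invariant under `g`, so constant (`inv_const`), and the integral is the constant. Otherwise
`∫ f j = ∫ f j (g • x) = χ j g ∫ f j` (`H.inv g`), `χ j g ≠ 1`, so `∫ f j = 0`.
-/

set_option autoImplicit false

namespace Pool.Agent.VINO

open MeasureTheory Filter Topology

private theorem sa_int {G : Type*} [Group G] [TopologicalSpace G] [IsTopologicalGroup G]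
    {Γ : Subgroup G} [CompactSpace (G ⧸ Γ)] [MeasurableSpace (G ⧸ Γ)] [BorelSpace (G ⧸ Γ)]
    {μ : Measure (G ⧸ Γ)} [IsProbabilityMeasure μ] {g : G} (H : NilHyp G Γ μ g)
    (f : C(G ⧸ Γ, ℂ)) {z : ℂ} (hf : ∀ x, f (g • x) = z * f x) :
    ∫ x, f x ∂μ = z * ∫ x, f x ∂μ := by
  have h1 : ∫ x, f (g • x) ∂μ = ∫ x, f x ∂μ := by
    have h2 := (H.inv g).map_eq
    have h3 := integral_map (μ := μ) (H.inv g).measurable.aemeasurable (f := f)
      f.continuous.aestronglyMeasurable
    rw [h2] at h3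
    exact h3.symm
  simp only [hf] at h1
  rw [integral_const_mul] at h1
  exact h1.symm

theorem step_zero {c : ℝ} (hc0 : 0 < c) (hc1 : c < 1 / 2) {G : Type*} [Group G]
    [TopologicalSpace G] [IsTopologicalGroup G] {Γ : Subgroup G} [CompactSpace (G ⧸ Γ)]
    [MeasurableSpace (G ⧸ Γ)] [BorelSpace (G ⧸ Γ)] {μ : Measure (G ⧸ Γ)}
    [IsProbabilityMeasure μ] {g : G} (H : NilHyp G Γ μ g) : QQ c Γ μ g 1 := by
  intro r f hf
  refine cls c μ (fun m x => g ^ m • x) (VV Γ 0) ?_ f
    (fun j => pw_nil 0 (H.coc 0) (f j) (hf j))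
  clear hf f
  intro f hf
  refine Filter.Eventually.of_forall fun x => ?_
  refine ap_avg hc0 hc1 (fun j m => f j (g ^ m • x)) (fun j => ∫ x, f j x ∂μ) fun j => ?_
  obtain ⟨-, χ, -, hχ⟩ := hf j
  obtain ⟨β, hβ⟩ := char_circle (χ g)
  have hg : ∀ y, f j (g • y) = VMV.e β * f j y := by
    intro y
    rw [hχ g (Subgroup.mem_top g) y, hβ]
  have hpow : ∀ m : ℕ, f j (g ^ m • x) = f j x * VMV.e (β * m) := by
    intro m
    rw [← e_pow]
    induction m with
    | zero => simp
    | succ m ih =>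
      rw [pow_succ', mul_smul, hg, ih, pow_succ]
      ring
  refine ⟨1, fun _ => f j x, fun _ => β, fun m => ?_, ?_⟩
  · rw [Fin.sum_univ_one]
    exact hpow m
  · rw [Fin.sum_univ_one]
    by_cases hk : ∃ k : ℤ, β = k
    · rw [if_pos hk]
      have h1 : VMV.e β = 1 := (e_eq_one β).2 hk
      obtain ⟨z, hz⟩ := inv_const H (f j) fun y => by rw [hg, h1, one_mul]
      simp only [hz]
      rw [integral_const, probReal_univ, one_smul]
    · rw [if_neg hk]
      have h1 := sa_int H (f j) hg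
      by_contra h2
      have h3 : VMV.e β * ∫ x, f j x ∂μ = 1 * ∫ x, f j x ∂μ := by rw [one_mul, ← h1]
      exact hk ((e_eq_one β).1 (mul_right_cancel₀ h2 h3))

end Pool.Agent.VINO
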