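import Pool.Agent.VINO.Defs
import Pool.Agent.VMV.Vkey

/-!
# VINO / Num: the saving tends to zero

PROOF.  Choose `m ≥ 1` with `64 exp (-m) ≤ c / 768`. `L = log x`, `A = L^c = AA c x`, `k = kk c x`;
`3 A ≤ k ≤ 4 A` for large `x` (`k ≤ 3 A + 3`). The exponent of `Y ≥ x^(c/24) ≥ 1` is
`4 exp (-m) k^2 - S/4 ≤ 64 exp (-m) A^2 - (c/384) A^2 ≤ -(c/768) A^2`. Hence
`log (sav) ≤ (1/2) log (64 m k^4) + (k / (4 m^2 k^4)) log (30 m^2 k^4) - (c/768) A^2 (c/24) L / (4 m^2 k^4)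
≤ C + 4 log k - (c^2 / (768*24*4*256 m^2)) L / A^2` (`k^4 ≤ 256 A^4`; the second term is at most
`log (30 m^2 k^4)`), `L / A^2 = L^(1-2c)` with `1 - 2c > 0`, `log k ≤ log (4 A) = log 4 + c log L`; so the
right side tends to `-∞` (`log L = o(L^(1-2c))`: `isLittleO_log_rpow_atTop`).
-/

set_option autoImplicit false

namespace Pool.Agent.VINO

open Pool.Agent.VMV

theorem sav_le (k m Y : ℕ) (S : ℝ) (hk : 1 ≤ k) (hm : 1 ≤ m) (hY : 1 ≤ Y) :
    sav k m Y S ≤ Real.exp (Real.log (64 * m * k ^ 4) + Real.log (30 * m ^ 2 * k ^ 4) +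
      (4 * Real.exp (-m) * k ^ 2 - S / 4) * Real.log Y / (4 * m ^ 2 * k ^ 4)) := by
  have hk1 : (1 : ℝ) ≤ k := by exact_mod_cast hk
  have hm1 : (1 : ℝ) ≤ m := by exact_mod_cast hm
  have hY1 : (1 : ℝ) ≤ Y := by exact_mod_cast hY
  have hY0 : (0 : ℝ) < Y := by linarith
  have hk4 : (1 : ℝ) ≤ (k : ℝ) ^ 4 := one_le_pow₀ hk1
  have hm2 : (1 : ℝ) ≤ (m : ℝ) ^ 2 := one_le_pow₀ hm1
  have hP : (1 : ℝ) ≤ 64 * m * k ^ 4 := by nlinarith
  have hQ : (1 : ℝ) ≤ 30 * m ^ 2 * k ^ 4 := by nlinarith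
  obtain ⟨N, hN⟩ : ∃ N : ℝ, N = 4 * m ^ 2 * k ^ 4 := ⟨_, rfl⟩
  have hN0 : 0 < N := by rw [hN]; positivity
  obtain ⟨E, hE⟩ : ∃ E : ℝ, E = 4 * Real.exp (-m) * k ^ 2 - S / 4 := ⟨_, rfl⟩
  have h1 : (64 * m * k ^ 4 : ℝ) ^ (2 * m ^ 2 * k ^ 4) =
      Real.exp ((N / 2) * Real.log (64 * m * k ^ 4)) := by
    rw [← Real.rpow_natCast, Real.rpow_def_of_pos (by linarith), mul_comm]
    congr 2
    rw [hN]
    push_cast
    ring
  have h2 : (30 * m ^ 2 * k ^ 4 : ℝ) ^ k = Real.exp (k * Real.log (30 * m ^ 2 * k ^ 4)) := by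
    rw [← Real.rpow_natCast, Real.rpow_def_of_pos (by linarith), mul_comm]
  have h3 : (Y : ℝ) ^ E = Real.exp (E * Real.log Y) := by
    rw [Real.rpow_def_of_pos hY0, mul_comm]
  unfold sav
  rw [← hE, h1, h2, h3, ← Real.exp_add, ← Real.exp_add, ← hN, ← Real.exp_mul]
  refine Real.exp_le_exp.2 ?_
  have l1 : 0 ≤ Real.log (64 * m * k ^ 4) := Real.log_nonneg hP
  have l2 : 0 ≤ Real.log (30 * m ^ 2 * k ^ 4) := Real.log_nonneg hQ
  have h4 : (N / 2 * Real.log (64 * m * k ^ 4) + k * Real.log (30 * m ^ 2 * k ^ 4) +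
      E * Real.log Y) * (1 / N) = Real.log (64 * m * k ^ 4) / 2 +
      (k / N) * Real.log (30 * m ^ 2 * k ^ 4) + E * Real.log Y / N := by
    field_simp
  rw [h4]
  have h5 : (k : ℝ) / N ≤ 1 := by
    rw [div_le_one hN0, hN]
    have : (k : ℝ) ≤ (k : ℝ) ^ 4 := le_self_pow₀ hk1 (by norm_num)
    nlinarith
  have h6 : (k : ℝ) / N * Real.log (30 * m ^ 2 * k ^ 4) ≤ Real.log (30 * m ^ 2 * k ^ 4) :=
    mul_le_of_le_one_left l2 h5
  linarith

open Filter Topology in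
theorem tend {p C B D : ℝ} (hp : 0 < p) (hD : 0 < D) :
    Tendsto (fun L : ℝ => C + B * Real.log L - D * L ^ p) atTop atBot := by
  have h1 : Tendsto (fun L : ℝ => Real.log L / L ^ p) atTop (𝓝 0) :=
    (isLittleO_log_rpow_atTop hp).tendsto_div_nhds_zero
  have h2 : Tendsto (fun L : ℝ => B * (Real.log L / L ^ p) - D) atTop (𝓝 (B * 0 - D)) :=
    (h1.const_mul B).sub_const D
  have h3 : Tendsto (fun L : ℝ => L ^ p) atTop atTop := tendsto_rpow_atTop hp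
  have h4 : Tendsto (fun L : ℝ => (L ^ p) * (B * (Real.log L / L ^ p) - D)) atTop atBot :=
    h3.atTop_mul_neg (by linarith : B * 0 - D < 0) h2
  have h5 : Tendsto (fun L : ℝ => C + (L ^ p) * (B * (Real.log L / L ^ p) - D)) atTop atBot :=
    tendsto_atBot_add_const_left _ C h4
  refine h5.congr' ?_
  filter_upwards [eventually_gt_atTop (0 : ℝ)] with L hL
  have : L ^ p ≠ 0 := (Real.rpow_pos_of_pos hL p).ne'
  field_simp
  ring

open Filter Topology in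
theorem sav_small {c : ℝ} (hc0 : 0 < c) (hc1 : c < 1 / 2) :
    ∃ m : ℕ, 1 ≤ m ∧ ∀ ε : ℝ, 0 < ε → ∃ x₀ : ℝ, 1 < x₀ ∧ ∀ x : ℝ, x₀ ≤ x → ∀ Y : ℕ,
      x ^ (c / 24) ≤ (Y : ℝ) → ∀ S : ℝ, c / 96 * (AA c x) ^ 2 ≤ S →
      sav (kk c x) m Y S ≤ ε := by
  have hm : ∃ m : ℕ, 1 ≤ m ∧ 64 * Real.exp (-(m : ℝ)) ≤ c / 768 := by
    have h1 : Tendsto (fun m : ℕ => 64 * Real.exp (-(m : ℝ))) atTop (𝓝 (64 * 0)) :=
      ((Real.tendsto_exp_neg_atTop_nhds_zero).comp tendsto_natCast_atTop_atTop).const_mul 64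
    have h2 := h1.eventually (ge_mem_nhds (by simp; positivity : 64 * (0 : ℝ) < c / 768))
    obtain ⟨m, hm1, hm2⟩ := ((eventually_ge_atTop 1).and h2).exists
    exact ⟨m, hm1, hm2⟩
  obtain ⟨m, hm1, hm2⟩ := hm
  refine ⟨m, hm1, fun ε hε => ?_⟩
  have hmr : (1 : ℝ) ≤ m := by exact_mod_cast hm1
  obtain ⟨D, hD⟩ : ∃ D : ℝ, D = c ^ 2 / (18432 * 1024 * m ^ 2) := ⟨_, rfl⟩
  have hD0 : 0 < D := by rw [hD]; positivity
  obtain ⟨C, hC⟩ : ∃ C : ℝ, C = Real.log (64 * m) + Real.log (30 * m ^ 2) + 8 * Real.log 4 :=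
    ⟨_, rfl⟩
  have ht := (tend (p := 1 - 2 * c) (C := C) (B := 8 * c) (D := D) (by linarith) hD0).comp
    Real.tendsto_log_atTop
  have hA : Tendsto (fun x : ℝ => AA c x) atTop atTop :=
    (tendsto_rpow_atTop hc0).comp Real.tendsto_log_atTop
  have hev : ∀ᶠ x : ℝ in atTop, (C + 8 * c * Real.log (Real.log x) -
      D * Real.log x ^ (1 - 2 * c) ≤ Real.log ε ∧ 3 ≤ AA c x) ∧ 1 < x :=
    ((ht.eventually (eventually_le_atBot _)).and (hA.eventually (eventually_ge_atTop 3))).and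
      (eventually_gt_atTop 1)
  obtain ⟨x₁, hx₁⟩ := eventually_atTop.1 hev
  refine ⟨max x₁ 2, lt_of_lt_of_le (by norm_num) (le_max_right _ _), fun x hx Y hY S hS => ?_⟩
  obtain ⟨⟨h1, h2⟩, h3⟩ := hx₁ x ((le_max_left _ _).trans hx)
  have hL0 : 0 < Real.log x := Real.log_pos h3
  obtain ⟨L, hL⟩ : ∃ L : ℝ, L = Real.log x := ⟨_, rfl⟩
  obtain ⟨A, hAe⟩ : ∃ A : ℝ, A = AA c x := ⟨_, rfl⟩
  have hAL : A = L ^ c := by rw [hAe, hL]; rfl
  rw [← hL] at h1 hL0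
  rw [← hAe] at h2 hS
  have hk1 : (kk c x : ℝ) ≤ 4 * A := by
    unfold kk
    rw [← hAe]
    push_cast
    have := Nat.ceil_lt_add_one (show 0 ≤ 3 * A by linarith)
    linarith
  have hk2 : 3 * A ≤ (kk c x : ℝ) := by
    unfold kk
    rw [← hAe]
    push_cast
    have := Nat.le_ceil (3 * A)
    linarith
  obtain ⟨k, hk⟩ : ∃ k : ℕ, k = kk c x := ⟨_, rfl⟩
  rw [← hk] at hk1 hk2 ⊢
  have hkr : (1 : ℝ) ≤ k := by linarith
  have hkn : 1 ≤ k := by exact_mod_cast hkr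
  have hY1 : (1 : ℝ) ≤ Y := by
    refine le_trans ?_ hY
    exact Real.one_le_rpow h3.le (by positivity)
  have hYn : 1 ≤ Y := by exact_mod_cast hY1
  have hlY : c / 24 * L ≤ Real.log Y := by
    rw [hL, ← Real.log_rpow (by linarith)]
    exact Real.log_le_log (Real.rpow_pos_of_pos (by linarith) _) hY
  refine (sav_le k m Y S hkn hm1 hYn).trans ?_
  rw [← Real.exp_log hε]
  refine Real.exp_le_exp.2 (le_trans ?_ h1)
  have hk0 : (0 : ℝ) < k := by linarith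
  have hm0 : (0 : ℝ) < m := by linarith
  -- logarithms
  have l1 : Real.log (64 * m * k ^ 4) = Real.log (64 * m) + 4 * Real.log k := by
    rw [Real.log_mul (by positivity) (by positivity), Real.log_pow]
    norm_num
  have l2 : Real.log (30 * m ^ 2 * k ^ 4) = Real.log (30 * m ^ 2) + 4 * Real.log k := by
    rw [Real.log_mul (by positivity) (by positivity), Real.log_pow]
    norm_num
  have l3 : Real.log k ≤ Real.log 4 + c * Real.log L := by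
    rw [← Real.log_rpow hL0, ← hAL, ← Real.log_mul (by norm_num) (by linarith)]
    exact Real.log_le_log hk0 hk1
  -- the exponent
  have e1 : 4 * Real.exp (-(m : ℝ)) * k ^ 2 - S / 4 ≤ -(c / 768 * A ^ 2) := by
    have e2 : (k : ℝ) ^ 2 ≤ 16 * A ^ 2 := by nlinarith
    have e3 : 4 * Real.exp (-(m : ℝ)) * k ^ 2 ≤ c / 768 * A ^ 2 := by
      calc 4 * Real.exp (-(m : ℝ)) * k ^ 2 ≤ 4 * Real.exp (-(m : ℝ)) * (16 * A ^ 2) :=
            mul_le_mul_of_nonneg_left e2 (by positivity)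
        _ = (64 * Real.exp (-(m : ℝ))) * A ^ 2 := by ring
        _ ≤ _ := mul_le_mul_of_nonneg_right hm2 (by positivity)
    linarith
  have e4 : (4 * Real.exp (-(m : ℝ)) * k ^ 2 - S / 4) * Real.log Y / (4 * m ^ 2 * k ^ 4) ≤
      -(D * L ^ (1 - 2 * c)) := by
    have hlY0 : 0 ≤ Real.log Y := Real.log_nonneg hY1
    have hN : 4 * (m : ℝ) ^ 2 * k ^ 4 ≤ 1024 * m ^ 2 * A ^ 4 := by
      have : (k : ℝ) ^ 4 ≤ (4 * A) ^ 4 := pow_le_pow_left₀ hk0.le hk1 4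
      have h256 : (4 * A) ^ 4 = 256 * A ^ 4 := by ring
      rw [h256] at this
      nlinarith [sq_nonneg (m : ℝ), mul_le_mul_of_nonneg_left this (sq_nonneg (m : ℝ))]
    have hA0 : 0 < A := by linarith
    have e5 : (4 * Real.exp (-(m : ℝ)) * k ^ 2 - S / 4) * Real.log Y ≤
        -(c / 768 * A ^ 2 * (c / 24 * L)) := by
      calc (4 * Real.exp (-(m : ℝ)) * k ^ 2 - S / 4) * Real.log Y ≤
            -(c / 768 * A ^ 2) * Real.log Y := mul_le_mul_of_nonneg_right e1 hlY0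
        _ = -((c / 768 * A ^ 2) * Real.log Y) := by ring
        _ ≤ _ := by
          have := mul_le_mul_of_nonneg_left hlY (show 0 ≤ c / 768 * A ^ 2 by positivity)
          linarith
    have e6 : L ^ (1 - 2 * c) = L / A ^ 2 := by
      rw [Real.rpow_sub hL0, Real.rpow_one, hAL, ← Real.rpow_natCast (L ^ c), ← Real.rpow_mul hL0.le]
      congr 2
      push_cast
      ring
    rw [e6, hD, div_le_iff₀ (by positivity)]
    have e7 : c / 768 * A ^ 2 * (c / 24 * L) =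
        c ^ 2 / (18432 * 1024 * m ^ 2) * (L / A ^ 2) * (1024 * m ^ 2 * A ^ 4) := by
      field_simp
      ring
    have e8 : c ^ 2 / (18432 * 1024 * m ^ 2) * (L / A ^ 2) * (4 * (m : ℝ) ^ 2 * k ^ 4) ≤
        c ^ 2 / (18432 * 1024 * m ^ 2) * (L / A ^ 2) * (1024 * m ^ 2 * A ^ 4) :=
      mul_le_mul_of_nonneg_left hN (by positivity)
    have e9 : -(c ^ 2 / (18432 * 1024 * (m : ℝ) ^ 2) * (L / A ^ 2)) * (4 * m ^ 2 * k ^ 4) =
        -(c ^ 2 / (18432 * 1024 * m ^ 2) * (L / A ^ 2) * (4 * (m : ℝ) ^ 2 * k ^ 4)) := by ring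
    rw [e9]
    linarith
  rw [l1, l2, hC]
  linarith

end Pool.Agent.VINO
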