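import Pool.Agent.VINO.PA

/-!
# VINO / PB: the pointwise ergodic theorem along `a c n`

PROOFS.  `lac`: `N_i = ⌈ρ^i⌉`, `ρ > 1`. By `dif` `∑_i ∫ ‖av N_i (..) - DD c N_i (..)‖^2 ≤ ∑_i (C/(log N_i)^2)^2 ∫ ‖f‖^2 < ∞`
(`log N_i ≥ i log ρ`; `N_i ≥ 2` for large `i`), so the differences tend to `0` almost everywhere.
`point_real`: for `0 ≤ f ≤ M` real: for almost all `x`, for all `ρ = 1 + 1/k`: the averages `A_N = av N (f (T^[a c n] x))` along
`N = ⌈ρ^i⌉` tend to `z` (`birk`, `lac`), and for `⌈ρ^i⌉ ≤ N ≤ ⌈ρ^(i+1)⌉`: `A_N ≤ (⌈ρ^(i+1)⌉/N) A_(⌈ρ^(i+1)⌉)` and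
`A_N ≥ (⌈ρ^i⌉/N) A_(⌈ρ^i⌉)` (`f ≥ 0`), so `z/ρ ≤ liminf A_N ≤ limsup A_N ≤ ρ z`; let `ρ → 1`.
`point`: `f` complex bounded: apply it to `Re f + M`, `Im f + M`, and take linear combinations (uniqueness of limits).
-/

set_option autoImplicit false

namespace Pool.Agent.VINO

open MeasureTheory Filter Topology

theorem lac {c : ℝ} (hc0 : 0 < c) (hc1 : c < 1 / 2) {X : Type*} [MeasurableSpace X]
    (μ : Measure X) [IsProbabilityMeasure μ] (T : X → X) (hT : MeasurePreserving T μ μ)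
    (f : X → ℂ) (hf : Measurable f) (hb : ∃ M : ℝ, ∀ x, ‖f x‖ ≤ M) (ρ : ℝ) (hρ : 1 < ρ) :
    ∀ᵐ x ∂μ, Tendsto (fun i : ℕ => av ⌈ρ ^ i⌉₊ (fun n => f (T^[a c n] x)) -
      DD c ⌈ρ ^ i⌉₊ (fun m => f (T^[m] x))) atTop (𝓝 0) := by
  obtain ⟨C, hC, hdif⟩ := dif hc0 hc1
  obtain ⟨M, hM⟩ := hb
  set g : ℕ → X → ℂ := fun i x => av ⌈ρ ^ i⌉₊ (fun n => f (T^[a c n] x)) -
      DD c ⌈ρ ^ i⌉₊ (fun m => f (T^[m] x)) with hg
  have hTk : ∀ k : ℕ, Measurable (T^[k]) := fun k => hT.measurable.iterate k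
  have hgm : ∀ i, Measurable (g i) := by
    intro i
    rw [hg]
    unfold av DD
    refine Measurable.sub ?_ ?_
    · exact (Finset.measurable_sum _ fun n _ => hf.comp (hTk _)).const_mul _
    · exact (Finset.measurable_sum _ fun n _ => (hf.comp (hTk _)).const_mul _).const_mul _
  have hgb : ∀ i, ∃ B : ℝ, ∀ x, ‖g i x‖ ≤ B := by
    intro i
    refine ⟨‖((⌈ρ ^ i⌉₊ : ℕ) : ℂ)⁻¹‖ * ∑ _n ∈ Finset.Icc 1 ⌈ρ ^ i⌉₊, M +
      ‖((⌈ρ ^ i⌉₊ : ℕ) : ℂ)⁻¹‖ * ∑ m ∈ Finset.range (⌊G c (⌈ρ ^ i⌉₊ : ℕ)⌋₊ + 1),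
        ‖((wt c (⌈ρ ^ i⌉₊ : ℕ) m : ℝ) : ℂ)‖ * M, fun x => ?_⟩
    refine (norm_sub_le _ _).trans (add_le_add ?_ ?_)
    · unfold av
      rw [norm_mul]
      refine mul_le_mul_of_nonneg_left ?_ (norm_nonneg _)
      exact (norm_sum_le _ _).trans (Finset.sum_le_sum fun n _ => hM _)
    · unfold DD
      rw [norm_mul]
      refine mul_le_mul_of_nonneg_left ?_ (norm_nonneg _)
      refine (norm_sum_le _ _).trans (Finset.sum_le_sum fun m _ => ?_)
      rw [norm_mul]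
      exact mul_le_mul_of_nonneg_left (hM _) (norm_nonneg _)
  have hint : ∀ i, Integrable (fun x => ‖g i x‖ ^ 2) μ := by
    intro i
    obtain ⟨B, hB⟩ := hgb i
    refine Integrable.of_bound ((hgm i).norm.pow_const 2).aestronglyMeasurable (B ^ 2)
      (ae_of_all _ fun x => ?_)
    rw [Real.norm_of_nonneg (by positivity)]
    exact pow_le_pow_left₀ (norm_nonneg _) (hB x) 2
  have hlogρ : 0 < Real.log ρ := Real.log_pos hρ
  have hf2 : ∫ x, ‖f x‖ ^ 2 ∂μ ≤ M ^ 2 := by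
    have h1 : ∫ x, ‖f x‖ ^ 2 ∂μ ≤ ∫ _x, M ^ 2 ∂μ := by
      refine integral_mono ?_ (integrable_const _) fun x => ?_
      · refine Integrable.of_bound (hf.norm.pow_const 2).aestronglyMeasurable (M ^ 2)
          (ae_of_all _ fun x => ?_)
        rw [Real.norm_of_nonneg (by positivity)]
        exact pow_le_pow_left₀ (norm_nonneg _) (hM x) 2
      · exact pow_le_pow_left₀ (norm_nonneg _) (hM x) 2
    simpa using h1
  have hbd : ∀ i : ℕ, ∫ x, ‖g (i + 1) x‖ ^ 2 ∂μ ≤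
      ((C / Real.log ρ ^ 2) ^ 2 * M ^ 2) * (1 / ((i + 1 : ℕ) : ℝ) ^ 4) := by
    intro i
    have hρi : 1 < ρ ^ (i + 1) := one_lt_pow₀ hρ (by omega)
    have h2 : 2 ≤ ⌈ρ ^ (i + 1)⌉₊ := by
      have : 1 < ⌈ρ ^ (i + 1)⌉₊ := Nat.lt_ceil.2 (by simpa using hρi)
      omega
    have h3 := hdif X μ T hT f hf ⟨M, hM⟩ _ h2
    have h4 : ((i + 1 : ℕ) : ℝ) * Real.log ρ ≤ Real.log (⌈ρ ^ (i + 1)⌉₊ : ℕ) := by
      rw [← Real.log_pow]
      exact Real.log_le_log (by positivity) (Nat.le_ceil _)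
    have hi0 : (0 : ℝ) < ((i + 1 : ℕ) : ℝ) := by positivity
    have h5 : 0 < ((i + 1 : ℕ) : ℝ) * Real.log ρ := by positivity
    have h6 : (C / Real.log (⌈ρ ^ (i + 1)⌉₊ : ℕ) ^ 2) ^ 2 ≤
        (C / (((i + 1 : ℕ) : ℝ) * Real.log ρ) ^ 2) ^ 2 := by
      refine pow_le_pow_left₀ (by positivity) ?_ 2
      exact div_le_div_of_nonneg_left hC.le (by positivity) (pow_le_pow_left₀ h5.le h4 2)
    refine h3.trans ?_
    calc (C / Real.log (⌈ρ ^ (i + 1)⌉₊ : ℕ) ^ 2) ^ 2 * ∫ x, ‖f x‖ ^ 2 ∂μ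
        ≤ (C / (((i + 1 : ℕ) : ℝ) * Real.log ρ) ^ 2) ^ 2 * M ^ 2 :=
          mul_le_mul h6 hf2 (integral_nonneg fun x => by positivity) (by positivity)
      _ = _ := by field_simp
  have hsum : Summable fun i : ℕ => ∫ x, ‖g (i + 1) x‖ ^ 2 ∂μ := by
    refine Summable.of_nonneg_of_le (fun i => integral_nonneg fun x => by positivity) hbd ?_
    refine Summable.mul_left _ ?_
    exact (summable_nat_add_iff 1).2 (Real.summable_one_div_nat_pow.2 (by norm_num : 1 < 4))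
  have hlint : ∫⁻ x, ∑' i : ℕ, ENNReal.ofReal (‖g (i + 1) x‖ ^ 2) ∂μ ≠ ⊤ := by
    rw [lintegral_tsum fun i => ((hgm (i + 1)).norm.pow_const 2).ennreal_ofReal.aemeasurable]
    have h1 : ∀ i : ℕ, ∫⁻ x, ENNReal.ofReal (‖g (i + 1) x‖ ^ 2) ∂μ =
        ENNReal.ofReal (∫ x, ‖g (i + 1) x‖ ^ 2 ∂μ) := fun i =>
      (ofReal_integral_eq_lintegral_ofReal (hint _) (ae_of_all _ fun x => by positivity)).symm
    simp_rw [h1]
    exact hsum.tsum_ofReal_ne_top
  have hae := ae_lt_top' (AEMeasurable.ennreal_tsum fun i =>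
    ((hgm (i + 1)).norm.pow_const 2).ennreal_ofReal.aemeasurable) hlint
  filter_upwards [hae] with x hx
  have h1 : Tendsto (fun i : ℕ => ENNReal.ofReal (‖g (i + 1) x‖ ^ 2)) atTop (𝓝 0) :=
    ENNReal.tendsto_atTop_zero_of_tsum_ne_top hx.ne
  have h2 : Tendsto (fun i : ℕ => ‖g (i + 1) x‖ ^ 2) atTop (𝓝 0) := by
    have h3 := (ENNReal.tendsto_toReal ENNReal.zero_ne_top).comp h1
    simp only [ENNReal.toReal_zero] at h3
    refine h3.congr fun i => ?_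
    simp only [Function.comp_apply]
    rw [ENNReal.toReal_ofReal (by positivity)]
  have h3 : Tendsto (fun i : ℕ => ‖g (i + 1) x‖) atTop (𝓝 0) := by
    have h4 := (Real.continuous_sqrt.tendsto 0).comp h2
    rw [Real.sqrt_zero] at h4
    refine h4.congr fun i => ?_
    simp only [Function.comp_apply]
    exact Real.sqrt_sq (norm_nonneg _)
  have h4 : Tendsto (fun i : ℕ => g (i + 1) x) atTop (𝓝 0) := tendsto_zero_iff_norm_tendsto_zero.2 h3
  exact (tendsto_add_atTop_iff_nat (f := fun i => g i x) 1).1 h4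

/-- The deterministic part: averages of a nonnegative sequence which converge along `⌈ρ ^ i⌉`. -/
theorem av_real (u : ℕ → ℝ) (hu : ∀ n, 0 ≤ u n) (z : ℂ)
    (h : ∀ k : ℕ, Tendsto (fun i : ℕ => av ⌈(1 + 1 / ((k : ℝ) + 1)) ^ i⌉₊ fun n => (u n : ℂ)) atTop
      (𝓝 z)) : Tendsto (fun N : ℕ => av N fun n => (u n : ℂ)) atTop (𝓝 z) := by
  set S : ℕ → ℝ := fun N => ∑ n ∈ Finset.Icc 1 N, u n with hS
  have hav : ∀ N : ℕ, av N (fun n => (u n : ℂ)) = ((S N / N : ℝ) : ℂ) := by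
    intro N
    unfold av
    rw [hS]
    push_cast
    ring
  have hmono : Monotone S := by
    intro N N' hN
    exact Finset.sum_le_sum_of_subset_of_nonneg (Finset.Icc_subset_Icc_right hN)
      fun n _ _ => hu n
  have hre : ∀ k : ℕ, Tendsto (fun i : ℕ => S ⌈(1 + 1 / ((k : ℝ) + 1)) ^ i⌉₊ /
      (⌈(1 + 1 / ((k : ℝ) + 1)) ^ i⌉₊ : ℕ)) atTop (𝓝 z.re) := by
    intro k
    have h1 := (Complex.continuous_re.tendsto z).comp (h k)
    refine h1.congr fun i => ?_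
    simp only [Function.comp_apply]
    rw [hav, Complex.ofReal_re]
  have him : z.im = 0 := by
    have h1 := (Complex.continuous_im.tendsto z).comp (h 0)
    refine tendsto_nhds_unique h1 ?_
    refine tendsto_const_nhds.congr fun i => ?_
    simp only [Function.comp_apply]
    rw [hav, Complex.ofReal_im]
  have hmain : Tendsto (fun N : ℕ => S N / N) atTop (𝓝 z.re) := by
    apply tendsto_div_of_monotone_of_exists_subseq_tendsto_div S z.re hmono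
    intro a ha
    obtain ⟨k, hk⟩ : ∃ k : ℕ, 1 / ((k : ℝ) + 1) < a - 1 :=
      exists_nat_one_div_lt (by linarith)
    set ρ : ℝ := 1 + 1 / ((k : ℝ) + 1) with hρ
    have hρ1 : 1 < ρ := by
      have : (0 : ℝ) < 1 / ((k : ℝ) + 1) := by positivity
      linarith
    have hρa : ρ < a := by linarith
    have hpow : Tendsto (fun n : ℕ => ρ ^ n) atTop atTop := tendsto_pow_atTop_atTop_of_one_lt hρ1
    refine ⟨fun n => ⌈ρ ^ n⌉₊, ?_, tendsto_nat_ceil_atTop.comp hpow, hre k⟩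
    filter_upwards [hpow.eventually_ge_atTop (1 / (a - ρ))] with n hn
    have h1 : ((⌈ρ ^ (n + 1)⌉₊ : ℕ) : ℝ) < ρ ^ (n + 1) + 1 := Nat.ceil_lt_add_one (by positivity)
    have h2 : ρ ^ n ≤ (⌈ρ ^ n⌉₊ : ℕ) := Nat.le_ceil _
    rw [div_le_iff₀ (by linarith)] at hn
    have h3 : ρ ^ (n + 1) + 1 ≤ a * ρ ^ n := by
      rw [pow_succ]
      nlinarith
    have h4 : a * ρ ^ n ≤ a * (⌈ρ ^ n⌉₊ : ℕ) := mul_le_mul_of_nonneg_left h2 (by linarith)
    linarith
  have h1 : Tendsto (fun N : ℕ => ((S N / N : ℝ) : ℂ)) atTop (𝓝 ((z.re : ℝ) : ℂ)) :=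
    (Complex.continuous_ofReal.tendsto _).comp hmain
  have h2 : ((z.re : ℝ) : ℂ) = z := Complex.ext (by simp) (by simp [him])
  rw [h2] at h1
  exact h1.congr fun N => (hav N).symm

theorem point_nonneg {c : ℝ} (hc0 : 0 < c) (hc1 : c < 1 / 2) {X : Type*} [MeasurableSpace X]
    (μ : Measure X) [IsProbabilityMeasure μ] (T : X → X) (hT : MeasurePreserving T μ μ)
    (φ : X → ℝ) (hφ : Measurable φ) (h0 : ∀ x, 0 ≤ φ x) (M : ℝ) (hM : ∀ x, φ x ≤ M) :
    ∀ᵐ x ∂μ, ∃ z : ℂ,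
      Tendsto (fun N : ℕ => (N : ℂ)⁻¹ * ∑ m ∈ Finset.range N, (φ (T^[m] x) : ℂ)) atTop (𝓝 z) ∧
      Tendsto (fun N : ℕ => av N fun n => (φ (T^[a c n] x) : ℂ)) atTop (𝓝 z) := by
  have hf : Measurable fun x => (φ x : ℂ) := Complex.measurable_ofReal.comp hφ
  have hb : ∃ M : ℝ, ∀ x, ‖(φ x : ℂ)‖ ≤ M := ⟨M, fun x => by
    rw [Complex.norm_real, Real.norm_of_nonneg (h0 x)]
    exact hM x⟩
  have hρ : ∀ k : ℕ, (1 : ℝ) < 1 + 1 / ((k : ℝ) + 1) := fun k => by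
    have : (0 : ℝ) < 1 / ((k : ℝ) + 1) := by positivity
    linarith
  have hl := ae_all_iff.2 fun k : ℕ => lac hc0 hc1 μ T hT (fun x => (φ x : ℂ)) hf hb _ (hρ k)
  filter_upwards [birk hc0 μ T hT (fun x => (φ x : ℂ)) hf hb, hl] with x hx hlx
  obtain ⟨z, hz1, hz2⟩ := hx
  refine ⟨z, hz1, av_real (fun n => φ (T^[a c n] x)) (fun n => h0 _) z fun k => ?_⟩
  have hN : Tendsto (fun i : ℕ => ⌈(1 + 1 / ((k : ℝ) + 1)) ^ i⌉₊) atTop atTop :=
    tendsto_nat_ceil_atTop.comp (tendsto_pow_atTop_atTop_of_one_lt (hρ k))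
  have h1 := (hlx k).add (hz2.comp hN)
  rw [zero_add] at h1
  refine h1.congr fun i => ?_
  simp only [Function.comp_apply]
  ring

theorem point {c : ℝ} (hc0 : 0 < c) (hc1 : c < 1 / 2) {X : Type*} [MeasurableSpace X]
    (μ : Measure X) [IsProbabilityMeasure μ] (T : X → X) (hT : MeasurePreserving T μ μ)
    (f : X → ℂ) (hf : Measurable f) (hb : ∃ M : ℝ, ∀ x, ‖f x‖ ≤ M) :
    ∀ᵐ x ∂μ, ∃ z : ℂ,
      Tendsto (fun N : ℕ => (N : ℂ)⁻¹ * ∑ m ∈ Finset.range N, f (T^[m] x)) atTop (𝓝 z) ∧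
      Tendsto (fun N : ℕ => av N fun n => f (T^[a c n] x)) atTop (𝓝 z) := by
  obtain ⟨M, hM⟩ := hb
  have hre : ∀ x, |(f x).re| ≤ M := fun x => (Complex.abs_re_le_norm _).trans (hM x)
  have him : ∀ x, |(f x).im| ≤ M := fun x => (Complex.abs_im_le_norm _).trans (hM x)
  have h1 := point_nonneg hc0 hc1 μ T hT (fun x => (f x).re + M)
    ((Complex.measurable_re.comp hf).add_const M)
    (fun x => by linarith [neg_le_of_abs_le (hre x)]) (M + M)
    (fun x => by linarith [le_of_abs_le (hre x)])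
  have h2 := point_nonneg hc0 hc1 μ T hT (fun x => (f x).im + M)
    ((Complex.measurable_im.comp hf).add_const M)
    (fun x => by linarith [neg_le_of_abs_le (him x)]) (M + M)
    (fun x => by linarith [le_of_abs_le (him x)])
  filter_upwards [h1, h2] with x hx1 hx2
  obtain ⟨z₁, ha1, hb1⟩ := hx1
  obtain ⟨z₂, ha2, hb2⟩ := hx2
  have hfd : ∀ y, f y = (((f y).re + M : ℝ) : ℂ) + Complex.I * (((f y).im + M : ℝ) : ℂ) -
      (M + Complex.I * M) := by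
    intro y
    conv_lhs => rw [← Complex.re_add_im (f y)]
    push_cast
    ring
  refine ⟨z₁ + Complex.I * z₂ - (M + Complex.I * M), ?_, ?_⟩
  · have h3 := (ha1.add (ha2.const_mul Complex.I)).sub_const (M + Complex.I * M : ℂ)
    refine h3.congr' ?_
    filter_upwards [eventually_ge_atTop 1] with N hN
    have hN0 : (N : ℂ) ≠ 0 := by
      have : N ≠ 0 := by omega
      exact_mod_cast this
    have h4 : ∑ m ∈ Finset.range N, f (T^[m] x) =
        ∑ m ∈ Finset.range N, (((f (T^[m] x)).re + M : ℝ) : ℂ) +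
        Complex.I * ∑ m ∈ Finset.range N, (((f (T^[m] x)).im + M : ℝ) : ℂ) -
        N * (M + Complex.I * M) := by
      rw [Finset.mul_sum, ← Finset.sum_add_distrib]
      have h5 : (N : ℂ) * (M + Complex.I * M) = ∑ _m ∈ Finset.range N, ((M : ℂ) + Complex.I * M) := by
        rw [Finset.sum_const, Finset.card_range, nsmul_eq_mul]
      rw [h5, ← Finset.sum_sub_distrib]
      exact Finset.sum_congr rfl fun m _ => hfd _
    rw [h4]
    field_simp
  · have h3 := (hb1.add (hb2.const_mul Complex.I)).sub_const (M + Complex.I * M : ℂ)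
    refine h3.congr' ?_
    filter_upwards [eventually_ge_atTop 1] with N hN
    have hN0 : (N : ℂ) ≠ 0 := by
      have : N ≠ 0 := by omega
      exact_mod_cast this
    unfold av
    have h4 : ∑ n ∈ Finset.Icc 1 N, f (T^[a c n] x) =
        ∑ n ∈ Finset.Icc 1 N, (((f (T^[a c n] x)).re + M : ℝ) : ℂ) +
        Complex.I * ∑ n ∈ Finset.Icc 1 N, (((f (T^[a c n] x)).im + M : ℝ) : ℂ) -
        N * (M + Complex.I * M) := by
      rw [Finset.mul_sum, ← Finset.sum_add_distrib]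
      have h5 : (N : ℂ) * (M + Complex.I * M) = ∑ _n ∈ Finset.Icc 1 N, ((M : ℂ) + Complex.I * M) := by
        rw [Finset.sum_const, Nat.card_Icc, nsmul_eq_mul]
        simp
      rw [h5, ← Finset.sum_sub_distrib]
      exact Finset.sum_congr rfl fun m _ => hfd _
    rw [h4]
    field_simp

end Pool.Agent.VINO
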