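import Pool.Agent.VINO.PB
import Pool.Agent.VINO.Riesz
import Pool.Agent.VINO.FurB

/-!
# VINO / PC: the distribution of `f (T ^ a(n) x)` for every system

PROOF.  For almost all `x`, for all `p : ℕ × ℕ`: the averages along `a c n` and the Birkhoff averages of `mono p ∘ f` converge to the same
`z p` (`point`, `ae_all_iff`). Fix `x`. On `Y = closedBall 0 R` (`R ≥ 0`, compact) the sequences `y n = f (T^[a c n] x)` and
`y' m = f (T^[m] x)`: the set of the `φ : C(Y, ℂ)` such that both averages converge to the same limit is a closed subspace and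
contains the monomials, so it is everything (`mono_dense`). The limit functional is given by a probability measure on `Y`
(compactness of `ProbabilityMeasure Y` as in `Riesz.lean`; apply the argument to the empirical measures of `y`); let `ρ` be its
image in `ℂ`. For a continuous `φ : ℂ → ℂ` restrict `φ` to `Y`. (`(N)⁻¹ ∑_{m<N}` of `y'`; `av N` of `y`.)
-/

set_option autoImplicit false

namespace Pool.Agent.VINO

open MeasureTheory Filter Topology

/-- Limits of uniformly bounded linear functionals, extended from a family with dense span. -/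
private theorem pc_close {E : Type*} [NormedAddCommGroup E] [NormedSpace ℂ E]
    (T : ℕ → E →ₗ[ℂ] ℂ) (Λ : E →ₗ[ℂ] ℂ) (hT : ∀ N φ, ‖T N φ‖ ≤ ‖φ‖) (hΛ : ∀ φ, ‖Λ φ‖ ≤ ‖φ‖)
    (V : Set E) (h : ∀ v ∈ V, Tendsto (fun N => T N v) atTop (𝓝 (Λ v))) (φ : E)
    (hφ : φ ∈ closure (Submodule.span ℂ V : Set E)) :
    Tendsto (fun N => T N φ) atTop (𝓝 (Λ φ)) := by
  have h1 : ∀ ψ ∈ Submodule.span ℂ V, Tendsto (fun N => T N ψ) atTop (𝓝 (Λ ψ)) := by
    intro ψ hψ
    refine Submodule.span_induction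
      (p := fun ψ _ => Tendsto (fun N => T N ψ) atTop (𝓝 (Λ ψ))) ?_ ?_ ?_ ?_ hψ
    · intro v hv
      exact h v hv
    · simp only [map_zero]
      exact tendsto_const_nhds
    · intro x y _ _ hx hy
      simp only [map_add]
      exact hx.add hy
    · intro c x _ hx
      simp only [map_smul, smul_eq_mul]
      exact hx.const_mul c
  rw [Metric.tendsto_atTop]
  intro ε hε
  obtain ⟨ψ, hψ, hd⟩ := Metric.mem_closure_iff.1 hφ (ε / 4) (by positivity)
  obtain ⟨N₀, hN₀⟩ := Metric.tendsto_atTop.1 (h1 ψ hψ) (ε / 4) (by positivity)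
  refine ⟨N₀, fun N hN => ?_⟩
  have h2 := hN₀ N hN
  rw [dist_eq_norm] at hd h2 ⊢
  have e : T N φ - Λ φ = T N (φ - ψ) + (T N ψ - Λ ψ) - Λ (φ - ψ) := by
    simp only [map_sub]
    ring
  rw [e]
  have h3 := norm_sub_le (T N (φ - ψ) + (T N ψ - Λ ψ)) (Λ (φ - ψ))
  have h4 := norm_add_le (T N (φ - ψ)) (T N ψ - Λ ψ)
  have h5 := hT N (φ - ψ)
  have h6 := hΛ (φ - ψ)
  linarith

/-- the averages along a sequence of points, as linear functionals -/
private noncomputable def pcA {Y : Type*} [TopologicalSpace Y] [CompactSpace Y] (y : ℕ → Y)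
    (N : ℕ) : C(Y, ℂ) →ₗ[ℂ] ℂ where
  toFun φ := av N fun n => φ (y n)
  map_add' φ ψ := by
    unfold av
    simp only [ContinuousMap.add_apply]
    rw [Finset.sum_add_distrib, mul_add]
  map_smul' r φ := by
    unfold av
    simp only [ContinuousMap.smul_apply, smul_eq_mul, RingHom.id_apply]
    rw [← Finset.mul_sum]
    ring

/-- the Birkhoff averages along a sequence of points, as linear functionals -/
private noncomputable def pcB {Y : Type*} [TopologicalSpace Y] [CompactSpace Y] (y : ℕ → Y)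
    (N : ℕ) : C(Y, ℂ) →ₗ[ℂ] ℂ where
  toFun φ := (N : ℂ)⁻¹ * ∑ m ∈ Finset.range N, φ (y m)
  map_add' φ ψ := by
    simp only [ContinuousMap.add_apply]
    rw [Finset.sum_add_distrib, mul_add]
  map_smul' r φ := by
    simp only [ContinuousMap.smul_apply, smul_eq_mul, RingHom.id_apply]
    rw [← Finset.mul_sum]
    ring

/-- integration, as a linear functional -/
private noncomputable def pcI {Y : Type*} [TopologicalSpace Y] [CompactSpace Y]
    [MeasurableSpace Y] [BorelSpace Y] (ρ : Measure Y) [IsFiniteMeasure ρ] :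
    C(Y, ℂ) →ₗ[ℂ] ℂ where
  toFun φ := ∫ t, φ t ∂ρ
  map_add' φ ψ := by
    simp only [ContinuousMap.add_apply]
    exact integral_add
      (Integrable.of_bound φ.continuous.aestronglyMeasurable ‖φ‖
        (Filter.Eventually.of_forall fun t => φ.norm_coe_le_norm t))
      (Integrable.of_bound ψ.continuous.aestronglyMeasurable ‖ψ‖
        (Filter.Eventually.of_forall fun t => ψ.norm_coe_le_norm t))
  map_smul' r φ := by
    simp only [ContinuousMap.smul_apply, RingHom.id_apply]
    exact integral_smul r _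

/-- the empirical measure -/
private noncomputable def pcEmp {Y : Type*} [MeasurableSpace Y] (y : ℕ → Y) (N : ℕ) : Measure Y :=
  ((N + 1 : ℕ) : ENNReal)⁻¹ • ∑ n ∈ Finset.Icc 1 (N + 1), Measure.dirac (y n)

private lemma pcEmp_prob {Y : Type*} [MeasurableSpace Y] (y : ℕ → Y) (N : ℕ) :
    IsProbabilityMeasure (pcEmp y N) := by
  constructor
  unfold pcEmp
  rw [Measure.smul_apply, Measure.finsetSum_apply]
  simp only [measure_univ, Finset.sum_const, Nat.card_Icc, Nat.add_sub_cancel, nsmul_eq_mul,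
    mul_one, smul_eq_mul]
  exact ENNReal.inv_mul_cancel (by simp) (ENNReal.natCast_ne_top _)

private lemma pcEmp_int {Y : Type*} [MetricSpace Y] [CompactSpace Y] [MeasurableSpace Y]
    [BorelSpace Y] (y : ℕ → Y) (N : ℕ) (φ : C(Y, ℂ)) :
    ∫ t, φ t ∂(pcEmp y N) = av (N + 1) fun n => φ (y n) := by
  unfold pcEmp av
  rw [integral_smul_measure, integral_finsetSum_measure]
  · simp only [integral_dirac]
    rw [ENNReal.toReal_inv, ENNReal.toReal_natCast, Complex.real_smul]
    push_cast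
    ring
  · intro n _
    exact Integrable.of_bound φ.continuous.aestronglyMeasurable ‖φ‖
      (Filter.Eventually.of_forall fun t => φ.norm_coe_le_norm t)

/-- The deterministic part. -/
private theorem pc_det {Y : Type*} [MetricSpace Y] [CompactSpace Y] [MeasurableSpace Y]
    [BorelSpace Y] (y y' : ℕ → Y) (V : Set C(Y, ℂ))
    (hV : ∀ f, f ∈ closure (Submodule.span ℂ V : Set C(Y, ℂ)))
    (h : ∀ v ∈ V, ∃ z : ℂ, Tendsto (fun N => av N fun n => v (y n)) atTop (𝓝 z) ∧
      Tendsto (fun N : ℕ => (N : ℂ)⁻¹ * ∑ m ∈ Finset.range N, v (y' m)) atTop (𝓝 z)) :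
    ∃ ρ : Measure Y, IsProbabilityMeasure ρ ∧ ∀ φ : C(Y, ℂ),
      Tendsto (fun N => av N fun n => φ (y n)) atTop (𝓝 (∫ t, φ t ∂ρ)) ∧
      Tendsto (fun N : ℕ => (N : ℂ)⁻¹ * ∑ m ∈ Finset.range N, φ (y' m)) atTop
        (𝓝 (∫ t, φ t ∂ρ)) := by
  set R : ℕ → ProbabilityMeasure Y := fun N => ⟨pcEmp y N, pcEmp_prob y N⟩ with hR
  set U : Ultrafilter ℕ := hyperfilter ℕ with hU
  set ρ : ProbabilityMeasure Y := (U.map R).lim with hρ
  have hlim : Tendsto R U (𝓝 ρ) := (U.map R).le_nhds_lim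
  have hint : ∀ (φ : C(Y, ℂ)) (z : ℂ), Tendsto (fun N => av N fun n => φ (y n)) atTop (𝓝 z) →
      z = ∫ t, φ t ∂(ρ : Measure Y) := by
    intro φ z hz
    have h1 : Tendsto (fun N => ∫ t, φ t ∂(R N : Measure Y)) U
        (𝓝 (∫ t, φ t ∂(ρ : Measure Y))) :=
      (ProbabilityMeasure.tendsto_iff_forall_integral_rclike_tendsto ℂ).1 hlim
        (BoundedContinuousFunction.mkOfCompact φ)
    have h3 : Tendsto (fun N => av (N + 1) fun n => φ (y n)) U (𝓝 z) :=
      (hz.comp (tendsto_add_atTop_nat 1)).mono_left Nat.hyperfilter_le_atTop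
    have h4 : (fun N => ∫ t, φ t ∂(R N : Measure Y)) = fun N => av (N + 1) fun n => φ (y n) := by
      funext N
      exact pcEmp_int y N φ
    rw [h4] at h1
    exact tendsto_nhds_unique h3 h1
  refine ⟨ρ, inferInstance, fun φ => ⟨?_, ?_⟩⟩
  · refine pc_close (pcA y) (pcI (ρ : Measure Y)) ?_ ?_ V ?_ φ (hV φ)
    · intro N ψ
      exact av_norm_le (norm_nonneg _) (fun n _ => ψ.norm_coe_le_norm _) N
    · intro ψ
      have h1 := norm_integral_le_of_norm_le_const (μ := (ρ : Measure Y)) (f := fun t => ψ t)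
        (ae_of_all _ fun t => ψ.norm_coe_le_norm t)
      rw [probReal_univ, mul_one] at h1
      exact h1
    · intro v hv
      obtain ⟨z, hz1, hz2⟩ := h v hv
      have h2 := hint v z hz1
      rw [h2] at hz1
      exact hz1
  · refine pc_close (pcB y') (pcI (ρ : Measure Y)) ?_ ?_ V ?_ φ (hV φ)
    · intro N ψ
      show ‖(N : ℂ)⁻¹ * ∑ m ∈ Finset.range N, ψ (y' m)‖ ≤ ‖ψ‖
      rcases Nat.eq_zero_or_pos N with rfl | hN
      · simp
      · rw [norm_mul, norm_inv, Complex.norm_natCast]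
        have h1 : ‖∑ n ∈ Finset.range N, ψ (y' n)‖ ≤ N * ‖ψ‖ := by
          refine (norm_sum_le _ _).trans ((Finset.sum_le_sum
            (fun n _ => ψ.norm_coe_le_norm (y' n))).trans ?_)
          rw [Finset.sum_const, Finset.card_range, nsmul_eq_mul]
        have h2 : (0 : ℝ) < N := by exact_mod_cast hN
        calc (N : ℝ)⁻¹ * ‖∑ n ∈ Finset.range N, ψ (y' n)‖ ≤ (N : ℝ)⁻¹ * (N * ‖ψ‖) :=
              mul_le_mul_of_nonneg_left h1 (by positivity)
          _ = ‖ψ‖ := by field_simp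
    · intro ψ
      have h1 := norm_integral_le_of_norm_le_const (μ := (ρ : Measure Y)) (f := fun t => ψ t)
        (ae_of_all _ fun t => ψ.norm_coe_le_norm t)
      rw [probReal_univ, mul_one] at h1
      exact h1
    · intro v hv
      obtain ⟨z, hz1, hz2⟩ := h v hv
      have h2 := hint v z hz1
      rw [h2] at hz2
      exact hz2

theorem point_dist {c : ℝ} (hc0 : 0 < c) (hc1 : c < 1 / 2) {X : Type*} [MeasurableSpace X]
    (μ : Measure X) [IsProbabilityMeasure μ] (T : X → X) (hT : MeasurePreserving T μ μ)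
    (f : X → ℂ) (hf : Measurable f) (R : ℝ) (hb : ∀ x, ‖f x‖ ≤ R) :
    ∀ᵐ x ∂μ, ∃ ρ : Measure ℂ, IsProbabilityMeasure ρ ∧ ρ (Metric.closedBall 0 R)ᶜ = 0 ∧
      ∀ φ : ℂ → ℂ, Continuous φ →
      Tendsto (fun N => av N fun n => φ (f (T^[a c n] x))) atTop (𝓝 (∫ t, φ t ∂ρ)) ∧
      Tendsto (fun N : ℕ => (N : ℂ)⁻¹ * ∑ m ∈ Finset.range N, φ (f (T^[m] x))) atTop
        (𝓝 (∫ t, φ t ∂ρ)) := by
  have hcY : CompactSpace (Metric.closedBall (0 : ℂ) R) :=
    isCompact_iff_compactSpace.1 (isCompact_closedBall _ _)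
  have hpt : ∀ p : ℕ × ℕ, ∀ᵐ x ∂μ, ∃ z : ℂ,
      Tendsto (fun N : ℕ => (N : ℂ)⁻¹ * ∑ m ∈ Finset.range N, mono p (f (T^[m] x))) atTop (𝓝 z) ∧
      Tendsto (fun N : ℕ => av N fun n => mono p (f (T^[a c n] x))) atTop (𝓝 z) := by
    intro p
    refine point hc0 hc1 μ T hT (fun x => mono p (f x))
      ((mono p).continuous.measurable.comp hf) ?_
    obtain ⟨M, hM⟩ := (isCompact_closedBall (0 : ℂ) R).exists_bound_of_continuousOn
      (f := fun t => mono p t) (mono p).continuous.continuousOn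
    exact ⟨M, fun x => hM (f x) (by simpa using hb x)⟩
  filter_upwards [ae_all_iff.2 hpt] with x hx
  let y : ℕ → Metric.closedBall (0 : ℂ) R := fun n => ⟨f (T^[a c n] x), by simpa using hb _⟩
  let y' : ℕ → Metric.closedBall (0 : ℂ) R := fun m => ⟨f (T^[m] x), by simpa using hb _⟩
  obtain ⟨ρ, hρ, hρ'⟩ := pc_det y y' (Set.range fun p : ℕ × ℕ => (mono p).comp
        (⟨Subtype.val, continuous_subtype_val⟩ : C(Metric.closedBall (0 : ℂ) R, ℂ)))
    (mono_dense R) (by
      rintro _ ⟨p, rfl⟩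
      obtain ⟨z, hz1, hz2⟩ := hx p
      exact ⟨z, hz2, hz1⟩)
  have hm : AEMeasurable (Subtype.val : Metric.closedBall (0 : ℂ) R → ℂ) ρ :=
    measurable_subtype_coe.aemeasurable
  refine ⟨ρ.map Subtype.val, Measure.isProbabilityMeasure_map hm, ?_, fun φ hφ => ?_⟩
  · rw [Measure.map_apply measurable_subtype_coe measurableSet_closedBall.compl]
    have h1 : (Subtype.val : Metric.closedBall (0 : ℂ) R → ℂ) ⁻¹' (Metric.closedBall 0 R)ᶜ = ∅ := by
      ext t
      simp only [Set.mem_preimage, Set.mem_compl_iff, Set.mem_empty_iff_false, iff_false, not_not]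
      exact t.2
    rw [h1, measure_empty]
  · rw [integral_map hm hφ.aestronglyMeasurable]
    exact hρ' (⟨fun t => φ t, hφ.comp continuous_subtype_val⟩ : C(Metric.closedBall (0 : ℂ) R, ℂ))

end Pool.Agent.VINO
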