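import Pool.Agent.Kur.PW

/-!
# VINO / PwA: eigenvectors of compact abelian groups span a dense subspace

PROOF.  `[MeasurableSpace K] := borel K`, Haar probability measure `m` on `K`. By
`Pool.Agent.Kur.exists_char_compact` the continuous characters separate the points of `K`, so by
Stone-Weierstrass (`ContinuousMap.starSubalgebra_topologicalClosure_eq_top_of_separatesPoints`; the span of the
characters is a star subalgebra) their linear span is dense in `C(K, ℂ)`. Let `U` be a neighbourhood of `1` with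
`‖ρ k v - v‖ ≤ ε/4` for `k ∈ U`; there is a continuous `ψ : K → ℝ`, `ψ ≥ 0`, supported in `U`, `∫ ψ dm = 1` (Urysohn:
`exists_continuous_zero_one_of_isClosed`, normalise; `m` is positive on nonempty open sets). Then
`‖∫ ψ(k) ρ k v dm - v‖ ≤ ε/4`. Choose `p = ∑ c_i χ_i` with `‖p - ψ‖ ≤ ε / (4 (‖v‖ + 1))`; then
`‖∫ p(k) ρ k v dm - ∫ ψ(k) ρ k v dm‖ ≤ ε/4`. And `w_i = c_i ∫ χ_i(k) ρ k v dm` is an eigenvector:
`ρ l w_i = c_i ∫ χ_i(k) ρ (l k) v dm = c_i ∫ χ_i (l⁻¹ k) ρ k v dm = χ_i(l)⁻¹ w_i` (`ρ l` is a continuous linear map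
and commutes with the integral: `ContinuousLinearMap.integral_comp_comm`; invariance of `m`:
`integral_mul_left_eq_self`). Integrability of continuous functions on compact `K`:
`Continuous.integrable_of_hasCompactSupport`.
-/

set_option autoImplicit false

namespace Pool.Agent.VINO

open MeasureTheory

private theorem cct : Continuous fun z : Circle => (z : ℂ) := continuous_subtype_val

section Chars

variable {K : Type*} [CommGroup K] [TopologicalSpace K] [IsTopologicalGroup K]
  [CompactSpace K] [T2Space K]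

/-- A continuous character as a continuous function. -/
private noncomputable def cf (χ : K →* Circle) (h : Continuous χ) : C(K, ℂ) :=
  ⟨fun k => ((χ k : Circle) : ℂ), cct.comp h⟩

private def ChSet (K : Type*) [CommGroup K] [TopologicalSpace K] [IsTopologicalGroup K]
    [CompactSpace K] [T2Space K] : Set C(K, ℂ) :=
  {f | ∃ (χ : K →* Circle) (h : Continuous χ), f = cf χ h}

private theorem adjoin_eq : (Algebra.adjoin ℂ (ChSet K)).toSubmodule =
    Submodule.span ℂ (ChSet K) := by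
  apply Algebra.adjoin_eq_span_of_subset
  refine .trans (fun x ↦ Submonoid.closure_induction (fun _ ↦ id) ⟨1, ?_, ?_⟩ ?_)
    Submodule.subset_span
  · exact continuous_const
  · ext k
    simp [cf]
  · rintro _ _ _ _ ⟨χ, h, rfl⟩ ⟨χ', h', rfl⟩
    refine ⟨χ * χ', h.mul h', ?_⟩
    ext k
    simp [cf]

private noncomputable def ChAlg (K : Type*) [CommGroup K] [TopologicalSpace K]
    [IsTopologicalGroup K] [CompactSpace K] [T2Space K] : StarSubalgebra ℂ C(K, ℂ) where
  toSubalgebra := Algebra.adjoin ℂ (ChSet K)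
  star_mem' := by
    change Algebra.adjoin ℂ (ChSet K) ≤ star (Algebra.adjoin ℂ (ChSet K))
    refine Algebra.adjoin_le ?_
    rintro _ ⟨χ, h, rfl⟩
    refine Algebra.subset_adjoin ⟨χ⁻¹, h.inv, ?_⟩
    ext1 x
    show (starRingEnd ℂ) ((χ x : Circle) : ℂ) = (((χ x)⁻¹ : Circle) : ℂ)
    exact (Circle.coe_inv_eq_conj _).symm

private theorem dense_chars : (Submodule.span ℂ (ChSet K)).topologicalClosure = ⊤ := by
  rw [← adjoin_eq]
  have h : (ChAlg K).topologicalClosure = ⊤ := by
    apply ContinuousMap.starSubalgebra_topologicalClosure_eq_top_of_separatesPoints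
    intro x y hxy
    have h1 : x * y⁻¹ ≠ 1 := by
      intro h
      exact hxy (mul_inv_eq_one.1 h)
    obtain ⟨χ, hχ, h2⟩ := Pool.Agent.Kur.exists_char_compact K _ h1
    refine ⟨_, ⟨cf χ hχ, Algebra.subset_adjoin ⟨χ, hχ, rfl⟩, rfl⟩, ?_⟩
    show ((χ x : Circle) : ℂ) ≠ ((χ y : Circle) : ℂ)
    intro h3
    apply h2
    have h4 : χ x = χ y := Circle.ext h3
    rw [map_mul, map_inv, h4, mul_inv_cancel]
  exact congr_arg (Subalgebra.toSubmodule <| StarSubalgebra.toSubalgebra ·) h

end Chars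

theorem pw_gen {K : Type*} [CommGroup K] [TopologicalSpace K] [IsTopologicalGroup K]
    [CompactSpace K] [T2Space K] {E : Type*} [NormedAddCommGroup E] [NormedSpace ℂ E]
    [CompleteSpace E] (ρ : K → E →ₗ[ℂ] E) (hmul : ∀ k l v, ρ (k * l) v = ρ k (ρ l v))
    (hone : ∀ v, ρ 1 v = v) (hiso : ∀ k v, ‖ρ k v‖ = ‖v‖)
    (hcont : ∀ v, Continuous fun k => ρ k v) (v : E) (ε : ℝ) (hε : 0 < ε) :
    ∃ (p : ℕ) (w : Fin p → E) (χ : Fin p → (K →* Circle)), (∀ i, Continuous (χ i)) ∧
      (∀ i k, ρ k (w i) = ((χ i k : Circle) : ℂ) • w i) ∧ ‖v - ∑ i, w i‖ ≤ ε := by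
  classical
  borelize K
  obtain ⟨m, hm⟩ : ∃ m : Measure K, m = Measure.haarMeasure ⊤ := ⟨_, rfl⟩
  have _ : m.IsMulLeftInvariant := by rw [hm]; infer_instance
  have _ : IsFiniteMeasureOnCompacts m := by rw [hm]; infer_instance
  have _ : m.IsOpenPosMeasure := by rw [hm]; infer_instance
  have _ : IsFiniteMeasure m := CompactSpace.isFiniteMeasure
  have hm1 : m Set.univ = 1 := by
    have := Measure.haarMeasure_self (K₀ := (⊤ : TopologicalSpace.PositiveCompacts K))
    rw [hm]
    exact this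
  have _ : IsProbabilityMeasure m := ⟨hm1⟩
  have hint : ∀ g : K → E, Continuous g → Integrable g m := fun g hg =>
    hg.integrable_of_hasCompactSupport (HasCompactSupport.of_compactSpace g)
  -- the neighbourhood
  obtain ⟨U, hU, hUopen, h1U⟩ : ∃ U : Set K, (∀ k ∈ U, ‖ρ k v - v‖ ≤ ε / 4) ∧ IsOpen U ∧
      (1 : K) ∈ U := by
    refine ⟨{k | ‖ρ k v - v‖ < ε / 4}, fun k hk => le_of_lt hk, ?_, ?_⟩
    · exact isOpen_lt ((hcont v).sub continuous_const).norm continuous_const
    · show ‖ρ 1 v - v‖ < ε / 4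
      rw [hone, sub_self, norm_zero]
      positivity
  obtain ⟨ψ, hψ0, hψ1, hψU, hψint⟩ : ∃ ψ : C(K, ℝ), (∀ k, 0 ≤ ψ k) ∧ True ∧
      (∀ k, k ∉ U → ψ k = 0) ∧ ∫ k, ψ k ∂m = 1 := by
    obtain ⟨f, hf1, hf2, hf3⟩ := exists_continuous_zero_one_of_isClosed
      (hUopen.isClosed_compl) (isClosed_singleton (x := (1 : K)))
      (Set.disjoint_compl_left_iff_subset.2 (by
        rw [Set.singleton_subset_iff]
        exact h1U))
    have hpos : 0 < ∫ k, f k ∂m := by
      refine (integral_pos_iff_support_of_nonneg (fun k => (hf3 k).1)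
        (f.continuous.integrable_of_hasCompactSupport
          (HasCompactSupport.of_compactSpace _))).2 ?_
      refine (f.continuous.isOpen_support).measure_pos m ⟨1, ?_⟩
      have : f 1 = 1 := hf2 rfl
      rw [Function.mem_support, this]
      exact one_ne_zero
    refine ⟨⟨fun k => f k / ∫ k, f k ∂m, by fun_prop⟩, fun k => ?_, trivial, fun k hk => ?_, ?_⟩
    · exact div_nonneg (hf3 k).1 hpos.le
    · show f k / ∫ k, f k ∂m = 0
      rw [hf1 hk]
      simp
    · show ∫ k, f k / ∫ k, f k ∂m ∂m = 1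
      rw [integral_div, div_self hpos.ne']
  -- approximation of ψ
  obtain ⟨ψc, hψc⟩ : ∃ ψc : C(K, ℂ), ∀ k, ψc k = ((ψ k : ℝ) : ℂ) :=
    ⟨⟨fun k => ((ψ k : ℝ) : ℂ), by fun_prop⟩, fun _ => rfl⟩
  have hcl : ψc ∈ closure ((Submodule.span ℂ (ChSet K) : Submodule ℂ C(K, ℂ)) : Set C(K, ℂ)) := by
    rw [← Submodule.topologicalClosure_coe, dense_chars]
    trivial
  obtain ⟨P, hP, hdist⟩ := Metric.mem_closure_iff.1 hcl (ε / (4 * (‖v‖ + 1))) (by positivity)
  rw [SetLike.mem_coe, Submodule.mem_span_set'] at hP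
  obtain ⟨n, c, g, hg⟩ := hP
  choose χ hχ hgχ using fun i => (g i).2
  refine ⟨n, fun i => c i • ∫ k, ((χ i k : Circle) : ℂ) • ρ k v ∂m, fun i => (χ i)⁻¹,
    fun i => (hχ i).inv, ?_, ?_⟩
  · intro i l
    have hρl : Continuous (ρ l) := by
      refine AddMonoidHomClass.continuous_of_bound (ρ l) 1 fun x => ?_
      rw [hiso, one_mul]
    have e1 : ρ l (∫ k, ((χ i k : Circle) : ℂ) • ρ k v ∂m) =
        ∫ k, ρ l (((χ i k : Circle) : ℂ) • ρ k v) ∂m :=
      ((⟨ρ l, hρl⟩ : E →L[ℂ] E).integral_comp_comm (hint _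
        ((cct.comp (hχ i)).smul (hcont v)))).symm
    have e2 : ∀ k, ρ l (((χ i k : Circle) : ℂ) • ρ k v) =
        (((χ i)⁻¹ l : Circle) : ℂ) • (fun k => ((χ i k : Circle) : ℂ) • ρ k v) (l * k) := by
      intro k
      show ρ l (((χ i k : Circle) : ℂ) • ρ k v) =
        (((χ i)⁻¹ l : Circle) : ℂ) • (((χ i (l * k) : Circle) : ℂ) • ρ (l * k) v)
      rw [map_smul, ← hmul, smul_smul, MonoidHom.inv_apply, map_mul]
      congr 1
      rw [← Circle.coe_mul, inv_mul_cancel_left]
    show ρ l (c i • ∫ k, ((χ i k : Circle) : ℂ) • ρ k v ∂m) =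
      (((χ i)⁻¹ l : Circle) : ℂ) • (c i • ∫ k, ((χ i k : Circle) : ℂ) • ρ k v ∂m)
    have e3 : ∫ k, (fun k => ((χ i k : Circle) : ℂ) • ρ k v) (l * k) ∂m =
        ∫ k, ((χ i k : Circle) : ℂ) • ρ k v ∂m :=
      integral_mul_left_eq_self (fun k => ((χ i k : Circle) : ℂ) • ρ k v) l
    rw [map_smul, e1, integral_congr_ae (Filter.Eventually.of_forall e2), integral_smul,
      e3, smul_comm]
  · -- the distance
    have hsum : ∑ i, c i • ∫ k, ((χ i k : Circle) : ℂ) • ρ k v ∂m = ∫ k, P k • ρ k v ∂m := by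
      have e1 : ∀ k, P k • ρ k v = ∑ i, c i • (((χ i k : Circle) : ℂ) • ρ k v) := by
        intro k
        have e2 : P k = ∑ i, c i * ((χ i k : Circle) : ℂ) := by
          rw [← hg, ContinuousMap.sum_apply]
          refine Finset.sum_congr rfl fun i _ => ?_
          rw [ContinuousMap.smul_apply, hgχ i]
          rfl
        rw [e2, Finset.sum_smul]
        exact Finset.sum_congr rfl fun i _ => by rw [smul_smul]
      rw [integral_congr_ae (Filter.Eventually.of_forall e1), integral_finsetSum]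
      · exact Finset.sum_congr rfl fun i _ => (integral_smul _ _).symm
      · intro i _
        exact (hint _ ((cct.comp (hχ i)).smul (hcont v))).smul (c i)
    have h1 : ‖v - ∫ k, ((ψ k : ℝ) : ℂ) • ρ k v ∂m‖ ≤ ε / 4 := by
      have e1 : v = ∫ k, ((ψ k : ℝ) : ℂ) • v ∂m := by
        rw [integral_smul_const]
        have : ∫ k, ((ψ k : ℝ) : ℂ) ∂m = ((∫ k, ψ k ∂m : ℝ) : ℂ) := integral_ofReal
        rw [this, hψint]
        simp
      have hi1 : Integrable (fun k => ((ψ k : ℝ) : ℂ) • v) m := hint _ (by fun_prop)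
      have hi2 : Integrable (fun k => ((ψ k : ℝ) : ℂ) • ρ k v) m :=
        hint _ ((Complex.continuous_ofReal.comp ψ.continuous).smul (hcont v))
      have e0 : v - ∫ k, ((ψ k : ℝ) : ℂ) • ρ k v ∂m =
          ∫ k, (((ψ k : ℝ) : ℂ) • v - ((ψ k : ℝ) : ℂ) • ρ k v) ∂m := by
        rw [integral_sub hi1 hi2, ← e1]
      rw [e0]
      have h2 : ∀ k, ‖((ψ k : ℝ) : ℂ) • v - ((ψ k : ℝ) : ℂ) • ρ k v‖ ≤ ψ k * (ε / 4) := by
        intro k
        rw [← smul_sub, norm_smul, Complex.norm_real, Real.norm_eq_abs, abs_of_nonneg (hψ0 k)]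
        by_cases hk : k ∈ U
        · have := hU k hk
          rw [norm_sub_rev] at this
          exact mul_le_mul_of_nonneg_left this (hψ0 k)
        · rw [hψU k hk, zero_mul, zero_mul]
      refine (norm_integral_le_of_norm_le ?_ (Filter.Eventually.of_forall h2)).trans (le_of_eq ?_)
      · exact (ψ.continuous.integrable_of_hasCompactSupport
          (HasCompactSupport.of_compactSpace _)).mul_const _
      · rw [integral_mul_const, hψint, one_mul]
    have h2 : ‖(∫ k, ((ψ k : ℝ) : ℂ) • ρ k v ∂m) - ∫ k, P k • ρ k v ∂m‖ ≤ ε / 4 := by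
      have hi2 : Integrable (fun k => ((ψ k : ℝ) : ℂ) • ρ k v) m :=
        hint _ ((Complex.continuous_ofReal.comp ψ.continuous).smul (hcont v))
      have hi3 : Integrable (fun k => P k • ρ k v) m := hint _ (P.continuous.smul (hcont v))
      rw [← integral_sub hi2 hi3]
      have h3 : ∀ k, ‖((ψ k : ℝ) : ℂ) • ρ k v - P k • ρ k v‖ ≤ ε / 4 := by
        intro k
        rw [← sub_smul, norm_smul, hiso, ← hψc k, ← dist_eq_norm]
        have h4 : dist (ψc k) (P k) ≤ ε / (4 * (‖v‖ + 1)) :=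
          (ContinuousMap.dist_apply_le_dist k).trans hdist.le
        calc dist (ψc k) (P k) * ‖v‖ ≤ ε / (4 * (‖v‖ + 1)) * (‖v‖ + 1) := by
              gcongr
              linarith
          _ = ε / 4 := by
              have : ‖v‖ + 1 ≠ 0 := by positivity
              field_simp
      refine (norm_integral_le_of_norm_le_const (Filter.Eventually.of_forall h3)).trans ?_
      rw [measureReal_def, hm1]
      simp
    rw [hsum]
    have h3 := norm_sub_le_norm_sub_add_norm_sub v (∫ k, ((ψ k : ℝ) : ℂ) • ρ k v ∂m)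
      (∫ k, P k • ρ k v ∂m)
    linarith

end Pool.Agent.VINO
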