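import Pool.Agent.VINO.NBas
import Pool.Agent.VINO.PwA

/-!
# VINO / PwB: eigenfunctions of `LL G n` are dense in the functions invariant under `LL G (n+1)`

PROOF.  `P = LL G n` (as a topological group `↥(LL G n)`), `N` = topological closure in `P` of the subgroup
generated by `LL G (n+1) ∩ P` and `Γ ∩ P`. `N` is normal in `P` and `P ⧸ N` is commutative (commutators of elements of
`P` are in `LL G (n+1)`); it is Hausdorff (`N` is closed), compact (image of `P ⧸ Γ.subgroupOf P`, which is compact by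
`hcoc`). `E = {f : C(G ⧸ Γ, ℂ) | ∀ w ∈ LL G (n+1), ∀ x, f (w • x) = f x}`, a closed subspace, so a Banach space.
For `u ∈ P` and `f ∈ E` let `(ρ u f) x = f (u • x)`; it is in `E` (`f (u • w • x) = f ((u w u⁻¹) • u • x)`, `LL G (n+1)` is
normal). `LL G (n+1)` acts trivially on `E`, `Γ ∩ P` acts trivially (`gam_act`), `u ↦ ρ u f` is continuous
(`ContinuousMap.curry` of `(u, x) ↦ f (u • x)`), so `N` acts trivially, and as `P ⧸ N` is commutative the map `ρ`
(`ρ (u v) f = ρ v (ρ u f)`, an anti-action, is an action since the quotient is commutative) factors through `P ⧸ N`, with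
`k ↦ ρ k f` continuous on the quotient (`QuotientGroup.isQuotientMap_mk`). `‖ρ u f‖ = ‖f‖`. Apply `pw_gen`. The
eigenvectors `w i` with the character `χ i` of `P ⧸ N` are in `VV Γ n`: the character `u ↦ χ i (mk u)` of `P`, extended by
`1` outside `P` (`IsChr`: `ContinuousOn` by `continuousOn_iff_continuous_restrict`).
So `f` is a limit of sums of elements of `VV Γ n` (`Metric.mem_closure_iff`).
-/

set_option autoImplicit false

namespace Pool.Agent.VINO

open MeasureTheory Filter Topology

open scoped commutatorElement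

section

variable {G : Type*} [Group G] [TopologicalSpace G] [IsTopologicalGroup G]
  {Γ : Subgroup G} [CompactSpace (G ⧸ Γ)]

/-- the functions invariant under `LL G (n+1)` -/
private def pwE (Γ : Subgroup G) (n : ℕ) : Submodule ℂ C(G ⧸ Γ, ℂ) where
  carrier := {f | ∀ w ∈ LL G (n + 1), ∀ x, f (w • x) = f x}
  add_mem' := by
    intro f g hf hg w hw x
    rw [ContinuousMap.add_apply, ContinuousMap.add_apply, hf w hw, hg w hw]
  zero_mem' := fun w _ x => rfl
  smul_mem' := by
    intro c f hf w hw x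
    rw [ContinuousMap.smul_apply, ContinuousMap.smul_apply, hf w hw]

private lemma pwE_closed (Γ : Subgroup G) [CompactSpace (G ⧸ Γ)] (n : ℕ) :
    IsClosed (pwE Γ n : Set C(G ⧸ Γ, ℂ)) := by
  have h : (pwE Γ n : Set C(G ⧸ Γ, ℂ)) =
      ⋂ w : LL G (n + 1), ⋂ x : G ⧸ Γ, {f : C(G ⧸ Γ, ℂ) | f ((w : G) • x) = f x} := by
    ext f
    simp only [Set.mem_iInter, Set.mem_ofPred_eq]
    constructor
    · intro hf w x
      exact hf w w.2 x
    · intro hf w hw x
      exact hf ⟨w, hw⟩ x
  rw [h]
  refine isClosed_iInter fun w => isClosed_iInter fun x => ?_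
  exact isClosed_eq (continuous_eval_const _) (continuous_eval_const _)

/-- translation of a continuous function -/
private noncomputable def pwT (u : G) (f : C(G ⧸ Γ, ℂ)) : C(G ⧸ Γ, ℂ) :=
  ⟨fun x => f (u • x), f.continuous.comp (continuous_const_smul u)⟩

private lemma pwT_mem {n : ℕ} (u : G) {f : C(G ⧸ Γ, ℂ)} (hf : f ∈ pwE Γ n) :
    pwT u f ∈ pwE Γ n := by
  intro w hw x
  show f (u • w • x) = f (u • x)
  have h1 : u • w • x = (u * w * u⁻¹) • (u • x) := by
    rw [smul_smul, smul_smul]
    congr 1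
    group
  rw [h1]
  exact hf _ ((LL_normal (G := G) (n + 1)).conj_mem w hw u) _

/-- the action on the invariant functions -/
private noncomputable def pwR (n : ℕ) (u : LL G n) : pwE Γ n →ₗ[ℂ] pwE Γ n where
  toFun f := ⟨pwT (u : G) f.1, pwT_mem _ f.2⟩
  map_add' _ _ := rfl
  map_smul' _ _ := rfl

private lemma pwR_apply (n : ℕ) (u : LL G n) (f : pwE Γ n) (x : G ⧸ Γ) :
    (pwR n u f).1 x = f.1 ((u : G) • x) := rfl

private lemma pwR_mul (n : ℕ) (u v : LL G n) (f : pwE Γ n) :
    pwR n (u * v) f = pwR n v (pwR n u f) := by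
  apply Subtype.ext
  ext x
  rw [pwR_apply, pwR_apply, pwR_apply, smul_smul]
  rfl

private lemma pwR_one (n : ℕ) (f : pwE Γ n) : pwR n 1 f = f := by
  apply Subtype.ext
  ext x
  rw [pwR_apply]
  show f.1 ((1 : G) • x) = f.1 x
  rw [one_smul]

private lemma pwR_le (n : ℕ) (u : LL G n) (f : pwE Γ n) : ‖pwR n u f‖ ≤ ‖f‖ := by
  show ‖(pwR n u f).1‖ ≤ ‖f.1‖
  rw [ContinuousMap.norm_le _ (norm_nonneg _)]
  intro x
  rw [pwR_apply]
  exact ContinuousMap.norm_coe_le_norm f.1 _

private lemma pwR_norm (n : ℕ) (u : LL G n) (f : pwE Γ n) : ‖pwR n u f‖ = ‖f‖ := by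
  refine le_antisymm (pwR_le n u f) ?_
  have h1 := pwR_le n u⁻¹ (pwR n u f)
  rw [← pwR_mul, mul_inv_cancel, pwR_one] at h1
  exact h1

private lemma pwR_cont (n : ℕ) (f : pwE Γ n) : Continuous fun u : LL G n => pwR n u f := by
  have h0 : Continuous fun p : (LL G n) × (G ⧸ Γ) => f.1 ((p.1 : G) • p.2) :=
    f.1.continuous.comp ((continuous_subtype_val.comp continuous_fst).smul continuous_snd)
  have h1 := (ContinuousMap.curry ⟨_, h0⟩ : C(LL G n, C(G ⧸ Γ, ℂ))).continuous
  exact Continuous.subtype_mk h1 _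

/-- the subgroup which acts trivially -/
private def pwN (Γ : Subgroup G) (n : ℕ) : Subgroup (LL G n) :=
  ((LL G (n + 1)).subgroupOf (LL G n) ⊔ Γ.subgroupOf (LL G n)).topologicalClosure

private lemma pwN_triv (n : ℕ) (f : pwE Γ n) (u : LL G n) (hu : u ∈ pwN Γ n) :
    pwR n u f = f := by
  have h2 : IsClosed {u : LL G n | pwR n u f = f} :=
    isClosed_eq (pwR_cont n f) continuous_const
  let S : Subgroup (LL G n) :=
    { carrier := {u | ∀ g : pwE Γ n, pwR n u g = g}
      one_mem' := fun g => pwR_one n g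
      mul_mem' := by
        intro u v hu hv g
        rw [pwR_mul, hu, hv]
      inv_mem' := by
        intro u hu g
        have h1 := hu g
        conv_lhs => rw [← h1]
        rw [← pwR_mul, mul_inv_cancel, pwR_one] }
  have h3 : ∀ u ∈ ((LL G (n + 1)).subgroupOf (LL G n) ⊔ Γ.subgroupOf (LL G n)),
      ∀ g : pwE Γ n, pwR n u g = g := by
    have hle : (LL G (n + 1)).subgroupOf (LL G n) ⊔ Γ.subgroupOf (LL G n) ≤ S := by
      refine sup_le ?_ ?_
      · intro u hu g
        apply Subtype.ext
        ext x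
        rw [pwR_apply]
        exact g.2 _ (Subgroup.mem_subgroupOf.1 hu) x
      · intro u hu g
        apply Subtype.ext
        ext x
        rw [pwR_apply]
        exact gam_act (fun y => g.1 y) g.2 u.2 (Subgroup.mem_subgroupOf.1 hu) x
    exact fun u hu => hle hu
  have h4 : closure (((LL G (n + 1)).subgroupOf (LL G n) ⊔ Γ.subgroupOf (LL G n) :
      Subgroup (LL G n)) : Set (LL G n)) ⊆ {u : LL G n | pwR n u f = f} :=
    closure_minimal (fun u hu => h3 u hu f) h2
  exact h4 hu

private lemma pwN_comm (n : ℕ) (u v : LL G n) : ⁅u, v⁆ ∈ pwN Γ n := by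
  apply Subgroup.le_topologicalClosure
  apply Subgroup.mem_sup_left
  rw [Subgroup.mem_subgroupOf]
  exact comm_mem v.2 (u : G)

private lemma pwN_normal (n : ℕ) : (pwN Γ n).Normal := by
  refine ⟨fun v hv u => ?_⟩
  have h1 : u * v * u⁻¹ = ⁅u, v⁆ * v := by
    rw [commutatorElement_def]
    group
  rw [h1]
  exact (pwN Γ n).mul_mem (pwN_comm n u v) hv

end

theorem pw_nil {G : Type*} [Group G] [TopologicalSpace G] [IsTopologicalGroup G]
    {Γ : Subgroup G} [CompactSpace (G ⧸ Γ)] (n : ℕ)
    (hcoc : CompactSpace (LL G n ⧸ Γ.subgroupOf (LL G n))) (f : C(G ⧸ Γ, ℂ))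
    (hf : ∀ w ∈ LL G (n + 1), ∀ x, f (w • x) = f x) :
    f ∈ closure (Submodule.span ℂ (VV Γ n) : Set C(G ⧸ Γ, ℂ)) := by
  have hnorm : (pwN Γ n).Normal := pwN_normal n
  have hclosed : IsClosed (pwN Γ n : Set (LL G n)) := Subgroup.isClosed_topologicalClosure _
  let instK : CommGroup (LL G n ⧸ pwN Γ n) :=
    { QuotientGroup.Quotient.group (pwN Γ n) with
      mul_comm := by
        intro a b
        induction a using QuotientGroup.induction_on with
        | H u =>
          induction b using QuotientGroup.induction_on with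
          | H v =>
            show ((u * v : LL G n) : LL G n ⧸ pwN Γ n) = ((v * u : LL G n) : LL G n ⧸ pwN Γ n)
            rw [QuotientGroup.eq]
            have h1 : (u * v)⁻¹ * (v * u) = ⁅v⁻¹, u⁻¹⁆ := by
              rw [commutatorElement_def]
              group
            rw [h1]
            exact pwN_comm n _ _ }
  have hTG : IsTopologicalGroup (LL G n ⧸ pwN Γ n) :=
    QuotientGroup.instIsTopologicalGroup (pwN Γ n)
  have hT3 : T3Space (LL G n ⧸ pwN Γ n) := QuotientGroup.instT3Space (pwN Γ n)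
  have hcomp : CompactSpace (LL G n ⧸ pwN Γ n) := by
    have hle : Γ.subgroupOf (LL G n) ≤ pwN Γ n := fun u hu =>
      Subgroup.le_topologicalClosure _ (Subgroup.mem_sup_right hu)
    have hsurj : Function.Surjective
        (Quotient.map' (s₁ := QuotientGroup.leftRel (Γ.subgroupOf (LL G n)))
          (s₂ := QuotientGroup.leftRel (pwN Γ n)) id (fun a b hab => by
            rw [QuotientGroup.leftRel_apply] at hab ⊢
            exact hle hab)) := by
      intro q
      obtain ⟨u, rfl⟩ := Quotient.exists_rep q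
      exact ⟨Quotient.mk'' u, rfl⟩
    have hcont : Continuous
        (Quotient.map' (s₁ := QuotientGroup.leftRel (Γ.subgroupOf (LL G n)))
          (s₂ := QuotientGroup.leftRel (pwN Γ n)) id (fun a b hab => by
            rw [QuotientGroup.leftRel_apply] at hab ⊢
            exact hle hab)) := Continuous.quotient_map' continuous_id _
    exact hsurj.compactSpace hcont
  have hcs : CompleteSpace (pwE Γ n) := (pwE_closed Γ n).completeSpace_coe
  -- the action of the quotient
  have hwell : ∀ (g : pwE Γ n) (u v : LL G n), (QuotientGroup.leftRel (pwN Γ n)) u v →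
      pwR n u = pwR (Γ := Γ) n v := by
    intro _ u v huv
    rw [QuotientGroup.leftRel_apply] at huv
    ext1 g
    have h1 : v = u * (u⁻¹ * v) := by group
    rw [h1, pwR_mul, pwN_triv n _ _ huv]
  let ρ : (LL G n ⧸ pwN Γ n) → (pwE Γ n →ₗ[ℂ] pwE Γ n) :=
    Quotient.lift (fun u => pwR n u) (fun u v huv => hwell 0 u v huv)
  have hρ : ∀ (u : LL G n) (g : pwE Γ n), ρ (u : LL G n ⧸ pwN Γ n) g = pwR n u g :=
    fun u g => rfl
  have hmul : ∀ k l g, ρ (k * l) g = ρ k (ρ l g) := by
    intro k l g
    induction k using QuotientGroup.induction_on with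
    | H u =>
      induction l using QuotientGroup.induction_on with
      | H v =>
        have h1 : ((u : LL G n ⧸ pwN Γ n) * (v : LL G n ⧸ pwN Γ n)) =
            ((v * u : LL G n) : LL G n ⧸ pwN Γ n) := by
          rw [mul_comm]
          rfl
        rw [h1, hρ, hρ, hρ, pwR_mul]
  have hone : ∀ g, ρ 1 g = g := fun g => pwR_one n g
  have hiso : ∀ k g, ‖ρ k g‖ = ‖g‖ := by
    intro k g
    induction k using QuotientGroup.induction_on with
    | H u => exact pwR_norm n u g
  have hcont : ∀ g, Continuous fun k => ρ k g := by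
    intro g
    rw [(QuotientGroup.isQuotientMap_mk (pwN Γ n)).continuous_iff]
    exact pwR_cont n g
  rw [Metric.mem_closure_iff]
  intro ε hε
  obtain ⟨p, w, χ, hχc, hχ, hdist⟩ := pw_gen ρ hmul hone hiso hcont ⟨f, hf⟩ (ε / 2) (by positivity)
  refine ⟨∑ i, (w i).1, ?_, ?_⟩
  · refine Submodule.sum_mem _ fun i _ => Submodule.subset_span ?_
    refine ⟨(w i).2, ?_⟩
    classical
    refine ⟨fun u => if h : u ∈ LL G n then χ i ((⟨u, h⟩ : LL G n) : LL G n ⧸ pwN Γ n) else 1,
      ⟨?_, ?_⟩, ?_⟩
    · intro u hu v hv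
      simp only [hu, hv, (LL G n).mul_mem hu hv, dif_pos]
      rw [← map_mul]
      rfl
    · rw [continuousOn_iff_continuous_domRestrict]
      have h1 : (Set.domRestrict (LL G n : Set G) fun u =>
          if h : u ∈ LL G n then χ i ((⟨u, h⟩ : LL G n) : LL G n ⧸ pwN Γ n) else 1) =
          fun u : LL G n => χ i (u : LL G n ⧸ pwN Γ n) := by
        funext u
        have hu : (u : G) ∈ LL G n := u.2
        simp only [Set.domRestrict_apply, hu, dif_pos]
        rfl
      rw [h1]
      exact (hχc i).comp QuotientGroup.continuous_mk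
    · intro u hu x
      have h1 := hχ i ((⟨u, hu⟩ : LL G n) : LL G n ⧸ pwN Γ n)
      have h2 := congrArg (fun g : pwE Γ n => g.1 x) h1
      simp only [hu, dif_pos]
      exact h2
  · have h1 : dist f (∑ i, (w i).1) = ‖(⟨f, hf⟩ : pwE Γ n) - ∑ i, w i‖ := by
      rw [dist_eq_norm]
      show _ = ‖((⟨f, hf⟩ - ∑ i, w i : pwE Γ n) : C(G ⧸ Γ, ℂ))‖
      rw [Submodule.coe_sub, Submodule.coe_sum]
    rw [h1]
    linarith

end Pool.Agent.VINO
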