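import Pool.Agent.VINO.EDefs

/-!
# VINO / QDel: a logarithmic version of the criterion of Davenport, Erdős and LeVeque

PROOF.  Let `ρ = 1 + 1/k`, `N_i = ⌈ρ^i⌉`, `log N_i ≥ i log ρ`. `∑_i ∫ ‖av N_i u‖^2 ≤ ∑ C (i log ρ)^(-1-δ) < ∞` (over the `i` with `N_i ≥ 2`), so
`av N_i (u · x) → 0` for almost all `x` (compare `Del.lean`). For `N_i ≤ N ≤ N_(i+1)`:
`‖av N u‖ ≤ ‖av N_i u‖ + (N_(i+1) - N_i)/N_i`, so `limsup ‖av N u‖ ≤ ρ - 1 = 1/k` for almost all `x`; intersect over `k`.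
-/

set_option autoImplicit false

namespace Pool.Agent.VINO

open MeasureTheory Filter Topology

private theorem qdel_sum (w : ℕ → ℂ) (hw : ∀ n, ‖w n‖ ≤ 1) {K N : ℕ} (h : K ≤ N) :
    ‖∑ n ∈ Finset.Icc 1 N, w n‖ ≤ ‖∑ n ∈ Finset.Icc 1 K, w n‖ + ((N : ℝ) - K) := by
  have hI : ∀ k : ℕ, Finset.Icc 1 k = Finset.Ioc 0 k := by
    intro k
    ext x
    simp only [Finset.mem_Icc, Finset.mem_Ioc]
    omega
  rw [hI, hI, ← Finset.sum_Ioc_consecutive w (Nat.zero_le K) h]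
  refine (norm_add_le _ _).trans ?_
  have h1 : ‖∑ n ∈ Finset.Ioc K N, w n‖ ≤ (N : ℝ) - K := by
    refine (norm_sum_le _ _).trans ?_
    refine (Finset.sum_le_sum fun n _ => hw n).trans ?_
    rw [Finset.sum_const, Nat.card_Ioc, nsmul_eq_mul, mul_one, Nat.cast_sub h]
  linarith

private theorem qdel_step (w : ℕ → ℂ) (hw : ∀ n, ‖w n‖ ≤ 1) (k : ℕ) (hk : 1 ≤ k) (i N : ℕ)
    (h1 : (1 + 1 / (k : ℝ)) ^ i ≤ N) (h2 : (N : ℝ) < (1 + 1 / (k : ℝ)) ^ (i + 1)) :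
    ‖av N w‖ ≤ ‖av ⌈(1 + 1 / (k : ℝ)) ^ i⌉₊ w‖ + 1 / k := by
  have hk0 : (0 : ℝ) < k := by exact_mod_cast hk
  have hk1 : (0 : ℝ) < 1 / (k : ℝ) := by positivity
  have hρ : (0 : ℝ) < 1 + 1 / (k : ℝ) := by positivity
  have hρi : (0 : ℝ) < (1 + 1 / (k : ℝ)) ^ i := by positivity
  have hN : (0 : ℝ) < N := hρi.trans_le h1
  set K := ⌈(1 + 1 / (k : ℝ)) ^ i⌉₊ with hK
  have hKN : K ≤ N := Nat.ceil_le.2 h1
  have hKr : (1 + 1 / (k : ℝ)) ^ i ≤ K := Nat.le_ceil _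
  have hK0 : (0 : ℝ) < K := hρi.trans_le hKr
  have hKNr : (K : ℝ) ≤ N := by exact_mod_cast hKN
  have hs := qdel_sum w hw hKN
  have e1 : ‖av N w‖ = ‖∑ n ∈ Finset.Icc 1 N, w n‖ / N := by
    unfold av
    rw [norm_mul, norm_inv, Complex.norm_natCast, div_eq_inv_mul]
  have e2 : ‖∑ n ∈ Finset.Icc 1 K, w n‖ = (K : ℝ) * ‖av K w‖ := by
    unfold av
    rw [norm_mul, norm_inv, Complex.norm_natCast, ← mul_assoc,
      mul_inv_cancel₀ hK0.ne', one_mul]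
  rw [e2] at hs
  rw [e1, div_le_iff₀ hN]
  have hA : 0 ≤ ‖av K w‖ := norm_nonneg _
  have h3 : (K : ℝ) * ‖av K w‖ ≤ N * ‖av K w‖ := mul_le_mul_of_nonneg_right hKNr hA
  have h4 : (N : ℝ) - K ≤ 1 / (k : ℝ) * N := by
    have h5 : (1 + 1 / (k : ℝ)) ^ (i + 1) =
        (1 + 1 / (k : ℝ)) ^ i + 1 / (k : ℝ) * (1 + 1 / (k : ℝ)) ^ i := by ring
    have h6 : 1 / (k : ℝ) * (1 + 1 / (k : ℝ)) ^ i ≤ 1 / (k : ℝ) * N :=
      mul_le_mul_of_nonneg_left h1 hk1.le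
    linarith
  calc ‖∑ n ∈ Finset.Icc 1 N, w n‖ ≤ (K : ℝ) * ‖av K w‖ + ((N : ℝ) - K) := hs
    _ ≤ N * ‖av K w‖ + 1 / k * N := by linarith
    _ = (‖av K w‖ + 1 / k) * N := by ring

private theorem qdel_lim (w : ℕ → ℂ) (hw : ∀ n, ‖w n‖ ≤ 1)
    (h : ∀ k : ℕ, 1 ≤ k → Tendsto (fun i : ℕ => ‖av ⌈(1 + 1 / (k : ℝ)) ^ (i + 1)⌉₊ w‖)
      atTop (𝓝 0)) : Tendsto (fun N => av N w) atTop (𝓝 0) := by
  rw [tendsto_zero_iff_norm_tendsto_zero, Metric.tendsto_atTop]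
  intro ε hε
  obtain ⟨k, hk⟩ := exists_nat_gt (2 / ε)
  have hk0 : (0 : ℝ) < k := lt_trans (by positivity) hk
  have hk1 : 1 ≤ k := by exact_mod_cast hk0
  have hkε : 1 / (k : ℝ) < ε / 2 := by
    rw [div_lt_div_iff₀ hk0 (by norm_num)]
    rw [div_lt_iff₀ hε] at hk
    linarith
  have hρ1 : (1 : ℝ) < 1 + 1 / (k : ℝ) := by
    have : (0 : ℝ) < 1 / (k : ℝ) := by positivity
    linarith
  obtain ⟨i₀, hi₀⟩ := Metric.tendsto_atTop.1 (h k hk1) (ε / 2) (by positivity)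
  refine ⟨⌈(1 + 1 / (k : ℝ)) ^ (i₀ + 1)⌉₊, fun N hN => ?_⟩
  have hN' : (1 + 1 / (k : ℝ)) ^ (i₀ + 1) ≤ N := (Nat.le_ceil _).trans (by exact_mod_cast hN)
  have hN1 : (1 : ℝ) ≤ N := (one_le_pow₀ hρ1.le).trans hN'
  obtain ⟨i, hi1, hi2⟩ := exists_nat_pow_near hN1 hρ1
  have hii : i₀ + 1 < i + 1 := (pow_lt_pow_iff_right₀ hρ1).1 (hN'.trans_lt hi2)
  obtain ⟨j, rfl⟩ : ∃ j, i = j + 1 := ⟨i - 1, by omega⟩
  have h1 := hi₀ j (by omega)
  have h2 := qdel_step w hw k hk1 (j + 1) N hi1 hi2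
  rw [dist_zero_right, norm_norm] at h1 ⊢
  linarith

private theorem qdel_ae {X : Type*} [MeasurableSpace X] (μ : Measure X) [IsFiniteMeasure μ]
    (u : ℕ → X → ℂ) (hm : ∀ n, AEStronglyMeasurable (u n) μ)
    (hb : ∀ n, ∀ᵐ x ∂μ, ‖u n x‖ ≤ 1) (φ : ℕ → ℕ) (b : ℕ → ℝ) (hb0 : ∀ i, 0 ≤ b i)
    (hbs : Summable b) (hφ : ∀ i, ∫ x, ‖av (φ i) fun n => u n x‖ ^ 2 ∂μ ≤ b i) :
    ∀ᵐ x ∂μ, Tendsto (fun i => ‖av (φ i) fun n => u n x‖) atTop (𝓝 0) := by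
  set A : ℕ → X → ℂ := fun N x => av N fun n => u n x with hA
  have hAm : ∀ N, AEStronglyMeasurable (A N) μ := by
    intro N
    simp only [hA, av]
    refine AEStronglyMeasurable.const_mul ?_ _
    exact Finset.aestronglyMeasurable_fun_sum _ fun n _ => hm n
  have hball : ∀ᵐ x ∂μ, ∀ n, ‖u n x‖ ≤ 1 := ae_all_iff.2 hb
  have hA1 : ∀ N, ∀ᵐ x ∂μ, ‖A N x‖ ≤ 1 := by
    intro N
    filter_upwards [hball] with x hx
    simp only [hA, av]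
    rw [norm_mul, norm_inv, Complex.norm_natCast]
    have h1 : ‖∑ n ∈ Finset.Icc 1 N, u n x‖ ≤ N := by
      refine (norm_sum_le _ _).trans ?_
      refine (Finset.sum_le_sum fun n _ => hx n).trans ?_
      simp
    rcases Nat.eq_zero_or_pos N with rfl | hN
    · simp
    · have hNr : (0 : ℝ) < N := by exact_mod_cast hN
      rw [inv_mul_le_iff₀ hNr, mul_one]
      exact h1
  have hint : ∀ N, Integrable (fun x => ‖A N x‖ ^ 2) μ := by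
    intro N
    refine Integrable.of_bound ((hAm N).norm.pow 2) 1 ?_
    filter_upwards [hA1 N] with x hx
    rw [Real.norm_eq_abs, abs_of_nonneg (by positivity)]
    exact pow_le_one₀ (norm_nonneg _) hx
  have hlint : ∫⁻ x, ∑' i : ℕ, ENNReal.ofReal (‖A (φ i) x‖ ^ 2) ∂μ ≠ ⊤ := by
    rw [lintegral_tsum fun i => ((hint _).1.aemeasurable).ennreal_ofReal]
    have h1 : ∀ i : ℕ, ∫⁻ x, ENNReal.ofReal (‖A (φ i) x‖ ^ 2) ∂μ ≤ ENNReal.ofReal (b i) := by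
      intro i
      rw [← ofReal_integral_eq_lintegral_ofReal (hint _)
        (Eventually.of_forall fun x => by positivity)]
      exact ENNReal.ofReal_le_ofReal (hφ i)
    refine ne_top_of_le_ne_top ?_ (ENNReal.tsum_le_tsum h1)
    rw [← ENNReal.ofReal_tsum_of_nonneg hb0 hbs]
    exact ENNReal.ofReal_ne_top
  have hae := ae_lt_top' (AEMeasurable.tsum fun i =>
    ((hint (φ i)).1.aemeasurable).ennreal_ofReal) hlint
  filter_upwards [hae] with x hx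
  have h1 := ENNReal.tendsto_atTop_zero_of_tsum_ne_top hx.ne
  have h2 : Tendsto (fun i : ℕ => ‖A (φ i) x‖ ^ 2) atTop (𝓝 0) := by
    have h3 := (ENNReal.tendsto_toReal ENNReal.zero_ne_top).comp h1
    simp only [ENNReal.toReal_zero] at h3
    refine h3.congr fun i => ?_
    simp only [Function.comp]
    exact ENNReal.toReal_ofReal (by positivity)
  have h4 := h2.sqrt
  rw [Real.sqrt_zero] at h4
  refine h4.congr fun i => ?_
  exact Real.sqrt_sq (norm_nonneg _)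

theorem del_log {X : Type*} [MeasurableSpace X] (μ : Measure X) [IsFiniteMeasure μ]
    (u : ℕ → X → ℂ) (hm : ∀ n, AEStronglyMeasurable (u n) μ)
    (hb : ∀ n, ∀ᵐ x ∂μ, ‖u n x‖ ≤ 1) (C δ : ℝ) (hδ : 0 < δ)
    (hC : ∀ N : ℕ, 2 ≤ N → ∫ x, ‖av N fun n => u n x‖ ^ 2 ∂μ ≤ C / Real.log N ^ (1 + δ)) :
    ∀ᵐ x ∂μ, Tendsto (fun N => av N fun n => u n x) atTop (𝓝 0) := by
  have hC0 : 0 ≤ C := by
    have h1 := hC 2 le_rfl
    have h2 : 0 ≤ ∫ x, ‖av 2 fun n => u n x‖ ^ 2 ∂μ := integral_nonneg fun x => by positivity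
    have h3 : 0 < Real.log ((2 : ℕ) : ℝ) ^ (1 + δ) :=
      Real.rpow_pos_of_pos (Real.log_pos (by norm_num)) _
    have h4 := h2.trans h1
    by_contra hcon
    push Not at hcon
    have h5 := div_neg_of_neg_of_pos hcon h3
    linarith
  have hball : ∀ᵐ x ∂μ, ∀ n, ‖u n x‖ ≤ 1 := ae_all_iff.2 hb
  have key : ∀ k : ℕ, 1 ≤ k → ∀ᵐ x ∂μ,
      Tendsto (fun i : ℕ => ‖av ⌈(1 + 1 / (k : ℝ)) ^ (i + 1)⌉₊ fun n => u n x‖) atTop (𝓝 0) := by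
    intro k hk
    have hk0 : (0 : ℝ) < k := by exact_mod_cast hk
    have hρ1 : (1 : ℝ) < 1 + 1 / (k : ℝ) := by
      have : (0 : ℝ) < 1 / (k : ℝ) := by positivity
      linarith
    have hL : 0 < Real.log (1 + 1 / (k : ℝ)) := Real.log_pos hρ1
    have hLp : 0 < Real.log (1 + 1 / (k : ℝ)) ^ (1 + δ) := Real.rpow_pos_of_pos hL _
    refine qdel_ae μ u hm hb (fun i => ⌈(1 + 1 / (k : ℝ)) ^ (i + 1)⌉₊)
      (fun i => C / Real.log (1 + 1 / (k : ℝ)) ^ (1 + δ) *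
        (1 / ((i + 1 : ℕ) : ℝ) ^ (1 + δ))) (fun i => ?_) ?_ fun i => ?_
    · exact mul_nonneg (div_nonneg hC0 hLp.le)
        (div_nonneg zero_le_one (Real.rpow_nonneg (Nat.cast_nonneg _) _))
    · refine Summable.mul_left _ ?_
      exact (summable_nat_add_iff (f := fun n : ℕ => 1 / (n : ℝ) ^ (1 + δ)) 1).2
        (Real.summable_one_div_nat_rpow.2 (by linarith))
    · have hpow : (1 : ℝ) < (1 + 1 / (k : ℝ)) ^ (i + 1) := one_lt_pow₀ hρ1 (Nat.succ_ne_zero i)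
      have h2 : 2 ≤ ⌈(1 + 1 / (k : ℝ)) ^ (i + 1)⌉₊ := by
        have : 1 < ⌈(1 + 1 / (k : ℝ)) ^ (i + 1)⌉₊ := by
          rw [Nat.lt_ceil]
          simpa using hpow
        omega
      refine (hC _ h2).trans ?_
      have h3 : ((i + 1 : ℕ) : ℝ) * Real.log (1 + 1 / (k : ℝ)) ≤
          Real.log (⌈(1 + 1 / (k : ℝ)) ^ (i + 1)⌉₊ : ℕ) := by
        rw [← Real.log_pow]
        exact Real.log_le_log (by positivity) (Nat.le_ceil _)
      have h4 : (0 : ℝ) < ((i + 1 : ℕ) : ℝ) * Real.log (1 + 1 / (k : ℝ)) := by positivity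
      have h5 : (((i + 1 : ℕ) : ℝ) * Real.log (1 + 1 / (k : ℝ))) ^ (1 + δ) ≤
          Real.log (⌈(1 + 1 / (k : ℝ)) ^ (i + 1)⌉₊ : ℕ) ^ (1 + δ) :=
        Real.rpow_le_rpow h4.le h3 (by linarith)
      have h6 := div_le_div_of_nonneg_left hC0 (Real.rpow_pos_of_pos h4 _) h5
      refine h6.trans (le_of_eq ?_)
      rw [Real.mul_rpow (Nat.cast_nonneg _) hL.le]
      have h7 : (((i + 1 : ℕ) : ℝ)) ^ (1 + δ) ≠ 0 :=
        (Real.rpow_pos_of_pos (by positivity) _).ne'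
      field_simp
  have hall : ∀ᵐ x ∂μ, ∀ k : ℕ, 1 ≤ k →
      Tendsto (fun i : ℕ => ‖av ⌈(1 + 1 / (k : ℝ)) ^ (i + 1)⌉₊ fun n => u n x‖) atTop (𝓝 0) := by
    rw [ae_all_iff]
    intro k
    by_cases hk : 1 ≤ k
    · filter_upwards [key k hk] with x hx _
      exact hx
    · exact Eventually.of_forall fun x h => absurd h hk
  filter_upwards [hall, hball] with x hx hx1
  exact qdel_lim (fun n => u n x) hx1 hx

end Pool.Agent.VINO
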