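import Pool.Agent.VINO.QMix
import Pool.Agent.VINO.EMain
import Pool.Agent.VINO.EFin

/-!
# VINO / QFin: systems with logarithmic multiple mixing

PROOF.  `qmix_avg` for tuples from `V`; `ext_main` with `W` = all bounded measurable functions; `fs_of_prd`. (If `V` is empty then, by
density, all bounded functions vanish almost everywhere, impossible for the constant `1` on a probability space, so `V` is
nonempty.)
-/

set_option autoImplicit false

namespace Pool.Agent.VINO

open MeasureTheory Filter Topology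

private theorem bdd_mono {X : Type*} [MeasurableSpace X] (p : ℕ × ℕ) (f : X → ℂ) (hf : Bdd f) :
    Bdd fun x => mono p (f x) := by
  obtain ⟨hm, M, hM⟩ := hf
  refine ⟨(mono p).continuous.measurable.comp hm, M ^ p.1 * M ^ p.2, fun x => ?_⟩
  change ‖f x ^ p.1 * (starRingEnd ℂ (f x)) ^ p.2‖ ≤ _
  rw [norm_mul, norm_pow, norm_pow, RCLike.norm_conj]
  have h0 : 0 ≤ ‖f x‖ := norm_nonneg _
  have h1 := hM x
  exact mul_le_mul (pow_le_pow_left₀ h0 h1 _) (pow_le_pow_left₀ h0 h1 _) (by positivity)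
    (pow_nonneg (h0.trans h1) _)

theorem logmix_main {c : ℝ} (hc0 : 0 < c) (hc1 : c < 1 / 2) {X : Type*} [MeasurableSpace X]
    (μ : Measure X) [IsProbabilityMeasure μ] (T : X → X) (hT : MeasurePreserving T μ μ)
    (V : Set (X → ℂ)) (hV : ∀ f ∈ V, Bdd f)
    (hconj : ∀ f ∈ V, (fun x => (starRingEnd ℂ) (f x)) ∈ V) (hmix : LogMix μ T V)
    (hd : ∀ f : X → ℂ, Bdd f → ∀ ε : ℝ, 0 < ε →
      ∃ h ∈ Submodule.span ℂ V, ∫ x, ‖f x - h x‖ ^ 2 ∂μ ≤ ε)
    (f : X → ℂ) (hf : Bdd f) : ∀ᵐ x ∂μ, HasBernoulliFS fun n => f (T^[a c n] x) := by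
  have hne : V.Nonempty := by
    by_contra hV0
    rw [Set.not_nonempty_iff_eq_empty] at hV0
    obtain ⟨h, hh, hle⟩ := hd (fun _ => 1) ⟨measurable_const, 1, fun x => by simp⟩ (1 / 2)
      (by norm_num)
    rw [hV0, Submodule.span_empty, Submodule.mem_bot] at hh
    rw [hh] at hle
    norm_num at hle
  refine fs_of_prd μ T f hf fun r p => ?_
  exact ext_main hc0 hc1 μ T hT V {f | Bdd f} hne hV (fun _ h => h) (fun f h ε hε => hd f h ε hε)
    (fun r f hf => qmix_avg hc0 μ T hT V hV hconj hmix f hf) r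
    (fun j x => mono (p j) (f x)) fun j => bdd_mono (p j) f hf

end Pool.Agent.VINO
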