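import Pool.Agent.VINO.UDall

/-!
# VINO / QGap: a lower bound for the gaps of `a c n`

PROOF.  With `L = log n`, `L' = log (n + 1)`: `L' ^ (1 + c) - L ^ (1 + c) ≥ L ^ c (L' - L) ≥ 1 / (n + 1)` for large `n`, so
`G (n + 1) - G n ≥ G n / (n + 1) ≥ exp (L ^ (1 + c) - L - 1)`, and
`a(n+1) - a(n) ≥ exp (L ^ (1 + c) - L - 1) - 1 ≥ exp (L ^ (1 + c) / 2)` for large `n` (`L ^ (1 + c) / 2 ≥ L + 2`).
-/

set_option autoImplicit false

namespace Pool.Agent.VINO

open Filter in
theorem gap_log {c : ℝ} (hc0 : 0 < c) :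
    ∃ n₀ : ℕ, 2 ≤ n₀ ∧ ∀ n : ℕ, n₀ ≤ n →
      (a c n : ℝ) + Real.exp (Real.log n ^ (1 + c) / 2) ≤ a c (n + 1) := by
  have hL : Tendsto (fun n : ℕ => Real.log (n : ℝ)) atTop atTop :=
    Real.tendsto_log_atTop.comp tendsto_natCast_atTop_atTop
  have hLc : Tendsto (fun n : ℕ => Real.log (n : ℝ) ^ c) atTop atTop :=
    (tendsto_rpow_atTop hc0).comp hL
  obtain ⟨N, hN⟩ := ((hL.eventually_ge_atTop 2).and (hLc.eventually_ge_atTop 4)).exists_forall_of_atTop
  refine ⟨max N 2, le_max_right _ _, fun n hn => ?_⟩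
  obtain ⟨h1, h2⟩ := hN n (le_trans (le_max_left _ _) hn)
  have hn2 : 2 ≤ n := le_trans (le_max_right _ _) hn
  have hnR : (2 : ℝ) ≤ n := by exact_mod_cast hn2
  set L := Real.log (n : ℝ) with hLdef
  set L' := Real.log ((n : ℝ) + 1) with hL'def
  have hL0 : 0 < L := by linarith
  have hLL : L ≤ L' := Real.log_le_log (by linarith) (by linarith)
  have hL'0 : 0 < L' := by linarith
  -- `L' - L ≥ 1 / (n + 1)`
  have hdiff : 1 / ((n : ℝ) + 1) ≤ L' - L := by
    have h := Real.one_sub_inv_le_log_of_pos (x := ((n : ℝ) + 1) / n) (by positivity)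
    rw [Real.log_div (by positivity) (by positivity)] at h
    have h' : 1 - (((n : ℝ) + 1) / n)⁻¹ = 1 / ((n : ℝ) + 1) := by
      field_simp
      ring
    rw [h'] at h
    exact h
  -- `L' ≤ L + 1`
  have hup : L' ≤ L + 1 := by
    have h := Real.log_le_sub_one_of_pos (x := ((n : ℝ) + 1) / n) (by positivity)
    rw [Real.log_div (by positivity) (by positivity)] at h
    have h' : ((n : ℝ) + 1) / n - 1 ≤ 1 := by
      have h3 : ((n : ℝ) + 1) / n - 1 = 1 / n := by
        field_simp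
        ring
      rw [h3]
      rw [div_le_one (by positivity)]
      linarith
    linarith
  -- powers
  have hpow : ∀ x : ℝ, 0 < x → x ^ (1 + c) = x ^ c * x := by
    intro x hx
    rw [add_comm, Real.rpow_add hx, Real.rpow_one]
  have hLcL : L ^ c ≤ L' ^ c := Real.rpow_le_rpow hL0.le hLL hc0.le
  have hinc : L ^ (1 + c) + 1 / ((n : ℝ) + 1) ≤ L' ^ (1 + c) := by
    rw [hpow L hL0, hpow L' hL'0]
    have e1 : L ^ c * L' ≤ L' ^ c * L' := mul_le_mul_of_nonneg_right hLcL hL'0.le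
    have e2 : 1 * (L' - L) ≤ L ^ c * (L' - L) := mul_le_mul_of_nonneg_right (by linarith) (by linarith)
    nlinarith
  have hX : L + 2 ≤ L ^ (1 + c) / 2 := by
    rw [hpow L hL0]
    nlinarith
  set X := L ^ (1 + c) with hXdef
  have hG1 : G c n = Real.exp X := rfl
  have hG2 : Real.exp (X + 1 / ((n : ℝ) + 1)) ≤ G c ((n : ℝ) + 1) := by
    unfold G
    exact Real.exp_le_exp.mpr hinc
  have hgap : Real.exp X + Real.exp (X - (L + 1)) ≤ G c ((n : ℝ) + 1) := by
    refine le_trans ?_ hG2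
    rw [Real.exp_add X]
    have e1 : 1 / ((n : ℝ) + 1) + 1 ≤ Real.exp (1 / ((n : ℝ) + 1)) := Real.add_one_le_exp _
    have e2 : Real.exp (X - (L + 1)) ≤ Real.exp X * (1 / ((n : ℝ) + 1)) := by
      have e3 : Real.exp (X - (L + 1)) ≤ Real.exp (X - L') := Real.exp_le_exp.mpr (by linarith)
      refine le_trans e3 (le_of_eq ?_)
      rw [Real.exp_sub, hL'def, Real.exp_log (by positivity)]
      ring
    have e4 : Real.exp X * (1 / ((n : ℝ) + 1) + 1) ≤ Real.exp X * Real.exp (1 / ((n : ℝ) + 1)) :=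
      mul_le_mul_of_nonneg_left e1 (Real.exp_pos _).le
    nlinarith
  have hfl1 : (a c n : ℝ) ≤ G c n := by
    unfold a
    exact Nat.floor_le (Real.exp_pos _).le
  have hfl2 : G c ((n : ℝ) + 1) < (a c (n + 1) : ℝ) + 1 := by
    unfold a
    have := Nat.lt_floor_add_one (G c ((n + 1 : ℕ) : ℝ))
    push_cast at this ⊢
    exact this
  have hfin : Real.exp (X / 2) + 1 ≤ Real.exp (X - (L + 1)) := by
    have e1 : Real.exp (X / 2 + 1) ≤ Real.exp (X - (L + 1)) := Real.exp_le_exp.mpr (by linarith)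
    have e2 : (2 : ℝ) ≤ Real.exp 1 := by
      have := Real.add_one_le_exp (1 : ℝ)
      linarith
    have e3 : (1 : ℝ) ≤ Real.exp (X / 2) := Real.one_le_exp (by linarith)
    rw [Real.exp_add] at e1
    nlinarith
  rw [hG1] at hfl1
  linarith

end Pool.Agent.VINO
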