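import Pool.Agent.VINO.QDel
import Pool.Agent.VINO.QGap
import Pool.Agent.VINO.KDefs

/-!
# VINO / QMix: multiple mixing at a logarithmic rate

PROOF of `qmix_avg`.  Let `B ≥ 1` bound all `‖f j‖`, `F n x = ∏_j f j (T^[a(n+j)] x)`, `P = ∏_j ∫ f j dμ`. Apply `LogMix` to the tuple `f` and
to the `2(r+1)`-tuple `(f, conj f)`. For `n₀ ≤ n`, `n + r < n'`: the times `a(n), …, a(n+r), a(n'), …, a(n'+r)` have gaps at least
`g = exp ((log n)^(1+c)/2)` (`gap_log`), so `|∫ F n conj (F n') - |P|^2| ≤ C/log g`, `|∫ F n - P| ≤ C / log g`, hence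
`|∫ (F n - P) conj (F n' - P)| ≤ C'/log g = 2 C' / (log n)^(1+c)`. For `N ≥ 2`: the pairs with `min(n, n') ≤ √N` (or `< n₀`) or
`|n - n'| ≤ r` contribute at most `C'' N^(3/2)` to the double sum, the others at most `N^2 2 C' / (log √N)^(1+c)`. So
`∫ ‖av N (F - P)‖^2 ≤ C₃ / (log N)^(1+c)` and `del_log` (for `(F n - P)/(2 B^(r+1))`) gives `av N F → P` almost everywhere. The
case of the single functions (`r = 0`) gives the limits `l j = ∫ f j dμ`.
-/

set_option autoImplicit false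

namespace Pool.Agent.VINO

open MeasureTheory Filter Topology

/-- Multiple mixing of all orders with a logarithmic rate, for the functions in `V`. -/
def LogMix {X : Type*} [MeasurableSpace X] (μ : Measure X) (T : X → X) (V : Set (X → ℂ)) :
    Prop :=
  ∀ (m : ℕ) (f : Fin m → X → ℂ), (∀ i, f i ∈ V) → ∃ C : ℝ, ∀ (g : ℝ) (t : Fin m → ℕ), 2 ≤ g →
    (∀ i j, i < j → (t i : ℝ) + g ≤ t j) →
    ‖∫ x, ∏ i, f i (T^[t i] x) ∂μ - ∏ i, ∫ x, f i x ∂μ‖ ≤ C / Real.log g

private theorem qm_l2 {X : Type*} [MeasurableSpace X] (μ : Measure X) [IsProbabilityMeasure μ]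
    (u : ℕ → X → ℂ) (hm : ∀ n, Measurable (u n)) (hb : ∀ n x, ‖u n x‖ ≤ 1) (N : ℕ) :
    ∫ x, ‖av N fun n => u n x‖ ^ 2 ∂μ ≤ ((N : ℝ)⁻¹) ^ 2 *
      ∑ n ∈ Finset.Icc 1 N, ∑ m ∈ Finset.Icc 1 N,
        ‖∫ x, u n x * (starRingEnd ℂ) (u m x) ∂μ‖ := by
  have hint : ∀ n m, Integrable (fun x => u n x * (starRingEnd ℂ) (u m x)) μ := by
    intro n m
    refine Integrable.of_bound (C := 1) ?_ (Filter.Eventually.of_forall fun x => ?_)
    · exact ((hm n).mul (Complex.continuous_conj.measurable.comp (hm m))).aestronglyMeasurable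
    · rw [norm_mul, RCLike.norm_conj]
      exact mul_le_one₀ (hb n x) (norm_nonneg _) (hb m x)
  have h1 : ((∫ x, ‖av N fun n => u n x‖ ^ 2 ∂μ : ℝ) : ℂ) = ((N : ℂ)⁻¹) ^ 2 *
      ∑ n ∈ Finset.Icc 1 N, ∑ m ∈ Finset.Icc 1 N, ∫ x, u n x * (starRingEnd ℂ) (u m x) ∂μ := by
    rw [← integral_complex_ofReal]
    have e1 : ∀ x, ((‖av N fun n => u n x‖ ^ 2 : ℝ) : ℂ) = ((N : ℂ)⁻¹) ^ 2 *
        ∑ n ∈ Finset.Icc 1 N, ∑ m ∈ Finset.Icc 1 N, u n x * (starRingEnd ℂ) (u m x) := by
      intro x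
      rw [← Complex.normSq_eq_norm_sq, ← Complex.mul_conj]
      unfold av
      rw [map_mul, map_inv₀, map_natCast, map_sum]
      rw [← Finset.sum_mul_sum]
      ring
    simp_rw [e1]
    rw [integral_const_mul, integral_finset_sum _ fun n _ => integrable_finset_sum _ fun m _ => hint n m]
    congr 1
    refine Finset.sum_congr rfl fun n _ => ?_
    rw [integral_finset_sum _ fun m _ => hint n m]
  have h2 : ∫ x, ‖av N fun n => u n x‖ ^ 2 ∂μ =
      ‖((∫ x, ‖av N fun n => u n x‖ ^ 2 ∂μ : ℝ) : ℂ)‖ := by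
    rw [Complex.norm_real, Real.norm_of_nonneg]
    exact integral_nonneg fun x => by positivity
  rw [h2, h1, norm_mul, norm_pow, norm_inv, Complex.norm_natCast]
  refine mul_le_mul_of_nonneg_left ?_ (by positivity)
  refine (norm_sum_le _ _).trans (Finset.sum_le_sum fun n _ => ?_)
  exact norm_sum_le _ _

private theorem qm_card (K : ℝ) (hK : 0 ≤ K) (N : ℕ) :
    ∑ n ∈ Finset.Icc 1 N, (if (n : ℝ) ≤ K then (1 : ℝ) else 0) ≤ K := by
  rw [← Finset.sum_filter, Finset.sum_const, nsmul_eq_mul, mul_one]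
  have h1 : (Finset.filter (fun n : ℕ => (n : ℝ) ≤ K) (Finset.Icc 1 N)) ⊆ Finset.Icc 1 ⌊K⌋₊ := by
    intro n hn
    rw [Finset.mem_filter, Finset.mem_Icc] at hn
    rw [Finset.mem_Icc]
    exact ⟨hn.1.1, Nat.le_floor hn.2⟩
  have h2 := Finset.card_le_card h1
  rw [Nat.card_Icc, Nat.add_sub_cancel] at h2
  exact (Nat.cast_le.mpr h2).trans (Nat.floor_le hK)

private theorem qm_card2 (r n N : ℕ) :
    ∑ m ∈ Finset.Icc 1 N, (if m ≤ n + r ∧ n ≤ m + r then (1 : ℝ) else 0) ≤ 2 * r + 1 := by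
  rw [← Finset.sum_filter, Finset.sum_const, nsmul_eq_mul, mul_one]
  have h1 : (Finset.filter (fun m : ℕ => m ≤ n + r ∧ n ≤ m + r) (Finset.Icc 1 N)) ⊆
      Finset.Icc (n - r) (n + r) := by
    intro m hm
    rw [Finset.mem_filter, Finset.mem_Icc] at hm
    rw [Finset.mem_Icc]
    omega
  have h2 := Finset.card_le_card h1
  rw [Nat.card_Icc] at h2
  have h3 : n + r + 1 - (n - r) ≤ 2 * r + 1 := by omega
  exact_mod_cast h2.trans h3

private theorem qm_dbl (I : ℕ → ℕ → ℝ) (h1 : ∀ n m, I n m ≤ 1) (K ε : ℝ) (r N : ℕ) (hK : 0 ≤ K)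
    (hε : 0 ≤ ε)
    (h : ∀ n m : ℕ, K < n → K < m → (n + r < m ∨ m + r < n) → I n m ≤ ε) :
    ∑ n ∈ Finset.Icc 1 N, ∑ m ∈ Finset.Icc 1 N, I n m ≤
      2 * K * N + (2 * r + 1) * N + (N : ℝ) ^ 2 * ε := by
  have h2 : ∀ n m, I n m ≤ (if (n : ℝ) ≤ K then (1 : ℝ) else 0) +
      (if (m : ℝ) ≤ K then (1 : ℝ) else 0) +
      (if m ≤ n + r ∧ n ≤ m + r then (1 : ℝ) else 0) + ε := by
    intro n m
    by_cases c1 : (n : ℝ) ≤ K
    · rw [if_pos c1]
      have := h1 n m
      have e1 : (0 : ℝ) ≤ if (m : ℝ) ≤ K then (1 : ℝ) else 0 := by split_ifs <;> norm_num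
      have e2 : (0 : ℝ) ≤ if m ≤ n + r ∧ n ≤ m + r then (1 : ℝ) else 0 := by
        split_ifs <;> norm_num
      linarith
    by_cases c2 : (m : ℝ) ≤ K
    · rw [if_neg c1, if_pos c2]
      have := h1 n m
      have e2 : (0 : ℝ) ≤ if m ≤ n + r ∧ n ≤ m + r then (1 : ℝ) else 0 := by
        split_ifs <;> norm_num
      linarith
    by_cases c3 : m ≤ n + r ∧ n ≤ m + r
    · rw [if_neg c1, if_neg c2, if_pos c3]
      have := h1 n m
      linarith
    · rw [if_neg c1, if_neg c2, if_neg c3]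
      have := h n m (not_le.mp c1) (not_le.mp c2) (by omega)
      linarith
  have h3 : ∀ n, ∑ m ∈ Finset.Icc 1 N, I n m ≤ (N : ℝ) * (if (n : ℝ) ≤ K then (1 : ℝ) else 0) +
      K + (2 * r + 1) + N * ε := by
    intro n
    refine (Finset.sum_le_sum fun m _ => h2 n m).trans ?_
    rw [Finset.sum_add_distrib, Finset.sum_add_distrib, Finset.sum_add_distrib, Finset.sum_const,
      Finset.sum_const, Nat.card_Icc, Nat.add_sub_cancel, nsmul_eq_mul, nsmul_eq_mul]
    have e1 := qm_card K hK N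
    have e2 := qm_card2 r n N
    linarith
  refine (Finset.sum_le_sum fun n _ => h3 n).trans ?_
  rw [Finset.sum_add_distrib, Finset.sum_add_distrib, Finset.sum_add_distrib, Finset.sum_const,
    Finset.sum_const, Finset.sum_const, Nat.card_Icc, Nat.add_sub_cancel, nsmul_eq_mul,
    nsmul_eq_mul, nsmul_eq_mul, ← Finset.mul_sum]
  have e1 := mul_le_mul_of_nonneg_left (qm_card K hK N) (Nat.cast_nonneg (α := ℝ) N)
  nlinarith [e1]

private theorem qm_sqrt {c : ℝ} (hc0 : 0 < c) (N : ℕ) (hN : 2 ≤ N) :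
    1 / Real.sqrt N ≤ (2 * (1 + c)) ^ (1 + c) / Real.log N ^ (1 + c) := by
  have hN' : (2 : ℝ) ≤ N := by exact_mod_cast hN
  have hN0 : (0 : ℝ) < N := by linarith
  have hlog : 0 < Real.log N := Real.log_pos (by linarith)
  have h1 : Real.log N ≤ (N : ℝ) ^ (1 / (2 * (1 + c))) * (2 * (1 + c)) := by
    have := Real.log_le_rpow_div hN0.le (ε := 1 / (2 * (1 + c))) (by positivity)
    rw [div_div_eq_mul_div, div_one] at this
    exact this
  have h2 : Real.log N ^ (1 + c) ≤ Real.sqrt N * (2 * (1 + c)) ^ (1 + c) := by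
    refine (Real.rpow_le_rpow hlog.le h1 (by linarith)).trans ?_
    rw [Real.mul_rpow (by positivity) (by positivity), ← Real.rpow_mul hN0.le, Real.sqrt_eq_rpow]
    have e : 1 / (2 * (1 + c)) * (1 + c) = 1 / 2 := by
      field_simp
    rw [e]
  rw [div_le_div_iff₀ (Real.sqrt_pos.mpr hN0) (Real.rpow_pos_of_pos hlog _)]
  linarith

private theorem qm_gap {c : ℝ} (hc0 : 0 < c) : ∃ n₀ : ℕ, 8 ≤ n₀ ∧ ∀ n k l : ℕ, n₀ ≤ n → n ≤ k →
    k < l → (a c k : ℝ) + Real.exp (Real.log n ^ (1 + c) / 2) ≤ a c l := by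
  obtain ⟨n₀, hn₀, h⟩ := gap_log hc0
  refine ⟨max n₀ 8, le_max_right _ _, ?_⟩
  intro n k l hn hk hl
  have hn0 : n₀ ≤ n := (le_max_left _ _).trans hn
  have hmono : ∀ d : ℕ, (a c (k + 1) : ℝ) ≤ a c (k + 1 + d) := by
    intro d
    induction d with
    | zero => rw [add_zero]
    | succ d ih =>
      have h1 := h (k + 1 + d) (by omega)
      have h2 := Real.exp_pos (Real.log ((k + 1 + d : ℕ) : ℝ) ^ (1 + c) / 2)
      rw [← add_assoc]
      linarith
  obtain ⟨d, rfl⟩ := Nat.exists_eq_add_of_le (Nat.succ_le_of_lt hl)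
  have h1 := h k (hn0.trans hk)
  have h2 : Real.exp (Real.log n ^ (1 + c) / 2) ≤ Real.exp (Real.log k ^ (1 + c) / 2) := by
    have hn1 : (1 : ℝ) ≤ n := by
      have : 1 ≤ n := by omega
      exact_mod_cast this
    have hnk : (n : ℝ) ≤ k := by exact_mod_cast hk
    apply Real.exp_le_exp.mpr
    have h3 : Real.log n ^ (1 + c) ≤ Real.log k ^ (1 + c) :=
      Real.rpow_le_rpow (Real.log_nonneg hn1) (Real.log_le_log (by linarith) hnk) (by linarith)
    linarith
  have h4 := hmono d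
  have h5 : k.succ + d = k + 1 + d := rfl
  rw [h5]
  linarith

/-- the main estimate for the pair correlations -/
private theorem qm_pair {c : ℝ} (hc0 : 0 < c) {X : Type*} [MeasurableSpace X] (μ : Measure X)
    [IsProbabilityMeasure μ] (T : X → X) (hT : MeasurePreserving T μ μ) (V : Set (X → ℂ))
    (hV : ∀ f ∈ V, Bdd f) (hconj : ∀ f ∈ V, (fun x => (starRingEnd ℂ) (f x)) ∈ V)
    (hmix : LogMix μ T V) {r : ℕ} (f : Fin (r + 1) → X → ℂ) (hf : ∀ j, f j ∈ V) (D : ℝ)
    (hD : ∀ n x, ‖∏ j, f j (T^[a c (n + j.1)] x)‖ ≤ D) (hP : ‖∏ j, ∫ x, f j x ∂μ‖ ≤ D) :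
    ∃ (n₀ : ℕ) (C : ℝ), 8 ≤ n₀ ∧ 0 ≤ C ∧ ∀ n m : ℕ, n₀ ≤ n → n + r < m →
      ‖∫ x, (∏ j, f j (T^[a c (n + j.1)] x) - ∏ j, ∫ x, f j x ∂μ) *
        (starRingEnd ℂ) (∏ j, f j (T^[a c (m + j.1)] x) - ∏ j, ∫ x, f j x ∂μ) ∂μ‖ ≤
      C / Real.log n ^ (1 + c) := by
  obtain ⟨n₀, hn₀, hgap⟩ := qm_gap hc0
  obtain ⟨C1, hC1⟩ := hmix (r + 1) f hf
  obtain ⟨C2, hC2⟩ := hmix ((r + 1) + (r + 1)) (Fin.append f fun j x => (starRingEnd ℂ) (f j x)) (by
    intro i
    refine Fin.addCases (fun j => ?_) (fun j => ?_) i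
    · rw [Fin.append_left]
      exact hf j
    · rw [Fin.append_right]
      exact hconj _ (hf j))
  have hD0 : 0 ≤ D := (norm_nonneg _).trans hP
  have hmeas : ∀ n, Measurable fun x => ∏ j, f j (T^[a c (n + j.1)] x) := by
    intro n
    refine Finset.measurable_prod _ fun j _ => ?_
    exact (hV _ (hf j)).1.comp (hT.measurable.iterate _)
  set F : ℕ → X → ℂ := fun n x => ∏ j, f j (T^[a c (n + j.1)] x) with hF
  set P : ℂ := ∏ j, ∫ x, f j x ∂μ with hPd
  refine ⟨n₀, 2 * |C2| + 4 * D * |C1|, hn₀, by positivity, ?_⟩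
  intro n m hn hm
  have hn8 : (8 : ℝ) ≤ n := by exact_mod_cast hn₀.trans hn
  have hlog2 : 2 ≤ Real.log n := by
    have h1 : Real.log 8 ≤ Real.log n := Real.log_le_log (by norm_num) hn8
    have h2 : Real.log 8 = 3 * Real.log 2 := by
      rw [show (8 : ℝ) = 2 ^ 3 by norm_num, Real.log_pow]
      norm_num
    have h3 := Real.log_two_gt_d9
    linarith
  have hLpos : 0 < Real.log n ^ (1 + c) := Real.rpow_pos_of_pos (by linarith) _
  have hL2 : 2 ≤ Real.log n ^ (1 + c) := by
    calc (2 : ℝ) ≤ Real.log n := hlog2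
      _ = Real.log n ^ (1 : ℝ) := (Real.rpow_one _).symm
      _ ≤ Real.log n ^ (1 + c) := Real.rpow_le_rpow_of_exponent_le (by linarith) (by linarith)
  set g : ℝ := Real.exp (Real.log n ^ (1 + c) / 2) with hg
  have hg2 : 2 ≤ g := by
    have := Real.add_one_le_exp (Real.log n ^ (1 + c) / 2)
    linarith
  have hlogg : Real.log g = Real.log n ^ (1 + c) / 2 := Real.log_exp _
  have hB : ∀ k : ℕ, n ≤ k → ‖∫ x, F k x ∂μ - P‖ ≤ |C1| / (Real.log n ^ (1 + c) / 2) := by
    intro k hk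
    have h1 := hC1 g (fun j => a c (k + j.1)) hg2 (by
      intro i j hij
      exact hgap n (k + i.1) (k + j.1) hn (by omega) (by
        have : i.1 < j.1 := hij
        omega))
    rw [hlogg] at h1
    refine h1.trans ?_
    exact div_le_div_of_nonneg_right (le_abs_self _) (by linarith)
  have hBB : ‖∫ x, F n x * (starRingEnd ℂ) (F m x) ∂μ - P * (starRingEnd ℂ) P‖ ≤
      |C2| / (Real.log n ^ (1 + c) / 2) := by
    have h1 := hC2 g (Fin.append (fun j => a c (n + j.1)) (fun j => a c (m + j.1))) hg2 (by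
      intro i j
      refine Fin.addCases (fun i' => ?_) (fun i' => ?_) i
      · refine Fin.addCases (fun j' => ?_) (fun j' => ?_) j
        · intro hij
          rw [Fin.append_left, Fin.append_left]
          have h2 : i'.1 < j'.1 := hij
          exact hgap n _ _ hn (by omega) (by omega)
        · intro _
          rw [Fin.append_left, Fin.append_right]
          have h2 := i'.2
          exact hgap n _ _ hn (by omega) (by omega)
      · refine Fin.addCases (fun j' => ?_) (fun j' => ?_) j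
        · intro hij
          exfalso
          have h2 : (Fin.natAdd (r + 1) i').1 < (Fin.castAdd (r + 1) j').1 := hij
          rw [Fin.val_natAdd, Fin.val_castAdd] at h2
          have h3 := j'.2
          omega
        · intro hij
          rw [Fin.append_right, Fin.append_right]
          have h2 : (Fin.natAdd (r + 1) i').1 < (Fin.natAdd (r + 1) j').1 := hij
          rw [Fin.val_natAdd, Fin.val_natAdd] at h2
          exact hgap n _ _ hn (by omega) (by omega))
    have e1 : ∀ x, ∏ i, (Fin.append f fun j x => (starRingEnd ℂ) (f j x)) i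
        (T^[(Fin.append (fun j : Fin (r + 1) => a c (n + j.1))
          (fun j : Fin (r + 1) => a c (m + j.1))) i] x) =
        F n x * (starRingEnd ℂ) (F m x) := by
      intro x
      rw [Fin.prod_univ_add]
      simp only [Fin.append_left, Fin.append_right, hF, map_prod]
    have e2 : ∏ i, ∫ x, (Fin.append f fun j x => (starRingEnd ℂ) (f j x)) i x ∂μ =
        P * (starRingEnd ℂ) P := by
      rw [Fin.prod_univ_add]
      simp only [Fin.append_left, Fin.append_right, hPd, map_prod, integral_conj]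
    simp_rw [e1] at h1
    rw [e2, hlogg] at h1
    refine h1.trans ?_
    exact div_le_div_of_nonneg_right (le_abs_self _) (by linarith)
  have hiF : ∀ k, Integrable (F k) μ := fun k =>
    Integrable.of_bound (hmeas k).aestronglyMeasurable D (Filter.Eventually.of_forall (hD k))
  have hiFc : ∀ k, Integrable (fun x => (starRingEnd ℂ) (F k x)) μ := fun k =>
    Integrable.of_bound (Complex.continuous_conj.measurable.comp (hmeas k)).aestronglyMeasurable D
      (Filter.Eventually.of_forall fun x => by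
        rw [RCLike.norm_conj]
        exact hD k x)
  have hiFF : Integrable (fun x => F n x * (starRingEnd ℂ) (F m x)) μ := by
    refine Integrable.of_bound (C := D * D) ?_ (Filter.Eventually.of_forall fun x => ?_)
    · exact ((hmeas n).mul
        (Complex.continuous_conj.measurable.comp (hmeas m))).aestronglyMeasurable
    · rw [norm_mul, RCLike.norm_conj]
      exact mul_le_mul (hD n x) (hD m x) (norm_nonneg _) hD0
  have hexp : ∫ x, (F n x - P) * (starRingEnd ℂ) (F m x - P) ∂μ =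
      (∫ x, F n x * (starRingEnd ℂ) (F m x) ∂μ - P * (starRingEnd ℂ) P) -
      P * (starRingEnd ℂ) (∫ x, F m x ∂μ - P) - (starRingEnd ℂ) P * (∫ x, F n x ∂μ - P) := by
    have e1 : ∀ x, (F n x - P) * (starRingEnd ℂ) (F m x - P) =
        F n x * (starRingEnd ℂ) (F m x) - P * (starRingEnd ℂ) (F m x) -
          (starRingEnd ℂ) P * F n x + P * (starRingEnd ℂ) P := by
      intro x
      rw [map_sub]
      ring
    simp_rw [e1]
    have i1 : Integrable (fun x => F n x * (starRingEnd ℂ) (F m x) - P * (starRingEnd ℂ) (F m x))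
        μ := hiFF.sub ((hiFc m).const_mul P)
    have i2 : Integrable (fun x => F n x * (starRingEnd ℂ) (F m x) - P * (starRingEnd ℂ) (F m x) -
        (starRingEnd ℂ) P * F n x) μ := i1.sub ((hiF n).const_mul _)
    rw [integral_add i2 (integrable_const _), integral_sub i1 ((hiF n).const_mul _),
      integral_sub hiFF ((hiFc m).const_mul P), integral_const_mul, integral_const_mul,
      integral_const, integral_conj, map_sub]
    simp only [probReal_univ, one_smul]
    ring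
  have hFn := hB n le_rfl
  have hFm := hB m (by omega)
  change ‖∫ x, (F n x - P) * (starRingEnd ℂ) (F m x - P) ∂μ‖ ≤ _
  rw [hexp]
  refine (norm_sub_le _ _).trans ?_
  have h1 := norm_sub_le (∫ x, F n x * (starRingEnd ℂ) (F m x) ∂μ - P * (starRingEnd ℂ) P)
    (P * (starRingEnd ℂ) (∫ x, F m x ∂μ - P))
  have h2 : ‖P * (starRingEnd ℂ) (∫ x, F m x ∂μ - P)‖ ≤
      D * (|C1| / (Real.log n ^ (1 + c) / 2)) := by
    rw [norm_mul, RCLike.norm_conj]
    exact mul_le_mul hP hFm (norm_nonneg _) hD0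
  have h3 : ‖(starRingEnd ℂ) P * (∫ x, F n x ∂μ - P)‖ ≤
      D * (|C1| / (Real.log n ^ (1 + c) / 2)) := by
    rw [norm_mul, RCLike.norm_conj]
    exact mul_le_mul hP hFn (norm_nonneg _) hD0
  have h4 : (2 * |C2| + 4 * D * |C1|) / Real.log n ^ (1 + c) =
      |C2| / (Real.log n ^ (1 + c) / 2) + D * (|C1| / (Real.log n ^ (1 + c) / 2)) +
        D * (|C1| / (Real.log n ^ (1 + c) / 2)) := by
    field_simp
    ring
  rw [h4]
  linarith

/-- the case of products, limit the product of the integrals -/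
private theorem qm_main {c : ℝ} (hc0 : 0 < c) {X : Type*} [MeasurableSpace X] (μ : Measure X)
    [IsProbabilityMeasure μ] (T : X → X) (hT : MeasurePreserving T μ μ) (V : Set (X → ℂ))
    (hV : ∀ f ∈ V, Bdd f) (hconj : ∀ f ∈ V, (fun x => (starRingEnd ℂ) (f x)) ∈ V)
    (hmix : LogMix μ T V) {r : ℕ} (f : Fin (r + 1) → X → ℂ) (hf : ∀ j, f j ∈ V) :
    ∀ᵐ x ∂μ, Tendsto (fun N => av N fun n => ∏ j, f j (T^[a c (n + j.1)] x)) atTop
      (𝓝 (∏ j, ∫ x, f j x ∂μ)) := by
  choose M hM using fun j => (hV _ (hf j)).2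
  set B : ℝ := 1 + ∑ j, |M j| with hBd
  have hB1 : 1 ≤ B := by
    have : 0 ≤ ∑ j, |M j| := Finset.sum_nonneg fun j _ => abs_nonneg _
    linarith
  have hMB : ∀ j, M j ≤ B := by
    intro j
    have h1 : |M j| ≤ ∑ j, |M j| :=
      Finset.single_le_sum (f := fun j => |M j|) (fun i _ => abs_nonneg _) (Finset.mem_univ j)
    have h2 := le_abs_self (M j)
    linarith
  set D : ℝ := B ^ (r + 1) with hDd
  have hD1 : 1 ≤ D := one_le_pow₀ hB1
  have hD : ∀ n x, ‖∏ j, f j (T^[a c (n + j.1)] x)‖ ≤ D := by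
    intro n x
    rw [norm_prod]
    refine (Finset.prod_le_prod (fun j _ => norm_nonneg _)
      (fun j _ => (hM j _).trans (hMB j))).trans_eq ?_
    rw [Finset.prod_const, Finset.card_univ, Fintype.card_fin]
  have hP : ‖∏ j, ∫ x, f j x ∂μ‖ ≤ D := by
    rw [norm_prod]
    refine (Finset.prod_le_prod (g := fun _ => B) (fun j _ => norm_nonneg _)
      (fun j _ => ?_)).trans_eq ?_
    · have h1 := norm_integral_le_of_norm_le_const (μ := μ) (f := f j) (C := B)
        (Filter.Eventually.of_forall fun x => (hM j x).trans (hMB j))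
      rw [probReal_univ, mul_one] at h1
      exact h1
    · rw [Finset.prod_const, Finset.card_univ, Fintype.card_fin]
  obtain ⟨n₀, C, hn₀, hC0, hpair⟩ := qm_pair hc0 μ T hT V hV hconj hmix f hf D hD hP
  have hmeas : ∀ n, Measurable fun x => ∏ j, f j (T^[a c (n + j.1)] x) := by
    intro n
    refine Finset.measurable_prod _ fun j _ => ?_
    exact (hV _ (hf j)).1.comp (hT.measurable.iterate _)
  set F : ℕ → X → ℂ := fun n x => ∏ j, f j (T^[a c (n + j.1)] x) with hF
  set P : ℂ := ∏ j, ∫ x, f j x ∂μ with hPd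
  have hD0 : (0 : ℝ) < 2 * D := by linarith
  have hDne : ((2 * D : ℝ) : ℂ) ≠ 0 := by
    exact_mod_cast hD0.ne'
  set u : ℕ → X → ℂ := fun n x => (((2 * D : ℝ) : ℂ))⁻¹ * (F n x - P) with hu
  have hum : ∀ n, Measurable (u n) := fun n => ((hmeas n).sub_const P).const_mul _
  have hub : ∀ n x, ‖u n x‖ ≤ 1 := by
    intro n x
    have h1 : ‖F n x - P‖ ≤ 2 * D := by
      refine (norm_sub_le _ _).trans ?_
      have := hD n x
      linarith
    rw [hu]
    simp only
    rw [norm_mul, norm_inv, Complex.norm_real, Real.norm_of_nonneg hD0.le,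
      inv_mul_le_iff₀ hD0, mul_one]
    exact h1
  set I : ℕ → ℕ → ℝ := fun n m => ‖∫ x, u n x * (starRingEnd ℂ) (u m x) ∂μ‖ with hI
  have hI1 : ∀ n m, I n m ≤ 1 := by
    intro n m
    have h1 := norm_integral_le_of_norm_le_const (μ := μ)
      (f := fun x => u n x * (starRingEnd ℂ) (u m x)) (C := 1)
      (Filter.Eventually.of_forall fun x => by
        rw [norm_mul, RCLike.norm_conj]
        exact mul_le_one₀ (hub n x) (norm_nonneg _) (hub m x))
    rw [probReal_univ, mul_one] at h1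
    exact h1
  have hIs : ∀ n m, I n m = I m n := by
    intro n m
    simp only [hI]
    rw [← RCLike.norm_conj, ← integral_conj]
    congr 1
    refine integral_congr_ae (Filter.Eventually.of_forall fun x => ?_)
    simp only [map_mul, Complex.conj_conj]
    ring
  have hIp : ∀ n m, n₀ ≤ n → n + r < m → I n m ≤ C / Real.log n ^ (1 + c) := by
    intro n m hn hm
    have h1 := hpair n m hn hm
    have e1 : ∫ x, u n x * (starRingEnd ℂ) (u m x) ∂μ = ((((2 * D : ℝ) : ℂ))⁻¹) ^ 2 *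
        ∫ x, (F n x - P) * (starRingEnd ℂ) (F m x - P) ∂μ := by
      rw [← integral_const_mul]
      refine integral_congr_ae (Filter.Eventually.of_forall fun x => ?_)
      simp only [hu, map_mul, map_inv₀, Complex.conj_ofReal]
      ring
    have e2 : I n m = ((2 * D)⁻¹) ^ 2 * ‖∫ x, (F n x - P) * (starRingEnd ℂ) (F m x - P) ∂μ‖ := by
      simp only [hI]
      rw [e1, norm_mul, norm_pow, norm_inv, Complex.norm_real, Real.norm_of_nonneg hD0.le]
    have e3 : ((2 * D)⁻¹) ^ 2 ≤ (1 : ℝ) := by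
      have : (2 * D)⁻¹ ≤ 1 := inv_le_one_of_one_le₀ (by linarith)
      exact pow_le_one₀ (by positivity) this
    rw [e2]
    refine le_trans ?_ h1
    exact mul_le_of_le_one_left (norm_nonneg _) e3
  have hL2 : ∀ N : ℕ, 2 ≤ N → ∫ x, ‖av N fun n => u n x‖ ^ 2 ∂μ ≤
      ((2 * n₀ + 2 * r + 3) * (2 * (1 + c)) ^ (1 + c) + C * 2 ^ (1 + c)) /
        Real.log N ^ (1 + c) := by
    intro N hN
    refine (qm_l2 μ u hum hub N).trans ?_
    have hN' : (2 : ℝ) ≤ N := by exact_mod_cast hN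
    have hN0 : (0 : ℝ) < N := by linarith
    have hlog : 0 < Real.log N := Real.log_pos (by linarith)
    have hLp : 0 < Real.log N ^ (1 + c) := Real.rpow_pos_of_pos hlog _
    have hs1 : 1 ≤ Real.sqrt N := by
      rw [Real.one_le_sqrt]
      linarith
    have hss : Real.sqrt N * Real.sqrt N = N := Real.mul_self_sqrt hN0.le
    set K : ℝ := n₀ + Real.sqrt N with hK
    have hK0 : 0 ≤ K := by positivity
    set ε : ℝ := C * 2 ^ (1 + c) / Real.log N ^ (1 + c) with hε
    have hε0 : 0 ≤ ε := by positivity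
    have hlogm : ∀ n : ℕ, K < n → C / Real.log n ^ (1 + c) ≤ ε := by
      intro n hn
      have h1 : Real.sqrt N ≤ n := by
        have : (0 : ℝ) ≤ n₀ := Nat.cast_nonneg _
        linarith
      have h2 : Real.log N / 2 ≤ Real.log n := by
        rw [← Real.log_sqrt hN0.le]
        exact Real.log_le_log (by linarith) h1
      have h3 : (Real.log N / 2) ^ (1 + c) ≤ Real.log n ^ (1 + c) :=
        Real.rpow_le_rpow (by linarith) h2 (by linarith)
      have h4 : 0 < (Real.log N / 2) ^ (1 + c) := Real.rpow_pos_of_pos (by linarith) _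
      refine (div_le_div_of_nonneg_left hC0 h4 h3).trans (le_of_eq ?_)
      rw [hε, Real.div_rpow hlog.le (by norm_num), div_div_eq_mul_div]
    have hn₀K : ∀ n : ℕ, K < n → n₀ ≤ n := by
      intro n hn
      have h1 : (n₀ : ℝ) < n := by
        have := Real.sqrt_nonneg (N : ℝ)
        linarith
      exact_mod_cast h1.le
    have hd := qm_dbl I hI1 K ε r N hK0 hε0 (by
      intro n m hn hm hnm
      rcases hnm with h1 | h1
      · exact (hIp n m (hn₀K n hn) h1).trans (hlogm n hn)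
      · rw [hIs]
        exact (hIp m n (hn₀K m hm) h1).trans (hlogm m hm))
    have h5 := mul_le_mul_of_nonneg_left hd (sq_nonneg ((N : ℝ)⁻¹))
    refine h5.trans ?_
    have h6 : ((N : ℝ)⁻¹) ^ 2 * (2 * K * N + (2 * r + 1) * N + (N : ℝ) ^ 2 * ε) =
        (2 * K + (2 * r + 1)) / N + ε := by
      field_simp
    rw [h6]
    have h7 : (2 * K + (2 * r + 1)) / N ≤ (2 * n₀ + 2 * r + 3) * (1 / Real.sqrt N) := by
      rw [div_le_iff₀ hN0]
      have h8 : (2 * (n₀ : ℝ) + 2 * r + 3) * (1 / Real.sqrt N) * N =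
          (2 * n₀ + 2 * r + 3) * Real.sqrt N := by
        have hne : Real.sqrt (N : ℝ) ≠ 0 := by positivity
        rw [mul_assoc]
        congr 1
        rw [one_div, inv_mul_eq_iff_eq_mul₀ hne]
        exact hss.symm
      rw [h8, hK]
      have h9 : (0 : ℝ) ≤ 2 * n₀ + 2 * r + 1 := by positivity
      nlinarith [mul_nonneg h9 (sub_nonneg.mpr hs1)]
    have h10 := qm_sqrt hc0 N hN
    have h11 : (0 : ℝ) ≤ 2 * n₀ + 2 * r + 3 := by positivity
    have h12 := mul_le_mul_of_nonneg_left h10 h11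
    have h13 : ((2 * (n₀ : ℝ) + 2 * r + 3) * (2 * (1 + c)) ^ (1 + c) + C * 2 ^ (1 + c)) /
        Real.log N ^ (1 + c) = (2 * n₀ + 2 * r + 3) * ((2 * (1 + c)) ^ (1 + c) /
        Real.log N ^ (1 + c)) + ε := by
      rw [hε]
      ring
    rw [h13]
    linarith
  have hdel := del_log μ u (fun n => (hum n).aestronglyMeasurable)
    (fun n => Filter.Eventually.of_forall (hub n)) _ c hc0 hL2
  filter_upwards [hdel] with x hx
  have h1 : Tendsto (fun N => ((2 * D : ℝ) : ℂ) * (av N fun n => u n x) + P) atTop (𝓝 P) := by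
    have := (hx.const_mul ((2 * D : ℝ) : ℂ)).add_const P
    rwa [mul_zero, zero_add] at this
  refine h1.congr' ?_
  filter_upwards [eventually_ge_atTop 1] with N hN
  have hNne : (N : ℂ) ≠ 0 := by
    have : N ≠ 0 := by omega
    exact_mod_cast this
  unfold av
  simp only [hu]
  rw [← Finset.mul_sum, Finset.sum_sub_distrib, Finset.sum_const, Nat.card_Icc,
    Nat.add_sub_cancel, nsmul_eq_mul]
  field_simp
  ring

theorem qmix_avg {c : ℝ} (hc0 : 0 < c) {X : Type*} [MeasurableSpace X] (μ : Measure X)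
    [IsProbabilityMeasure μ] (T : X → X) (hT : MeasurePreserving T μ μ) (V : Set (X → ℂ))
    (hV : ∀ f ∈ V, Bdd f) (hconj : ∀ f ∈ V, (fun x => (starRingEnd ℂ) (f x)) ∈ V)
    (hmix : LogMix μ T V) {r : ℕ} (f : Fin (r + 1) → X → ℂ) (hf : ∀ j, f j ∈ V) :
    Prd c μ T f := by
  have h1 := qm_main hc0 μ T hT V hV hconj hmix f hf
  have h2 : ∀ᵐ x ∂μ, ∀ j, Tendsto (fun N => av N fun n => f j (T^[a c n] x)) atTop
      (𝓝 (∫ x, f j x ∂μ)) := by
    rw [ae_all_iff]
    intro j
    have h3 := qm_main hc0 μ T hT V hV hconj hmix (r := 0) (fun _ => f j) (fun _ => hf j)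
    filter_upwards [h3] with x hx
    simpa using hx
  filter_upwards [h1, h2] with x hx1 hx2
  exact ⟨fun j => ∫ x, f j x ∂μ, hx2, hx1⟩

end Pool.Agent.VINO
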