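import Pool.Agent.VINO.QFin
import Pool.Agent.VINO.KFin

/-!
# VINO / QTail: systems whose tail factor is mixing of all orders at a logarithmic rate

PROOF.  `red_main` reduces the product formula to functions of type `P` (measurable with respect to the tail). For these:
`ext_main` with the given class `V` (`qmix_avg` gives the product formula for tuples from `V`), `W` = the functions of type `P`.
Then `fs_of_prd`.
-/

set_option autoImplicit false

namespace Pool.Agent.VINO

open MeasureTheory Filter Topology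

theorem logmix_tail {c : ℝ} (hc0 : 0 < c) (hc1 : c < 1 / 2) {X : Type*} {𝒜 : MeasurableSpace X}
    [m : MeasurableSpace X] {μ : Measure X} [IsProbabilityMeasure μ] {T : X → X}
    (hT : MeasurePreserving T μ μ) (h𝒜 : 𝒜 ≤ m) (hA : 𝒜.comap T ≤ 𝒜) (hgen : GenA T 𝒜 μ)
    (V : Set (X → ℂ)) (hV : ∀ f ∈ V, Bdd f)
    (hconj : ∀ f ∈ V, (fun x => (starRingEnd ℂ) (f x)) ∈ V) (hmix : LogMix μ T V)
    (hd : ∀ f : X → ℂ, TypP T 𝒜 f → ∀ ε : ℝ, 0 < ε →
      ∃ h ∈ Submodule.span ℂ V, ∫ x, ‖f x - h x‖ ^ 2 ∂μ ≤ ε)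
    (f : X → ℂ) (hf : Bdd f) : ∀ᵐ x ∂μ, HasBernoulliFS fun n => f (T^[a c n] x) := by
  have hne : V.Nonempty := by
    by_contra hV0
    rw [Set.not_nonempty_iff_eq_empty] at hV0
    obtain ⟨h, hh, hle⟩ := hd (fun _ => 1) ⟨⟨measurable_const, 1, fun x => by simp⟩,
      @measurable_const _ _ _ (tailA T 𝒜) 1⟩ (1 / 2) (by norm_num)
    rw [hV0, Submodule.span_empty, Submodule.mem_bot] at hh
    rw [hh] at hle
    norm_num at hle
  refine fs_of_prd μ T f hf fun r p => ?_
  refine red_main hc0 hc1 hT h𝒜 hA hgen (fun r f hf => ?_) r _ fun j => ?_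
  · exact ext_main hc0 hc1 μ T hT V {f | TypP T 𝒜 f} hne hV (fun _ h => h.1)
      (fun f h ε hε => hd f h ε hε)
      (fun r f hf => qmix_avg hc0 μ T hT V hV hconj hmix f hf) r f hf
  · obtain ⟨hfm, M, hM⟩ := hf
    refine ⟨(mono (p j)).continuous.measurable.comp hfm, M ^ (p j).1 * M ^ (p j).2, fun x => ?_⟩
    change ‖f x ^ (p j).1 * (starRingEnd ℂ (f x)) ^ (p j).2‖ ≤ _
    rw [norm_mul, norm_pow, norm_pow, RCLike.norm_conj]
    have hM0 : 0 ≤ M := (norm_nonneg _).trans (hM x)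
    exact mul_le_mul (pow_le_pow_left₀ (norm_nonneg _) (hM x) _)
      (pow_le_pow_left₀ (norm_nonneg _) (hM x) _) (by positivity) (by positivity)

end Pool.Agent.VINO
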