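import Pool.Agent.VINO.EDefs

/-!
# VINO / Slots: extension of a multilinear closed property

PROOF.  Let `P s` (`s : Finset ι`) be: `Q g` for all `g` with `g j ∈ closure (span V)` for `j ∈ s` and `g j ∈ V` for
`j ∉ s`. Induction on `s` (`Finset.induction_on`): for `insert j s`, fix `g`; for `f ∈ V`:
`Q (update g j f)` by the induction hypothesis (`update g j f` has entries in the closure for `s` and in
`V` otherwise); the set of the `f` with `Q (update g j f)` contains `V`, `0`, is closed under sums
and multiples (so contains `span V`: `Submodule.span_induction`), and is closed by `hcl`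
(`Metric.mem_closure_iff`); `update g j (g j) = g`.
-/

set_option autoImplicit false

namespace Pool.Agent.VINO

theorem slots {ι : Type*} [Fintype ι] [DecidableEq ι] {E : Type*} [NormedAddCommGroup E]
    [NormedSpace ℂ E] (Q : (ι → E) → Prop)
    (hadd : ∀ g j f f', Q (Function.update g j f) → Q (Function.update g j f') →
      Q (Function.update g j (f + f')))
    (hsmul : ∀ g j (z : ℂ) f, Q (Function.update g j f) → Q (Function.update g j (z • f)))
    (hzero : ∀ g j, Q (Function.update g j 0))
    (hcl : ∀ g j f, (∀ ε : ℝ, 0 < ε → ∃ f', ‖f - f'‖ ≤ ε ∧ Q (Function.update g j f')) →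
      Q (Function.update g j f))
    (V : Set E) (hV : ∀ g, (∀ j, g j ∈ V) → Q g) (g : ι → E)
    (hg : ∀ j, g j ∈ closure (Submodule.span ℂ V : Set E)) : Q g := by
  have key : ∀ s : Finset ι, ∀ g : ι → E,
      (∀ j ∈ s, g j ∈ closure (Submodule.span ℂ V : Set E)) → (∀ j ∉ s, g j ∈ V) → Q g := by
    intro s
    induction s using Finset.induction_on with
    | empty => exact fun g _ h => hV g (fun j => h j (Finset.notMem_empty j))
    | insert j s hj ih =>
      intro g h1 h2
      have h3 : ∀ f ∈ Submodule.span ℂ V, Q (Function.update g j f) := by
        intro f hf
        induction hf using Submodule.span_induction with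
        | mem f hf =>
          refine ih _ (fun i hi => ?_) (fun i hi => ?_)
          · have hij : i ≠ j := fun h => hj (h ▸ hi)
            rw [Function.update_of_ne hij]
            exact h1 i (Finset.mem_insert_of_mem hi)
          · by_cases hij : i = j
            · subst hij
              rw [Function.update_self]
              exact hf
            · rw [Function.update_of_ne hij]
              refine h2 i (fun h => ?_)
              rcases Finset.mem_insert.1 h with h | h
              · exact hij h
              · exact hi h
        | zero => exact hzero g j
        | add x y _ _ hx hy => exact hadd g j x y hx hy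
        | smul z x _ hx => exact hsmul g j z x hx
      have h4 : Q (Function.update g j (g j)) := by
        refine hcl g j (g j) (fun ε hε => ?_)
        obtain ⟨f', hf', hd⟩ := Metric.mem_closure_iff.1 (h1 j (Finset.mem_insert_self j s)) ε hε
        exact ⟨f', by rw [← dist_eq_norm]; exact hd.le, h3 f' hf'⟩
      rwa [Function.update_eq_self] at h4
  exact key Finset.univ g (fun j _ => hg j) (fun j hj => absurd (Finset.mem_univ j) hj)

end Pool.Agent.VINO
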