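import Pool.Agent.VINO.TDefs

/-!
# VINO / TChr: characters of the torus and iterates of affine maps

PROOFS.  `int_mFourier`: product of the one-dimensional integrals `∫ fourier n = 0` for `n ≠ 0` (`integral_fintype_prod_eq_prod`
and the Mathlib lemmas for `fourier` with `AddCircle.haarAddCircle`: `fourier` orthonormality).
`mFourier_TT`: `mFourier k x = ∏ i, fourier (k i) (x i)`, `fourier n (s + t) = fourier n s * fourier n t`,
`fourier n (z • t) = fourier (n z) t`.
`mFourier_iter`: induction on `m`.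
`mFourier_prod`: `mFourier_iter` and `mFourier (k + k') = mFourier k * mFourier k'`.
-/

set_option autoImplicit false

namespace Pool.Agent.VINO

open MeasureTheory Filter Topology UnitAddTorus

instance hT_prob (d : ℕ) : IsProbabilityMeasure (hT d) := by
  unfold hT; infer_instance

private lemma tchr_int (n : ℤ) :
    ∫ t, fourier n t ∂(AddCircle.haarAddCircle : Measure UnitAddCircle) =
      if n = 0 then 1 else 0 := by
  split_ifs with h
  · rw [h]
    have h1 : (fun t : UnitAddCircle => (fourier 0 t : ℂ)) = fun _ => 1 := by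
      ext t
      exact fourier_zero
    rw [h1, integral_const, probReal_univ, one_smul]
  · exact integral_eq_zero_of_add_right_eq_neg (μ := AddCircle.haarAddCircle)
      (fourier_add_half_inv_index h one_pos)

theorem int_mFourier {d : ℕ} (k : Fin d → ℤ) :
    ∫ x, mFourier k x ∂(hT d) = if k = 0 then 1 else 0 := by
  have h1 : ∫ x, mFourier k x ∂(hT d) = ∏ i, ∫ t, fourier (k i) t
      ∂(AddCircle.haarAddCircle : Measure UnitAddCircle) :=
    integral_fintype_prod_eq_prod (𝕜 := ℂ) (fun i (t : UnitAddCircle) => (fourier (k i) t : ℂ))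
  rw [h1]
  simp only [tchr_int]
  split_ifs with h
  · rw [h]
    simp
  · obtain ⟨i, hi⟩ := Function.ne_iff.1 h
    refine Finset.prod_eq_zero (Finset.mem_univ i) ?_
    exact if_neg (by simpa using hi)

private lemma tchr_add (n : ℤ) (s t : UnitAddCircle) :
    (fourier n (s + t) : ℂ) = fourier n s * fourier n t := by
  simp only [fourier_apply, smul_add, AddCircle.toCircle_add, Circle.coe_mul]

private lemma tchr_zero (n : ℤ) : (fourier n (0 : UnitAddCircle) : ℂ) = 1 := by
  simp only [fourier_apply, smul_zero, AddCircle.toCircle_zero, Circle.coe_one]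

private lemma tchr_sum {ι : Type*} (n : ℤ) (s : Finset ι) (f : ι → UnitAddCircle) :
    (fourier n (∑ j ∈ s, f j) : ℂ) = ∏ j ∈ s, (fourier n (f j) : ℂ) := by
  classical
  induction s using Finset.induction_on with
  | empty => rw [Finset.sum_empty, Finset.prod_empty, tchr_zero]
  | insert i s hi ih => rw [Finset.sum_insert hi, Finset.prod_insert hi, tchr_add, ih]

private lemma tchr_smul (n z : ℤ) (t : UnitAddCircle) :
    (fourier n (z • t) : ℂ) = fourier (n * z) t := by
  simp only [fourier_apply, smul_smul]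

private lemma tchr_sumn {ι : Type*} (s : Finset ι) (a : ι → ℤ) (t : UnitAddCircle) :
    (fourier (∑ i ∈ s, a i) t : ℂ) = ∏ i ∈ s, (fourier (a i) t : ℂ) := by
  classical
  induction s using Finset.induction_on with
  | empty =>
    rw [Finset.sum_empty, Finset.prod_empty]
    exact fourier_zero
  | insert i s hi ih =>
    rw [Finset.sum_insert hi, Finset.prod_insert hi, ← ih]
    exact fourier_add

private lemma tchr_norm {d : ℕ} (k : Fin d → ℤ) (x : UnitAddTorus (Fin d)) :
    ‖(mFourier k x : ℂ)‖ = 1 := by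
  show ‖∏ i, (fourier (k i) (x i) : ℂ)‖ = 1
  rw [norm_prod]
  refine Finset.prod_eq_one fun i _ => ?_
  rw [fourier_apply, Circle.norm_coe]

private lemma tchr_msum {d : ℕ} {ι : Type*} (s : Finset ι) (k : ι → Fin d → ℤ)
    (x : UnitAddTorus (Fin d)) :
    (mFourier (∑ j ∈ s, k j) x : ℂ) = ∏ j ∈ s, (mFourier (k j) x : ℂ) := by
  classical
  induction s using Finset.induction_on with
  | empty =>
    rw [Finset.sum_empty, Finset.prod_empty, mFourier_zero]
    rfl
  | insert i s hi ih => rw [Finset.sum_insert hi, Finset.prod_insert hi, mFourier_add, ih]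

theorem mFourier_TT {d : ℕ} (A : Matrix (Fin d) (Fin d) ℤ) (b x : UnitAddTorus (Fin d))
    (k : Fin d → ℤ) :
    mFourier k (TT A b x) = mFourier k b * mFourier (A.transpose.mulVec k) x := by
  show ∏ i, (fourier (k i) (∑ j, A i j • x j + b i) : ℂ) =
    (∏ i, (fourier (k i) (b i) : ℂ)) * ∏ j, (fourier (A.transpose.mulVec k j) (x j) : ℂ)
  have h1 : ∀ i, (fourier (k i) (∑ j, A i j • x j + b i) : ℂ) =
      (fourier (k i) (b i) : ℂ) * ∏ j, (fourier (k i * A i j) (x j) : ℂ) := by
    intro i
    rw [tchr_add, tchr_sum, mul_comm]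
    simp only [tchr_smul]
  simp only [h1]
  rw [Finset.prod_mul_distrib]
  congr 1
  rw [Finset.prod_comm]
  refine Finset.prod_congr rfl fun j _ => ?_
  rw [← tchr_sumn]
  have h2 : A.transpose.mulVec k j = ∑ i, k i * A i j := by
    simp only [Matrix.mulVec, dotProduct, Matrix.transpose_apply, mul_comm]
  rw [h2]

theorem mFourier_iter {d : ℕ} (A : Matrix (Fin d) (Fin d) ℤ) (b : UnitAddTorus (Fin d))
    (k : Fin d → ℤ) (m : ℕ) : ∃ z : ℂ, ‖z‖ = 1 ∧ ∀ x,
      mFourier k ((TT A b)^[m] x) = z * mFourier ((A.transpose ^ m).mulVec k) x := by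
  induction m with
  | zero =>
    refine ⟨1, norm_one, fun x => ?_⟩
    rw [pow_zero, Matrix.one_mulVec, one_mul]
    rfl
  | succ m ih =>
    obtain ⟨z, hz, h⟩ := ih
    refine ⟨z * mFourier ((A.transpose ^ m).mulVec k) b, ?_, fun x => ?_⟩
    · rw [norm_mul, hz, tchr_norm, one_mul]
    · rw [Function.iterate_succ_apply, h, mFourier_TT, Matrix.mulVec_mulVec, ← pow_succ', mul_assoc]

theorem mFourier_prod (c : ℝ) {d r : ℕ} (A : Matrix (Fin d) (Fin d) ℤ)
    (b : UnitAddTorus (Fin d)) (k : Fin (r + 1) → Fin d → ℤ) (n : ℕ) : ∃ z : ℂ, ‖z‖ = 1 ∧ ∀ x,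
      ∏ j, mFourier (k j) ((TT A b)^[a c (n + j.1)] x) = z * mFourier (KV c A.transpose k n) x := by
  choose z hz h using fun j : Fin (r + 1) => mFourier_iter A b (k j) (a c (n + j.1))
  refine ⟨∏ j, z j, ?_, fun x => ?_⟩
  · rw [norm_prod]
    exact Finset.prod_eq_one fun j _ => hz j
  · unfold KV
    rw [tchr_msum, ← Finset.prod_mul_distrib]
    exact Finset.prod_congr rfl fun j _ => h j x

end Pool.Agent.VINO
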