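import Pool.Agent.VINO.EDefs

/-!
# VINO / TDefs: affine endomorphisms of tori, definitions
-/

set_option autoImplicit false

namespace Pool.Agent.VINO

open MeasureTheory Filter Topology

/-- The affine map `x ↦ A x + b` of the torus `𝕋^d`. -/
def TT {d : ℕ} (A : Matrix (Fin d) (Fin d) ℤ) (b : UnitAddTorus (Fin d)) :
    UnitAddTorus (Fin d) → UnitAddTorus (Fin d) :=
  fun x i => ∑ j, A i j • x j + b i

/-- The Haar probability measure of the torus. -/
noncomputable def hT (d : ℕ) : Measure (UnitAddTorus (Fin d)) :=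
  Measure.pi fun _ : Fin d => (AddCircle.haarAddCircle : Measure UnitAddCircle)

/-- The frequency `∑ B^(a(n+j)) k_j`. -/
noncomputable def KV (c : ℝ) {d r : ℕ} (B : Matrix (Fin d) (Fin d) ℤ)
    (k : Fin (r + 1) → Fin d → ℤ) (n : ℕ) : Fin d → ℤ :=
  ∑ j, (B ^ a c (n + j.1)).mulVec (k j)

/-- The frequency `k` is periodic under `B`. -/
def Per {d : ℕ} (B : Matrix (Fin d) (Fin d) ℤ) (k : Fin d → ℤ) : Prop :=
  ∃ q : ℕ, 1 ≤ q ∧ (B ^ q).mulVec k = k

end Pool.Agent.VINO
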