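import Pool.Agent.VINO.TChr
import Pool.Agent.VINO.APl

/-!
# VINO / TPer: periodic frequencies

PROOF.  `B = Aᵀ`, `B^q k = k`. `mFourier_iter` for `m = q`: `mFourier k (T^q y) = z * mFourier k y` for all `y`, `‖z‖ = 1`. With
`y = T^m x`: `u m = mFourier k (T^m x)` satisfies `u (m + q) = z u m` (`Function.iterate_add_apply`). `ap_per`.
-/

set_option autoImplicit false

namespace Pool.Agent.VINO

open MeasureTheory Filter Topology UnitAddTorus

theorem per_ap {d : ℕ} (A : Matrix (Fin d) (Fin d) ℤ) (b x : UnitAddTorus (Fin d))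
    (k : Fin d → ℤ) (hk : Per A.transpose k) :
    ∃ M, IsAP (fun m => mFourier k ((TT A b)^[m] x)) M := by
  obtain ⟨q, hq, hqk⟩ := hk
  obtain ⟨z, hz, h⟩ := mFourier_iter A b k q
  refine ap_per _ q hq z hz (fun m => ?_)
  show mFourier k ((TT A b)^[m + q] x) = z * mFourier k ((TT A b)^[m] x)
  rw [add_comm m q, Function.iterate_add_apply, h, hqk]

end Pool.Agent.VINO
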