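import Pool.Agent.VINO.ETor
import Pool.Agent.VINO.KFin

/-!
# VINO / TTail: systems whose tail factor is generated by affine endomorphisms of tori

PROOF.  As in `KFin`: `tor_factor` (functions of a torus factor, from `torus_prd` and `prd_factor`), `ext_main` for the functions which
are measurable with respect to the tail, then `red_main` and `fs_of_prd`.
-/

set_option autoImplicit false

namespace Pool.Agent.VINO

open MeasureTheory Filter Topology

/-- The sub-`σ`-algebra `ℱ` is generated by a factor map of `(X, μ, T)` to an affine endomorphism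
`x ↦ A x + b`, `det A ≠ 0`, of a torus with Haar measure. -/
def TorusFactor {X : Type*} (T : X → X) (ℱ : MeasurableSpace X) [MeasurableSpace X]
    (μ : Measure X) : Prop :=
  ∃ (d : ℕ) (A : Matrix (Fin d) (Fin d) ℤ) (b : UnitAddTorus (Fin d))
    (π : X → UnitAddTorus (Fin d)), A.det ≠ 0 ∧ MeasurePreserving π μ (hT d) ∧
      (∀ᵐ x ∂μ, π (T x) = TT A b (π x)) ∧ ℱ = MeasurableSpace.comap π inferInstance

theorem tor_factor {c : ℝ} (hc0 : 0 < c) (hc1 : c < 1 / 2) {X : Type*}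
    (ℱ : MeasurableSpace X) [MeasurableSpace X] (μ : Measure X) [IsProbabilityMeasure μ]
    (T : X → X) (hT : MeasurePreserving T μ μ) (hF : TorusFactor T ℱ μ) {r : ℕ}
    (f : Fin (r + 1) → X → ℂ) (hf : ∀ j, Bdd (f j) ∧ Measurable[ℱ] (f j)) : Prd c μ T f := by
  obtain ⟨d, A, b, π, hA, hπ, hg, hℱ⟩ := hF
  subst hℱ
  have h1 : ∀ j, ∃ F : UnitAddTorus (Fin d) → ℂ, Bdd F ∧ f j = fun x => F (π x) := by
    intro j
    obtain ⟨⟨_, M, hM⟩, hm⟩ := hf j
    obtain ⟨F, hF, hfF⟩ := hm.exists_eq_measurable_comp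
    classical
    refine ⟨fun y => if ‖F y‖ ≤ M then F y else 0, ⟨?_, |M|, fun y => ?_⟩, ?_⟩
    · exact Measurable.ite (measurableSet_le hF.norm measurable_const) hF measurable_const
    · beta_reduce
      by_cases h : ‖F y‖ ≤ M
      · rw [if_pos h]
        exact h.trans (le_abs_self M)
      · rw [if_neg h, norm_zero]
        exact abs_nonneg M
    · funext x
      have h2 : f j x = F (π x) := congrFun hfF x
      have h3 := hM x
      rw [h2] at h3 ⊢
      beta_reduce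
      rw [if_pos h3]
  choose F hF hfF using h1
  have h2 : f = fun j x => F j (π x) := funext hfF
  rw [h2]
  exact prd_factor hT π hπ hg F (torus_prd hc0 hc1 A hA b r F hF)

theorem torus_tail {c : ℝ} (hc0 : 0 < c) (hc1 : c < 1 / 2) {X : Type*} {𝒜 : MeasurableSpace X}
    (ℱ : ℕ → MeasurableSpace X) [m : MeasurableSpace X] {μ : Measure X}
    [IsProbabilityMeasure μ] {T : X → X} (hT : MeasurePreserving T μ μ) (h𝒜 : 𝒜 ≤ m)
    (hA : 𝒜.comap T ≤ 𝒜) (hgen : GenA T 𝒜 μ) (hmono : Monotone ℱ)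
    (htor : ∀ i, TorusFactor T (ℱ i) μ)
    (hP : ∀ f : X → ℂ, TypP T 𝒜 f → ∀ ε : ℝ, 0 < ε →
      ∃ i, ∃ h : X → ℂ, Bdd h ∧ Measurable[ℱ i] h ∧ ∫ x, ‖f x - h x‖ ^ 2 ∂μ ≤ ε)
    (f : X → ℂ) (hf : Bdd f) :
    ∀ᵐ x ∂μ, HasBernoulliFS fun n => f (T^[a c n] x) := by
  refine fs_of_prd μ T f hf fun r p => ?_
  refine red_main hc0 hc1 hT h𝒜 hA hgen (fun r f hf => ?_) r _ fun j => ?_
  · refine ext_main hc0 hc1 μ T hT {h : X → ℂ | Bdd h ∧ ∃ i, Measurable[ℱ i] h}
      {h : X → ℂ | TypP T 𝒜 h} ?_ (fun h hh => hh.1) (fun h hh => hh.1) ?_ ?_ r f hf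
    · exact ⟨fun _ => 0, ⟨measurable_const, 0, fun x => by rw [norm_zero]⟩, 0,
        @measurable_const _ _ _ (ℱ 0) 0⟩
    · intro f hf ε hε
      obtain ⟨i, h, hb, hm, hh⟩ := hP f hf ε hε
      exact ⟨h, Submodule.subset_span ⟨hb, i, hm⟩, hh⟩
    · intro r f hf
      choose ii hii using fun j => (hf j).2
      exact tor_factor hc0 hc1 (ℱ (Finset.univ.sup ii)) μ T hT (htor _) f fun j =>
        ⟨(hf j).1, (hii j).mono (hmono (Finset.le_sup (Finset.mem_univ j))) le_rfl⟩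
  · obtain ⟨hfm, M, hM⟩ := hf
    refine ⟨(mono (p j)).continuous.measurable.comp hfm, M ^ (p j).1 * M ^ (p j).2, fun x => ?_⟩
    change ‖f x ^ (p j).1 * (starRingEnd ℂ (f x)) ^ (p j).2‖ ≤ _
    rw [norm_mul, norm_pow, norm_pow, RCLike.norm_conj]
    have hM0 : 0 ≤ M := (norm_nonneg _).trans (hM x)
    exact mul_le_mul (pow_le_pow_left₀ (norm_nonneg _) (hM x) _)
      (pow_le_pow_left₀ (norm_nonneg _) (hM x) _) (by positivity) (by positivity)

end Pool.Agent.VINO
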