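import Pool.Agent.VINO.Hbig

/-!
# VINO / Tayl: Taylor polynomials of `H` on a window

PROOF.  `L = log x`, `A = L^c`, `k = kk c x ≥ 3 A + 2`, so `k + 1 ≥ 3 A + 3 ≥ 2 KK c L` (`KK c L = (1+c) A`, `c < 1/2`).
Lagrange remainder (`taylor_mean_remainder_lagrange` on `[x, x + h]`, `iteratedDerivWithin` is
`iteratedDeriv` at the points of `[x, x+h]` by smoothness in a neighbourhood (`H_smooth`; for the coefficients
at the end point `x` too: `iteratedDerivWithin_eq_iteratedDeriv` needs unique differentiability and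
`ContDiffAt`); trivial if `h = 0`): the difference is
`H^(k+1)(ξ) h^(k+1) / (k+1)!`, `ξ ∈ [x, x + h] ⊆ [x, 2x]`, so by `H_big` at most
`C G(3x) (e/x)^(k+1) x^((k+1)/6)`. Its logarithm is at most
`log C + (L + log 3)^(1+c) + (k+1) - (5/6) (k+1) L`, and `(L + log 3)^(1+c) ≤ L^(1+c) + 6 A = L A + 6 A` for large
`L` (mean value theorem: `(1+c) (L + log 3)^c log 3 ≤ 2 * 1.2 * 2 A`), `k + 1 - (5/6)(k+1) L ≤ -(4/5) (k+1) L`
(`L ≥ 30`), `(4/5)(k+1) L ≥ (12/5) A L + (12/5) L`. So the logarithm is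
`≤ log C + 6 A - (7/5) A L - (12/5) L ≤ -L` for large `L`.
-/

set_option autoImplicit false

namespace Pool.Agent.VINO

/-- Taylor's formula with Lagrange remainder on `[x, x + h]`, `h > 0`. -/
theorem tayl_aux (f : ℝ → ℝ) {x h : ℝ} (hh : 0 < h) (k : ℕ)
    (hf : ∀ y, x ≤ y → ContDiffAt ℝ ((k + 1 : ℕ) : WithTop ℕ∞) f y) :
    ∃ ξ ∈ Set.Icc x (x + h), f (x + h) - ∑ l ∈ Finset.range (k + 1),
        iteratedDeriv l f x / l.factorial * h ^ l =
      iteratedDeriv (k + 1) f ξ * h ^ (k + 1) / (k + 1).factorial := by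
  have hxx : x < x + h := by linarith
  have hI : Set.uIcc x (x + h) = Set.Icc x (x + h) := Set.uIcc_of_le hxx.le
  have hcd : ContDiffOn ℝ ((k + 1 : ℕ) : WithTop ℕ∞) f (Set.uIcc x (x + h)) := by
    rw [hI]
    exact fun y hy => (hf y hy.1).contDiffWithinAt
  have hu : UniqueDiffOn ℝ (Set.uIcc x (x + h)) := uniqueDiffOn_uIcc hxx.ne
  obtain ⟨ξ, hξ, he⟩ := taylor_mean_remainder_lagrange_iteratedDeriv hxx.ne
    (n := k) (f := f) (by exact_mod_cast hcd)
  have hξ' : ξ ∈ Set.Icc x (x + h) := by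
    rw [← hI]
    exact Set.uIoo_subset_uIcc_self hξ
  refine ⟨ξ, hξ', ?_⟩
  rw [taylor_within_apply, add_sub_cancel_left] at he
  rw [← he]
  congr 1
  refine Finset.sum_congr rfl fun l hl => ?_
  have hlk : l ≤ k + 1 := (Finset.mem_range.1 hl).le
  have h1 : iteratedDerivWithin l f (Set.uIcc x (x + h)) x = iteratedDeriv l f x :=
    iteratedDerivWithin_eq_iteratedDeriv hu
      ((hf x le_rfl).of_le (by exact_mod_cast hlk)) Set.left_mem_uIcc
  rw [h1, smul_eq_mul]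
  ring

/-- The estimate of the exponent. -/
theorem tayl_num {c L : ℝ} (hc0 : 0 < c) (hc1 : c < 1) (hL : 30 ≤ L) {D n : ℝ}
    (hD : D ≤ L) (hn : 3 * L ^ c + 3 ≤ n) :
    D + (L + Real.log 3) ^ (1 + c) + n * (1 - 5 / 6 * L) ≤ -L := by
  have hL0 : 0 < L := by linarith
  have hA1 : 1 ≤ L ^ c := Real.one_le_rpow (by linarith) hc0.le
  have hlog3 : Real.log 3 ≤ 2 := by
    have h1 := Real.log_le_sub_one_of_pos (show (0 : ℝ) < 3 by norm_num)
    linarith
  have hlog3' : 0 ≤ Real.log 3 := Real.log_nonneg (by norm_num)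
  -- the power
  have h1 : (L + Real.log 3) ^ (1 + c) ≤ (L + 2) ^ (1 + c) :=
    Real.rpow_le_rpow (by linarith) (by linarith) (by linarith)
  have h2 : (L + 2) ^ (1 + c) = (L + 2) * (L + 2) ^ c := by
    rw [Real.rpow_add (by linarith), Real.rpow_one]
  have h3 : (L + 2) ^ c ≤ L ^ c * (1 + 2 / L) := by
    have e1 : L + 2 = L * (1 + 2 / L) := by field_simp
    have e2 : (1 : ℝ) ≤ 1 + 2 / L := by
      have : 0 < 2 / L := by positivity
      linarith
    calc (L + 2) ^ c = (L * (1 + 2 / L)) ^ c := by rw [← e1]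
      _ = L ^ c * (1 + 2 / L) ^ c := Real.mul_rpow hL0.le (by linarith)
      _ ≤ L ^ c * (1 + 2 / L) ^ (1 : ℝ) :=
          mul_le_mul_of_nonneg_left (Real.rpow_le_rpow_of_exponent_le e2 hc1.le) (by linarith)
      _ = L ^ c * (1 + 2 / L) := by rw [Real.rpow_one]
  have h4 : (L + 2) * (L + 2) ^ c ≤ L * L ^ c + 5 * L ^ c := by
    have e1 : (L + 2) * (L + 2) ^ c ≤ (L + 2) * (L ^ c * (1 + 2 / L)) :=
      mul_le_mul_of_nonneg_left h3 (by linarith)
    have e2 : (L + 2) * (L ^ c * (1 + 2 / L)) = L * L ^ c + 4 * L ^ c + (4 / L) * L ^ c := by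
      field_simp
      ring
    have e3 : 4 / L ≤ 1 := by
      rw [div_le_one hL0]
      linarith
    have e4 : (4 / L) * L ^ c ≤ 1 * L ^ c := mul_le_mul_of_nonneg_right e3 (by linarith)
    linarith
  have h5 : n * (1 - 5 / 6 * L) ≤ (3 * L ^ c + 3) * (-(4 / 5) * L) := by
    have e1 : n * (1 - 5 / 6 * L) ≤ n * (-(4 / 5) * L) :=
      mul_le_mul_of_nonneg_left (by linarith) (by linarith)
    have e2 : n * (-(4 / 5) * L) ≤ (3 * L ^ c + 3) * (-(4 / 5) * L) :=
      mul_le_mul_of_nonpos_right hn (by linarith)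
    linarith
  have h6 : 5 * L ^ c ≤ 7 / 5 * (L * L ^ c) := by
    have e1 : 30 * L ^ c ≤ L * L ^ c := mul_le_mul_of_nonneg_right hL (by linarith)
    linarith
  have h7 : (3 * L ^ c + 3) * (-(4 / 5) * L) = -(12 / 5) * (L * L ^ c) - 12 / 5 * L := by ring
  linarith

theorem taylor_window {c : ℝ} (hc0 : 0 < c) (hc1 : c < 1 / 2) {r : ℕ} (β : Fin (r + 1) → ℝ) :
    ∃ x₀ : ℝ, 1 < x₀ ∧ ∀ x : ℝ, x₀ ≤ x → ∀ h : ℝ, 0 ≤ h → h ≤ x ^ (1 / 6 : ℝ) →
      |H c β (x + h) - ∑ l ∈ Finset.range (kk c x + 1),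
        iteratedDeriv l (H c β) x / l.factorial * h ^ l| ≤ 1 / x := by
  have hc1' : c < 1 := by linarith
  obtain ⟨C, L₀, hC, hL₀, hbig⟩ := H_big hc0 hc1' β
  refine ⟨Real.exp (30 + L₀ + |Real.log C|), Real.one_lt_exp_iff.2 (by positivity), ?_⟩
  intro x hx h hh0 hh1
  have hx0 : 0 < x := lt_of_lt_of_le (Real.exp_pos _) hx
  have hLx : 30 + L₀ + |Real.log C| ≤ Real.log x := (Real.le_log_iff_exp_le hx0).2 hx
  have habs := abs_nonneg (Real.log C)
  have hL30 : 30 ≤ Real.log x := by linarith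
  have hx1 : 1 < x := by
    rw [← Real.log_pos_iff hx0.le]
    linarith
  rcases hh0.eq_or_lt with rfl | hh
  · -- `h = 0`
    rw [Finset.sum_range_succ']
    have h1 : ∑ l ∈ Finset.range (kk c x), iteratedDeriv (l + 1) (H c β) x /
        ((l + 1).factorial : ℝ) * (0 : ℝ) ^ (l + 1) = 0 := by
      refine Finset.sum_eq_zero fun l _ => ?_
      rw [pow_succ, mul_zero, mul_zero]
    rw [h1]
    simp only [add_zero, iteratedDeriv_zero, Nat.factorial_zero, Nat.cast_one, div_one, pow_zero,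
      mul_one, zero_add, sub_self, abs_zero]
    positivity
  -- Lagrange remainder
  obtain ⟨ξ, hξ, he⟩ := tayl_aux (H c β) hh (kk c x)
    (fun y hy => H_smooth c β (lt_of_lt_of_le hx1 hy) _)
  rw [he]
  have hx16 : x ^ (1 / 6 : ℝ) ≤ x := by
    calc x ^ (1 / 6 : ℝ) ≤ x ^ (1 : ℝ) := Real.rpow_le_rpow_of_exponent_le hx1.le (by norm_num)
      _ = x := Real.rpow_one x
  have hξ2 : ξ ∈ Set.Icc x (2 * x) := ⟨hξ.1, by linarith [hξ.2]⟩
  have hA : AA c x = Real.log x ^ c := rfl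
  have hA1 : 1 ≤ Real.log x ^ c := Real.one_le_rpow (by linarith) hc0.le
  have hkk : 3 * Real.log x ^ c + 3 ≤ ((kk c x + 1 : ℕ) : ℝ) := by
    have h1 := Nat.le_ceil (3 * AA c x)
    rw [hA] at h1
    unfold kk
    push_cast
    rw [hA]
    linarith
  have hKK : 2 * KK c (Real.log x) ≤ ((kk c x + 1 : ℕ) : ℝ) := by
    unfold KK
    have h1 : (1 + c) * Real.log x ^ c ≤ 3 / 2 * Real.log x ^ c :=
      mul_le_mul_of_nonneg_right (by linarith) (by linarith)
    linarith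
  have hb := hbig x hx0 (by linarith) ξ hξ2 (kk c x + 1) hKK
  set n : ℕ := kk c x + 1 with hn
  have h1 : |iteratedDeriv n (H c β) ξ * h ^ n / (n.factorial : ℝ)| =
      |iteratedDeriv n (H c β) ξ| / (n.factorial : ℝ) * h ^ n := by
    have hfac : (0 : ℝ) < (n.factorial : ℝ) := Nat.cast_pos.2 (Nat.factorial_pos n)
    rw [abs_div, abs_mul, abs_of_nonneg (pow_nonneg hh0 n), abs_of_pos hfac]
    ring
  rw [h1]
  have h2 : h ^ n ≤ (x ^ (1 / 6 : ℝ)) ^ n := pow_le_pow_left₀ hh0 hh1 n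
  have h3 : |iteratedDeriv n (H c β) ξ| / (n.factorial : ℝ) * h ^ n ≤
      C * G c (3 * x) * (Real.exp 1 / x) ^ n * (x ^ (1 / 6 : ℝ)) ^ n :=
    mul_le_mul hb h2 (pow_nonneg hh0 n)
      (mul_nonneg (mul_nonneg hC.le (Real.exp_pos _).le) (by positivity))
  refine h3.trans ?_
  -- take logarithms
  have e1 : Real.exp 1 / x = Real.exp (1 - Real.log x) := by
    rw [Real.exp_sub, Real.exp_log hx0]
  have e2 : x ^ (1 / 6 : ℝ) = Real.exp (Real.log x / 6) := by
    rw [Real.rpow_def_of_pos hx0]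
    congr 1
    ring
  have e3 : Real.log (3 * x) = Real.log x + Real.log 3 := by
    rw [Real.log_mul (by norm_num) hx0.ne']
    ring
  have e4 : C * G c (3 * x) * (Real.exp 1 / x) ^ n * (x ^ (1 / 6 : ℝ)) ^ n =
      Real.exp (Real.log C + (Real.log x + Real.log 3) ^ (1 + c) +
        (n : ℝ) * (1 - 5 / 6 * Real.log x)) := by
    rw [e1, e2, G, e3, ← Real.exp_nat_mul, ← Real.exp_nat_mul]
    nth_rewrite 1 [← Real.exp_log hC]
    rw [← Real.exp_add, ← Real.exp_add, ← Real.exp_add]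
    congr 1
    ring
  have e5 : 1 / x = Real.exp (-Real.log x) := by
    rw [Real.exp_neg, Real.exp_log hx0, one_div]
  rw [e4, e5, Real.exp_le_exp]
  exact tayl_num hc0 hc1' hL30 (by linarith [le_abs_self (Real.log C)]) hkk

end Pool.Agent.VINO
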