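import Pool.Agent.VINO.UCoef

/-!
# VINO / UGoodB: one Taylor coefficient in the good range, moderate `γ`

PROOF.  Let `|γ| G(U) = U^s`, `9/10 ≤ s ≤ Λ`, `l = ⌊s + 1/2⌋ + 1`, `d = l - s ∈ [1/2, 3/2]`, `2 ≤ l ≤ Λ + 2`. Let
`κ₀ = min (2/5) (d/l)` and `Y = ⌊U^κ₀⌋`, `κ = log Y / log U ∈ [(99/100) κ₀, κ₀]` for large `U` (uniformly:
`κ₀ ≥ min (2/5) (1/(2(Λ+2)))`). `ucoef` (`l ≤ (1 + c/2) A` for large `U`):
`exp(-10 A) U^(-d) ≤ |γ G^(l)(x)/l!| ≤ exp(10 A) U^(-d)`, `A / log U → 0`.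
Upper: `10 A/log U + κ l / 2 ≤ d`, since `κ l / 2 ≤ d/2` and `d ≥ 1/2`.
Lower: `d + 10 A / log U ≤ (3/2) κ l`: if `κ₀ = d/l` then `(3/2) κ l ≥ 1.485 d ≥ d + 0.24`; if `κ₀ = 2/5` then
`(3/2) κ l ≥ 0.594 l`, and for `l = 2`: `d ≤ 2 - 9/10 = 1.1`, `0.594 * 2 = 1.188`; for `l ≥ 3`: `0.594 * 3 = 1.782 ≥ 1.5 + 0.2`.
-/

set_option autoImplicit false

namespace Pool.Agent.VINO

private theorem ub_A {c L B : ℝ} (hc0 : 0 < c) (hc1 : c < 1 / 2) (hL : 1000000 ≤ L)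
    (hB0 : 0 < B) (hB : B ^ (1 / c) ≤ L) : B ≤ L ^ c ∧ L ^ c ≤ L / 1000 := by
  have hL0 : 0 < L := by linarith
  constructor
  · calc B = (B ^ (1 / c)) ^ c := by
          rw [← Real.rpow_mul hB0.le, one_div, inv_mul_cancel₀ hc0.ne', Real.rpow_one]
      _ ≤ L ^ c := Real.rpow_le_rpow (by positivity) hB hc0.le
  · have h1 : L ^ c ≤ √L := by
      rw [Real.sqrt_eq_rpow]
      exact Real.rpow_le_rpow_of_exponent_le (by linarith) (by linarith)
    have h2 : 1000 ≤ √L := by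
      rw [Real.le_sqrt (by norm_num) hL0.le]
      norm_num
      linarith
    have h3 : √L * √L = L := Real.mul_self_sqrt hL0.le
    have h4 : √L ≤ L / 1000 := by
      rw [le_div_iff₀ (by norm_num)]
      calc √L * 1000 ≤ √L * √L := mul_le_mul_of_nonneg_left h2 (Real.sqrt_nonneg _)
        _ = L := h3
    exact h1.trans h4

theorem ugoodB {c : ℝ} (hc0 : 0 < c) (hc1 : c < 1 / 2) (Λ : ℝ) (hΛ : 1 ≤ Λ) :
    ∃ U₀ κ₁ : ℝ, 1 < U₀ ∧ 0 < κ₁ ∧ ∀ U : ℝ, U₀ ≤ U → ∀ γ : ℝ,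
      U ^ (9 / 10 : ℝ) ≤ |γ| * G c U → |γ| * G c U ≤ U ^ Λ →
      ∃ Y l : ℕ, U ^ κ₁ ≤ (Y : ℝ) ∧ (Y : ℝ) ≤ U ^ (2 / 5 : ℝ) ∧ 2 ≤ l ∧ (l : ℝ) ≤ Λ + 2 ∧
      ∀ x ∈ Set.Icc U (2 * U),
        (Y : ℝ) ^ (-(3 * (l : ℝ) / 2)) ≤
          |γ * iteratedDeriv l (G c) x / (l.factorial : ℝ)| ∧
        |γ * iteratedDeriv l (G c) x / (l.factorial : ℝ)| ≤ (Y : ℝ) ^ (-((l : ℝ) / 2)) := by
  obtain ⟨Ua, hUa, Ha⟩ := ucoef hc0 hc1
  obtain ⟨κm, hκm⟩ : ∃ κm : ℝ, κm = 1 / (2 * (Λ + 2)) := ⟨_, rfl⟩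
  have hκm0 : 0 < κm := by
    rw [hκm]
    positivity
  have hκm1 : κm ≤ 2 / 5 := by
    rw [hκm, div_le_div_iff₀ (by positivity) (by norm_num)]
    linarith
  obtain ⟨L0, hL0⟩ : ∃ L0 : ℝ, L0 = 1000000 + 100 / κm + (Λ + 2) ^ (1 / c) := ⟨_, rfl⟩
  have hp1 : 0 ≤ 100 / κm := by positivity
  have hp2 : 0 ≤ (Λ + 2) ^ (1 / c) := by positivity
  refine ⟨max Ua (Real.exp L0), κm / 2, lt_max_of_lt_left hUa, by positivity, ?_⟩
  intro U hU γ h1 h2
  have hU1 : Ua ≤ U := (le_max_left _ _).trans hU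
  have hU2 : Real.exp L0 ≤ U := (le_max_right _ _).trans hU
  have hU0 : 0 < U := (Real.exp_pos _).trans_le hU2
  obtain ⟨L, hL⟩ : ∃ L, L = Real.log U := ⟨_, rfl⟩
  have hLL : L0 ≤ L := by
    rw [hL]
    have := Real.log_le_log (Real.exp_pos _) hU2
    rwa [Real.log_exp] at this
  have hLm : 1000000 ≤ L := by linarith
  have hLpos : 0 < L := by linarith
  have hLk : 100 ≤ κm * L := by
    have h3 : 100 / κm ≤ L := by linarith
    rw [div_le_iff₀ hκm0] at h3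
    linarith
  have hUe : U = Real.exp L := by rw [hL, Real.exp_log hU0]
  obtain ⟨A, hA⟩ : ∃ A, A = AA c U := ⟨_, rfl⟩
  have hAd : A = L ^ c := by
    rw [hA, hL]
    rfl
  obtain ⟨hA1, hA2⟩ := ub_A hc0 hc1 hLm (B := Λ + 2) (by linarith) (by linarith)
  rw [← hAd] at hA1 hA2
  have hGpos : 0 < |γ| * G c U := lt_of_lt_of_le (Real.rpow_pos_of_pos hU0 _) h1
  obtain ⟨S, hS⟩ : ∃ S, S = Real.log (|γ| * G c U) := ⟨_, rfl⟩
  have hS1 : 9 / 10 * L ≤ S := by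
    have := Real.log_le_log (Real.rpow_pos_of_pos hU0 _) h1
    rwa [Real.log_rpow hU0, ← hL, ← hS] at this
  have hS2 : S ≤ Λ * L := by
    have := Real.log_le_log hGpos h2
    rwa [Real.log_rpow hU0, ← hL, ← hS] at this
  have hSe : |γ| * G c U = Real.exp S := by rw [hS, Real.exp_log hGpos]
  have hSpos : 0 < S := by linarith
  obtain ⟨l, hl⟩ : ∃ l : ℕ, l = ⌊S / L + 1 / 2⌋₊ + 1 := ⟨_, rfl⟩
  have hSL : S / L * L = S := div_mul_cancel₀ S hLpos.ne'
  have hl1 : ((l : ℝ) - 3 / 2) * L ≤ S := by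
    have h3 : (⌊S / L + 1 / 2⌋₊ : ℝ) ≤ S / L + 1 / 2 := Nat.floor_le (by positivity)
    have h4 : (l : ℝ) = (⌊S / L + 1 / 2⌋₊ : ℝ) + 1 := by
      rw [hl]
      push_cast
      ring
    calc ((l : ℝ) - 3 / 2) * L ≤ S / L * L := by
          refine mul_le_mul_of_nonneg_right ?_ hLpos.le
          linarith
      _ = S := hSL
  have hl2 : S ≤ ((l : ℝ) - 1 / 2) * L := by
    have h3 : S / L + 1 / 2 < (⌊S / L + 1 / 2⌋₊ : ℝ) + 1 := Nat.lt_floor_add_one _
    have h4 : (l : ℝ) = (⌊S / L + 1 / 2⌋₊ : ℝ) + 1 := by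
      rw [hl]
      push_cast
      ring
    calc S = S / L * L := hSL.symm
      _ ≤ ((l : ℝ) - 1 / 2) * L := by
          refine mul_le_mul_of_nonneg_right ?_ hLpos.le
          linarith
  have hl3 : 2 ≤ l := by
    have h3 : 1 ≤ ⌊S / L + 1 / 2⌋₊ := by
      refine Nat.le_floor ?_
      have h4 : 9 / 10 ≤ S / L := by
        rw [le_div_iff₀ hLpos]
        exact hS1
      push_cast
      linarith
    omega
  have hl3' : (2 : ℝ) ≤ l := by exact_mod_cast hl3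
  have hl4 : (l : ℝ) ≤ Λ + 2 := by
    have h3 : ((l : ℝ) - 3 / 2) * L ≤ Λ * L := hl1.trans hS2
    have h4 := le_of_mul_le_mul_right h3 hLpos
    linarith
  obtain ⟨Dd, hDd⟩ : ∃ Dd : ℝ, Dd = l * L - S := ⟨_, rfl⟩
  have hD1 : L / 2 ≤ Dd := by
    rw [hDd]
    linarith
  have hD2 : Dd ≤ 3 / 2 * L := by
    rw [hDd]
    linarith
  have hlL : 0 < (l : ℝ) * L := by positivity
  obtain ⟨κ, hκ⟩ : ∃ κ : ℝ, κ = min (2 / 5) (Dd / (l * L)) := ⟨_, rfl⟩
  have hκ1 : κ ≤ 2 / 5 := by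
    rw [hκ]
    exact min_le_left _ _
  have hκ2 : κ * (l * L) ≤ Dd := by
    have h3 : κ ≤ Dd / (l * L) := by
      rw [hκ]
      exact min_le_right _ _
    rwa [le_div_iff₀ hlL] at h3
  have hκ3 : κm ≤ κ := by
    rw [hκ, le_min_iff]
    refine ⟨hκm1, ?_⟩
    rw [hκm, div_le_div_iff₀ (by positivity) hlL]
    have h3 : (l : ℝ) * L ≤ (Λ + 2) * L := mul_le_mul_of_nonneg_right hl4 hLpos.le
    have h4 : (Λ + 2) * L ≤ (Λ + 2) * (2 * Dd) :=
      mul_le_mul_of_nonneg_left (by linarith) (by linarith)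
    linarith
  have hκL : 100 ≤ κ * L := hLk.trans (mul_le_mul_of_nonneg_right hκ3 hLpos.le)
  -- the number `Y`
  obtain ⟨Y, hY⟩ : ∃ Y : ℕ, Y = ⌊Real.exp (κ * L)⌋₊ := ⟨_, rfl⟩
  have hY1 : (Y : ℝ) ≤ Real.exp (κ * L) := by
    rw [hY]
    exact Nat.floor_le (Real.exp_pos _).le
  have hY2 : Real.exp (κ * L) / 2 ≤ Y := by
    have h3 : Real.exp (κ * L) < (Y : ℝ) + 1 := by
      rw [hY]
      exact Nat.lt_floor_add_one _
    have h4 := Real.add_one_le_exp (κ * L)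
    linarith
  have hY0 : (0 : ℝ) < Y := lt_of_lt_of_le (by positivity) hY2
  obtain ⟨ly, hly⟩ : ∃ ly, ly = Real.log Y := ⟨_, rfl⟩
  have hYe : (Y : ℝ) = Real.exp ly := by rw [hly, Real.exp_log hY0]
  have hly1 : ly ≤ κ * L := by
    have := Real.log_le_log hY0 hY1
    rwa [Real.log_exp, ← hly] at this
  have hly2 : 99 / 100 * (κ * L) ≤ ly := by
    have h3 := Real.log_le_log (by positivity) hY2
    rw [Real.log_div (Real.exp_pos _).ne' (by norm_num), Real.log_exp, ← hly] at h3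
    have h4 := Real.log_two_lt_d9
    linarith
  have hrp : ∀ t : ℝ, (Y : ℝ) ^ t = Real.exp (ly * t) := fun t => by
    rw [Real.rpow_def_of_pos hY0, ← hly]
  have hru : ∀ t : ℝ, U ^ t = Real.exp (L * t) := fun t => by
    rw [Real.rpow_def_of_pos hU0, ← hL]
  refine ⟨Y, l, ?_, ?_, hl3, hl4, ?_⟩
  · rw [hru, hYe]
    refine Real.exp_le_exp.2 ?_
    have h3 := mul_le_mul_of_nonneg_right hκ3 hLpos.le
    linarith
  · rw [hru, hYe]
    refine Real.exp_le_exp.2 ?_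
    have h3 := mul_le_mul_of_nonneg_right hκ1 hLpos.le
    linarith
  · intro x hx
    obtain ⟨k1, k2⟩ := Ha U hU1 x hx l (by
      rw [← hA]
      have h3 : 0 ≤ c / 2 * A := by
        have : 0 < A := by linarith
        positivity
      linarith)
    rw [← hA] at k1 k2
    set g : ℝ := iteratedDeriv l (G c) x / (l.factorial : ℝ) with hg
    have hg0 : 0 ≤ g := by
      refine le_trans ?_ k1
      have : 0 ≤ G c U := (Real.exp_pos _).le
      positivity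
    have e1 : |γ * iteratedDeriv l (G c) x / (l.factorial : ℝ)| = |γ| * g := by
      rw [mul_div_assoc, ← hg, abs_mul, abs_of_nonneg hg0]
    have e2 : ∀ t : ℝ, |γ| * (Real.exp t * (G c U * U ^ (-(l : ℝ)))) =
        Real.exp (t + S - l * L) := by
      intro t
      calc |γ| * (Real.exp t * (G c U * U ^ (-(l : ℝ)))) =
            Real.exp t * (|γ| * G c U) * U ^ (-(l : ℝ)) := by ring
        _ = Real.exp (t + S - l * L) := by
            rw [hSe, hru, ← Real.exp_add, ← Real.exp_add]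
            congr 1
            ring
    have m1 := mul_le_mul_of_nonneg_left k1 (abs_nonneg γ)
    have m2 := mul_le_mul_of_nonneg_left k2 (abs_nonneg γ)
    rw [e2] at m1 m2
    rw [e1, hrp, hrp]
    have hA3 : 10 * A ≤ L / 100 := by linarith
    constructor
    · refine le_trans (Real.exp_le_exp.2 ?_) m1
      -- lower bound
      have h3 : Dd + 10 * A ≤ 3 * (l : ℝ) / 2 * ly := by
        have h4 : 3 * (l : ℝ) / 2 * (99 / 100 * (κ * L)) ≤ 3 * (l : ℝ) / 2 * ly :=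
          mul_le_mul_of_nonneg_left hly2 (by positivity)
        refine le_trans ?_ h4
        have h5 : 3 * (l : ℝ) / 2 * (99 / 100 * (κ * L)) = 297 / 200 * (κ * (l * L)) := by ring
        rw [h5]
        rcases min_choice (2 / 5) (Dd / (l * L)) with hm | hm
        · rw [hm] at hκ
          rw [hκ]
          have h6 : 297 / 200 * (2 / 5 * ((l : ℝ) * L)) = 297 / 500 * (l * L) := by ring
          rw [h6]
          rcases Nat.lt_or_ge l 3 with h7 | h7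
          · have h8 : l = 2 := by omega
            have h9 : (l : ℝ) = 2 := by
              rw [h8]
              norm_num
            rw [h9] at hDd ⊢
            linarith
          · have h8 : (3 : ℝ) ≤ l := by exact_mod_cast h7
            have h9 : 3 * L ≤ l * L := mul_le_mul_of_nonneg_right h8 hLpos.le
            linarith
        · rw [hm] at hκ
          have h6 : κ * (l * L) = Dd := by
            rw [hκ]
            exact div_mul_cancel₀ _ hlL.ne'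
          rw [h6]
          linarith
      have h4 : ly * -(3 * (l : ℝ) / 2) = -(3 * (l : ℝ) / 2 * ly) := by ring
      rw [h4]
      linarith
    · refine m2.trans (Real.exp_le_exp.2 ?_)
      have h3 : (l : ℝ) / 2 * ly ≤ Dd / 2 := by
        have h4 : (l : ℝ) / 2 * ly ≤ (l : ℝ) / 2 * (κ * L) :=
          mul_le_mul_of_nonneg_left hly1 (by positivity)
        have h5 : (l : ℝ) / 2 * (κ * L) = κ * (l * L) / 2 := by ring
        linarith
      have h4 : ly * -((l : ℝ) / 2) = -((l : ℝ) / 2 * ly) := by ring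
      rw [h4]
      linarith

end Pool.Agent.VINO
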