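import Pool.Agent.VINO.UTay
import Pool.Agent.VINO.UGoodB
import Pool.Agent.VMV.Vkey

/-!
# VINO / UWinB: double sums, moderate `γ`

PROOF.  `k = ⌈5 (Λ + 3)⌉` (a constant, `k ≥ Λ + 2 ≥ l`). With `Y`, `l` from `ugoodB`, `h = p q ≤ Y^2 ≤ U^(4/5)`. `utay`: the error
of the Taylor polynomial of degree `k` is at most `U^Λ exp (10 A + k + 1) U^(-(k+1)/5) ≤ U^(Λ - (Λ+3)) exp (10 A + k + 1)
≤ 1/U` for large `U`. So the double sum differs from `e (γ G x) * Bil α Y`, `α j = γ G^(j+1)(x)/(j+1)!`, by at most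
`Y^2 2π/U`. Choose `m ≥ 1` with `4 exp(-m) k^2 ≤ 1/4`; `T = {l - 1}`, `S = l ≥ 2`; `sav k m Y S ≤ C Y^(-c₁)` with constants
`C, c₁ > 0` depending on `k, m` only (`Y ≥ 1`, the exponent of `Y` inside is `≤ 1/4 - 1/2 = -1/4`), `Y ≥ U^κ₁`. So the bound is
`Y^2 (C U^(-c₁ κ₁) + 7/U) ≤ Y^2 / (log U)^20` for large `U`.
-/

set_option autoImplicit false

namespace Pool.Agent.VINO

open Pool.Agent.VMV

private theorem uw_add (s t : ℝ) : e (s + t) = e s * e t := by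
  unfold e
  rw [← Complex.exp_add]
  congr 1
  push_cast
  ring

private theorem uw_norm (t : ℝ) : ‖e t‖ = 1 := by
  unfold e
  rw [show 2 * (Real.pi : ℂ) * Complex.I * (t : ℂ) = ((2 * Real.pi * t : ℝ) : ℂ) * Complex.I by
    push_cast; ring]
  exact Complex.norm_exp_ofReal_mul_I _

private theorem uw_sub_le (s t : ℝ) : ‖e s - e t‖ ≤ 2 * Real.pi * |s - t| := by
  have h1 : e s = e (s - t) * e t := by
    rw [← uw_add, sub_add_cancel]
  have h2 : e s - e t = (e (s - t) - 1) * e t := by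
    rw [h1]
    ring
  rw [h2, norm_mul, uw_norm, mul_one]
  have h3 : e (s - t) = Complex.exp (Complex.I * ((2 * Real.pi * (s - t) : ℝ) : ℂ)) := by
    unfold e
    congr 1
    push_cast
    ring
  rw [h3]
  have h4 := Real.norm_exp_I_mul_ofReal_sub_one_le (x := 2 * Real.pi * (s - t))
  refine h4.trans (le_of_eq ?_)
  rw [Real.norm_eq_abs, abs_mul, abs_of_pos (by positivity)]

/-- comparison of the double sum with `Bil` -/
private theorem uw_bil {k Y : ℕ} {α : Fin k → ℝ} {F : ℝ → ℝ} {x δ B : ℝ}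
    (hF : ∀ p ∈ Finset.Icc 1 Y, ∀ q ∈ Finset.Icc 1 Y,
      |F (x + (p : ℝ) * q) - (F x + ∑ l, α l * ((p : ℝ) * q) ^ (l.1 + 1))| ≤ δ)
    (hB : ‖Bil α Y‖ ≤ (Y : ℝ) ^ 2 * B) :
    ‖∑ p ∈ Finset.Icc 1 Y, ∑ q ∈ Finset.Icc 1 Y, e (F (x + (p : ℝ) * q))‖ ≤
      (Y : ℝ) ^ 2 * (2 * Real.pi * δ + B) := by
  have hpt : ∀ p ∈ Finset.Icc 1 Y, ∀ q ∈ Finset.Icc 1 Y,
      ‖e (F (x + (p : ℝ) * q)) - e (F x) * e (∑ l, α l * ((p : ℝ) * q) ^ (l.1 + 1))‖ ≤
        2 * Real.pi * δ := by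
    intro p hp q hq
    rw [← uw_add]
    exact (uw_sub_le _ _).trans (mul_le_mul_of_nonneg_left (hF p hp q hq) (by positivity))
  have hsum : ‖∑ p ∈ Finset.Icc 1 Y, ∑ q ∈ Finset.Icc 1 Y, e (F (x + (p : ℝ) * q)) -
      e (F x) * Bil α Y‖ ≤ (Y : ℝ) ^ 2 * (2 * Real.pi * δ) := by
    unfold Bil
    rw [Finset.mul_sum, ← Finset.sum_sub_distrib]
    refine (norm_sum_le _ _).trans ?_
    have h1 : ∀ p ∈ Finset.Icc 1 Y, ‖∑ q ∈ Finset.Icc 1 Y, e (F (x + (p : ℝ) * q)) -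
        e (F x) * ∑ y ∈ Finset.Icc 1 Y, e (∑ l, α l * ((p : ℝ) * y) ^ (l.1 + 1))‖ ≤
        (Y : ℝ) * (2 * Real.pi * δ) := by
      intro p hp
      rw [Finset.mul_sum, ← Finset.sum_sub_distrib]
      refine (norm_sum_le _ _).trans ?_
      refine (Finset.sum_le_sum fun q hq => hpt p hp q hq).trans (le_of_eq ?_)
      rw [Finset.sum_const, Nat.card_Icc, nsmul_eq_mul]
      simp
    refine (Finset.sum_le_sum h1).trans (le_of_eq ?_)
    rw [Finset.sum_const, Nat.card_Icc, nsmul_eq_mul]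
    simp only [Nat.add_sub_cancel]
    ring
  calc _ = ‖(∑ p ∈ Finset.Icc 1 Y, ∑ q ∈ Finset.Icc 1 Y, e (F (x + (p : ℝ) * q)) -
      e (F x) * Bil α Y) + e (F x) * Bil α Y‖ := by rw [sub_add_cancel]
    _ ≤ (Y : ℝ) ^ 2 * (2 * Real.pi * δ) + (Y : ℝ) ^ 2 * B := by
      refine (norm_add_le _ _).trans (add_le_add hsum ?_)
      rw [norm_mul, uw_norm, one_mul]
      exact hB
    _ = _ := by ring

/-- the saving for a constant degree -/
private theorem uw_sav (k : ℕ) (hk : 2 ≤ k) (κ₁ : ℝ) (hκ : 0 < κ₁) :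
    ∃ (m : ℕ) (L₁ : ℝ), 1 ≤ m ∧ ∀ L : ℝ, L₁ ≤ L → ∀ Y : ℕ, Real.exp (κ₁ * L) ≤ Y → 1 ≤ Y →
      ∀ S : ℝ, 2 ≤ S → sav k m Y S ≤ 1 / 2 / L ^ 20 := by
  have hk0 : (0 : ℝ) < k := by
    have : (2 : ℝ) ≤ k := by exact_mod_cast hk
    linarith
  obtain ⟨m, hm⟩ : ∃ m : ℕ, m = 16 * k ^ 2 := ⟨_, rfl⟩
  have hm1 : 1 ≤ m := by
    rw [hm]
    exact Nat.one_le_iff_ne_zero.2 (by positivity)
  have hm0 : (0 : ℝ) < m := by exact_mod_cast hm1
  obtain ⟨q, hq⟩ : ∃ q : ℝ, q = (1 / (4 * m ^ 2 * k ^ 4) : ℝ) := ⟨_, rfl⟩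
  have hq0 : 0 < q := by
    rw [hq]
    positivity
  obtain ⟨C, hC⟩ : ∃ C : ℝ, C = (64 * m * k ^ 4 : ℝ) ^ (2 * m ^ 2 * k ^ 4) *
    (30 * m ^ 2 * k ^ 4 : ℝ) ^ k := ⟨_, rfl⟩
  have hC0 : 0 < C := by
    rw [hC]
    positivity
  have hCq : 0 < C ^ q := Real.rpow_pos_of_pos hC0 _
  have hb : 0 < κ₁ * (1 / 4) * q := by positivity
  have h1 := (isLittleO_pow_exp_pos_mul_atTop (k := 20) hb).bound
    (c := 1 / (2 * C ^ q)) (by positivity)
  rw [Filter.eventually_atTop] at h1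
  obtain ⟨L₁, hL₁⟩ := h1
  refine ⟨m, max L₁ 1, hm1, fun L hL Y hY hY1 S hS => ?_⟩
  have h2 := hL₁ L ((le_max_left _ _).trans hL)
  have hL1 : 1 ≤ L := (le_max_right _ _).trans hL
  have hL0 : 0 < L := by linarith
  rw [Real.norm_eq_abs, Real.norm_eq_abs, abs_of_nonneg (by positivity),
    abs_of_pos (Real.exp_pos _)] at h2
  have hY1' : (1 : ℝ) ≤ Y := by exact_mod_cast hY1
  have hY0 : (0 : ℝ) < Y := by linarith
  have hexp : 4 * Real.exp (-m) * (k : ℝ) ^ 2 ≤ 1 / 4 := by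
    have h3 : (m : ℝ) + 1 ≤ Real.exp m := Real.add_one_le_exp _
    have h4 : (m : ℝ) = 16 * (k : ℝ) ^ 2 := by
      rw [hm]
      push_cast
      ring
    have h5 : 16 * (k : ℝ) ^ 2 ≤ Real.exp m := by linarith
    rw [Real.exp_neg]
    have h6 : 0 < Real.exp (m : ℝ) := Real.exp_pos _
    have h7 : 4 * (Real.exp (m : ℝ))⁻¹ * (k : ℝ) ^ 2 = (4 * (k : ℝ) ^ 2) / Real.exp m := by
      field_simp
    rw [h7, div_le_div_iff₀ h6 (by norm_num)]
    linarith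
  have h3 : (Y : ℝ) ^ (4 * Real.exp (-m) * (k : ℝ) ^ 2 - S / 4) ≤
      Real.exp (-(κ₁ * L * (1 / 4))) := by
    calc (Y : ℝ) ^ (4 * Real.exp (-m) * (k : ℝ) ^ 2 - S / 4) ≤ (Y : ℝ) ^ (-(1 / 4) : ℝ) :=
          Real.rpow_le_rpow_of_exponent_le hY1' (by linarith)
      _ = ((Y : ℝ) ^ (1 / 4 : ℝ))⁻¹ := Real.rpow_neg hY0.le _
      _ ≤ (Real.exp (κ₁ * L) ^ (1 / 4 : ℝ))⁻¹ := by
          refine inv_anti₀ (by positivity) ?_
          exact Real.rpow_le_rpow (Real.exp_pos _).le hY (by norm_num)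
      _ = Real.exp (-(κ₁ * L * (1 / 4))) := by
          rw [← Real.exp_mul, Real.exp_neg]
  have h4 : sav k m Y S ≤ (C * Real.exp (-(κ₁ * L * (1 / 4)))) ^ q := by
    unfold sav
    rw [← hC, ← hq]
    refine Real.rpow_le_rpow (by positivity) ?_ hq0.le
    exact mul_le_mul_of_nonneg_left h3 hC0.le
  refine h4.trans ?_
  have h5 : (C * Real.exp (-(κ₁ * L * (1 / 4)))) ^ q =
      C ^ q * (Real.exp (κ₁ * (1 / 4) * q * L))⁻¹ := by
    rw [Real.mul_rpow hC0.le (Real.exp_pos _).le, ← Real.exp_mul, ← Real.exp_neg]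
    congr 2
    ring
  rw [h5, ← div_eq_mul_inv, div_le_div_iff₀ (Real.exp_pos _) (by positivity)]
  have h6 : 1 / (2 * C ^ q) * Real.exp (κ₁ * (1 / 4) * q * L) * C ^ q =
      1 / 2 * Real.exp (κ₁ * (1 / 4) * q * L) := by
    field_simp
  rw [← h6, mul_comm (C ^ q)]
  exact mul_le_mul_of_nonneg_right h2 hCq.le

theorem uwinB {c : ℝ} (hc0 : 0 < c) (hc1 : c < 1 / 2) (Λ : ℝ) (hΛ : 1 ≤ Λ) :
    ∃ U₀ : ℝ, 1 < U₀ ∧ ∀ U : ℝ, U₀ ≤ U → ∀ γ : ℝ, U ^ (9 / 10 : ℝ) ≤ |γ| * G c U →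
      |γ| * G c U ≤ U ^ Λ → ∃ Y : ℕ, 1 ≤ Y ∧ (Y : ℝ) ≤ U ^ (2 / 5 : ℝ) ∧
      ∀ x ∈ Set.Icc U (2 * U),
      ‖∑ p ∈ Finset.Icc 1 Y, ∑ q ∈ Finset.Icc 1 Y, e (γ * G c (x + (p : ℝ) * q))‖ ≤
        (Y : ℝ) ^ 2 / Real.log U ^ 20 := by
  obtain ⟨Ua, κ₁, hUa, hκ₁, Ha⟩ := ugoodB hc0 hc1 Λ hΛ
  obtain ⟨Ub, hUb, Hb⟩ := utay hc0 hc1
  obtain ⟨k, hk⟩ : ∃ k : ℕ, k = ⌈5 * (Λ + 3)⌉₊ := ⟨_, rfl⟩
  have hk5 : 5 * (Λ + 3) ≤ k := by
    rw [hk]
    exact Nat.le_ceil _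
  have hk2 : 2 ≤ k := by
    have : (2 : ℝ) ≤ k := by linarith
    exact_mod_cast this
  obtain ⟨m, L₁, hm, Hs⟩ := uw_sav k hk2 κ₁ hκ₁
  have h1 := (isLittleO_pow_exp_pos_mul_atTop (k := 20) (b := (1 : ℝ)) one_pos).bound
    (c := 1 / 28) (by norm_num)
  rw [Filter.eventually_atTop] at h1
  obtain ⟨L₂, hL₂⟩ := h1
  obtain ⟨L0, hL0⟩ : ∃ L0 : ℝ, L0 = 1000000 + (k + 1) + max L₁ 0 + max L₂ 0 := ⟨_, rfl⟩
  have m1 : 0 ≤ max L₁ 0 := le_max_right _ _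
  have m2 : 0 ≤ max L₂ 0 := le_max_right _ _
  have m3 : L₁ ≤ max L₁ 0 := le_max_left _ _
  have m4 : L₂ ≤ max L₂ 0 := le_max_left _ _
  have m5 : (0 : ℝ) ≤ k := Nat.cast_nonneg _
  refine ⟨max (max Ua Ub) (Real.exp L0), lt_max_of_lt_left (lt_max_of_lt_left hUa), ?_⟩
  intro U hU γ hγ1 hγ2
  have hU1 : Ua ≤ U := ((le_max_left _ _).trans (le_max_left _ _)).trans hU
  have hU1' : Ub ≤ U := ((le_max_right _ _).trans (le_max_left _ _)).trans hU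
  have hU2 : Real.exp L0 ≤ U := (le_max_right _ _).trans hU
  have hU0 : 0 < U := (Real.exp_pos _).trans_le hU2
  obtain ⟨L, hL⟩ : ∃ L, L = Real.log U := ⟨_, rfl⟩
  have hLL : L0 ≤ L := by
    rw [hL]
    have := Real.log_le_log (Real.exp_pos _) hU2
    rwa [Real.log_exp] at this
  have hLm : 1000000 ≤ L := by linarith
  have hLpos : 0 < L := by linarith
  have hLk : (k : ℝ) + 1 ≤ L := by linarith
  have hUe : U = Real.exp L := by rw [hL, Real.exp_log hU0]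
  have hru : ∀ t : ℝ, U ^ t = Real.exp (L * t) := fun t => by
    rw [Real.rpow_def_of_pos hU0, ← hL]
  have hA2 : AA c U ≤ L / 1000 := by
    have e1 : AA c U = L ^ c := by
      rw [hL]
      rfl
    rw [e1]
    have h1 : L ^ c ≤ √L := by
      rw [Real.sqrt_eq_rpow]
      exact Real.rpow_le_rpow_of_exponent_le (by linarith) (by linarith)
    have h2 : 1000 ≤ √L := by
      rw [Real.le_sqrt (by norm_num) hLpos.le]
      norm_num
      linarith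
    have h3 : √L * √L = L := Real.mul_self_sqrt hLpos.le
    have h4 : √L ≤ L / 1000 := by
      rw [le_div_iff₀ (by norm_num)]
      calc √L * 1000 ≤ √L * √L := mul_le_mul_of_nonneg_left h2 (Real.sqrt_nonneg _)
        _ = L := h3
    exact h1.trans h4
  obtain ⟨Y, l, hY1, hY2, hl2, hlΛ, hx⟩ := Ha U hU1 γ hγ1 hγ2
  have hYone : 1 ≤ Y := by
    have h3 : (1 : ℝ) ≤ U ^ κ₁ := by
      rw [hru]
      exact Real.one_le_exp (by positivity)
    have h4 : (1 : ℝ) ≤ Y := h3.trans hY1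
    exact_mod_cast h4
  refine ⟨Y, hYone, hY2, ?_⟩
  intro x hxU
  obtain ⟨x1, x2⟩ := hx x hxU
  obtain ⟨α, hα⟩ : ∃ α : Fin k → ℝ, α = fun j => γ * iteratedDeriv (j.1 + 1) (G c) x /
    ((j.1 + 1).factorial : ℝ) := ⟨_, rfl⟩
  -- the distinguished coefficient
  have hlk : l - 1 < k := by
    have h3 : (l : ℝ) ≤ k := by linarith
    have h4 : l ≤ k := by exact_mod_cast h3
    omega
  have hl1 : l - 1 + 1 = l := by omega
  have hcast : ((l - 1 : ℕ) : ℝ) + 1 = l := by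
    have : ((l - 1 + 1 : ℕ) : ℝ) = l := by rw [hl1]
    push_cast at this
    exact this
  have hvk := vkey hk2 hm hYone α {⟨l - 1, hlk⟩} (by
    intro j hj
    rw [Finset.mem_singleton] at hj
    rw [hj, hα]
    simp only [hl1, hcast]
    exact ⟨x1, x2⟩)
  rw [Finset.sum_singleton] at hvk
  simp only [hcast] at hvk
  have hl2' : (2 : ℝ) ≤ l := by exact_mod_cast hl2
  have hsav := Hs L (by linarith) Y (by
    rw [mul_comm κ₁, ← hru]
    exact hY1) hYone l hl2'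
  have hbil : ‖Bil α Y‖ ≤ (Y : ℝ) ^ 2 * (1 / 2 / L ^ 20) :=
    hvk.trans (mul_le_mul_of_nonneg_left hsav (by positivity))
  -- the Taylor polynomials
  have hY4 : (Y : ℝ) * Y ≤ U ^ (4 / 5 : ℝ) := by
    calc (Y : ℝ) * Y ≤ U ^ (2 / 5 : ℝ) * U ^ (2 / 5 : ℝ) :=
          mul_le_mul hY2 hY2 (Nat.cast_nonneg _) (by positivity)
      _ = U ^ (4 / 5 : ℝ) := by
          rw [← Real.rpow_add hU0]
          norm_num
  have hU1one : 1 ≤ U := by
    rw [hUe]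
    exact Real.one_le_exp hLpos.le
  have hG0 : 0 ≤ |γ| * G c U := le_trans (by positivity) hγ1
  have hT : ∀ p ∈ Finset.Icc 1 Y, ∀ q ∈ Finset.Icc 1 Y,
      |γ * G c (x + (p : ℝ) * q) - (γ * G c x + ∑ l, α l * ((p : ℝ) * q) ^ (l.1 + 1))| ≤
        1 / U := by
    intro p hp q hq
    have hpY : (p : ℝ) ≤ Y := by exact_mod_cast (Finset.mem_Icc.1 hp).2
    have hqY : (q : ℝ) ≤ Y := by exact_mod_cast (Finset.mem_Icc.1 hq).2
    have hh : (p : ℝ) * q ≤ U ^ (4 / 5 : ℝ) :=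
      (mul_le_mul hpY hqY (Nat.cast_nonneg _) (Nat.cast_nonneg _)).trans hY4
    have hhU : (p : ℝ) * q ≤ U := by
      refine hh.trans ?_
      calc U ^ (4 / 5 : ℝ) ≤ U ^ (1 : ℝ) := Real.rpow_le_rpow_of_exponent_le hU1one (by norm_num)
        _ = U := Real.rpow_one _
    have h3 := Hb U hU1' x hxU ((p : ℝ) * q) (by positivity) hhU k γ
    rw [Finset.sum_range_succ', Finset.sum_range] at h3
    simp only [iteratedDeriv_zero, Nat.factorial_zero, Nat.cast_one, div_one, pow_zero,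
      mul_one] at h3
    have h4 : γ * G c x + ∑ l, α l * ((p : ℝ) * q) ^ (l.1 + 1) =
        (∑ l : Fin k, γ * iteratedDeriv (l.1 + 1) (G c) x / ((l.1 + 1).factorial : ℝ) *
          ((p : ℝ) * q) ^ (l.1 + 1)) + γ * G c x := by
      rw [add_comm, hα]
    rw [h4]
    refine h3.trans ?_
    have h5 : (p : ℝ) * q / U ≤ Real.exp (-(L / 5)) := by
      rw [div_le_iff₀ hU0]
      refine hh.trans (le_of_eq ?_)
      rw [hru, hUe, ← Real.exp_add]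
      congr 1
      ring
    have h6 : ((p : ℝ) * q / U) ^ (k + 1) ≤ Real.exp (-(L / 5) * (k + 1 : ℕ)) := by
      have h7 := pow_le_pow_left₀ (by positivity) h5 (k + 1)
      rw [← Real.exp_nat_mul] at h7
      refine h7.trans (le_of_eq ?_)
      congr 1
      ring
    have h8 : |γ| * G c U ≤ Real.exp (L * Λ) := by
      rw [← hru]
      exact hγ2
    calc |γ| * G c U * Real.exp (10 * AA c U + (k + 1)) * ((p : ℝ) * q / U) ^ (k + 1)
        ≤ Real.exp (L * Λ) * Real.exp (10 * AA c U + (k + 1)) *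
          Real.exp (-(L / 5) * (k + 1 : ℕ)) := by gcongr
      _ = Real.exp (L * Λ + (10 * AA c U + (k + 1)) + -(L / 5) * (k + 1 : ℕ)) := by
          rw [← Real.exp_add, ← Real.exp_add]
      _ ≤ Real.exp (-L) := by
          refine Real.exp_le_exp.2 ?_
          push_cast
          have h9 : L * (5 * (Λ + 3)) ≤ L * k := mul_le_mul_of_nonneg_left hk5 hLpos.le
          nlinarith
      _ = 1 / U := by
          rw [hUe, Real.exp_neg, one_div]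
  have hfin := uw_bil (F := fun t => γ * G c t) (x := x) hT hbil
  refine hfin.trans ?_
  rw [← hL, div_eq_mul_inv ((Y : ℝ) ^ 2)]
  refine mul_le_mul_of_nonneg_left ?_ (by positivity)
  have h3 : 2 * Real.pi * (1 / U) ≤ 1 / 2 / L ^ 20 := by
    have h4 := hL₂ L (by linarith)
    rw [Real.norm_eq_abs, Real.norm_eq_abs, abs_of_nonneg (by positivity),
      abs_of_pos (Real.exp_pos _), one_mul, ← hUe] at h4
    rw [mul_one_div, div_le_div_iff₀ hU0 (by positivity)]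
    have h5 : Real.pi < 3.15 := Real.pi_lt_d2
    have h6 : 0 ≤ L ^ 20 := by positivity
    have h7 : 2 * Real.pi * L ^ 20 ≤ 7 * L ^ 20 := mul_le_mul_of_nonneg_right (by linarith) h6
    linarith
  have h4 : (L ^ 20)⁻¹ = 1 / 2 / L ^ 20 + 1 / 2 / L ^ 20 := by
    field_simp
    norm_num
  rw [h4]
  linarith

end Pool.Agent.VINO
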