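import Pool.Agent.VINO.UWinA
import Pool.Agent.VINO.UWinB
import Pool.Agent.VINO.Avg

/-!
# VINO / UBlk: exponential sums over a block, uniformly in `γ`

PROOF.  If `|γ| G(U) ≥ U^(80/c)`: `uwinA`; otherwise `uwinB` with `Λ = 80/c`. In both cases there is `Y` with
`1 ≤ Y ≤ U^(2/5)`. Apply `av_shift` to `u n = e (γ G (U + n))`, `N = V - U` (`∑_{n ∈ Ioc U V} f n = ∑_{n ∈ Icc 1 N} f (U + n)`):
`‖∑‖ ≤ Y^(-2) ∑_{n ≤ N} ‖∑_{p,q} e (γ G (U + n + p q))‖ + 2 Y^2 ≤ N / (log U)^20 + 2 U^(4/5) ≤ 2 U / (log U)^20`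
(`U + n ∈ [U, 2U]`, `N ≤ U`).
-/

set_option autoImplicit false

namespace Pool.Agent.VINO

open Pool.Agent.VMV

private theorem uk_norm (t : ℝ) : ‖e t‖ = 1 := by
  unfold e
  rw [show 2 * (Real.pi : ℂ) * Complex.I * (t : ℂ) = ((2 * Real.pi * t : ℝ) : ℂ) * Complex.I by
    push_cast; ring]
  exact Complex.norm_exp_ofReal_mul_I _

theorem ublk {c : ℝ} (hc0 : 0 < c) (hc1 : c < 1 / 2) :
    ∃ U₀ : ℕ, 2 ≤ U₀ ∧ ∀ U V : ℕ, U₀ ≤ U → U ≤ V → V ≤ 2 * U → ∀ γ : ℝ,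
      (U : ℝ) ^ (9 / 10 : ℝ) ≤ |γ| * G c U → |γ| ≤ Real.log U ^ 10 →
      ‖∑ n ∈ Finset.Ioc U V, e (γ * G c n)‖ ≤ 2 * U / Real.log U ^ 20 := by
  obtain ⟨Ua, hUa, Ha⟩ := uwinA hc0 hc1
  obtain ⟨Ub, hUb, Hb⟩ := uwinB hc0 hc1 (80 / c) (by
    rw [le_div_iff₀ hc0]
    linarith)
  have h1 := (isLittleO_pow_exp_pos_mul_atTop (k := 20) (b := (1 / 5 : ℝ)) (by norm_num)).bound
    (c := 1 / 2) (by norm_num)
  rw [Filter.eventually_atTop] at h1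
  obtain ⟨L₁, hL₁⟩ := h1
  refine ⟨⌈Ua⌉₊ + ⌈Ub⌉₊ + ⌈Real.exp (max L₁ 1)⌉₊ + 2, by omega, ?_⟩
  intro U V hU hUV hV γ hγ1 hγ2
  have hUr : ((⌈Ua⌉₊ + ⌈Ub⌉₊ + ⌈Real.exp (max L₁ 1)⌉₊ + 2 : ℕ) : ℝ) ≤ (U : ℝ) := by
    exact_mod_cast hU
  push_cast at hUr
  have c1 := Nat.le_ceil Ua
  have c2 := Nat.le_ceil Ub
  have c3 := Nat.le_ceil (Real.exp (max L₁ 1))
  have c4 : 0 < Real.exp (max L₁ 1) := Real.exp_pos _
  have hU1 : Ua ≤ (U : ℝ) := by linarith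
  have hU2 : Ub ≤ (U : ℝ) := by linarith
  have hU3 : Real.exp (max L₁ 1) ≤ (U : ℝ) := by linarith
  have hU0 : (0 : ℝ) < U := by linarith
  obtain ⟨L, hL⟩ : ∃ L, L = Real.log U := ⟨_, rfl⟩
  have hLL : max L₁ 1 ≤ L := by
    rw [hL]
    have := Real.log_le_log (Real.exp_pos _) hU3
    rwa [Real.log_exp] at this
  have hL1 : 1 ≤ L := (le_max_right _ _).trans hLL
  have hLpos : 0 < L := by linarith
  have hru : ∀ t : ℝ, (U : ℝ) ^ t = Real.exp (L * t) := fun t => by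
    rw [Real.rpow_def_of_pos hU0, ← hL]
  have h20 : L ^ 20 ≤ 1 / 2 * (U : ℝ) ^ (1 / 5 : ℝ) := by
    have h4 := hL₁ L ((le_max_left _ _).trans hLL)
    rw [Real.norm_eq_abs, Real.norm_eq_abs, abs_of_nonneg (by positivity),
      abs_of_pos (Real.exp_pos _)] at h4
    rw [hru, mul_comm L]
    exact h4
  obtain ⟨Y, hY1, hY2, hY⟩ : ∃ Y : ℕ, 1 ≤ Y ∧ (Y : ℝ) ≤ (U : ℝ) ^ (2 / 5 : ℝ) ∧
      ∀ x ∈ Set.Icc (U : ℝ) (2 * U),
      ‖∑ p ∈ Finset.Icc 1 Y, ∑ q ∈ Finset.Icc 1 Y, e (γ * G c (x + (p : ℝ) * q))‖ ≤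
        (Y : ℝ) ^ 2 / Real.log U ^ 20 := by
    rcases le_total ((U : ℝ) ^ (80 / c)) (|γ| * G c U) with h | h
    · exact Ha U hU1 γ h hγ2
    · exact Hb U hU2 γ hγ1 h
  obtain ⟨N, hN⟩ : ∃ N, N = V - U := ⟨_, rfl⟩
  have hre : ∑ n ∈ Finset.Ioc U V, e (γ * G c n) =
      ∑ n ∈ Finset.Icc 1 N, e (γ * G c ((U + n : ℕ) : ℝ)) := by
    refine Finset.sum_nbij' (fun n => n - U) (fun n => U + n) ?_ ?_ ?_ ?_ ?_
    · intro n hn
      rw [Finset.mem_Ioc] at hn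
      rw [Finset.mem_Icc]
      omega
    · intro n hn
      rw [Finset.mem_Icc] at hn
      rw [Finset.mem_Ioc]
      omega
    · intro n hn
      rw [Finset.mem_Ioc] at hn
      show U + (n - U) = n
      omega
    · intro n _
      show U + n - U = n
      omega
    · intro n hn
      rw [Finset.mem_Ioc] at hn
      have : U + (n - U) = n := by omega
      rw [this]
  rw [hre]
  have hav := av_shift (fun n => e (γ * G c ((U + n : ℕ) : ℝ))) (fun n => (uk_norm _).le) N Y hY1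
  refine hav.trans ?_
  have hY0 : (0 : ℝ) < Y := by exact_mod_cast hY1
  have hterm : ∀ n ∈ Finset.Icc 1 N, ‖∑ p ∈ Finset.Icc 1 Y, ∑ q ∈ Finset.Icc 1 Y,
      e (γ * G c ((U + (n + p * q) : ℕ) : ℝ))‖ ≤ (Y : ℝ) ^ 2 / Real.log U ^ 20 := by
    intro n hn
    rw [Finset.mem_Icc] at hn
    have h3 := hY ((U : ℝ) + n) ⟨by
      have : (0 : ℝ) ≤ n := Nat.cast_nonneg _
      linarith, by
      have h5 : n ≤ U := by omega
      have h6 : (n : ℝ) ≤ U := by exact_mod_cast h5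
      linarith⟩
    refine le_trans (le_of_eq ?_) h3
    congr 1
    refine Finset.sum_congr rfl fun p _ => Finset.sum_congr rfl fun q _ => ?_
    push_cast
    rw [add_assoc]
  have hsum := Finset.sum_le_sum hterm
  rw [Finset.sum_const, Nat.card_Icc, nsmul_eq_mul, Nat.add_sub_cancel] at hsum
  have hNU : (N : ℝ) ≤ U := by
    have : N ≤ U := by omega
    exact_mod_cast this
  rw [← hL] at hsum ⊢
  calc ((Y : ℝ) ^ 2)⁻¹ * ∑ n ∈ Finset.Icc 1 N, ‖∑ p ∈ Finset.Icc 1 Y, ∑ q ∈ Finset.Icc 1 Y,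
        e (γ * G c ((U + (n + p * q) : ℕ) : ℝ))‖ + 2 * (Y : ℝ) ^ 2
      ≤ ((Y : ℝ) ^ 2)⁻¹ * (N * ((Y : ℝ) ^ 2 / L ^ 20)) + 2 * (Y : ℝ) ^ 2 := by gcongr
    _ = N / L ^ 20 + 2 * (Y : ℝ) ^ 2 := by
        congr 1
        field_simp
    _ ≤ U / L ^ 20 + U / L ^ 20 := by
        refine add_le_add (by gcongr) ?_
        rw [le_div_iff₀ (by positivity)]
        have h5 : (Y : ℝ) ^ 2 ≤ (U : ℝ) ^ (4 / 5 : ℝ) := by
          calc (Y : ℝ) ^ 2 ≤ ((U : ℝ) ^ (2 / 5 : ℝ)) ^ 2 := pow_le_pow_left₀ hY0.le hY2 2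
            _ = (U : ℝ) ^ (4 / 5 : ℝ) := by
                rw [sq, ← Real.rpow_add hU0]
                norm_num
        calc 2 * (Y : ℝ) ^ 2 * L ^ 20 ≤ 2 * (U : ℝ) ^ (4 / 5 : ℝ) *
              (1 / 2 * (U : ℝ) ^ (1 / 5 : ℝ)) := by gcongr
          _ = (U : ℝ) ^ (4 / 5 : ℝ) * (U : ℝ) ^ (1 / 5 : ℝ) := by ring
          _ = U := by
              rw [← Real.rpow_add hU0]
              norm_num
    _ = 2 * U / L ^ 20 := by ring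

end Pool.Agent.VINO
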