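import Pool.Agent.VINO.UDall
import Pool.Agent.VMV.BilA

/-!
# VINO / UInt: exponential integrals, and the comparison of a sum and an integral

PROOFS.  `uint`: for large `U`, on `[U, ∞)`: `G' > 0`, `G'' ≥ 0` (`dtwo` with `l = 1, 2`, or directly:
`G' x = G x * KK c (log x) / x`), and `G'(U) ≥ G(U) / U` (`KK ≥ 1`). With `F x = e (γ G x)`, `F' = 2πi γ G' F`:
`∫_U^V F = ∫ F' / (2πi γ G') = [F / (2πi γ G')] + ∫ F G'' / (2πi γ G'^2)`, and
`∫_U^V G''/G'^2 = 1/G'(U) - 1/G'(V)`, so `‖∫ F‖ ≤ (1/(2π|γ|)) (1/G'(U) + 1/G'(V) + 1/G'(U) - 1/G'(V)) = 1/(π |γ| G'(U))`.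
`usml`: for `F` continuously differentiable on `[U, V]`, `U ≤ V` natural numbers:
`F(n) - ∫_(n-1)^n F = ∫_(n-1)^n (F(n) - F(x)) dx`, of norm `≤ ∫_(n-1)^n ‖F'‖`. Here `‖F'‖ = 2π |γ| G'` (`G' ≥ 0` on `(1, ∞)`), so
the total is `≤ 2π |γ| (G(V) - G(U))`.
-/

set_option autoImplicit false

namespace Pool.Agent.VINO

open Pool.Agent.VMV

private theorem ui_dlog (c p : ℝ) {x : ℝ} (hx : 1 < x) :
    HasDerivAt (fun y => Real.log y ^ p) (x⁻¹ * p * Real.log x ^ (p - 1)) x :=
  (Real.hasDerivAt_log (by linarith : x ≠ 0)).rpow_const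
    (Or.inl (Real.log_pos hx).ne')

private theorem ui_dG (c : ℝ) {x : ℝ} (hx : 1 < x) :
    HasDerivAt (G c) (G c x * KK c (Real.log x) / x) x := by
  have h := (ui_dlog c (1 + c) hx).exp
  have e1 : Real.exp (Real.log x ^ (1 + c)) * (x⁻¹ * (1 + c) * Real.log x ^ (1 + c - 1)) =
      G c x * KK c (Real.log x) / x := by
    unfold G KK
    rw [show 1 + c - 1 = c by ring, div_eq_mul_inv]
    ring
  rw [e1] at h
  exact h

private theorem ui_dK (c : ℝ) {x : ℝ} (hx : 1 < x) :
    HasDerivAt (fun y => KK c (Real.log y)) ((1 + c) * (x⁻¹ * c * Real.log x ^ (c - 1))) x :=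
  (ui_dlog c c hx).const_mul (1 + c)

private theorem ui_G_pos (c x : ℝ) : 0 < G c x := Real.exp_pos _

private theorem ui_K_nonneg {c : ℝ} (hc0 : 0 < c) {x : ℝ} (hx : 1 < x) :
    0 ≤ KK c (Real.log x) := by
  unfold KK
  have := Real.rpow_nonneg (Real.log_pos hx).le c
  have : 0 ≤ 1 + c := by linarith
  positivity

private theorem ui_G_mono {c : ℝ} (hc0 : 0 < c) {x y : ℝ} (hx : 1 < x) (hxy : x ≤ y) :
    G c x ≤ G c y := by
  unfold G
  apply Real.exp_le_exp.2
  apply Real.rpow_le_rpow (Real.log_pos hx).le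
    (Real.log_le_log (by linarith) hxy) (by linarith)

private theorem ui_G_cont (c : ℝ) {x : ℝ} (hx : 1 < x) : ContinuousAt (G c) x :=
  (ui_dG c hx).continuousAt

private theorem ui_de (s : ℝ) : HasDerivAt e (2 * Real.pi * Complex.I * e s) s := by
  unfold e
  have h1 : HasDerivAt (fun t : ℝ => 2 * (Real.pi : ℂ) * Complex.I * (t : ℂ))
      (2 * (Real.pi : ℂ) * Complex.I * 1) s :=
    (Complex.ofRealCLM.hasDerivAt (x := s)).const_mul (2 * (Real.pi : ℂ) * Complex.I)
  have h2 := h1.cexp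
  have : Complex.exp (2 * (Real.pi : ℂ) * Complex.I * (s : ℂ)) * (2 * (Real.pi : ℂ) * Complex.I * 1) =
    2 * Real.pi * Complex.I * Complex.exp (2 * (Real.pi : ℂ) * Complex.I * (s : ℂ)) := by ring
  rw [this] at h2
  exact h2

private theorem ui_e_cont : Continuous e :=
  continuous_iff_continuousAt.2 fun s => (ui_de s).continuousAt

private theorem ui_dF (c γ : ℝ) {x : ℝ} (hx : 1 < x) :
    HasDerivAt (fun y => e (γ * G c y))
      (2 * Real.pi * Complex.I * γ * (G c x * KK c (Real.log x) / x : ℝ) * e (γ * G c x)) x := by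
  have h1 := (ui_dG c hx).const_mul γ
  have h2 := (ui_de (γ * G c x)).scomp x h1
  have : (γ * (G c x * KK c (Real.log x) / x)) • (2 * Real.pi * Complex.I * e (γ * G c x)) =
      2 * Real.pi * Complex.I * γ * (G c x * KK c (Real.log x) / x : ℝ) * e (γ * G c x) := by
    rw [Complex.real_smul]
    push_cast
    ring
  rw [this] at h2
  exact h2

private theorem ui_W (c : ℝ) (hc0 : 0 < c) {x : ℝ} (hx : 1 < x) (hK : 1 ≤ KK c (Real.log x)) :
    ∃ w : ℝ, w ≤ 0 ∧ HasDerivAt (fun y => y / (G c y * KK c (Real.log y))) w x := by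
  have hG := ui_G_pos c x
  have hKp : 0 < KK c (Real.log x) := by linarith
  have h1 := (hasDerivAt_id x).div ((ui_dG c hx).mul (ui_dK c hx))
    (mul_ne_zero hG.ne' hKp.ne')
  refine ⟨_, ?_, h1⟩
  have hx0 : (0 : ℝ) < x := by linarith
  apply div_nonpos_of_nonpos_of_nonneg _ (by positivity)
  have hL : 0 ≤ Real.log x ^ (c - 1) := Real.rpow_nonneg (Real.log_pos hx).le _
  simp only [id, Pi.mul_apply]
  have e1 : 1 * (G c x * KK c (Real.log x)) - x * (G c x * KK c (Real.log x) / x * KK c (Real.log x) +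
      G c x * ((1 + c) * (x⁻¹ * c * Real.log x ^ (c - 1)))) =
      G c x * (KK c (Real.log x) * (1 - KK c (Real.log x)) - (1 + c) * c * Real.log x ^ (c - 1)) := by
    field_simp
    ring
  rw [e1]
  apply mul_nonpos_of_nonneg_of_nonpos hG.le
  have h2 : KK c (Real.log x) * (1 - KK c (Real.log x)) ≤ 0 := by nlinarith
  have h3 : 0 ≤ (1 + c) * c * Real.log x ^ (c - 1) := by positivity
  linarith

theorem uint {c : ℝ} (hc0 : 0 < c) (hc1 : c < 1 / 2) :
    ∃ U₀ : ℝ, 1 < U₀ ∧ ∀ U V : ℝ, U₀ ≤ U → U ≤ V → ∀ γ : ℝ, γ ≠ 0 →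
      ‖∫ x in U..V, e (γ * G c x)‖ ≤ U / (|γ| * G c U) := by
  refine ⟨Real.exp 1, Real.one_lt_exp_iff.2 one_pos, fun U V hU hUV γ hγ => ?_⟩
  have h1U : (1 : ℝ) < U := lt_of_lt_of_le (Real.one_lt_exp_iff.2 one_pos) hU
  have hx1 : ∀ x, U ≤ x → 1 < x := fun x hx => lt_of_lt_of_le h1U hx
  have hKx : ∀ x, U ≤ x → 1 ≤ KK c (Real.log x) := by
    intro x hx
    have hl : 1 ≤ Real.log x := by
      rw [Real.le_log_iff_exp_le (by linarith)]
      linarith
    have := Real.one_le_rpow hl hc0.le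
    unfold KK
    nlinarith
  set W : ℝ → ℝ := fun y => y / (G c y * KK c (Real.log y)) with hW
  have hWd : ∀ x, U ≤ x → ∃ w : ℝ, w ≤ 0 ∧ HasDerivAt W w x :=
    fun x hx => ui_W c hc0 (hx1 x hx) (hKx x hx)
  have hWder : ∀ x, U ≤ x → HasDerivAt W (deriv W x) x := by
    intro x hx
    obtain ⟨w, -, hw⟩ := hWd x hx
    exact hw.differentiableAt.hasDerivAt
  have hWle : ∀ x, U ≤ x → deriv W x ≤ 0 := by
    intro x hx
    obtain ⟨w, h0, hw⟩ := hWd x hx
    rw [hw.deriv]; exact h0
  have hsub : ∀ x ∈ Set.uIcc U V, U ≤ x := by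
    intro x hx
    rw [Set.uIcc_of_le hUV] at hx
    exact hx.1
  have hWint : IntervalIntegrable (deriv W) MeasureTheory.volume U V := by
    have hneg : IntervalIntegrable (fun x => - deriv W x) MeasureTheory.volume U V := by
      apply intervalIntegral.intervalIntegrable_deriv_of_nonneg (g := fun x => - W x)
      · intro x hx
        exact (hWder x (hsub x hx)).continuousAt.neg.continuousWithinAt
      · intro x hx
        rw [min_eq_left hUV] at hx
        exact (hWder x hx.1.le).neg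
      · intro x hx
        rw [min_eq_left hUV] at hx
        have := hWle x hx.1.le
        linarith
    have h := hneg.neg
    convert h using 1
    ext x
    simp
  have hFc : ContinuousOn (fun x => e (γ * G c x)) (Set.uIcc U V) := by
    intro x hx
    exact (ui_dF c γ (hx1 x (hsub x hx))).continuousAt.continuousWithinAt
  have hFint : IntervalIntegrable (fun x => e (γ * G c x)) MeasureTheory.volume U V :=
    hFc.intervalIntegrable
  have hWFint : IntervalIntegrable (fun x => ((deriv W x : ℝ) : ℂ) * e (γ * G c x))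
      MeasureTheory.volume U V :=
    IntervalIntegrable.mul_continuousOn (f := fun x => ((deriv W x : ℝ) : ℂ))
      ⟨MeasureTheory.Integrable.ofReal hWint.1, MeasureTheory.Integrable.ofReal hWint.2⟩ hFc
  have key : ∫ x in U..V, (((deriv W x : ℝ) : ℂ) * e (γ * G c x) +
      2 * Real.pi * Complex.I * γ * e (γ * G c x)) =
      (W V : ℂ) * e (γ * G c V) - (W U : ℂ) * e (γ * G c U) := by
    apply intervalIntegral.integral_eq_sub_of_hasDerivAt
      (f := fun x => (W x : ℂ) * e (γ * G c x))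
    · intro x hx
      have hx' := hsub x hx
      have h1 := ((hWder x hx').ofReal_comp).mul (ui_dF c γ (hx1 x hx'))
      have e1 : ((deriv W x : ℝ) : ℂ) * e (γ * G c x) + (W x : ℂ) *
          (2 * Real.pi * Complex.I * γ * (G c x * KK c (Real.log x) / x : ℝ) * e (γ * G c x)) =
          ((deriv W x : ℝ) : ℂ) * e (γ * G c x) + 2 * Real.pi * Complex.I * γ * e (γ * G c x) := by
        have h0 : (0 : ℝ) < x := by linarith [hx1 x hx']
        have hG := ui_G_pos c x
        have hK : 0 < KK c (Real.log x) := by linarith [hKx x hx']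
        have e2 : W x * (G c x * KK c (Real.log x) / x) = 1 := by
          rw [hW]; field_simp
        have e3 : (W x : ℂ) * ((G c x * KK c (Real.log x) / x : ℝ) : ℂ) = 1 := by
          rw [← Complex.ofReal_mul, e2]; simp
        linear_combination (2 * Real.pi * Complex.I * γ * e (γ * G c x)) * e3
      rw [e1] at h1
      exact h1
    · exact hWFint.add (hFint.const_mul _)
  rw [intervalIntegral.integral_add hWFint (hFint.const_mul _),
    intervalIntegral.integral_const_mul] at key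
  have hb : ‖∫ x in U..V, ((deriv W x : ℝ) : ℂ) * e (γ * G c x)‖ ≤ W U - W V := by
    have h1 : ‖∫ x in U..V, ((deriv W x : ℝ) : ℂ) * e (γ * G c x)‖ ≤
        ∫ x in U..V, ‖((deriv W x : ℝ) : ℂ) * e (γ * G c x)‖ :=
      intervalIntegral.norm_integral_le_integral_norm hUV
    have h2 : ∫ x in U..V, ‖((deriv W x : ℝ) : ℂ) * e (γ * G c x)‖ =
        ∫ x in U..V, - deriv W x := by
      apply intervalIntegral.integral_congr
      intro x hx
      simp only [norm_mul, norm_e, mul_one, Complex.norm_real, Real.norm_eq_abs]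
      exact abs_of_nonpos (hWle x (hsub x hx))
    have h3 : ∫ x in U..V, - deriv W x = W U - W V := by
      rw [intervalIntegral.integral_neg,
        intervalIntegral.integral_eq_sub_of_hasDerivAt (fun x hx => hWder x (hsub x hx)) hWint]
      ring
    rw [h2, h3] at h1
    exact h1
  have hGU := ui_G_pos c U
  have hGV := ui_G_pos c V
  have hKU := hKx U le_rfl
  have hKV := hKx V hUV
  have hWU : 0 ≤ W U := by
    show 0 ≤ U / (G c U * KK c (Real.log U))
    have : (0 : ℝ) < U := by linarith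
    positivity
  have hWV : 0 ≤ W V := by
    show 0 ≤ V / (G c V * KK c (Real.log V))
    have : (0 : ℝ) < V := by linarith
    positivity
  set I : ℂ := ∫ x in U..V, e (γ * G c x) with hI
  have h4 : 2 * Real.pi * Complex.I * γ * I = (W V : ℂ) * e (γ * G c V) - (W U : ℂ) * e (γ * G c U) -
      ∫ x in U..V, ((deriv W x : ℝ) : ℂ) * e (γ * G c x) := by
    rw [← key]; ring
  have h5 : ‖2 * Real.pi * Complex.I * γ * I‖ = 2 * Real.pi * |γ| * ‖I‖ := by
    rw [norm_mul, norm_mul, norm_mul, norm_mul]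
    simp [abs_of_pos Real.pi_pos]
  have h6 : ‖(W V : ℂ) * e (γ * G c V) - (W U : ℂ) * e (γ * G c U) -
      ∫ x in U..V, ((deriv W x : ℝ) : ℂ) * e (γ * G c x)‖ ≤ W V + W U + (W U - W V) := by
    refine (norm_sub_le _ _).trans (add_le_add ((norm_sub_le _ _).trans ?_) hb)
    rw [norm_mul, norm_mul, norm_e, norm_e, mul_one, mul_one, Complex.norm_real, Complex.norm_real,
      Real.norm_eq_abs, Real.norm_eq_abs, abs_of_nonneg hWU, abs_of_nonneg hWV]
  rw [← h4, h5] at h6
  have hWU' : W U ≤ U / G c U := by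
    show U / (G c U * KK c (Real.log U)) ≤ U / G c U
    apply div_le_div_of_nonneg_left (by linarith) hGU
    nlinarith
  have hg : 0 < |γ| := abs_pos.2 hγ
  have hpi := Real.pi_gt_three
  rw [le_div_iff₀ (by positivity)]
  rw [le_div_iff₀ hGU] at hWU'
  have h7 : Real.pi * (|γ| * ‖I‖) ≤ W U := by linarith
  have h8 : |γ| * ‖I‖ ≤ W U := by
    have : 0 ≤ |γ| * ‖I‖ := by positivity
    nlinarith
  calc ‖I‖ * (|γ| * G c U) = (|γ| * ‖I‖) * G c U := by ring
    _ ≤ W U * G c U := mul_le_mul_of_nonneg_right h8 hGU.le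
    _ ≤ U := hWU'

private theorem ui_e_lip (s t : ℝ) : ‖e s - e t‖ ≤ 2 * Real.pi * |s - t| := by
  have h1 : e s - e t = e t * (Complex.exp (Complex.I * ((2 * Real.pi * (s - t) : ℝ) : ℂ)) - 1) := by
    have h2 : Complex.exp (Complex.I * ((2 * Real.pi * (s - t) : ℝ) : ℂ)) = e (s - t) := by
      unfold e
      congr 1
      push_cast
      ring
    rw [h2, mul_sub, mul_one, ← e_add]
    congr 2
    ring
  rw [h1, norm_mul, norm_e, one_mul]
  refine (Real.norm_exp_I_mul_ofReal_sub_one_le).trans ?_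
  rw [Real.norm_eq_abs, abs_mul, abs_of_pos (by positivity : (0:ℝ) < 2 * Real.pi)]

theorem usml {c : ℝ} (hc0 : 0 < c) (γ : ℝ) (U V : ℕ) (hU : 2 ≤ U) (hUV : U ≤ V) :
    ‖∑ n ∈ Finset.Ioc U V, e (γ * G c n) - ∫ x in (U : ℝ)..V, e (γ * G c x)‖ ≤
      7 * |γ| * G c V := by
  have hU2 : (2 : ℝ) ≤ U := by exact_mod_cast hU
  have hcont : ∀ a b : ℝ, (2 : ℝ) ≤ a → a ≤ b →
      IntervalIntegrable (fun x => e (γ * G c x)) MeasureTheory.volume a b := by
    intro a b ha hab
    apply ContinuousOn.intervalIntegrable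
    intro x hx
    rw [Set.uIcc_of_le hab] at hx
    exact (ui_dF c γ (by linarith [hx.1] : 1 < x)).continuousAt.continuousWithinAt
  have main : ‖∑ n ∈ Finset.Ioc U V, e (γ * G c n) - ∫ x in (U : ℝ)..V, e (γ * G c x)‖ ≤
      2 * Real.pi * |γ| * (G c V - G c U) := by
    induction V, hUV using Nat.le_induction with
    | base => simp
    | succ V hV ih =>
      have hV2 : (U : ℝ) ≤ V := by exact_mod_cast hV
      rw [← Finset.insert_Ioc_right_eq_Ioc_add_one (by omega : U ≤ V), Finset.sum_insert (by simp)]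
      push_cast
      rw [← intervalIntegral.integral_add_adjacent_intervals
        (hcont U V hU2 hV2) (hcont V (V + 1) (by linarith) (by linarith))]
      have h1 : ‖e (γ * G c ((V : ℝ) + 1)) - ∫ x in (V : ℝ)..(V + 1), e (γ * G c x)‖ ≤
          2 * Real.pi * |γ| * (G c (V + 1) - G c V) := by
        have h2 : e (γ * G c ((V : ℝ) + 1)) - ∫ x in (V : ℝ)..(V + 1), e (γ * G c x) =
            ∫ x in (V : ℝ)..(V + 1), (e (γ * G c ((V : ℝ) + 1)) - e (γ * G c x)) := by
          rw [intervalIntegral.integral_sub intervalIntegrable_const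
            (hcont V (V + 1) (by linarith) (by linarith)), intervalIntegral.integral_const]
          simp
        rw [h2]
        have h3 := intervalIntegral.norm_integral_le_of_norm_le_const
          (a := (V : ℝ)) (b := (V : ℝ) + 1)
          (f := fun x => e (γ * G c ((V : ℝ) + 1)) - e (γ * G c x))
          (C := 2 * Real.pi * |γ| * (G c (V + 1) - G c V)) ?_
        · refine h3.trans ?_
          rw [add_sub_cancel_left, abs_one, mul_one]
        · intro x hx
          rw [Set.uIoc_of_le (by linarith)] at hx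
          have hx1 : 1 < x := by linarith [hx.1]
          refine (ui_e_lip _ _).trans ?_
          rw [← mul_sub, abs_mul]
          have m1 := ui_G_mono (c := c) hc0 hx1 hx.2
          have m2 := ui_G_mono (c := c) hc0 (by linarith : (1 : ℝ) < V) hx.1.le
          rw [abs_of_nonneg (by linarith : 0 ≤ G c (V + 1) - G c x), ← mul_assoc]
          apply mul_le_mul_of_nonneg_left (by linarith)
          have := Real.pi_pos
          positivity
      have e1 : e (γ * G c ((V : ℝ) + 1)) + ∑ n ∈ Finset.Ioc U V, e (γ * G c n) -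
          ((∫ x in (U : ℝ)..V, e (γ * G c x)) + ∫ x in (V : ℝ)..(V + 1), e (γ * G c x)) =
          (∑ n ∈ Finset.Ioc U V, e (γ * G c n) - ∫ x in (U : ℝ)..V, e (γ * G c x)) +
          (e (γ * G c ((V : ℝ) + 1)) - ∫ x in (V : ℝ)..(V + 1), e (γ * G c x)) := by ring
      rw [e1]
      refine (norm_add_le _ _).trans ((add_le_add ih h1).trans (le_of_eq ?_))
      ring
  refine main.trans ?_
  have h1 := ui_G_pos c U
  have h2 := ui_G_pos c V
  have h3 : Real.pi < 3.15 := Real.pi_lt_d2
  have h4 : 0 ≤ |γ| := abs_nonneg γ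
  have h5 : 2 * Real.pi * |γ| * (G c V - G c U) ≤ 2 * Real.pi * |γ| * G c V := by
    apply mul_le_mul_of_nonneg_left (by linarith)
    have := Real.pi_pos
    positivity
  refine h5.trans ?_
  apply mul_le_mul_of_nonneg_right _ h2.le
  apply mul_le_mul_of_nonneg_right _ h4
  linarith

end Pool.Agent.VINO
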