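import Pool.Agent.VINO.UBlk
import Pool.Agent.VINO.UInt

/-!
# VINO / UCmp: comparison of exponential sums and integrals, uniformly in `γ`

PROOF.  `L = log U`. If `γ = 0` both are `V - U`. If `|γ| G(U) < U^(9/10)`: `usml`, `G(V) ≤ G(2U) ≤ G(U) exp (6 A)` (`G_dbl`), so the
difference is at most `7 U^(9/10) exp (6 A) ≤ U / L^20` for large `U` (`A = L^c`, `c < 1`). Otherwise `ublk` and `uint`:
`≤ 2 U / L^20 + U^(1/10) ≤ 3 U / L^20`.
`ublk_int`: for `1 ≤ |γ|`: `|γ| G(U) ≥ G(U) ≥ U^(9/10)` for large `U`, so `ublk` applies; for the integral `uint`.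
-/

set_option autoImplicit false

namespace Pool.Agent.VINO

open Pool.Agent.VMV

private theorem uc_ev {c : ℝ} (hc0 : 0 < c) (hc1 : c < 1 / 2) :
    ∃ U₀ : ℕ, 3 ≤ U₀ ∧ ∀ U : ℕ, U₀ ≤ U → 1 ≤ Real.log U ∧
      7 * ((U : ℝ) ^ (9 / 10 : ℝ) * Real.exp (6 * AA c U)) ≤ 3 * U / Real.log U ^ 20 ∧
      (U : ℝ) / (U : ℝ) ^ (9 / 10 : ℝ) ≤ U / Real.log U ^ 20 ∧
      (U : ℝ) ^ (9 / 10 : ℝ) ≤ G c U := by
  have t0 : Filter.Tendsto (fun U : ℕ => Real.log (U : ℝ)) Filter.atTop Filter.atTop :=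
    Real.tendsto_log_atTop.comp tendsto_natCast_atTop_atTop
  have t1 : ∀ᶠ L : ℝ in Filter.atTop, 7 * L ^ 20 ≤ 3 * Real.exp (1 / 20 * L) := by
    have h := (isLittleO_pow_exp_pos_mul_atTop 20 (b := 1 / 20) (by norm_num)).bound
      (c := 3 / 7) (by norm_num)
    filter_upwards [h, Filter.eventually_ge_atTop 0] with L h1 h2
    rw [Real.norm_eq_abs, Real.norm_eq_abs, abs_of_nonneg (by positivity),
      abs_of_pos (Real.exp_pos _)] at h1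
    linarith
  have ev : ∀ᶠ U : ℕ in Filter.atTop, 3 ≤ U ∧ 7 * Real.log (U : ℝ) ^ 20 ≤
      3 * Real.exp (1 / 20 * Real.log (U : ℝ)) ∧ 14400 ≤ Real.log (U : ℝ) := by
    filter_upwards [Filter.eventually_ge_atTop 3, t0.eventually t1,
      t0.eventually_ge_atTop 14400] with U h1 h2 h3
    exact ⟨h1, h2, h3⟩
  obtain ⟨N, hN⟩ := Filter.eventually_atTop.1 ev
  refine ⟨N ⊔ 3, le_sup_right, fun U hU => ?_⟩
  obtain ⟨h1, h2, h3⟩ := hN U (le_sup_left.trans hU)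
  have hU0 : (0 : ℝ) < U := by
    have : 0 < U := by omega
    exact_mod_cast this
  unfold AA G
  set L : ℝ := Real.log (U : ℝ) with hL
  have hUL : (U : ℝ) = Real.exp L := (Real.exp_log hU0).symm
  have hL1 : (1 : ℝ) ≤ L := by linarith
  have hL0 : (0 : ℝ) < L := by linarith
  have hL20 : 0 < L ^ 20 := by positivity
  have e1 : (U : ℝ) ^ (9 / 10 : ℝ) = Real.exp (L * (9 / 10)) := by
    rw [Real.rpow_def_of_pos hU0]
  have hsq : L ^ c ≤ L ^ (1 / 2 : ℝ) := Real.rpow_le_rpow_of_exponent_le hL1 hc1.le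
  have hsq2 : L ^ (1 / 2 : ℝ) * L ^ (1 / 2 : ℝ) = L := by
    rw [← Real.rpow_add hL0]
    norm_num
  have hsq3 : 0 ≤ L ^ (1 / 2 : ℝ) := by positivity
  have h4 : 120 ≤ L ^ (1 / 2 : ℝ) := by
    by_contra hcon
    push Not at hcon
    nlinarith
  have h5 : 6 * L ^ c ≤ 1 / 20 * L := by nlinarith
  refine ⟨hL1, ?_, ?_, ?_⟩
  · rw [e1, le_div_iff₀ hL20]
    have h6 : Real.exp (6 * L ^ c) ≤ Real.exp (1 / 20 * L) := Real.exp_le_exp.2 h5
    calc 7 * (Real.exp (L * (9 / 10)) * Real.exp (6 * L ^ c)) * L ^ 20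
        = Real.exp (L * (9 / 10)) * Real.exp (6 * L ^ c) * (7 * L ^ 20) := by ring
      _ ≤ Real.exp (L * (9 / 10)) * Real.exp (1 / 20 * L) * (3 * Real.exp (1 / 20 * L)) := by
          gcongr
      _ = 3 * Real.exp L := by
          rw [show Real.exp (L * (9 / 10)) * Real.exp (1 / 20 * L) * (3 * Real.exp (1 / 20 * L)) =
            3 * (Real.exp (L * (9 / 10)) * Real.exp (1 / 20 * L) * Real.exp (1 / 20 * L)) by ring,
            ← Real.exp_add, ← Real.exp_add]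
          congr 2
          ring
      _ = 3 * U := by rw [hUL]
  · rw [e1]
    refine div_le_div_of_nonneg_left hU0.le hL20 ?_
    have h6 : Real.exp (1 / 20 * L) ≤ Real.exp (L * (9 / 10)) :=
      Real.exp_le_exp.2 (by linarith)
    have h7 := Real.exp_pos (1 / 20 * L)
    linarith
  · rw [e1]
    apply Real.exp_le_exp.2
    have h6 : L ^ (1 : ℝ) ≤ L ^ (1 + c) := Real.rpow_le_rpow_of_exponent_le hL1 (by linarith)
    rw [Real.rpow_one] at h6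
    linarith

theorem ucmp {c : ℝ} (hc0 : 0 < c) (hc1 : c < 1 / 2) :
    ∃ U₀ : ℕ, 2 ≤ U₀ ∧ ∀ U V : ℕ, U₀ ≤ U → U ≤ V → V ≤ 2 * U → ∀ γ : ℝ,
      |γ| ≤ Real.log U ^ 10 →
      ‖∑ n ∈ Finset.Ioc U V, e (γ * G c n) - ∫ x in (U : ℝ)..V, e (γ * G c x)‖ ≤
        3 * U / Real.log U ^ 20 := by
  obtain ⟨U₁, h1, hev⟩ := uc_ev hc0 hc1
  obtain ⟨U₂, h2, hblk⟩ := ublk hc0 hc1
  obtain ⟨U₃, h3, hint⟩ := uint hc0 hc1
  obtain ⟨U₄, h4, hdbl⟩ := G_dbl hc0 hc1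
  refine ⟨max (max U₁ U₂) (max ⌈U₃⌉₊ ⌈U₄⌉₊), ?_, ?_⟩
  · exact h2.trans ((le_max_right _ _).trans (le_max_left _ _))
  intro U V hU hUV hV γ hγ
  have g1 : U₁ ≤ U := ((le_max_left _ _).trans (le_max_left _ _)).trans hU
  have g2 : U₂ ≤ U := ((le_max_right _ _).trans (le_max_left _ _)).trans hU
  have g3 : U₃ ≤ U := Nat.ceil_le.1 (((le_max_left _ _).trans (le_max_right _ _)).trans hU)
  have g4 : U₄ ≤ U := Nat.ceil_le.1 (((le_max_right _ _).trans (le_max_right _ _)).trans hU)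
  obtain ⟨k1, k2, k3, k4⟩ := hev U g1
  have hUVr : (U : ℝ) ≤ V := by exact_mod_cast hUV
  have hVr : (V : ℝ) ≤ 2 * U := by exact_mod_cast hV
  have hU0 : (0 : ℝ) < U := by
    have : 0 < U := by omega
    exact_mod_cast this
  by_cases hcase : (U : ℝ) ^ (9 / 10 : ℝ) ≤ |γ| * G c U
  · have hpos : 0 < (U : ℝ) ^ (9 / 10 : ℝ) := by positivity
    have hγ0 : γ ≠ 0 := by
      rintro rfl
      rw [abs_zero, zero_mul] at hcase
      linarith
    have b1 := hblk U V g2 hUV hV γ hcase hγ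
    have b2 := hint U V g3 hUVr γ hγ0
    have b3 : (U : ℝ) / (|γ| * G c U) ≤ U / (U : ℝ) ^ (9 / 10 : ℝ) :=
      div_le_div_of_nonneg_left hU0.le hpos hcase
    calc ‖∑ n ∈ Finset.Ioc U V, e (γ * G c n) - ∫ x in (U : ℝ)..V, e (γ * G c x)‖
        ≤ ‖∑ n ∈ Finset.Ioc U V, e (γ * G c n)‖ + ‖∫ x in (U : ℝ)..V, e (γ * G c x)‖ :=
          norm_sub_le _ _
      _ ≤ 2 * U / Real.log U ^ 20 + U / Real.log U ^ 20 :=
          add_le_add b1 (b2.trans (b3.trans k3))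
      _ = 3 * U / Real.log U ^ 20 := by ring
  · push Not at hcase
    have b1 := usml hc0 γ U V (by omega) hUV
    have b2 := (hdbl U g4 V ⟨hUVr, by linarith⟩).2
    calc ‖∑ n ∈ Finset.Ioc U V, e (γ * G c n) - ∫ x in (U : ℝ)..V, e (γ * G c x)‖
        ≤ 7 * |γ| * G c V := b1
      _ ≤ 7 * |γ| * (G c U * Real.exp (6 * AA c U)) := by gcongr
      _ = 7 * ((|γ| * G c U) * Real.exp (6 * AA c U)) := by ring
      _ ≤ 7 * ((U : ℝ) ^ (9 / 10 : ℝ) * Real.exp (6 * AA c U)) := by gcongr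
      _ ≤ 3 * U / Real.log U ^ 20 := k2

theorem ubig_gamma {c : ℝ} (hc0 : 0 < c) (hc1 : c < 1 / 2) :
    ∃ U₀ : ℕ, 2 ≤ U₀ ∧ ∀ U V : ℕ, U₀ ≤ U → U ≤ V → V ≤ 2 * U → ∀ γ : ℝ,
      1 ≤ |γ| → |γ| ≤ Real.log U ^ 10 →
      ‖∑ n ∈ Finset.Ioc U V, e (γ * G c n)‖ ≤ 3 * U / Real.log U ^ 20 ∧
      ‖∫ x in (U : ℝ)..V, e (γ * G c x)‖ ≤ 3 * U / Real.log U ^ 20 := by
  obtain ⟨U₁, h1, hev⟩ := uc_ev hc0 hc1
  obtain ⟨U₂, h2, hblk⟩ := ublk hc0 hc1
  obtain ⟨U₃, h3, hint⟩ := uint hc0 hc1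
  refine ⟨max (max U₁ U₂) ⌈U₃⌉₊, ?_, ?_⟩
  · exact h2.trans ((le_max_right _ _).trans (le_max_left _ _))
  intro U V hU hUV hV γ hγ1 hγ
  have g1 : U₁ ≤ U := ((le_max_left _ _).trans (le_max_left _ _)).trans hU
  have g2 : U₂ ≤ U := ((le_max_right _ _).trans (le_max_left _ _)).trans hU
  have g3 : U₃ ≤ U := Nat.ceil_le.1 ((le_max_right _ _).trans hU)
  obtain ⟨k1, k2, k3, k4⟩ := hev U g1
  have hUVr : (U : ℝ) ≤ V := by exact_mod_cast hUV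
  have hU0 : (0 : ℝ) < U := by
    have : 0 < U := by omega
    exact_mod_cast this
  have hpos : 0 < (U : ℝ) ^ (9 / 10 : ℝ) := by positivity
  have hcase : (U : ℝ) ^ (9 / 10 : ℝ) ≤ |γ| * G c U := by
    have hG : 0 < G c U := Real.exp_pos _
    calc (U : ℝ) ^ (9 / 10 : ℝ) ≤ G c U := k4
      _ = 1 * G c U := (one_mul _).symm
      _ ≤ |γ| * G c U := by gcongr
  have hγ0 : γ ≠ 0 := by
    rintro rfl
    rw [abs_zero] at hγ1
    linarith
  have hL20 : 0 < Real.log U ^ 20 := by positivity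
  constructor
  · refine (hblk U V g2 hUV hV γ hcase hγ).trans ?_
    gcongr
    norm_num
  · refine (hint U V g3 hUVr γ hγ0).trans ?_
    have b3 : (U : ℝ) / (|γ| * G c U) ≤ U / (U : ℝ) ^ (9 / 10 : ℝ) :=
      div_le_div_of_nonneg_left hU0.le hpos hcase
    refine (b3.trans k3).trans ?_
    gcongr
    linarith

end Pool.Agent.VINO
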