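import Pool.Agent.VINO.UDall

/-!
# VINO / UCoef: the derivatives of `G` on a block `[U, 2 U]`

PROOFS.  `A = AA c U`. `ucoef`: `dtwo` at `x` with `η = c/8`: `l ≤ (1 + c/2) A ≤ (1 - c/8)(1+c) A = (1-η) KK c (log U)
≤ (1-η) KK c (log x)` (`(1 - c/8)(1+c) ≥ 1 + c/2` for `c ≤ 1/2`). Lower bound: `G^(l)(x)/l! ≥ (1/2) G(x) x^(-l) q_l(K)/l!
≥ (1/2) G(U) (2U)^(-l) ≥ G(U) U^(-l) exp (-10 A)` (`poch_fact`, `2^(l+1) ≤ exp (10 A)` as `l ≤ 2 A`, `A ≥ 1`). Upper bound: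
`q_l(K)/l! ≤ K^l / l! ≤ exp K ≤ exp (2 A)` (`poch_le`), `G(x) ≤ G(U) exp (6 A)`, `x^(-l) ≤ U^(-l)`, `3/2 ≤ exp (2A)`.
`ubig`: `dall` at `ξ ∈ [U, 3U]`: `|G^(l)(ξ)|/l! ≤ 2 G(ξ) ξ^(-l) exp (l + K) ≤ 2 G(U) exp (6 A) U^(-l) exp (l + 2 A)`,
`2 ≤ exp (2 A)`.
-/

set_option autoImplicit false

namespace Pool.Agent.VINO

private theorem rp {U : ℝ} (hU : 0 < U) (l : ℕ) : U ^ (-(l : ℝ)) = (U ^ l)⁻¹ := by
  rw [Real.rpow_neg hU.le, Real.rpow_natCast]

theorem ucoef {c : ℝ} (hc0 : 0 < c) (hc1 : c < 1 / 2) :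
    ∃ U₀ : ℝ, 1 < U₀ ∧ ∀ U : ℝ, U₀ ≤ U → ∀ x ∈ Set.Icc U (2 * U), ∀ l : ℕ,
      (l : ℝ) ≤ (1 + c / 2) * AA c U →
      Real.exp (-(10 * AA c U)) * (G c U * U ^ (-(l : ℝ))) ≤
        iteratedDeriv l (G c) x / l.factorial ∧
      iteratedDeriv l (G c) x / l.factorial ≤
        Real.exp (10 * AA c U) * (G c U * U ^ (-(l : ℝ))) := by
  obtain ⟨L₀, hL₀, H⟩ := dtwo (c := c) (η := c / 8) hc0 (by linarith) (by linarith) (by linarith)
  obtain ⟨U₁, hU₁, H1⟩ := G_dbl hc0 hc1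
  obtain ⟨U₂, hU₂, H2⟩ := KK_dbl hc0 hc1
  refine ⟨max (Real.exp L₀) (max U₁ U₂), lt_max_of_lt_right (lt_max_of_lt_left hU₁), ?_⟩
  intro U hU x hx l hl
  have hUe : Real.exp L₀ ≤ U := (le_max_left _ _).trans hU
  have hU1 : U₁ ≤ U := ((le_max_left _ _).trans (le_max_right _ _)).trans hU
  have hU2 : U₂ ≤ U := ((le_max_right _ _).trans (le_max_right _ _)).trans hU
  have hU0 : 0 < U := by linarith
  obtain ⟨hx1, hx2⟩ := hx
  have hx0 : 0 < x := by linarith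
  have hLU : L₀ ≤ Real.log U := by
    rw [Real.le_log_iff_exp_le hU0]
    exact hUe
  have hLx : L₀ ≤ Real.log x := hLU.trans (Real.log_le_log hU0 hx1)
  have hxm : x ∈ Set.Icc U (4 * U) := ⟨hx1, by linarith⟩
  obtain ⟨g1, g2⟩ := H1 U hU1 x hxm
  obtain ⟨k1, k2, k3⟩ := H2 U hU2 x hxm
  have hA1 : 1 ≤ AA c U := Real.one_le_rpow (by linarith) hc0.le
  have hKU : KK c (Real.log U) = (1 + c) * AA c U := rfl
  set A := AA c U with hA
  set K := KK c (Real.log x) with hK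
  have hlK : (l : ℝ) ≤ (1 - c / 8) * K := by
    have h1 : (1 + c / 2) * A ≤ (1 - c / 8) * ((1 + c) * A) := by
      have h2 : 0 ≤ (3 * c / 8 - c ^ 2 / 8) * A := by
        apply mul_nonneg _ (by linarith)
        nlinarith
      nlinarith
    have h3 : (1 - c / 8) * ((1 + c) * A) ≤ (1 - c / 8) * K := by
      apply mul_le_mul_of_nonneg_left _ (by linarith)
      rw [← hKU]
      exact k2
    linarith
  have hK0 : 0 < K := by linarith
  have hlK' : (l : ℝ) ≤ K := by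
    have : 0 < c / 8 * K := by positivity
    linarith
  obtain ⟨d1, d2⟩ := H x hx0 hLx l hlK
  have hf : (0 : ℝ) < (l.factorial : ℝ) := by positivity
  have hxl : 0 < x ^ l := by positivity
  have hUl : 0 < U ^ l := by positivity
  have hGU : 0 < G c U := Real.exp_pos _
  have hGx : 0 < G c x := Real.exp_pos _
  rw [rp hU0]
  set D := iteratedDeriv l (G c) x with hD
  set q := (descPochhammer ℝ l).eval K with hq
  have hq1 : (l.factorial : ℝ) ≤ q := poch_fact hlK'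
  constructor
  · have h1 : Real.exp (-(10 * A)) ≤ 1 / 2 * ((2 : ℝ) ^ l)⁻¹ := by
      rw [Real.exp_neg, ← one_div, ← one_div]
      rw [one_div_mul_one_div]
      apply one_div_le_one_div_of_le (by positivity)
      have h2 : (2 : ℝ) * 2 ^ l = 2 ^ (l + 1) := by ring
      have h3 : (2 : ℝ) ≤ Real.exp 1 := by
        have := Real.add_one_le_exp (1 : ℝ)
        linarith
      rw [h2]
      calc (2 : ℝ) ^ (l + 1) ≤ Real.exp 1 ^ (l + 1) := pow_le_pow_left₀ (by norm_num) h3 _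
        _ = Real.exp ((l : ℝ) + 1) := by
          rw [← Real.exp_nat_mul]
          push_cast
          rw [mul_one]
        _ ≤ Real.exp (10 * A) := by
          apply Real.exp_le_exp.2
          nlinarith
    have h2 : (x ^ l)⁻¹ ≥ ((2 : ℝ) ^ l)⁻¹ * (U ^ l)⁻¹ := by
      rw [← mul_inv, ← mul_pow]
      exact inv_anti₀ hxl (pow_le_pow_left₀ hx0.le hx2 _)
    have h3 : 1 / 2 * (G c U * l.factorial) ≤ x ^ l * D := by
      refine le_trans ?_ d1
      apply mul_le_mul_of_nonneg_left _ (by norm_num)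
      exact mul_le_mul g1 hq1 hf.le hGx.le
    have h4 : 1 / 2 * G c U * (x ^ l)⁻¹ ≤ D / l.factorial := by
      rw [le_div_iff₀ hf]
      have : 1 / 2 * G c U * (x ^ l)⁻¹ * l.factorial =
          (1 / 2 * (G c U * l.factorial)) * (x ^ l)⁻¹ := by ring
      rw [this]
      calc (1 / 2 * (G c U * l.factorial)) * (x ^ l)⁻¹ ≤ (x ^ l * D) * (x ^ l)⁻¹ :=
            mul_le_mul_of_nonneg_right h3 (by positivity)
        _ = D := by field_simp
    calc Real.exp (-(10 * A)) * (G c U * (U ^ l)⁻¹)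
        ≤ (1 / 2 * ((2 : ℝ) ^ l)⁻¹) * (G c U * (U ^ l)⁻¹) :=
          mul_le_mul_of_nonneg_right h1 (by positivity)
      _ = 1 / 2 * G c U * (((2 : ℝ) ^ l)⁻¹ * (U ^ l)⁻¹) := by ring
      _ ≤ 1 / 2 * G c U * (x ^ l)⁻¹ := mul_le_mul_of_nonneg_left h2 (by positivity)
      _ ≤ _ := h4
  · have hq2 : q ≤ K ^ l := poch_le hlK'
    have hq3 : q / l.factorial ≤ Real.exp (2 * A) :=
      calc q / l.factorial ≤ K ^ l / l.factorial := div_le_div_of_nonneg_right hq2 hf.le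
        _ ≤ Real.exp K := Real.pow_div_factorial_le_exp K hK0.le l
        _ ≤ Real.exp (2 * A) := Real.exp_le_exp.2 k3
    have h3 : (3 : ℝ) / 2 ≤ Real.exp (2 * A) := by
      have := Real.add_one_le_exp (2 * A)
      linarith
    have hq0 : 0 ≤ q := hf.le.trans hq1
    have h4 : D / l.factorial ≤ 3 / 2 * (G c x * (q / l.factorial)) * (x ^ l)⁻¹ := by
      rw [div_le_iff₀ hf]
      have : 3 / 2 * (G c x * (q / l.factorial)) * (x ^ l)⁻¹ * l.factorial =
          (3 / 2 * (G c x * q)) * (x ^ l)⁻¹ := by field_simp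
      rw [this]
      calc D = (x ^ l * D) * (x ^ l)⁻¹ := by field_simp
        _ ≤ _ := mul_le_mul_of_nonneg_right d2 (by positivity)
    have h5 : (x ^ l)⁻¹ ≤ (U ^ l)⁻¹ := inv_anti₀ hUl (pow_le_pow_left₀ hU0.le hx1 _)
    have hq4 : 0 ≤ q / l.factorial := by positivity
    calc D / l.factorial ≤ 3 / 2 * (G c x * (q / l.factorial)) * (x ^ l)⁻¹ := h4
      _ ≤ Real.exp (2 * A) * ((G c U * Real.exp (6 * A)) * Real.exp (2 * A)) * (U ^ l)⁻¹ := by
        gcongr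
      _ = Real.exp (10 * A) * (G c U * (U ^ l)⁻¹) := by
        have : Real.exp (10 * A) = Real.exp (2 * A) * Real.exp (6 * A) * Real.exp (2 * A) := by
          rw [← Real.exp_add, ← Real.exp_add]
          congr 1
          ring
        rw [this]
        ring

theorem ubig {c : ℝ} (hc0 : 0 < c) (hc1 : c < 1 / 2) :
    ∃ U₀ : ℝ, 1 < U₀ ∧ ∀ U : ℝ, U₀ ≤ U → ∀ ξ ∈ Set.Icc U (3 * U), ∀ l : ℕ,
      |iteratedDeriv l (G c) ξ| / l.factorial ≤
        Real.exp (10 * AA c U + l) * (G c U * U ^ (-(l : ℝ))) := by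
  obtain ⟨L₀, hL₀, H⟩ := dall (c := c) hc0 (by linarith)
  obtain ⟨U₁, hU₁, H1⟩ := G_dbl hc0 hc1
  obtain ⟨U₂, hU₂, H2⟩ := KK_dbl hc0 hc1
  refine ⟨max (Real.exp L₀) (max U₁ U₂), lt_max_of_lt_right (lt_max_of_lt_left hU₁), ?_⟩
  intro U hU x hx l
  have hUe : Real.exp L₀ ≤ U := (le_max_left _ _).trans hU
  have hU1 : U₁ ≤ U := ((le_max_left _ _).trans (le_max_right _ _)).trans hU
  have hU2 : U₂ ≤ U := ((le_max_right _ _).trans (le_max_right _ _)).trans hU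
  have hU0 : 0 < U := by linarith
  obtain ⟨hx1, hx2⟩ := hx
  have hx0 : 0 < x := by linarith
  have hLU : L₀ ≤ Real.log U := by
    rw [Real.le_log_iff_exp_le hU0]
    exact hUe
  have hLx : L₀ ≤ Real.log x := hLU.trans (Real.log_le_log hU0 hx1)
  have hxm : x ∈ Set.Icc U (4 * U) := ⟨hx1, by linarith⟩
  obtain ⟨g1, g2⟩ := H1 U hU1 x hxm
  obtain ⟨k1, k2, k3⟩ := H2 U hU2 x hxm
  have hA1 : 1 ≤ AA c U := Real.one_le_rpow (by linarith) hc0.le
  set A := AA c U with hA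
  set K := KK c (Real.log x) with hK
  have d := H x hx0 hLx l
  have hf : (0 : ℝ) < (l.factorial : ℝ) := by positivity
  have hxl : 0 < x ^ l := by positivity
  have hUl : 0 < U ^ l := by positivity
  have hGU : 0 < G c U := Real.exp_pos _
  have hGx : 0 < G c x := Real.exp_pos _
  rw [rp hU0]
  set D := iteratedDeriv l (G c) x with hD
  rw [abs_mul, abs_of_pos hxl] at d
  have h3 : (2 : ℝ) ≤ Real.exp (2 * A) := by
    have := Real.add_one_le_exp (2 * A)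
    linarith
  have h4 : |D| / l.factorial ≤ 2 * G c x * Real.exp (l + K) * (x ^ l)⁻¹ := by
    rw [div_le_iff₀ hf]
    calc |D| = (x ^ l * |D|) * (x ^ l)⁻¹ := by field_simp
      _ ≤ (2 * G c x * l.factorial * Real.exp (l + K)) * (x ^ l)⁻¹ :=
        mul_le_mul_of_nonneg_right d (by positivity)
      _ = _ := by ring
  have h5 : (x ^ l)⁻¹ ≤ (U ^ l)⁻¹ := inv_anti₀ hUl (pow_le_pow_left₀ hU0.le hx1 _)
  calc |D| / l.factorial ≤ 2 * G c x * Real.exp (l + K) * (x ^ l)⁻¹ := h4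
    _ ≤ Real.exp (2 * A) * (G c U * Real.exp (6 * A)) * Real.exp (l + 2 * A) * (U ^ l)⁻¹ := by
      gcongr
    _ = Real.exp (10 * A + l) * (G c U * (U ^ l)⁻¹) := by
      have : Real.exp (10 * A + l) =
          Real.exp (2 * A) * Real.exp (6 * A) * Real.exp (l + 2 * A) := by
        rw [← Real.exp_add, ← Real.exp_add]
        congr 1
        ring
      rw [this]
      ring

end Pool.Agent.VINO
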