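import Pool.Agent.VINO.Dtwo

/-!
# VINO / UDall: general upper bounds for the derivatives of `G`, growth of `G` on `[U, 4 U]`

PROOFS.  `dall`: exactly as `dbig` (see `Dtwo.lean`) with `M = max l K` in `poch_abs` (`K = KK c (log x) ≥ 1` for large `x`;
for `i < l`: `|K - i| ≤ max l K = M`, `M ≥ 1`): `|x^l G^(l)(x)| ≤ G(x) ∑_{m ≤ l} |em m| (l! / (l-m)!) M^(l-m)`,
`M^(l-m) / (l-m)! ≤ exp M ≤ exp (l + K)`, `∑_{m ≤ l} |em m| ≤ 2`.
`G_dbl`: `L = log U`, `A = L^c`; `log x ∈ [L, L + log 4]`; `(L + log 4)^(1+c) - L^(1+c) ≤ (1+c) (L + log 4)^c log 4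
≤ 6 A` for large `L` (mean value theorem, `(L + log 4)^c ≤ 2 L^c`, `c < 1/2`: `1.5 * 2 * 1.39 ≤ 6`).
`KK_dbl`: `(1+c) (L + log 4)^c ≤ (3/2) (4/3)^c.. ≤ 2 L^c` for large `L` (`(1 + log 4 / L)^c → 1`, `1 + c < 3/2`).
-/

set_option autoImplicit false

namespace Pool.Agent.VINO

open Polynomial

private theorem exL' {c : ℝ} (hc1 : c < 1) :
    ∃ L₀ : ℝ, 1 ≤ L₀ ∧ ∀ L : ℝ, L₀ ≤ L → 2 * 2 ≤ L ∧ 8 * 2 ^ 2 * L ^ (c - 1) ≤ 1 := by
  have h1 : Filter.Tendsto (fun L : ℝ => 8 * 2 ^ 2 * L ^ (c - 1)) Filter.atTop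
      (nhds (8 * 2 ^ 2 * 0)) := by
    apply Filter.Tendsto.const_mul
    have := tendsto_rpow_neg_atTop (y := 1 - c) (by linarith)
    simpa [neg_sub] using this
  rw [mul_zero] at h1
  have h2 := h1.eventually (Iic_mem_nhds (show (0 : ℝ) < 1 by norm_num))
  obtain ⟨B, hB⟩ := Filter.eventually_atTop.1 h2
  refine ⟨max 1 (max B (2 * 2)), le_max_left _ _, fun L hL => ⟨?_, ?_⟩⟩
  · exact le_trans (le_trans (le_max_right _ _) (le_max_right _ _)) hL
  · exact hB L (le_trans (le_trans (le_max_left _ _) (le_max_right _ _)) hL)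

private theorem sum_half' (l : ℕ) : ∑ m ∈ Finset.range l, ((1 : ℝ) / 2) ^ (m + 1) ≤ 1 := by
  have : ∀ l : ℕ, ∑ m ∈ Finset.range l, ((1 : ℝ) / 2) ^ (m + 1) = 1 - (1 / 2) ^ l := by
    intro l
    induction l with
    | zero => simp
    | succ l ih => rw [Finset.sum_range_succ, ih]; ring
  rw [this]
  have : (0 : ℝ) ≤ (1 / 2) ^ l := by positivity
  linarith

theorem dall {c : ℝ} (hc0 : 0 < c) (hc1 : c < 1) :
    ∃ L₀ : ℝ, 1 ≤ L₀ ∧ ∀ x : ℝ, 0 < x → L₀ ≤ Real.log x → ∀ l : ℕ,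
      |x ^ l * iteratedDeriv l (G c) x| ≤
        2 * G c x * l.factorial * Real.exp (l + KK c (Real.log x)) := by
  obtain ⟨L₀, hL₀, H⟩ := exL' (c := c) hc1
  refine ⟨L₀, hL₀, fun x hx hL l => ?_⟩
  obtain ⟨h1, h2⟩ := H _ hL
  have hx1 : 1 < x := by
    by_contra hc
    have : Real.log x ≤ 0 := Real.log_nonpos hx.le (not_lt.1 hc)
    linarith
  set L := Real.log x with hLdef
  have hLpos : 0 < L := by linarith
  have hKge : 1 ≤ KK c L := by
    unfold KK
    have : 1 ≤ L ^ c := Real.one_le_rpow (by linarith) hc0.le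
    nlinarith
  set K := KK c L with hK
  have hl0 : (0 : ℝ) ≤ l := Nat.cast_nonneg l
  set M := max (l : ℝ) K with hMdef
  have hM1 : (1 : ℝ) ≤ M := le_trans hKge (le_max_right _ _)
  have hMle : M ≤ l + K := max_le (by linarith) (by linarith)
  have hKi : ∀ i < l, |K - (i : ℝ)| ≤ M := by
    intro i hi
    have h3 : (i : ℝ) ≤ l := by exact_mod_cast hi.le
    have h4 : (0 : ℝ) ≤ i := by positivity
    have h5 : (l : ℝ) ≤ M := le_max_left _ _
    have h6 : K ≤ M := le_max_right _ _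
    rw [abs_le]
    constructor <;> linarith
  have hD : ∀ m ≤ l, |(derivative^[m] (descPochhammer ℝ l)).eval K| ≤
      l.factorial * Real.exp (l + K) := by
    intro m hm
    refine le_trans (poch_abs hM1 hKi m) ?_
    have h3 : ((l.descFactorial m : ℕ) : ℝ) * ((l - m).factorial : ℝ) = l.factorial := by
      have := Nat.factorial_mul_descFactorial hm
      rw [mul_comm]
      exact_mod_cast this
    have h4 : M ^ (l - m) / ((l - m).factorial : ℝ) ≤ Real.exp (l + K) :=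
      (Real.pow_div_factorial_le_exp M (by linarith) (l - m)).trans (Real.exp_le_exp.2 hMle)
    have hf : (0 : ℝ) < ((l - m).factorial : ℝ) := by positivity
    rw [div_le_iff₀ hf] at h4
    calc ((l.descFactorial m : ℕ) : ℝ) * M ^ (l - m)
        ≤ ((l.descFactorial m : ℕ) : ℝ) * (Real.exp (l + K) * ((l - m).factorial : ℝ)) := by
          apply mul_le_mul_of_nonneg_left h4 (by positivity)
      _ = (((l.descFactorial m : ℕ) : ℝ) * ((l - m).factorial : ℝ)) * Real.exp (l + K) := by ring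
      _ = _ := by rw [h3]
  have hG : 0 < G c x := Real.exp_pos _
  rw [dform c l x hx1, abs_mul, abs_of_pos hG]
  have hF : (0 : ℝ) ≤ l.factorial * Real.exp (l + K) := by positivity
  have hR : |∑ m ∈ Finset.range (l + 1), em c L m *
      (derivative^[m] (descPochhammer ℝ l)).eval K| ≤ 2 * (l.factorial * Real.exp (l + K)) := by
    calc |∑ m ∈ Finset.range (l + 1), em c L m *
          (derivative^[m] (descPochhammer ℝ l)).eval K|
        ≤ ∑ m ∈ Finset.range (l + 1), |em c L m *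
          (derivative^[m] (descPochhammer ℝ l)).eval K| := Finset.abs_sum_le_sum_abs _ _
      _ ≤ ∑ m ∈ Finset.range (l + 1), |em c L m| * (l.factorial * Real.exp (l + K)) := by
          apply Finset.sum_le_sum
          intro m hm
          rw [abs_mul]
          apply mul_le_mul_of_nonneg_left _ (abs_nonneg _)
          exact hD m (by have := Finset.mem_range.1 hm; omega)
      _ = (∑ m ∈ Finset.range (l + 1), |em c L m|) * (l.factorial * Real.exp (l + K)) := by
          rw [Finset.sum_mul]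
      _ ≤ 2 * (l.factorial * Real.exp (l + K)) := by
          apply mul_le_mul_of_nonneg_right _ hF
          rw [Finset.sum_range_succ', em_zero c hLpos, abs_one]
          have : ∑ m ∈ Finset.range l, |em c L (m + 1)| ≤ 1 := by
            calc ∑ m ∈ Finset.range l, |em c L (m + 1)|
                ≤ ∑ m ∈ Finset.range l, ((1 : ℝ) / 2) ^ (m + 1) := by
                  apply Finset.sum_le_sum
                  intro m _
                  refine le_trans (em_le hc0 hc1 (ρ := 2) (by norm_num) h1 h2 (m + 1)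
                    (by omega)) ?_
                  rw [one_div, inv_pow, div_eq_mul_inv]
                  have h5 : (0 : ℝ) < (2 ^ (m + 1))⁻¹ := by positivity
                  have h6 : 4 * 2 ^ 2 * L ^ (c - 1) ≤ 1 := by
                    have : 0 ≤ L ^ (c - 1) := by positivity
                    linarith
                  nlinarith
              _ ≤ 1 := sum_half' l
          linarith
  calc G c x * |∑ m ∈ Finset.range (l + 1), em c L m *
          (derivative^[m] (descPochhammer ℝ l)).eval K|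
      ≤ G c x * (2 * (l.factorial * Real.exp (l + K))) := mul_le_mul_of_nonneg_left hR hG.le
    _ = _ := by ring

/-- `log x` for `x ∈ [U, 4 U]` -/
private theorem log_dbl {U x : ℝ} (hU : Real.exp 5 ≤ U) (hx : x ∈ Set.Icc U (4 * U)) :
    5 ≤ Real.log U ∧ Real.log U ≤ Real.log x ∧ Real.log x ≤ Real.log U + 7 / 5 := by
  have hU0 : 0 < U := lt_of_lt_of_le (Real.exp_pos 5) hU
  have hx0 : 0 < x := lt_of_lt_of_le hU0 hx.1
  refine ⟨(Real.le_log_iff_exp_le hU0).2 hU, Real.log_le_log hU0 hx.1, ?_⟩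
  have h1 : Real.log x ≤ Real.log (4 * U) := Real.log_le_log hx0 hx.2
  rw [Real.log_mul (by norm_num) hU0.ne'] at h1
  have h2 : Real.log 4 = 2 * Real.log 2 := by
    rw [show (4 : ℝ) = 2 ^ 2 by norm_num, Real.log_pow]
    norm_num
  have h3 := Real.log_two_lt_d9
  linarith

theorem G_dbl {c : ℝ} (hc0 : 0 < c) (hc1 : c < 1 / 2) :
    ∃ U₀ : ℝ, 1 < U₀ ∧ ∀ U : ℝ, U₀ ≤ U → ∀ x ∈ Set.Icc U (4 * U),
      G c U ≤ G c x ∧ G c x ≤ G c U * Real.exp (6 * AA c U) := by
  refine ⟨Real.exp 5, by rw [Real.one_lt_exp_iff]; norm_num, fun U hU x hx => ?_⟩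
  obtain ⟨h1, h2, h3⟩ := log_dbl hU hx
  unfold G AA
  set L := Real.log U with hL
  have hL0 : 0 < L := by linarith
  refine ⟨Real.exp_le_exp.2 (Real.rpow_le_rpow hL0.le h2 (by linarith)), ?_⟩
  rw [← Real.exp_add]
  apply Real.exp_le_exp.2
  have h4 : Real.log x ^ (1 + c) ≤ (L * (1 + 7 / 5 / L)) ^ (1 + c) := by
    apply Real.rpow_le_rpow (by linarith) _ (by linarith)
    rw [mul_add, mul_one, mul_div_cancel₀ _ hL0.ne']
    exact h3
  have ht0 : 0 ≤ 7 / 5 / L := by positivity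
  have ht1 : 7 / 5 / L ≤ 1 := by
    rw [div_le_one hL0]; linarith
  have h5 : (1 + 7 / 5 / L) ^ (1 + c) ≤ (1 + 7 / 5 / L) ^ (2 : ℝ) :=
    Real.rpow_le_rpow_of_exponent_le (by linarith) (by linarith)
  have h6 : (1 + 7 / 5 / L) ^ (2 : ℝ) ≤ 1 + 3 * (7 / 5 / L) := by
    rw [Real.rpow_two]
    nlinarith
  have h7 : L ^ (1 + c) = L * L ^ c := by
    rw [Real.rpow_add hL0, Real.rpow_one]
  have hLc : 0 < L ^ c := Real.rpow_pos_of_pos hL0 _
  rw [Real.mul_rpow hL0.le (by linarith)] at h4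
  calc Real.log x ^ (1 + c) ≤ L ^ (1 + c) * (1 + 7 / 5 / L) ^ (1 + c) := h4
    _ ≤ L ^ (1 + c) * (1 + 3 * (7 / 5 / L)) :=
        mul_le_mul_of_nonneg_left (h5.trans h6) (Real.rpow_nonneg hL0.le _)
    _ = L ^ (1 + c) + 21 / 5 * L ^ c := by
        rw [h7]
        field_simp
        ring
    _ ≤ L ^ (1 + c) + 6 * L ^ c := by linarith

theorem KK_dbl {c : ℝ} (hc0 : 0 < c) (hc1 : c < 1 / 2) :
    ∃ U₀ : ℝ, 1 < U₀ ∧ ∀ U : ℝ, U₀ ≤ U → ∀ x ∈ Set.Icc U (4 * U),
      1 ≤ KK c (Real.log U) ∧ KK c (Real.log U) ≤ KK c (Real.log x) ∧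
        KK c (Real.log x) ≤ 2 * AA c U := by
  refine ⟨Real.exp 5, by rw [Real.one_lt_exp_iff]; norm_num, fun U hU x hx => ?_⟩
  obtain ⟨h1, h2, h3⟩ := log_dbl hU hx
  unfold KK AA
  set L := Real.log U with hL
  have hL0 : 0 < L := by linarith
  have hLc1 : 1 ≤ L ^ c := Real.one_le_rpow (by linarith) hc0.le
  refine ⟨by nlinarith, ?_, ?_⟩
  · exact mul_le_mul_of_nonneg_left (Real.rpow_le_rpow hL0.le h2 hc0.le) (by linarith)
  · have h4 : Real.log x ^ c ≤ (L * (1 + 7 / 5 / L)) ^ c := by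
      apply Real.rpow_le_rpow (by linarith) _ (by linarith)
      rw [mul_add, mul_one, mul_div_cancel₀ _ hL0.ne']
      exact h3
    have ht0 : 0 ≤ 7 / 5 / L := by positivity
    have ht1 : 7 / 5 / L ≤ 1 / 3 := by
      rw [div_le_iff₀ hL0]; linarith
    have h5 : (1 + 7 / 5 / L) ^ c ≤ 1 + 7 / 5 / L := by
      calc (1 + 7 / 5 / L) ^ c ≤ (1 + 7 / 5 / L) ^ (1 : ℝ) :=
            Real.rpow_le_rpow_of_exponent_le (by linarith) (by linarith)
        _ = _ := Real.rpow_one _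
    rw [Real.mul_rpow hL0.le (by linarith)] at h4
    have hLc : 0 < L ^ c := Real.rpow_pos_of_pos hL0 _
    calc (1 + c) * Real.log x ^ c ≤ (1 + c) * (L ^ c * (1 + 7 / 5 / L) ^ c) :=
          mul_le_mul_of_nonneg_left h4 (by linarith)
      _ ≤ (3 / 2) * (L ^ c * (4 / 3)) := by
          apply mul_le_mul (by linarith) _ (by positivity) (by norm_num)
          exact mul_le_mul_of_nonneg_left (by linarith) hLc.le
      _ = 2 * L ^ c := by ring

end Pool.Agent.VINO
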