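import Pool.Agent.VINO.UCoef

/-!
# VINO / UGoodA: many Taylor coefficients in the good range, large `γ`

Here `s` (written `λ` in the proof) is defined by `|γ| G(U) = U^s`.
PROOF.  `L = log U`, `A = L^c`. `|γ| ≤ L^10` gives `λ = A + log |γ| / L ≤ A + 10 log L / L ≤ A + 1`.
`κ = log Y / L ∈ [c/20, c/10]` for large `U` (`U^(c/10) - 1 ≥ U^(c/20)`). `T` = the set of the `j` with
`λ (1 + 3κ/4) ≤ j + 1 ≤ λ (1 + 5κ/4)`; `k = ⌈3λ⌉ + 2` is larger; `l = j + 1 ≤ (A+1)(1 + c/8) ≤ (1 + c/2) A`.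
There are at least `λκ/2 - 1 ≥ λκ/4` such `l` (`λκ ≥ (80/c)(c/20) = 4`), each `≥ λ`: the sum is `≥ λ^2 κ/4 ≥ (c/80) λ^2`
(compare `good_count` in `Good.lean`).
`ucoef`: `exp(-10 A) U^(λ-l) ≤ |γ| G^(l)(x)/l! ≤ exp(10 A) U^(λ-l)`, and `Y^(-l/2) = U^(-κ l/2)`.
Upper: it suffices that `λ L + 10 A ≤ l (1 - κ/2) L`; `l (1 - κ/2) ≥ λ (1 + 3κ/4)(1 - κ/2) ≥ λ (1 + κ/8)`, `λ κ L / 8 ≥ L/2 ≥ 10 A`.
Lower: it suffices that `l (1 - 3κ/2) L ≤ λ L - 10 A`; `l (1 - 3κ/2) ≤ λ (1 + 5κ/4)(1 - 3κ/2) ≤ λ (1 - κ/4)`,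
`λ κ L / 4 ≥ L ≥ 10 A`.
-/

set_option autoImplicit false

namespace Pool.Agent.VINO

open Filter

private theorem uga_count {A κ : ℝ} {k : ℕ} (hA : 0 < A) (hκ : 0 < κ) (h4 : 4 ≤ A * κ)
    (hk : A * (1 + 5 * κ / 4) ≤ k) :
    A * (A * κ / 4) ≤ ∑ j ∈ (Finset.univ : Finset (Fin k)).filter
      (fun j => A * (1 + 3 * κ / 4) ≤ ((j.1 : ℝ) + 1) ∧ ((j.1 : ℝ) + 1) ≤ A * (1 + 5 * κ / 4)),
      ((j.1 : ℝ) + 1) := by
  classical
  set lo := A * (1 + 3 * κ / 4) with hlo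
  set hi := A * (1 + 5 * κ / 4) with hhi
  have hlopos : 0 < lo := by positivity
  have hhipos : 0 < hi := by positivity
  have hAlo : A ≤ lo := by
    have : 0 ≤ A * (3 * κ / 4) := by positivity
    rw [hlo]; linarith
  have hlohi : lo + A * κ / 2 = hi := by rw [hlo, hhi]; ring
  have ha1 : 1 ≤ ⌈lo⌉₊ := Nat.one_le_ceil_iff.2 hlopos
  have hac : (⌈lo⌉₊ : ℝ) < lo + 1 := Nat.ceil_lt_add_one hlopos.le
  have hbf : hi - 1 < (⌊hi⌋₊ : ℝ) := Nat.sub_one_lt_floor hi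
  rw [Finset.sum_filter]
  rw [Fin.sum_univ_eq_sum_range
    (fun i : ℕ => if lo ≤ ((i : ℝ) + 1) ∧ ((i : ℝ) + 1) ≤ hi then ((i : ℝ) + 1) else 0) k]
  have hsub : Finset.Ico (⌈lo⌉₊ - 1) ⌊hi⌋₊ ⊆ Finset.range k := by
    intro i hi'
    rw [Finset.mem_Ico] at hi'
    rw [Finset.mem_range]
    have h1 : (⌊hi⌋₊ : ℝ) ≤ k := (Nat.floor_le hhipos.le).trans hk
    have h2 : ⌊hi⌋₊ ≤ k := by exact_mod_cast h1
    omega
  have hcast : ((⌈lo⌉₊ - 1 : ℕ) : ℝ) = (⌈lo⌉₊ : ℝ) - 1 := by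
    rw [Nat.cast_sub ha1, Nat.cast_one]
  have hle : ⌈lo⌉₊ - 1 ≤ ⌊hi⌋₊ := by
    have : ((⌈lo⌉₊ - 1 : ℕ) : ℝ) ≤ (⌊hi⌋₊ : ℝ) := by rw [hcast]; linarith
    exact_mod_cast this
  calc A * (A * κ / 4) ≤ ((⌊hi⌋₊ - (⌈lo⌉₊ - 1) : ℕ) : ℝ) * A := by
        rw [mul_comm A]
        refine mul_le_mul_of_nonneg_right ?_ hA.le
        rw [Nat.cast_sub hle, hcast]
        linarith
    _ = ∑ i ∈ Finset.Ico (⌈lo⌉₊ - 1) ⌊hi⌋₊, A := by
        rw [Finset.sum_const, Nat.card_Ico, nsmul_eq_mul]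
    _ ≤ ∑ i ∈ Finset.Ico (⌈lo⌉₊ - 1) ⌊hi⌋₊,
          (if lo ≤ ((i : ℝ) + 1) ∧ ((i : ℝ) + 1) ≤ hi then ((i : ℝ) + 1) else 0) := by
        refine Finset.sum_le_sum (fun i hi' => ?_)
        rw [Finset.mem_Ico] at hi'
        have h1 : (⌈lo⌉₊ : ℝ) ≤ (i : ℝ) + 1 := by
          have : ⌈lo⌉₊ ≤ i + 1 := by omega
          exact_mod_cast this
        have h2 : lo ≤ (i : ℝ) + 1 := (Nat.le_ceil lo).trans h1
        have h3 : (i : ℝ) + 1 ≤ hi := by
          have h4 : i + 1 ≤ ⌊hi⌋₊ := by omega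
          have h5 : ((i + 1 : ℕ) : ℝ) ≤ (⌊hi⌋₊ : ℝ) := by exact_mod_cast h4
          push_cast at h5
          exact h5.trans (Nat.floor_le hhipos.le)
        rw [if_pos ⟨h2, h3⟩]
        linarith
    _ ≤ _ := Finset.sum_le_sum_of_subset_of_nonneg hsub
        (fun i _ _ => by split_ifs <;> positivity)

theorem ugoodA {c : ℝ} (hc0 : 0 < c) (hc1 : c < 1 / 2) :
    ∃ U₀ : ℝ, 1 < U₀ ∧ ∀ U : ℝ, U₀ ≤ U → ∀ (γ s : ℝ), |γ| * G c U = U ^ s →
      |γ| ≤ Real.log U ^ 10 → 80 / c ≤ s →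
      s ≤ 2 * AA c U ∧ U ^ (c / 20) ≤ (⌊U ^ (c / 10)⌋₊ : ℝ) ∧
      ∀ x ∈ Set.Icc U (2 * U), ∃ T : Finset (Fin (⌈3 * s⌉₊ + 2)),
        c / 80 * s ^ 2 ≤ ∑ j ∈ T, ((j.1 : ℝ) + 1) ∧ ∀ j ∈ T,
          (⌊U ^ (c / 10)⌋₊ : ℝ) ^ (-(3 * ((j.1 : ℝ) + 1) / 2)) ≤
            |γ * iteratedDeriv (j.1 + 1) (G c) x / ((j.1 + 1).factorial : ℝ)| ∧
          |γ * iteratedDeriv (j.1 + 1) (G c) x / ((j.1 + 1).factorial : ℝ)| ≤
            (⌊U ^ (c / 10)⌋₊ : ℝ) ^ (-(((j.1 : ℝ) + 1) / 2)) := by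
  classical
  obtain ⟨U₁, hU₁, hco⟩ := ucoef hc0 hc1
  have hAA : Tendsto (fun x : ℝ => AA c x) atTop atTop :=
    (tendsto_rpow_atTop hc0).comp Real.tendsto_log_atTop
  have hlog10 : ∀ᶠ L : ℝ in atTop, 10 * Real.log L ≤ L := by
    have h := (Real.isLittleO_log_id_atTop.bound (by norm_num : (0 : ℝ) < 1 / 10))
    filter_upwards [h, eventually_ge_atTop (1 : ℝ)] with L h1 h2
    have h3 : |Real.log L| ≤ 1 / 10 * |L| := h1
    rw [abs_of_nonneg (by linarith : (0 : ℝ) ≤ L)] at h3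
    have := le_abs_self (Real.log L)
    linarith
  have hpow : ∀ᶠ L : ℝ in atTop, 20 * L ^ c ≤ L := by
    have h := (tendsto_rpow_atTop (by linarith : 0 < 1 - c)).eventually_ge_atTop (20 : ℝ)
    filter_upwards [h, eventually_ge_atTop (1 : ℝ)] with L h1 h2
    have hL : (0 : ℝ) < L := by linarith
    have h3 : L = L ^ (1 - c) * L ^ c := by
      rw [← Real.rpow_add hL]
      norm_num
    have h4 : 20 * L ^ c ≤ L ^ (1 - c) * L ^ c :=
      mul_le_mul_of_nonneg_right h1 (Real.rpow_nonneg hL.le _)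
    exact h4.trans h3.symm.le
  have hev : ∀ᶠ U : ℝ in atTop, 1 < U ∧ U₁ ≤ U ∧ 1 ≤ Real.log U ∧
      10 * Real.log (Real.log U) ≤ Real.log U ∧ 20 * Real.log U ^ c ≤ Real.log U ∧
      4 / c ≤ AA c U ∧ 2 ≤ U ^ (c / 20) := by
    filter_upwards [eventually_gt_atTop (1 : ℝ), eventually_ge_atTop U₁,
      Real.tendsto_log_atTop.eventually_ge_atTop 1,
      Real.tendsto_log_atTop.eventually hlog10,
      Real.tendsto_log_atTop.eventually hpow,
      hAA.eventually_ge_atTop (4 / c),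
      (tendsto_rpow_atTop (by positivity : 0 < c / 20)).eventually_ge_atTop 2]
      with U h1 h2 h3 h4 h5 h6 h7
    exact ⟨h1, h2, h3, h4, h5, h6, h7⟩
  obtain ⟨U₀, hU₀⟩ := eventually_atTop.1 hev
  refine ⟨U₀, (hU₀ U₀ le_rfl).1, fun U hU γ s hγ hγ2 hs => ?_⟩
  obtain ⟨hU1, hUU₁, hL1, hL10, hL20, hA4, ht⟩ := hU₀ U hU
  have hUpos : 0 < U := by linarith
  set L := Real.log U with hLdef
  have hLpos : 0 < L := by linarith
  set A := AA c U with hAdef
  have hAL : L ^ c = A := rfl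
  rw [hAL] at hL20
  have hApos : 0 < A := lt_of_lt_of_le (by positivity) hA4
  have hcA : 4 ≤ c * A := by
    rw [div_le_iff₀ hc0] at hA4
    linarith
  have hA1 : 1 ≤ A := by
    have : c * A ≤ 1 / 2 * A := mul_le_mul_of_nonneg_right hc1.le hApos.le
    linarith
  have hLr : L ^ (1 + c) = L * A := by
    rw [Real.rpow_add hLpos, Real.rpow_one]
    rfl
  have hG : G c U = Real.exp (A * L) := by
    unfold G
    rw [← hLdef, hLr, mul_comm]
  have hUs : ∀ t : ℝ, U ^ t = Real.exp (t * L) := by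
    intro t
    rw [Real.rpow_def_of_pos hUpos, ← hLdef, mul_comm]
  have hγpos : 0 < |γ| := by
    have h1 : 0 < |γ| * G c U := by
      rw [hγ]
      exact Real.rpow_pos_of_pos hUpos _
    have h2 : 0 < G c U := by
      rw [hG]
      exact Real.exp_pos _
    exact (mul_pos_iff_of_pos_right h2).1 h1
  have hγlog : Real.log |γ| + A * L = s * L := by
    have h1 := congrArg Real.log hγ
    rw [hG, hUs, Real.log_mul hγpos.ne' (Real.exp_pos _).ne', Real.log_exp, Real.log_exp] at h1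
    exact h1
  have hsA : s ≤ A + 1 := by
    have h1 : Real.log |γ| ≤ 10 * Real.log L := by
      have h2 := Real.log_le_log hγpos hγ2
      rw [Real.log_pow] at h2
      exact_mod_cast h2
    have h3 : s * L ≤ (A + 1) * L := by linarith
    exact le_of_mul_le_mul_right h3 hLpos
  have hspos : 0 < s := lt_of_lt_of_le (by positivity) hs
  have hcs : 80 ≤ c * s := by
    rw [div_le_iff₀ hc0] at hs
    linarith
  -- `Y`
  set Y : ℝ := (⌊U ^ (c / 10)⌋₊ : ℝ) with hY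
  have hY1 : U ^ (c / 20) ≤ Y := by
    have h1 : U ^ (c / 10) - 1 < Y := Nat.sub_one_lt_floor _
    have h2 : U ^ (c / 10) = U ^ (c / 20) * U ^ (c / 20) := by
      rw [← Real.rpow_add hUpos]
      congr 1
      ring
    have h3 : 2 * U ^ (c / 20) ≤ U ^ (c / 20) * U ^ (c / 20) :=
      mul_le_mul_of_nonneg_right ht (by linarith)
    linarith
  have hY2 : Y ≤ U ^ (c / 10) := Nat.floor_le (Real.rpow_nonneg hUpos.le _)
  have hYpos : 0 < Y := lt_of_lt_of_le (Real.rpow_pos_of_pos hUpos _) hY1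
  refine ⟨by linarith, hY1, fun x hx => ?_⟩
  set κ := Real.log Y / L with hκ
  have hly : Real.log Y = κ * L := by rw [hκ]; field_simp
  have hκ1 : c / 20 ≤ κ := by
    rw [hκ, le_div_iff₀ hLpos]
    have := Real.log_le_log (Real.rpow_pos_of_pos hUpos _) hY1
    rwa [Real.log_rpow hUpos] at this
  have hκ2 : κ ≤ c / 10 := by
    rw [hκ, div_le_iff₀ hLpos]
    have := Real.log_le_log hYpos hY2
    rwa [Real.log_rpow hUpos] at this
  have hκpos : 0 < κ := lt_of_lt_of_le (by positivity) hκ1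
  have hsκ4 : 4 ≤ s * κ := by
    have : s * (c / 20) ≤ s * κ := mul_le_mul_of_nonneg_left hκ1 hspos.le
    linarith
  have hks : s * (1 + 5 * κ / 4) ≤ ((⌈3 * s⌉₊ + 2 : ℕ) : ℝ) := by
    have h1 : 3 * s ≤ (⌈3 * s⌉₊ : ℝ) := Nat.le_ceil _
    push_cast
    have h3 : s * κ ≤ s * 1 := mul_le_mul_of_nonneg_left (by linarith) hspos.le
    linarith
  refine ⟨(Finset.univ : Finset (Fin (⌈3 * s⌉₊ + 2))).filter
      (fun j => s * (1 + 3 * κ / 4) ≤ ((j.1 : ℝ) + 1) ∧ ((j.1 : ℝ) + 1) ≤ s * (1 + 5 * κ / 4)),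
      ?_, ?_⟩
  · refine le_trans ?_ (uga_count hspos hκpos hsκ4 hks)
    have : c / 80 * s ^ 2 = s * (s * (c / 20) / 4) := by ring
    rw [this]
    refine mul_le_mul_of_nonneg_left ?_ hspos.le
    have : s * (c / 20) ≤ s * κ := mul_le_mul_of_nonneg_left hκ1 hspos.le
    linarith
  · intro j hj
    rw [Finset.mem_filter] at hj
    obtain ⟨-, hj1, hj2⟩ := hj
    set l : ℕ := j.1 + 1 with hl
    have hlr : (j.1 : ℝ) + 1 = (l : ℝ) := by rw [hl]; push_cast; ring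
    rw [hlr] at hj1 hj2 ⊢
    have hlA : (l : ℝ) ≤ (1 + c / 2) * A := by
      have h1 : s * (1 + 5 * κ / 4) ≤ (A + 1) * (1 + c / 8) := by
        refine mul_le_mul hsA (by linarith) (by positivity) (by positivity)
      have h2 : (A + 1) * (1 + c / 8) = A + c * A / 8 + 1 + c / 8 := by ring
      have h3 : (1 + c / 2) * A = A + c * A / 2 := by ring
      linarith
    obtain ⟨hlow, hupp⟩ := hco U hUU₁ x hx l hlA
    have hprod : |γ| * (G c U * U ^ (-(l : ℝ))) = Real.exp ((s - l) * L) := by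
      rw [← mul_assoc, hγ, ← Real.rpow_add hUpos, hUs]
      congr 1
    have hD0 : 0 ≤ iteratedDeriv l (G c) x / (l.factorial : ℝ) := by
      refine le_trans ?_ hlow
      rw [hG]
      have := Real.rpow_nonneg hUpos.le (-(l : ℝ))
      positivity
    have habs : |γ * iteratedDeriv l (G c) x / (l.factorial : ℝ)| =
        |γ| * (iteratedDeriv l (G c) x / (l.factorial : ℝ)) := by
      rw [mul_div_assoc, abs_mul, abs_of_nonneg hD0]
    rw [habs]
    constructor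
    · have h1 : |γ| * (Real.exp (-(10 * A)) * (G c U * U ^ (-(l : ℝ)))) ≤
          |γ| * (iteratedDeriv l (G c) x / (l.factorial : ℝ)) :=
        mul_le_mul_of_nonneg_left hlow hγpos.le
      refine le_trans ?_ h1
      have e0 : |γ| * (Real.exp (-(10 * A)) * (G c U * U ^ (-(l : ℝ)))) =
          Real.exp (-(10 * A)) * (|γ| * (G c U * U ^ (-(l : ℝ)))) := by ring
      rw [e0, hprod, ← Real.exp_add, Real.rpow_def_of_pos hYpos]
      refine Real.exp_le_exp.2 ?_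
      rw [hly]
      have h2 : (l : ℝ) * (1 - 3 * κ / 2) ≤ s * (1 + 5 * κ / 4) * (1 - 3 * κ / 2) :=
        mul_le_mul_of_nonneg_right hj2 (by linarith)
      have h3 : s * (1 + 5 * κ / 4) * (1 - 3 * κ / 2) ≤ s * (1 - κ / 4) := by
        have : 0 ≤ s * (15 * κ ^ 2 / 8) := by positivity
        linarith
      have h4 := mul_le_mul_of_nonneg_right (h2.trans h3) hLpos.le
      have h5 : 4 * L ≤ s * κ * L := mul_le_mul_of_nonneg_right hsκ4 hLpos.le
      have e1 : κ * L * -(3 * (l : ℝ) / 2) = (l : ℝ) * (1 - 3 * κ / 2) * L - l * L := by ring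
      rw [e1]
      have e2 : s * (1 - κ / 4) * L = s * L - s * κ * L / 4 := by ring
      have e3 : (s - (l : ℝ)) * L = s * L - l * L := by ring
      rw [e2] at h4
      rw [e3]
      linarith
    · have h1 : |γ| * (iteratedDeriv l (G c) x / (l.factorial : ℝ)) ≤
          |γ| * (Real.exp (10 * A) * (G c U * U ^ (-(l : ℝ)))) :=
        mul_le_mul_of_nonneg_left hupp hγpos.le
      refine le_trans h1 ?_
      have e0 : |γ| * (Real.exp (10 * A) * (G c U * U ^ (-(l : ℝ)))) =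
          Real.exp (10 * A) * (|γ| * (G c U * U ^ (-(l : ℝ)))) := by ring
      rw [e0, hprod, ← Real.exp_add, Real.rpow_def_of_pos hYpos]
      refine Real.exp_le_exp.2 ?_
      rw [hly]
      have h2 : s * (1 + 3 * κ / 4) * (1 - κ / 2) ≤ (l : ℝ) * (1 - κ / 2) :=
        mul_le_mul_of_nonneg_right hj1 (by linarith)
      have h3 : s * (1 + κ / 8) ≤ s * (1 + 3 * κ / 4) * (1 - κ / 2) := by
        have h4 : 0 ≤ s * (κ * (1 / 3 - κ)) := by
          have : 0 ≤ 1 / 3 - κ := by linarith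
          positivity
        linarith
      have h4 := mul_le_mul_of_nonneg_right (h3.trans h2) hLpos.le
      have h5 : 4 * L ≤ s * κ * L := mul_le_mul_of_nonneg_right hsκ4 hLpos.le
      have e1 : κ * L * -((l : ℝ) / 2) = (l : ℝ) * (1 - κ / 2) * L - l * L := by ring
      rw [e1]
      have e2 : s * (1 + κ / 8) * L = s * L + s * κ * L / 8 := by ring
      have e3 : (s - (l : ℝ)) * L = s * L - l * L := by ring
      rw [e2] at h4
      rw [e3]
      linarith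

end Pool.Agent.VINO
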