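import Pool.Agent.VMV.BilA

/-!
# VINO / UPsi: smoothing of `t ↦ e (-θ fract t)`

PROOF.  `dist t = |t - round t|` is `1`-periodic and `1`-Lipschitz. `w t = min 1 (dist t / δ)`, `b t = 1 - w t`,
`φ t = w t * e (-θ * fract t)`. `b` is `1/δ`-Lipschitz, `0 ≤ b ≤ 1`, `∫_0^1 b = δ` (two triangles). `φ` is `1`-periodic,
`‖φ‖ ≤ 1`, `‖e(-θ fract t) - φ t‖ = b t`. Lipschitz: on `[m, m+1]` (`m` an integer) `e(-θ fract t)` agrees on `[m, m+1)` with a
`π`-Lipschitz function (`|θ| ≤ 1/2`), and `w` vanishes at the integers, so `φ` is Lipschitz on `[m, m+1]` with the constant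
`1/δ + π ≤ 4/δ`; `φ` vanishes at the integers, so for `s < t` in different intervals insert an integer between
them.
-/

set_option autoImplicit false

namespace Pool.Agent.VINO

open Pool.Agent.VMV

/-- The distance to the nearest integer. -/
private noncomputable def dsi (t : ℝ) : ℝ := |t - round t|

/-- The cut off function. -/
private noncomputable def wsi (δ t : ℝ) : ℝ := min 1 (dsi t / δ)

private theorem dsi_nonneg (t : ℝ) : 0 ≤ dsi t := abs_nonneg _

private theorem dsi_add_one (t : ℝ) : dsi (t + 1) = dsi t := by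
  unfold dsi
  rw [round_add_one]
  push_cast
  congr 1
  ring

private theorem dsi_int (m : ℤ) : dsi (m : ℝ) = 0 := by
  unfold dsi
  rw [round_intCast, sub_self, abs_zero]

private theorem dsi_le (s t : ℝ) : dsi s ≤ dsi t + |s - t| := by
  unfold dsi
  calc |s - round s| ≤ |s - round t| := round_le s (round t)
    _ = |(t - round t) + (s - t)| := by congr 1; ring
    _ ≤ _ := abs_add_le _ _

private theorem dsi_lip (s t : ℝ) : |dsi s - dsi t| ≤ |s - t| := by
  rw [abs_le]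
  have h1 := dsi_le s t
  have h2 := dsi_le t s
  rw [abs_sub_comm t s] at h2
  constructor <;> linarith

private theorem wsi_nonneg (δ t : ℝ) (hδ : 0 < δ) : 0 ≤ wsi δ t :=
  le_min zero_le_one (div_nonneg (dsi_nonneg t) hδ.le)

private theorem wsi_le_one (δ t : ℝ) : wsi δ t ≤ 1 := min_le_left _ _

private theorem wsi_le (δ s t : ℝ) (hδ : 0 < δ) : wsi δ s ≤ wsi δ t + 1 / δ * |s - t| := by
  unfold wsi
  have h1 : 0 ≤ 1 / δ * |s - t| := by positivity
  have h2 : dsi s / δ ≤ dsi t / δ + 1 / δ * |s - t| := by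
    have := div_le_div_of_nonneg_right (dsi_le s t) hδ.le
    calc dsi s / δ ≤ (dsi t + |s - t|) / δ := this
      _ = _ := by ring
  rcases le_total 1 (dsi t / δ) with h | h
  · rw [min_eq_left h]
    exact (min_le_left _ _).trans (by linarith)
  · rw [min_eq_right h]
    exact (min_le_right _ _).trans h2

private theorem wsi_lip (δ s t : ℝ) (hδ : 0 < δ) : |wsi δ s - wsi δ t| ≤ 1 / δ * |s - t| := by
  rw [abs_le]
  have h1 := wsi_le δ s t hδ
  have h2 := wsi_le δ t s hδ
  rw [abs_sub_comm t s] at h2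
  constructor <;> linarith

private theorem wsi_int (δ : ℝ) (m : ℤ) : wsi δ (m : ℝ) = 0 := by
  unfold wsi
  rw [dsi_int, zero_div]
  exact min_eq_right zero_le_one

private theorem wsi_add_one (δ t : ℝ) : wsi δ (t + 1) = wsi δ t := by
  unfold wsi
  rw [dsi_add_one]

private theorem e_lip (a b : ℝ) : ‖e a - e b‖ ≤ 2 * Real.pi * |a - b| := by
  have h1 : e a = e b * e (a - b) := by
    rw [← e_add]
    congr 1
    ring
  have h2 : ‖e (a - b) - 1‖ ≤ 2 * Real.pi * |a - b| := by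
    have h3 := Real.norm_exp_I_mul_ofReal_sub_one_le (x := 2 * Real.pi * (a - b))
    have h4 : e (a - b) = Complex.exp (Complex.I * ((2 * Real.pi * (a - b) : ℝ) : ℂ)) := by
      unfold e
      congr 1
      push_cast
      ring
    rw [h4]
    refine h3.trans (le_of_eq ?_)
    rw [Real.norm_eq_abs, abs_mul, abs_of_pos Real.two_pi_pos]
  calc ‖e a - e b‖ = ‖e b * (e (a - b) - 1)‖ := by
        rw [mul_sub, mul_one, ← h1]
    _ = ‖e (a - b) - 1‖ := by rw [norm_mul, norm_e, one_mul]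
    _ ≤ _ := h2

private theorem phi_lip (θ δ s t : ℝ) (hθ : |θ| ≤ 1 / 2) (hδ0 : 0 < δ) (hδ1 : δ ≤ 1 / 4)
    (hst : s ≤ t) :
    ‖(wsi δ s : ℂ) * e (-θ * Int.fract s) - (wsi δ t : ℂ) * e (-θ * Int.fract t)‖ ≤
      4 / δ * |s - t| := by
  have hw := wsi_lip δ s t hδ0
  have hwt := wsi_le_one δ t
  have hwt0 := wsi_nonneg δ t hδ0
  have hws0 := wsi_nonneg δ s hδ0
  have hab : 0 ≤ |s - t| := abs_nonneg _
  have h4 : 4 / δ = 4 * (1 / δ) := by ring
  have hδ4 : 4 ≤ 1 / δ := by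
    rw [le_div_iff₀ hδ0]
    linarith
  rcases eq_or_ne ⌊s⌋ ⌊t⌋ with hfl | hfl
  · have hfr : Int.fract s - Int.fract t = s - t := by
      unfold Int.fract
      rw [hfl]
      ring
    have h1 : (wsi δ s : ℂ) * e (-θ * Int.fract s) - (wsi δ t : ℂ) * e (-θ * Int.fract t) =
        ((wsi δ s - wsi δ t : ℝ) : ℂ) * e (-θ * Int.fract s) +
          (wsi δ t : ℂ) * (e (-θ * Int.fract s) - e (-θ * Int.fract t)) := by
      push_cast
      ring
    rw [h1]
    refine (norm_add_le _ _).trans ?_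
    rw [norm_mul, norm_mul, norm_e, Complex.norm_real, Complex.norm_real, Real.norm_eq_abs,
      Real.norm_eq_abs, abs_of_nonneg hwt0, mul_one]
    have h2 := e_lip (-θ * Int.fract s) (-θ * Int.fract t)
    have h3 : |(-θ * Int.fract s) - (-θ * Int.fract t)| ≤ 1 / 2 * |s - t| := by
      rw [← mul_sub, hfr, abs_mul, abs_neg]
      exact mul_le_mul_of_nonneg_right hθ hab
    have h5 : ‖e (-θ * Int.fract s) - e (-θ * Int.fract t)‖ ≤ 4 * |s - t| := by
      refine h2.trans ?_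
      have hpi := Real.pi_le_four
      have hpi0 := Real.pi_pos
      calc 2 * Real.pi * |(-θ * Int.fract s) - (-θ * Int.fract t)| ≤
            2 * Real.pi * (1 / 2 * |s - t|) :=
            mul_le_mul_of_nonneg_left h3 (by positivity)
        _ = Real.pi * |s - t| := by ring
        _ ≤ 4 * |s - t| := mul_le_mul_of_nonneg_right hpi hab
    have h6 : wsi δ t * ‖e (-θ * Int.fract s) - e (-θ * Int.fract t)‖ ≤ 4 * |s - t| := by
      calc wsi δ t * ‖e (-θ * Int.fract s) - e (-θ * Int.fract t)‖ ≤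
            1 * ‖e (-θ * Int.fract s) - e (-θ * Int.fract t)‖ :=
            mul_le_mul_of_nonneg_right hwt (norm_nonneg _)
        _ ≤ _ := by rw [one_mul]; exact h5
    rw [h4]
    nlinarith [mul_le_mul_of_nonneg_right hδ4 hab]
  · have hlt : ⌊s⌋ < ⌊t⌋ := lt_of_le_of_ne (Int.floor_mono hst) hfl
    have hsm : s ≤ (⌊t⌋ : ℝ) := (Int.floor_lt.1 hlt).le
    have hmt : (⌊t⌋ : ℝ) ≤ t := Int.floor_le t
    refine (norm_sub_le _ _).trans ?_
    rw [norm_mul, norm_mul, norm_e, norm_e, Complex.norm_real, Complex.norm_real, Real.norm_eq_abs,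
      Real.norm_eq_abs, abs_of_nonneg hwt0, abs_of_nonneg hws0, mul_one, mul_one]
    have h1 := wsi_le δ s ⌊t⌋ hδ0
    have h2 := wsi_le δ t ⌊t⌋ hδ0
    rw [wsi_int, zero_add] at h1 h2
    rw [abs_of_nonpos (by linarith : s - (⌊t⌋ : ℝ) ≤ 0)] at h1
    rw [abs_of_nonneg (by linarith : 0 ≤ t - (⌊t⌋ : ℝ))] at h2
    rw [h4, abs_of_nonpos (by linarith : s - t ≤ 0)]
    have h3 : 0 ≤ 1 / δ * (t - s) := mul_nonneg (by positivity) (by linarith)
    nlinarith

private theorem dsi_eq (t : ℝ) (h0 : 0 ≤ t) (h1 : t ≤ 1) : dsi t = min t (1 - t) := by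
  unfold dsi
  rcases eq_or_lt_of_le h1 with h | h
  · rw [h]
    have : (1 : ℝ) = ((1 : ℤ) : ℝ) := by norm_num
    rw [this, round_intCast]
    norm_num
  · rw [abs_sub_round_eq_min, Int.fract_eq_self.2 ⟨h0, h⟩]

private theorem wsi_cont (δ : ℝ) (hδ : 0 < δ) : Continuous (wsi δ) := by
  have h : LipschitzWith (Real.toNNReal (1 / δ)) (wsi δ) := by
    refine LipschitzWith.of_dist_le_mul fun s t => ?_
    rw [Real.dist_eq, Real.dist_eq, Real.coe_toNNReal _ (by positivity)]
    exact wsi_lip δ s t hδ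
  exact h.continuous

private theorem int_b (δ : ℝ) (hδ0 : 0 < δ) (hδ1 : δ ≤ 1 / 4) :
    ∫ t in (0 : ℝ)..1, (1 - wsi δ t) = δ := by
  have hc : Continuous fun t => 1 - wsi δ t := continuous_const.sub (wsi_cont δ hδ0)
  have hi : ∀ a b : ℝ, IntervalIntegrable (fun t => 1 - wsi δ t) MeasureTheory.volume a b :=
    fun a b => hc.intervalIntegrable a b
  rw [← intervalIntegral.integral_add_adjacent_intervals (hi 0 δ) (hi δ 1),
    ← intervalIntegral.integral_add_adjacent_intervals (hi δ (1 - δ)) (hi (1 - δ) 1)]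
  have h1 : ∫ t in (0 : ℝ)..δ, (1 - wsi δ t) = ∫ t in (0 : ℝ)..δ, (1 - t / δ) := by
    refine intervalIntegral.integral_congr fun t ht => ?_
    rw [Set.uIcc_of_le hδ0.le] at ht
    obtain ⟨ht0, ht1⟩ := ht
    unfold wsi
    rw [dsi_eq t ht0 (by linarith), min_eq_left (by linarith : t ≤ 1 - t), min_eq_right]
    rw [div_le_one hδ0]
    exact ht1
  have h2 : ∫ t in δ..(1 - δ), (1 - wsi δ t) = ∫ t in δ..(1 - δ), (0 : ℝ) := by
    refine intervalIntegral.integral_congr fun t ht => ?_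
    rw [Set.uIcc_of_le (by linarith)] at ht
    obtain ⟨ht0, ht1⟩ := ht
    unfold wsi
    rw [dsi_eq t (by linarith) (by linarith), min_eq_left, sub_self]
    rw [le_div_iff₀ hδ0, one_mul]
    exact le_min ht0 (by linarith)
  have h3 : ∫ t in (1 - δ)..1, (1 - wsi δ t) = ∫ t in (1 - δ)..1, (1 - (1 - t) / δ) := by
    refine intervalIntegral.integral_congr fun t ht => ?_
    rw [Set.uIcc_of_le (by linarith)] at ht
    obtain ⟨ht0, ht1⟩ := ht
    unfold wsi
    rw [dsi_eq t (by linarith) ht1, min_eq_right (by linarith : 1 - t ≤ t), min_eq_right]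
    rw [div_le_one hδ0]
    linarith
  rw [h1, h2, h3]
  have h4 : ∫ t in (0 : ℝ)..δ, (1 - t / δ) = δ / 2 := by
    have ha : IntervalIntegrable (fun _ : ℝ => (1 : ℝ)) MeasureTheory.volume 0 δ :=
      continuous_const.intervalIntegrable _ _
    have hb : IntervalIntegrable (fun t : ℝ => t / δ) MeasureTheory.volume 0 δ :=
      (continuous_id.div_const δ).intervalIntegrable _ _
    rw [intervalIntegral.integral_sub ha hb, intervalIntegral.integral_div, integral_id,
      intervalIntegral.integral_const, smul_eq_mul, mul_one, sub_zero]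
    field_simp
    ring
  have h5 : ∫ t in (1 - δ)..1, (1 - (1 - t) / δ) = δ / 2 := by
    have h6 := intervalIntegral.integral_comp_sub_left (a := 1 - δ) (b := 1)
      (fun u : ℝ => 1 - u / δ) 1
    rw [h6, sub_self, sub_sub_cancel]
    exact h4
  rw [h4, h5, intervalIntegral.integral_zero]
  ring

theorem upsi (θ δ : ℝ) (hθ : |θ| ≤ 1 / 2) (hδ0 : 0 < δ) (hδ1 : δ ≤ 1 / 4) :
    ∃ (φ : ℝ → ℂ) (b : ℝ → ℝ), (∀ t, φ (t + 1) = φ t) ∧ (∀ t, ‖φ t‖ ≤ 1) ∧
      (∀ s t, ‖φ s - φ t‖ ≤ 4 / δ * |s - t|) ∧ (∀ t, b (t + 1) = b t) ∧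
      (∀ t, 0 ≤ b t ∧ b t ≤ 1) ∧ (∀ s t, |b s - b t| ≤ 1 / δ * |s - t|) ∧
      ∫ t in (0 : ℝ)..1, b t = δ ∧ ∀ t, ‖e (-θ * Int.fract t) - φ t‖ ≤ b t := by
  refine ⟨fun t => (wsi δ t : ℂ) * e (-θ * Int.fract t), fun t => 1 - wsi δ t, fun t => ?_,
    fun t => ?_, fun s t => ?_, fun t => ?_, fun t => ?_, fun s t => ?_, int_b δ hδ0 hδ1,
    fun t => ?_⟩
  · simp only
    rw [wsi_add_one, Int.fract_add_one]
  · simp only
    rw [norm_mul, norm_e, Complex.norm_real, Real.norm_eq_abs,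
      abs_of_nonneg (wsi_nonneg δ t hδ0), mul_one]
    exact wsi_le_one δ t
  · rcases le_total s t with h | h
    · exact phi_lip θ δ s t hθ hδ0 hδ1 h
    · rw [norm_sub_rev, abs_sub_comm]
      exact phi_lip θ δ t s hθ hδ0 hδ1 h
  · simp only
    rw [wsi_add_one]
  · have h1 := wsi_nonneg δ t hδ0
    have h2 := wsi_le_one δ t
    simp only
    constructor <;> linarith
  · simp only
    rw [sub_sub_sub_cancel_left, abs_sub_comm]
    exact wsi_lip δ s t hδ0
  · simp only
    have h1 : e (-θ * Int.fract t) - (wsi δ t : ℂ) * e (-θ * Int.fract t) =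
        ((1 - wsi δ t : ℝ) : ℂ) * e (-θ * Int.fract t) := by
      push_cast
      ring
    rw [h1, norm_mul, norm_e, mul_one, Complex.norm_real, Real.norm_eq_abs, abs_of_nonneg]
    have h2 := wsi_le_one δ t
    linarith

end Pool.Agent.VINO
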