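import Pool.Agent.VINO.UCmp
import Pool.Agent.VINO.Fej
import Pool.Agent.VINO.UPsi

/-!
# VINO / UMulA: the block comparison for `e (θ ⌊G⌋)`

PROOF.  `L = log U`, `δ = L^(-2)`, `K = ⌈L^8⌉`. `e (θ ⌊t⌋) = e (θ t) e (-θ fract t)` (`t ≥ 0`, `⌊t⌋₊ = t - fract t`). `upsi` gives
`φ`, `b`; `fejer` gives `φ t = ∑_{|k| ≤ K} c_k e(k t) + O(2 (4/δ)/√K) `, the error is at most `8 L^2 / L^4 = 8/L^2`, and
`b t = ∑_{|k| ≤ K} b_k e(k t) + O(2 L^(-2))`, `b_0 = δ = L^(-2)`. Hence with `g = G c n` (or `G c x`):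
`e(θ ⌊g⌋) = ∑_k c_k e((θ + k) g) + O(b(g) + 8/L^2)`. Sum over `n ∈ (U, V]`, integrate over `x ∈ [U, V]`, subtract:
the main terms differ by at most `∑_{|k| ≤ K} (3 U / L^20) ≤ (2K+1) 3U/L^20` (`ucmp`; `|θ + k| ≤ K + 1/2 ≤ L^10`).
`∑_{n} b(G n) ≤ (V - U)(δ + 2/L^2) + ∑_{0<|k|≤K} ‖∑_n e(k G n)‖ ≤ 3 U/L^2 + 2K (3U/L^20)` (`ubig_gamma`), the same for the
integral. Everything is `≤ 30 U / L^2` for large `U`.
(Measurability/integrability of `x ↦ e (θ ⌊G c x⌋₊)` on `[U, V]`: bounded and measurable.)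
-/

set_option autoImplicit false

namespace Pool.Agent.VINO

open Pool.Agent.VMV

open MeasureTheory

theorem umul_cont_e : Continuous e := by
  unfold e
  fun_prop

theorem umul_meas_G (c : ℝ) : Measurable (G c) := by
  unfold G
  exact Real.measurable_exp.comp (Real.measurable_log.pow_const _)

/-- The pointwise approximation. -/
theorem umul_pt (θ : ℝ) (φ : ℝ → ℂ) (b : ℝ → ℝ) (hφ : ∀ t, ‖e (-θ * Int.fract t) - φ t‖ ≤ b t)
    (K : ℕ) (cc : ℤ → ℂ) (ε : ℝ)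
    (hcc : ∀ t, ‖φ t - ∑ k ∈ Finset.Icc (-(K : ℤ)) K, cc k * e (k * t)‖ ≤ ε) (t : ℝ)
    (ht : 0 ≤ t) :
    ‖e (θ * (⌊t⌋₊ : ℝ)) - ∑ k ∈ Finset.Icc (-(K : ℤ)) K, cc k * e ((θ + k) * t)‖ ≤ b t + ε := by
  have h1 : (⌊t⌋₊ : ℝ) = t - Int.fract t := by
    rw [Int.self_sub_fract]
    exact natCast_floor_eq_intCast_floor ht
  have h2 : e (θ * (⌊t⌋₊ : ℝ)) = e (θ * t) * e (-θ * Int.fract t) := by
    rw [← e_add, h1]
    congr 1
    ring
  have h3 : ∑ k ∈ Finset.Icc (-(K : ℤ)) K, cc k * e ((θ + k) * t) =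
      e (θ * t) * ∑ k ∈ Finset.Icc (-(K : ℤ)) K, cc k * e (k * t) := by
    rw [Finset.mul_sum]
    refine Finset.sum_congr rfl fun k _ => ?_
    rw [add_mul, e_add]
    ring
  rw [h2, h3, ← mul_sub, norm_mul, norm_e, one_mul]
  have h4 : e (-θ * Int.fract t) - ∑ k ∈ Finset.Icc (-(K : ℤ)) K, cc k * e (k * t) =
      (e (-θ * Int.fract t) - φ t) + (φ t - ∑ k ∈ Finset.Icc (-(K : ℤ)) K, cc k * e (k * t)) := by
    ring
  rw [h4]
  exact (norm_add_le _ _).trans (add_le_add (hφ t) (hcc t))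

/-- The approximation in the mean, for a finite measure. -/
theorem umul_meas {Ω : Type} [MeasurableSpace Ω] (μ : Measure Ω) [IsFiniteMeasure μ] (g : Ω → ℝ)
    (hg : Measurable g) (hg0 : ∀ x, 0 ≤ g x) (θ : ℝ) (φ : ℝ → ℂ) (b : ℝ → ℝ) (hbc : Continuous b)
    (hb0 : ∀ t, 0 ≤ b t) (hb1 : ∀ t, b t ≤ 1)
    (hφ : ∀ t, ‖e (-θ * Int.fract t) - φ t‖ ≤ b t) (K : ℕ) (cc bb : ℤ → ℂ) (ε ε' δ : ℝ)
    (hδ : 0 ≤ δ)
    (hcc : ∀ t, ‖φ t - ∑ k ∈ Finset.Icc (-(K : ℤ)) K, cc k * e (k * t)‖ ≤ ε)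
    (hbb : ∀ t, ‖(b t : ℂ) - ∑ k ∈ Finset.Icc (-(K : ℤ)) K, bb k * e (k * t)‖ ≤ ε')
    (hbb0 : bb 0 = δ) (hbb1 : ∀ k, ‖bb k‖ ≤ 1) (B : ℝ)
    (hB : ∀ k ∈ Finset.Icc (-(K : ℤ)) K, k ≠ 0 → ‖∫ x, e (k * g x) ∂μ‖ ≤ B) :
    ‖∫ x, e (θ * (⌊g x⌋₊ : ℝ)) ∂μ - ∑ k ∈ Finset.Icc (-(K : ℤ)) K,
      cc k * ∫ x, e ((θ + k) * g x) ∂μ‖ ≤ (δ + ε + ε') * μ.real Set.univ + 2 * K * B := by
  have hint : ∀ γ : ℝ, Integrable (fun x => e (γ * g x)) μ := by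
    intro γ
    refine Integrable.of_bound (C := 1) ?_ (Filter.Eventually.of_forall fun x => (norm_e _).le)
    exact (umul_cont_e.measurable.comp (hg.const_mul γ)).aestronglyMeasurable
  have hfl : Integrable (fun x => e (θ * (⌊g x⌋₊ : ℝ))) μ := by
    refine Integrable.of_bound (C := 1) ?_ (Filter.Eventually.of_forall fun x => (norm_e _).le)
    have h1 : Measurable fun x => (⌊g x⌋₊ : ℝ) :=
      (measurable_from_top (f := fun n : ℕ => (n : ℝ))).comp (Nat.measurable_floor.comp hg)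
    exact (umul_cont_e.measurable.comp (h1.const_mul θ)).aestronglyMeasurable
  have hbi : Integrable (fun x => b (g x)) μ := by
    refine Integrable.of_bound (C := 1) ?_ (Filter.Eventually.of_forall fun x => ?_)
    · exact (hbc.measurable.comp hg).aestronglyMeasurable
    · rw [Real.norm_eq_abs, abs_of_nonneg (hb0 _)]
      exact hb1 _
  have hswap : ∀ (cc : ℤ → ℂ) (θ : ℝ), ∑ k ∈ Finset.Icc (-(K : ℤ)) K,
      cc k * ∫ x, e ((θ + k) * g x) ∂μ = ∫ x, ∑ k ∈ Finset.Icc (-(K : ℤ)) K,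
        cc k * e ((θ + k) * g x) ∂μ := by
    intro cc θ
    rw [integral_finsetSum _ fun (k : ℤ) _ => (hint (θ + k)).const_mul (cc k)]
    refine Finset.sum_congr rfl fun k _ => ?_
    rw [integral_const_mul]
  have hsint : ∀ (cc : ℤ → ℂ) (θ : ℝ), Integrable (fun x => ∑ k ∈ Finset.Icc (-(K : ℤ)) K,
      cc k * e ((θ + k) * g x)) μ :=
    fun cc θ => integrable_finsetSum _ fun (k : ℤ) _ => (hint (θ + k)).const_mul (cc k)
  -- first step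
  have h1 : ‖∫ x, e (θ * (⌊g x⌋₊ : ℝ)) ∂μ - ∑ k ∈ Finset.Icc (-(K : ℤ)) K,
      cc k * ∫ x, e ((θ + k) * g x) ∂μ‖ ≤ ∫ x, (b (g x) + ε) ∂μ := by
    rw [hswap, ← integral_sub hfl (hsint cc θ)]
    refine norm_integral_le_of_norm_le (hbi.add (integrable_const ε))
      (Filter.Eventually.of_forall fun x => ?_)
    exact umul_pt θ φ b hφ K cc ε hcc (g x) (hg0 x)
  have h2 : ∫ x, (b (g x) + ε) ∂μ = ∫ x, b (g x) ∂μ + ε * μ.real Set.univ := by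
    rw [integral_add hbi (integrable_const ε), integral_const, smul_eq_mul, mul_comm ε]
  -- second step
  have h3 : ‖∫ x, (b (g x) : ℂ) ∂μ - ∑ k ∈ Finset.Icc (-(K : ℤ)) K,
      bb k * ∫ x, e ((0 + k) * g x) ∂μ‖ ≤ ε' * μ.real Set.univ := by
    have hbi' : Integrable (fun x => (b (g x) : ℂ)) μ := hbi.ofReal
    rw [hswap, ← integral_sub hbi' (hsint bb 0)]
    refine norm_integral_le_of_norm_le_const (Filter.Eventually.of_forall fun x => ?_)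
    have := hbb (g x)
    simpa using this
  have h4 : ‖∑ k ∈ Finset.Icc (-(K : ℤ)) K, bb k * ∫ x, e ((0 + k) * g x) ∂μ‖ ≤
      δ * μ.real Set.univ + 2 * K * B := by
    have h0mem : (0 : ℤ) ∈ Finset.Icc (-(K : ℤ)) K := by
      rw [Finset.mem_Icc]
      omega
    rw [← Finset.add_sum_erase _ _ h0mem]
    have hcard : ((Finset.Icc (-(K : ℤ)) K).erase 0).card = 2 * K := by
      rw [Finset.card_erase_of_mem h0mem, Int.card_Icc]
      omega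
    refine (norm_add_le _ _).trans (add_le_add ?_ ?_)
    · rw [norm_mul, hbb0, Complex.norm_real, Real.norm_eq_abs, abs_of_nonneg hδ]
      refine mul_le_mul_of_nonneg_left ?_ hδ
      refine (norm_integral_le_of_norm_le_const (C := 1)
        (Filter.Eventually.of_forall fun x => (norm_e _).le)).trans ?_
      rw [one_mul]
    · refine (norm_sum_le _ _).trans ?_
      refine (Finset.sum_le_card_nsmul _ _ B fun k hk => ?_).trans ?_
      · rw [Finset.mem_erase] at hk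
        rw [norm_mul]
        have h5 := hB k hk.2 hk.1
        rw [zero_add]
        calc ‖bb k‖ * ‖∫ x, e (k * g x) ∂μ‖ ≤ 1 * ‖∫ x, e (k * g x) ∂μ‖ :=
              mul_le_mul_of_nonneg_right (hbb1 k) (norm_nonneg _)
          _ ≤ B := by
            rw [one_mul]
            exact h5
      · rw [hcard, nsmul_eq_mul]
        push_cast
        exact le_rfl
  have h5 : ∫ x, b (g x) ∂μ ≤ ‖∫ x, (b (g x) : ℂ) ∂μ‖ := by
    rw [integral_complex_ofReal, Complex.norm_real]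
    exact Real.le_norm_self _
  have h6 : ‖∫ x, (b (g x) : ℂ) ∂μ‖ ≤ ε' * μ.real Set.univ + (δ * μ.real Set.univ + 2 * K * B) := by
    have h7 : ∫ x, (b (g x) : ℂ) ∂μ = (∫ x, (b (g x) : ℂ) ∂μ - ∑ k ∈ Finset.Icc (-(K : ℤ)) K,
      bb k * ∫ x, e ((0 + k) * g x) ∂μ) + ∑ k ∈ Finset.Icc (-(K : ℤ)) K,
      bb k * ∫ x, e ((0 + k) * g x) ∂μ := by ring
    rw [h7]
    exact (norm_add_le _ _).trans (add_le_add h3 h4)
  calc _ ≤ ∫ x, (b (g x) + ε) ∂μ := h1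
    _ = ∫ x, b (g x) ∂μ + ε * μ.real Set.univ := h2
    _ ≤ (ε' * μ.real Set.univ + (δ * μ.real Set.univ + 2 * K * B)) + ε * μ.real Set.univ := by
      linarith [h5.trans h6]
    _ = _ := by ring

/-- The approximation in the mean, sums. -/
theorem umul_sum (s : Finset ℕ) (g : ℕ → ℝ) (hg0 : ∀ x, 0 ≤ g x) (θ : ℝ) (φ : ℝ → ℂ)
    (b : ℝ → ℝ) (hbc : Continuous b)
    (hb0 : ∀ t, 0 ≤ b t) (hb1 : ∀ t, b t ≤ 1)
    (hφ : ∀ t, ‖e (-θ * Int.fract t) - φ t‖ ≤ b t) (K : ℕ) (cc bb : ℤ → ℂ) (ε ε' δ : ℝ)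
    (hδ : 0 ≤ δ)
    (hcc : ∀ t, ‖φ t - ∑ k ∈ Finset.Icc (-(K : ℤ)) K, cc k * e (k * t)‖ ≤ ε)
    (hbb : ∀ t, ‖(b t : ℂ) - ∑ k ∈ Finset.Icc (-(K : ℤ)) K, bb k * e (k * t)‖ ≤ ε')
    (hbb0 : bb 0 = δ) (hbb1 : ∀ k, ‖bb k‖ ≤ 1) (B : ℝ)
    (hB : ∀ k ∈ Finset.Icc (-(K : ℤ)) K, k ≠ 0 → ‖∑ x ∈ s, e (k * g x)‖ ≤ B) :
    ‖∑ x ∈ s, e (θ * (⌊g x⌋₊ : ℝ)) - ∑ k ∈ Finset.Icc (-(K : ℤ)) K,
      cc k * ∑ x ∈ s, e ((θ + k) * g x)‖ ≤ (δ + ε + ε') * s.card + 2 * K * B := by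
  have hI : ∀ f : ℕ → ℂ, ∫ x : {n // n ∈ s}, f x ∂Measure.count = ∑ x ∈ s, f x := by
    intro f
    rw [integral_count]
    exact Finset.sum_coe_sort s f
  have h := umul_meas (Measure.count : Measure {n // n ∈ s}) (fun x => g x)
    (measurable_of_countable _) (fun x => hg0 x) θ φ b hbc hb0 hb1 hφ K cc bb ε ε' δ hδ hcc hbb hbb0
    hbb1 B (fun k hk hk0 => by
      rw [hI fun x => e (k * g x)]
      exact hB k hk hk0)
  rw [hI fun x => e (θ * (⌊g x⌋₊ : ℝ))] at h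
  have h2 : ∑ k ∈ Finset.Icc (-(K : ℤ)) K, cc k * ∫ x : {n // n ∈ s}, e ((θ + k) * g x) ∂Measure.count =
      ∑ k ∈ Finset.Icc (-(K : ℤ)) K, cc k * ∑ x ∈ s, e ((θ + k) * g x) := by
    refine Finset.sum_congr rfl fun k _ => ?_
    rw [hI fun x => e ((θ + k) * g x)]
  rw [h2] at h
  have h3 : (Measure.count : Measure {n // n ∈ s}).real Set.univ = s.card := by
    rw [Measure.real, Measure.count_univ]
    simp
  rw [h3] at h
  exact h

theorem umulA {c : ℝ} (hc0 : 0 < c) (hc1 : c < 1 / 2) :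
    ∃ U₀ : ℕ, 2 ≤ U₀ ∧ ∀ U V : ℕ, U₀ ≤ U → U ≤ V → V ≤ 2 * U → ∀ θ : ℝ, |θ| ≤ 1 / 2 →
      ‖∑ n ∈ Finset.Ioc U V, e (θ * (a c n : ℝ)) -
        ∫ x in (U : ℝ)..V, e (θ * (⌊G c x⌋₊ : ℝ))‖ ≤ 30 * U / Real.log U ^ 2 := by
  obtain ⟨U₁, hU₁, hcmp⟩ := ucmp hc0 hc1
  obtain ⟨U₂, hU₂, hbig⟩ := ubig_gamma hc0 hc1
  refine ⟨max (max U₁ U₂) 8, by omega, ?_⟩
  intro U V hU hUV hV θ hθ
  have hU1 : U₁ ≤ U := by omega
  have hU2 : U₂ ≤ U := by omega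
  have hU8 : 8 ≤ U := by omega
  obtain ⟨L, hL⟩ : ∃ L : ℝ, L = Real.log U := ⟨_, rfl⟩
  have hL2 : 2 ≤ L := by
    rw [hL]
    have h8 : (8 : ℝ) ≤ U := by exact_mod_cast hU8
    have h1 : Real.log 8 ≤ Real.log U := Real.log_le_log (by norm_num) h8
    have h2 : Real.log 8 = 3 * Real.log 2 := by
      rw [show (8 : ℝ) = 2 ^ 3 by norm_num, Real.log_pow]
      norm_num
    have h3 := Real.log_two_gt_d9
    linarith
  have hL0 : 0 < L := by linarith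
  have hUpos : (0 : ℝ) < U := by exact_mod_cast (by omega : 0 < U)
  -- the parameters
  have hL2sq : (4 : ℝ) ≤ L ^ 2 := by nlinarith
  have hL8 : (256 : ℝ) ≤ L ^ 8 := by
    have : (2 : ℝ) ^ 8 ≤ L ^ 8 := pow_le_pow_left₀ (by norm_num) hL2 8
    linarith
  have hL10 : 4 * L ^ 8 ≤ L ^ 10 := by
    have : L ^ 10 = L ^ 2 * L ^ 8 := by ring
    rw [this]
    exact mul_le_mul_of_nonneg_right hL2sq (by positivity)
  obtain ⟨δ, hδ⟩ : ∃ δ : ℝ, δ = 1 / L ^ 2 := ⟨_, rfl⟩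
  have hδ0 : 0 < δ := by
    rw [hδ]
    positivity
  have hδ1 : δ ≤ 1 / 4 := by
    rw [hδ]
    exact one_div_le_one_div_of_le (by norm_num) hL2sq
  obtain ⟨K, hK⟩ : ∃ K : ℕ, K = ⌈L ^ 8⌉₊ := ⟨_, rfl⟩
  have hKl : L ^ 8 ≤ K := by
    rw [hK]
    exact Nat.le_ceil _
  have hKu : (K : ℝ) ≤ L ^ 8 + 1 := by
    rw [hK]
    exact (Nat.ceil_lt_add_one (by positivity)).le
  have hK1 : 1 ≤ K := by
    have : (1 : ℝ) ≤ K := by linarith
    exact_mod_cast this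
  have hsK : L ^ 4 ≤ Real.sqrt K := by
    apply Real.le_sqrt_of_sq_le
    have h1 : (L ^ 4) ^ 2 = L ^ 8 := by ring
    rw [h1]
    exact hKl
  obtain ⟨φ, b, hφper, hφ1, hφL, hbper, hb01, hbL, hbint, hφb⟩ := upsi θ δ hθ hδ0 hδ1
  obtain ⟨cc, hcc1, -, hcce⟩ := fejer φ hφper hφ1 (4 / δ) hφL K hK1
  obtain ⟨bb, hbb1, hbb0, hbbe⟩ := fejer (fun t => (b t : ℂ)) (fun t => by rw [hbper])
    (fun t => by
      rw [Complex.norm_real, Real.norm_eq_abs, abs_of_nonneg (hb01 t).1]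
      exact (hb01 t).2) (1 / δ) (fun s t => by
      rw [← Complex.ofReal_sub, Complex.norm_real, Real.norm_eq_abs]
      exact hbL s t) K hK1
  have hbb0' : bb 0 = (δ : ℝ) := by
    rw [hbb0, intervalIntegral.integral_ofReal, hbint]
  have hbc : Continuous b := by
    have h1 : LipschitzWith (Real.toNNReal (1 / δ)) b := by
      refine LipschitzWith.of_dist_le_mul fun s t => ?_
      rw [Real.dist_eq, Real.dist_eq, Real.coe_toNNReal _ (by positivity)]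
      exact hbL s t
    exact h1.continuous
  have hε : ∀ A : ℝ, 0 ≤ A → 2 * (A / δ) / Real.sqrt K ≤ 2 * A / L ^ 2 := by
    intro A hA
    rw [hδ]
    have h1 : 2 * (A / (1 / L ^ 2)) / Real.sqrt K ≤ 2 * (A / (1 / L ^ 2)) / L ^ 4 :=
      div_le_div_of_nonneg_left (by positivity) (by positivity) hsK
    refine h1.trans (le_of_eq ?_)
    field_simp
  have hcce' : ∀ t, ‖φ t - ∑ k ∈ Finset.Icc (-(K : ℤ)) K, cc k * e (k * t)‖ ≤ 8 / L ^ 2 := by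
    intro t
    refine (hcce t).trans ((hε 4 (by norm_num)).trans (le_of_eq ?_))
    norm_num
  have hbbe' : ∀ t, ‖(b t : ℂ) - ∑ k ∈ Finset.Icc (-(K : ℤ)) K, bb k * e (k * t)‖ ≤ 2 / L ^ 2 := by
    intro t
    refine (hbbe t).trans ((hε 1 (by norm_num)).trans (le_of_eq ?_))
    norm_num
  obtain ⟨B, hBdef⟩ : ∃ B : ℝ, B = 3 * U / L ^ 20 := ⟨_, rfl⟩
  have hBpos : 0 ≤ B := by
    rw [hBdef]
    positivity
  have hkabs : ∀ k ∈ Finset.Icc (-(K : ℤ)) K, |(k : ℝ)| ≤ K := by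
    intro k hk
    rw [Finset.mem_Icc] at hk
    rw [abs_le]
    exact ⟨by exact_mod_cast hk.1, by exact_mod_cast hk.2⟩
  have hk1 : ∀ k : ℤ, k ≠ 0 → 1 ≤ |(k : ℝ)| := by
    intro k hk
    have := Int.one_le_abs hk
    exact_mod_cast this
  have hb2 : ∀ k ∈ Finset.Icc (-(K : ℤ)) K, k ≠ 0 →
      ‖∑ n ∈ Finset.Ioc U V, e (k * G c n)‖ ≤ B ∧
      ‖∫ x in (U : ℝ)..V, e (k * G c x)‖ ≤ B := by
    intro k hk hk0
    have h1 := hbig U V hU2 hUV hV k (hk1 k hk0) (by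
      rw [← hL]
      linarith [hkabs k hk])
    rw [← hL, ← hBdef] at h1
    exact h1
  have hUVr : (U : ℝ) ≤ V := by exact_mod_cast hUV
  have hGpos : ∀ x, 0 ≤ G c x := fun x => (Real.exp_pos _).le
  have hS := umul_sum (Finset.Ioc U V) (fun n => G c n) (fun n => hGpos n) θ φ b hbc
    (fun t => (hb01 t).1) (fun t => (hb01 t).2) hφb K cc bb (8 / L ^ 2) (2 / L ^ 2) δ hδ0.le hcce'
    hbbe' hbb0' hbb1 B (fun k hk hk0 => (hb2 k hk hk0).1)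
  have hT := umul_meas (volume.restrict (Set.Ioc (U : ℝ) V)) (G c) (umul_meas_G c) hGpos θ φ b hbc
    (fun t => (hb01 t).1) (fun t => (hb01 t).2) hφb K cc bb (8 / L ^ 2) (2 / L ^ 2) δ hδ0.le hcce'
    hbbe' hbb0' hbb1 B (fun k hk hk0 => by
      rw [← intervalIntegral.integral_of_le hUVr]
      exact (hb2 k hk hk0).2)
  have hcard : ((Finset.Ioc U V).card : ℝ) = V - U := by
    rw [Nat.card_Ioc, Nat.cast_sub hUV]
  have hvol : (volume.restrict (Set.Ioc (U : ℝ) V)).real Set.univ = V - U := by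
    rw [Measure.real, Measure.restrict_apply_univ, Real.volume_Ioc, ENNReal.toReal_ofReal]
    linarith
  rw [hcard] at hS
  rw [hvol, ← intervalIntegral.integral_of_le hUVr] at hT
  have hT2 : ∑ k ∈ Finset.Icc (-(K : ℤ)) K,
      cc k * ∫ x in Set.Ioc (U : ℝ) V, e ((θ + k) * G c x) = ∑ k ∈ Finset.Icc (-(K : ℤ)) K,
      cc k * ∫ x in (U : ℝ)..V, e ((θ + k) * G c x) := by
    refine Finset.sum_congr rfl fun k _ => ?_
    rw [intervalIntegral.integral_of_le hUVr]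
  rw [hT2] at hT
  have hM : ‖∑ k ∈ Finset.Icc (-(K : ℤ)) K, cc k * ∑ n ∈ Finset.Ioc U V, e ((θ + k) * G c n) -
      ∑ k ∈ Finset.Icc (-(K : ℤ)) K, cc k * ∫ x in (U : ℝ)..V, e ((θ + k) * G c x)‖ ≤
      (2 * K + 1) * B := by
    rw [← Finset.sum_sub_distrib]
    refine (norm_sum_le _ _).trans ((Finset.sum_le_card_nsmul _ _ B fun k hk => ?_).trans ?_)
    · rw [← mul_sub, norm_mul]
      have h1 := hcmp U V hU1 hUV hV (θ + k) (by
        rw [← hL]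
        have h2 := hkabs k hk
        have h3 := abs_add_le θ k
        linarith)
      rw [← hL, ← hBdef] at h1
      calc ‖cc k‖ * ‖∑ n ∈ Finset.Ioc U V, e ((θ + k) * G c n) -
            ∫ x in (U : ℝ)..V, e ((θ + k) * G c x)‖ ≤ 1 * B :=
            mul_le_mul (hcc1 k) h1 (norm_nonneg _) zero_le_one
        _ = B := one_mul _
    · rw [Int.card_Icc, nsmul_eq_mul]
      refine mul_le_mul_of_nonneg_right ?_ hBpos
      have : ((K : ℤ) + 1 - -(K : ℤ)).toNat = 2 * K + 1 := by omega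
      rw [this]
      push_cast
      exact le_rfl
  have hsplit : ∑ n ∈ Finset.Ioc U V, e (θ * (a c n : ℝ)) -
      ∫ x in (U : ℝ)..V, e (θ * (⌊G c x⌋₊ : ℝ)) =
      (∑ n ∈ Finset.Ioc U V, e (θ * (⌊G c n⌋₊ : ℝ)) - ∑ k ∈ Finset.Icc (-(K : ℤ)) K,
        cc k * ∑ n ∈ Finset.Ioc U V, e ((θ + k) * G c n)) +
      (∑ k ∈ Finset.Icc (-(K : ℤ)) K, cc k * ∑ n ∈ Finset.Ioc U V, e ((θ + k) * G c n) -
      ∑ k ∈ Finset.Icc (-(K : ℤ)) K, cc k * ∫ x in (U : ℝ)..V, e ((θ + k) * G c x)) -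
      ((∫ x in (U : ℝ)..V, e (θ * (⌊G c x⌋₊ : ℝ))) - ∑ k ∈ Finset.Icc (-(K : ℤ)) K,
        cc k * ∫ x in (U : ℝ)..V, e ((θ + k) * G c x)) := by
    unfold a
    ring
  rw [hsplit, ← hL]
  have hVU : (V : ℝ) - U ≤ U := by
    have : (V : ℝ) ≤ 2 * U := by exact_mod_cast hV
    linarith
  refine (norm_sub_le _ _).trans ((add_le_add (norm_add_le _ _) le_rfl).trans ?_)
  have hfin : (δ + 8 / L ^ 2 + 2 / L ^ 2) * ((V : ℝ) - U) ≤ 11 * U / L ^ 2 := by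
    rw [hδ]
    calc (1 / L ^ 2 + 8 / L ^ 2 + 2 / L ^ 2) * ((V : ℝ) - U) = 11 / L ^ 2 * ((V : ℝ) - U) := by
          ring
      _ ≤ 11 / L ^ 2 * U := mul_le_mul_of_nonneg_left hVU (by positivity)
      _ = _ := by ring
  have hKB : (6 * K + 1) * B ≤ 8 * U / L ^ 2 := by
    have h1 : (6 * K + 1 : ℝ) ≤ 7 * L ^ 8 := by linarith
    calc (6 * K + 1) * B ≤ 7 * L ^ 8 * B := mul_le_mul_of_nonneg_right h1 hBpos
      _ = 21 / L ^ 10 * (U / L ^ 2) := by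
        rw [hBdef]
        field_simp
        ring
      _ ≤ 8 * (U / L ^ 2) := by
        refine mul_le_mul_of_nonneg_right ?_ (by positivity)
        rw [div_le_iff₀ (by positivity)]
        linarith
      _ = _ := by ring
  calc _ ≤ ((δ + 8 / L ^ 2 + 2 / L ^ 2) * ((V : ℝ) - U) + 2 * K * B + (2 * K + 1) * B) +
        ((δ + 8 / L ^ 2 + 2 / L ^ 2) * ((V : ℝ) - U) + 2 * K * B) :=
        add_le_add (add_le_add hS hM) hT
    _ = 2 * ((δ + 8 / L ^ 2 + 2 / L ^ 2) * ((V : ℝ) - U)) + (6 * K + 1) * B := by ring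
    _ ≤ 2 * (11 * U / L ^ 2) + 8 * U / L ^ 2 := by linarith
    _ = 30 * U / L ^ 2 := by ring

end Pool.Agent.VINO
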