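import Pool.Agent.VINO.UMulA

/-!
# VINO / UMulB: the multiplier bound

PROOF.  `e (θ m)`, `m ∈ ℕ`, depends only on `θ` modulo `1`: assume `|θ| ≤ 1/2` (replace `θ` by `θ - round θ`). For `N ≥ N₀` let
`U_i = ⌊N / 2^i⌋`, `i = 0, 1, …` as long as `U_i ≥ √N`; `U_i ≤ 2 U_(i+1) + 1`; split `(U_(i+1), U_i]` into
`(U_(i+1), 2 U_(i+1)]` and at most one more point. By `umulA` the difference over `(U_(i+1), U_i]` is at most
`30 U_(i+1)/(log √N)^2 + 2 ≤ 120 N 2^(-i-1) / (log N)^2 + 2`; the part below `2√N` contributes at most `4√N + 2`. The sum is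
`≤ C N / (log N)^2`. For `2 ≤ N < N₀` use the trivial bound `2 N`. (Alternatively strong induction on `N`: `D N ≤ D ⌊N/2⌋ +
30 (N/2)/(log (N/2))^2 + 2` with the claim `D N ≤ C N / (log N)^2`.)
-/

set_option autoImplicit false

namespace Pool.Agent.VINO

open Pool.Agent.VMV

private theorem ub_norm (t : ℝ) : ‖e t‖ = 1 := by
  unfold e
  rw [show (2 * Real.pi * Complex.I * t : ℂ) = ((2 * Real.pi * t : ℝ) : ℂ) * Complex.I by
    push_cast; ring, Complex.norm_exp_ofReal_mul_I]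

private theorem ub_per (θ : ℝ) (k : ℤ) (m : ℕ) : e ((θ - k) * (m : ℝ)) = e (θ * (m : ℝ)) := by
  unfold e
  rw [show (2 * Real.pi * Complex.I * (((θ - k) * (m : ℝ) : ℝ) : ℂ) : ℂ) =
    2 * Real.pi * Complex.I * ((θ * (m : ℝ) : ℝ) : ℂ) + ((-k * m : ℤ) : ℂ) *
      (2 * Real.pi * Complex.I) by push_cast; ring, Complex.exp_add,
    Complex.exp_int_mul_two_pi_mul_I, mul_one]

private theorem ub_meas (c θ : ℝ) : Measurable fun x : ℝ => e (θ * (⌊G c x⌋₊ : ℝ)) := by
  have h1 : Measurable (G c) := (Real.measurable_log.pow_const (1 + c)).exp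
  have h2 : Measurable fun x : ℝ => ((⌊G c x⌋₊ : ℕ) : ℝ) :=
    measurable_from_nat.comp (Nat.measurable_floor.comp h1)
  have h3 : Measurable e := by
    unfold e
    fun_prop
  exact h3.comp (h2.const_mul θ)

private theorem ub_int (c θ a b : ℝ) : IntervalIntegrable (fun x : ℝ => e (θ * (⌊G c x⌋₊ : ℝ)))
    MeasureTheory.volume a b := by
  refine (intervalIntegrable_const (c := (1 : ℝ))).mono_fun
    (ub_meas c θ).aestronglyMeasurable ?_
  refine Filter.Eventually.of_forall fun x => ?_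
  change ‖e (θ * (⌊G c x⌋₊ : ℝ))‖ ≤ ‖(1 : ℝ)‖
  rw [ub_norm, norm_one]

private theorem ub_int_le (c θ : ℝ) {a b : ℝ} (hab : a ≤ b) :
    ‖∫ x in a..b, e (θ * (⌊G c x⌋₊ : ℝ))‖ ≤ b - a := by
  have h := intervalIntegral.norm_integral_le_of_norm_le_const (a := a) (b := b) (C := 1)
    (f := fun x : ℝ => e (θ * (⌊G c x⌋₊ : ℝ))) (fun x _ => (ub_norm _).le)
  rw [abs_of_nonneg (sub_nonneg.2 hab), one_mul] at h
  exact h

/-- the difference -/
private noncomputable def ubD (c θ : ℝ) (N : ℕ) : ℂ :=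
  ∑ n ∈ Finset.Icc 1 N, e (θ * (a c n : ℝ)) - ∫ x in (1 : ℝ)..N, e (θ * (⌊G c x⌋₊ : ℝ))

private theorem ubD_triv (c θ : ℝ) {N : ℕ} (hN : 1 ≤ N) : ‖ubD c θ N‖ ≤ 2 * N := by
  unfold ubD
  have hN' : (1 : ℝ) ≤ N := by exact_mod_cast hN
  have h1 : ‖∑ n ∈ Finset.Icc 1 N, e (θ * (a c n : ℝ))‖ ≤ N := by
    refine (norm_sum_le _ _).trans ?_
    simp [ub_norm]
  have h2 := ub_int_le c θ hN'
  refine (norm_sub_le _ _).trans ?_
  linarith

private theorem ubD_step (c θ : ℝ) {U N : ℕ} (hUN : 2 * U ≤ N) (hN : N ≤ 2 * U + 1)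
    {B : ℝ} (hB : ‖∑ n ∈ Finset.Ioc U (2 * U), e (θ * (a c n : ℝ)) -
        ∫ x in (U : ℝ)..((2 * U : ℕ) : ℝ), e (θ * (⌊G c x⌋₊ : ℝ))‖ ≤ B) :
    ‖ubD c θ N‖ ≤ ‖ubD c θ U‖ + B + 2 := by
  have hsplit : Finset.Icc 1 N = Finset.Icc 1 U ∪ (Finset.Ioc U (2 * U) ∪ Finset.Ioc (2 * U) N) := by
    ext n
    simp only [Finset.mem_union, Finset.mem_Icc, Finset.mem_Ioc]
    omega
  have hd1 : Disjoint (Finset.Icc 1 U) (Finset.Ioc U (2 * U) ∪ Finset.Ioc (2 * U) N) := by
    rw [Finset.disjoint_left]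
    intro n hn
    simp only [Finset.mem_union, Finset.mem_Icc, Finset.mem_Ioc] at *
    omega
  have hd2 : Disjoint (Finset.Ioc U (2 * U)) (Finset.Ioc (2 * U) N) := by
    rw [Finset.disjoint_left]
    intro n hn
    simp only [Finset.mem_Ioc] at *
    omega
  have hi : ∫ x in (1 : ℝ)..N, e (θ * (⌊G c x⌋₊ : ℝ)) =
      (∫ x in (1 : ℝ)..U, e (θ * (⌊G c x⌋₊ : ℝ))) +
        ((∫ x in (U : ℝ)..((2 * U : ℕ) : ℝ), e (θ * (⌊G c x⌋₊ : ℝ))) +
          ∫ x in ((2 * U : ℕ) : ℝ)..N, e (θ * (⌊G c x⌋₊ : ℝ))) := by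
    rw [intervalIntegral.integral_add_adjacent_intervals (ub_int _ _ _ _) (ub_int _ _ _ _),
      intervalIntegral.integral_add_adjacent_intervals (ub_int _ _ _ _) (ub_int _ _ _ _)]
  have hU2 : ((2 * U : ℕ) : ℝ) ≤ N := by exact_mod_cast hUN
  have hN2 : (N : ℝ) ≤ ((2 * U : ℕ) : ℝ) + 1 := by exact_mod_cast hN
  have h3 : ‖∑ n ∈ Finset.Ioc (2 * U) N, e (θ * (a c n : ℝ))‖ ≤ 1 := by
    refine (norm_sum_le _ _).trans ?_
    simp only [ub_norm, Finset.sum_const, Nat.card_Ioc, nsmul_eq_mul, mul_one]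
    have : N - 2 * U ≤ 1 := by omega
    exact_mod_cast this
  have h4 := ub_int_le c θ hU2
  unfold ubD
  rw [hsplit, Finset.sum_union hd1, Finset.sum_union hd2, hi]
  set s1 := ∑ n ∈ Finset.Icc 1 U, e (θ * (a c n : ℝ))
  set s2 := ∑ n ∈ Finset.Ioc U (2 * U), e (θ * (a c n : ℝ))
  set s3 := ∑ n ∈ Finset.Ioc (2 * U) N, e (θ * (a c n : ℝ))
  set i1 := ∫ x in (1 : ℝ)..U, e (θ * (⌊G c x⌋₊ : ℝ))
  set i2 := ∫ x in (U : ℝ)..((2 * U : ℕ) : ℝ), e (θ * (⌊G c x⌋₊ : ℝ))
  set i3 := ∫ x in ((2 * U : ℕ) : ℝ)..N, e (θ * (⌊G c x⌋₊ : ℝ))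
  have h5 : s1 + (s2 + s3) - (i1 + (i2 + i3)) = (s1 - i1) + (s2 - i2) + (s3 - i3) := by ring
  rw [h5]
  have h6 := norm_add_le ((s1 - i1) + (s2 - i2)) (s3 - i3)
  have h7 := norm_add_le (s1 - i1) (s2 - i2)
  have h8 := norm_sub_le s3 i3
  linarith

theorem umulB {c : ℝ} (hc0 : 0 < c) (hc1 : c < 1 / 2) :
    ∃ C : ℝ, 0 < C ∧ ∀ N : ℕ, 2 ≤ N → ∀ θ : ℝ,
      ‖∑ n ∈ Finset.Icc 1 N, e (θ * (a c n : ℝ)) -
        ∫ x in (1 : ℝ)..N, e (θ * (⌊G c x⌋₊ : ℝ))‖ ≤ C * N / Real.log N ^ 2 := by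
  obtain ⟨U₀, hU₀, hA⟩ := umulA hc0 hc1
  set N₁ : ℕ := 2 * U₀ + ⌈Real.exp 12⌉₊ + 3 with hN₁
  have hN₁pos : (1 : ℝ) < N₁ := by
    have : 1 < N₁ := by omega
    exact_mod_cast this
  have hlog1 : 0 < Real.log N₁ := Real.log_pos hN₁pos
  set C : ℝ := 100 + 2 * Real.log N₁ ^ 2 with hC
  have hC100 : 100 ≤ C := by
    have : 0 ≤ 2 * Real.log N₁ ^ 2 := by positivity
    linarith
  -- the claim for small `θ`
  have main : ∀ N : ℕ, 2 ≤ N → ∀ θ : ℝ, |θ| ≤ 1 / 2 → ‖ubD c θ N‖ ≤ C * N / Real.log N ^ 2 := by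
    intro N
    induction N using Nat.strong_induction_on with
    | _ N ih =>
      intro hN θ hθ
      have hNR : (2 : ℝ) ≤ N := by exact_mod_cast hN
      have hlN : 0 < Real.log N := Real.log_pos (by linarith)
      rcases lt_or_ge N N₁ with hlt | hge
      · refine (ubD_triv c θ (by omega)).trans ?_
        rw [le_div_iff₀ (by positivity)]
        have h1 : Real.log N ≤ Real.log N₁ :=
          Real.log_le_log (by linarith) (by exact_mod_cast hlt.le)
        have h2 : Real.log N ^ 2 ≤ Real.log N₁ ^ 2 := pow_le_pow_left₀ hlN.le h1 2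
        have h3 : 2 * Real.log N ^ 2 ≤ C := by linarith
        calc 2 * (N : ℝ) * Real.log N ^ 2 = (2 * Real.log N ^ 2) * N := by ring
          _ ≤ C * N := mul_le_mul_of_nonneg_right h3 (by linarith)
      · obtain ⟨U, hU⟩ : ∃ U, U = N / 2 := ⟨_, rfl⟩
        have hU1 : 2 * U ≤ N := by omega
        have hU2 : N ≤ 2 * U + 1 := by omega
        have hU3 : U₀ ≤ U := by omega
        have hU4 : 2 ≤ U := by omega
        have hblock := hA U (2 * U) hU3 (by omega) le_rfl θ hθ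
        have hst := ubD_step c θ hU1 hU2 hblock
        have hrec := ih U (by omega) hU4 θ hθ
        have hlog12 : 12 ≤ Real.log N := by
          rw [Real.le_log_iff_exp_le (by linarith)]
          have h1 : Real.exp 12 ≤ ⌈Real.exp 12⌉₊ := Nat.le_ceil _
          have h2 : ⌈Real.exp 12⌉₊ ≤ N := by omega
          have h3 : ((⌈Real.exp 12⌉₊ : ℕ) : ℝ) ≤ N := by exact_mod_cast h2
          linarith
        have hUR : (2 : ℝ) ≤ U := by exact_mod_cast hU4
        have hUN : (U : ℝ) ≤ N / 2 := by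
          have : (2 : ℝ) * U ≤ N := by exact_mod_cast hU1
          linarith
        have hUN3 : (N : ℝ) / 3 ≤ U := by
          have h1 : N ≤ 3 * U := by omega
          have h2 : (N : ℝ) ≤ 3 * U := by exact_mod_cast h1
          linarith
        have hlU : Real.log N - 2 ≤ Real.log U := by
          have h1 : Real.log ((N : ℝ) / 3) ≤ Real.log U := Real.log_le_log (by positivity) hUN3
          rw [Real.log_div (by positivity) (by norm_num)] at h1
          have h2 := Real.log_le_sub_one_of_pos (show (0 : ℝ) < 3 by norm_num)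
          linarith
        set x : ℝ := Real.log N with hx
        set w : ℝ := Real.log U with hw
        have hw0 : 0 < w := by linarith
        have hsq : 2 / 3 * x ^ 2 ≤ w ^ 2 := by nlinarith
        -- `U / w² ≤ (3/4) N / x²`
        have hkey : (U : ℝ) / w ^ 2 ≤ 3 / 4 * (N / x ^ 2) := by
          rw [div_le_iff₀ (by positivity)]
          have h1 : 3 / 4 * ((N : ℝ) / x ^ 2) * (2 / 3 * x ^ 2) = N / 2 := by
            field_simp
            ring
          have h2 : 3 / 4 * ((N : ℝ) / x ^ 2) * (2 / 3 * x ^ 2) ≤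
              3 / 4 * ((N : ℝ) / x ^ 2) * w ^ 2 :=
            mul_le_mul_of_nonneg_left hsq (by positivity)
          linarith
        have hbig : 1 ≤ (N : ℝ) / x ^ 2 := by
          rw [le_div_iff₀ (by positivity), one_mul]
          have h1 := Real.quadratic_le_exp_of_nonneg (show 0 ≤ x / 2 by linarith)
          have h2 : x ≤ Real.exp (x / 2) := by nlinarith [sq_nonneg (x / 2 - 1)]
          have h3 : Real.exp (x / 2) ^ 2 = N := by
            rw [← Real.exp_nat_mul, hx]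
            push_cast
            rw [mul_div_cancel₀ _ (by norm_num : (2 : ℝ) ≠ 0), Real.exp_log (by linarith)]
          rw [← h3]
          exact pow_le_pow_left₀ (by linarith) h2 2
        set R : ℝ := (N : ℝ) / x ^ 2 with hR
        have e1 : C * U / w ^ 2 = C * (U / w ^ 2) := by ring
        have e2 : 30 * U / w ^ 2 = 30 * ((U : ℝ) / w ^ 2) := by ring
        have e3 : C * N / x ^ 2 = C * R := by rw [hR]; ring
        rw [e1] at hrec
        rw [e2] at hst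
        rw [e3]
        have h4 : C * (U / w ^ 2) ≤ C * (3 / 4 * R) :=
          mul_le_mul_of_nonneg_left hkey (by linarith)
        have h5 : 5 / 2 * R ≤ (C / 4 - 45 / 2) * R :=
          mul_le_mul_of_nonneg_right (by linarith) (by linarith)
        nlinarith
  refine ⟨C, by linarith, fun N hN θ => ?_⟩
  have h1 := main N hN (θ - round θ) (abs_sub_round θ)
  have h2 : ubD c (θ - round θ) N = ∑ n ∈ Finset.Icc 1 N, e (θ * (a c n : ℝ)) -
        ∫ x in (1 : ℝ)..N, e (θ * (⌊G c x⌋₊ : ℝ)) := by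
    unfold ubD
    simp only [ub_per]
  rw [h2] at h1
  exact h1

end Pool.Agent.VINO
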