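import Pool.Agent.VINO.Defs
import Pool.Agent.VMV.Vkey
import Pool.Agent.VINO.Num

/-!
# VINO / UNumA: the saving for large `γ`

PROOF.  (Compare `Num.lean`.) Choose `m ≥ 1` with `64 exp (-m) ≤ c / 640`. `k = ⌈3 s⌉ + 2 ≤ 3 s + 3 ≤ 4 s` (`s ≥ 80/c ≥ 160`), `k ≥ 3 s`.
The exponent of `Y` is `4 exp(-m) k^2 - S/4 ≤ 64 exp(-m) s^2 - (c/320) s^2 ≤ -(c/640) s^2`. `Y ≥ U^(c/20)`,
`L = log U`, `A = L^c`, `s ≤ 2 A`:
`log sav ≤ (1/2) log (64 m k^4) + log (30 m^2 k^4) - (c/640) s^2 (c/20) L / (4 m^2 k^4)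
≤ C + 6 log k - c₁ L / s^2 ≤ C + 6 log (8 A) - (c₁/4) L^(1-2c)`, which is `≤ - log 2 - 20 log L` for large `L`
(`1 - 2c > 0`).
-/

set_option autoImplicit false

namespace Pool.Agent.VINO

open Pool.Agent.VMV

open Filter Topology in
theorem unumA {c : ℝ} (hc0 : 0 < c) (hc1 : c < 1 / 2) :
    ∃ m : ℕ, 1 ≤ m ∧ ∃ U₀ : ℝ, 1 < U₀ ∧ ∀ U : ℝ, U₀ ≤ U → ∀ s : ℝ, 80 / c ≤ s →
      s ≤ 2 * AA c U → ∀ Y : ℕ, U ^ (c / 20) ≤ (Y : ℝ) → ∀ S : ℝ, c / 80 * s ^ 2 ≤ S →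
      sav (⌈3 * s⌉₊ + 2) m Y S ≤ 1 / (2 * Real.log U ^ 20) := by
  have hm : ∃ m : ℕ, 1 ≤ m ∧ 64 * Real.exp (-(m : ℝ)) ≤ c / 640 := by
    have h1 : Tendsto (fun m : ℕ => 64 * Real.exp (-(m : ℝ))) atTop (𝓝 (64 * 0)) :=
      ((Real.tendsto_exp_neg_atTop_nhds_zero).comp tendsto_natCast_atTop_atTop).const_mul 64
    have h2 := h1.eventually (ge_mem_nhds (by simp; positivity : 64 * (0 : ℝ) < c / 640))
    obtain ⟨m, hm1, hm2⟩ := ((eventually_ge_atTop 1).and h2).exists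
    exact ⟨m, hm1, hm2⟩
  obtain ⟨m, hm1, hm2⟩ := hm
  refine ⟨m, hm1, ?_⟩
  have hmr : (1 : ℝ) ≤ m := by exact_mod_cast hm1
  obtain ⟨D, hD⟩ : ∃ D : ℝ, D = c ^ 2 / (12800 * 4096 * m ^ 2) := ⟨_, rfl⟩
  have hD0 : 0 < D := by rw [hD]; positivity
  obtain ⟨C, hC⟩ : ∃ C : ℝ, C = Real.log (64 * m) + Real.log (30 * m ^ 2) + 8 * Real.log 8 :=
    ⟨_, rfl⟩
  have ht := (tend (p := 1 - 2 * c) (C := C) (B := 8 * c + 20) (D := D) (by linarith) hD0).comp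
    Real.tendsto_log_atTop
  have hev : ∀ᶠ x : ℝ in atTop, (C + (8 * c + 20) * Real.log (Real.log x) -
      D * Real.log x ^ (1 - 2 * c) ≤ -Real.log 2) ∧ 1 < x :=
    (ht.eventually (eventually_le_atBot _)).and (eventually_gt_atTop 1)
  obtain ⟨x₁, hx₁⟩ := eventually_atTop.1 hev
  refine ⟨max x₁ 2, lt_of_lt_of_le (by norm_num) (le_max_right _ _),
    fun U hU s hs1 hs2 Y hY S hS => ?_⟩
  obtain ⟨h1, h3⟩ := hx₁ U ((le_max_left _ _).trans hU)
  have hL0 : 0 < Real.log U := Real.log_pos h3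
  obtain ⟨L, hL⟩ : ∃ L : ℝ, L = Real.log U := ⟨_, rfl⟩
  obtain ⟨A, hAe⟩ : ∃ A : ℝ, A = AA c U := ⟨_, rfl⟩
  have hAL : A = L ^ c := by rw [hAe, hL]; rfl
  rw [← hL] at h1 hL0
  rw [← hAe] at hs2
  rw [← hL]
  have hA0 : 0 < A := by rw [hAL]; exact Real.rpow_pos_of_pos hL0 c
  have hs3 : 160 ≤ s := by
    refine le_trans ?_ hs1
    rw [le_div_iff₀ hc0]
    linarith
  have hs0 : 0 < s := by linarith
  obtain ⟨k, hk⟩ : ∃ k : ℕ, k = ⌈3 * s⌉₊ + 2 := ⟨_, rfl⟩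
  have hk1 : (k : ℝ) ≤ 4 * s := by
    rw [hk]
    push_cast
    have := Nat.ceil_lt_add_one (show 0 ≤ 3 * s by linarith)
    linarith
  have hk2 : 3 * s ≤ (k : ℝ) := by
    rw [hk]
    push_cast
    have := Nat.le_ceil (3 * s)
    linarith
  rw [← hk]
  have hkr : (1 : ℝ) ≤ k := by linarith
  have hkn : 1 ≤ k := by exact_mod_cast hkr
  have hY1 : (1 : ℝ) ≤ Y := by
    refine le_trans ?_ hY
    exact Real.one_le_rpow h3.le (by positivity)
  have hYn : 1 ≤ Y := by exact_mod_cast hY1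
  have hlY : c / 20 * L ≤ Real.log Y := by
    rw [hL, ← Real.log_rpow (by linarith)]
    exact Real.log_le_log (Real.rpow_pos_of_pos (by linarith) _) hY
  refine (sav_le k m Y S hkn hm1 hYn).trans ?_
  have hε : 0 < 1 / (2 * L ^ 20) := by positivity
  rw [← Real.exp_log hε]
  have hle : Real.log (1 / (2 * L ^ 20)) = -Real.log 2 - 20 * Real.log L := by
    rw [one_div, Real.log_inv, Real.log_mul (by norm_num) (by positivity), Real.log_pow]
    push_cast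
    ring
  rw [hle]
  refine Real.exp_le_exp.2 ?_
  have hk0 : (0 : ℝ) < k := by linarith
  have hm0 : (0 : ℝ) < m := by linarith
  -- logarithms
  have l1 : Real.log (64 * m * k ^ 4) = Real.log (64 * m) + 4 * Real.log k := by
    rw [Real.log_mul (by positivity) (by positivity), Real.log_pow]
    norm_num
  have l2 : Real.log (30 * m ^ 2 * k ^ 4) = Real.log (30 * m ^ 2) + 4 * Real.log k := by
    rw [Real.log_mul (by positivity) (by positivity), Real.log_pow]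
    norm_num
  have l3 : Real.log k ≤ Real.log 8 + c * Real.log L := by
    rw [← Real.log_rpow hL0, ← hAL, ← Real.log_mul (by norm_num) (by linarith)]
    exact Real.log_le_log hk0 (by linarith)
  -- the exponent
  have e1 : 4 * Real.exp (-(m : ℝ)) * k ^ 2 - S / 4 ≤ -(c / 640 * s ^ 2) := by
    have e2 : (k : ℝ) ^ 2 ≤ 16 * s ^ 2 := by nlinarith
    have e3 : 4 * Real.exp (-(m : ℝ)) * k ^ 2 ≤ c / 640 * s ^ 2 := by
      calc 4 * Real.exp (-(m : ℝ)) * k ^ 2 ≤ 4 * Real.exp (-(m : ℝ)) * (16 * s ^ 2) :=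
            mul_le_mul_of_nonneg_left e2 (by positivity)
        _ = (64 * Real.exp (-(m : ℝ))) * s ^ 2 := by ring
        _ ≤ _ := mul_le_mul_of_nonneg_right hm2 (by positivity)
    linarith
  have e4 : (4 * Real.exp (-(m : ℝ)) * k ^ 2 - S / 4) * Real.log Y / (4 * m ^ 2 * k ^ 4) ≤
      -(D * L ^ (1 - 2 * c)) := by
    have hN : 4 * (m : ℝ) ^ 2 * k ^ 4 ≤ 1024 * m ^ 2 * s ^ 4 := by
      have : (k : ℝ) ^ 4 ≤ (4 * s) ^ 4 := pow_le_pow_left₀ hk0.le hk1 4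
      have h256 : (4 * s) ^ 4 = 256 * s ^ 4 := by ring
      rw [h256] at this
      nlinarith [sq_nonneg (m : ℝ), mul_le_mul_of_nonneg_left this (sq_nonneg (m : ℝ))]
    have hlY0 : 0 ≤ Real.log Y := Real.log_nonneg hY1
    have e5 : (4 * Real.exp (-(m : ℝ)) * k ^ 2 - S / 4) * Real.log Y ≤
        -(c / 640 * s ^ 2 * (c / 20 * L)) := by
      calc (4 * Real.exp (-(m : ℝ)) * k ^ 2 - S / 4) * Real.log Y ≤
            -(c / 640 * s ^ 2) * Real.log Y := mul_le_mul_of_nonneg_right e1 hlY0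
        _ = -((c / 640 * s ^ 2) * Real.log Y) := by ring
        _ ≤ _ := by
          have := mul_le_mul_of_nonneg_left hlY (show 0 ≤ c / 640 * s ^ 2 by positivity)
          linarith
    have e6 : L ^ (1 - 2 * c) ≤ 4 * (L / s ^ 2) := by
      have e7 : L ^ (1 - 2 * c) = L / A ^ 2 := by
        rw [Real.rpow_sub hL0, Real.rpow_one, hAL, ← Real.rpow_natCast (L ^ c),
          ← Real.rpow_mul hL0.le]
        congr 2
        push_cast
        ring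
      rw [e7, ← mul_div_assoc, div_le_div_iff₀ (by positivity) (by positivity)]
      have e8 : s ^ 2 ≤ (2 * A) ^ 2 := pow_le_pow_left₀ hs0.le hs2 2
      have e9 : (2 * A) ^ 2 = 4 * A ^ 2 := by ring
      rw [e9] at e8
      nlinarith [mul_le_mul_of_nonneg_left e8 hL0.le]
    have e10 : D * L ^ (1 - 2 * c) ≤ c ^ 2 / (12800 * 1024 * m ^ 2) * (L / s ^ 2) := by
      calc D * L ^ (1 - 2 * c) ≤ D * (4 * (L / s ^ 2)) := mul_le_mul_of_nonneg_left e6 hD0.le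
        _ = _ := by
          rw [hD]
          field_simp
          ring
    refine le_trans ?_ (neg_le_neg e10)
    rw [div_le_iff₀ (by positivity)]
    have e7 : c / 640 * s ^ 2 * (c / 20 * L) =
        c ^ 2 / (12800 * 1024 * m ^ 2) * (L / s ^ 2) * (1024 * m ^ 2 * s ^ 4) := by
      field_simp
      ring
    have e8 : c ^ 2 / (12800 * 1024 * m ^ 2) * (L / s ^ 2) * (4 * (m : ℝ) ^ 2 * k ^ 4) ≤
        c ^ 2 / (12800 * 1024 * m ^ 2) * (L / s ^ 2) * (1024 * m ^ 2 * s ^ 4) :=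
      mul_le_mul_of_nonneg_left hN (by positivity)
    have e9 : -(c ^ 2 / (12800 * 1024 * (m : ℝ) ^ 2) * (L / s ^ 2)) * (4 * m ^ 2 * k ^ 4) =
        -(c ^ 2 / (12800 * 1024 * m ^ 2) * (L / s ^ 2) * (4 * (m : ℝ) ^ 2 * k ^ 4)) := by ring
    rw [e9]
    linarith
  rw [l1, l2]
  rw [hC] at h1
  linarith

end Pool.Agent.VINO
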