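import Pool.Agent.VINO.UCoef

/-!
# VINO / UTay: Taylor polynomials of `γ G` on a block

PROOF.  As `taylor_window` (see `Tayl.lean`): Lagrange remainder `γ G^(k+1)(ξ) h^(k+1) / (k+1)!`,
`ξ ∈ [x, x + h] ⊆ [U, 3 U]`, and `ubig` with `l = k + 1`; `U^(-(k+1)) h^(k+1) = (h/U)^(k+1)`. (`G_smooth` for the
differentiability.)
-/

set_option autoImplicit false

namespace Pool.Agent.VINO

/-- Taylor's formula with Lagrange remainder on `[x, x + h]`, `h > 0`. -/
private theorem utay_aux (f : ℝ → ℝ) {x h : ℝ} (hh : 0 < h) (k : ℕ)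
    (hf : ∀ y, x ≤ y → ContDiffAt ℝ ((k + 1 : ℕ) : WithTop ℕ∞) f y) :
    ∃ ξ ∈ Set.Icc x (x + h), f (x + h) - ∑ l ∈ Finset.range (k + 1),
        iteratedDeriv l f x / l.factorial * h ^ l =
      iteratedDeriv (k + 1) f ξ * h ^ (k + 1) / (k + 1).factorial := by
  have hxx : x < x + h := by linarith
  have hI : Set.uIcc x (x + h) = Set.Icc x (x + h) := Set.uIcc_of_le hxx.le
  have hcd : ContDiffOn ℝ ((k + 1 : ℕ) : WithTop ℕ∞) f (Set.uIcc x (x + h)) := by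
    rw [hI]
    exact fun y hy => (hf y hy.1).contDiffWithinAt
  have hu : UniqueDiffOn ℝ (Set.uIcc x (x + h)) := uniqueDiffOn_uIcc hxx.ne
  obtain ⟨ξ, hξ, he⟩ := taylor_mean_remainder_lagrange_iteratedDeriv hxx.ne
    (n := k) (f := f) (by exact_mod_cast hcd)
  have hξ' : ξ ∈ Set.Icc x (x + h) := by
    rw [← hI]
    exact Set.uIoo_subset_uIcc_self hξ
  refine ⟨ξ, hξ', ?_⟩
  rw [taylor_within_apply, add_sub_cancel_left] at he
  rw [← he]
  congr 1
  refine Finset.sum_congr rfl fun l hl => ?_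
  have hlk : l ≤ k + 1 := (Finset.mem_range.1 hl).le
  have h1 : iteratedDerivWithin l f (Set.uIcc x (x + h)) x = iteratedDeriv l f x :=
    iteratedDerivWithin_eq_iteratedDeriv hu
      ((hf x le_rfl).of_le (by exact_mod_cast hlk)) Set.left_mem_uIcc
  rw [h1, smul_eq_mul]
  ring

theorem utay {c : ℝ} (hc0 : 0 < c) (hc1 : c < 1 / 2) :
    ∃ U₀ : ℝ, 1 < U₀ ∧ ∀ U : ℝ, U₀ ≤ U → ∀ x ∈ Set.Icc U (2 * U), ∀ h : ℝ, 0 ≤ h → h ≤ U →
      ∀ (k : ℕ) (γ : ℝ),
      |γ * G c (x + h) - ∑ l ∈ Finset.range (k + 1),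
        γ * iteratedDeriv l (G c) x / l.factorial * h ^ l| ≤
        |γ| * G c U * Real.exp (10 * AA c U + (k + 1)) * (h / U) ^ (k + 1) := by
  obtain ⟨U₀, hU₀, hb⟩ := ubig hc0 hc1
  refine ⟨U₀, hU₀, fun U hU x hx h hh0 hh1 k γ => ?_⟩
  have hU1 : 1 < U := by linarith
  have hUpos : 0 < U := by linarith
  have hG : 0 < G c U := Real.exp_pos _
  have hx1 : 1 < x := lt_of_lt_of_le hU1 hx.1
  rcases hh0.eq_or_lt with rfl | hh
  · rw [Finset.sum_range_succ']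
    have h1 : ∑ l ∈ Finset.range k, γ * iteratedDeriv (l + 1) (G c) x /
        ((l + 1).factorial : ℝ) * (0 : ℝ) ^ (l + 1) = 0 := by
      refine Finset.sum_eq_zero fun l _ => ?_
      rw [pow_succ, mul_zero, mul_zero]
    rw [h1]
    simp only [add_zero, iteratedDeriv_zero, Nat.factorial_zero, Nat.cast_one, div_one, pow_zero,
      mul_one, zero_add, sub_self, abs_zero]
    positivity
  obtain ⟨ξ, hξ, he⟩ := utay_aux (G c) hh k (fun y hy => G_smooth c (lt_of_lt_of_le hx1 hy) _)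
  have hξ2 : ξ ∈ Set.Icc U (3 * U) := ⟨hx.1.trans hξ.1, by linarith [hξ.2, hx.2]⟩
  have hb' := hb U hU ξ hξ2 (k + 1)
  have hfac : (0 : ℝ) < ((k + 1).factorial : ℝ) := Nat.cast_pos.2 (Nat.factorial_pos _)
  have h1 : γ * G c (x + h) - ∑ l ∈ Finset.range (k + 1),
        γ * iteratedDeriv l (G c) x / l.factorial * h ^ l =
      γ * (iteratedDeriv (k + 1) (G c) ξ * h ^ (k + 1) / (k + 1).factorial) := by
    rw [← he, mul_sub, Finset.mul_sum]
    congr 1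
    refine Finset.sum_congr rfl fun l _ => ?_
    ring
  rw [h1, abs_mul, abs_div, abs_mul, abs_of_nonneg (pow_nonneg hh0 (k + 1)), abs_of_pos hfac]
  have h2 : U ^ (-((k + 1 : ℕ) : ℝ)) = (U ^ (k + 1))⁻¹ := by
    rw [Real.rpow_neg hUpos.le, Real.rpow_natCast]
  rw [h2] at hb'
  calc |γ| * (|iteratedDeriv (k + 1) (G c) ξ| * h ^ (k + 1) / ((k + 1).factorial : ℝ)) =
        |γ| * (|iteratedDeriv (k + 1) (G c) ξ| / ((k + 1).factorial : ℝ) * h ^ (k + 1)) := by ring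
    _ ≤ |γ| * (Real.exp (10 * AA c U + (k + 1 : ℕ)) * (G c U * (U ^ (k + 1))⁻¹) * h ^ (k + 1)) :=
        mul_le_mul_of_nonneg_left (mul_le_mul_of_nonneg_right hb' (pow_nonneg hh0 _)) (abs_nonneg _)
    _ = |γ| * G c U * Real.exp (10 * AA c U + (k + 1)) * (h / U) ^ (k + 1) := by
        rw [div_pow, div_eq_mul_inv (h ^ (k + 1))]
        push_cast
        ring

end Pool.Agent.VINO
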