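import Pool.Agent.VINO.UTay
import Pool.Agent.VINO.UGoodA
import Pool.Agent.VINO.UNumA

/-!
# VINO / UWinA: double sums, large `γ`

PROOF.  (Compare `Win.lean`.) Let `s` be defined by `|γ| G(U) = U^s`, so `s ≥ 80/c`, `k = ⌈3 s⌉ + 2`, `Y = ⌊U^(c/10)⌋`,
`h = p q ≤ Y^2 ≤ U^(c/5) ≤ U^(1/10)`. `utay`: the Taylor polynomial of degree `k` has an error at most
`U^s exp (10 A + k + 1) U^(-(9/10)(k+1)) ≤ 1/U`, since `k + 1 ∈ [3 s + 3, 3 s + 4]`, `s ≤ 2 A` and
`s L + 10 A + 3 s + 4 - (9/10)(3 s + 3) L ≤ -L` for large `L = log U`. So the double sum differs from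
`e (γ G x) * Bil α Y`, `α j = γ G^(j+1)(x) / (j+1)!`, by at most `Y^2 2π / U`. `ugoodA`, `vkey`, `unumA`.
-/

set_option autoImplicit false

namespace Pool.Agent.VINO

open Pool.Agent.VMV

private theorem e_add (s t : ℝ) : e (s + t) = e s * e t := by
  unfold e
  rw [← Complex.exp_add]
  congr 1
  push_cast
  ring

private theorem e_norm (t : ℝ) : ‖e t‖ = 1 := by
  unfold e
  rw [show 2 * (Real.pi : ℂ) * Complex.I * (t : ℂ) = ((2 * Real.pi * t : ℝ) : ℂ) * Complex.I by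
    push_cast; ring]
  exact Complex.norm_exp_ofReal_mul_I _

private theorem e_sub_le (s t : ℝ) : ‖e s - e t‖ ≤ 2 * Real.pi * |s - t| := by
  have h1 : e s = e (s - t) * e t := by
    rw [← e_add, sub_add_cancel]
  have h2 : e s - e t = (e (s - t) - 1) * e t := by
    rw [h1]
    ring
  rw [h2, norm_mul, e_norm, mul_one]
  have h3 : e (s - t) = Complex.exp (Complex.I * ((2 * Real.pi * (s - t) : ℝ) : ℂ)) := by
    unfold e
    congr 1
    push_cast
    ring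
  rw [h3]
  have h4 := Real.norm_exp_I_mul_ofReal_sub_one_le (x := 2 * Real.pi * (s - t))
  refine h4.trans (le_of_eq ?_)
  rw [Real.norm_eq_abs, abs_mul, abs_of_pos (by positivity)]

private theorem err_bound {s L A : ℝ} {k : ℕ} (hs : 160 ≤ s) (hL : 4 ≤ L) (hA : A ≤ L)
    (hk : 3 * s + 3 ≤ (k : ℝ) + 1) :
    s * L + (10 * A + ((k : ℝ) + 1)) + -(9 / 10) * L * ((k : ℝ) + 1) ≤ -L := by
  have h1 : ((k : ℝ) + 1) * (1 - 9 / 10 * L) ≤ (3 * s + 3) * (1 - 9 / 10 * L) :=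
    mul_le_mul_of_nonpos_right hk (by linarith)
  nlinarith [mul_nonneg (sub_nonneg.2 hs) (sub_nonneg.2 hL)]

theorem uwinA {c : ℝ} (hc0 : 0 < c) (hc1 : c < 1 / 2) :
    ∃ U₀ : ℝ, 1 < U₀ ∧ ∀ U : ℝ, U₀ ≤ U → ∀ γ : ℝ, U ^ (80 / c) ≤ |γ| * G c U →
      |γ| ≤ Real.log U ^ 10 → ∃ Y : ℕ, 1 ≤ Y ∧ (Y : ℝ) ≤ U ^ (2 / 5 : ℝ) ∧
      ∀ x ∈ Set.Icc U (2 * U),
      ‖∑ p ∈ Finset.Icc 1 Y, ∑ q ∈ Finset.Icc 1 Y, e (γ * G c (x + (p : ℝ) * q))‖ ≤
        (Y : ℝ) ^ 2 / Real.log U ^ 20 := by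
  obtain ⟨x₁, -, hT⟩ := utay hc0 hc1
  obtain ⟨x₂, -, hG⟩ := ugoodA hc0 hc1
  obtain ⟨m, hm, x₃, -, hS⟩ := unumA hc0 hc1
  have hev : ∀ᶠ x : ℝ in Filter.atTop, ‖Real.log x ^ 20‖ ≤ 1 / (4 * Real.pi) * ‖id x‖ :=
    (Real.isLittleO_pow_log_id_atTop (n := 20)).def (by positivity)
  obtain ⟨x₄, hx₄⟩ := Filter.eventually_atTop.1 hev
  refine ⟨max (max x₁ x₂) (max x₃ (max x₄ (Real.exp 4))), ?_, fun U hU γ hγ1 hγ2 => ?_⟩
  · have h1 : (1 : ℝ) < Real.exp 4 := by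
      rw [Real.one_lt_exp_iff]
      norm_num
    exact h1.trans_le ((le_max_right _ _).trans ((le_max_right _ _).trans (le_max_right _ _)))
  have hU1 : x₁ ≤ U := (le_max_left _ _).trans ((le_max_left _ _).trans hU)
  have hU2 : x₂ ≤ U := (le_max_right _ _).trans ((le_max_left _ _).trans hU)
  have hU3 : x₃ ≤ U := (le_max_left _ _).trans ((le_max_right _ _).trans hU)
  have hU4 : x₄ ≤ U := (le_max_left _ _).trans ((le_max_right _ _).trans ((le_max_right _ _).trans hU))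
  have hU5 : Real.exp 4 ≤ U :=
    (le_max_right _ _).trans ((le_max_right _ _).trans ((le_max_right _ _).trans hU))
  have hUpos : 0 < U := (Real.exp_pos 4).trans_le hU5
  have hL4 : 4 ≤ Real.log U := (Real.le_log_iff_exp_le hUpos).2 hU5
  have hUone : 1 < U := by
    have h1 : (1 : ℝ) < Real.exp 4 := by
      rw [Real.one_lt_exp_iff]
      norm_num
    exact h1.trans_le hU5
  set L := Real.log U with hL
  have hLpos : 0 < L := by linarith
  have hGpos : 0 < G c U := Real.exp_pos _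
  have hprod : 0 < |γ| * G c U := (Real.rpow_pos_of_pos hUpos _).trans_le hγ1
  obtain ⟨s, hs⟩ : ∃ s : ℝ, |γ| * G c U = U ^ s := by
    refine ⟨Real.log (|γ| * G c U) / L, ?_⟩
    rw [Real.rpow_def_of_pos hUpos, ← hL, mul_div_cancel₀ _ hLpos.ne', Real.exp_log hprod]
  have hs1 : 80 / c ≤ s := by
    rw [hs] at hγ1
    exact (Real.rpow_le_rpow_left_iff hUone).1 hγ1
  have hs160 : 160 ≤ s := by
    refine le_trans ?_ hs1
    rw [le_div_iff₀ hc0]
    linarith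
  obtain ⟨hsA, hYlow, hgood⟩ := hG U hU2 γ s hs hγ2 hs1
  set Y := ⌊U ^ (c / 10)⌋₊ with hYdef
  have hY1' : (1 : ℝ) ≤ (Y : ℝ) := (Real.one_le_rpow hUone.le (by positivity)).trans hYlow
  have hY1 : 1 ≤ Y := by exact_mod_cast hY1'
  have hYup : (Y : ℝ) ≤ U ^ (c / 10) := Nat.floor_le (by positivity)
  have hAL : AA c U ≤ L := by
    unfold AA
    rw [← hL]
    calc L ^ c ≤ L ^ (1 : ℝ) := Real.rpow_le_rpow_of_exponent_le (by linarith) (by linarith)
      _ = L := Real.rpow_one L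
  refine ⟨Y, hY1, hYup.trans (Real.rpow_le_rpow_of_exponent_le hUone.le (by linarith)),
    fun x hx => ?_⟩
  have hS' := hS U hU3 s hs1 hsA Y hYlow
  obtain ⟨k, hk⟩ : ∃ k : ℕ, k = ⌈3 * s⌉₊ + 2 := ⟨_, rfl⟩
  rw [← hk] at hS'
  have hgood' := hgood x hx
  rw [← hk] at hgood'
  obtain ⟨T, hT1, hT2⟩ := hgood'
  have hk2 : 2 ≤ k := by omega
  set α : Fin k → ℝ := fun j => γ * iteratedDeriv (j.1 + 1) (G c) x / ((j.1 + 1).factorial : ℝ)
    with hα
  have hb := vkey hk2 hm hY1 α T fun j hj => ⟨(hT2 j hj).1, (hT2 j hj).2⟩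
  have hsav := hS' _ hT1
  have hbil : ‖Bil α Y‖ ≤ (Y : ℝ) ^ 2 * (1 / (2 * L ^ 20)) :=
    hb.trans (mul_le_mul_of_nonneg_left hsav (by positivity))
  have hkk : 3 * s + 3 ≤ (k : ℝ) + 1 := by
    have h1 := Nat.le_ceil (3 * s)
    rw [hk]
    push_cast
    linarith
  have hUbig : 2 * Real.pi * (1 / U) ≤ 1 / (2 * L ^ 20) := by
    have h1 := hx₄ U hU4
    rw [← hL] at h1
    simp only [id, Real.norm_eq_abs] at h1
    rw [abs_of_pos (by positivity), abs_of_pos hUpos, div_mul_eq_mul_div, one_mul,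
      le_div_iff₀ (by positivity)] at h1
    rw [mul_one_div, div_le_div_iff₀ hUpos (by positivity)]
    linarith
  -- pointwise
  have hpt : ∀ p ∈ Finset.Icc 1 Y, ∀ q ∈ Finset.Icc 1 Y,
      ‖e (γ * G c (x + (p : ℝ) * q)) -
        e (γ * G c x) * e (∑ l, α l * ((p : ℝ) * q) ^ (l.1 + 1))‖ ≤ 1 / (2 * L ^ 20) := by
    intro p hp q hq
    rw [← e_add]
    refine (e_sub_le _ _).trans (le_trans ?_ hUbig)
    have hpY : (p : ℝ) ≤ Y := by exact_mod_cast (Finset.mem_Icc.1 hp).2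
    have hqY : (q : ℝ) ≤ Y := by exact_mod_cast (Finset.mem_Icc.1 hq).2
    have hpq : (p : ℝ) * q ≤ U ^ (1 / 10 : ℝ) := by
      calc (p : ℝ) * q ≤ (Y : ℝ) * Y := mul_le_mul hpY hqY (Nat.cast_nonneg _) (Nat.cast_nonneg _)
        _ ≤ U ^ (c / 10) * U ^ (c / 10) :=
          mul_le_mul hYup hYup (Nat.cast_nonneg _) (by positivity)
        _ = U ^ (c / 10 + c / 10) := (Real.rpow_add hUpos _ _).symm
        _ ≤ U ^ (1 / 10 : ℝ) := Real.rpow_le_rpow_of_exponent_le hUone.le (by linarith)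
    have hpqU : (p : ℝ) * q ≤ U := by
      refine hpq.trans ?_
      calc U ^ (1 / 10 : ℝ) ≤ U ^ (1 : ℝ) :=
            Real.rpow_le_rpow_of_exponent_le hUone.le (by norm_num)
        _ = U := Real.rpow_one U
    have h1 := hT U hU1 x hx ((p : ℝ) * q) (by positivity) hpqU k γ
    rw [Finset.sum_range_succ', Finset.sum_range] at h1
    simp only [iteratedDeriv_zero, Nat.factorial_zero, Nat.cast_one, div_one, pow_zero, mul_one] at h1
    have h2 : γ * G c x + ∑ l, α l * ((p : ℝ) * q) ^ (l.1 + 1) =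
        (∑ l : Fin k, γ * iteratedDeriv (l.1 + 1) (G c) x / ((l.1 + 1).factorial : ℝ) *
          ((p : ℝ) * q) ^ (l.1 + 1)) + γ * G c x := by
      rw [add_comm]
    rw [h2]
    refine mul_le_mul_of_nonneg_left (h1.trans ?_) (by positivity)
    have h3 : ((p : ℝ) * q / U) ^ (k + 1) ≤ Real.exp (-(9 / 10) * L * ((k : ℝ) + 1)) := by
      have h4 : (p : ℝ) * q / U ≤ Real.exp (-(9 / 10) * L) := by
        rw [div_le_iff₀ hUpos]
        refine hpq.trans (le_of_eq ?_)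
        have h5 : U = Real.exp L := (Real.exp_log hUpos).symm
        rw [Real.rpow_def_of_pos hUpos, ← hL, h5, ← Real.exp_add]
        congr 1
        ring
      calc ((p : ℝ) * q / U) ^ (k + 1) ≤ (Real.exp (-(9 / 10) * L)) ^ (k + 1) :=
            pow_le_pow_left₀ (by positivity) h4 _
        _ = Real.exp (-(9 / 10) * L * ((k : ℝ) + 1)) := by
            rw [← Real.exp_nat_mul]
            congr 1
            push_cast
            ring
    rw [hs]
    calc U ^ s * Real.exp (10 * AA c U + (k + 1)) * ((p : ℝ) * q / U) ^ (k + 1)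
        ≤ U ^ s * Real.exp (10 * AA c U + (k + 1)) *
            Real.exp (-(9 / 10) * L * ((k : ℝ) + 1)) :=
          mul_le_mul_of_nonneg_left h3 (by positivity)
      _ = Real.exp (s * L + (10 * AA c U + ((k : ℝ) + 1)) + -(9 / 10) * L * ((k : ℝ) + 1)) := by
          rw [Real.rpow_def_of_pos hUpos, ← hL, ← Real.exp_add, ← Real.exp_add]
          congr 1
          ring
      _ ≤ Real.exp (-L) := Real.exp_le_exp.2 (err_bound hs160 hL4 hAL hkk)
      _ = 1 / U := by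
          rw [Real.exp_neg, hL, Real.exp_log hUpos, one_div]
  have hsum : ‖∑ p ∈ Finset.Icc 1 Y, ∑ q ∈ Finset.Icc 1 Y, e (γ * G c (x + (p : ℝ) * q)) -
      e (γ * G c x) * Bil α Y‖ ≤ (Y : ℝ) ^ 2 * (1 / (2 * L ^ 20)) := by
    unfold Bil
    rw [Finset.mul_sum, ← Finset.sum_sub_distrib]
    refine (norm_sum_le _ _).trans ?_
    have h1 : ∀ p ∈ Finset.Icc 1 Y, ‖∑ q ∈ Finset.Icc 1 Y, e (γ * G c (x + (p : ℝ) * q)) -
        e (γ * G c x) * ∑ y ∈ Finset.Icc 1 Y, e (∑ l, α l * ((p : ℝ) * y) ^ (l.1 + 1))‖ ≤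
        (Y : ℝ) * (1 / (2 * L ^ 20)) := by
      intro p hp
      rw [Finset.mul_sum, ← Finset.sum_sub_distrib]
      refine (norm_sum_le _ _).trans ?_
      refine (Finset.sum_le_sum fun q hq => hpt p hp q hq).trans (le_of_eq ?_)
      rw [Finset.sum_const, Nat.card_Icc, nsmul_eq_mul]
      simp only [Nat.add_sub_cancel]
    refine (Finset.sum_le_sum h1).trans (le_of_eq ?_)
    rw [Finset.sum_const, Nat.card_Icc, nsmul_eq_mul]
    simp only [Nat.add_sub_cancel]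
    ring
  calc _ = ‖(∑ p ∈ Finset.Icc 1 Y, ∑ q ∈ Finset.Icc 1 Y, e (γ * G c (x + (p : ℝ) * q)) -
      e (γ * G c x) * Bil α Y) + e (γ * G c x) * Bil α Y‖ := by rw [sub_add_cancel]
    _ ≤ (Y : ℝ) ^ 2 * (1 / (2 * L ^ 20)) + (Y : ℝ) ^ 2 * (1 / (2 * L ^ 20)) := by
      refine (norm_add_le _ _).trans (add_le_add hsum ?_)
      rw [norm_mul, e_norm, one_mul]
      exact hbil
    _ = (Y : ℝ) ^ 2 / L ^ 20 := by
      field_simp
      ring

end Pool.Agent.VINO
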