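import Pool.Agent.VINO.Tayl
import Pool.Agent.VINO.Good
import Pool.Agent.VINO.Num

/-!
# VINO / Win: the exponential sums over a window

PROOF.  `x = n`, `k = kk c n`, `α j = H^(j+1)(n) / (j+1)!` for `j : Fin k`, `α₀ = H c β n`. For
`p, q ∈ [1, Y]`: `h = p q ≤ Y^2 ≤ n^(c/6) ≤ n^(1/6)`, so by `taylor_window`
`|H (n + p q) - α₀ - ∑_j α_j (p q)^(j+1)| ≤ 1/n` (`Finset.sum_range_succ'`, `Finset.sum_range`), and
`‖e s - e t‖ ≤ 2π |s - t|`; so the double sum differs from `e α₀ * Bil α Y` by at most `Y^2 (2π/n)`.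
`good_set` (with `y = Y`), `vkey` (`k ≥ 2`, `m` from `sav_small`), `sav_small` with `ε/2`. The exponent
sum `S = ∑_{j ∈ T} (j+1)`.
-/

set_option autoImplicit false

namespace Pool.Agent.VINO

open Pool.Agent.VMV

private theorem e_add (s t : ℝ) : e (s + t) = e s * e t := by
  unfold e
  rw [← Complex.exp_add]
  congr 1
  push_cast
  ring

private theorem e_norm (t : ℝ) : ‖e t‖ = 1 := by
  unfold e
  rw [show 2 * (Real.pi : ℂ) * Complex.I * (t : ℂ) = ((2 * Real.pi * t : ℝ) : ℂ) * Complex.I by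
    push_cast; ring]
  exact Complex.norm_exp_ofReal_mul_I _

private theorem e_sub_le (s t : ℝ) : ‖e s - e t‖ ≤ 2 * Real.pi * |s - t| := by
  have h1 : e s = e (s - t) * e t := by
    rw [← e_add, sub_add_cancel]
  have h2 : e s - e t = (e (s - t) - 1) * e t := by
    rw [h1]
    ring
  rw [h2, norm_mul, e_norm, mul_one]
  have h3 : e (s - t) = Complex.exp (Complex.I * ((2 * Real.pi * (s - t) : ℝ) : ℂ)) := by
    unfold e
    congr 1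
    push_cast
    ring
  rw [h3]
  have h4 := Real.norm_exp_I_mul_ofReal_sub_one_le (x := 2 * Real.pi * (s - t))
  refine h4.trans (le_of_eq ?_)
  rw [Real.norm_eq_abs, abs_mul, abs_of_pos (by positivity)]

theorem window {c : ℝ} (hc0 : 0 < c) (hc1 : c < 1 / 2) {r : ℕ} (β : Fin (r + 1) → ℝ)
    (hβ : β ≠ 0) (ε : ℝ) (hε : 0 < ε) :
    ∃ n₀ : ℕ, ∀ n : ℕ, n₀ ≤ n → ∀ Y : ℕ, (n : ℝ) ^ (c / 24) ≤ (Y : ℝ) →
      (Y : ℝ) ≤ (n : ℝ) ^ (c / 12) →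
      ‖∑ p ∈ Finset.Icc 1 Y, ∑ q ∈ Finset.Icc 1 Y, e (H c β ((n : ℝ) + (p : ℝ) * q))‖ ≤
        ε * (Y : ℝ) ^ 2 := by
  obtain ⟨x₁, hx₁, hT⟩ := taylor_window hc0 hc1 β
  obtain ⟨x₂, hx₂, hG⟩ := good_set hc0 hc1 β hβ
  obtain ⟨m, hm, hS⟩ := sav_small hc0 hc1
  obtain ⟨x₃, hx₃, hS3⟩ := hS (ε / 2) (by positivity)
  refine ⟨⌈x₁⌉₊ + ⌈x₂⌉₊ + ⌈x₃⌉₊ + ⌈4 * Real.pi / ε⌉₊ + 1, fun n hn Y hY1 hY2 => ?_⟩
  have hnn : ((⌈x₁⌉₊ + ⌈x₂⌉₊ + ⌈x₃⌉₊ + ⌈4 * Real.pi / ε⌉₊ + 1 : ℕ) : ℝ) ≤ (n : ℝ) := by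
    exact_mod_cast hn
  push_cast at hnn
  have c1 := Nat.le_ceil x₁
  have c2 := Nat.le_ceil x₂
  have c3 := Nat.le_ceil x₃
  have c4 := Nat.le_ceil (4 * Real.pi / ε)
  have d4 : 0 < 4 * Real.pi / ε := by positivity
  have hn1 : x₁ ≤ (n : ℝ) := by linarith
  have hn2 : x₂ ≤ (n : ℝ) := by linarith
  have hn3 : x₃ ≤ (n : ℝ) := by linarith
  have hn4 : 4 * Real.pi / ε ≤ (n : ℝ) := by linarith
  have hn0 : (1 : ℝ) ≤ n := by linarith
  have hnpos : (0 : ℝ) < n := by linarith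
  have hY : 1 ≤ Y := by
    have h1 : (1 : ℝ) ≤ (n : ℝ) ^ (c / 24) := Real.one_le_rpow hn0 (by positivity)
    have h2 : (1 : ℝ) ≤ (Y : ℝ) := h1.trans hY1
    exact_mod_cast h2
  set k := kk c n with hk
  set α : Fin k → ℝ := fun j => iteratedDeriv (j.1 + 1) (H c β) n / ((j.1 + 1).factorial : ℝ) with hα
  have hk2 : 2 ≤ k := by
    rw [hk]
    unfold kk
    omega
  obtain ⟨T, hT1, hT2⟩ := hG n hn2 Y hY1 hY2
  have hb := vkey hk2 hm hY α T fun j hj => ⟨(hT2 j hj).1, (hT2 j hj).2⟩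
  have hsav := hS3 n hn3 Y hY1 _ hT1
  have hbil : ‖Bil α Y‖ ≤ (Y : ℝ) ^ 2 * (ε / 2) :=
    hb.trans (mul_le_mul_of_nonneg_left hsav (by positivity))
  -- pointwise
  have hpt : ∀ p ∈ Finset.Icc 1 Y, ∀ q ∈ Finset.Icc 1 Y,
      ‖e (H c β ((n : ℝ) + (p : ℝ) * q)) -
        e (H c β n) * e (∑ l, α l * ((p : ℝ) * q) ^ (l.1 + 1))‖ ≤ ε / 2 := by
    intro p hp q hq
    rw [← e_add]
    refine (e_sub_le _ _).trans ?_
    have hpY : (p : ℝ) ≤ Y := by exact_mod_cast (Finset.mem_Icc.1 hp).2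
    have hqY : (q : ℝ) ≤ Y := by exact_mod_cast (Finset.mem_Icc.1 hq).2
    have hpq : (p : ℝ) * q ≤ (n : ℝ) ^ (1 / 6 : ℝ) := by
      calc (p : ℝ) * q ≤ (Y : ℝ) * Y := mul_le_mul hpY hqY (Nat.cast_nonneg _) (Nat.cast_nonneg _)
        _ ≤ (n : ℝ) ^ (c / 12) * (n : ℝ) ^ (c / 12) :=
          mul_le_mul hY2 hY2 (Nat.cast_nonneg _) (by positivity)
        _ = (n : ℝ) ^ (c / 12 + c / 12) := (Real.rpow_add hnpos _ _).symm
        _ ≤ (n : ℝ) ^ (1 / 6 : ℝ) := Real.rpow_le_rpow_of_exponent_le hn0 (by linarith)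
    have h1 := hT n hn1 ((p : ℝ) * q) (by positivity) hpq
    rw [Finset.sum_range_succ', Finset.sum_range] at h1
    simp only [iteratedDeriv_zero, Nat.factorial_zero, Nat.cast_one, div_one, pow_zero, mul_one] at h1
    have h2 : H c β n + ∑ l, α l * ((p : ℝ) * q) ^ (l.1 + 1) =
        (∑ l : Fin (kk c n), iteratedDeriv (l.1 + 1) (H c β) n / ((l.1 + 1).factorial : ℝ) *
          ((p : ℝ) * q) ^ (l.1 + 1)) + H c β n := by
      rw [add_comm]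
    rw [h2]
    calc 2 * Real.pi * _ ≤ 2 * Real.pi * (1 / n) :=
          mul_le_mul_of_nonneg_left h1 (by positivity)
      _ ≤ ε / 2 := by
        rw [div_le_iff₀ hε] at hn4
        rw [mul_one_div, div_le_div_iff₀ hnpos (by norm_num)]
        linarith
  have hsum : ‖∑ p ∈ Finset.Icc 1 Y, ∑ q ∈ Finset.Icc 1 Y, e (H c β ((n : ℝ) + (p : ℝ) * q)) -
      e (H c β n) * Bil α Y‖ ≤ (Y : ℝ) ^ 2 * (ε / 2) := by
    unfold Bil
    rw [Finset.mul_sum, ← Finset.sum_sub_distrib]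
    refine (norm_sum_le _ _).trans ?_
    have h1 : ∀ p ∈ Finset.Icc 1 Y, ‖∑ q ∈ Finset.Icc 1 Y, e (H c β ((n : ℝ) + (p : ℝ) * q)) -
        e (H c β n) * ∑ y ∈ Finset.Icc 1 Y, e (∑ l, α l * ((p : ℝ) * y) ^ (l.1 + 1))‖ ≤
        (Y : ℝ) * (ε / 2) := by
      intro p hp
      rw [Finset.mul_sum, ← Finset.sum_sub_distrib]
      refine (norm_sum_le _ _).trans ?_
      refine (Finset.sum_le_sum fun q hq => hpt p hp q hq).trans (le_of_eq ?_)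
      rw [Finset.sum_const, Nat.card_Icc, nsmul_eq_mul]
      simp
    refine (Finset.sum_le_sum h1).trans (le_of_eq ?_)
    rw [Finset.sum_const, Nat.card_Icc, nsmul_eq_mul]
    simp only [Nat.add_sub_cancel]
    ring
  calc _ = ‖(∑ p ∈ Finset.Icc 1 Y, ∑ q ∈ Finset.Icc 1 Y, e (H c β ((n : ℝ) + (p : ℝ) * q)) -
      e (H c β n) * Bil α Y) + e (H c β n) * Bil α Y‖ := by rw [sub_add_cancel]
    _ ≤ (Y : ℝ) ^ 2 * (ε / 2) + (Y : ℝ) ^ 2 * (ε / 2) := by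
      refine (norm_add_le _ _).trans (add_le_add hsum ?_)
      rw [norm_mul, e_norm, one_mul]
      exact hbil
    _ = ε * (Y : ℝ) ^ 2 := by ring

end Pool.Agent.VINO
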